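import Pool.Agent.G5.St
import Pool.Agent.MldGeo.FreeAge
import Pool.Agent.MldGeo.DIA

/-!
# AGL: the log ages of a group without reflections and the arithmetic core
-/

namespace G5

open Matrix Pool.Agent.Mld MldGap MldGeo

noncomputable section

namespace AGL

theorem thr_of_fract_ne {t : ℝ} (h : Int.fract t ≠ 0) : thr t = Int.fract t := by
  have h0 : 0 < Int.fract t := lt_of_le_of_ne (Int.fract_nonneg _) (Ne.symm h)
  have h1 := Int.self_sub_floor t
  have h2 : ⌈t⌉ = ⌊t⌋ + 1 := by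
    rw [Int.ceil_eq_iff]
    push_cast
    have h3 := Int.fract_lt_one t
    constructor <;> linarith
  unfold thr
  rw [h2]
  push_cast
  linarith

theorem thr_of_fract_eq {t : ℝ} (h : Int.fract t = 0) : thr t = 1 := by
  obtain ⟨N, hN⟩ := Int.fract_eq_zero_iff.1 h
  unfold thr
  rw [← hN, Int.ceil_intCast]
  ring

theorem thr_add_int (t : ℝ) (N : ℤ) : thr (t + N) = thr t := by
  unfold thr
  rw [Int.ceil_add_intCast]
  push_cast
  ring

theorem exp_nat {z : ℂ} (hz : ‖z‖ = 1) (k : ℕ) :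
    z ^ k = Complex.exp (((2 * Real.pi * ((k : ℝ) * th z) : ℝ) : ℂ) * Complex.I) := by
  conv_lhs => rw [← exp_th hz, ← Complex.exp_nat_mul]
  congr 1
  push_cast
  ring

theorem th_pow {z : ℂ} (hz : ‖z‖ = 1) (k : ℕ) : th (z ^ k) = thr ((k : ℝ) * th z) := by
  rw [exp_nat hz k, th_eq_fr, Mk.fr_exp]
  split_ifs with h
  · rw [thr_of_fract_eq h]
  · rw [thr_of_fract_ne h]

theorem pow_eq_one_of_fract {z : ℂ} (hz : ‖z‖ = 1) (k : ℕ)
    (h : Int.fract ((k : ℝ) * th z) = 0) : z ^ k = 1 := by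
  obtain ⟨N, hN⟩ := Int.fract_eq_zero_iff.1 h
  rw [exp_nat hz k, ← hN]
  have h3 : (((2 * Real.pi * (N : ℝ) : ℝ) : ℂ) * Complex.I) = N * (2 * Real.pi * Complex.I) := by
    push_cast
    ring
  rw [h3, Complex.exp_int_mul_two_pi_mul_I]

theorem fract_of_pow_eq_one {z : ℂ} (hz : ‖z‖ = 1) (k : ℕ) (h : z ^ k = 1) :
    Int.fract ((k : ℝ) * th z) = 0 := by
  by_contra hne
  have h1 := th_pow hz k
  rw [h, th_one, thr_of_fract_ne hne] at h1
  have h2 := Int.fract_lt_one ((k : ℝ) * th z)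
  linarith

/-- The matrix `h` of finite order with at most one eigenvalue `≠ 1` is `1 + c dᵀ`. -/
theorem exists_rank_one {n : ℕ} (h : GL (Fin n) ℂ) (m : ℕ) (hm : 0 < m) (hh : h ^ m = 1)
    (F : Fin n → ℂ) (hF : eig h = (Finset.univ : Finset (Fin n)).val.map F) (i : Fin n)
    (hi : ∀ j, j ≠ i → F j = 1) :
    ∃ c d : Fin n → ℂ, ∀ a b, (h : Matrix (Fin n) (Fin n) ℂ) a b =
      (1 : Matrix (Fin n) (Fin n) ℂ) a b + c a * d b := by
  classical
  have hM : (h : Matrix (Fin n) (Fin n) ℂ) ^ m = 1 := by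
    rw [← Units.val_pow_eq_pow_val, hh, Units.val_one]
  obtain ⟨P, l, hP⟩ := DIA.exists_diag _ _ hm hM
  have h1 : (h : Matrix (Fin n) (Fin n) ℂ) =
      ((P⁻¹ : GL (Fin n) ℂ) : Matrix (Fin n) (Fin n) ℂ) * Matrix.diagonal l *
        (P : Matrix (Fin n) (Fin n) ℂ) := by
    rw [mul_assoc, ← hP, ← mul_assoc, Units.inv_mul, one_mul]
  have h2 : eig h = (Finset.univ : Finset (Fin n)).val.map l := by
    unfold eig
    rw [h1, Matrix.coe_units_inv, Matrix.charpoly_units_conj', Matrix.charpoly_diagonal]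
    have h2 : (∏ i, (Polynomial.X - Polynomial.C (l i))) =
        ((Multiset.map l Finset.univ.val).map fun a => Polynomial.X - Polynomial.C a).prod := by
      rw [Multiset.map_map]
      rfl
    rw [h2, Polynomial.roots_multiset_prod_X_sub_C]
  have h3 : (Finset.univ.filter fun j => l j ≠ 1).card ≤ 1 := by
    have h4 : (Finset.univ.filter fun j => l j ≠ 1).card =
        (Finset.univ.filter fun j => F j ≠ 1).card := by
      have h5 : Multiset.countP (fun z => z ≠ 1) ((Finset.univ : Finset (Fin n)).val.map l) =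
          Multiset.countP (fun z => z ≠ 1) ((Finset.univ : Finset (Fin n)).val.map F) := by
        rw [← h2, ← hF]
      rw [Multiset.countP_map, Multiset.countP_map] at h5
      exact h5
    rw [h4, Finset.card_le_one]
    intro a ha b hb
    have ha' : a = i := by
      by_contra hne
      exact (Finset.mem_filter.1 ha).2 (hi a hne)
    have hb' : b = i := by
      by_contra hne
      exact (Finset.mem_filter.1 hb).2 (hi b hne)
    rw [ha', hb']
  obtain ⟨i0, hi0⟩ : ∃ i0, ∀ j, j ≠ i0 → l j = 1 := by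
    by_cases hemp : ∃ i0, l i0 ≠ 1
    · obtain ⟨i0, h0⟩ := hemp
      refine ⟨i0, fun j hj => ?_⟩
      by_contra hne
      apply hj
      exact Finset.card_le_one.1 h3 j (Finset.mem_filter.2 ⟨Finset.mem_univ _, hne⟩) i0
        (Finset.mem_filter.2 ⟨Finset.mem_univ _, h0⟩)
    · push Not at hemp
      exact ⟨i, fun j _ => hemp j⟩
  refine ⟨fun a => ((P⁻¹ : GL (Fin n) ℂ) : Matrix (Fin n) (Fin n) ℂ) a i0 * (l i0 - 1),
    fun b => (P : Matrix (Fin n) (Fin n) ℂ) i0 b, fun a b => ?_⟩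
  have h6 : (h : Matrix (Fin n) (Fin n) ℂ) - 1 =
      ((P⁻¹ : GL (Fin n) ℂ) : Matrix (Fin n) (Fin n) ℂ) * Matrix.diagonal (fun j => l j - 1) *
        (P : Matrix (Fin n) (Fin n) ℂ) := by
    have h7 : Matrix.diagonal (fun j => l j - 1) = Matrix.diagonal l - 1 := by
      ext a b
      by_cases hab : a = b
      · subst hab
        simp
      · simp [hab]
    rw [h7, mul_sub, sub_mul, ← h1, mul_one, Units.inv_mul]
  have h8 : ((h : Matrix (Fin n) (Fin n) ℂ) - 1) a b =
      ((P⁻¹ : GL (Fin n) ℂ) : Matrix (Fin n) (Fin n) ℂ) a i0 * (l i0 - 1) *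
        (P : Matrix (Fin n) (Fin n) ℂ) i0 b := by
    rw [h6, Matrix.mul_apply, Finset.sum_eq_single i0]
    · rw [Matrix.mul_diagonal]
    · intro j _ hj
      rw [Matrix.mul_diagonal, hi0 j hj]
      ring
    · intro hno
      exact absurd (Finset.mem_univ _) hno
  rw [Matrix.sub_apply] at h8
  linear_combination h8

end AGL

open AGL in
theorem t_AGL : Stmt_AGL := by
  classical
  intro n G _ l b hrefl hcore hlt
  -- an element with the least value
  obtain ⟨g, hgG, hgmin⟩ : ∃ g ∈ G, logAge g = mldQuot G := by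
    have hfin : {a : ℝ | ∃ g ∈ G, logAge g = a}.Finite := by
      have h1 : {a : ℝ | ∃ g ∈ G, logAge g = a} = Set.range fun g : G => logAge (g : GL (Fin n) ℂ) := by
        ext a
        constructor
        · rintro ⟨g, hg, rfl⟩
          exact ⟨⟨g, hg⟩, rfl⟩
        · rintro ⟨g, rfl⟩
          exact ⟨g, g.2, rfl⟩
      rw [h1]
      exact Set.finite_range _
    exact (quot_nonempty G).csInf_mem hfin
  obtain ⟨m, hm, hgm⟩ := exists_pow hgG
  obtain ⟨L, hL⟩ := Quot.exists_rep (eig g)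
  have hLn : L.length = n := by
    have := Pool.Agent.Mld.card_eig g
    rw [← hL] at this
    exact this
  subst hLn
  obtain ⟨f, hf⟩ : ∃ f : Fin L.length → ℂ, f = fun i => L.get i := ⟨_, rfl⟩
  have hfe : eig g = (Finset.univ : Finset (Fin L.length)).val.map f := by
    rw [← hL, Fin.univ_val_map, hf]
    simp only [List.ofFn_get]
    rfl
  have hnorm : ∀ i, ‖f i‖ = 1 := fun i => by
    refine norm_eig hm hgm ?_
    rw [hfe]
    exact Multiset.mem_map_of_mem _ (Finset.mem_univ i)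
  have heig : ∀ k : ℕ, eig (g ^ k) =
      (Finset.univ : Finset (Fin L.length)).val.map fun i => f i ^ k := by
    intro k
    rw [eig_pow, hfe, Multiset.map_map]
    rfl
  have hage : ∀ k : ℕ, logAge (g ^ k) = ∑ i, thr ((k : ℝ) * th (f i)) := by
    intro k
    rw [logAge_eq, heig, Multiset.map_map]
    exact Finset.sum_congr rfl fun i _ => th_pow (hnorm i) k
  have hage1 : logAge g = ∑ i, th (f i) := by
    rw [logAge_eq, hfe, Multiset.map_map]
    rfl
  -- the numbers are multiples of `1 / m`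
  have hint : ∀ i, ∃ N : ℤ, (m : ℝ) * th (f i) = N := by
    intro i
    have h2 : f i ^ m = 1 := by
      have h3 : f i ^ m ∈ eig (g ^ m) := by
        rw [heig]
        exact Multiset.mem_map_of_mem _ (Finset.mem_univ i)
      rw [hgm, eig_one'] at h3
      exact Multiset.eq_of_mem_replicate h3
    have h1 := fract_of_pow_eq_one (hnorm i) m h2
    obtain ⟨N, hN⟩ := Int.fract_eq_zero_iff.1 h1
    exact ⟨N, hN.symm⟩
  -- reduction of the multiples modulo `m`
  have hred : ∀ k : ℤ, ∃ k' : ℕ, ∀ i, ∃ N : ℤ, (k : ℝ) * th (f i) = (k' : ℝ) * th (f i) + N := by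
    intro k
    obtain ⟨k', hk'⟩ : ∃ k' : ℕ, (k' : ℤ) = k % m :=
      ⟨(k % m).toNat, Int.toNat_of_nonneg (Int.emod_nonneg _ (by exact_mod_cast hm.ne'))⟩
    refine ⟨k', fun i => ?_⟩
    obtain ⟨N, hN⟩ := hint i
    have h1 : (k : ℝ) = (k' : ℝ) + (m : ℝ) * ((k / m : ℤ) : ℝ) := by
      have h2 := Int.emod_add_mul_ediv k m
      rw [← hk'] at h2
      exact_mod_cast h2.symm
    refine ⟨k / m * N, ?_⟩
    rw [h1]
    push_cast
    rw [← hN]
    ring
  rw [← hgmin, hage1] at hlt ⊢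
  refine hcore _ le_rfl _ ⟨fun i => th_pos _, fun i => th_le_one _, hlt, fun k => ?_,
    fun i k hk => ?_⟩
  · obtain ⟨k', hk'⟩ := hred k
    have h1 : mldQuot G ≤ logAge (g ^ k') := csInf_le (quot_bddBelow G) ⟨_, G.pow_mem hgG k', rfl⟩
    rw [← hgmin, hage1, hage] at h1
    refine h1.trans (le_of_eq ?_)
    refine Finset.sum_congr rfl fun i _ => ?_
    obtain ⟨N, hN⟩ := hk' i
    rw [hN, thr_add_int]
  · obtain ⟨k', hk'⟩ := hred k
    have hfr : ∀ j, Int.fract ((k : ℝ) * th (f j)) = Int.fract ((k' : ℝ) * th (f j)) := by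
      intro j
      obtain ⟨N, hN⟩ := hk' j
      rw [hN, Int.fract_add_intCast]
    have hone : ∀ j, j ≠ i → f j ^ k' = 1 := fun j hj =>
      pow_eq_one_of_fract (hnorm j) k' (by rw [← hfr j]; exact hk j hj)
    have hord : (g ^ k') ^ m = 1 := by
      rw [← pow_mul, mul_comm, pow_mul, hgm, one_pow]
    obtain ⟨c, d, hcd⟩ := exists_rank_one (g ^ k') m hm hord (fun j => f j ^ k') (heig k') i hone
    have h1 := hrefl _ (G.pow_mem hgG k') c d hcd
    rw [hfr i]
    refine fract_of_pow_eq_one (hnorm i) k' ?_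
    have h3 : f i ^ k' ∈ eig (g ^ k') := by
      rw [heig]
      exact Multiset.mem_map_of_mem _ (Finset.mem_univ i)
    rw [h1, eig_one'] at h3
    exact Multiset.eq_of_mem_replicate h3

end

end G5
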