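import Pool.Agent.G5.Chk

set_option autoImplicit false

/-!
# The certificates for `(n, l, K) = (2, 1, 3), (3, 1, 26), (4, 2, 26), (6, 3, 1518)`
-/

namespace G5.Bb.Cert

open C

def aroot : C := T0 1 2 (T1 1 2 (N 2) (O 0) (O 0)) (T1 1 3 (R 1 2) (R 0 3) (P 3)) (P 2)
def broot : C := T0 1 2 (T1 1 2 (T2 1 2 (T0 1 3 (T1 1 3 (T2 1 3 (N 3) (O 1) (O 1)) (O 0) (O 0)) (T1 1 3 (T2 1 3 (Q 4) (O 1) (O 1)) (Q 4) (O 0)) (T1 1 3 (T2 1 3 (T1 1 4 (T2 1 4 (N 4) (O 1) (O 1)) (T2 1 4 (Q 5) (Q 5) (O 1)) (T2 1 4 (T0 2 5 (N 12) (N 12) (T2 1 5 (T2 1 6 (N 6) (Q 7) (T0 3 7 (N 9) (N 9) (T1 2 7 (N 10) (N 10) (P 7)))) (T0 3 7 (N 9) (N 9) (T1 2 7 (N 14) (N 24) (P 7))) (P 5))) (T0 2 5 (N 15) (Q 13)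 (P 5)) (P 4))) (O 1) (O 1)) (T2 1 4 (T0 2 5 (N 20) (T2 3 13 (N 17) (N 17) (P 13)) (T2 1 5 (T2 1 6 (T2 1 7 (N 14) (N 20) (Q 7)) (Q 7) (T0 3 7 (N 14) (N 20) (P 7))) (T0 3 7 (N 14) (N 23) (P 7)) (P 5))) (T0 2 5 (R 0 12) (P 13) (P 5)) (P 4)) (P 3))) (O 1) (O 1)) (O 0) (O 0)) (T1 1 3 (T2 1 3 (T1 1 4 (T2 1 4 (Q 5) (O 1) (O 1)) (Q 5) (T2 1 5 (T2 1 6 (T2 1 7 (N 21) (T1 8 25 (N 25) (R 0 175) (R 1 14)) (Q 7)) (Q 7) (T1 2 7 (T1 3 11 (N 25) (N 25) (T2 2 11 (N 21) (N 21) (P 11))) (R 2 14) (P 7))) (T1 2 7 (R 1 10) (P 11) (P 7)) (P 5))) (O 1) (O 1)) (T2 1 7 (R 2 6) (R 0 21) (P 7)) (P 3)) (P 2)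
def c0 : C := T2 1 2 (T3 1 2 (N 2) (O 2) (O 2)) (O 1) (O 1)
def croot : C := T0 1 2 (T1 1 2 (T2 1 2 (N 2) (O 1) (O 1)) (O 0) (O 0)) (T1 1 2 c0 (T2 1 2 (T3 1 2 (Q 3) (O 2) (O 2)) (Q 3) (O 1)) (O 0)) (T1 1 2 c0 (T2 1 2 (T3 1 2 (T0 2 3 (T2 1 3 (N 3) (Q 5) (T3 1 3 (N 3) (Q 5) (P 3))) (T2 1 3 (Q 5) (Q 5) (T3 1 3 (Q 5) (Q 5) (P 3))) (T2 1 3 (T3 1 3 (N 3) (O 2) (O 2)) (T3 1 3 (T3 1 4 (T3 1 5 (N 5) (Q 7) (Q 5)) (Q 5) (Q 4)) (Q 4) (O 2)) (P 3))) (O 2) (O 2)) (T0 2 3 (T3 1 3 (N 3) (Q 5) (P 3)) (Q 5) (P 3)) (O 1)) (P 2))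
def d0 : C := T2 1 2 (T3 1 2 (T4 1 2 (N 2) (O 3) (O 3)) (O 2) (O 2)) (O 1) (O 1)
def d1 : C := T3 1 2 (T4 1 2 (T5 1 2 (N 2) (O 4) (O 4)) (O 3) (O 3)) (O 2) (O 2)
def d2 : C := T4 1 3 (N 3) (Q 5) (T5 1 3 (N 3) (Q 5) (P 3))
def d3 : C := T4 1 3 (Q 5) (Q 5) (T5 1 3 (Q 5) (Q 5) (P 3))
def d4 : C := T1 3 5 (T3 2 5 (N 5) (Q 7) (T4 2 5 (N 5) (Q 7) (P 5))) (T3 2 5 (Q 7) (Q 7) (T4 2 5 (Q 7) (Q 7) (P 5))) (T3 2 5 (Q 5) (Q 5) (P 5))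
def d5 : C := T4 1 3 (T5 1 3 (N 3) (O 4) (O 4)) (O 3) (O 3)
def d6 : C := T5 1 4 (T5 1 5 (N 5) (Q 7) (Q 5)) (Q 5) (P 4)
def d7 : C := T5 1 6 (T5 1 7 (N 7) (N 13) (Q 7)) (Q 7) (Q 7)
def d8 : C := T0 3 4 (T1 3 4 (N 5) (O 0) (O 0)) (T1 3 4 (N 5) (N 5) (O 0)) (T1 3 4 (T4 1 4 (T5 1 4 (N 4) (O 4) (O 4)) (T5 1 4 (T5 1 5 (N 5) (Q 7) (Q 5)) (Q 5) (O 4)) (T5 1 4 (T5 1 5 (N 5) (T1 5 7 (T4 2 7 (N 7) (Q 11) (Q 7)) (T4 2 7 (Q 13) (Q 11) (Q 7)) (Q 7)) (Q 5)) (Q 5) (P 4))) (T4 1 4 (T5 1 4 (Q 7) (O 4) (O 4)) (T5 1 4 (Q 7) (Q 5) (O 4)) d6) (T4 1 4 (T5 1 4 (T0 4 5 (T4 1 5 (N 5) (Q 7) (T5 1 5 (N 5) (Q 7) (Q 5))) (T4 1 5 (T5 1 5 (N 5) (O 4) (O 4)) (Q 7) (T5 1 5 (T5 1 6 (N 11) (N 11) (Q 7))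 (Q 7) (Q 5))) (T1 4 5 (T4 1 5 (N 5) (Q 7) (T5 1 5 (N 5) (Q 7) (P 5))) (T4 1 5 (T5 1 5 (N 5) (O 4) (O 4)) (Q 7) (T5 1 5 (T5 1 6 (N 11) (N 11) (Q 7)) (Q 7) (P 5))) (T4 1 5 (T5 1 5 (N 5) (O 4) (O 4)) (T5 1 5 (T0 5 6 d7 (Q 11) (T1 5 6 d7 (Q 11) (T5 1 6 (T0 6 7 (Q 11) (Q 11) (T1 6 7 (Q 11) (Q 11) (P 7))) (T0 6 7 (Q 7) (Q 7) (P 7)) (P 6)))) (T0 5 6 (Q 7) (Q 7) (T1 5 6 (Q 7) (P 11) (P 6))) (O 4)) (P 5)))) (O 4) (O 4)) (T5 1 4 (T0 4 5 (T5 1 5 (N 5) (Q 7) (Q 5)) (T5 1 5 (Q 9) (Q 7) (Q 5)) (T1 4 5 (T5 1 5 (N 5) (Q 7) (P 5)) (T5 1 5 (Q 9) (Q 7) (P 5)) (P 5))) (T0 4 5 (Q 5) (Q 5) (P 5)) (O 4)) (P 4)))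
def d9 : C := T1 2 3 (T3 1 3 (T4 1 3 (N 3) (O 3) (O 3)) (T4 1 3 (T5 1 3 (N 3) (O 4) (O 4)) (T5 1 3 (T5 1 4 (Q 7) (Q 7) (Q 4)) (Q 4) (O 4)) (O 3)) (T4 1 3 (T5 1 3 (N 3) (O 4) (O 4)) (T5 1 3 (T0 3 4 (T5 1 4 (N 4) (Q 5) (T1 3 5 (N 5) (N 8) (Q 5))) (T5 1 4 (Q 5) (Q 5) (T1 3 5 (N 5) (Q 7) (Q 5))) (T5 1 4 (T0 4 5 (Q 7) (Q 7) (T1 3 5 (T3 2 5 (N 5) (T5 1 5 (N 5) (Q 11) (T1 4 7 (N 7) (Q 11) (Q 7))) (T5 1 5 (N 5) (T1 4 7 (T3 3 7 (N 7) (Q 17) (Q 7)) (T3 3 7 (Q 11) (Q 11) (Q 7)) (Q 7)) (P 5))) (T3 2 5 (Q 7) (Q 7) (T5 1 5 (T5 1 6 (T3 3 7 (N 11) (N 11) (Q 7)) (Q 7) (Q 7)) (Q 7) (P 5))) (T3 2 5 (T5 1 5 (N 5) (Q 7) (P 5)) (T5 1 5 (T5 1 6 (T5 1 7 (N 7) (Q 13) (Q 7)) (Q 7) (Q 7)) (Q 7) (P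 5)) (P 5)))) (T0 4 5 (Q 5) (Q 5) (T1 3 5 (T3 2 5 (N 5) (T1 4 7 (N 7) (Q 9) (Q 7)) (P 5)) (T3 2 5 (Q 7) (Q 7) (P 5)) (P 5))) (P 4))) (T0 3 4 (T1 3 5 (N 5) (N 8) (Q 5)) (Q 7) (P 4)) (O 4)) (P 3))) (T3 1 3 d5 (T4 1 3 (T5 1 3 (T4 1 4 (T5 1 4 (N 4) (O 4) (O 4)) (Q 5) (T5 1 4 (T5 1 5 (N 5) (Q 7) (Q 5)) (Q 5) (Q 4))) (O 4) (O 4)) (T5 1 3 (T5 1 4 (Q 7) (Q 5) (Q 4)) (Q 4) (O 4)) (O 3)) (T4 1 3 (T5 1 3 (T0 3 4 (Q 5) (Q 5) (T4 1 4 (T5 1 4 (N 4) (O 4) (O 4)) (T5 1 4 (T3 2 5 (N 7) (N 7) (Q 5)) (Q 5) (O 4)) (T5 1 4 (T0 4 5 (T5 1 5 (N 5) (Q 7) (Q 5)) (T5 1 5 (Q 7) (Q 7) (Q 5)) (T3 2 5 (T5 1 5 (N 5) (T4 2 7 (N 7) (Q 11) (Q 7)) (P 5)) (T5 1 5 (T5 1 6 (T4 2 7 (N 7) (N 17) (Q 11)) (Q 8) (Q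 8)) (Q 8) (P 5)) (P 5))) (T0 4 5 (Q 5) (Q 5) (P 5)) (P 4)))) (O 4) (O 4)) (T5 1 3 (T0 3 4 (Q 5) (Q 5) (T5 1 4 (T0 4 5 (Q 7) (Q 7) (T3 2 5 (T5 1 5 (N 5) (Q 7) (P 5)) (T5 1 5 (T5 1 6 (Q 11) (Q 7) (Q 7)) (Q 7) (P 5)) (P 5))) (T0 4 5 (Q 5) (Q 5) (P 5)) (P 4))) (T0 3 4 (Q 5) (P 7) (P 4)) (O 4)) (P 3))) (T3 1 3 d5 (T4 1 3 (T5 1 3 d8 (O 4) (O 4)) (T5 1 3 (T0 3 4 (T1 3 4 (N 5) (O 0) (O 0)) (T1 3 4 (N 5) (N 5) (O 0)) (T1 3 4 d6 (T5 1 4 (T5 1 5 (N 5) (P 7) (P 7)) (P 7) (P 4)) (P 4))) (T0 3 4 (Q 7) (P 7) (P 4)) (O 4)) (O 3)) (P 3))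
def d10 : C := T1 3 5 (T4 2 5 (N 5) (Q 7) (P 5)) (P 7) (P 5)
def d11 : C := T4 1 2 (T5 1 2 (T0 2 3 (T1 2 3 (T4 1 3 (N 3) (T5 1 3 (N 3) (Q 5) (O 4)) (T5 1 3 (N 3) (T0 3 5 (T1 3 5 (N 5) (O 0) (O 0)) (T1 3 5 (Q 7) (P 7) (O 0)) d10) (P 3))) (O 0) (O 0)) (T1 2 3 (T4 1 3 (T5 1 3 (N 3) (O 4) (O 4)) (T5 1 3 (Q 5) (Q 5) (O 4)) (T5 1 3 (T5 1 4 (T1 3 5 (Q 5) (Q 5) (Q 5)) (Q 5) (T1 3 5 (T4 2 5 (N 5) (Q 7) (P 5)) (T4 2 5 (Q 7) (Q 7) (P 5)) (P 5))) d10 (P 3))) (T4 1 3 (T5 1 3 (Q 5) (O 4) (O 4)) (Q 5) (T5 1 4 (Q 5) (P 5) (P 5))) (O 0)) (T1 2 3 (T4 1 3 (T5 1 3 (N 3) (O 4) (O 4)) (T5 1 3 (T0 3 4 (T5 1 4 (Q 5) (Q 5) (T1 3 5 (N 5) (Q 7) (P 5))) (Q 7) (T5 1 4 (T0 4 5 (Q 7) (Q 7) (T1 3 5 (T5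 1 5 (N 5) (Q 7) (P 5)) (T5 1 5 (Q 7) (P 7) (P 5)) (P 5))) (T0 4 5 (Q 5) (Q 5) (P 5)) (P 4))) (T0 3 4 (Q 7) (P 7) (P 4)) (O 4)) (P 3)) (T4 1 3 (T5 1 3 (T0 3 4 (Q 5) (Q 5) (T4 1 4 (T5 1 4 (T4 1 5 (T5 1 5 (N 5) (O 4) (O 4)) (T5 1 5 (Q 11) (Q 7) (O 4)) (Q 5)) (O 4) (O 4)) (T5 1 4 (Q 5) (P 5) (O 4)) (T5 1 4 (T0 4 5 (Q 11) (Q 11) (P 5)) (P 5) (P 4)))) (O 4) (O 4)) (T0 3 4 (Q 5) (Q 5) (T0 4 5 (Q 7) (Q 7) (P 5))) (P 3)) (P 3))) (O 4) (O 4)) (T0 2 3 (T1 2 3 (T5 1 3 (N 3) (T0 3 5 (T1 3 5 (N 5) (O 0) (O 0)) (P 7) (P 5)) (P 3)) (O 0) (O 0)) (T1 2 3 (T5 1 4 (Q 7) (P 5) (P 5)) (P 5) (O 0)) (P 3)) (O 3)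
def d12 : C := T1 1 2 d0 (T2 1 2 d1 (T3 1 2 (T4 1 2 (T5 1 2 (T0 2 3 (T3 1 3 (N 3) (Q 5) d2) (T3 1 3 (Q 5) (Q 5) d3) (T3 1 3 (T4 1 3 (N 3) (O 3) (O 3)) (T4 1 3 (T5 1 3 (N 3) (O 4) (O 4)) (T5 1 3 (N 5) (N 5) (O 4)) (O 3)) (T4 1 3 (T5 1 3 (N 3) (O 4) (O 4)) (T5 1 3 (T5 1 4 (T5 1 5 (N 5) (Q 7) (Q 5)) (Q 5) (T3 2 5 (N 5) (Q 13) (Q 5))) (T3 2 5 (N 5) (Q 7) (Q 5)) (O 4)) (P 3)))) (O 4) (O 4)) (O 3) (O 3)) (T4 1 2 (T5 1 2 (T0 2 3 d2 d3 (T4 1 3 (T5 1 3 (N 3) (O 4) (O 4)) (T5 1 3 (T5 1 4 (Q 7) (Q 5) (Q 5)) (Q 5) (O 4)) (P 3))) (O 4) (O 4)) (T0 2 3 (T5 1 3 (N 3) (Q 5) (P 3)) (Q 5) (P 3)) (O 3)) (O 2)) (O 1)) (T2 1 2 d1 (T3 1 2 (T4 1 2 (T5 1 2 (T0 2 3 (T1 2 3 (T3 1 3 (N 3) (T4 1 3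 (N 3) (Q 5) (O 3)) (T4 1 3 (N 3) (T5 1 3 (N 3) (Q 5) (O 4)) (T5 1 3 (N 3) (T0 3 5 (T1 3 5 (N 5) (O 0) (O 0)) (T1 3 5 (N 8) (N 8) (O 0)) d4) (P 3)))) (O 0) (O 0)) (T1 2 3 (T3 1 3 (T4 1 3 (N 3) (O 3) (O 3)) (T4 1 3 (Q 5) (Q 5) (O 3)) (T4 1 3 (T5 1 3 (N 3) (O 4) (O 4)) (T5 1 3 (Q 5) (Q 5) (O 4)) (T5 1 3 (T5 1 4 (N 4) (Q 5) d4) d4 (P 3)))) (T3 1 3 (T4 1 3 (Q 5) (O 3) (O 3)) (T4 1 3 (Q 5) (Q 5) (O 3)) (T4 1 3 (T5 1 3 (Q 5) (O 4) (O 4)) (T5 1 3 (Q 5) (Q 5) (O 4)) (T5 1 3 (T5 1 4 (N 4) (Q 5) (T3 2 5 (Q 5) (Q 5) (P 5))) (T3 2 5 (Q 5) (Q 5) (P 5)) (P 3)))) (O 0)) d9) (O 4) (O 4)) (O 3) (O 3)) d11 (O 2)) (P 2))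
def droot : C := T0 1 2 (T1 1 2 (T2 1 2 (T3 1 2 (N 2) (O 2) (O 2)) (O 1) (O 1)) (O 0) (O 0)) (T1 1 2 d0 (T2 1 2 d1 (T3 1 2 (T4 1 2 (T5 1 2 (Q 3) (O 4) (O 4)) (O 3) (O 3)) (T4 1 2 (T5 1 2 (Q 3) (O 4) (O 4)) (Q 3) (O 3)) (O 2)) (O 1)) (O 0)) d12

/-- The unit interval. -/
abbrev u : Iv := Iv.I 0 1 1 1

theorem ok21 : chk 1 3 aroot [u, u] = true := by decide +kernel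

theorem ok31 : chk 1 26 broot [u, u, u] = true := by decide +kernel

theorem ok42 : chk 2 26 croot [u, u, u, u] = true := by decide +kernel

theorem ok63 : chk 3 1518 droot [u, u, u, u, u, u] = true := by decide +kernel

end G5.Bb.Cert
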