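import Pool.Agent.G5.Chk

set_option autoImplicit false

/-!
# The certificate for `(n, l, K) = (5, 2, 1518)`
-/

namespace G5.Bb.Cert

open C

def e0 : C := T2 1 3 (T3 1 3 (N 3) (O 2) (O 2)) (O 1) (O 1)
def e1 : C := T3 1 3 (T4 1 3 (N 3) (O 3) (O 3)) (O 2) (O 2)
def e2 : C := T3 2 7 (T3 3 11 (Q 13) (Q 13) (Q 11)) (Q 11) (T4 2 7 (T4 3 11 (Q 13) (Q 13) (Q 11)) (Q 11) (Q 7))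
def e3 : C := T3 2 7 (Q 13) (Q 11) (T4 2 7 (Q 13) (Q 11) (Q 7))
def e4 : C := T4 1 3 (T3 1 4 (T4 1 4 (Q 5) (O 3) (O 3)) (Q 5) (T4 1 5 (Q 7) (Q 7) (P 5))) (O 3) (O 3)
def e5 : C := T1 1 2 (T2 1 2 (T3 1 2 (T4 1 2 (T1 1 3 e0 (T2 1 3 (T3 1 3 (Q 7) (O 2) (O 2)) (T3 1 3 (Q 7) (Q 7) (O 2)) (O 1)) (T2 1 3 e1 (T3 1 3 (T4 1 3 (Q 7) (O 3) (O 3)) (T4 1 3 (Q 7) (Q 7) (O 3)) (O 2)) (T3 1 3 (T4 1 3 (T3 1 4 (T4 1 4 (N 4) (O 3) (O 3)) (Q 5) (T4 1 4 (T4 1 5 (Q 7) (Q 7) (Q 5)) (Q 5) (T1 2 5 e2 e3 (T2 2 5 e2 e3 (P 5))))) (O 3) (O 3)) (T4 1 3 (T4 1 4 (T4 1 5 (Q 7) (Q 7) (Q 5)) (Q 5) (T1 2 5 (T4 2 7 (Q 19) (Q 11) (Q 7)) (T4 2 7 (Q 13) (Q 11) (Q 7)) (T2 2 5 (T4 2 7 (Q 19) (Q 11) (Q 7)) (T4 2 7 (Q 13) (Q 11) (Q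 7)) (P 5)))) (T1 2 5 (Q 7) (Q 7) (T2 2 5 (Q 7) (P 13) (P 5))) (O 3)) (P 3)))) (O 3) (O 3)) (O 2) (O 2)) (O 1) (O 1)) (T2 1 2 (T3 1 2 (T4 1 2 (T2 1 3 e1 (T3 1 3 (T4 1 3 (Q 7) (O 3) (O 3)) (Q 7) (O 2)) (T3 1 3 (T4 1 3 (T3 1 4 (T4 1 4 (Q 5) (O 3) (O 3)) (Q 5) (T4 1 4 (T4 1 5 (Q 7) (Q 7) (Q 5)) (Q 5) (T2 2 5 (T3 2 7 (T3 3 11 (Q 13) (Q 13) (Q 11)) (Q 11) (T4 2 7 (T4 3 11 (Q 13) (Q 13) (Q 11)) (Q 11) (P 7))) (T3 2 7 (Q 13) (Q 11) (T4 2 7 (Q 13) (P 11) (P 7))) (P 5)))) (O 3) (O 3)) (T4 1 4 (T4 1 5 (Q 7) (Q 7) (Q 5)) (Q 5) (T2 2 5 (T4 2 7 (Q 19) (Q 11) (P 7)) (P 13) (P 5))) (P 3))) (O 3) (O 3)) (O 2) (O 2)) (T3 1 3 e4 (Q 7) (P 3)) (O 1)) (O 0)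
def e6 : C := T3 1 3 (T4 1 3 (Q 4) (O 3) (O 3)) (Q 4) (O 2)
def e7 : C := T4 1 4 (T0 3 5 (N 8) (N 8) (T4 1 5 (Q 7) (Q 7) (Q 5))) (T0 3 5 (Q 7) (Q 7) (Q 5)) (P 4)
def e8 : C := T2 2 5 (Q 9) (Q 9) (T4 1 5 (Q 7) (Q 7) (P 5))
def e9 : C := T1 2 5 (T4 1 5 (N 10) (Q 11) (Q 5)) (T4 1 5 (Q 11) (Q 11) (Q 5)) (T2 2 5 (T4 1 5 (N 10) (Q 11) (P 5)) (T4 1 5 (Q 11) (Q 11) (P 5)) (P 5))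
def e10 : C := T4 1 6 (N 6) (Q 7) (T0 4 7 (N 12) (N 12) (Q 7))
def e11 : C := T1 3 7 (N 15) (N 15) (T3 2 7 (N 10) (N 10) (P 7))
def e12 : C := T1 3 7 (Q 13) (Q 13) (T3 2 7 (T4 2 9 (Q 11) (Q 11) (Q 9)) (Q 11) (P 7))
def e13 : C := T1 3 7 (Q 7) (Q 7) (T2 3 7 (Q 7) (Q 7) (P 7))
def e14 : C := T3 3 10 (N 10) (Q 11) (T4 2 11 (Q 13) (Q 13) (Q 11))
def e15 : C := T1 2 5 (T4 1 5 (N 5) (Q 11) (T0 4 7 (N 12) (N 12) (T2 3 7 (N 15) (O 1) (O 1)))) (T4 1 5 e10 (Q 11) (T0 4 7 (N 12) (N 12) (T2 3 7 (Q 13) (O 1) (O 1)))) (T2 2 5 (T4 1 5 (N 5) (Q 11) (T0 4 7 (N 12) (N 12) e11)) (T4 1 5 e10 (Q 11) (T0 4 7 (N 12) (N 12) e12)) (T4 1 5 (T4 1 6 (N 6) (T0 4 7 (T1 3 7 (N 14) (Q 13) (T2 3 7 (N 14) (Q 13) (T3 2 7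 (N 10) (N 10) (P 7)))) (T1 3 7 (Q 13) (Q 13) (T2 3 7 (Q 13) (Q 13) (T3 2 7 (N 10) (N 10) (P 7)))) e13) (T0 4 7 (T1 3 7 (N 14) (T0 5 9 (N 9) (N 30) e14) (T2 3 7 (N 14) (T0 5 9 (N 9) (N 30) e14) (T3 2 7 (N 10) (N 10) (P 7)))) (T1 3 7 e14 e14 (T2 3 7 e14 e14 (T3 2 7 (N 10) (N 10) (P 7)))) (T1 3 7 (T3 2 7 (N 10) (N 10) (Q 7)) (T3 2 7 (N 10) (N 10) (Q 7)) (T2 3 7 (T3 2 7 (N 10) (N 10) (P 7)) (T3 2 7 (N 10) (N 10) (P 7)) (P 7))))) (T0 4 7 (T1 3 7 (N 14) (T0 5 9 (N 9) (Q 11) (Q 11)) (T2 3 7 (N 14) (T0 5 9 (N 9) (Q 11) (Q 11)) (T3 2 7 (N 14) (T0 5 9 (Q 11) (Q 11) (T1 4 9 (N 24) (N 24) (T2 4 9 (N 24) (N 24) (P 9)))) (P 7)))) (T1 3 7 (Q 11) (Q 11) (T2 3 7 (Q 11) (Q 11) (T3 2 7 (Q 16) (Q 16) (P 7))))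 (T1 3 7 (T3 2 7 (N 14) (Q 11) (Q 7)) (T3 2 7 (Q 12) (Q 11) (Q 7)) (T2 3 7 (T3 2 7 (N 14) (Q 11) (P 7)) (T3 2 7 (Q 12) (Q 11) (P 7)) (P 7)))) (P 5)))
def e16 : C := T4 1 5 (Q 7) (Q 7) (T2 3 7 (Q 13) (O 1) (O 1))
def e17 : C := T1 3 7 (T3 2 7 (N 14) (Q 11) (Q 7)) (Q 12) (T2 3 7 (T3 2 7 (N 14) (Q 11) (P 7)) (P 12) (P 7))
def e18 : C := T1 3 7 (N 9) (N 9) (T3 2 7 (T0 5 8 (N 14) (N 14) (P 8)) (Q 18) (P 7))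
def e19 : C := T3 2 7 (N 7) (Q 9) (T0 5 9 (T3 3 10 (Q 11) (Q 11) (T0 6 11 (T0 7 13 (Q 13) (Q 13) (Q 13)) (Q 13) (Q 11))) (Q 11) (Q 9))
def e20 : C := T1 3 7 (Q 13) (Q 13) (T3 2 7 (Q 9) (Q 9) (P 7))
def e21 : C := T4 1 4 (T0 3 5 e15 (T1 2 5 e16 e16 (T2 2 5 (T4 1 5 (Q 7) (Q 7) (T1 3 7 (Q 13) (Q 13) (T3 2 7 (T2 3 8 (N 8) (N 28) (T4 2 9 (Q 11) (Q 11) (Q 9))) (T2 3 8 (N 8) (Q 9) (Q 11)) (P 7)))) (T4 1 5 (Q 7) (Q 7) e12) (T4 1 5 (T4 1 6 (N 6) e13 e17) e17 (P 5)))) (T1 2 5 (T2 2 5 (N 12) (O 1) (O 1)) (T2 2 5 (N 12) (N 12) (O 1)) (T2 2 5 (T4 1 5 (T4 1 6 (N 6) (T3 2 7 (N 10) (N 10) (Q 7)) (T1 3 7 (N 9) (N 9) (T3 2 7 (N 10) (N 10) (P 7)))) (T1 3 7 (N 9) (N 9) (T3 2 7 (T0 5 8 (N 14) (N 14) (T2 3 8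 (N 24) (Q 11) (P 8))) (T0 5 8 (N 24) (Q 11) (T2 3 8 (N 24) (Q 11) (P 8))) (P 7))) (P 5)) (T4 1 5 (T4 1 6 (N 6) (T3 2 7 (Q 8) (Q 8) (Q 7)) e18) e18 (P 5)) (P 5)))) (T0 3 5 (T1 2 5 (T0 4 7 (T3 2 7 (N 7) (N 10) (T1 3 8 (T0 5 9 (N 18) (Q 13) (Q 9)) (T0 5 9 (N 18) (Q 11) (Q 9)) (T0 5 9 (T3 3 10 (N 10) (Q 11) (T0 6 11 (T0 7 13 (T1 5 13 (N 18) (N 18) (Q 13)) (Q 17) (T1 5 13 (N 18) (N 18) (Q 13))) (T1 5 13 (N 18) (N 18) (Q 13)) (Q 11))) (Q 11) (Q 9)))) (Q 9) (T2 3 7 (N 15) (O 1) (O 1))) (T0 4 7 e19 (Q 9) (T2 3 7 (Q 13) (O 1) (O 1))) (T2 2 5 (T0 4 7 (T3 2 7 (N 7) (N 10) (T2 3 8 (T0 5 9 (N 18) (Q 13) (Q 9)) (T0 5 9 (N 18) (Q 11) (Q 9)) (T0 5 9 (T3 3 10 (N 10) (Q 11) (T0 6 11 (T0 7 13 (T2 5 13 (N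 18) (N 18) (Q 13)) (Q 17) (T2 5 13 (N 18) (N 18) (Q 13))) (T2 5 13 (N 18) (N 18) (Q 13)) (Q 11))) (Q 11) (Q 9)))) (Q 9) e11) (T0 4 7 e19 (Q 9) e20) (P 5))) (T1 2 5 (T2 3 7 (Q 13) (O 1) (O 1)) (T2 3 7 (Q 13) (O 1) (O 1)) (T2 2 5 e20 e20 (P 5))) (T1 2 5 (T2 2 5 (N 15) (O 1) (O 1)) (T2 2 5 (T3 2 7 (N 7) (N 27) (T0 5 8 (N 27) (N 27) (T2 3 8 (T2 4 11 (N 27) (N 27) (Q 11)) (Q 11) (P 8)))) (Q 13) (O 1)) (P 5))) (P 4)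
def e22 : C := T0 5 9 (T4 2 9 (Q 13) (Q 13) (T0 6 11 (N 20) (N 20) (Q 11))) (Q 11) (T4 2 9 (Q 11) (Q 11) (Q 9))
def e23 : C := T0 5 9 (T4 2 9 (Q 13) (Q 13) (T0 6 11 (T0 7 13 (T4 3 13 (N 26) (Q 19) (Q 13)) (Q 19) (Q 13)) (Q 13) (Q 11))) (Q 11) (T4 2 9 (Q 11) (Q 11) (Q 9))
def e24 : C := T1 3 7 (Q 13) (Q 13) (T2 3 7 (Q 13) (Q 13) (P 7))
def e25 : C := T1 2 5 (T4 1 5 (N 5) (Q 11) (T0 4 7 (T1 3 8 (N 8) (T0 5 9 (Q 13) (Q 11) (Q 11)) e22) (T1 3 8 (N 8) (Q 11) (Q 16)) (T2 3 7 (N 20) (O 1) (O 1)))) (T4 1 5 (Q 13) (Q 11) (T0 4 7 e23 (Q 16) (T2 3 7 (Q 13) (O 1) (O 1)))) (T2 2 5 (T4 1 5 (N 5) (Q 11) (T0 4 7 (T2 3 8 (N 8) (T0 5 9 (Q 13) (Q 11) (Q 11)) e22) (T2 3 8 (N 8) (Q 11) (Q 16)) (T1 3 7 (N 20)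 (N 20) (P 7)))) (T4 1 5 (Q 13) (Q 11) (T0 4 7 e23 (Q 16) (T1 3 7 (Q 13) (Q 13) (P 7)))) (T4 1 5 (T4 1 6 (T0 4 7 (T1 3 7 (N 14) (Q 13) (T2 3 7 (N 14) (Q 13) (T4 1 7 (N 14) (T0 5 9 (T0 6 11 (N 20) (N 20) (Q 11)) (Q 11) (Q 9)) (P 7)))) (T1 3 7 (Q 13) (Q 13) (T2 3 7 (Q 13) (Q 13) (T4 1 7 (T4 1 8 (N 8) (Q 9) (Q 9)) (Q 9) (P 7)))) (T1 3 7 (T4 1 7 (N 14) (N 20) (Q 7)) (T4 1 7 (N 20) (N 20) (Q 7)) (T2 3 7 (T4 1 7 (N 14) (N 20) (P 7)) (T4 1 7 (N 20) (N 20) (P 7)) (P 7)))) (T0 4 7 (T1 3 7 (N 14) (Q 13) (T2 3 7 (N 14) (Q 13) (P 7))) e24 (T1 3 7 (Q 7) (Q 7) (P 7))) (T0 4 7 (T1 3 7 (N 14) (T0 5 9 (Q 17) (Q 11) (Q 13)) (T2 3 7 (N 14) (T0 5 9 (Q 17) (Q 11) (Q 13)) (P 7))) e24 (T1 3 7 (Q 7) (Q 7) (P 7))))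 (T0 4 7 (T1 3 7 (N 14) (T0 5 9 (Q 17) (Q 11) (Q 11)) (T2 3 7 (N 14) (T0 5 9 (Q 17) (Q 11) (Q 11)) (P 7))) (T1 3 7 (Q 11) (Q 11) (T2 3 7 (Q 11) (Q 11) (P 7))) (T1 3 7 (Q 7) (Q 7) (P 7))) (P 5)))
def e26 : C := T4 1 5 (Q 7) (Q 7) (T1 3 7 (Q 13) (Q 13) (P 7))
def e27 : C := T2 3 8 (T2 4 11 (Q 13) (Q 13) (Q 11)) (Q 11) (P 8)
def e28 : C := T2 3 8 (Q 17) (Q 11) (T4 1 8 (Q 11) (Q 11) (P 8))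
def e29 : C := T4 1 4 (T0 3 5 e25 (T1 2 5 e16 e16 (T2 2 5 e26 e26 (T4 1 5 (T4 1 6 (T1 3 7 (T4 1 7 (N 14) (Q 17) (Q 7)) (Q 17) (T2 3 7 (T4 1 7 (N 14) (Q 17) (P 7)) (Q 17) (P 7))) (T1 3 7 (Q 7) (Q 7) (P 7)) (T1 3 7 (Q 7) (Q 7) (P 7))) (T1 3 7 (Q 7) (Q 7) (P 7)) (P 5)))) (T1 2 5 (T2 2 5 (T4 1 5 (N 5) (Q 8) (T0 5 8 (N 20) (N 20) (T1 3 8 (T2 3 8 (N 8) (O 1) (O 1)) (Q 11) e27))) (O 1) (O 1)) (T2 2 5 (T4 1 5 (Q 8) (Q 8) (T0 5 8 (N 32) (Q 13) e27)) (Q 13) (O 1)) (T2 2 5 (T4 1 5 (T4 1 6 (T4 1 7 (T0 5 8 (N 14) (N 14) e28) (T0 5 8 (N 20) (N 20) (T2 3 8 (Q 17) (Q 11) (P 8))) (Q 7)) (Q 7) (T1 3 7 (T2 3 8 (Q 11) (Q 11) (Q 8)) (Q 19) (P 7))) (T1 3 7 (Q 11) (Q 11) (P 7)) (P 5)) (T4 1 5 (T4 1 6 (T4 1 7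 (T0 5 8 (N 14) (N 14) (T4 1 8 (Q 11) (Q 11) (P 8))) (T0 5 8 (N 32) (N 62) (P 8)) (Q 7)) (Q 7) (T1 3 7 (Q 8) (Q 8) (P 7))) (T1 3 7 (Q 8) (Q 8) (P 7)) (P 5)) (P 5)))) (T0 3 5 (T1 2 5 (T0 4 7 (T1 3 8 (Q 13) (Q 13) (T0 5 9 (T0 6 11 (T0 7 13 (T1 5 13 (N 26) (Q 17) (Q 13)) (Q 17) (Q 13)) (Q 13) (Q 11)) (Q 11) (Q 9))) (Q 9) (T2 3 7 (N 35) (O 1) (O 1))) (T0 4 7 (T0 5 9 (T0 6 11 (Q 13) (Q 13) (Q 11)) (Q 11) (Q 9)) (Q 9) (Q 13)) (T2 2 5 (T0 4 7 (T2 3 8 (Q 13) (Q 13) (T0 5 9 (T0 6 11 (T0 7 13 (T2 5 13 (N 26) (Q 17) (Q 13)) (Q 17) (Q 13)) (Q 13) (Q 11)) (Q 11) (Q 9))) (Q 9) (T1 3 7 (N 35) (Q 13) (P 7))) (T0 4 7 (T0 5 9 (T0 6 11 (Q 13) (P 13) (P 13)) (P 13) (P 13)) (P 13) (P 13)) (P 5))) (T1 2 5 (T2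 3 7 (Q 13) (O 1) (O 1)) (Q 13) (T2 2 5 (T1 3 7 (Q 13) (Q 13) (P 7)) (P 13) (P 5))) (T1 2 5 (T2 2 5 (T0 5 8 (N 35) (N 35) (T1 3 8 (T2 3 8 (Q 11) (O 1) (O 1)) (Q 11) e27)) (O 1) (O 1)) (T2 2 5 (Q 13) (P 13) (O 1)) (P 5))) (P 4)
def e30 : C := T4 1 4 (T4 1 5 (Q 7) (Q 7) (Q 5)) (Q 5) (P 4)
def e31 : C := T3 1 4 (T4 1 4 (N 4) (O 3) (O 3)) (Q 5) e30
def e32 : C := T1 3 8 (T2 3 8 (N 8) (O 1) (O 1)) (Q 11) (T2 3 8 (T2 4 11 (Q 13) (Q 13) (P 11)) (P 11) (P 8))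
def e33 : C := T4 1 7 (T2 3 8 (Q 17) (Q 11) (Q 11)) (T2 3 8 (Q 17) (Q 11) (P 8)) (Q 7)
def e34 : C := T3 1 3 (T4 1 3 (T3 1 4 (T4 1 4 (N 4) (O 3) (O 3)) (T4 1 4 e9 (T1 2 5 (Q 5) (Q 5) (P 5)) (O 3)) (T4 1 4 (T1 2 5 (T2 2 5 (T4 1 5 (N 5) (Q 8) (T3 2 7 (N 7) (N 10) e32)) (O 1) (O 1)) (T2 2 5 (T4 1 5 (Q 8) (Q 8) (T3 2 7 (N 7) (N 52) (T2 3 8 (Q 23) (P 11) (P 8)))) (Q 8) (O 1)) (T2 2 5 (T4 1 5 (T4 1 6 (T3 2 7 (N 10) (N 10) e33) (T3 2 7 (N 10) (N 10) (Q 7)) (T1 3 7 (T2 3 8 (Q 11) (Q 11) (P 8)) (T2 3 8 (Q 11) (Q 11) (P 8)) (T3 2 7 (N 10) (N 10) (P 7)))) (T1 3 7 (Q 11) (Q 11) (T3 2 7 (T2 3 8 (T2 4 11 (T3 3 11 (N 22) (Q 17) (Q 11)) (Q 17) (Q 11)) (Q 11) (P 8)) (T2 3 8 (Q 11) (P 11) (P 8)) (P 7)))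 (P 5)) (T4 1 5 (T4 1 6 (T3 2 7 (Q 8) (Q 8) (T4 1 7 (Q 11) (P 8) (P 8))) (P 8) (P 8)) (P 8) (P 5)) (P 5))) (T1 2 5 (T2 2 5 (T3 2 7 (N 7) (N 10) (T1 3 8 (T2 3 8 (Q 11) (O 1) (O 1)) (Q 11) (T2 3 8 (T2 4 11 (Q 13) (P 14) (P 11)) (P 11) (P 8)))) (O 1) (O 1)) (T2 2 5 (T3 2 7 (N 7) (Q 8) (T2 3 8 (Q 23) (P 11) (P 8))) (P 8) (O 1)) (P 5)) (P 4))) (O 3) (O 3)) (T4 1 4 (T1 2 5 (T2 2 5 (T4 1 5 (N 5) (Q 8) e32) (O 1) (O 1)) (T2 2 5 (T4 1 5 (Q 8) (Q 8) (T2 3 8 (Q 23) (P 11) (P 8))) (Q 8) (O 1)) (T2 2 5 (T4 1 5 (T4 1 6 e33 (Q 7) (T1 3 7 (T2 3 8 (Q 11) (Q 11) (P 8)) (Q 19) (P 7))) (T1 3 7 (Q 11) (Q 11) (P 7)) (P 5)) (T4 1 6 (T4 1 7 (Q 11) (P 8) (P 8)) (P 8) (P 8)) (P 5))) (T1 2 5 (T2 2 5 (T1 3 8 (T2 3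 8 (Q 11) (O 1) (O 1)) (Q 11) (T2 4 11 (Q 13) (P 14) (P 11))) (O 1) (O 1)) (P 13) (P 5)) (P 4)) (P 3)
def e35 : C := T3 1 4 (N 8) (Q 7) (T4 1 4 (N 8) (Q 7) (P 4))
def e36 : C := T3 1 4 (Q 7) (Q 7) (T4 1 4 (Q 7) (Q 7) (P 4))
def e37 : C := T3 1 4 (T4 1 4 (N 4) (O 3) (O 3)) (O 2) (O 2)
def e38 : C := T4 1 6 (T2 2 7 (T4 1 7 (N 7) (N 20) (T3 2 9 (N 17) (N 17) (T2 3 11 (N 11) (T3 3 13 (N 17) (N 17) (T4 2 13 (N 32) (N 32) (Q 13))) (T3 3 13 (N 17) (N 17) (Q 22))))) (T4 1 7 (N 20) (N 20) (T3 2 9 (N 17) (N 17) (T3 3 13 (N 17) (N 17) (Q 22)))) (T4 1 7 (T4 1 8 (N 8) (T3 2 9 (Q 10) (Q 10) (T2 3 10 (N 20) (N 23) (Q 10))) (T3 2 9 (Q 10) (Q 10) (T2 3 10 (N 20) (T3 3 13 (N 13) (N 56) (T4 2 15 (T3 4 17 (N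 29) (N 29) (Q 17)) (Q 31) (Q 31))) (Q 10)))) (T3 2 9 (Q 10) (Q 10) (T2 3 10 (N 20) (Q 37) (Q 10))) (Q 7))) (T2 2 7 (T3 2 9 (N 17) (N 17) (T2 3 11 (N 11) (Q 19) (Q 19))) (Q 19) (Q 7)) (T2 2 7 (T3 2 9 (T2 3 11 (T4 2 11 (N 11) (T3 3 14 (N 14) (N 32) (Q 28)) (T3 3 14 (N 14) (T2 4 15 (T4 3 16 (N 26) (N 26) (Q 16)) (Q 19) (Q 19)) (Q 28))) (T4 2 11 (Q 19) (Q 19) (T3 3 14 (N 14) (Q 19) (Q 19))) (T4 2 11 (T3 3 14 (N 14) (Q 19) (Q 19)) (T3 3 14 (N 14) (Q 19) (Q 19)) (Q 11))) (T2 3 11 (T4 2 11 (N 11) (Q 23) (Q 28)) (Q 19) (Q 19)) (T2 3 11 (T4 2 11 (N 11) (T3 3 13 (Q 28) (Q 28) (Q 13)) (T3 3 13 (T2 4 15 (Q 28) (Q 19) (Q 19)) (Q 22) (Q 13))) (T4 2 11 (Q 19) (Q 19) (T3 3 13 (Q 19) (Q 19) (Q 13))) (T4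 2 11 (Q 19) (Q 19) (Q 11)))) (T3 2 9 (T4 2 11 (Q 25) (Q 25) (Q 11)) (Q 19) (T4 2 11 (Q 18) (Q 18) (Q 11))) (Q 7))
def e39 : C := T0 3 4 (T2 1 4 (N 8) (Q 7) e35) (T2 1 4 (Q 7) (Q 7) e36) (T2 1 4 e37 (T3 1 4 (T4 1 4 (T3 1 5 (T3 1 6 (N 11) (N 11) (T4 2 9 (N 35) (O 3) (O 3))) (T4 2 9 (Q 61) (O 3) (O 3)) (T4 1 5 (T4 1 6 (N 11) (N 11) (T3 2 9 (N 35) (N 35) (T4 2 11 (N 11) (Q 13) (T3 3 13 (T4 3 16 (N 26) (N 26) (T4 4 21 (N 26) (N 26) (Q 37))) (Q 22) (Q 13))))) (T3 2 9 (Q 61) (Q 37) (T3 3 13 (Q 37) (Q 22) (Q 13))) (Q 5))) (O 3) (O 3)) (T4 1 4 (T4 1 5 (Q 13) (Q 13) (Q 5)) (Q 5) (O 3)) (O 2)) (T3 1 4 (T4 1 4 (T3 1 5 (T4 1 5 (N 5) (O 3) (O 3)) (T4 1 5 (T4 1 6 (T4 1 7 (N 14) (Q 16) (Q 7)) (Q 7) (T2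 2 7 (N 14) (Q 46) (Q 7))) (T2 2 7 (N 14) (Q 11) (Q 7)) (O 3)) (T4 1 5 e38 (T2 2 7 (T3 2 9 (Q 16) (Q 16) (T2 3 11 (Q 16) (Q 16) (Q 11))) (Q 11) (Q 7)) (Q 5))) (O 3) (O 3)) (T4 1 4 (T4 1 5 (T4 1 6 (T2 2 7 (T4 1 7 (N 7) (Q 22) (T2 3 11 (N 11) (Q 37) (Q 22))) (Q 25) (T4 1 7 (T4 1 8 (T4 1 9 (T4 1 10 (Q 13) (Q 13) (Q 10)) (Q 10) (T2 3 10 (N 23) (N 23) (Q 10))) (T2 3 10 (N 23) (N 23) (Q 10)) (T2 3 10 (Q 25) (Q 17) (Q 10))) (T2 3 10 (Q 22) (Q 17) (Q 10)) (Q 7))) (T2 2 7 (Q 13) (Q 13) (Q 7)) (T2 2 7 (Q 13) (Q 13) (Q 7))) (T2 2 7 (Q 13) (Q 11) (Q 7)) (Q 5)) (Q 5) (O 3)) (P 4)))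
def e40 : C := T4 1 4 (T4 1 5 (Q 7) (Q 7) (Q 5)) (Q 5) (O 3)
def e41 : C := T1 3 7 (N 9) (N 9) (T2 2 7 (Q 7) (Q 7) (P 7))
def e42 : C := T2 3 10 (N 10) (Q 11) (T4 2 11 (Q 13) (Q 13) (Q 11))
def e43 : C := T1 3 7 (N 9) (N 9) (T2 2 7 (T3 2 7 (N 10) (O 2) (O 2)) (T3 2 7 (N 10) (N 10) (O 2)) (P 7))
def e44 : C := T3 2 7 (T3 3 11 (Q 13) (Q 13) (Q 11)) (Q 11) (P 7)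
def e45 : C := T2 2 7 (T2 3 11 (Q 13) (Q 13) (Q 11)) (Q 11) e44
def e46 : C := T2 1 4 (T3 1 4 (N 4) (O 2) (O 2)) (T3 1 4 (T4 1 4 (N 4) (O 3) (O 3)) (Q 5) (O 2)) (T3 1 4 (T4 1 4 (N 4) (O 3) (O 3)) e40 (T4 1 4 (T1 2 5 (N 12) (N 12) (T4 1 5 (T4 1 6 (N 6) (T0 5 7 (T2 2 7 (N 14) (Q 13) (T3 2 7 (N 14) (Q 13) (Q 7))) (T2 2 7 (Q 13) (Q 13) (T3 2 7 (Q 13) (Q 13) (Q 7))) e41) (T0 5 7 (T1 3 7 (N 9) (N 9) (T2 2 7 (N 14) (T0 7 10 (N 10) (N 24) (T3 3 10 (N 10) (O 2) (O 2))) (T3 2 7 (N 14) (T0 7 10 (N 10) (N 24) e42) (P 7)))) (T1 3 7 (N 9) (N 9) (T2 2 7 (T3 3 10 (N 10) (O 2) (O 2)) (T3 3 10 (N 10) (O 2) (O 2)) (T3 2 7 (T2 3 10 (N 10) (Q 11) (T3 3 11 (N 18) (N 18) (T4 2 11 (Q 13) (Q 13) (Q 11)))) e42 (P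 7)))) e43)) (T0 5 7 (T1 3 7 (N 9) (N 9) (T2 2 7 (N 14) (Q 11) (T3 2 7 (N 14) (Q 11) (P 7)))) (T1 3 7 (N 9) (N 9) (T2 2 7 (T3 3 10 (Q 11) (O 2) (O 2)) (Q 11) (T3 2 7 (T2 3 10 (Q 11) (Q 11) (T3 3 11 (N 18) (N 18) (Q 11))) (Q 11) (P 7)))) (T1 3 7 (N 9) (N 9) (T2 2 7 (T3 2 7 (N 14) (O 2) (O 2)) (T3 2 7 (N 24) (N 24) (O 2)) (P 7)))) (P 5))) (T1 2 5 (T0 5 7 (N 15) (N 15) e45) (T0 5 7 (T0 7 10 (N 27) (N 27) (Q 10)) (Q 10) (T2 2 7 (Q 13) (Q 11) (T3 2 7 (Q 13) (Q 11) (P 7)))) (P 5)) (P 4)))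
def e47 : C := T3 1 4 (T4 1 4 (Q 5) (O 3) (O 3)) (Q 5) (O 2)
def e48 : C := T4 1 4 (T3 1 5 (Q 7) (Q 7) (T4 1 5 (Q 7) (Q 7) (Q 5))) (O 3) (O 3)
def e49 : C := T1 5 12 (T4 2 13 (N 19) (N 19) (Q 13)) (Q 17) (Q 17)
def e50 : C := T1 5 11 (N 15) (N 15) (T3 2 11 (T1 6 13 (N 15) (N 15) (Q 13)) (T1 6 13 (N 15) (N 15) (Q 13)) (Q 11))
def e51 : C := T1 4 9 (T3 2 11 (N 11) (N 27) (Q 17)) (Q 25) (Q 9)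
def e52 : C := T4 1 13 (T4 1 14 (N 14) (Q 17) (Q 17)) (Q 17) (Q 13)
def e53 : C := T3 1 5 (T4 1 5 (T3 1 6 (T4 1 6 (N 6) (O 3) (O 3)) (T4 1 6 (T1 3 7 (N 11) (N 11) (T4 1 7 (T4 1 8 (T4 1 9 (Q 13) (Q 13) (Q 9)) (Q 9) (T1 4 9 (N 11) (N 11) (Q 9))) (T1 4 9 (N 11) (N 11) (Q 9)) (Q 7))) (T1 3 7 (N 11) (N 11) (Q 7)) (O 3)) (T4 1 6 (T1 3 7 (T4 1 7 (N 7) (T3 2 11 (N 11) (N 27) (T1 5 12 (N 19) (N 19) (Q 17))) (T3 2 11 (N 11) e49 e49)) (T4 1 7 (Q 17) (Q 17) (T3 2 11 (N 11) (Q 17) (Q 17))) (T4 1 7 (T4 1 8 (T1 4 9 (N 15) (N 15) (T4 1 9 (T4 1 10 (N 10) (T1 5 11 (N 15) (N 15) (T3 2 11 (Q 13) (Q 13) (Q 11))) e50) e50 (Q 9))) (T1 4 9 (N 15) (N 15) (Q 9)) e51) e51 (Q 7))) (T1 3 7 (Q 13) (Q 13) (Q 7)) (Q 6)))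 (O 3) (O 3)) (T4 1 5 (T4 1 6 (T1 3 7 (T4 1 7 (N 7) (Q 37) (Q 21)) (Q 17) (T4 1 7 (T4 1 8 (T1 4 9 (Q 21) (Q 21) (T4 1 9 (T4 1 10 (T1 5 11 (N 19) (N 19) (T4 1 11 (T4 1 12 e52 (Q 13) (T1 6 13 (N 19) (N 19) (Q 13))) (T1 6 13 (N 19) (N 19) (Q 13)) (Q 11))) (T1 5 11 (N 19) (N 19) (Q 11)) (T1 5 11 (Q 21) (Q 21) (Q 11))) (T1 5 11 (Q 21) (Q 21) (Q 11)) (Q 9))) (T1 4 9 (Q 17) (Q 17) (Q 9)) (T1 4 9 (Q 17) (Q 16) (Q 9))) (T1 4 9 (Q 17) (Q 16) (Q 9)) (Q 7))) (T1 3 7 (Q 13) (Q 13) (Q 7)) (Q 6)) (Q 6) (O 3)) (P 5)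
def e54 : C := T4 1 6 (N 6) (T2 2 7 (N 10) (N 10) (Q 7)) (T1 3 7 (N 15) (N 15) (T2 2 7 (N 10) (N 10) (P 7)))
def e55 : C := T4 1 8 (T4 1 9 (N 9) (Q 11) (Q 11)) (Q 11) (Q 8)
def e56 : C := T1 4 11 (T2 3 11 (N 11) (Q 15) (Q 15)) (Q 14) (Q 14)
def e57 : C := T4 1 9 (T4 1 10 (N 10) (Q 11) (Q 11)) (Q 11) (Q 9)
def e58 : C := T1 3 8 (T3 2 9 (Q 15) (Q 15) (Q 9)) (Q 11) (Q 8)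
def e59 : C := T3 2 9 (T2 3 10 (N 13) (N 13) (Q 10)) (T2 3 10 (N 13) (N 13) (Q 10)) (Q 9)
def e60 : C := T4 1 11 (T4 1 12 (N 12) (Q 14) (Q 14)) (Q 14) (Q 11)
def e61 : C := T2 3 10 (Q 14) (Q 14) (T4 1 10 e60 (Q 11) (Q 10))
def e62 : C := T1 5 13 (Q 14) (Q 14) (T2 4 13 (Q 14) (Q 14) (Q 13))
def e63 : C := T2 2 7 (T4 1 7 (N 7) (T1 3 8 (T3 2 9 (N 13) (N 13) (Q 9)) (T3 2 9 (N 13) (N 13) (Q 9)) (Q 8)) (T1 3 8 (T3 2 9 (T1 4 11 (T2 3 11 (N 11) (N 18) (Q 15)) (T2 3 11 (N 18) (N 18) (Q 15)) (T2 3 11 (N 18) (N 18) (Q 11))) e56 (Q 9)) (T3 2 9 (T2 3 11 (N 18) (N 18) (Q 11)) (Q 14) (Q 9)) (Q 8))) (T4 1 7 (T1 3 8 (T4 1 8 (N 8) (T3 2 9 (N 13) (N 13) (Q 9)) (T3 2 9 (N 13) (N 13) (Q 9))) (T4 1 8 (T3 2 9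 (N 13) (N 13) e57) (Q 11) (Q 11)) (T4 1 8 (T3 2 9 (Q 11) (Q 11) e57) (Q 11) (Q 8))) (T1 3 8 (Q 15) (Q 11) (Q 8)) e58) (T4 1 7 (T0 7 8 (N 12) (N 12) (T1 3 8 (T4 1 8 (N 8) e59 e59) (T4 1 8 (T3 2 9 (T4 1 9 (N 9) (Q 11) (Q 11)) (T4 1 9 (T2 3 10 (N 13) (N 13) (T4 1 10 (T4 1 11 (N 21) (N 21) (Q 11)) (Q 11) (Q 10))) (Q 11) (Q 11)) (T4 1 9 e61 (Q 11) (Q 9))) (Q 11) (T3 2 9 (Q 11) (Q 11) (Q 9))) (T4 1 8 (T3 2 9 (T4 1 9 (N 9) (Q 11) (Q 11)) (T4 1 9 e61 (Q 11) (Q 11)) (T4 1 9 (T2 3 10 (T4 1 10 (N 10) (Q 11) (Q 11)) (T4 1 10 e60 (Q 11) (Q 11)) (T4 1 10 (T4 1 11 (T4 1 12 (N 12) (Q 14) e62) e62 (Q 11)) (Q 11) (Q 10))) (T2 3 10 (Q 11) (Q 11) (Q 10)) (Q 9))) (T3 2 9 (Q 11) (Q 11) (Q 9)) (P 8)))) (T0 7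 8 (N 12) (N 12) (T1 3 8 e59 (T3 2 9 (Q 11) (Q 11) (Q 9)) (P 8))) (P 7))
def e64 : C := T3 1 5 (T4 1 5 (T3 1 6 (T4 1 6 (N 6) (O 3) (O 3)) (T4 1 6 (T2 2 7 (N 17) (N 17) (T4 1 7 (T4 1 8 (T4 1 9 (N 9) (N 17) (T2 4 13 (N 16) (N 16) (Q 13))) (Q 33) (Q 8)) (Q 8) (Q 7))) (Q 8) (O 3)) (T4 1 6 (T2 2 7 (T4 1 7 (N 7) (Q 8) (Q 8)) (Q 18) (T4 1 7 (T4 1 8 (T4 1 9 (N 9) (T2 3 10 (Q 11) (Q 11) (T3 2 11 (T2 4 13 (N 16) (N 16) (Q 13)) (Q 23) (Q 11))) (T2 3 10 (Q 18) (Q 18) (T3 2 11 (Q 18) (Q 18) (Q 11)))) (T2 3 10 (Q 18) (Q 18) (T3 2 11 (Q 18) (Q 17) (Q 11))) (Q 8)) (Q 8) (Q 7))) (Q 8) (Q 6))) (O 3) (O 3)) (T4 1 5 (T4 1 6 (T2 2 7 (T4 1 7 (N 7) (Q 8) (Q 8)) (Q 11) (T4 1 7 e55 (Q 8) (Q 7))) (Q 8) (Q 6)) (Q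 6) (O 3)) (T4 1 5 (T0 5 6 (N 12) (Q 11) (T4 1 6 (T0 6 7 (N 12) (N 12) (T2 2 7 (T4 1 7 (N 7) (Q 8) (Q 8)) (T4 1 7 (T4 1 8 (T3 2 9 (Q 11) (Q 11) (T4 1 9 (Q 18) (Q 11) (Q 9))) (Q 11) (Q 8)) (Q 8) (Q 8)) (T4 1 7 (T0 7 8 (N 12) (N 12) (T4 1 8 (T3 2 9 (T4 1 9 (N 9) (Q 11) (Q 11)) (T4 1 9 e61 (Q 11) (Q 11)) (T4 1 9 (T2 3 10 (T4 1 10 e60 (Q 11) (Q 11)) (T4 1 10 e60 (Q 11) (Q 11)) (T4 1 10 (T4 1 11 (T4 1 12 (N 12) (Q 14) (T2 4 13 (Q 14) (Q 14) (Q 13))) (T2 4 13 (Q 14) (Q 14) (Q 13)) (Q 11)) (Q 11) (Q 10))) (T2 3 10 (Q 11) (Q 11) (Q 10)) (Q 9))) (T3 2 9 (Q 11) (Q 11) (Q 9)) (P 8))) (T0 7 8 (N 12) (N 12) (P 8)) (P 7)))) (T0 6 7 (Q 13) (Q 13) (T2 2 7 (Q 8) (Q 8) (P 7))) (P 6))) (T0 5 6 (N 12) (Q 11)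 (P 6)) (P 5))
def e65 : C := T4 1 7 (T4 1 8 (N 16) (N 23) (Q 8)) (Q 8) (Q 8)
def e66 : C := T1 5 11 (N 17) (N 17) (T2 3 11 (T1 6 13 (N 17) (N 17) (Q 13)) (T1 6 13 (N 17) (N 17) (Q 13)) (Q 11))
def e67 : C := T2 3 10 (N 10) (Q 11) (T3 2 11 (Q 13) (Q 13) (Q 11))
def e68 : C := T4 1 9 (T4 1 10 (N 10) (Q 12) (Q 12)) (Q 12) (Q 12)
def e69 : C := T2 3 11 (T3 2 11 (Q 12) (Q 12) (P 11)) (T3 2 11 (Q 12) (Q 12) (P 11)) (P 11)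
def e70 : C := T0 10 11 (N 14) (N 14) (T1 5 11 (Q 12) (Q 12) e69)
def e71 : C := T0 8 9 (N 10) (N 10) (T1 4 9 (Q 12) (Q 12) (P 9))
def e72 : C := T0 10 11 (N 24) (N 24) (T1 5 11 (Q 12) (Q 12) (P 11))
def e73 : C := T0 6 7 (T2 2 7 (N 10) (N 10) (T4 1 7 (N 14) (T2 3 10 (N 10) (Q 11) (T3 2 11 (T0 11 13 (N 20) (N 20) (Q 13)) (Q 17) (Q 11))) (Q 7))) (T2 2 7 (N 10) (N 10) (T4 1 7 (T4 1 8 (N 8) (N 15) e67) e67 (Q 7))) (T1 3 7 (T2 2 7 (T4 1 7 (N 7) (Q 8) (Q 8)) (T4 1 7 (T4 1 8 (T4 1 9 (N 9) (T3 2 11 (N 16) (N 16) (Q 11)) (Q 18)) (Q 18) (Q 8)) (Q 8) (Q 8)) (T4 1 7 (T4 1 8 (T4 1 9 (N 9) (T2 3 10 (T3 2 11 (N 16) (N 16) (Q 11)) (T3 2 11 (N 16) (N 16) (Q 11)) (Q 10)) (T2 3 10 (Q 18) (Q 18) (Q 10)))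 (T2 3 10 (Q 18) (Q 18) (Q 10)) (Q 8)) (Q 8) (P 7))) (T2 2 7 (Q 12) (Q 12) (T4 1 7 (T4 1 8 (T4 1 9 (N 9) (Q 12) (T2 3 10 (Q 12) (Q 12) (Q 10))) (T2 3 10 (Q 12) (Q 12) (Q 10)) (Q 8)) (Q 8) (P 7))) (T2 2 7 (T4 1 7 (T0 7 8 (N 10) (N 10) (T4 1 8 (T0 8 9 (N 10) (N 10) (T1 4 9 (T4 1 9 (N 9) (Q 12) (Q 12)) e68 (T4 1 9 (T4 1 10 (N 10) (T1 5 11 (Q 12) (Q 12) (T2 3 11 (Q 12) (Q 12) (Q 11))) e70) e70 (P 9)))) e71 (P 8))) (T0 7 8 (N 10) (N 10) (P 8)) (P 7)) (T4 1 7 (T0 7 8 (N 10) (N 10) (T4 1 8 (T0 8 9 (N 10) (N 10) (T1 4 9 (T4 1 9 (N 9) (Q 12) (Q 12)) e68 (T4 1 9 (T4 1 10 (N 10) (T1 5 11 (Q 12) (Q 12) (Q 11)) e72) e72 (P 9)))) e71 (P 8))) (T0 7 8 (N 10) (N 10) (P 8)) (P 7)) (P 7)))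
def e74 : C := T1 3 7 (T2 2 7 (Q 8) (Q 8) (P 7)) (T2 2 7 (Q 8) (Q 8) (P 7)) (P 7)
def e75 : C := T0 5 6 (T3 1 6 (N 6) (Q 7) (T4 1 6 (N 6) (Q 7) (T2 2 7 (N 10) (N 10) (Q 7)))) (T3 1 6 (T4 1 6 (N 6) (O 3) (O 3)) (Q 7) (T4 1 6 (T4 1 7 (N 14) (N 20) (Q 7)) (Q 7) (T2 2 7 (N 10) (N 10) (Q 7)))) (T3 1 6 (T4 1 6 (N 6) (O 3) (O 3)) (T4 1 6 (T0 6 7 (T4 1 7 (N 14) (Q 13) (Q 7)) (Q 13) (T1 3 7 (T2 2 7 (T4 1 7 (N 7) (Q 8) (Q 8)) e65 (T4 1 7 (T4 1 8 (T4 1 9 (N 9) (T2 3 10 (N 16) (N 16) (Q 10)) (T2 3 10 (N 16) (N 16) (Q 10))) (T2 3 10 (N 23) (N 23) (Q 10)) (Q 8)) (Q 8) (P 7))) (T2 2 7 e65 (Q 19) (T4 1 7 (T4 1 8 (T4 1 9 (N 9) (Q 19) (T2 3 10 (N 16) (N 16) (Q 10))) (T2 3 10 (N 23) (N 23) (Q 10)) (Q 8))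 (Q 8) (P 7))) (T2 2 7 (T4 1 7 (T4 1 8 (T1 4 9 (T4 1 9 (N 9) (N 17) (Q 19)) (T4 1 9 (N 17) (N 17) (Q 19)) (T4 1 9 (T4 1 10 (N 10) e66 e66) (T1 5 11 (N 17) (N 17) (T2 3 11 (T1 6 13 (N 17) (N 17) (Q 13)) (Q 19) (Q 11))) (Q 9))) (T1 4 9 (Q 19) (Q 19) (Q 9)) (Q 8)) (Q 8) (P 7)) (T4 1 7 (T4 1 8 (T1 4 9 (T4 1 9 (N 9) (N 17) (Q 19)) (Q 25) (T4 1 9 (T4 1 10 (N 10) (T1 5 11 (N 17) (N 17) (Q 11)) (T1 5 11 (N 17) (N 17) (Q 11))) (T1 5 11 (N 17) (N 17) (Q 11)) (Q 9))) (T1 4 9 (Q 19) (Q 19) (Q 9)) (Q 8)) (Q 8) (P 7)) (P 7)))) (T0 6 7 (Q 7) (Q 7) (T1 3 7 (Q 8) (Q 8) (P 7))) (O 3)) (T4 1 6 e73 (T0 6 7 (T2 2 7 (N 10) (N 10) (Q 7)) (T2 2 7 (N 10) (N 10) (Q 7)) e74) (P 6)))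
def e76 : C := T2 3 11 (Q 16) (Q 16) (T4 1 11 (T4 1 12 (N 24) (Q 16) (Q 12)) (Q 12) (Q 11))
def e77 : C := T4 1 13 (T4 1 14 (N 14) (Q 16) (Q 16)) (Q 16) (Q 13)
def e78 : C := T4 1 11 (T4 1 12 (T1 6 13 (Q 16) (Q 16) e77) (Q 16) (Q 12)) (Q 12) (Q 11)
def e79 : C := T0 10 11 (N 14) (N 14) (T1 5 11 (Q 12) (Q 12) (P 11))
def e80 : C := T0 5 6 (T4 1 6 (N 6) (Q 7) (T2 2 7 (N 14) (N 24) (Q 7))) (T4 1 6 (Q 11) (Q 7) (T2 2 7 (N 14) (Q 11) (Q 7))) (T4 1 6 (T0 6 7 (T2 2 7 (N 14) (N 24) (T4 1 7 (N 14) (Q 11) (Q 7))) (T2 2 7 (N 24) (N 24) (T4 1 7 (Q 11) (Q 11) (Q 7))) (T1 3 7 (T2 2 7 (T4 1 7 (N 7) (Q 8) (Q 8)) (T4 1 7 e55 (Q 8) (Q 8)) (T4 1 7 e55 (Q 8) (P 7))) (T2 2 7 (Q 12) (Q 12) (T4 1 7 e55 (Q 8)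 (P 7))) (T2 2 7 (T4 1 7 (T0 7 8 (N 14) (N 14) (T4 1 8 (T0 8 9 (N 14) (N 14) (T1 4 9 (T4 1 9 (N 9) (Q 12) (Q 12)) (Q 16) (T4 1 9 (T4 1 10 (T1 5 11 e76 e76 (T2 3 11 e78 e78 (Q 11))) (T1 5 11 (Q 12) (Q 12) (Q 11)) e79) e79 (P 9)))) (T0 8 9 (N 14) (N 14) (T1 4 9 (Q 12) (Q 12) (P 9))) (P 8))) (T0 7 8 (N 24) (N 34) (P 8)) (P 7)) (T4 1 7 (T0 7 8 (N 24) (N 34) (T4 1 8 (T0 8 9 (N 24) (N 24) (T1 4 9 (T4 1 9 (N 9) (Q 11) (Q 11)) (Q 16) (T4 1 9 (T4 1 10 (T1 5 11 (Q 18) (Q 18) (Q 11)) (Q 11) (T0 10 11 (N 24) (N 24) (P 11))) (T0 10 11 (N 24) (N 24) (P 11)) (P 9)))) (T0 8 9 (N 38) (N 38) (T1 4 9 (Q 11) (Q 11) (P 9))) (P 8))) (T0 7 8 (N 24) (N 34) (P 8)) (P 7)) (P 7)))) (T0 6 7 (T2 2 7 (N 14) (Q 11) (Q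 7)) (T2 2 7 (Q 11) (Q 11) (Q 7)) e74) (P 6))
def e81 : C := T1 2 5 (T3 1 5 (T4 1 5 (N 5) (O 3) (O 3)) (T4 1 5 (T4 1 6 (T2 2 7 (T4 1 7 (N 7) (T1 3 8 (N 13) (N 13) (Q 8)) (T1 3 8 (N 24) (T2 3 11 (N 18) (N 18) (Q 11)) (Q 8))) (T4 1 7 (Q 11) (Q 11) (T1 3 8 (N 24) (Q 11) (Q 8))) (T4 1 7 (T1 3 8 (T4 1 8 (N 8) (T2 3 10 (N 13) (N 13) (T1 4 11 (T1 5 14 (N 14) (N 39) (Q 17)) (Q 17) (Q 11))) (T2 3 10 (N 13) (N 13) (T1 4 11 (T2 4 13 (N 13) (N 19) (T1 5 14 (N 14) (Q 17) (Q 17))) (Q 17) (Q 11)))) (Q 11) e55) (T1 3 8 (T2 3 10 (N 13) (N 13) (T1 4 11 (T2 4 13 (N 13) (N 19) (T1 5 14 (T2 5 16 (N 19) (N 19) (Q 16)) (Q 17) (Q 17))) (Q 17) (Q 11))) (Q 11) (Q 8)) (Q 7))) (T2 2 7 (T1 3 8 (T1 4 11 (T2 3 11 (N 11)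 (N 29) (Q 26)) (Q 31) (T2 3 11 (N 29) (N 29) (Q 11))) (T2 3 11 (N 29) (N 29) (Q 11)) (Q 8)) (T1 3 8 (Q 26) (Q 11) (Q 8)) (Q 7)) (Q 6)) (Q 6) (O 3)) (T4 1 5 (T0 5 6 (N 12) (N 15) (T4 1 6 (T0 6 7 (N 12) (N 12) e63) (T0 6 7 (N 15) (N 15) (T2 2 7 (T1 3 8 (T3 2 9 (T1 4 11 (T2 3 11 (N 11) (Q 15) (Q 15)) (Q 20) (T2 3 11 (Q 20) (Q 15) (Q 11))) e56 (Q 9)) (T3 2 9 (T2 3 11 (Q 20) (Q 15) (Q 11)) (Q 14) (Q 9)) (Q 8)) e58 (P 7))) (P 6))) (T0 5 6 (N 12) (Q 11) (P 6)) (P 5))) e64 (T3 1 5 (T4 1 5 e75 (O 3) (O 3)) (T4 1 5 e80 (T0 5 6 (T2 2 7 (N 14) (N 24) (Q 7)) (T2 2 7 (N 14) (P 11) (P 11)) (P 6)) (O 3)) (P 5))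
def e82 : C := T1 3 7 (Q 13) (Q 13) (T2 2 7 (Q 9) (Q 9) (P 7))
def e83 : C := T4 1 14 (T4 1 15 (N 15) (Q 17) (Q 17)) (Q 17) (Q 14)
def e84 : C := T4 1 11 (T4 1 12 (T2 4 13 (Q 17) (Q 17) (T4 1 13 e83 (Q 14) (Q 13))) (Q 14) (Q 14)) (Q 14) (Q 11)
def e85 : C := T4 1 7 (T0 7 8 (N 27) (N 27) (T1 3 8 (T4 1 8 (T4 1 9 (T2 3 10 (T4 1 10 (N 10) (Q 21) (Q 21)) (T4 1 10 (T1 4 11 (N 19) (N 19) (Q 14)) (Q 21) (Q 21)) (T4 1 10 (T1 4 11 (T4 1 11 (N 11) (T2 4 13 (N 19) (N 19) (Q 13)) (T2 4 13 (N 19) (N 19) (Q 13))) (T4 1 11 (T4 1 12 (T2 4 13 (N 19) (N 19) (T4 1 13 (T4 1 14 (N 27) (N 27) (Q 14)) (Q 14) (Q 13))) (Q 14) (Q 14)) (Q 14) (Q 14)) e84) (T1 4 11 (T2 4 13 (N 19) (N 19) (Q 13)) (Q 14) (Q 11)) (Q 10)))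 (T2 3 10 (Q 21) (Q 21) (Q 10)) (Q 9)) (Q 9) (Q 9)) (T4 1 8 (T4 1 9 (T2 3 10 (Q 14) (Q 14) (T4 1 10 e84 (Q 11) (Q 10))) (Q 11) (Q 9)) (Q 9) (Q 9)) (T4 1 8 (T4 1 9 (T2 3 10 (T4 1 10 (N 10) (Q 11) (Q 11)) (T4 1 10 (T4 1 11 (T4 1 12 (T1 5 13 (N 23) (N 23) (Q 21)) (Q 14) (Q 14)) (Q 14) (Q 11)) (Q 11) (Q 11)) (T4 1 10 (T4 1 11 (T4 1 12 (T1 5 13 (T2 4 13 (T4 1 13 (N 13) (Q 14) (Q 14)) (T4 1 13 e83 (Q 14) (Q 14)) (T4 1 13 e83 (Q 14) (Q 13))) (T2 4 13 (Q 21) (Q 21) (T4 1 13 e83 (Q 14) (Q 13))) (T2 4 13 (T4 1 13 e83 (Q 14) (Q 13)) (T4 1 13 e83 (Q 14) (Q 13)) (Q 13))) (Q 14) (T1 5 13 (Q 14) (Q 14) (Q 13))) (T1 5 13 (Q 14) (Q 14) (Q 13)) (Q 11)) (Q 11) (Q 10))) (T2 3 10 (Q 11) (Q 11) (Q 10)) (Q 9))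 (Q 9) (P 8)))) (T0 7 8 (N 27) (N 27) (T1 3 8 (Q 9) (Q 9) (P 8))) (P 7)
def e86 : C := T4 1 10 (T4 1 11 (Q 21) (Q 13) (Q 11)) (Q 11) (Q 11)
def e87 : C := T0 4 5 (T1 2 5 (N 15) (T0 7 9 (N 27) (Q 13) (T4 2 9 (N 27) (Q 13) (P 9))) (T4 1 5 e54 (T1 3 7 (Q 13) (Q 13) (T2 2 7 (T0 7 9 (N 14) (N 14) (Q 9)) (Q 11) (P 7))) (P 5))) (T1 2 5 (Q 14) (Q 14) (T4 1 5 (T4 1 6 (N 6) (Q 9) e82) e82 (P 5))) (T1 2 5 (T4 1 5 (T0 5 6 (N 15) (N 15) (T4 1 6 (T0 6 7 (N 15) (N 15) (T2 2 7 (T4 1 7 (N 7) (Q 9) (Q 9)) (T4 1 7 (T1 3 8 (T4 1 8 (T4 1 9 (T4 1 10 (N 10) (Q 25) (T1 4 11 (N 27) (N 27) (Q 11))) (Q 29) (Q 9)) (Q 9) (Q 9)) (T4 1 8 (Q 25) (Q 9) (Q 9)) (T4 1 8 e57 (Q 9) (Q 8))) (Q 9) (Q 9)) e85)) (T0 6 7 (N 15) (N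 15) (T2 2 7 (Q 9) (Q 9) (P 7))) (P 6))) (T0 5 6 (Q 16) (Q 11) (P 6)) (P 5)) (T4 1 5 (T0 5 6 (Q 13) (Q 11) (T4 1 6 (T0 6 7 (N 42) (Q 13) (T2 2 7 (T4 1 7 (N 7) (Q 8) (Q 8)) (T4 1 7 (T4 1 8 (T4 1 9 (Q 18) (Q 11) (Q 9)) (Q 9) (Q 8)) (Q 8) (Q 8)) (T4 1 7 (T0 7 8 (N 27) (N 27) (T4 1 8 (T4 1 9 (T2 3 10 e86 e86 (T4 1 10 (T4 1 11 (T4 1 12 (T2 4 13 (T4 1 13 (T4 1 14 (T4 1 15 (T4 1 16 (T4 1 17 (T4 1 18 (T4 1 19 (N 19) (Q 21) (Q 21)) (Q 21) (Q 18)) (Q 18) (Q 17)) (Q 17) (Q 17)) (Q 17) (Q 17)) (Q 17) (Q 14)) (Q 14) (Q 13)) (T4 1 13 (T4 1 14 (Q 33) (Q 17) (Q 14)) (Q 14) (Q 13)) (Q 13)) (Q 13) (Q 13)) (Q 13) (Q 11)) (Q 11) (Q 10))) (Q 21) (Q 9)) (Q 9) (P 8))) (T0 7 8 (N 27) (N 27) (P 8)) (P 7)))) (Q 13)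 (P 6))) (T0 5 6 (Q 13) (Q 11) (P 6)) (P 5)) (P 5))
def e88 : C := T2 1 4 e37 (T3 1 4 (T4 1 4 (T0 4 5 (T3 1 5 (N 10) (Q 9) (T4 1 5 (N 10) (Q 9) (Q 5))) (T3 1 5 (Q 9) (Q 9) (T4 1 5 (Q 9) (Q 9) (Q 5))) (T1 2 5 (T3 1 5 (T4 1 5 (N 5) (O 3) (O 3)) (T4 1 5 (T4 1 6 (Q 21) (Q 21) (Q 6)) (Q 6) (O 3)) (T4 1 5 (T4 1 6 (T4 1 7 (N 7) (T1 3 8 (Q 9) (Q 9) (T3 2 9 (N 27) (Q 29) (Q 9))) (T1 3 8 (T3 2 9 (N 18) (Q 14) (Q 9)) (T3 2 9 (N 18) (Q 14) (Q 9)) (T3 2 9 (T1 5 13 (N 18) (N 18) (Q 21)) (Q 14) (Q 9)))) (T1 3 8 (T3 2 9 (Q 25) (Q 14) (Q 9)) (T3 2 9 (Q 25) (Q 14) (Q 9)) (T3 2 9 (Q 25) (Q 14) (Q 9))) (Q 6)) (Q 6) (P 5))) (T3 1 5 (T4 1 5 (T3 1 6 (T3 2 13 (N 19) (N 19) (Q 13)) (Q 13) (T4 1 6 (T4 2 13 (N 19)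 (N 19) (Q 13)) (Q 13) (Q 6))) (O 3) (O 3)) (T4 1 5 (T4 1 6 (Q 21) (Q 13) (Q 6)) (Q 6) (O 3)) (T4 1 5 (T4 1 6 (T4 1 7 (N 7) (T3 2 9 (N 27) (Q 23) (Q 9)) (T3 2 9 (Q 21) (Q 14) (Q 9))) (Q 13) (Q 6)) (Q 6) (P 5))) e53)) (O 3) (O 3)) (T4 1 4 (T0 4 5 (T4 1 5 (N 10) (Q 9) (Q 5)) (Q 9) (T1 2 5 (T4 1 5 (T4 1 6 (T4 1 7 (N 7) (Q 9) (Q 9)) (Q 9) (Q 6)) (Q 6) (P 5)) (T4 1 5 (T4 1 6 (Q 13) (Q 9) (Q 6)) (Q 6) (P 5)) (P 5))) (T0 4 5 (Q 5) (P 9) (P 5)) (O 3)) (O 2)) (T3 1 4 (T4 1 4 (T0 4 5 (T1 2 5 (N 12) (N 12) (T3 1 5 (T4 1 5 (N 5) (O 3) (O 3)) (T4 1 5 (Q 7) (Q 7) (O 3)) (T4 1 5 e54 (T1 3 7 (Q 13) (Q 13) (T2 2 7 (T0 7 9 (N 14) (N 14) (T3 2 9 (Q 11) (Q 11) (Q 9))) (Q 11) (P 7))) (P 5)))) (T1 2 5 (N 12)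 (N 12) (T3 1 5 (T4 1 5 (Q 7) (O 3) (O 3)) (T4 1 5 (Q 7) (Q 7) (O 3)) (T4 1 5 (T4 1 6 (N 6) (T2 2 7 (N 16) (N 16) (Q 7)) (T1 3 7 (Q 13) (Q 13) (T2 2 7 (T3 2 9 (Q 11) (Q 11) (Q 9)) (T3 2 9 (Q 11) (Q 11) (Q 9)) (P 7)))) (T1 3 7 (Q 13) (Q 13) (T2 2 7 (T3 2 9 (Q 11) (Q 11) (Q 9)) (Q 11) (P 7))) (P 5)))) e81) (O 3) (O 3)) (T4 1 4 e87 (T0 4 5 (T1 2 5 (N 15) (Q 17) (P 5)) (P 9) (P 5)) (O 3)) (P 4))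
def e89 : C := T4 1 4 (T1 2 5 (T4 1 5 (N 5) (Q 7) (T0 5 7 (T1 3 8 (N 8) (Q 10) (T4 2 9 (N 35) (N 35) (T0 7 10 (N 20) (Q 13) (Q 10)))) (Q 10) (T3 2 7 (N 20) (N 20) (P 7)))) (T4 1 5 (Q 7) (Q 7) (T0 5 7 (T4 2 9 (Q 10) (Q 10) (T0 7 10 (Q 13) (Q 13) (Q 10))) (Q 10) (T3 2 7 (T3 3 11 (N 32) (N 32) (Q 11)) (Q 11) (P 7)))) (T4 1 5 (T4 1 6 (T0 5 7 (T3 2 7 (N 14) (Q 13) (T4 1 7 (N 14) (T0 7 10 (N 20) (Q 13) (Q 10)) (Q 7))) (T3 2 7 (Q 13) (Q 13) (T4 1 7 (Q 10) (Q 10) (Q 7))) (T1 3 7 (Q 7) (Q 7) (T3 2 7 (T4 1 7 (N 14) (N 20) (P 7)) (T4 1 7 (N 20) (N 20) (P 7)) (P 7)))) (T0 5 7 (T3 2 7 (N 14) (Q 13) (Q 7)) (T3 2 7 (Q 13) (Q 13) (Q 7)) (T1 3 7 (Q 7) (Q 7) (P 7))) (T0 5 7 (T1 3 7 (N 14) (Q 10) (T3 2 7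 (N 14) (T0 7 10 (N 10) (Q 13) (Q 13)) (P 7))) (T1 3 7 (Q 10) (Q 10) (T3 2 7 (Q 13) (Q 13) (P 7))) (T1 3 7 (Q 7) (Q 7) (P 7)))) (T0 5 7 (T1 3 7 (N 14) (Q 10) (T3 2 7 (N 14) (Q 11) (P 7))) (T1 3 7 (Q 10) (Q 10) (T3 2 7 (Q 13) (Q 11) (P 7))) (T1 3 7 (Q 7) (Q 7) (P 7))) (P 5))) (T1 2 5 (T0 5 7 (T1 3 8 (Q 10) (Q 10) (T0 7 10 (T0 9 13 (Q 13) (Q 13) (Q 13)) (Q 13) (Q 10))) (Q 10) e44) (T0 5 7 (T0 7 10 (Q 13) (P 13) (P 13)) (P 13) (P 13)) (P 5)) (P 4)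
def e90 : C := T4 1 19 (T4 1 20 (N 20) (Q 22) (Q 22)) (Q 22) (Q 19)
def e91 : C := T4 1 17 (T4 1 18 e90 (Q 19) (Q 19)) (Q 19) (Q 17)
def e92 : C := T4 1 14 (T4 1 15 (T4 1 16 (T4 1 17 (N 17) (Q 19) (Q 19)) (Q 19) (Q 16)) (Q 16) (Q 16)) (Q 16) (Q 14)
def e93 : C := T1 3 8 (T4 1 8 (N 8) (Q 10) (T3 2 9 (Q 10) (Q 10) (Q 9))) (T4 1 8 (T3 2 9 (T4 1 9 (T4 1 10 (T4 1 11 (T4 1 12 (T4 1 13 (N 13) (Q 19) (T3 3 14 (N 23) (N 23) (Q 14))) (Q 25) (Q 25)) (Q 25) (Q 11)) (Q 11) (Q 10)) (Q 10) (Q 10)) (T4 1 9 (Q 19) (Q 10) (Q 10)) (T4 1 9 (T4 1 10 (T4 1 11 (T4 1 12 (T3 3 13 (Q 19) (Q 19) (T4 1 13 (T4 1 14 (T4 1 15 (T4 1 16 (T3 4 17 (N 29) (N 29) e91) (Q 19) (Q 19)) (Q 19) (Q 19)) (Q 19) (Q 14)) (Q 14) (Q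 13))) (Q 14) (Q 14)) (Q 14) (Q 11)) (Q 11) (Q 10)) (Q 10) (Q 9))) (Q 10) (T3 2 9 (Q 10) (Q 10) (Q 9))) (T4 1 8 (T3 2 9 (T4 1 9 (T4 1 10 (T4 1 11 (T4 1 12 (T1 5 13 (T4 1 13 (N 13) (Q 16) (Q 16)) (T4 1 13 (T3 3 14 (N 23) (N 23) (Q 19)) (Q 16) (Q 16)) (T4 1 13 (T3 3 14 (T4 1 14 (N 14) (Q 16) (Q 16)) (T4 1 14 (T4 1 15 (T4 1 16 (N 32) (Q 19) (Q 16)) (Q 16) (Q 16)) (Q 16) (Q 16)) e92) (Q 16) (Q 13))) (Q 16) (Q 16)) (Q 16) (Q 11)) (Q 11) (Q 10)) (Q 10) (Q 10)) (T4 1 9 (T4 1 10 (T4 1 11 (T4 1 12 (T1 5 13 (Q 19) (Q 19) (T4 1 13 e92 (Q 14) (Q 13))) (Q 14) (Q 14)) (Q 14) (Q 11)) (Q 11) (Q 10)) (Q 10) (Q 10)) (T4 1 9 (T4 1 10 (T4 1 11 (T4 1 12 (T1 5 13 (T3 3 13 (T4 1 13 (N 13) (Q 14) (Q 14)) (Q 22)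 (T4 1 13 (T4 1 14 (T4 1 15 (T4 1 16 (T3 4 17 (Q 22) (Q 22) e91) (Q 19) (Q 16)) (Q 16) (Q 16)) (Q 16) (Q 14)) (Q 14) (Q 13))) (T3 3 13 (T4 1 13 e92 (Q 14) (Q 14)) (Q 22) (T4 1 13 (T4 1 14 (T4 1 15 (T4 1 16 (T3 4 17 (Q 22) (Q 22) (T4 1 17 (Q 34) (Q 19) (Q 17))) (Q 19) (Q 16)) (Q 16) (Q 16)) (Q 16) (Q 14)) (Q 14) (Q 13))) (T3 3 13 (T4 1 13 e92 (Q 14) (Q 13)) (T4 1 13 e92 (Q 14) (Q 13)) (Q 13))) (Q 14) (T1 5 13 (Q 14) (Q 14) (Q 13))) (T1 5 13 (Q 14) (Q 14) (Q 13)) (Q 11)) (Q 11) (Q 10)) (Q 10) (Q 9))) (T3 2 9 (Q 10) (Q 10) (Q 9)) (P 8))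
def e94 : C := T3 1 5 (T4 1 5 (T3 1 6 (T4 1 6 (T3 1 7 (T4 1 7 (N 7) (O 3) (O 3)) (T4 1 7 (Q 43) (Q 8) (O 3)) (T4 1 7 (T4 1 8 (T4 1 9 (N 17) (N 17) (Q 28)) (Q 28) (Q 8)) (Q 8) (Q 7))) (O 3) (O 3)) (T4 1 6 (Q 13) (Q 7) (O 3)) (T4 1 6 (T4 1 7 (T4 1 8 (T4 1 9 (T4 1 10 (T3 2 11 (Q 13) (Q 13) (T4 1 11 (T4 1 12 (T4 1 13 (Q 16) (Q 16) (Q 13)) (Q 13) (Q 13)) (Q 13) (Q 11))) (Q 13) (Q 13)) (Q 13) (Q 13)) (Q 13) (Q 8)) (Q 8) (Q 7)) (Q 7) (Q 6))) (O 3) (O 3)) (T4 1 5 (T4 1 6 (T4 1 7 (T4 1 8 (Q 16) (Q 11) (Q 8)) (Q 8) (Q 7)) (Q 7) (Q 6)) (Q 6) (O 3)) (T4 1 5 (T0 5 6 (Q 13) (Q 11) (T4 1 6 (T0 6 7 (Q 13) (Q 13) (T4 1 7 (T0 7 8 (N 32) (Q 13) (T4 1 8 (T3 2 9 (T4 1 9 (T4 1 10 (T4 1 11 (T4 1 12 (T4 1 13 (T3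 3 14 (T4 1 14 (N 14) (Q 16) (Q 16)) (T4 1 14 (Q 43) (Q 16) (Q 16)) (Q 28)) (Q 16) (Q 13)) (Q 13) (Q 13)) (Q 13) (Q 11)) (Q 11) (Q 10)) (Q 10) (Q 10)) (T4 1 9 (T4 1 10 (T4 1 11 (T4 1 12 (Q 23) (Q 13) (Q 13)) (Q 13) (Q 11)) (Q 11) (Q 10)) (Q 10) (Q 10)) (T4 1 9 (T4 1 10 (T4 1 11 (T4 1 12 (T3 3 13 (T4 1 13 (T4 1 14 (T4 1 15 (T4 1 16 (T4 1 17 (N 17) (Q 18) (Q 18)) (Q 18) (Q 16)) (Q 16) (Q 16)) (Q 16) (Q 14)) (Q 14) (Q 13)) (T4 1 13 (T4 1 14 (T4 1 15 (Q 31) (Q 16) (Q 16)) (Q 16) (Q 14)) (Q 14) (Q 13)) (Q 13)) (Q 13) (Q 13)) (Q 13) (Q 11)) (Q 11) (Q 10)) (Q 10) (Q 9))) (T3 2 9 (Q 10) (Q 10) (Q 9)) (P 8))) (T0 7 8 (N 32) (Q 13) (P 8)) (P 7))) (Q 13) (P 6))) (Q 16) (P 5))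
def e95 : C := T4 1 6 (T4 1 7 (N 14) (N 20) (Q 7)) (Q 7) (Q 7)
def e96 : C := T3 1 7 (Q 13) (Q 13) (T4 1 7 (Q 13) (Q 13) (Q 7))
def e97 : C := T1 5 12 (T3 2 13 (N 19) (N 19) (Q 13)) (Q 22) (Q 22)
def e98 : C := T4 1 9 (T4 1 10 (N 20) (Q 22) (Q 10)) (Q 10) (Q 10)
def e99 : C := T1 7 15 (N 23) (N 23) (T1 8 17 (N 23) (N 23) (Q 17))
def e100 : C := T3 1 7 (T4 1 7 (T3 1 8 (T4 1 8 (N 8) (O 3) (O 3)) (T4 1 8 (T1 4 9 (T4 1 9 (T4 1 10 (N 20) (N 29) (Q 10)) (Q 10) (Q 10)) (Q 25) (T4 1 9 (T4 1 10 (T1 5 11 (Q 25) (Q 25) (T4 1 11 (T4 1 12 (T1 6 13 (N 23) (N 23) (T4 1 13 (T4 1 14 (N 14) (T1 8 17 (N 23) (N 23) (Q 17)) e99) e99 (Q 13))) (T1 6 13 (N 23) (N 23) (Q 13)) (T1 6 13 (Q 25) (Q 25) (Q 13))) (T1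 6 13 (Q 25) (Q 25) (Q 13)) (Q 11))) (T1 5 11 (Q 25) (Q 25) (Q 11)) (Q 10)) (Q 10) (Q 9))) (Q 10) (O 3)) (T4 1 8 (T1 4 9 (T4 1 9 (T4 1 10 (N 20) (T3 2 15 (N 29) (N 29) (Q 31)) (Q 10)) (Q 10) (Q 10)) (Q 16) (T4 1 9 (T4 1 10 (T1 5 11 (Q 16) (Q 16) (T4 1 11 (T4 1 12 (T1 6 13 (T4 1 13 (N 13) (Q 16) (Q 16)) (T4 1 13 (T4 1 14 (N 14) (N 41) (Q 16)) (Q 16) (Q 16)) e77) (Q 16) (T1 6 13 (Q 16) (Q 16) (Q 13))) (T1 6 13 (Q 16) (Q 16) (Q 13)) (Q 11))) (T1 5 11 (Q 16) (Q 16) (Q 11)) (Q 10)) (Q 10) (Q 9))) (T1 4 9 (Q 10) (Q 10) (Q 9)) (Q 8))) (O 3) (O 3)) (T4 1 7 (T4 1 8 (T1 4 9 e98 (Q 16) (T4 1 9 (T4 1 10 (T1 5 11 (Q 16) (Q 16) (T4 1 11 (T4 1 12 (T1 6 13 (Q 22) (Q 22) (T4 1 13 (T4 1 14 (T1 7 15 (Q 22)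 (Q 22) (T4 1 15 (T4 1 16 (T1 8 17 (Q 22) (Q 22) (T4 1 17 (T4 1 18 (T1 9 19 (Q 22) (Q 22) e90) (Q 22) (Q 22)) (Q 22) (Q 17))) (Q 22) (Q 16)) (Q 16) (Q 15))) (Q 16) (Q 16)) (Q 16) (Q 13))) (Q 16) (T1 6 13 (Q 16) (Q 16) (Q 13))) (T1 6 13 (Q 16) (Q 16) (Q 13)) (Q 11))) (T1 5 11 (Q 16) (Q 16) (Q 11)) (Q 10)) (Q 10) (Q 9))) (T1 4 9 (Q 10) (Q 10) (Q 9)) (Q 8)) (Q 8) (O 3)) (P 7)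
def e101 : C := T3 1 6 (T4 1 6 (T0 6 7 (T3 1 7 (N 14) (Q 13) (T4 1 7 (N 14) (Q 13) (Q 7))) e96 (T1 3 7 (T3 1 7 (T4 1 7 (N 7) (O 3) (O 3)) (T4 1 7 (T4 1 8 (T4 1 9 (Q 22) (Q 10) (Q 10)) (Q 10) (Q 8)) (Q 8) (O 3)) (T4 1 7 (T4 1 8 (T4 1 9 (T4 1 10 (T4 1 11 (N 11) (T1 5 12 (Q 13) (Q 13) (T3 2 13 (N 32) (N 32) (Q 13))) e97) e97 (Q 10)) (Q 10) (Q 10)) (Q 10) (Q 8)) (Q 8) (P 7))) (T3 1 7 (T4 1 7 (T3 1 8 (T4 1 8 (N 8) (O 3) (O 3)) (Q 10) (T4 1 8 e98 (Q 10) (Q 8))) (O 3) (O 3)) (T4 1 7 (T4 1 8 (Q 22) (Q 10) (Q 8)) (Q 8) (O 3)) (T4 1 7 (T4 1 8 (T4 1 9 (T4 1 10 (T4 1 11 (N 11) (T3 2 13 (N 32) (N 32) (Q 13)) (Q 22)) (Q 22) (Q 10)) (Q 10) (Q 10)) (Q 10) (Q 8)) (Q 8) (P 7))) e100)) (O 3) (O 3)) (T4 1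 6 (T0 6 7 (T4 1 7 (N 14) (Q 13) (Q 7)) (Q 13) (T1 3 7 (T4 1 7 (T4 1 8 (T4 1 9 (T4 1 10 (T4 1 11 (N 11) (Q 13) (Q 13)) (Q 13) (Q 10)) (Q 10) (Q 10)) (Q 10) (Q 8)) (Q 8) (P 7)) (T4 1 7 (T4 1 8 (T4 1 9 (Q 19) (Q 10) (Q 10)) (Q 10) (Q 8)) (Q 8) (P 7)) (P 7))) (T0 6 7 (Q 7) (P 13) (P 7)) (O 3)) (T4 1 6 (T0 6 7 (T4 1 7 (N 14) (T3 2 11 (Q 25) (Q 17) (Q 11)) (Q 7)) (T4 1 7 (Q 13) (Q 13) (Q 7)) (T1 3 7 (T4 1 7 (T4 1 8 (T4 1 9 (T4 1 10 (T3 2 11 (T4 1 11 (N 11) (Q 13) (Q 13)) (T4 1 11 (T1 5 12 (T4 1 12 (T4 1 13 (N 26) (N 38) (Q 13)) (Q 13) (Q 13)) (Q 17) (T4 1 12 e52 (Q 13) (Q 12))) (Q 13) (Q 13)) (T4 1 11 (T1 5 12 (T4 1 12 (T4 1 13 (T4 1 14 (N 14) (T3 3 16 (N 26) (N 26) (Q 16)) (Q 28)) (Q 28) (Q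 13)) (Q 13) (Q 13)) (Q 22) (T4 1 12 e52 (Q 13) (Q 12))) (Q 13) (Q 11))) (Q 13) (Q 10)) (Q 10) (Q 10)) (Q 10) (Q 8)) (Q 8) (P 7)) (T4 1 7 (T4 1 8 (T4 1 9 (T4 1 10 (T3 2 11 (Q 19) (Q 19) (T4 1 11 (T4 1 12 (T4 1 13 (T4 1 14 (T4 1 15 (T3 3 16 (Q 22) (Q 22) (T4 1 16 e91 (Q 17) (Q 16))) (Q 17) (Q 17)) (Q 17) (Q 17)) (Q 17) (Q 13)) (Q 13) (Q 12)) (Q 12) (Q 11))) (Q 12) (Q 10)) (Q 10) (Q 10)) (Q 10) (Q 8)) (Q 8) (P 7)) (P 7))) (T0 6 7 (Q 7) (P 13) (P 7)) (P 6))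
def e102 : C := T1 2 5 (T3 1 5 (T4 1 5 (N 5) (O 3) (O 3)) (T4 1 5 (T4 1 6 (T4 1 7 (T1 3 8 (T4 1 8 (N 8) (T1 4 11 (T1 5 14 (N 14) (Q 17) (Q 17)) (Q 17) (Q 11)) (Q 16)) (Q 11) (T4 1 8 (Q 16) (Q 11) (Q 8))) (T1 3 8 (Q 16) (Q 11) (Q 8)) (Q 7)) (Q 7) (Q 6)) (Q 6) (O 3)) (T4 1 5 (T0 5 6 (N 20) (N 20) (T4 1 6 (T0 6 7 (N 35) (Q 13) (T4 1 7 (T0 7 8 (N 20) (N 20) e93) (T0 7 8 (N 20) (N 20) (T1 3 8 (T3 2 9 (Q 10) (Q 10) (Q 9)) (T3 2 9 (Q 10) (Q 10) (Q 9)) (P 8))) (P 7))) (T0 6 7 (N 35) (Q 13) (P 7)) (P 6))) (T0 5 6 (Q 16) (Q 11) (P 6)) (P 5))) e94 (T3 1 5 (T4 1 5 (T0 5 6 (T3 1 6 (T4 1 6 (N 6) (O 3) (O 3)) (Q 7) e95) (T3 1 6 (T4 1 6 (Q 7) (O 3) (O 3)) (Q 7) e95) e101) (O 3) (O 3)) (T4 1 5 (T0 5 6 (T4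 1 6 (T4 1 7 (N 14) (Q 11) (Q 7)) (Q 7) (Q 7)) (T4 1 6 (Q 11) (Q 7) (Q 7)) (T4 1 6 (T0 6 7 (T4 1 7 (N 14) (Q 11) (Q 7)) (T4 1 7 (Q 11) (Q 11) (Q 7)) (T1 3 7 (T4 1 7 (T4 1 8 (T4 1 9 (T4 1 10 (T4 1 11 (T1 5 12 (T4 1 12 e77 (Q 13) (Q 13)) (Q 22) (T4 1 12 e77 (Q 13) (Q 12))) (Q 13) (Q 11)) (Q 11) (Q 10)) (Q 10) (Q 10)) (Q 10) (Q 8)) (Q 8) (P 7)) (T4 1 7 (T4 1 8 (T4 1 9 (T4 1 10 (T4 1 11 (T4 1 12 (T4 1 13 (T4 1 14 (T4 1 15 (Q 31) (Q 16) (Q 16)) (Q 16) (Q 16)) (Q 16) (Q 13)) (Q 13) (Q 12)) (Q 12) (Q 11)) (Q 11) (Q 10)) (Q 10) (Q 10)) (Q 10) (Q 8)) (Q 8) (P 7)) (P 7))) (T0 6 7 (Q 7) (P 13) (P 7)) (P 6))) (T0 5 6 (Q 7) (P 11) (P 6)) (O 3)) (P 5))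
def e103 : C := T4 1 11 (T4 1 12 (T4 1 13 (Q 25) (Q 14) (Q 13)) (Q 13) (Q 13)) (Q 13) (Q 11)
def e104 : C := T1 2 5 (T4 1 5 (T0 5 6 (T0 9 11 (N 35) (N 35) (Q 11)) (Q 11) (T4 1 6 (T0 6 7 (N 35) (Q 13) (T4 1 7 (T0 7 8 (N 35) (N 35) (T1 3 8 (T4 1 8 (T4 1 9 (T4 1 10 (T1 4 11 (T4 1 11 (N 11) (Q 13) (Q 13)) (T4 1 11 (Q 25) (Q 13) (Q 13)) e103) (Q 13) (Q 10)) (Q 10) (Q 9)) (Q 9) (Q 9)) (T4 1 8 (T4 1 9 (T4 1 10 e103 (Q 11) (Q 10)) (Q 10) (Q 9)) (Q 9) (Q 9)) (T4 1 8 (T4 1 9 (T4 1 10 (T4 1 11 (T4 1 12 (T1 5 13 (T4 1 13 (T4 1 14 (T4 1 15 (T4 1 16 (T4 1 17 (T4 1 18 (T4 1 19 (T4 1 20 (T1 8 21 (T4 1 21 (T4 1 22 (T4 1 23 (N 23) (Q 25) (Q 25)) (Q 25) (Q 22)) (Q 22) (Q 22)) (Q 29) (Q 37)) (Q 22) (Q 22))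 (Q 22) (Q 19)) (Q 19) (Q 19)) (Q 19) (Q 17)) (Q 17) (Q 16)) (Q 16) (Q 16)) (Q 16) (Q 14)) (Q 14) (Q 13)) (T4 1 13 (T4 1 14 (T4 1 15 (T4 1 16 (T4 1 17 (Q 34) (Q 19) (Q 17)) (Q 17) (Q 16)) (Q 16) (Q 16)) (Q 16) (Q 14)) (Q 14) (Q 13)) (Q 13)) (Q 13) (Q 13)) (Q 13) (Q 11)) (Q 11) (Q 10)) (Q 10) (Q 9)) (Q 9) (P 8)))) (T0 7 8 (Q 13) (Q 13) (T1 3 8 (Q 9) (P 22) (P 8))) (P 7))) (Q 13) (P 6))) (T0 5 6 (Q 16) (Q 11) (P 6)) (P 5)) (T4 1 5 (T0 5 6 (Q 13) (Q 11) (T4 1 6 (T0 6 7 (Q 13) (Q 13) (T4 1 7 (T0 7 8 (Q 13) (Q 13) (T4 1 8 (T4 1 9 (T4 1 10 (T4 1 11 (Q 13) (P 13) (P 13)) (P 13) (P 13)) (P 13) (P 13)) (P 13) (P 8))) (P 13) (P 7))) (P 13) (P 6))) (P 13) (P 5)) (P 5)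
def e105 : C := T0 3 4 (T3 1 4 (T4 1 4 (N 4) (O 3) (O 3)) e40 e89) (T3 1 4 e48 e40 (T4 1 4 (T1 2 5 (T4 1 5 (N 5) (Q 7) (T3 2 7 (Q 19) (Q 11) (P 7))) (T4 1 5 (Q 7) (Q 7) (T3 2 7 (Q 19) (P 11) (P 7))) (T4 1 5 (T4 1 6 (T1 3 7 (Q 7) (Q 7) (T3 2 7 (T4 1 7 (N 14) (Q 11) (P 7)) (Q 11) (P 7))) (T1 3 7 (Q 7) (Q 7) (P 7)) (T1 3 7 (Q 7) (Q 7) (P 7))) (T1 3 7 (Q 7) (Q 7) (P 7)) (P 5))) (T1 2 5 (T3 2 7 (Q 19) (Q 11) (P 7)) (P 13) (P 5)) (P 4))) (T3 1 4 (T4 1 4 (T0 4 5 (T1 2 5 (N 20) (T0 7 9 (N 32) (N 32) (T3 2 9 (Q 13) (Q 13) (T4 2 9 (Q 13) (Q 13) (P 9)))) (T3 1 5 (T4 1 5 (N 5) (O 3) (O 3)) (T4 1 5 (Q 7) (Q 7) (O 3)) (T4 1 5 (T4 1 6 (T4 1 7 (N 20) (N 20) (Q 7)) (Q 7) (T1 3 7 (N 20) (N 20) (P 7))) (T1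 3 7 (Q 13) (Q 13) (P 7)) (P 5)))) (T1 2 5 (Q 14) (Q 14) (T3 1 5 (T4 1 5 (Q 7) (O 3) (O 3)) (T4 1 5 (Q 7) (Q 7) (O 3)) (T4 1 5 (T4 1 6 (T4 1 7 (Q 9) (Q 9) (Q 7)) (Q 7) (T1 3 7 (Q 13) (Q 13) (P 7))) (T1 3 7 (Q 13) (Q 13) (P 7)) (P 5)))) e102) (O 3) (O 3)) (T4 1 4 (T0 4 5 (T1 2 5 (T1 3 8 (Q 9) (Q 9) (T0 7 9 (Q 13) (Q 13) (T4 2 9 (N 35) (N 35) (P 9)))) (T0 7 9 (Q 13) (Q 13) (Q 13)) (T4 1 5 (T4 1 6 (T4 1 7 (Q 13) (Q 13) (Q 7)) (Q 7) (T1 3 7 (N 35) (Q 13) (P 7))) (T1 3 7 (Q 13) (Q 13) (P 7)) (P 5))) (T1 2 5 (Q 14) (Q 13) (T4 1 5 (T4 1 6 (Q 9) (P 13) (P 13)) (P 13) (P 5))) e104) (T0 4 5 (T1 2 5 (Q 17) (P 13) (P 5)) (P 9) (P 5)) (O 3)) (P 4))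
def e106 : C := T0 5 7 (T1 3 7 (N 14) (Q 10) (P 7)) (P 10) (P 7)
def e107 : C := T1 1 3 (T2 1 3 e1 (O 1) (O 1)) (T2 1 3 (T3 1 3 (T4 1 3 e39 (O 3) (O 3)) (O 2) (O 2)) (T3 1 3 (T4 1 3 (T0 3 4 e35 e36 (T3 1 4 (T4 1 4 (T3 1 5 (T4 1 5 (N 5) (O 3) (O 3)) (T4 1 5 (T4 1 6 (Q 16) (Q 7) (Q 7)) (Q 7) (O 3)) (T4 1 5 (T4 1 6 (T4 1 7 (T4 1 8 (N 8) (Q 10) (Q 10)) (Q 10) (Q 7)) (Q 7) (Q 7)) (Q 7) (Q 5))) (O 3) (O 3)) (T4 1 4 (T4 1 5 (T4 1 6 (T4 1 7 (Q 13) (Q 10) (Q 7)) (Q 7) (Q 7)) (Q 7) (Q 5)) (Q 5) (O 3)) (P 4))) (O 3) (O 3)) (T0 3 4 (T4 1 4 (N 8) (Q 7) (P 4)) (Q 7) (P 4)) (O 2)) (O 1)) (T2 1 3 (T3 1 3 (T4 1 3 (T0 3 4 e46 (T2 1 4 e37 e47 (T3 1 4 e48 e40 (T4 1 4 (T1 2 5 (T4 1 5 (N 5) (N 9) e45) (T4 1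 5 (N 9) (N 9) (T2 2 7 (Q 23) (Q 11) (T3 2 7 (Q 23) (P 11) (P 7)))) (T4 1 5 (T4 1 6 (N 6) e41 e43) (T1 3 7 (N 9) (N 9) (T2 2 7 (T3 2 7 (N 14) (O 2) (O 2)) (T3 2 7 (Q 11) (P 11) (O 2)) (P 7))) (P 5))) (T1 2 5 e45 (T2 2 7 (Q 13) (Q 11) (T3 2 7 (Q 13) (P 11) (P 7))) (P 5)) (P 4)))) e88) (O 3) (O 3)) (O 2) (O 2)) (T3 1 3 (T4 1 3 e105 (O 3) (O 3)) (T0 3 4 (T4 1 4 (T1 2 5 (T4 1 5 (N 5) (Q 7) (T0 5 7 (T1 3 8 (N 8) (Q 10) (T4 2 9 (N 35) (N 35) (T0 7 10 (N 20) (P 16) (P 10)))) (P 10) (P 7))) (T4 1 5 (Q 7) (Q 7) (T0 5 7 (Q 28) (P 10) (P 7))) (T4 1 5 (T4 1 6 (T0 5 7 (T4 1 7 (N 14) (Q 16) (Q 7)) (Q 10) (T1 3 7 (Q 7) (Q 7) (P 7))) (T0 5 7 (Q 7) (P 10) (P 7)) e106) e106 (P 5))) (T1 2 5 (T0 5 7 (Q 22)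 (P 10) (P 7)) (P 13) (P 5)) (P 4)) (T1 2 5 (Q 7) (Q 7) (T4 1 6 (T1 3 7 (Q 7) (Q 7) (P 7)) (P 7) (P 7))) (P 4)) (O 2)) (P 3))
def e108 : C := T3 1 5 (Q 7) (Q 7) (T4 1 5 (Q 7) (Q 7) (P 5))
def e109 : C := T3 1 5 (Q 11) (Q 11) (T4 1 5 (Q 11) (Q 11) (P 5))
def e110 : C := T4 1 6 (T4 1 7 (Q 11) (Q 11) (Q 7)) (Q 7) (Q 7)
def e111 : C := T3 2 7 (T4 2 9 (Q 11) (Q 11) (P 9)) (P 11) (P 7)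
def e112 : C := T0 7 13 (T0 8 15 (Q 23) (Q 17) (Q 17)) (Q 17) (Q 13)
def e113 : C := T0 5 9 (T0 6 11 (T0 7 13 (Q 23) (Q 15) (Q 13)) (Q 13) (Q 11)) (Q 11) (Q 9)
def e114 : C := T4 1 7 (T4 1 8 (Q 11) (Q 9) (Q 9)) (Q 9) (P 7)
def e115 : C := T3 3 10 (Q 11) (Q 11) (T4 2 11 (Q 13) (P 17) (P 11))
def e116 : C := T4 1 6 (T0 4 7 (T2 3 7 (N 21) (Q 13) (T3 2 7 (T4 1 7 (N 7) (Q 9) (T0 5 9 (Q 11) (Q 11) (Q 9))) (Q 11) (T4 1 7 (T4 1 8 (T0 5 9 (Q 13) (Q 11) (Q 11)) (T0 5 9 (Q 13) (Q 11) (Q 9)) (T0 5 9 (T0 6 11 e112 (Q 13) (Q 11)) (Q 11) (Q 9))) e113 (P 7)))) (T2 3 7 (Q 13) (Q 13) (T3 2 7 (Q 9) (Q 9) e114)) (T2 3 7 (T4 1 7 (N 21) (Q 17) (Q 7)) (T4 1 7 (Q 17) (Q 17) (Q 7)) (T3 2 7 (Q 9) (Q 9) (P 7))))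 (T0 4 7 (T2 3 7 (N 21) (Q 13) (T3 2 7 (Q 13) (Q 11) (P 7))) (T2 3 7 (Q 13) (Q 13) (T3 2 7 (Q 9) (Q 9) (P 7))) (T2 3 7 (Q 7) (Q 7) (P 7))) (T0 4 7 (T2 3 7 (T0 5 9 (N 9) (Q 11) (T3 3 10 (N 35) (N 35) (T4 2 11 (N 21) (N 21) (P 11)))) (T0 5 9 (N 9) (Q 11) e115) (T3 2 7 (T0 5 9 (T0 6 11 (T3 3 11 (T4 2 11 (N 11) (Q 13) (T0 7 13 (Q 23) (Q 17) (Q 13))) (Q 19) (T4 2 11 (Q 19) (Q 17) (Q 11))) (Q 13) (T3 3 11 (Q 13) (Q 13) (Q 11))) (T3 3 11 (Q 13) (Q 13) (Q 11)) (T2 4 9 (N 35) (N 35) (P 9))) (T0 5 9 (T0 6 11 (T4 2 11 (Q 19) (Q 17) (Q 11)) (Q 13) (Q 11)) (Q 11) (T2 4 9 (N 45) (Q 11) (P 9))) (P 7))) (T2 3 7 (T3 3 10 (Q 11) (Q 11) (T4 2 11 (Q 13) (Q 13) (P 11))) e115 (T3 2 7 (T2 4 9 (N 45) (Q 11) (P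 9)) (Q 25) (P 7))) (T2 3 7 (T3 2 7 (N 35) (Q 11) (P 7)) (T3 2 7 (Q 12) (Q 11) (P 7)) (P 7)))
def e117 : C := T2 2 5 (T4 1 5 (N 5) (Q 11) (T0 4 7 (T3 2 7 (N 7) (Q 9) (T2 3 8 (T0 5 9 (Q 13) (Q 13) (T4 2 9 (N 21) (N 21) (P 9))) (T0 5 9 (Q 13) (P 11) (P 11)) (T0 5 9 (T4 2 9 (N 9) (Q 13) (T3 3 10 (Q 11) (Q 11) (T0 6 11 (T0 7 13 (T2 5 13 (N 39) (Q 17) (T4 3 13 (N 39) (Q 19) (Q 13))) (T2 5 13 (Q 17) (Q 17) (T4 3 13 (Q 19) (Q 19) (Q 13))) (T2 5 13 (Q 13) (Q 13) (T3 4 13 (N 55) (N 55) (P 13)))) (T2 5 13 (Q 13) (Q 13) (T3 4 13 (Q 13) (Q 13) (P 13))) (P 11)))) (P 11) (P 11)))) (T3 2 7 (Q 9) (Q 9) (T2 3 8 (T4 2 9 (N 45) (Q 11) (P 9)) (P 11) (P 11))) (T3 2 7 (T2 3 8 (Q 9) (Q 9) (T4 2 9 (N 35) (N 35)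 (P 9))) (T2 3 8 (Q 9) (P 11) (P 11)) (P 7)))) (T4 1 5 (T4 1 6 (Q 7) (Q 7) (T0 4 7 (Q 11) (Q 11) (Q 7))) (Q 11) (T0 4 7 (T3 2 7 (N 7) (Q 9) (T0 5 9 (T4 2 9 (N 9) (Q 13) (T3 3 10 (Q 11) (Q 11) (T0 6 11 (T0 7 13 (T4 3 13 (N 39) (Q 19) (Q 13)) (Q 23) (T3 4 13 (Q 13) (P 23) (P 13))) (T3 4 13 (Q 13) (P 23) (P 13)) (P 11)))) (P 11) (P 11))) (Q 11) e111)) (T4 1 5 e116 (T0 4 7 (T2 3 7 (T0 5 9 (N 9) (Q 11) (Q 11)) (Q 17) (T3 2 7 (T0 5 9 (T0 6 11 (T3 3 11 (Q 21) (Q 19) (Q 11)) (Q 13) (Q 11)) (Q 11) (T2 4 9 (N 49) (N 49) (P 9))) (T0 5 9 (Q 11) (P 11) (P 11)) (P 7))) (T2 3 7 (Q 11) (Q 11) (T3 2 7 (Q 16) (P 11) (P 7))) (T2 3 7 (T3 2 7 (T3 3 11 (Q 12) (Q 12) (P 11)) (P 11) (P 7)) (T3 2 7 (Q 12) (P 11)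 (P 7)) (P 7))) (P 5))
def e118 : C := T0 3 5 e117 (T2 2 5 (T4 1 5 (Q 7) (Q 7) (T3 2 7 (T2 3 8 (Q 9) (Q 9) (T4 2 9 (Q 11) (Q 11) (P 9))) (T2 3 8 (Q 9) (P 11) (P 11)) (P 7))) (T4 1 5 (Q 7) (Q 7) e111) (T4 1 5 (T4 1 6 (T2 3 7 (T4 1 7 (N 21) (Q 17) (Q 7)) (Q 17) (T3 2 7 (Q 9) (Q 9) (P 7))) (T2 3 7 (Q 7) (Q 7) (P 7)) (T2 3 7 (T3 2 7 (Q 17) (Q 11) (P 7)) (P 12) (P 7))) (T2 3 7 (T3 2 7 (Q 17) (P 11) (P 7)) (P 12) (P 7)) (P 5))) (T2 2 5 (T4 1 5 (T4 1 6 (T3 2 7 (Q 8) (Q 8) (T4 1 7 (T0 5 8 (N 27) (N 27) (T2 3 8 (N 21) (N 21) (T4 1 8 (N 15) (N 15) (P 8)))) (T0 5 8 (N 27) (N 27) (T2 3 8 (Q 17) (Q 11) (P 8))) (P 7))) (T3 2 7 (Q 8) (Q 8) (P 7)) (T3 2 7 (T0 5 8 (N 35) (N 35) (T2 3 8 (T2 4 11 (T3 3 11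 (N 33) (Q 17) (Q 11)) (Q 17) (T3 3 11 (Q 11) (Q 11) (Q 11))) (T3 3 11 (Q 11) (Q 11) (Q 11)) (P 8))) (T0 5 8 (Q 11) (Q 11) (T2 3 8 (T2 4 11 (Q 11) (Q 11) (Q 11)) (Q 11) (P 8))) (P 7))) (T3 2 7 (T0 5 8 (Q 11) (Q 11) (T2 3 8 (T2 4 11 (T3 3 11 (N 33) (Q 17) (Q 11)) (Q 17) (Q 11)) (Q 11) (P 8))) (T0 5 8 (Q 11) (Q 11) (T2 3 8 (Q 11) (P 11) (P 8))) (P 7)) (P 5)) (T4 1 5 (T4 1 6 (T3 2 7 (Q 8) (Q 8) (T4 1 7 (T0 5 8 (N 27) (N 27) (T4 1 8 (Q 11) (Q 11) (P 8))) (T0 5 8 (N 27) (N 27) (P 8)) (P 7))) (T3 2 7 (Q 8) (Q 8) (P 7)) (T3 2 7 (T0 5 8 (Q 11) (P 13) (P 8)) (Q 18) (P 7))) (T3 2 7 (T0 5 8 (Q 11) (P 13) (P 8)) (P 11) (P 7)) (P 5)) (P 5))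
def e119 : C := T3 1 4 (T4 1 4 (T0 3 5 (T2 2 5 (N 15) (Q 9) (T3 1 5 (T4 1 5 (N 5) (O 3) (O 3)) (T4 1 5 (Q 7) (Q 7) (O 3)) (T4 1 5 (T4 1 6 (Q 7) (Q 7) (T0 4 7 (T0 5 9 (Q 11) (Q 11) (Q 9)) (Q 9) (Q 7))) (T0 4 7 (Q 11) (Q 9) (Q 7)) (P 5)))) (T2 2 5 (Q 9) (Q 9) e108) (T2 2 5 (T3 1 5 (N 15) (Q 11) (T4 1 5 (N 15) (Q 11) (P 5))) e109 (T3 1 5 (T4 1 5 (T3 1 6 (T4 1 6 (N 6) (O 3) (O 3)) (Q 7) e110) (O 3) (O 3)) (T4 1 5 e110 (Q 7) (O 3)) (P 5)))) (O 3) (O 3)) (T4 1 4 (T0 3 5 (T2 2 5 (N 15) (Q 9) (T4 1 5 (T4 1 6 (Q 7) (Q 7) (T0 4 7 (Q 13) (Q 9) (Q 7))) (T0 4 7 (Q 11) (Q 9) (Q 7)) (P 5))) e8 (T2 2 5 (T4 1 5 (N 15) (Q 11) (P 5)) (T4 1 5 (Q 11) (Q 11) (P 5)) (P 5))) (T0 3 5 (T2 2 5 (N 15) (Q 9) (P 5))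 (P 9) (P 5)) (O 3)) (T4 1 4 e118 (T0 3 5 (T2 2 5 (T0 4 7 (T3 2 7 (N 7) (Q 9) (T2 3 8 (T0 5 9 (Q 13) (Q 13) (P 9)) (Q 17) (T0 5 9 (T3 3 10 (Q 11) (Q 11) (T0 6 11 (T0 7 13 (T2 5 13 (N 39) (Q 17) (Q 13)) (P 17) (P 17)) (P 17) (P 11))) (P 11) (P 9)))) (P 9) (P 9)) (T0 4 7 (T3 2 7 (N 7) (Q 9) (T0 5 9 (T3 3 10 (Q 11) (Q 11) (T0 6 11 (Q 33) (P 13) (P 11))) (P 11) (P 9))) (P 9) (P 9)) (P 5)) (P 9) (P 5)) (P 4))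
def e120 : C := T0 3 5 (T2 2 5 (T4 1 5 (N 5) (Q 11) (T0 4 7 (T2 3 8 (T0 5 9 (Q 13) (Q 13) (T4 2 9 (Q 11) (Q 11) (P 9))) (Q 19) (T0 5 9 (T4 2 9 (Q 13) (Q 13) (T0 6 11 (T0 7 13 (T2 5 13 (Q 17) (Q 17) (T4 3 13 (N 65) (Q 19) (P 13))) (P 19) (P 19)) (P 19) (P 11))) (P 11) (P 11))) (T2 3 8 (T4 2 9 (Q 11) (Q 11) (P 9)) (P 11) (P 11)) (P 7))) (T4 1 5 (Q 13) (Q 11) (T0 5 9 (T4 2 9 (Q 13) (Q 13) (T0 7 13 (T4 3 13 (Q 19) (Q 19) (P 13)) (P 19) (P 13))) (P 11) (P 11))) (T4 1 5 (T4 1 6 (T0 4 7 (T2 3 7 (N 35) (Q 13) (T4 1 7 (T4 1 8 (Q 13) (Q 13) (T0 5 9 (T0 6 11 (T0 7 13 (Q 25) (Q 17) (Q 13)) (Q 13) (Q 11)) (Q 11) (Q 9))) e113 (P 7))) (T2 3 7 (Q 13) (Q 13) e114) (T2 3 7 (T4 1 7 (N 35) (Q 17) (P 7)) (T4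 1 7 (Q 17) (Q 17) (P 7)) (P 7))) (T0 4 7 (T2 3 7 (N 35) (Q 13) (P 7)) (P 13) (P 7)) (T0 4 7 (T2 3 7 (T0 5 9 (T0 6 11 (Q 17) (P 13) (P 13)) (P 13) (P 13)) (Q 19) (P 7)) (P 13) (P 7))) (T2 3 7 (T0 5 9 (T0 6 11 (Q 17) (P 13) (P 11)) (P 11) (P 11)) (Q 17) (P 7)) (P 5))) (T2 2 5 (Q 7) (Q 7) (T2 3 7 (T4 1 7 (Q 17) (Q 17) (P 7)) (Q 17) (P 7))) (T2 2 5 (T4 1 5 (T4 1 6 (T4 1 7 (T0 5 8 (N 35) (N 35) e28) (T0 5 8 (Q 13) (Q 13) (T2 3 8 (Q 17) (Q 11) (P 8))) (P 7)) (P 7) (P 7)) (P 7) (P 5)) (T4 1 7 (Q 13) (Q 13) (P 7)) (P 5))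
def e121 : C := T3 2 7 (Q 13) (Q 13) (T4 1 7 (Q 10) (Q 10) (P 7))
def e122 : C := T3 3 11 (Q 13) (Q 13) (T4 2 11 (N 21) (N 21) (P 11))
def e123 : C := T4 1 6 (T0 5 7 (T2 2 7 (N 21) (Q 13) (T3 2 7 (N 21) (Q 13) (T4 1 7 (N 21) (T0 7 10 (N 27) (N 27) (Q 10)) (P 7)))) (T2 2 7 (Q 13) (Q 13) e121) (T2 2 7 (T4 1 7 (N 21) (Q 11) (Q 7)) (T4 1 7 (Q 11) (Q 11) (Q 7)) (T3 2 7 (T4 1 7 (N 21) (Q 11) (P 7)) (T4 1 7 (Q 11) (Q 11) (P 7)) (P 7)))) (T0 5 7 (T2 2 7 (N 21) (Q 13) (T3 2 7 (N 21) (Q 13) (P 7))) (T2 2 7 (Q 13) (Q 13) (T3 2 7 (Q 13) (Q 13) (P 7))) (T2 2 7 (Q 7) (Q 7) (P 7))) (T0 5 7 (T2 2 7 (T0 7 10 (T2 3 11 (Q 13) (Q 13) (T4 2 11 (N 21) (N 21) (Q 11))) (Q 13) (T3 3 10 (N 35) (O 2) (O 2))) (T0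 7 10 (T4 2 11 (N 27) (N 27) (Q 11)) (Q 13) (T3 3 10 (Q 11) (O 2) (O 2))) (T3 2 7 (T0 7 10 e122 (Q 13) (T2 3 10 (N 35) (N 35) e122)) (T0 7 10 (T4 2 11 (N 27) (N 27) (P 11)) (Q 13) (T2 3 10 (Q 11) (Q 11) (T4 2 11 (Q 13) (Q 13) (P 11)))) (P 7))) (T2 2 7 (T3 3 10 (Q 11) (O 2) (O 2)) (T3 3 10 (Q 11) (O 2) (O 2)) (T3 2 7 (T2 3 10 (Q 11) (Q 11) (T3 3 11 (Q 13) (Q 13) (T4 2 11 (Q 13) (P 17) (P 11)))) (T2 3 10 (Q 11) (Q 11) (T4 2 11 (Q 13) (P 17) (P 11))) (P 7))) (T2 2 7 (T3 2 7 (T2 3 11 (Q 11) (Q 11) (T3 3 11 (Q 11) (Q 11) (Q 11))) (O 2) (O 2)) (T3 2 7 (T3 3 11 (Q 11) (Q 11) (Q 11)) (Q 11) (O 2)) (P 7)))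
def e124 : C := T3 1 5 (N 15) (Q 9) (T4 1 5 (N 15) (Q 9) (P 5))
def e125 : C := T3 1 5 (Q 9) (Q 9) (T4 1 5 (Q 9) (Q 9) (P 5))
def e126 : C := T4 2 17 (N 17) (Q 19) (T3 3 19 (N 31) (N 31) (Q 19))
def e127 : C := T4 1 11 (N 11) (Q 13) (T3 2 13 (N 19) (N 19) (Q 13))
def e128 : C := T2 5 24 (T3 4 25 (N 37) (N 37) (Q 25)) (Q 39) (Q 39)
def e129 : C := T3 1 7 (T4 1 7 (N 7) (O 3) (O 3)) (T4 1 7 (T4 1 8 (T4 1 9 (N 27) (Q 29) (Q 9)) (Q 9) (T2 2 9 (N 13) (N 13) (Q 9))) (Q 15) (O 3)) (T4 1 7 (T4 1 8 (T2 2 9 (T4 1 9 (N 9) (N 17) (T3 2 13 (N 13) (N 31) (T2 3 14 (N 23) (N 23) e126))) (T4 1 9 (N 17) (N 17) (T3 2 13 (N 13) (N 31) e126)) (T4 1 9 (T4 1 10 e127 (T3 2 13 (N 19) (N 19) (Q 13)) (T2 3 13 (N 17)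 (N 17) (T3 2 13 (T2 4 17 (N 17) (N 25) (T4 2 19 (N 19) (Q 21) (T3 3 20 (Q 21) (Q 21) (T2 5 21 (N 25) (N 25) (Q 21))))) (T2 4 17 (N 17) (N 25) (T4 2 19 (N 19) (Q 21) (T2 5 21 (N 25) (N 25) (Q 21)))) (Q 13)))) (T2 3 13 (N 17) (N 17) (T3 2 13 (T2 4 17 (N 17) (N 25) (T3 3 20 (Q 21) (Q 21) (Q 47))) (Q 47) (Q 13))) (Q 9))) (T2 2 9 (T3 2 13 (N 13) (N 31) (T2 3 14 (N 23) (N 23) (Q 33))) (Q 33) (Q 9)) (T2 2 9 (T3 2 13 (N 13) (T2 3 14 (T4 2 15 (N 37) (N 37) (Q 15)) (Q 33) (Q 33)) (T2 3 14 (T4 2 15 (T2 4 19 (T3 3 19 (N 19) (N 37) (T4 3 23 (N 23) (T2 5 24 (Q 25) (Q 25) (Q 39)) e128)) (T3 3 19 (N 37) (N 37) (T4 3 23 (N 23) (Q 39) (Q 39))) (T3 3 19 (N 37) (N 37) (Q 19))) (T2 4 19 (T3 3 19 (N 19) (N 37)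 e128) (Q 39) (Q 39)) (Q 15)) (Q 33) (T4 2 15 (Q 33) (Q 33) (Q 15)))) (T3 2 13 (N 13) (Q 33) (T4 2 15 (Q 33) (Q 23) (Q 15))) (Q 9))) (Q 15) (Q 7))
def e130 : C := T3 3 16 (Q 17) (Q 17) (T2 4 17 (N 25) (N 25) (Q 17))
def e131 : C := T2 2 9 (T4 1 9 (N 9) (T3 2 11 (T2 3 14 (T3 3 17 (N 17) (N 79) (T2 4 19 (N 33) (N 33) (Q 19))) (Q 19) (Q 19)) (Q 39) (Q 11)) (T3 2 11 (T2 3 14 (T3 3 17 (T4 2 17 (N 17) (T2 4 19 (N 33) (N 33) (Q 19)) (T2 4 19 (T3 4 23 (N 23) (Q 35) (Q 35)) (Q 43) (Q 19))) (T4 2 17 (T2 4 19 (N 33) (N 33) (Q 19)) (Q 35) (Q 35)) (T4 2 17 (T2 4 19 (N 33) (N 33) (Q 19)) (Q 35) (Q 17))) (Q 19) (Q 19)) (T2 3 14 (Q 45) (Q 19) (Q 19)) (Q 11))) (T4 1 9 (T4 1 10 (T3 2 11 (N 49) (N 49) (T4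 1 11 (T4 1 12 (N 35) (N 35) (T3 3 16 (N 21) (N 21) (T3 4 21 (N 21) (N 31) (Q 37)))) (Q 23) (Q 11))) (Q 23) (T3 2 11 (T3 3 17 (N 17) (Q 23) (Q 23)) (Q 23) (Q 11))) (Q 19) (Q 19)) (T4 1 9 (T4 1 10 (T3 2 11 (T4 1 11 (N 11) (T2 3 13 (N 21) (N 21) (Q 13)) (T2 3 13 (T3 3 17 (N 17) (N 39) (Q 23)) (T3 3 17 (N 17) (Q 23) (Q 23)) (Q 13))) (T4 1 11 (T4 1 12 (T4 1 13 (Q 17) (Q 17) (Q 13)) (Q 13) (T2 3 13 (N 21) (N 21) (Q 13))) (Q 23) (Q 23)) (T4 1 11 (T4 1 12 (T2 3 13 (T4 1 13 (N 13) (N 25) (Q 27)) (T4 1 13 (N 25) (N 25) (Q 27)) (T4 1 13 (T4 1 14 (T4 1 15 (N 15) e130 e130) e130 (T3 3 16 (T2 4 17 (N 21) (N 21) (Q 17)) (Q 43) (T2 4 17 (N 25) (N 25) (Q 17)))) (T3 3 16 (T2 4 17 (N 21) (N 21) (Q 17)) (Q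 27) (Q 27)) (Q 13))) (T2 3 13 (Q 27) (Q 27) (Q 13)) (T2 3 13 (T3 3 16 (N 21) (N 21) (Q 27)) (T3 3 16 (N 21) (N 21) (Q 27)) (Q 13))) (Q 23) (Q 11))) (T3 2 11 (T2 3 13 (T3 3 17 (N 17) (N 39) (Q 23)) (Q 31) (Q 13)) (Q 23) (Q 11)) (T3 2 11 (T2 3 13 (T3 3 17 (N 17) (Q 23) (Q 23)) (Q 31) (Q 13)) (T2 3 13 (Q 23) (Q 23) (Q 13)) (Q 11))) (T3 2 11 (Q 19) (Q 19) (Q 11)) (Q 9))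
def e132 : C := T2 1 5 (T3 1 5 (T4 1 5 (N 5) (O 3) (O 3)) (O 2) (O 2)) (T3 1 5 (T4 1 5 (T3 1 6 (T4 1 6 (T3 1 7 (T3 2 15 (N 29) (N 29) (T4 3 19 (N 19) (O 3) (O 3))) (Q 71) (T4 1 7 (T4 2 15 (N 29) (N 29) (T3 3 19 (N 19) (N 49) (T4 3 22 (N 29) (N 29) (T3 4 25 (N 49) (N 49) (T4 4 29 (N 29) (Q 31) (Q 51)))))) (Q 71) (Q 7))) (O 3) (O 3)) (T4 1 6 (T4 1 7 (Q 31) (Q 31) (Q 7)) (Q 7) (O 3)) (T4 1 6 (T4 1 7 (T4 1 8 (T4 1 9 (N 9) (Q 11) (T3 2 11 (T3 3 17 (N 39) (N 39) (T4 2 17 (N 33) (N 33) (Q 17))) (Q 61) (Q 11))) (T3 2 11 (Q 41) (Q 17) (Q 11)) (T3 2 11 (T4 2 15 (T3 3 17 (T3 4 23 (T4 3 23 (N 23) (Q 31) (Q 31)) (Q 41) (Q 41)) (Q 41) (Q 17)) (Q 31) (Q 31)) (Q 17) (Q 11))) (T3 2 11 (Q 31) (Q 17) (Q 11))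 (Q 7)) (Q 7) (Q 6))) (O 3) (O 3)) (T4 1 5 (T4 1 6 (Q 11) (Q 7) (Q 6)) (Q 6) (O 3)) (O 2)) (T3 1 5 (T4 1 5 (T3 1 6 (T4 1 6 e129 (O 3) (O 3)) (T4 1 6 (T4 1 7 (T4 1 8 (T2 2 9 (T4 1 9 (N 9) (N 17) (T2 3 14 (N 23) (N 23) (Q 19))) (Q 19) (T4 1 9 (T4 1 10 (Q 13) (Q 13) (T2 3 13 (N 17) (N 17) (Q 13))) (Q 19) (Q 9))) (T2 2 9 (Q 25) (Q 19) (Q 9)) (T2 2 9 (Q 25) (Q 19) (Q 9))) (Q 15) (Q 7)) (Q 7) (O 3)) (T4 1 6 (T4 1 7 (T4 1 8 e131 (T2 2 9 (T3 2 11 (Q 25) (Q 17) (Q 11)) (Q 19) (Q 9)) (T2 2 9 (T3 2 11 (T2 3 14 (Q 25) (Q 19) (Q 19)) (Q 17) (Q 11)) (T3 2 11 (Q 19) (Q 17) (Q 11)) (Q 9))) (T2 2 9 (Q 15) (Q 15) (Q 9)) (Q 7)) (Q 7) (Q 6))) (O 3) (O 3)) (T4 1 5 (T4 1 6 (T4 1 7 (T4 1 8 (T2 2 9 (T4 1 9 (N 9)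 (Q 11) (Q 11)) (T4 1 9 (T4 1 10 (Q 41) (Q 11) (Q 11)) (Q 11) (Q 11)) (T4 1 9 (T4 1 10 (T4 1 11 (T4 1 12 (T2 3 13 (T4 1 13 (N 13) (Q 27) (Q 27)) (Q 31) (T4 1 13 (T4 1 14 (T4 1 15 (T4 1 16 (T4 1 17 (Q 21) (Q 21) (Q 17)) (Q 17) (T2 4 17 (N 29) (N 29) (Q 17))) (Q 31) (Q 31)) (Q 31) (Q 31)) (Q 27) (Q 13))) (Q 27) (T2 3 13 (Q 27) (Q 27) (Q 13))) (Q 23) (Q 11)) (Q 11) (Q 11)) (Q 11) (Q 9))) (Q 11) (T2 2 9 (Q 11) (Q 11) (Q 9))) (T2 2 9 (Q 11) (Q 11) (Q 9)) (Q 7)) (Q 7) (Q 6)) (Q 6) (O 3)) (P 5))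
def e133 : C := T4 1 13 (T4 1 14 (T4 1 15 (N 15) (Q 17) (Q 17)) (Q 17) (Q 17)) (Q 17) (Q 13)
def e134 : C := T2 4 15 (T2 5 19 (N 19) (Q 23) (Q 23)) (Q 23) (Q 15)
def e135 : C := T2 5 18 (Q 19) (Q 19) (T3 3 19 (N 31) (N 31) (Q 19))
def e136 : C := T2 3 11 (T3 2 13 (Q 21) (Q 20) (Q 13)) (Q 15) (Q 11)
def e137 : C := T3 1 9 (T4 1 9 (N 9) (O 3) (O 3)) (T4 1 9 (T2 3 10 (T4 1 10 (T4 1 11 (N 33) (N 43) (Q 11)) (Q 11) (Q 11)) (Q 37) (T4 1 10 (T4 1 11 (T4 1 12 (T2 4 13 (N 35) (N 35) (T4 1 13 (T4 1 14 (Q 19) (Q 19) (Q 29)) (Q 29) (Q 13))) (T2 4 13 (N 35) (N 35) (Q 13)) (T2 4 13 (Q 37) (Q 37) (Q 13))) (T2 4 13 (Q 37) (Q 23) (Q 13)) (Q 11)) (Q 11) (Q 10))) (Q 11) (O 3)) (T4 1 9 (T2 3 10 (T4 1 10 (T4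 1 11 (T4 1 12 (N 23) (N 23) (T2 5 17 (T3 2 17 (N 17) (N 33) (T4 2 23 (N 23) (Q 35) (Q 35))) (T3 2 17 (N 33) (N 33) (T4 2 23 (N 23) (Q 35) (Q 35))) (T3 2 17 (N 33) (N 33) (Q 17)))) (T2 5 17 (Q 35) (Q 35) (Q 45)) (Q 11)) (Q 11) (Q 11)) (Q 27) (T4 1 10 (T4 1 11 (T4 1 12 (T2 4 13 (T4 1 13 (N 13) (Q 27) (Q 27)) (T4 1 13 (T4 1 14 (N 55) (N 55) (T3 2 17 (N 25) (N 25) (Q 17))) (Q 27) (Q 27)) (T4 1 13 (T4 1 14 (T4 1 15 (N 15) (T2 5 16 (Q 17) (Q 17) (T3 2 17 (T2 6 19 (N 25) (N 25) (Q 19)) (Q 35) (Q 17))) (T2 5 16 (T3 2 17 (N 25) (N 25) (Q 17)) (Q 45) (T3 2 17 (T2 6 19 (N 25) (N 25) (Q 19)) (T2 6 19 (N 25) (N 25) (Q 19)) (Q 17)))) (T2 5 16 (T3 2 17 (N 25) (N 25) (Q 17)) (Q 29) (Q 29)) (T2 5 16 (T3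 2 17 (N 25) (N 25) (Q 17)) (Q 29) (T3 2 17 (Q 29) (Q 29) (Q 17)))) (Q 27) (Q 13))) (T2 4 13 (Q 27) (Q 27) (Q 13)) (T2 4 13 (Q 27) (Q 27) (Q 13))) (T2 4 13 (Q 27) (Q 23) (Q 13)) (Q 11)) (Q 11) (Q 10))) (Q 11) (Q 9))
def e138 : C := T4 1 19 (T4 1 20 (T4 1 21 (N 21) (Q 23) (Q 23)) (Q 23) (Q 23)) (Q 23) (Q 19)
def e139 : C := T3 1 8 (T4 1 8 e137 (O 3) (O 3)) (T4 1 8 (T4 1 9 (T2 3 10 (T4 1 10 (T4 1 11 (T4 1 12 (N 23) (N 23) (Q 25)) (Q 25) (Q 11)) (Q 11) (Q 11)) (Q 17) (T4 1 10 (T4 1 11 (T4 1 12 (T2 4 13 (Q 17) (Q 17) e133) (Q 17) (Q 17)) (Q 17) (Q 11)) (Q 11) (Q 10))) (Q 11) (Q 9)) (Q 9) (O 3)) (T4 1 8 (T4 1 9 (T2 3 10 (T4 1 10 (T4 1 11 (T4 1 12 (T4 1 13 (N 13) (T3 2 15 (T2 5 17 (N 37) (N 37)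 (Q 17)) (Q 53) (Q 15)) (T3 2 15 (T2 5 17 (T3 3 23 (N 23) (Q 39) (Q 39)) (Q 41) (Q 17)) (Q 39) (Q 15))) (Q 25) (Q 25)) (Q 25) (Q 11)) (Q 11) (Q 11)) (T4 1 10 (T4 1 11 (T4 1 12 (T4 1 13 (N 13) (Q 17) (Q 17)) (Q 17) (Q 17)) (Q 17) (Q 11)) (Q 11) (Q 11)) (T4 1 10 (T4 1 11 (T4 1 12 (T2 4 13 (T4 1 13 (N 13) (Q 17) (Q 17)) (T4 1 13 (T4 1 14 (T3 2 15 (T4 1 15 (N 15) (N 29) (Q 17)) (Q 23) (Q 23)) (Q 17) (Q 17)) (Q 17) (Q 17)) (T4 1 13 (T4 1 14 (T3 2 15 (T4 1 15 (N 15) (Q 17) (Q 17)) (T4 1 15 (T2 5 16 (Q 23) (Q 23) (T4 1 16 (T4 1 17 (T4 1 18 (T2 6 19 (Q 23) (Q 23) e138) (Q 23) (Q 23)) (Q 23) (Q 17)) (Q 17) (Q 16))) (Q 17) (Q 17)) (T4 1 15 (T2 5 16 (Q 23) (Q 23) (T4 1 16 (T4 1 17 (T4 1 18 (T2 6 19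 (T4 1 19 (N 19) (Q 23) (Q 23)) (T4 1 19 (T4 1 20 (T4 1 21 (N 21) (N 41) (Q 23)) (Q 23) (Q 23)) (Q 23) (Q 23)) e138) (Q 23) (Q 23)) (Q 23) (Q 17)) (Q 17) (Q 16))) (Q 17) (Q 15))) (Q 17) (Q 17)) (Q 17) (Q 13))) (T2 4 13 (Q 17) (Q 17) (Q 13)) (T2 4 13 (Q 17) (Q 17) (Q 13))) (T2 4 13 (Q 17) (Q 17) (Q 13)) (Q 11)) (Q 11) (Q 10))) (Q 11) (Q 9)) (Q 9) (Q 8))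
def e140 : C := T4 1 25 (T4 1 26 (T4 1 27 (N 27) (Q 29) (Q 29)) (Q 29) (Q 29)) (Q 29) (Q 25)
def e141 : C := T2 2 7 (T3 1 7 (T4 1 7 (N 7) (O 3) (O 3)) (T4 1 7 (T4 1 8 (T4 1 9 (T4 1 10 (T2 3 11 (T4 1 11 (N 11) (Q 23) e134) (Q 15) (Q 15)) (T2 3 11 (Q 43) (Q 15) (Q 11)) (T2 3 11 (T2 4 15 (T2 5 19 (T4 2 19 (N 19) (Q 29) (Q 29)) (Q 23) (Q 23)) (Q 23) (Q 15)) (Q 15) (Q 11))) (T2 3 11 (Q 29) (Q 15) (Q 11)) (Q 9)) (Q 9) (Q 8)) (Q 8) (O 3)) (T4 1 7 (T4 1 8 (T4 1 9 (T4 1 10 (T2 3 11 (T4 1 11 (N 11) (T3 2 13 e134 (T2 4 15 (Q 59) (Q 23) (Q 15)) (Q 13)) (T3 2 13 e134 (Q 33) (Q 13))) (T4 1 11 (T4 1 12 (T3 2 13 (Q 15) (Q 15) (T4 1 13 (T4 1 14 (T4 1 15 (N 29) (N 29) (Q 15)) (Q 15) (Q 15)) (Q 15) (Q 13)))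 (Q 15) (Q 15)) (Q 15) (Q 15)) (T4 1 11 (T4 1 12 (T3 2 13 (T4 1 13 (N 13) (Q 15) (Q 15)) (T4 1 13 (T4 1 14 (T4 1 15 (N 45) (Q 33) (Q 15)) (Q 15) (Q 15)) (Q 15) (Q 15)) (T4 1 13 (T4 1 14 (T4 1 15 (T4 1 16 (T4 1 17 (N 17) e135 e135) (Q 33) (Q 33)) (Q 33) (Q 15)) (Q 15) (Q 15)) (Q 15) (Q 13))) (Q 15) (Q 15)) (Q 15) (Q 11))) (T2 3 11 (Q 21) (Q 15) (Q 11)) e136) e136 (Q 9)) (Q 9) (Q 8)) (Q 8) (P 7))) (T3 1 7 (T4 1 7 (T3 1 8 (T4 1 8 (T3 1 9 (T4 1 9 (N 9) (O 3) (O 3)) (Q 11) (T4 1 9 (T4 1 10 (T4 1 11 (N 31) (N 31) (Q 11)) (Q 11) (Q 11)) (Q 11) (Q 9))) (O 3) (O 3)) (T4 1 8 (Q 25) (Q 9) (O 3)) (T4 1 8 (T4 1 9 (T4 1 10 (T4 1 11 (T4 1 12 (T4 1 13 (N 13) (Q 15) (Q 39)) (Q 25) (Q 25)) (Q 25) (Q 11))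 (Q 11) (Q 11)) (Q 11) (Q 9)) (Q 9) (Q 8))) (O 3) (O 3)) (T4 1 7 (T4 1 8 (Q 15) (Q 9) (Q 8)) (Q 8) (O 3)) (T4 1 7 (T4 1 8 (T4 1 9 (T4 1 10 (T4 1 11 (T4 1 12 (T3 2 13 (T4 1 13 (N 13) (Q 15) (Q 15)) (T4 1 13 (Q 53) (Q 15) (Q 15)) (T4 1 13 (T4 1 14 (T4 1 15 (T4 1 16 (T4 1 17 (N 17) (Q 39) (Q 39)) (Q 33) (Q 33)) (Q 33) (Q 15)) (Q 15) (Q 15)) (Q 15) (Q 13))) (Q 15) (Q 15)) (Q 15) (Q 11)) (Q 11) (Q 11)) (Q 11) (Q 9)) (Q 9) (Q 8)) (Q 8) (P 7))) (T3 1 7 (T4 1 7 e139 (O 3) (O 3)) (T4 1 7 (T4 1 8 (T4 1 9 (T2 3 10 (T4 1 10 (T4 1 11 (T4 1 12 (T4 1 13 (N 13) (Q 15) (Q 15)) (Q 15) (Q 15)) (Q 15) (Q 11)) (Q 11) (Q 11)) (T4 1 10 (T4 1 11 (T4 1 12 (Q 37) (Q 15) (Q 15)) (Q 15) (Q 11)) (Q 11) (Q 11)) (T4 1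 10 (T4 1 11 (T4 1 12 (T2 4 13 (T4 1 13 (N 13) (Q 15) (Q 15)) (Q 23) (T4 1 13 (T4 1 14 (T4 1 15 (T2 5 16 (Q 23) (Q 23) (T4 1 16 (T4 1 17 (T4 1 18 (T2 6 19 (Q 29) (Q 29) (T4 1 19 (T4 1 20 (T4 1 21 (T2 7 22 (Q 29) (Q 29) (T4 1 22 (T4 1 23 (T4 1 24 (T2 8 25 (Q 29) (Q 29) e140) (Q 29) (Q 29)) (Q 29) (Q 23)) (Q 23) (Q 22))) (Q 23) (Q 23)) (Q 23) (Q 23)) (Q 23) (Q 19))) (Q 23) (Q 23)) (Q 23) (Q 17)) (Q 17) (Q 16))) (Q 17) (Q 15)) (Q 15) (Q 15)) (Q 15) (Q 13))) (Q 15) (T2 4 13 (Q 15) (Q 15) (Q 13))) (T2 4 13 (Q 15) (Q 15) (Q 13)) (Q 11)) (Q 11) (Q 10))) (Q 11) (Q 9)) (Q 9) (Q 8)) (Q 8) (O 3)) (P 7))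
def e142 : C := T2 3 10 (Q 11) (Q 11) (T3 2 11 (Q 13) (P 17) (P 11))
def e143 : C := T4 1 21 (T4 1 22 (T4 1 23 (T4 1 24 (T4 1 25 (N 25) (Q 27) (Q 27)) (Q 27) (Q 27)) (Q 27) (Q 23)) (Q 23) (Q 23)) (Q 23) (Q 21)
def e144 : C := T4 1 16 (T4 1 17 (T4 1 18 e138 (Q 19) (Q 19)) (Q 19) (Q 17)) (Q 17) (Q 17)
def e145 : C := T4 1 17 (T2 5 18 (T4 1 18 e138 (Q 19) (Q 19)) (Q 29) (T4 1 18 e138 (Q 19) (Q 18))) (Q 19) (Q 17)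
def e146 : C := T2 3 11 (T3 2 11 (T4 1 11 (N 11) (Q 12) (Q 12)) (T4 1 11 (T4 1 12 (T4 1 13 (T4 1 14 (T2 4 15 (T4 1 15 (N 15) (Q 17) (Q 17)) (Q 23) (Q 23)) (Q 17) (Q 17)) (Q 17) (Q 13)) (Q 13) (Q 12)) (Q 12) (Q 12)) (T4 1 11 (T4 1 12 (T4 1 13 (T4 1 14 (T2 4 15 (T4 1 15 (N 15) (Q 17) (Q 17)) (T4 1 15 (T3 3 16 (Q 23) (Q 23) (T4 1 16 (T4 1 17 (T4 1 18 (T4 1 19 (T4 1 20 (T3 4 21 (Q 27) (Q 27) e143) (Q 23) (Q 23)) (Q 23) (Q 19)) (Q 19) (Q 19)) (Q 19) (Q 17)) (Q 17) (Q 16))) (Q 17) (Q 17)) (T4 1 15 (T3 3 16 e144 (Q 27) (T4 1 16 (T4 1 17 (T4 1 18 (T4 1 19 (T4 1 20 (T3 4 21 (T4 1 21 (N 21) (Q 23) (Q 23)) (T4 1 21 (T4 1 22 (T4 1 23 (T4 1 24 (N 47) (N 47) (Q 27)) (Q 27) (Q 23)) (Q 23) (Q 23)) (Q 23)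 (Q 23)) e143) (Q 23) (Q 23)) (Q 23) (Q 19)) (Q 19) (Q 19)) (Q 19) (Q 17)) (Q 17) (Q 16))) (Q 17) (Q 15))) (Q 17) (Q 17)) (Q 17) (Q 13)) (Q 13) (Q 12)) (Q 12) (Q 11))) (T3 2 11 (T4 1 11 (T4 1 12 (T4 1 13 (T4 1 14 (T4 1 15 (T4 1 16 (T3 3 17 (T4 1 17 (N 17) (Q 19) (Q 19)) (Q 23) (Q 23)) (Q 19) (Q 19)) (Q 19) (Q 15)) (Q 15) (Q 15)) (Q 15) (Q 13)) (Q 13) (Q 12)) (Q 12) (Q 12)) (T4 1 11 (T4 1 12 (Q 23) (Q 13) (Q 12)) (Q 12) (Q 12)) (T4 1 11 (T4 1 12 (T4 1 13 (T4 1 14 (T4 1 15 (T3 3 16 e144 (Q 27) (T4 1 16 (T4 1 17 (T4 1 18 (T4 1 19 (T4 1 20 (T3 4 21 (Q 59) (Q 37) e143) (Q 23) (Q 23)) (Q 23) (Q 19)) (Q 19) (Q 19)) (Q 19) (Q 17)) (Q 17) (Q 16))) (Q 17) (Q 15)) (Q 15) (Q 15)) (Q 15) (Q 13)) (Q 13)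 (Q 12)) (Q 12) (Q 11))) (T3 2 11 (T4 1 11 (T4 1 12 (T4 1 13 (T4 1 14 (T4 1 15 (T4 1 16 (T3 3 17 (T4 1 17 (N 17) (Q 19) (Q 19)) (T4 1 17 (T2 5 18 (Q 23) (Q 23) (Q 29)) (Q 19) (Q 19)) e145) (Q 19) (Q 19)) (Q 19) (Q 15)) (Q 15) (Q 15)) (Q 15) (Q 13)) (Q 13) (Q 12)) (Q 12) (Q 11)) (T4 1 11 (T4 1 12 (T4 1 13 (T4 1 14 (T4 1 15 (T4 1 16 e145 (Q 17) (Q 17)) (Q 17) (Q 15)) (Q 15) (Q 15)) (Q 15) (Q 13)) (Q 13) (Q 12)) (Q 12) (Q 11)) (Q 11))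
def e147 : C := T0 6 7 (T2 2 7 (N 35) (Q 11) (T4 1 7 (T4 1 8 (N 15) (N 15) (T2 3 10 (N 35) (N 35) (T3 2 11 (N 21) (P 17) (P 11)))) (T2 3 10 (Q 11) (Q 11) (T3 2 11 (T0 11 13 (N 27) (N 27) (Q 13)) (P 17) (P 11))) (P 7))) (T2 2 7 (Q 11) (Q 11) (T4 1 7 (T4 1 8 (N 15) (N 15) e142) e142 (P 7))) (T2 2 7 (T4 1 7 (T0 7 8 (N 35) (N 35) (T4 1 8 (T0 8 9 (N 45) (N 55) (T4 1 9 (T4 1 10 e146 (T2 3 11 (Q 12) (Q 12) (Q 11)) (T0 10 11 (N 35) (N 35) e69)) (T0 10 11 (N 35) (N 35) (T2 3 11 (T3 2 11 (Q 12) (Q 12) (P 11)) (P 19) (P 11))) (P 9))) (T0 8 9 (N 45) (N 55) (P 9)) (P 8))) (T0 7 8 (Q 11) (Q 11) (P 8)) (P 7)) (T4 1 7 (T0 7 8 (Q 11) (Q 11) (T4 1 8 (T0 8 9 (N 45) (N 55) (T4 1 9 (T4 1 10 (T3 2 11 (T4 1 11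 (T4 1 12 (T4 1 13 (T4 1 14 (T4 1 15 (T4 1 16 (T3 3 17 (T4 1 17 (N 17) (Q 18) (Q 18)) (Q 29) (T4 1 17 (T4 1 18 (T4 1 19 (T4 1 20 (T4 1 21 (T4 1 22 (T4 1 23 (T4 1 24 e140 (Q 25) (Q 25)) (Q 25) (Q 23)) (Q 23) (Q 23)) (Q 23) (Q 23)) (Q 23) (Q 23)) (Q 23) (Q 19)) (Q 19) (Q 18)) (Q 18) (Q 17))) (Q 18) (Q 18)) (Q 18) (Q 15)) (Q 15) (Q 15)) (Q 15) (Q 13)) (Q 13) (Q 12)) (Q 12) (Q 11)) (T4 1 11 (T4 1 12 (T4 1 13 (T4 1 14 (T4 1 15 (T4 1 16 (T4 1 17 (T4 1 18 (Q 39) (Q 19) (Q 18)) (Q 18) (Q 17)) (Q 17) (Q 17)) (Q 17) (Q 15)) (Q 15) (Q 15)) (Q 15) (Q 13)) (Q 13) (Q 12)) (Q 12) (Q 11)) (Q 11)) (Q 11) (T0 10 11 (N 45) (N 45) (P 11))) (Q 19) (P 9))) (Q 25) (P 8))) (Q 15) (P 7)) (P 7))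
def e148 : C := T4 1 15 (T4 1 16 (Q 31) (Q 17) (Q 16)) (Q 16) (Q 16)
def e149 : C := T4 1 28 (T4 1 29 (N 29) (Q 31) (Q 31)) (Q 31) (Q 31)
def e150 : C := T2 2 7 (T4 1 7 (T0 7 8 (N 49) (N 49) (T4 1 8 (T0 8 9 (N 63) (N 119) (T4 1 9 (T4 1 10 (T2 3 11 (T4 1 11 (T4 1 12 (T4 1 13 (T4 1 14 (T2 4 15 (T4 1 15 (T4 1 16 (T4 1 17 (T4 1 18 (T2 5 19 (T4 1 19 (N 19) (Q 21) (Q 21)) (Q 31) (Q 31)) (Q 21) (Q 21)) (Q 21) (Q 17)) (Q 17) (Q 16)) (Q 16) (Q 16)) e148 (T4 1 15 (T4 1 16 (T4 1 17 (T4 1 18 (T4 1 19 (T4 1 20 (T4 1 21 (T4 1 22 (T4 1 23 (T4 1 24 (T4 1 25 (T2 7 26 (T4 1 26 (T4 1 27 e149 (Q 31) (Q 27)) (Q 27) (Q 27)) (Q 41) (Q 41)) (Q 27) (Q 27)) (Q 27) (Q 27)) (Q 27) (Q 23)) (Q 23) (Q 23)) (Q 23) (Q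 21)) (Q 21) (Q 21)) (Q 21) (Q 19)) (Q 19) (Q 19)) (Q 19) (Q 17)) (Q 17) (Q 16)) (Q 16) (Q 15))) (Q 16) (Q 16)) (Q 16) (Q 13)) (Q 13) (Q 12)) (Q 12) (Q 11)) (T4 1 11 (T4 1 12 (T4 1 13 (T4 1 14 (T4 1 15 (T4 1 16 (T4 1 17 (T4 1 18 (T4 1 19 (T4 1 20 (Q 41) (Q 21) (Q 21)) (Q 21) (Q 19)) (Q 19) (Q 19)) (Q 19) (Q 17)) (Q 17) (Q 16)) (Q 16) (Q 15)) (Q 15) (Q 15)) (Q 15) (Q 13)) (Q 13) (Q 12)) (Q 12) (Q 11)) (Q 11)) (Q 11) (T0 10 11 (Q 11) (P 21) (P 11))) (T0 10 11 (Q 11) (P 21) (P 11)) (P 9))) (Q 17) (P 8))) (T0 7 8 (Q 11) (Q 11) (P 8)) (P 7)) (T4 1 7 (T0 7 8 (Q 11) (Q 11) (T4 1 8 (T0 8 9 (N 199) (N 199) (T4 1 9 (T4 1 10 (Q 11) (P 11) (P 11)) (P 11) (P 9))) (P 11) (P 8))) (P 11) (P 7)) (P 7)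
def e151 : C := T3 1 5 (T4 1 5 (T0 5 6 (T3 1 6 (T4 1 6 (N 6) (O 3) (O 3)) (Q 7) (T4 1 6 (T4 1 7 (Q 11) (Q 11) (Q 7)) (Q 7) (T2 2 7 (T0 9 11 (N 35) (N 35) (T2 3 11 (N 25) (N 25) (T3 2 11 (N 49) (N 49) (P 11)))) (T0 9 11 (N 45) (N 45) (T3 2 11 (N 55) (N 115) (P 11))) (P 7)))) (T3 1 6 (T4 1 6 (Q 7) (O 3) (O 3)) (Q 7) (T4 1 6 (T4 1 7 (Q 11) (Q 11) (Q 7)) (Q 7) (T2 2 7 (Q 17) (Q 17) (P 7)))) (T3 1 6 (T4 1 6 (T0 6 7 (T3 1 7 (N 21) (Q 13) (T4 1 7 (N 21) (Q 13) (Q 7))) e96 e141) (O 3) (O 3)) (T4 1 6 (T0 6 7 (T4 1 7 (N 21) (Q 13) (Q 7)) (Q 13) (T2 2 7 (T4 1 7 (T4 1 8 (T4 1 9 (T4 1 10 (T2 3 11 (T4 1 11 (N 11) (Q 13) (Q 13)) (Q 19) (T4 1 11 (T4 1 12 (T4 1 13 (T4 1 14 (T4 1 15 (T4 1 16 (T4 1 17 (N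 17) (Q 19) (Q 19)) (Q 19) (Q 19)) (Q 19) (Q 15)) (Q 15) (Q 15)) (Q 15) (Q 13)) (Q 13) (Q 13)) (Q 13) (Q 11))) (Q 13) (Q 13)) (Q 13) (Q 9)) (Q 9) (Q 8)) (Q 8) (P 7)) (T4 1 7 (T4 1 8 (T4 1 9 (T4 1 10 (T4 1 11 (T4 1 12 (Q 25) (Q 13) (Q 13)) (Q 13) (Q 11)) (Q 11) (Q 11)) (Q 11) (Q 9)) (Q 9) (Q 8)) (Q 8) (P 7)) (P 7))) (T0 6 7 (Q 7) (P 13) (P 7)) (O 3)) (T4 1 6 e147 (T0 6 7 (T2 2 7 (N 35) (Q 11) (P 7)) (P 13) (P 7)) (P 6)))) (O 3) (O 3)) (T4 1 5 (T0 5 6 (T4 1 6 (T4 1 7 (Q 11) (Q 11) (Q 7)) (Q 7) (T2 2 7 (T0 9 11 (Q 11) (Q 11) (T2 3 11 (Q 11) (Q 11) (P 11))) (T0 9 11 (Q 11) (Q 11) (P 11)) (P 7))) (T4 1 6 (Q 11) (Q 7) (T2 2 7 (Q 17) (P 11) (P 7))) (T4 1 6 (T0 6 7 (Q 11) (Q 11) e150) (T0 6 7 (Q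 11) (P 13) (P 7)) (P 6))) (T0 5 6 (T2 2 7 (Q 16) (P 11) (P 7)) (P 11) (P 6)) (O 3)) (P 5)
def e152 : C := T2 1 4 (T3 1 4 (T4 1 4 (T0 4 5 (T2 1 5 (N 15) (Q 9) e124) (T2 1 5 (Q 9) (Q 9) e125) e132) (O 3) (O 3)) (O 2) (O 2)) (T3 1 4 (T4 1 4 (T0 4 5 e124 e125 (T3 1 5 (T4 1 5 (T3 1 6 (T4 1 6 (T3 1 7 (T4 1 7 (N 7) (O 3) (O 3)) (T4 1 7 (T4 1 8 (Q 29) (Q 9) (Q 9)) (Q 9) (O 3)) (T4 1 7 (T4 1 8 (T4 1 9 (T4 1 10 e127 (Q 21) (Q 21)) (Q 21) (Q 9)) (Q 9) (Q 9)) (Q 9) (Q 7))) (O 3) (O 3)) (T4 1 6 (T4 1 7 (Q 13) (Q 9) (Q 7)) (Q 7) (O 3)) (T4 1 6 (T4 1 7 (T4 1 8 (T4 1 9 (T4 1 10 (T3 2 11 (T4 1 11 (N 11) (Q 13) (Q 13)) (Q 17) (T4 1 11 (T4 1 12 e133 (Q 13) (Q 13)) (Q 13) (Q 11))) (Q 13) (Q 13)) (Q 13) (Q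 9)) (Q 9) (Q 9)) (Q 9) (Q 7)) (Q 7) (Q 6))) (O 3) (O 3)) (T4 1 5 (T4 1 6 (T4 1 7 (T4 1 8 (T4 1 9 e86 (Q 11) (Q 9)) (Q 9) (Q 9)) (Q 9) (Q 7)) (Q 7) (Q 6)) (Q 6) (O 3)) (P 5))) (O 3) (O 3)) (T0 4 5 (T4 1 5 (N 15) (Q 9) (P 5)) (Q 9) (P 5)) (O 2)) (T3 1 4 (T4 1 4 (T0 4 5 (T3 1 5 (T4 1 5 (N 5) (O 3) (O 3)) (T4 1 5 (Q 7) (Q 7) (O 3)) (T4 1 5 (T4 1 6 (T2 2 7 (N 35) (Q 9) (T4 1 7 (T4 1 8 (N 15) (N 15) (T0 7 9 (N 27) (Q 13) (Q 9))) (T0 7 9 (N 27) (Q 13) (Q 9)) (P 7))) (T2 2 7 (N 35) (Q 9) (P 7)) (T2 2 7 (T0 7 9 (T2 3 11 (N 55) (N 95) (Q 11)) (Q 13) (T3 2 9 (N 35) (N 35) (P 9))) (T0 7 9 (Q 11) (Q 11) (T3 2 9 (N 45) (Q 11) (P 9))) (P 7))) (T2 2 7 (T0 7 9 (T2 3 11 (N 99) (Q 13) (P 11)) (Q 13) (T3 2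 9 (Q 11) (Q 11) (P 9))) (P 11) (P 7)) (P 5))) (T3 1 5 (T4 1 5 (Q 7) (O 3) (O 3)) (T4 1 5 (Q 7) (Q 7) (O 3)) (T4 1 5 (T4 1 6 (T2 2 7 (Q 9) (Q 9) (T4 1 7 (Q 9) (Q 9) (P 7))) (T2 2 7 (Q 9) (Q 9) (P 7)) (T2 2 7 (T3 2 9 (Q 11) (Q 11) (P 9)) (Q 19) (P 7))) (T2 2 7 (T3 2 9 (Q 11) (Q 11) (P 9)) (P 11) (P 7)) (P 5))) e151) (O 3) (O 3)) (T0 4 5 (T4 1 5 (T4 1 6 (T2 2 7 (N 35) (Q 9) (T4 1 7 (T4 1 8 (N 15) (N 15) (Q 17)) (Q 17) (P 7))) (T2 2 7 (N 35) (Q 9) (P 7)) (T2 2 7 (T0 7 9 (T2 3 11 (N 55) (N 95) (Q 11)) (P 13) (P 9)) (Q 25) (P 7))) (T2 2 7 (Q 21) (P 11) (P 7)) (P 5)) (Q 9) (P 5)) (P 4))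
def e153 : C := T4 1 6 (T4 1 7 (Q 11) (Q 11) (P 7)) (P 7) (P 7)
def e154 : C := T3 1 6 (T4 1 6 (Q 7) (O 3) (O 3)) (Q 7) e153
def e155 : C := T3 1 6 (T4 1 6 (Q 7) (O 3) (O 3)) (Q 7) (T4 1 7 (Q 11) (Q 11) (P 7))
def e156 : C := T3 1 9 (T4 1 9 (T3 1 10 (T4 1 10 (T3 1 11 (T4 1 11 (N 11) (O 3) (O 3)) (T4 1 11 (T4 1 12 (Q 67) (Q 13) (Q 13)) (Q 13) (O 3)) (T4 1 11 (T4 1 12 (T4 1 13 (T4 1 14 (T4 1 15 (N 29) (N 29) (T3 2 21 (N 41) (N 41) (T4 2 29 (N 29) (Q 31) (T3 3 31 (N 41) (N 41) (Q 31))))) (Q 43) (T3 2 21 (T4 2 27 (T3 3 32 (N 53) (N 53) (Q 43)) (Q 55) (Q 55)) (Q 43) (Q 43))) (Q 55) (Q 13)) (Q 13) (Q 13)) (Q 13) (Q 11))) (O 3) (O 3)) (T4 1 10 (T4 1 11 (Q 31) (Q 13) (Q 11)) (Q 11) (O 3)) (T4 1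 10 (T4 1 11 (T4 1 12 (T4 1 13 (T4 1 14 (T4 1 15 (T4 1 16 (T4 1 17 (N 17) (Q 19) (T3 2 19 (N 47) (N 47) (Q 19))) (Q 49) (T3 2 19 (T3 3 29 (N 29) (Q 49) (Q 49)) (Q 49) (Q 19))) (Q 31) (Q 31)) (Q 31) (Q 31)) (Q 31) (Q 13)) (Q 13) (Q 13)) (Q 13) (Q 11)) (Q 11) (Q 10))) (O 3) (O 3)) (T4 1 9 (T4 1 10 (Q 19) (Q 11) (Q 10)) (Q 10) (O 3)) (T4 1 9 (T4 1 10 (T4 1 11 (T4 1 12 (T4 1 13 (T4 1 14 (T4 1 15 (T4 1 16 (T3 2 17 (T4 1 17 (N 17) (Q 19) (Q 19)) (Q 43) (T4 1 17 (T4 1 18 (T4 1 19 (T4 1 20 (T4 1 21 (T4 1 22 (Q 25) (Q 25) (T3 3 25 (N 41) (N 41) (Q 25))) (Q 43) (Q 43)) (Q 43) (Q 43)) (Q 43) (Q 19)) (Q 19) (Q 19)) (Q 19) (Q 17))) (Q 19) (Q 19)) (Q 19) (Q 19)) (Q 19) (Q 19)) (Q 19) (Q 13)) (Q 13) (Q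 13)) (Q 13) (Q 11)) (Q 11) (Q 10)) (Q 10) (Q 9))
def e157 : C := T3 1 8 (T4 1 8 e156 (O 3) (O 3)) (T4 1 8 (T4 1 9 (T4 1 10 (T4 1 11 (T4 1 12 (T4 1 13 (Q 25) (Q 17) (Q 13)) (Q 13) (Q 13)) (Q 13) (Q 11)) (Q 11) (Q 10)) (Q 10) (Q 9)) (Q 9) (O 3)) (T4 1 8 (T4 1 9 (T4 1 10 (T4 1 11 (T4 1 12 (T4 1 13 (T4 1 14 (T3 2 15 (T4 1 15 (T4 1 16 (T4 1 17 (T4 1 18 (T4 1 19 (T4 1 20 (T4 1 21 (T4 1 22 (T3 3 23 (T4 1 23 (N 23) (Q 25) (Q 25)) (Q 31) (Q 31)) (Q 25) (Q 25)) (Q 25) (Q 25)) (Q 25) (Q 25)) (Q 25) (Q 19)) (Q 19) (Q 19)) (Q 19) (Q 17)) (Q 17) (Q 16)) (Q 16) (Q 16)) e148 (T4 1 15 (T4 1 16 (T4 1 17 (T4 1 18 (T4 1 19 (T4 1 20 (T4 1 21 (T3 3 22 (T4 1 22 (T4 1 23 (T4 1 24 (T4 1 25 (T4 1 26 (T4 1 27 e149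 (Q 31) (Q 31)) (Q 31) (Q 31)) (Q 31) (Q 25)) (Q 25) (Q 25)) (Q 25) (Q 23)) (Q 23) (Q 23)) (Q 37) (T4 1 22 (T4 1 23 (T4 1 24 (T4 1 25 (T4 1 26 (T4 1 27 (T4 1 28 (T3 4 29 (Q 37) (Q 37) (T4 1 29 (T4 1 30 (T4 1 31 (T4 1 32 (T4 1 33 (T4 1 34 (T4 1 35 (N 35) (Q 37) (Q 37)) (Q 37) (Q 37)) (Q 37) (Q 37)) (Q 37) (Q 37)) (Q 37) (Q 31)) (Q 31) (Q 31)) (Q 31) (Q 29))) (Q 31) (Q 31)) (Q 31) (Q 31)) (Q 31) (Q 31)) (Q 31) (Q 25)) (Q 25) (Q 25)) (Q 25) (Q 23)) (Q 23) (Q 22))) (Q 23) (Q 23)) (Q 23) (Q 23)) (Q 23) (Q 19)) (Q 19) (Q 19)) (Q 19) (Q 17)) (Q 17) (Q 16)) (Q 16) (Q 15))) (Q 16) (Q 16)) (Q 16) (Q 13)) (Q 13) (Q 13)) (Q 13) (Q 11)) (Q 11) (Q 10)) (Q 10) (Q 9)) (Q 9) (Q 8))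
def e158 : C := T3 1 6 (T4 1 6 (T0 6 7 (T3 1 7 (N 35) (Q 13) (T4 1 7 (N 35) (Q 13) (P 7))) (T3 1 7 (Q 13) (Q 13) (T4 1 7 (Q 13) (Q 13) (P 7))) (T3 1 7 (T4 1 7 e157 (O 3) (O 3)) (T4 1 7 (T4 1 8 (T4 1 9 (T4 1 10 (T4 1 11 (T4 1 12 (T4 1 13 (T4 1 14 (T4 1 15 (T4 1 16 (T4 1 17 (T4 1 18 (T4 1 19 (T4 1 20 (T4 1 21 (T4 1 22 (T4 1 23 (T4 1 24 (T4 1 25 (T4 1 26 (T4 1 27 (T4 1 28 (T4 1 29 (T4 1 30 (T4 1 31 (T4 1 32 (T4 1 33 (T4 1 34 (T4 1 35 (T4 1 36 (T4 1 37 (T4 1 38 (T4 1 39 (T4 1 40 (T4 1 41 (N 41) (Q 43) (Q 43)) (Q 43) (Q 43)) (Q 43) (Q 43)) (Q 43) (Q 43)) (Q 43) (Q 37)) (Q 37) (Q 37)) (Q 37) (Q 37)) (Q 37) (Q 37)) (Q 37) (Q 37)) (Q 37) (Q 37)) (Q 37) (Q 31)) (Q 31) (Q 31)) (Q 31) (Q 29)) (Q 29)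 (Q 29)) (Q 29) (Q 29)) (Q 29) (Q 29)) (Q 29) (Q 25)) (Q 25) (Q 25)) (Q 25) (Q 23)) (Q 23) (Q 22)) (Q 22) (Q 22)) (Q 22) (Q 22)) (Q 22) (Q 19)) (Q 19) (Q 19)) (Q 19) (Q 17)) (Q 17) (Q 16)) (Q 16) (Q 15)) (Q 15) (Q 15)) (Q 15) (Q 13)) (Q 13) (Q 13)) (Q 13) (Q 11)) (Q 11) (Q 10)) (Q 10) (Q 9)) (Q 9) (Q 8)) (Q 8) (O 3)) (P 7))) (O 3) (O 3)) (T0 6 7 (T4 1 7 (N 35) (Q 13) (P 7)) (Q 13) (P 7)) (T0 6 7 (T4 1 7 (T4 1 8 (Q 11) (Q 11) (T3 2 11 (Q 25) (P 17) (P 11))) (T3 2 11 (Q 25) (P 17) (P 11)) (P 7)) (Q 13) (P 7))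
def e159 : C := T0 3 4 (T3 1 4 (T4 1 4 e108 (O 3) (O 3)) (T4 1 5 (Q 7) (Q 7) (P 5)) (T4 1 5 (T4 1 6 (T0 5 7 (T3 2 7 (N 35) (Q 13) (T4 1 7 (T4 1 8 (Q 10) (Q 10) (T0 7 10 (Q 16) (Q 13) (Q 10))) (T0 7 10 (Q 16) (Q 13) (Q 10)) (P 7))) e121 (T3 2 7 (T4 1 7 (Q 11) (Q 11) (P 7)) (T4 1 7 (Q 11) (Q 11) (P 7)) (P 7))) (T0 5 7 (T3 2 7 (N 35) (Q 13) (P 7)) (P 13) (P 7)) (T0 5 7 (T3 2 7 (T0 7 10 (T3 3 11 (Q 13) (Q 13) (T4 2 11 (N 77) (Q 13) (P 11))) (P 13) (P 13)) (Q 25) (P 7)) (P 13) (P 7))) (T0 5 7 (T3 2 7 (T0 7 10 (Q 31) (P 13) (P 13)) (P 11) (P 7)) (P 13) (P 7)) (P 5))) (T3 1 4 (T4 1 4 (Q 7) (O 3) (O 3)) (Q 7) (T3 2 7 (T4 1 7 (Q 11) (Q 11) (P 7)) (Q 11) (P 7))) (T3 1 4 (T4 1 4 (T0 4 5 (T3 1 5 (T4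 1 5 (N 5) (O 3) (O 3)) (Q 7) (T4 1 5 (T4 1 6 (T4 1 7 (T4 1 8 (Q 9) (Q 9) (T0 7 9 (Q 13) (Q 13) (Q 9))) (T0 7 9 (Q 13) (Q 13) (Q 9)) (P 7)) (P 7) (P 7)) (P 7) (P 5))) (T3 1 5 (T4 1 5 (Q 7) (O 3) (O 3)) (Q 7) (T4 1 7 (Q 9) (Q 9) (P 7))) (T3 1 5 (T4 1 5 (T0 5 6 e154 e155 e158) (O 3) (O 3)) (T0 5 6 (T4 1 7 (Q 11) (Q 11) (P 7)) (Q 11) (T0 6 7 (Q 11) (Q 11) (P 7))) (P 5))) (O 3) (O 3)) (T0 4 5 (T4 1 7 (Q 13) (Q 13) (P 7)) (Q 9) (P 5)) (P 4))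
def e160 : C := T0 2 3 (T2 1 3 e1 (T3 1 3 (T4 1 3 (T3 1 4 (T4 1 4 (Q 5) (O 3) (O 3)) (T4 1 4 (Q 5) (Q 5) (O 3)) (T4 1 4 (T0 3 5 (Q 7) (Q 7) (T4 1 5 (Q 7) (Q 7) (P 5))) (T0 3 5 (Q 7) (Q 7) (P 5)) (P 4))) (O 3) (O 3)) (T4 1 4 (Q 7) (Q 7) (P 4)) (O 2)) (T3 1 3 (T4 1 3 e119 (O 3) (O 3)) (T4 1 4 e120 (T2 2 5 (T0 4 7 (T2 3 8 (Q 13) (Q 13) (T0 7 13 (T2 5 13 (Q 17) (Q 17) (P 13)) (P 17) (P 13))) (P 9) (P 7)) (P 13) (P 5)) (P 4)) (P 3))) (T2 1 3 (T3 1 3 (T4 1 3 (T2 1 4 (T3 1 4 (Q 5) (O 2) (O 2)) (Q 5) (T3 1 4 (T4 1 4 (Q 5) (O 3) (O 3)) (Q 5) (T4 1 4 (T4 1 5 (Q 7) (Q 7) (P 5)) (P 5) (P 4)))) (O 3) (O 3)) (O 2) (O 2)) (T3 1 3 e4 (Q 7) (O 2)) (T3 1 3 (T4 1 3 (T3 1 4 (T4 1 4 (T2 2 5 e109 (Q 11) (T3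 1 5 (T4 1 5 (T3 1 6 (T4 1 6 (Q 7) (O 3) (O 3)) (Q 7) e110) (O 3) (O 3)) (T4 1 5 (T4 1 6 (Q 11) (Q 7) (Q 7)) (P 11) (O 3)) (P 5))) (O 3) (O 3)) (T2 2 5 (T4 1 5 (Q 11) (Q 11) (P 5)) (Q 11) (P 5)) (T2 2 5 (T4 1 5 (T4 1 6 (T3 2 7 (Q 8) (Q 8) (T4 1 7 (T2 3 8 (Q 17) (Q 11) (Q 11)) (T2 3 8 (Q 17) (P 11) (P 8)) (P 7))) (T3 2 7 (Q 8) (Q 8) (P 7)) (T3 2 7 (T2 3 8 (T2 4 11 (T3 3 11 (N 55) (Q 17) (Q 11)) (Q 17) (T3 3 11 (Q 11) (Q 11) (P 11))) (Q 35) (P 8)) (T2 3 8 (T2 4 11 (Q 11) (P 25) (P 11)) (P 11) (P 8)) (P 7))) (T3 2 7 (T2 3 8 (T2 4 11 (Q 41) (P 17) (P 11)) (P 11) (P 8)) (P 11) (P 7)) (P 5)) (T4 1 6 (T3 2 7 (Q 8) (Q 8) (Q 11)) (P 8) (P 8)) (P 5))) (O 3) (O 3)) (T2 2 5 (T4 1 7 (T2 3 8 (Q 17) (Q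 11) (Q 11)) (Q 17) (P 7)) (Q 11) (P 5)) (P 3))) (T2 1 3 (T3 1 3 (T4 1 3 (T0 3 4 (T2 1 4 e37 e47 (T3 1 4 (T4 1 4 e108 (O 3) (O 3)) (T4 1 4 (T4 1 5 (Q 7) (Q 7) (P 5)) (P 5) (O 3)) (T4 1 4 (T4 1 5 e123 (T0 5 7 (T2 2 7 (T0 7 10 (T2 3 11 (Q 13) (Q 13) (Q 11)) (Q 13) (T3 3 10 (N 49) (O 2) (O 2))) (Q 11) (T3 2 7 (T0 7 10 (T3 3 11 (Q 13) (Q 13) (P 11)) (Q 13) (T2 3 10 (N 49) (N 49) (T3 3 11 (Q 13) (Q 13) (P 11)))) (P 11) (P 7))) (T2 2 7 (Q 17) (Q 11) (T3 2 7 (Q 17) (P 11) (P 7))) (T2 2 7 (T3 2 7 (T2 3 11 (Q 11) (Q 11) (Q 11)) (O 2) (O 2)) (T3 2 7 (Q 11) (P 11) (O 2)) (P 7))) (P 5)) (P 5) (P 4)))) (T2 1 4 (T3 1 4 (T4 1 4 (Q 5) (O 3) (O 3)) (O 2) (O 2)) e47 (T3 1 4 (T4 1 4 e108 (O 3) (O 3)) (T4 1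 5 (Q 7) (Q 7) (P 5)) (T4 1 5 (T4 1 6 (T2 2 7 (T4 1 7 (N 21) (Q 11) (Q 7)) (Q 11) (T3 2 7 (T4 1 7 (N 21) (Q 11) (P 7)) (Q 11) (P 7))) (T2 2 7 (Q 7) (Q 7) (P 7)) (T2 2 7 (T3 2 7 (Q 19) (O 2) (O 2)) (Q 19) (P 7))) (T2 2 7 (T3 2 7 (Q 19) (O 2) (O 2)) (P 11) (P 7)) (P 5)))) e152) (O 3) (O 3)) (O 2) (O 2)) (T3 1 3 (T4 1 3 e159 (O 3) (O 3)) (T0 3 4 (T0 5 7 (T4 1 7 (Q 19) (Q 16) (P 7)) (Q 10) (P 7)) (P 7) (P 4)) (O 2)) (P 3))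
def e161 : C := T3 1 3 (T4 1 3 (T3 1 4 (T4 1 4 (T0 3 5 (T3 1 5 (T4 1 5 (N 5) (O 3) (O 3)) (Q 11) (T4 1 5 (T4 1 6 (Q 7) (Q 7) (T0 4 7 (T0 5 9 (Q 11) (Q 11) (Q 9)) (Q 9) (P 7))) (Q 11) (P 5))) (Q 7) (T3 1 5 (T4 1 5 e154 (O 3) (O 3)) e153 (P 5))) (O 3) (O 3)) (T0 3 5 (T4 1 5 (T4 1 6 (Q 7) (Q 7) (Q 13)) (Q 11) (P 5)) (Q 7) (P 5)) (T0 3 5 (T4 1 5 (T4 1 6 (T0 4 7 (T3 2 7 (T4 1 7 (N 7) (Q 9) (T0 5 9 (Q 11) (Q 11) (P 9))) (Q 11) (T4 1 7 (T4 1 8 (T0 5 9 (Q 13) (Q 11) (Q 11)) (Q 17) (T0 5 9 (T0 6 11 e112 (Q 13) (P 11)) (P 11) (P 9))) (T0 5 9 (T0 6 11 (Q 23) (P 15) (P 11)) (P 11) (P 9)) (P 7))) (T3 2 7 (Q 9) (Q 9) (Q 11)) (T3 2 7 (Q 9) (Q 9) (P 7))) (T0 4 7 (T3 2 7 (Q 13) (Q 11) (P 7)) (P 9) (P 7))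 (T0 4 7 (T3 2 7 (T0 5 9 (T0 6 11 (T3 3 11 (T4 2 11 (N 11) (Q 13) (T0 7 13 (Q 23) (P 17) (P 13))) (Q 19) (T4 2 11 (Q 19) (Q 17) (P 11))) (P 13) (P 13)) (P 13) (P 9)) (T0 6 11 (T4 2 11 (Q 19) (Q 17) (P 11)) (P 13) (P 11)) (P 7)) (P 9) (P 7))) (T3 2 7 (T0 6 11 (T3 3 11 (Q 21) (Q 19) (P 11)) (P 13) (P 11)) (P 11) (P 7)) (P 5)) (T3 2 7 (Q 9) (Q 9) (P 7)) (P 5))) (O 3) (O 3)) (T0 3 5 (T0 4 7 (T4 1 7 (T4 1 8 (Q 13) (Q 13) (Q 25)) (Q 23) (P 7)) (Q 11) (P 7)) (P 7) (P 5)) (P 3)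
def e162 : C := T1 1 2 (T2 1 2 (T3 1 2 (T4 1 2 (T0 2 3 (T1 1 3 e0 (T2 1 3 e1 e6 (O 1)) (T2 1 3 e1 (T3 1 3 (T4 1 3 (T3 1 4 (T4 1 4 (N 4) (O 3) (O 3)) (T4 1 4 (Q 5) (Q 5) (O 3)) e7) (O 3) (O 3)) (T4 1 3 e7 (P 4) (O 3)) (O 2)) (T3 1 3 (T4 1 3 (T3 1 4 (T4 1 4 (N 4) (O 3) (O 3)) (T4 1 4 (T0 3 5 (T1 2 5 (N 10) (Q 9) (T2 2 5 (N 10) (Q 9) (T4 1 5 (N 10) (T0 4 7 (N 14) (Q 9) (Q 7)) (P 5)))) (T1 2 5 (Q 9) (Q 9) e8) e9) (T0 3 5 (T1 2 5 (N 10) (Q 9) (T2 2 5 (N 10) (Q 9) (P 5))) (T1 2 5 (Q 9) (Q 9) (T2 2 5 (Q 9) (Q 9) (P 5))) (T1 2 5 (Q 5) (Q 5) (P 5))) (O 3)) e21) (O 3) (O 3)) (T4 1 3 e29 (P 4) (O 3)) (P 3)))) (T1 1 3 (T2 1 3 e1 (O 1) (O 1)) (T2 1 3 (T3 1 3 (T4 1 3 (Q 4) (O 3) (O 3)) (O 2) (O 2)) e6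 (O 1)) (T2 1 3 (T3 1 3 (T4 1 3 (T2 1 4 (T3 1 4 (N 4) (O 2) (O 2)) (Q 5) e31) (O 3) (O 3)) (O 2) (O 2)) (T3 1 3 (T4 1 3 e31 (O 3) (O 3)) e30 (O 2)) e34)) e107) (O 3) (O 3)) (O 2) (O 2)) (O 1) (O 1)) (T2 1 2 (T3 1 2 (T4 1 2 e160 (O 3) (O 3)) (O 2) (O 2)) (T0 2 3 e161 (T3 1 4 (T4 1 4 (T3 1 5 (T4 1 5 e155 (O 3) (O 3)) (Q 11) (P 5)) (O 3) (O 3)) (P 5) (P 5)) (P 3)) (O 1)) (P 2)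
def eroot : C := T0 1 2 (T1 1 2 (T2 1 2 (T3 1 2 (T4 1 2 (N 2) (O 3) (O 3)) (O 2) (O 2)) (O 1) (O 1)) (O 0) (O 0)) e5 e162

theorem ok52 : chk 2 1518 eroot
    [Iv.I 0 1 1 1, Iv.I 0 1 1 1, Iv.I 0 1 1 1, Iv.I 0 1 1 1, Iv.I 0 1 1 1] = true := by
  decide +kernel

end G5.Bb.Cert
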