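import Pool.Agent.G5.Chk

set_option autoImplicit false

/-!
# The certificate for `(n, l, K) = (4, 1, 1518)`
-/

namespace G5.Bb.Cert

open C

def f0 : C := T2 2 9 (T2 5 23 (Q 61) (O 1) (O 1)) (O 1) (O 1)
def f1 : C := T3 2 9 (T3 5 23 (Q 61) (O 2) (O 2)) (O 2) (O 2)
def f2 : C := T1 2 9 (T1 5 23 (Q 61) (Q 37) (Q 37)) (Q 37) f1
def f3 : C := T0 12 37 (Q 41) (Q 41) (T1 9 37 (Q 46) (Q 46) (P 37))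
def f4 : C := T3 6 31 (Q 37) (Q 37) (T1 8 33 (Q 46) (Q 46) (T3 7 36 (Q 37) (Q 37) f3))
def f5 : C := T3 1 5 (T3 1 6 (N 12) (Q 13) (T1 2 9 (T1 5 23 (Q 61) (Q 37) (Q 37)) (Q 37) (T2 2 9 (T2 5 23 (Q 61) (Q 37) (Q 37)) (Q 37) (T0 3 10 (N 20) (Q 17) (T3 2 11 (Q 13) (Q 13) (T0 4 13 (Q 17) (Q 17) (T1 3 13 (T3 3 16 (Q 22) (Q 22) (T2 4 17 (N 195) (O 1) (O 1))) (Q 22) (T2 3 13 (T3 3 16 (Q 22) (Q 22) (T1 4 17 (N 195) (N 195) (T1 5 21 (Q 22) (Q 22) (T3 4 21 (T2 5 22 (Q 49) (Q 49) (Q 22)) (Q 37) (T2 5 22 (T1 6 25 (Q 31) (Q 31) (T3 5 26 (Q 37) (Q 37) (T1 7 29 (Q 46) (Q 46) (T0 10 31 (N 220) (N 220) (T2 7 31 f4 f4 (T3 6 31 (Q 37) (Q 37) (P 31))))))) (T1 6 25 (Q 31) (Q 31) (T3 5 26 (Q 37) (Q 37) (T1 7 29 (Q 31) (Q 31) (T0 10 31 (N 620) (N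 840) (T3 6 31 (Q 37) (Q 37) (P 31)))))) (Q 22)))))) (Q 22) (P 13))))))))) (T1 2 9 (T1 5 23 (Q 61) (Q 37) (Q 37)) (Q 37) (T2 2 9 (T2 5 23 (Q 61) (Q 37) (Q 37)) (Q 37) (T0 3 10 (Q 17) (Q 17) (T0 4 13 (Q 17) (Q 17) (T1 3 13 (T2 4 17 (N 429) (O 1) (O 1)) (Q 22) (T2 3 13 (T1 4 17 (N 429) (N 429) (T1 5 21 (Q 22) (Q 22) (T2 5 22 (T1 6 25 (Q 31) (Q 31) (T1 7 29 (Q 46) (Q 46) (T0 10 31 (N 1364) (Q 41) (T2 7 31 (T1 8 33 (Q 46) (Q 46) f3) (T1 8 33 (Q 46) (Q 46) (T0 12 37 (Q 41) (P 71) (P 71))) (P 31))))) (T1 6 25 (Q 31) (Q 31) (T1 7 29 (Q 31) (Q 31) (T0 10 31 (Q 41) (Q 41) (P 31)))) (Q 22)))) (Q 22) (P 13))))))) (P 5)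
def f6 : C := T3 6 31 (Q 37) (Q 37) (T3 7 36 (Q 37) (Q 37) (T0 12 37 (Q 41) (Q 41) (P 37)))
def f7 : C := T2 2 11 (Q 46) (Q 46) (T3 2 11 (Q 46) (Q 46) (Q 11))
def f8 : C := T2 2 11 (Q 46) (Q 46) (T3 2 11 (Q 46) (Q 46) (P 11))
def f9 : C := T1 2 7 (T1 3 11 (Q 16) (Q 16) f8) f8 (P 7)
def f10 : C := T1 3 11 (Q 16) (Q 16) (T3 2 11 (Q 46) (Q 46) (P 11))
def f11 : C := T2 2 9 (Q 19) (Q 19) (T1 3 10 (Q 25) (O 0) (O 0))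
def f12 : C := T3 2 15 (Q 25) (Q 25) (T2 5 21 (Q 22) (Q 22) (T3 3 22 (Q 25) (Q 25) (Q 22)))
def f13 : C := T3 5 33 (Q 61) (Q 53) (T1 9 34 (Q 61) (Q 53) (Q 34))
def f14 : C := T1 7 26 (Q 49) (Q 41) (T3 4 27 (Q 49) (Q 34) (Q 34))
def f15 : C := T2 7 29 (Q 34) (Q 34) (T2 8 33 (Q 34) (Q 34) (T3 5 33 (Q 34) (Q 34) (T0 11 34 (Q 41) (Q 41) (P 34))))
def f16 : C := T1 7 25 (Q 33) (Q 33) (T2 6 25 (Q 43) (Q 43) (T3 4 25 (Q 33) (Q 33) (P 25)))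
def f17 : C := T2 5 21 (Q 22) (Q 22) (T0 7 22 (Q 29) (Q 29) (P 22))
def f18 : C := T1 3 11 (T2 3 13 (Q 19) (Q 19) (T3 2 13 (T1 4 15 (T1 5 19 (Q 46) (Q 46) (T3 3 20 (N 60) (Q 34) f13)) (Q 34) (T3 3 20 f14 (Q 34) (T2 6 25 (N 429) (N 429) (T1 7 26 (Q 34) (Q 34) f15)))) (T1 4 15 (Q 46) (Q 34) (T2 6 25 (N 825) (N 1254) (T1 7 26 (Q 34) (Q 34) (T2 7 29 (Q 34) (Q 34) (T2 8 33 (Q 34) (Q 34) (T0 11 34 (Q 41) (Q 41) (P 34))))))) (Q 13))) (T2 3 13 (Q 19) (Q 19) (T3 2 13 (T3 3 20 (Q 37) (Q 34) (T2 6 25 (N 975) (N 1404) f15)) (Q 59) (Q 13))) (T0 4 13 (T1 5 18 (Q 33) (Q 33) (T3 3 19 (Q 33) (Q 33) (T0 7 23 (T1 7 25 (Q 37) (Q 37) (T3 4 25 (Q 33) (Q 33) (Q 25))) (Q 33) f16))) (T1 5 18 (Q 33) (Q 33) (T3 3 19 (Q 33) (Q 33) f16)) (T2 3 13 (T3 2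 13 (T3 3 20 (N 273) (N 273) (Q 40)) (Q 40) (T1 5 18 (T3 3 19 (N 234) (N 234) (Q 19)) (T3 3 19 (N 741) (N 975) (Q 19)) (T3 3 19 (T2 5 22 (T2 7 31 (T3 5 32 (Q 46) (Q 46) (Q 32)) (Q 40) (Q 40)) (Q 40) (Q 22)) (T2 5 22 (T2 7 31 (Q 32) (Q 32) (Q 40)) (Q 40) (Q 22)) (Q 19)))) (T3 2 13 (Q 22) (Q 22) (T1 5 18 (Q 22) (Q 22) (T3 3 19 (Q 22) (Q 22) (Q 19)))) (T3 2 13 (T0 5 16 (T0 9 29 (N 364) (N 364) (Q 29)) (Q 29) (T2 4 17 (Q 22) (Q 22) (T1 5 18 (T3 3 20 (Q 22) (Q 22) (T2 5 21 (Q 22) (Q 22) (T0 7 22 (N 396) (N 468) (P 22)))) (T3 3 20 (Q 22) (Q 22) (T2 5 21 (Q 22) (Q 22) (T0 7 22 (N 572) (N 1040) (P 22)))) (T0 6 19 (Q 29) (Q 29) (T3 3 20 f17 f17 f17))))) (T0 5 16 (Q 33) (Q 29) (T2 4 17 (Q 22) (Q 22) (T1 5 18 (T2 5 21 (Q 22) (Q 22) (T0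 7 22 (N 396) (N 864) (P 22))) (T2 5 21 (Q 22) (Q 22) (T0 7 22 (N 968) (N 1436) (P 22))) (T0 6 19 (Q 29) (Q 29) f17)))) (P 13))))
def f19 : C := T2 5 21 (Q 22) (Q 22) (T0 7 22 (Q 29) (P 60) (P 22))
def f20 : C := T0 5 17 (Q 25) (Q 25) (T3 2 17 (Q 37) (Q 37) (Q 17))
def f21 : C := T1 3 10 (T1 5 17 (Q 25) (Q 25) (T3 2 17 (Q 37) (Q 37) (Q 17))) (T3 2 17 (Q 37) (Q 37) (Q 17)) (P 10)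
def f22 : C := T1 7 24 (T2 6 25 (Q 38) (Q 38) (Q 25)) (P 38) (P 38)
def f23 : C := T3 1 8 (T2 2 9 (Q 10) (Q 10) (T3 1 9 (T3 1 10 (Q 13) (Q 13) (Q 10)) (Q 10) (T0 3 10 f20 (T3 2 17 (Q 37) (Q 37) (Q 17)) f21))) (T2 2 9 (Q 10) (Q 10) (T0 3 10 (Q 25) (Q 17) (T1 3 10 (Q 25) (Q 17) (P 10)))) (T2 2 9 (Q 10) (Q 10) (T0 3 10 (T1 4 13 (Q 17) (O 0) (O 0)) (T1 4 13 (Q 17) (O 0) (O 0)) (T1 3 10 (T0 4 13 (Q 17) (Q 17) (T2 3 13 (T1 5 17 (Q 22) (Q 22) (T2 5 22 (T1 8 27 (N 189) (N 462) (T2 7 31 (Q 37) (Q 37) (Q 31))) (Q 31) (Q 31))) (Q 31) (T3 2 15 (T1 5 17 (T3 3 23 (Q 25) (Q 25) (T1 7 24 (Q 25) (Q 25) (T2 6 25 (Q 31) (Q 31) (Q 25)))) (T3 3 23 (Q 25) (Q 25) (T2 6 25 (Q 31) (Q 31) (Q 25))) (T2 4 17 (Q 31) (Q 31) (P 17))) (T1 5 17 (T1 7 24 (Q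 25) (Q 25) (Q 38)) (Q 38) (T2 4 17 (Q 31) (Q 31) (P 17))) (T0 5 16 (T1 5 17 (N 112) (N 112) (Q 17)) (T1 5 17 (N 476) (N 588) (Q 17)) (T1 5 17 (T2 4 17 (Q 22) (Q 22) (T0 6 19 (Q 29) (Q 29) (T2 5 21 (T3 3 22 (Q 31) (Q 31) (Q 22)) (T3 3 22 (Q 31) (Q 31) (Q 22)) (T0 7 22 (T1 7 24 (Q 29) (P 38) (P 38)) (T1 7 24 (Q 29) (P 38) (P 38)) (T3 3 22 f22 f22 (P 22)))))) (T2 4 17 (Q 22) (Q 22) (T0 6 19 (Q 29) (Q 29) (T2 5 21 (Q 31) (P 38) (P 38)))) (T2 4 17 (T3 3 22 (Q 31) (Q 31) (Q 22)) (T3 3 22 (Q 31) (Q 31) (Q 22)) (P 17))))))) (T0 4 13 (Q 17) (Q 17) (T2 3 13 (Q 37) (Q 31) (T3 2 15 (T2 4 17 (Q 31) (Q 31) (P 17)) (T2 4 17 (Q 31) (Q 31) (P 17)) (T0 5 16 (Q 17) (Q 17) (T2 4 17 (T3 3 22 (Q 31) (Q 31) (Q 22)) (Q 47) (P 17)))))) (P 10))))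
def f24 : C := T1 2 7 (T3 1 7 (T3 2 15 (Q 25) (Q 25) (T1 5 18 (Q 22) (Q 22) (T2 5 21 (N 21) (Q 22) (T3 3 22 (T1 7 25 (N 132) (N 132) (Q 25)) (Q 37) (Q 22))))) (Q 22) (T2 2 9 (Q 19) (Q 19) (T0 3 10 (Q 25) (Q 25) f18))) (T3 1 7 f12 (Q 22) (T2 2 9 (Q 19) (Q 19) (T0 3 10 (Q 25) (Q 25) (T0 4 13 (T3 3 19 (Q 33) (Q 33) (T0 7 23 (T3 4 25 (Q 33) (Q 33) (Q 25)) (Q 33) (Q 46))) (Q 46) (T2 3 13 (T3 2 13 (Q 67) (Q 40) (T3 3 19 (T2 5 22 (Q 46) (Q 40) (Q 22)) (Q 32) (Q 19))) (T3 2 13 (Q 22) (Q 22) (T3 3 19 (Q 22) (Q 22) (Q 19))) (T3 2 13 (T0 5 16 (Q 53) (Q 29) (T2 4 17 (Q 22) (Q 22) (T0 6 19 (Q 29) (Q 29) (T3 3 20 f17 f17 f19)))) (T0 5 16 (Q 33) (Q 29) (T2 4 17 (Q 22) (Q 22) (T0 6 19 (Q 29) (Q 29) f19))) (P 13))))))) (T3 1 7 f23 (T2 2 9 (Q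 10) (Q 10) (T0 3 10 (T1 4 13 (Q 17) (O 0) (O 0)) (T1 4 13 (Q 17) (O 0) (O 0)) (T1 3 10 (T0 4 13 (Q 17) (Q 17) (T2 3 13 (T1 5 17 (Q 22) (Q 22) (T2 5 22 (T1 8 27 (N 594) (N 1056) (T2 7 31 (Q 37) (Q 37) (Q 31))) (Q 31) (Q 22))) (Q 22) (T0 5 16 (T1 5 17 (N 272) (N 384) (Q 17)) (Q 29) (T1 5 17 (T2 4 17 (Q 22) (Q 22) (T0 6 19 (Q 29) (Q 29) f17)) (T2 4 17 (Q 22) (Q 22) (T0 6 19 (Q 29) (Q 29) (T2 5 21 (Q 22) (P 38) (P 38)))) (T2 4 17 (Q 22) (Q 22) (P 17)))))) (T0 4 13 (Q 17) (Q 17) (T2 3 13 (Q 37) (Q 22) (T0 5 16 (Q 17) (Q 17) (T2 4 17 (Q 22) (P 64) (P 17))))) (P 10)))) (P 7))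
def f25 : C := T0 4 15 (Q 46) (Q 46) (T1 5 18 (Q 26) (O 0) (O 0))
def f26 : C := T0 13 46 (Q 57) (Q 57) (T3 9 46 (N 644) (N 700) (Q 46))
def f27 : C := T2 4 19 (T2 5 24 (Q 49) (Q 34) (Q 34)) (Q 34) (Q 19)
def f28 : C := T0 5 16 (Q 23) (Q 23) (T3 3 16 (Q 28) (Q 28) (P 16))
def f29 : C := T0 5 16 (T2 5 23 (Q 26) (Q 26) (P 23)) (Q 42) (T3 3 16 (Q 19) (Q 19) (P 16))
def f30 : C := T1 5 18 (Q 34) (Q 34) (T2 4 19 (T2 5 24 (T1 7 25 (Q 40) (Q 40) (Q 25)) (Q 29) (Q 29)) (Q 29) (Q 19))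
def f31 : C := T1 5 18 (Q 19) (Q 19) (T0 6 19 (Q 23) (Q 23) (P 19))
def f32 : C := T0 7 24 (T1 7 26 (Q 38) (Q 38) (T0 9 31 (Q 49) (P 38) (P 38))) (P 38) (P 38)
def f33 : C := T1 7 26 (Q 31) (Q 31) (T3 5 26 (Q 27) (Q 27) (P 26))
def f34 : C := T1 3 11 (T3 2 11 (Q 17) (Q 17) (T2 3 13 (Q 31) (Q 31) (T1 4 15 (T3 3 16 (Q 17) (Q 17) (T0 5 17 (T1 5 19 (Q 21) (Q 21) (T3 4 21 (Q 38) (Q 38) (Q 21))) (T1 5 19 (Q 21) (Q 21) (Q 38)) (T2 4 17 (Q 27) (Q 27) (P 17)))) (T3 3 16 (Q 17) (Q 17) (T0 5 17 (T3 4 21 (Q 38) (Q 38) (Q 21)) (Q 38) (T2 4 17 (Q 27) (Q 27) (P 17)))) (T3 3 16 (T0 5 17 (Q 45) (Q 45) (Q 17)) (T0 5 17 (Q 45) (Q 38) (Q 17)) (T0 5 17 (T2 4 17 (Q 26) (Q 26) (T2 5 21 (T0 7 24 (Q 26) (Q 26) (Q 31)) (T0 7 24 (Q 26) (P 38) (P 38))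 (T3 4 21 f32 f32 (P 21)))) (T2 4 17 (Q 26) (Q 26) (T2 5 21 (Q 31) (P 38) (P 38))) (T2 4 17 f33 f33 (P 17))))))) (T3 2 11 (Q 17) (Q 17) (T2 3 13 (Q 31) (Q 31) (T3 3 16 (T0 5 17 (Q 45) (Q 41) (Q 17)) (Q 59) (T0 5 17 (T2 4 17 (Q 26) (Q 26) (T2 5 21 (Q 26) (Q 26) (T3 4 21 (T0 7 24 (Q 70) (P 38) (P 38)) (T0 7 24 (Q 37) (P 38) (P 38)) (P 21)))) (P 48) (P 48))))) (T3 2 11 (T0 5 17 (T3 3 17 (Q 18) (Q 18) (T1 5 18 (T0 7 24 (Q 45) (Q 45) (T3 5 28 (Q 29) (Q 29) (Q 45))) (Q 29) (P 18))) (T3 3 17 (Q 18) (Q 18) (T1 5 18 (Q 41) (Q 29) (P 18))) (T2 4 17 (Q 18) (Q 18) (T3 3 17 (T1 5 18 (Q 41) (Q 41) (P 18)) (T1 5 18 (Q 41) (Q 29) (P 18)) (P 17)))) (T0 5 17 (T1 5 18 (Q 45) (Q 29) (P 18)) (T1 5 18 (Q 41) (Q 29) (P 18)) (T2 4 17 (Q 18) (Q 18)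 (P 17))) (P 11))
def f35 : C := T1 4 15 (T1 5 19 (Q 28) (P 23) (P 23)) (P 23) (P 23)
def f36 : C := T1 5 19 (T2 5 22 (Q 27) (Q 27) (T1 6 23 (Q 36) (Q 27) (P 23))) (P 23) (P 23)
def f37 : C := T1 5 19 (T1 6 23 (Q 36) (Q 27) (P 23)) (P 23) (P 23)
def f38 : C := T3 2 11 (T0 4 13 (T1 4 15 (T3 3 17 (Q 23) (Q 23) (Q 17)) (T3 3 17 (Q 23) (Q 23) (Q 17)) (Q 30)) (T1 4 15 (T3 3 17 (Q 23) (Q 23) (Q 17)) (Q 23) (Q 30)) (T2 3 13 (T1 4 15 (T3 3 17 (T1 5 19 (Q 31) (Q 31) (Q 19)) (T1 5 19 (Q 31) (P 23) (P 23)) (T1 5 19 (T2 5 22 (T1 6 23 (T1 7 27 (Q 28) (Q 28) (T3 5 28 (Q 31) (Q 31) (Q 28))) (T3 5 28 (Q 31) (Q 31) (Q 28)) (P 23)) (Q 40) (T1 6 23 (Q 40) (Q 31) (P 23))) (P 23) (P 23))) (Q 19) (T3 3 17 (Q 19) (P 23) (P 23))) (T1 4 15 (T3 3 17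 (Q 31) (Q 31) (T1 5 19 (T1 6 23 (Q 40) (Q 31) (P 23)) (P 23) (P 23))) (Q 19) (T3 3 17 (Q 19) (P 23) (P 23))) (P 13))) (T0 4 13 (Q 17) (Q 17) (T2 3 13 f35 f35 (P 13))) (T0 4 13 (T2 3 13 (Q 27) (Q 27) (T1 4 15 (T3 3 16 (Q 17) (Q 17) (T2 4 17 (T1 5 19 (T0 7 23 (Q 27) (Q 27) (T1 6 23 (T1 7 27 (Q 56) (Q 31) (P 27)) (P 27) (P 23))) (P 27) (P 27)) (T1 5 19 (Q 47) (P 27) (P 27)) (P 17))) (T3 3 16 (Q 17) (P 27) (P 27)) (T3 3 16 (T2 4 17 (T0 7 23 (N 1173) (N 1232) (P 23)) (P 30) (P 17)) (P 27) (P 27)))) (T2 3 13 (Q 23) (Q 23) (T1 4 15 (T3 3 16 (Q 17) (Q 17) (T2 4 17 (T1 5 19 (T1 6 23 (Q 36) (P 27) (P 23)) (P 23) (P 23)) (Q 43) (P 17))) (P 23) (P 23))) (T2 3 13 (T1 4 15 (T0 5 16 f36 f36 (T3 3 16 (T0 6 19 (Q 23) (Q 23) (T1 5 19 (T0 7 22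 (N 528) (N 741) (T2 5 22 (T1 6 23 (Q 28) (Q 28) (P 23)) (T1 6 23 (Q 28) (Q 28) (P 23)) (P 22))) (P 23) (P 19))) (T0 6 19 (Q 23) (Q 23) (T1 5 19 (T0 7 22 (N 741) (N 741) (T2 5 22 (T1 6 23 (Q 28) (P 27) (P 23)) (T1 6 23 (Q 28) (P 27) (P 23)) (P 22))) (P 23) (P 19))) (P 16))) (P 23) (P 23)) (T1 4 15 (T0 5 16 f37 f37 (T3 3 16 (T0 6 19 (Q 23) (Q 23) (T1 5 19 (T0 7 22 (N 528) (N 927) (P 22)) (P 23) (P 19))) (T0 6 19 (Q 23) (Q 23) (T1 5 19 (T0 7 22 (N 836) (N 927) (P 22)) (P 23) (P 19))) (P 16))) (P 23) (P 23)) (P 13)))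
def f39 : C := T0 3 10 f34 (T1 3 11 (T3 2 11 (Q 17) (Q 17) (T2 3 13 (Q 27) (Q 27) (T1 4 15 (T3 3 16 (Q 17) (Q 17) (T2 4 17 (Q 27) (Q 27) (P 17))) (T3 3 16 (Q 17) (P 27) (P 27)) (T3 3 16 (Q 17) (P 27) (P 27))))) (T3 2 11 (Q 17) (Q 17) (T2 3 13 (Q 27) (Q 27) (T3 3 16 (Q 17) (P 27) (P 27)))) (T3 2 11 (T2 4 17 (Q 18) (Q 18) (T3 3 17 (T1 5 18 (Q 37) (Q 37) (P 18)) (T1 5 18 (Q 37) (P 47) (P 18)) (P 17))) (T2 4 17 (Q 18) (Q 18) (P 17)) (P 11))) (T1 3 11 f38 (T3 2 11 (T0 4 13 (Q 30) (Q 30) (T2 3 13 (T3 3 17 (Q 19) (P 23) (P 23)) (Q 48) (P 13))) (T0 4 13 (Q 17) (P 23) (P 23)) (T0 4 13 (T2 3 13 (Q 27) (Q 27) (T3 3 16 (T2 4 17 (T0 7 23 (N 1173) (N 1360) (P 23)) (P 30) (P 17)) (P 27) (P 27))) (P 23) (P 23))) (T3 2 11 (T0 4 13 (T2 3 13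 (Q 18) (Q 18) (T2 4 17 (T3 3 17 (Q 18) (Q 18) (T1 5 18 (Q 23) (P 40) (P 18))) (P 30) (P 30))) (T2 3 13 (Q 18) (Q 18) (T2 4 17 (T3 3 17 (Q 18) (P 23) (P 23)) (P 30) (P 30))) (T2 3 13 (T0 5 16 (T3 3 17 (Q 18) (P 23) (P 23)) (T3 3 17 (Q 18) (P 23) (P 23)) (T3 3 17 (T1 5 18 (T0 6 19 (Q 23) (Q 23) (P 19)) (T0 6 19 (Q 23) (Q 23) (P 19)) (P 18)) (P 23) (P 23))) (T0 5 16 (T3 3 17 (Q 18) (P 23) (P 23)) (T3 3 17 (Q 18) (P 23) (P 23)) (P 48)) (P 13))) (T0 4 13 (T2 3 13 (Q 18) (Q 18) (T2 4 17 (T1 5 18 (Q 23) (P 40) (P 18)) (P 30) (P 17))) (P 23) (P 23)) (P 11)))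
def f40 : C := T2 2 9 (T0 3 10 (Q 11) (Q 11) (T1 3 11 (T3 2 11 (T2 3 14 (Q 19) (Q 19) (T1 4 15 (Q 23) (Q 19) (Q 19))) (T2 3 14 (Q 19) (Q 19) (Q 28)) (T0 4 13 (Q 23) (Q 23) (T2 3 14 (T1 4 15 (T3 3 16 (Q 19) (Q 19) (Q 16)) (T3 3 16 (Q 19) (Q 19) (Q 16)) (T0 5 16 (N 275) (N 275) (T3 3 16 f27 (T2 4 19 (Q 49) (Q 34) (Q 19)) (P 16)))) (T1 4 15 (T3 3 16 (Q 19) (Q 19) (Q 16)) (Q 19) (T0 5 16 (N 275) (N 275) (T3 3 16 (Q 19) (Q 19) (P 16)))) (T1 4 15 f28 (T0 5 16 (Q 23) (Q 23) (T3 3 16 (Q 19) (Q 19) (P 16))) f29)))) (T3 2 11 (Q 19) (Q 19) (T0 4 13 (Q 23) (Q 23) (T2 3 14 (T0 5 16 (N 480) (N 630) (T3 3 16 f27 (Q 59) (P 16))) (T0 5 16 (N 480) (N 755) (T3 3 16 (Q 19) (Q 19) (P 16))) f29))) (T3 2 11 (T2 3 14 (T3 3 17 (T1 5 18 (Q 19) (Q 19)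 (T2 4 19 (T3 4 23 (Q 25) (Q 25) (T2 5 24 (Q 25) (Q 25) (Q 29))) (T3 4 23 (Q 25) (Q 25) (Q 29)) (Q 19))) (T1 5 18 (Q 19) (Q 19) (T2 4 19 (Q 40) (Q 29) (Q 19))) f30) (Q 19) (T0 5 16 (Q 23) (Q 23) (T3 3 17 f31 (T1 5 18 (Q 19) (P 29) (P 29)) (T1 5 18 (Q 19) (P 29) (P 29))))) (T2 3 14 f30 (Q 19) (T0 5 16 (Q 23) (Q 23) (T1 5 18 (Q 19) (P 29) (P 29)))) (P 11)))) (T0 3 10 (Q 11) (Q 11) (T1 3 11 (T3 2 11 (T1 4 15 (Q 23) (Q 19) (Q 19)) (Q 23) (T0 4 13 (Q 23) (Q 23) (T1 4 15 f28 (P 23) (P 23)))) (T3 2 11 (Q 19) (Q 19) (Q 23)) (T3 2 11 (T0 5 16 (Q 23) (Q 23) (T3 3 17 f31 (P 23) (P 23))) (Q 23) (P 11)))) f39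
def f41 : C := T3 1 6 (T0 2 7 (T3 1 7 (T3 2 15 (Q 25) (Q 25) (T0 5 18 (Q 22) (Q 22) (T2 5 21 (N 21) (Q 22) (T3 3 22 (T0 7 25 (N 132) (N 132) (Q 25)) (Q 37) (Q 22))))) (Q 22) f11) (T3 1 7 f12 (Q 22) f11) f24) (T0 2 7 f11 f11 (T1 2 7 (T2 2 9 (Q 19) (Q 19) (T0 3 10 (Q 25) (Q 25) (T1 3 11 (T2 3 13 (Q 19) (Q 19) (Q 13)) (T2 3 13 (Q 19) (Q 19) (Q 13)) (T0 4 13 (T1 5 18 (Q 33) (Q 33) (T0 7 23 (T1 7 25 (Q 37) (Q 37) (Q 25)) (Q 33) (T1 7 25 (Q 33) (Q 33) (Q 43)))) (T1 5 18 (Q 33) (Q 33) (T1 7 25 (Q 33) (Q 33) (Q 43))) (T2 3 13 (Q 19) (Q 19) (P 13)))))) (T2 2 9 (Q 19) (Q 19) (T0 3 10 (Q 25) (Q 25) (T0 4 13 (Q 67) (Q 43) (T2 3 13 (Q 19) (Q 19) (P 13))))) (P 7))) (T0 2 7 (T1 2 7 (T0 3 11 f25 (T1 5 18 (Q 26) (O 0) (O 0)) (T1 3 11 (T1 4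 15 (Q 46) (Q 46) (T0 5 18 (Q 26) (Q 26) (T0 7 25 (Q 26) (Q 26) (T1 7 26 (T0 9 32 (Q 61) (Q 57) (T3 7 36 (N 252) (N 308) (T0 11 39 (Q 57) (Q 57) (T1 11 41 f26 f26 (T3 8 41 (Q 53) (Q 53) (Q 41)))))) (T0 9 32 (Q 41) (Q 41) (T3 7 36 (N 252) (N 308) (T0 11 39 (Q 41) (Q 41) (T3 8 41 (Q 53) (Q 53) (Q 41))))) (T3 5 26 (Q 37) (Q 37) (Q 26)))))) (T0 5 18 (Q 26) (Q 26) (T0 7 25 (Q 26) (Q 26) (T3 5 26 (Q 37) (Q 37) (Q 26)))) (T3 2 11 (Q 18) (Q 18) (P 11)))) (O 0) (O 0)) (T1 2 7 (T1 3 11 (T1 4 15 (Q 46) (Q 46) (T1 7 26 (T3 7 36 (N 360) (N 416) (T1 11 41 (Q 53) (Q 53) (T3 8 41 (Q 53) (Q 53) (Q 41)))) (Q 67) (T3 5 26 (Q 37) (Q 37) (Q 26)))) (T3 5 26 (Q 37) (Q 37) (Q 26)) (T3 2 11 (Q 18) (Q 18) (P 11))) (Q 18) (O 0)) (T1 2 7 f40 (T2 2 9 (T0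 3 10 (Q 11) (Q 11) (T3 2 11 (T2 3 14 (T3 3 17 (Q 25) (Q 25) (T2 4 19 (Q 25) (Q 25) (Q 19))) (Q 19) (T0 5 16 (Q 23) (Q 23) (T3 3 17 (T0 6 19 (Q 23) (Q 23) (P 19)) (P 29) (P 29)))) (T2 3 14 (T2 4 19 (Q 25) (Q 25) (Q 19)) (Q 19) (Q 39)) (P 11))) (T0 3 10 (Q 11) (Q 11) (T3 2 11 (T0 5 16 (Q 23) (Q 23) (P 32)) (P 50) (P 11))) (P 18)) (P 7)))
def f42 : C := T0 2 7 (T1 2 7 (T0 3 11 f25 (Q 26) (T1 3 11 (T1 4 15 (Q 46) (Q 46) (T0 5 18 (Q 26) (Q 26) (T0 7 25 (Q 26) (Q 26) (T1 7 26 (T0 9 32 (Q 61) (Q 57) (T0 11 39 (Q 57) (Q 57) (T1 11 41 (T0 13 46 (Q 57) (Q 57) (Q 46)) (Q 71) (Q 41)))) (Q 41) (Q 26))))) (Q 26) (P 11))) (O 0) (O 0)) (T1 2 7 (T1 3 11 (Q 46) (Q 26) (P 11)) (P 11) (O 0)) (T1 2 7 (T2 2 9 (T0 3 10 (Q 11) (Q 11) (T1 3 11 (T0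 4 13 (Q 23) (Q 23) (T2 3 14 (T1 4 15 (Q 16) (Q 16) (T0 5 16 (N 704) (N 854) (P 16))) (T1 4 15 (Q 16) (Q 16) (Q 61)) (T1 4 15 (T0 5 16 (Q 23) (Q 23) (P 16)) (Q 42) (T0 5 16 (T2 5 23 (Q 26) (Q 26) (P 23)) (P 42) (P 16))))) (T0 4 13 (Q 23) (Q 23) (P 26)) (P 11))) (T0 3 10 (Q 11) (Q 11) (T1 3 11 (T0 4 13 (Q 23) (Q 23) (T1 4 15 (T0 5 16 (Q 23) (Q 23) (P 16)) (P 23) (P 23))) (P 37) (P 11))) (T0 3 10 (T1 3 11 (T2 3 13 (Q 31) (Q 31) (T1 4 15 (T0 5 17 (Q 21) (Q 21) (T2 4 17 (Q 27) (Q 27) (P 17))) (T0 5 17 (Q 21) (P 31) (P 31)) (T0 5 17 (T2 4 17 (Q 26) (Q 26) (T2 5 21 (T0 7 24 (Q 26) (P 31) (P 31)) (T0 7 24 (Q 26) (P 31) (P 31)) (P 21))) (P 31) (P 31)))) (T2 3 13 (Q 31) (Q 31) (P 26)) (P 11)) (T1 3 11 (T2 3 13 (Q 27) (Q 27) (T1 4 15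 (T2 4 17 (Q 27) (Q 27) (P 17)) (P 27) (P 27))) (P 27) (P 11)) (T1 3 11 (T0 4 13 (T2 3 13 (Q 27) (Q 27) (T1 4 15 (T2 4 17 (T1 5 19 (T0 7 23 (Q 27) (Q 27) (T1 6 23 (T1 7 27 (Q 56) (P 31) (P 27)) (P 27) (P 23))) (P 27) (P 27)) (Q 47) (P 17)) (P 27) (P 27))) (P 36) (P 36)) (P 27) (P 11)))) (P 11) (P 7))
def f43 : C := T1 5 17 (Q 25) (Q 25) (T3 2 17 (Q 37) (Q 37) (P 17))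
def f44 : C := T1 2 7 (T3 1 7 (T3 2 15 (Q 25) (Q 25) (T1 5 18 (Q 22) (Q 22) (T3 3 22 (T1 7 25 (N 975) (N 1107) (Q 25)) (Q 37) (Q 22)))) (Q 22) (T0 3 10 (Q 25) (Q 25) (T1 3 11 (T3 2 13 (T1 4 15 (T1 5 19 (Q 46) (Q 46) (Q 61)) (Q 34) (T3 3 20 (Q 49) (Q 34) (T1 7 26 (Q 34) (Q 34) (Q 41)))) (T1 4 15 (Q 46) (Q 34) (Q 53)) (Q 13)) (T3 2 13 (T3 3 20 (Q 37) (Q 34) (Q 41)) (Q 41) (Q 13)) (T0 4 13 (T1 5 18 (Q 33) (Q 33) (T3 3 19 (Q 33) (Q 33) (T0 7 23 (T1 7 25 (Q 37) (Q 37) (T3 4 25 (Q 33) (Q 33) (P 25))) (P 33) (P 33)))) (Q 33) (T3 2 13 (T0 5 16 (T0 9 29 (Q 33) (Q 33) (Q 29)) (Q 29) (T1 5 18 (T3 3 20 (Q 22) (Q 22) (Q 41)) (P 29) (P 29))) (P 33) (P 13)))))) (T3 1 7 (Q 25) (Q 22) (T0 3 10 (Q 25) (Q 25) (T0 4 13 (T3 3 19 (Q 33) (Q 33) (P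 57)) (Q 33) (T3 2 13 (T0 5 16 (Q 53) (P 29) (P 29)) (P 33) (P 13))))) (T3 1 7 (T3 1 8 (T3 1 9 (T3 1 10 (Q 13) (Q 13) (Q 10)) (Q 10) (T0 3 10 f20 (Q 37) (T1 3 10 f43 (Q 37) (P 10)))) (T0 3 10 (Q 25) (Q 17) (T1 3 10 (Q 25) (P 17) (P 10))) (T0 3 10 (T1 4 13 (Q 17) (O 0) (O 0)) (Q 17) (T1 3 10 (T0 4 13 (Q 17) (Q 17) (T3 2 15 (T1 5 17 (Q 25) (Q 25) (P 17)) (T1 5 17 (Q 25) (Q 25) (P 17)) (T0 5 16 (T1 5 17 (N 595) (N 707) (P 17)) (Q 45) (T1 5 17 (T0 6 19 (Q 29) (Q 29) (T0 7 22 (Q 73) (Q 73) (T3 3 22 (T1 7 24 (Q 25) (P 38) (P 38)) (T1 7 24 (Q 25) (P 38) (P 38)) (P 22)))) (P 45) (P 17))))) (P 17) (P 10)))) (T0 3 10 (T1 4 13 (Q 17) (O 0) (O 0)) (Q 17) (T1 3 10 (T0 4 13 (Q 17) (Q 17) (T0 5 16 (Q 65) (P 29) (P 29))) (P 17) (P 10))) (P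 7))
def f45 : C := T3 1 6 (T0 2 7 (T3 1 7 (T3 2 15 (Q 25) (Q 25) (T0 5 18 (Q 22) (Q 22) (T3 3 22 (T0 7 25 (N 975) (N 1107) (Q 25)) (Q 37) (Q 22)))) (Q 22) (T1 3 10 (Q 25) (O 0) (O 0))) (T3 1 7 (Q 25) (Q 22) (T1 3 10 (Q 25) (O 0) (O 0))) f44) (T0 2 7 (T1 3 10 (Q 25) (O 0) (O 0)) (Q 25) (T1 2 7 (T0 3 10 (Q 25) (Q 25) (T1 3 11 (Q 13) (P 37) (P 37))) (P 25) (P 7))) (T0 2 7 (T1 2 7 (T0 3 11 f25 (Q 37) (T1 3 11 (T1 4 15 (Q 46) (Q 46) (T0 5 18 (Q 26) (Q 26) (T0 7 25 (Q 26) (Q 26) (T1 7 26 (T0 9 32 (Q 61) (Q 57) (Q 57)) (Q 93) (T3 5 26 (Q 37) (Q 37) (P 26)))))) (Q 37) (T3 2 11 (Q 18) (Q 18) (P 11)))) (O 0) (O 0)) (T1 2 7 (T1 3 11 (T1 4 15 (Q 46) (Q 46) (Q 53)) (Q 37) (T3 2 11 (Q 18) (Q 18) (P 11))) (P 18) (O 0)) (T1 2 7 (T0 3 10 (T1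 3 11 (T3 2 11 (Q 17) (Q 17) (T1 4 15 (T3 3 16 (Q 17) (Q 17) (T0 5 17 (T1 5 19 (Q 21) (Q 21) (T3 4 21 (Q 38) (Q 38) (P 21))) (T1 5 19 (Q 21) (P 65) (P 38)) (P 17))) (T3 3 16 (Q 17) (P 49) (P 49)) (T3 3 16 (Q 45) (P 49) (P 49)))) (T3 2 11 (Q 17) (Q 17) (T3 3 16 (Q 45) (P 49) (P 49))) (T3 2 11 (T0 5 17 (T3 3 17 (Q 18) (Q 18) (T1 5 18 (T0 7 24 (Q 45) (Q 45) (T3 5 28 (Q 29) (P 45) (P 45))) (P 29) (P 18))) (T3 3 17 (Q 18) (P 41) (P 41)) (T3 3 17 (T1 5 18 (Q 41) (Q 41) (P 18)) (P 41) (P 17))) (T0 5 17 (T1 5 18 (Q 45) (P 29) (P 18)) (P 41) (P 17)) (P 11))) (T1 3 11 (Q 17) (P 37) (P 37)) (T1 3 11 (T3 2 11 (T0 4 13 (T1 4 15 (T3 3 17 (Q 23) (Q 23) (P 17)) (T3 3 17 (Q 23) (P 57) (P 17)) (P 30)) (T1 4 15 (T3 3 17 (Q 23) (Q 23) (P 17)) (P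 49) (P 30)) (P 13)) (P 17) (P 17)) (P 30) (P 30))) (P 18) (P 7)))
def f46 : C := T1 1 4 (T2 1 4 (T3 1 4 (T1 1 5 (T1 1 6 (N 12) (Q 13) f0) f0 (T2 1 5 (T2 1 6 (N 12) (Q 13) f2) f2 f5)) (O 2) (O 2)) (O 1) (O 1)) (T2 1 4 (T3 1 4 (T2 1 5 (T2 1 6 (Q 13) (Q 13) f1) f1 (T3 1 5 (T3 1 6 (Q 13) (Q 13) (T2 2 9 (T2 5 23 (Q 61) (Q 37) (Q 37)) (Q 37) (T0 3 10 (Q 17) (Q 17) (T3 2 11 (Q 13) (Q 13) (T0 4 13 (Q 17) (Q 17) (T2 3 13 (T3 3 16 (Q 22) (Q 22) (T3 4 21 (Q 49) (Q 37) (T2 5 22 (T3 5 26 (Q 37) (Q 37) (T0 10 31 (Q 41) (Q 41) (T2 7 31 f6 f6 (T3 6 31 (Q 37) (Q 37) (P 31))))) (Q 53) (Q 22)))) (Q 22) (P 13))))))) (T2 2 9 (T2 5 23 (Q 61) (Q 37) (Q 37)) (Q 37) (T0 3 10 (Q 17) (Q 17) (T0 4 13 (Q 17) (Q 17) (T2 3 13 (Q 41) (Q 22) (P 13))))) (P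 5))) (O 2) (O 2)) (T3 1 5 (T3 1 6 (Q 13) (Q 13) (T0 3 10 (Q 17) (Q 17) (T3 2 11 (Q 13) (P 17) (P 17)))) (Q 17) (P 5)) (O 1)) (T2 1 4 (T3 1 4 (T2 1 5 (T3 1 5 (T2 1 6 (T3 1 6 (N 6) (O 2) (O 2)) (Q 7) (T3 1 6 (T3 1 7 (Q 16) (Q 16) (Q 7)) (Q 7) (T0 2 7 (T0 3 11 (Q 16) (Q 16) f7) f7 f9))) (O 2) (O 2)) (T3 1 5 (T3 1 6 (T3 1 7 (Q 16) (Q 16) (Q 7)) (Q 7) (T0 2 7 (T0 3 11 (Q 16) (Q 16) (T3 2 11 (Q 46) (Q 46) (Q 11))) (T3 2 11 (Q 46) (Q 46) (Q 11)) (T1 2 7 f10 (T3 2 11 (Q 46) (Q 46) (P 11)) (P 7)))) (T0 2 7 (Q 16) (Q 11) (T1 2 7 (Q 16) (P 11) (P 7))) (O 2)) (T3 1 5 f41 f42 (P 5))) (O 2) (O 2)) (T3 1 5 f45 (T0 2 7 (T1 2 7 (T0 3 11 f25 (Q 26) (T1 3 11 (T1 4 15 (Q 46) (Q 46) (T0 5 18 (Q 26) (Q 26) (T0 7 25 (Q 26) (P 61) (P 61)))) (P 26)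 (P 11))) (O 0) (O 0)) (Q 46) (P 21)) (P 5)) (P 4))
def f47 : C := T1 7 24 (T2 6 25 (Q 38) (P 46) (P 25)) (P 31) (P 31)
def f48 : C := T1 2 7 (T3 1 7 (T3 2 15 (Q 25) (Q 25) (T1 5 18 (Q 22) (Q 22) (T2 5 21 (Q 22) (Q 22) (T3 3 22 (T1 7 25 (N 1100) (N 1232) (Q 25)) (Q 37) (P 22))))) (Q 22) (T2 2 9 (Q 19) (Q 19) (T1 3 11 (T2 3 13 (Q 19) (Q 19) (T3 2 13 (T1 4 15 (T1 5 19 (Q 46) (Q 46) (T3 3 20 (Q 34) (Q 34) f13)) (Q 34) (T3 3 20 f14 (Q 34) (Q 34))) (Q 46) (P 13))) (T2 3 13 (Q 19) (Q 19) (T3 2 13 (T3 3 20 (Q 37) (Q 34) (Q 34)) (Q 34) (P 13))) (T2 3 13 (T3 2 13 (T3 3 20 (Q 22) (Q 22) (Q 40)) (Q 40) (T1 5 18 (T3 3 19 (Q 22) (Q 22) (P 19)) (T3 3 19 (Q 22) (Q 22) (P 19)) (T3 3 19 (T2 5 22 (T2 7 31 (T3 5 32 (Q 46) (Q 46) (Q 32)) (P 40)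 (P 40)) (P 40) (P 22)) (T2 5 22 (T2 7 31 (Q 32) (P 40) (P 40)) (P 40) (P 22)) (P 19)))) (P 22) (P 22))))) (T3 1 7 (T3 2 15 (Q 25) (Q 25) (T2 5 21 (Q 22) (Q 22) (T3 3 22 (Q 25) (Q 25) (P 22)))) (Q 22) (T2 2 9 (Q 19) (Q 19) (T2 3 13 (T3 2 13 (Q 67) (P 46) (P 46)) (P 22) (P 22)))) (T3 1 7 (T3 1 8 (T2 2 9 (Q 10) (Q 10) (T3 1 9 (T3 1 10 (Q 13) (Q 13) (Q 10)) (Q 10) f21)) (T2 2 9 (Q 10) (Q 10) (T1 3 10 (Q 25) (Q 17) (P 10))) (T2 2 9 (Q 10) (Q 10) (T1 3 10 (T2 3 13 (T1 5 17 (Q 22) (Q 22) (T2 5 22 (T1 8 27 (Q 31) (Q 31) (T2 7 31 (Q 37) (Q 37) (Q 31))) (Q 31) (Q 31))) (Q 31) (T3 2 15 (T1 5 17 (T3 3 23 (Q 25) (Q 25) (T1 7 24 (Q 25) (P 31) (P 31))) (T3 3 23 (Q 25) (P 31) (P 31)) (T2 4 17 (Q 31) (Q 31) (P 17))) (T1 5 17 (T1 7 24 (Q 25)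 (P 31) (P 31)) (P 31) (P 31)) (T1 5 17 (T2 4 17 (Q 22) (Q 22) (T2 5 21 (T3 3 22 (Q 31) (Q 31) (P 22)) (T3 3 22 (Q 31) (Q 31) (P 22)) (T3 3 22 f47 f47 (P 22)))) (P 31) (P 31)))) (T2 3 13 (Q 37) (Q 31) (T3 2 15 (T2 4 17 (Q 31) (P 64) (P 17)) (P 31) (P 31))) (P 10)))) (T2 2 9 (Q 10) (Q 10) (T1 3 10 (T2 3 13 (T1 5 17 (Q 22) (Q 22) (T2 5 22 (T1 8 27 (Q 31) (Q 31) (T2 7 31 (Q 37) (P 58) (P 31))) (P 31) (P 22))) (P 22) (P 22)) (P 37) (P 10))) (P 7))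
def f49 : C := T2 4 19 (T2 5 24 (Q 49) (P 34) (P 34)) (P 34) (P 19)
def f50 : C := T3 1 5 (T3 1 6 f48 (T1 2 7 (T2 2 9 (Q 19) (Q 19) (T1 3 11 (T2 3 13 (Q 19) (Q 19) (P 13)) (P 19) (P 19))) (P 25) (P 7)) (T1 2 7 (T2 2 9 (T1 3 11 (T3 2 11 (T2 3 14 (Q 19) (Q 19) (T1 4 15 (Q 23) (P 19) (P 19))) (T2 3 14 (Q 19) (Q 19) (P 28)) (T2 3 14 (T1 4 15 (T3 3 16 (Q 19) (Q 19) (P 16)) (T3 3 16 (Q 19) (Q 19) (P 16)) (T3 3 16 f49 (Q 49) (P 16))) (T1 4 15 (T3 3 16 (Q 19) (Q 19) (P 16)) (P 19) (P 19)) (P 28))) (T3 2 11 (Q 19) (Q 19) (T3 3 16 f49 (P 70) (P 16))) (T3 2 11 (T2 3 14 (T3 3 17 (T1 5 18 (Q 19) (Q 19) (T2 4 19 (T3 4 23 (Q 25) (Q 25) (T2 5 24 (Q 25) (P 29) (P 29))) (T3 4 23 (Q 25) (P 29) (P 29)) (P 19))) (Q 40) (T1 5 18 (Q 34) (P 40) (P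 40))) (P 19) (P 19)) (T1 5 18 (Q 34) (P 40) (P 40)) (P 11))) (T1 3 11 (T3 2 11 (T1 4 15 (Q 23) (P 19) (P 19)) (P 28) (P 28)) (P 19) (P 19)) (T1 3 11 (T3 2 11 (T2 3 13 (T1 4 15 (T3 3 17 (T1 5 19 (Q 31) (Q 31) (P 19)) (T1 5 19 (Q 31) (P 23) (P 19)) (T1 5 19 (T2 5 22 (T1 6 23 (T1 7 27 (Q 28) (Q 28) (T3 5 28 (Q 31) (Q 31) (P 28))) (T3 5 28 (Q 31) (P 73) (P 28)) (P 23)) (P 40) (P 40)) (P 23) (P 19))) (P 19) (P 19)) (T1 4 15 (T3 3 17 (Q 31) (P 40) (P 40)) (P 19) (P 19)) (P 13)) (P 28) (P 28)) (P 19) (P 19))) (P 25) (P 7))) (P 16) (P 5)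
def f51 : C := T1 1 4 (T2 1 4 (T3 1 4 (T1 1 5 (T1 1 6 (Q 13) (Q 13) f0) f0 (T2 1 5 (T2 1 6 (Q 13) (Q 13) f2) f2 (T3 1 5 (T3 1 6 (Q 13) (Q 13) (T1 2 9 (T1 5 23 (Q 61) (Q 37) (Q 37)) (Q 37) (T2 2 9 (T2 5 23 (Q 61) (Q 37) (Q 37)) (Q 37) (T3 2 11 (Q 13) (Q 13) (T1 3 13 (T3 3 16 (Q 22) (Q 22) (T2 4 17 (N 650) (O 1) (O 1))) (Q 22) (T2 3 13 (T3 3 16 (Q 22) (Q 22) (T1 4 17 (N 650) (N 650) (T1 5 21 (Q 22) (Q 22) (T3 4 21 (T2 5 22 (Q 49) (Q 49) (P 22)) (Q 37) (T2 5 22 (T1 6 25 (Q 31) (Q 31) (T3 5 26 (Q 37) (Q 37) (T1 7 29 (Q 46) (Q 46) (T2 7 31 (T3 6 31 (Q 37) (Q 37) (T1 8 33 (Q 46) (Q 46) (T3 7 36 (Q 37) (Q 37) (T1 9 37 (Q 46) (Q 46) (P 37))))) (P 58) (P 58))))) (T1 6 25 (Q 31) (Q 31) (T3 5 26 (Q 37) (Q 37) (T1 7 29 (Q 31) (Q 31) (P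 58)))) (P 22)))))) (P 22) (P 13))))))) (T1 2 9 (T1 5 23 (Q 61) (Q 37) (Q 37)) (Q 37) (T2 2 9 (T2 5 23 (Q 61) (Q 37) (Q 37)) (Q 37) (T1 3 13 (T2 4 17 (N 884) (O 1) (O 1)) (Q 22) (T2 3 13 (T1 4 17 (N 884) (N 1079) (T1 5 21 (Q 22) (Q 22) (T2 5 22 (T1 6 25 (Q 31) (P 46) (P 46)) (P 31) (P 22)))) (P 22) (P 13))))) (P 5)))) (O 2) (O 2)) (O 1) (O 1)) (T2 1 4 (T3 1 4 (T2 1 5 (T2 1 6 (Q 13) (Q 13) f1) (Q 61) (T3 1 5 (T3 1 6 (Q 13) (Q 13) (T2 2 9 (T2 5 23 (Q 61) (Q 37) (Q 37)) (Q 37) (T3 2 11 (Q 13) (Q 13) (T2 3 13 (T3 3 16 (Q 22) (Q 22) (T3 4 21 (Q 49) (P 37) (P 37))) (P 22) (P 13))))) (Q 61) (P 5))) (O 2) (O 2)) (Q 13) (O 1)) (T2 1 4 (T3 1 4 (T2 1 5 (T3 1 5 (T2 1 6 (T3 1 6 (Q 7) (O 2) (O 2)) (Q 7) (T3 1 6 (T3 1 7 (Q 16) (Q 16) (Q 7))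 (Q 7) f9)) (O 2) (O 2)) (T3 1 5 (T3 1 6 (T3 1 7 (Q 16) (Q 16) (Q 7)) (Q 7) (T1 2 7 f10 (Q 46) (P 7))) (P 16) (O 2)) f50) (O 2) (O 2)) (T1 2 7 (T3 1 7 (T3 2 15 (Q 25) (Q 25) (T1 5 18 (Q 22) (Q 22) (T3 3 22 (Q 61) (P 37) (P 22)))) (Q 22) (T1 3 11 (T3 2 13 (T1 4 15 (T1 5 19 (Q 46) (Q 46) (Q 61)) (P 49) (P 49)) (Q 46) (P 13)) (P 37) (P 22))) (Q 25) (T3 1 8 (T3 1 9 (T3 1 10 (Q 13) (Q 13) (Q 10)) (Q 10) (T1 3 10 f43 (P 37) (P 10))) (P 25) (P 25))) (P 4))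
def f52 : C := T2 1 5 (T3 1 5 (Q 6) (O 2) (O 2)) (Q 6) (O 1)
def f53 : C := T0 5 13 (Q 21) (Q 21) (T2 2 13 (Q 21) (Q 21) (Q 13))
def f54 : C := T3 1 6 (T0 5 13 (Q 21) (Q 21) (T3 2 13 (Q 21) (Q 21) (Q 13))) (T0 5 13 (Q 21) (Q 21) (Q 13)) (P 6)
def f55 : C := T3 3 22 (Q 33) (Q 33) (T0 11 28 (N 28) (Q 29) (T3 4 29 (Q 38) (Q 38) (Q 29)))
def f56 : C := T3 3 22 (Q 33) (Q 33) (T0 11 28 (Q 29) (Q 29) (T3 4 29 (Q 33) (Q 33) (Q 29)))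
def f57 : C := T2 5 23 (Q 33) (Q 33) (T3 3 23 (Q 33) (Q 33) (Q 23))
def f58 : C := T2 5 23 (Q 29) (Q 29) (T3 4 29 (Q 37) (Q 37) (Q 29))
def f59 : C := T3 1 8 (T3 1 9 (Q 13) (Q 13) (Q 9)) (Q 9) (T1 2 9 (T0 5 13 (N 252) (N 252) (T1 3 14 (T1 4 19 (T1 5 24 (Q 73) (Q 29) (Q 29)) (Q 29) f55) f56 (T3 2 15 (T1 5 23 (Q 33) (Q 33) (T3 3 23 (Q 33) (Q 33) (Q 23))) (T1 5 23 (Q 33) (Q 33) (Q 23)) (T2 4 17 (Q 23) (O 1) (O 1))))) (T0 5 13 (N 364) (N 616) (T3 2 15 (T3 3 23 (Q 33) (Q 33) (Q 23)) (Q 23) (T2 4 17 (Q 23) (O 1) (O 1)))) (T2 2 9 (T0 5 13 (N 252) (N 252) (T2 3 14 (T2 4 19 (T2 5 24 (Q 73) (Q 29) (Q 29)) (Q 29) f55) f56 (T3 2 15 f57 (T2 5 23 (Q 33) (Q 33) (Q 23)) (T1 4 17 (Q 23) (Q 23) (T0 7 18 (Q 29) (Q 29) (T1 5 21 (Q 23) (Q 23) (T3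 3 22 (T0 9 23 (N 396) (N 396) (T2 5 23 (Q 33) (Q 33) (P 23))) (T0 9 23 (N 828) (N 1224) (T2 5 23 (Q 33) (Q 33) (P 23))) (T0 9 23 f58 f58 (T2 5 23 (T1 6 25 (Q 38) (Q 38) (T0 11 28 (Q 29) (Q 29) (T1 7 29 (Q 38) (Q 38) (T3 4 29 (Q 33) (Q 33) (P 29))))) (T1 6 25 (Q 38) (Q 38) (T0 11 28 (Q 29) (Q 29) (T1 7 29 (Q 38) (Q 38) (T3 4 29 (Q 33) (P 51) (P 29))))) (P 23)))))))))) (T0 5 13 (N 364) (N 616) (T3 2 15 (T3 3 23 (Q 33) (Q 33) (Q 23)) (Q 23) (T1 4 17 (Q 23) (Q 23) (T0 7 18 (Q 29) (Q 29) (T1 5 21 (Q 23) (Q 23) (T3 3 22 (T0 9 23 (N 1012) (N 1408) (P 23)) (Q 59) (T0 9 23 (T3 4 29 (Q 37) (Q 37) (Q 29)) (P 59) (P 23)))))))) (P 9)))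
def f60 : C := T2 2 9 (T1 3 14 (Q 43) (Q 19) (T2 3 14 (Q 43) (Q 19) (P 14))) (O 1) (O 1)
def f61 : C := T2 2 9 (T2 3 14 (Q 43) (Q 19) (P 14)) (P 14) (O 1)
def f62 : C := T0 8 21 (T0 11 29 (Q 33) (Q 33) (Q 29)) (Q 29) (Q 21)
def f63 : C := T0 7 18 (Q 19) (Q 19) (T3 3 19 (Q 33) (Q 33) (P 19))
def f64 : C := T3 3 20 (Q 21) (Q 21) (T1 5 21 (Q 34) (Q 34) (P 21))
def f65 : C := T3 3 20 (T1 5 21 (Q 43) (Q 38) (P 21)) (P 34) (P 34)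
def f66 : C := T2 4 19 (T1 5 21 (Q 34) (Q 34) (P 21)) (P 34) (P 34)
def f67 : C := T0 5 13 (T1 3 13 (Q 14) (Q 14) (T3 2 13 (T2 3 14 (Q 21) (Q 21) (P 14)) (T2 3 14 (Q 21) (Q 21) (P 14)) (T2 3 14 (T1 4 17 (Q 19) (Q 19) (T2 4 19 (T3 3 19 (T0 8 21 (N 76) (N 76) (Q 21)) (Q 45) (T0 8 21 (T2 5 24 (Q 25) (Q 25) (T3 4 25 (Q 45) (Q 45) (Q 25))) (T2 5 24 (Q 25) (Q 25) (T3 4 25 (Q 29) (Q 29) (Q 25))) (T1 5 21 (N 546) (N 1482) (P 21)))) (T3 3 19 (Q 29) (Q 29) (T0 8 21 (T3 4 25 (Q 45) (Q 45) (Q 25)) (T3 4 25 (Q 29) (Q 29) (Q 25)) (T1 5 21 (N 546) (Q 34) (P 21)))) (T3 3 19 f62 f62 (P 19)))) (T1 4 17 (Q 19) (Q 19) (T3 3 19 (Q 33) (Q 33) (P 19))) (P 14)))) (T1 3 13 (Q 14) (Q 14) (T3 2 13 (Q 21) (Q 21) (T2 3 14 (T1 4 17 (Q 19) (Q 19) (T2 4 19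 (T3 3 19 (Q 21) (Q 21) (T1 5 21 (N 798) (Q 34) (P 21))) (P 34) (P 34))) (T1 4 17 (Q 19) (P 47) (P 34)) (P 14)))) (T1 3 13 (T3 2 13 (Q 14) (Q 14) (T2 3 14 (T0 7 18 (Q 19) (Q 19) (T2 4 19 (T1 5 22 (T2 5 24 (T2 6 29 (Q 49) (Q 49) (Q 58)) (Q 58) (T1 7 31 (T1 9 40 (Q 63) (Q 49) (T2 9 43 (Q 49) (Q 49) (Q 43))) (T2 9 43 (Q 49) (Q 49) (Q 43)) (Q 31))) (Q 31) (T2 5 24 (T2 6 29 (Q 31) (Q 31) (Q 44)) (Q 44) (T3 4 25 (Q 53) (P 44) (P 44)))) (T1 5 22 (T1 7 31 (Q 43) (Q 43) (Q 31)) (Q 31) (T3 4 25 (Q 53) (P 44) (P 44))) (T3 3 19 (Q 53) (Q 53) (P 19)))) f63 (P 14))) (T3 2 13 (Q 14) (Q 14) (T2 3 14 (T0 7 18 (Q 19) (Q 19) (T2 4 19 (T2 5 24 (T2 6 29 (Q 31) (Q 31) (Q 44)) (Q 44) (T3 4 25 (Q 48) (P 44) (P 44))) (T3 4 25 (Q 48) (P 44) (P 44)) (T3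 3 19 (Q 48) (Q 48) (P 19)))) f63 (P 14))) (T3 2 13 (T2 3 14 (T1 4 17 (Q 48) (Q 43) (T0 7 18 (Q 21) (Q 21) (T2 4 19 f64 (T3 3 20 (Q 21) (P 34) (P 34)) f65))) (T1 4 17 (Q 48) (Q 43) (T0 7 18 (Q 21) (Q 21) f65)) (P 14)) (T2 3 14 (T1 4 17 (Q 48) (Q 43) (T0 7 18 (Q 21) (Q 21) f66)) (T1 4 17 (Q 33) (P 47) (P 34)) (P 14)) (P 13)))
def f68 : C := T3 1 6 (T3 1 7 (T0 3 8 (Q 9) (Q 9) f59) (T0 3 8 (Q 9) (Q 9) (T1 2 9 (T0 5 13 (N 468) (N 720) (T1 3 14 (T1 4 19 (T1 5 24 (Q 73) (Q 29) (Q 29)) (Q 29) (Q 29)) (Q 29) (T2 4 17 (Q 23) (O 1) (O 1)))) (T0 5 13 (N 832) (N 1084) (T2 4 17 (Q 23) (O 1) (O 1))) (T2 2 9 (T0 5 13 (N 468) (N 720) (T2 3 14 (T2 4 19 (T2 5 24 (Q 73) (Q 29) (Q 29)) (Q 29) (Q 29)) (Q 29) (T1 4 17 (Q 23) (Q 23) (T0 7 18 (Q 29)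 (Q 29) (T1 5 21 (Q 23) (Q 23) (T0 9 23 (Q 29) (Q 29) (T2 5 23 (T1 6 25 (Q 38) (Q 38) (T0 11 28 (Q 29) (Q 29) (T1 7 29 (Q 38) (Q 38) (P 29)))) (T1 6 25 (Q 38) (Q 38) (T0 11 28 (Q 29) (P 51) (P 51))) (P 23)))))))) (T0 5 13 (N 832) (N 1084) (T1 4 17 (Q 23) (Q 23) (T0 7 18 (Q 29) (Q 29) (T1 5 21 (Q 23) (Q 23) (T0 9 23 (Q 29) (P 59) (P 23)))))) (P 9)))) (T0 3 8 (T1 2 9 (T0 4 11 (Q 14) (Q 14) (T3 2 13 (Q 14) (Q 14) (T1 3 14 (Q 25) (Q 25) (Q 14)))) (Q 14) (T2 2 9 (T0 4 11 (Q 14) (Q 14) (T3 2 13 (Q 14) (Q 14) (T2 3 14 (Q 25) (Q 25) (P 14)))) (Q 14) (P 9))) (T1 2 9 (T3 2 13 (Q 14) (Q 14) (T1 3 14 (Q 25) (Q 19) (Q 14))) (Q 14) (T2 2 9 (T3 2 13 (Q 14) (Q 14) (T2 3 14 (Q 25) (Q 19) (P 14))) (P 14) (P 9))) (T1 2 9 f60 f61 (T2 2 9 f67 (P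 14) (P 9))))) (T0 3 8 (T1 2 9 (T0 4 11 (Q 14) (Q 14) (T1 3 14 (Q 25) (Q 25) (Q 14))) (Q 14) (T2 2 9 (T0 4 11 (Q 14) (Q 14) (T2 3 14 (Q 25) (Q 25) (P 14))) (Q 14) (P 9))) (T1 2 9 (T1 3 14 (Q 25) (Q 19) (Q 14)) (Q 14) (T2 2 9 (T2 3 14 (Q 25) (P 19) (P 14)) (P 14) (P 9))) (T1 2 9 (T2 2 9 (T1 3 14 (Q 43) (Q 19) (T2 3 14 (Q 43) (P 19) (P 14))) (O 1) (O 1)) (T2 2 9 (T2 3 14 (Q 43) (P 19) (P 14)) (P 14) (O 1)) (T2 2 9 (T0 5 13 (T1 3 13 (Q 14) (Q 14) (T2 3 14 (T1 4 17 (Q 19) (Q 19) (T2 4 19 (T0 8 21 (Q 25) (Q 25) (T1 5 21 (Q 34) (Q 34) (P 21))) (P 43) (P 19))) (P 19) (P 14))) (T1 3 13 (Q 14) (Q 14) (T2 3 14 (T1 4 17 (Q 19) (Q 19) (T2 4 19 (Q 55) (P 34) (P 19))) (P 19) (P 14))) (T1 3 13 (T2 3 14 (T0 7 18 (Q 19) (Q 19) (T2 4 19 (T1 5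 22 (T2 5 24 (T2 6 29 (Q 49) (Q 49) (Q 58)) (Q 58) (T1 7 31 (T1 9 40 (Q 63) (P 49) (P 49)) (P 49) (P 31))) (P 31) (P 31)) (T1 5 22 (T1 7 31 (Q 43) (P 49) (P 31)) (P 31) (P 31)) (P 19))) (P 19) (P 14)) (T2 3 14 (Q 31) (P 19) (P 14)) (P 13))) (P 14) (P 9)))) (P 6)
def f69 : C := T3 1 6 (T3 2 13 (Q 21) (Q 21) (Q 13)) (Q 13) (P 6)
def f70 : C := T3 1 6 (T3 1 7 (T3 1 8 (T3 1 9 (Q 13) (Q 13) (Q 9)) (Q 9) (T1 2 9 (T1 3 14 (T1 4 19 (T1 5 24 (Q 73) (Q 29) (Q 29)) (Q 29) (Q 38)) (Q 38) (T3 2 15 (Q 33) (Q 33) (T2 4 17 (Q 23) (O 1) (O 1)))) (T3 2 15 (Q 33) (Q 23) (Q 23)) (T2 2 9 (T2 3 14 (T2 4 19 (T2 5 24 (Q 73) (Q 29) (Q 29)) (Q 29) (Q 38)) (Q 38) (T3 2 15 (Q 33) (Q 33) (T1 4 17 (Q 23) (Q 23) (T1 5 21 (Q 23) (P 38) (P 38))))) (T3 2 15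 (Q 33) (P 23) (P 23)) (P 9)))) (T1 2 9 (T1 3 14 (T1 4 19 (Q 78) (Q 29) (Q 29)) (Q 29) (Q 43)) (Q 23) (T2 2 9 (T2 3 14 (T2 4 19 (Q 78) (Q 29) (Q 29)) (Q 29) (Q 43)) (P 23) (P 9))) (T1 2 9 f60 f61 (T2 2 9 (T1 3 13 (T3 2 13 (Q 14) (Q 14) (T2 3 14 (T2 4 19 (T1 5 22 (T2 5 24 (T2 6 29 (Q 49) (Q 49) (Q 58)) (Q 58) (Q 63)) (Q 31) (T2 5 24 (T2 6 29 (Q 31) (Q 31) (Q 44)) (P 53) (P 53))) (T1 5 22 (Q 63) (P 53) (P 53)) (T3 3 19 (Q 53) (Q 53) (P 19))) (P 33) (P 14))) (T3 2 13 (Q 14) (Q 14) (T2 3 14 (T2 4 19 (T2 5 24 (T2 6 29 (Q 31) (Q 31) (Q 44)) (P 53) (P 48)) (P 48) (P 48)) (P 33) (P 14))) (T3 2 13 (T2 3 14 (T1 4 17 (Q 48) (Q 43) (T2 4 19 f64 (P 43) (P 43))) (T1 4 17 (Q 48) (P 43) (P 43)) (P 14)) (T2 3 14 (T1 4 17 (Q 48) (Q 43) f66) (P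 33) (P 14)) (P 13))) (P 14) (P 9)))) (T1 2 9 (T2 2 9 (Q 43) (O 1) (O 1)) (Q 43) (T1 3 13 (T2 4 19 (T1 5 22 (T2 5 24 (Q 103) (P 63) (P 63)) (P 31) (P 31)) (P 43) (P 19)) (P 31) (P 13))) (P 6)
def f71 : C := T2 1 6 (T3 1 6 (Q 7) (O 2) (O 2)) (Q 7) (O 1)
def f72 : C := T2 5 29 (T3 4 31 (Q 71) (Q 47) (Q 31)) (Q 41) (T3 4 31 (Q 41) (Q 41) (Q 31))
def f73 : C := T3 3 23 (T3 4 31 (Q 41) (Q 41) (Q 31)) (Q 31) (Q 47)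
def f74 : C := T3 4 29 (Q 37) (Q 37) (T1 6 31 (Q 37) (Q 37) (Q 31))
def f75 : C := T3 2 15 (T1 3 16 (Q 17) (Q 17) (T2 3 17 (T1 4 21 (Q 23) (Q 23) (T2 4 23 (T3 3 23 f72 (Q 31) (T1 5 26 (N 270) (N 270) (T2 5 29 (Q 31) (Q 31) (Q 47)))) f73 (T3 3 23 (T1 6 31 (Q 47) (Q 47) (T3 4 31 (T1 7 36 (N 612) (N 1054) (T3 5 39 (T2 7 40 (Q 41) (Q 41) (T1 8 41 (N 374) (N 374) (Q 41))) (Q 47) (Q 47))) (Q 47) (Q 31))) (Q 47) (Q 23)))) (T1 4 21 (Q 23) (Q 23) (T3 3 23 (T1 6 31 (Q 47) (Q 47) (Q 57)) (Q 47) (Q 23))) (Q 17))) (T1 3 16 (Q 17) (Q 17) (T2 3 17 (T1 4 21 (Q 23) (Q 23) (T2 4 23 (T1 5 26 (N 322) (N 322) (T2 5 29 (Q 31) (Q 31) (Q 47))) (Q 47) (Q 23))) (Q 23) (Q 17))) (T1 3 16 (T2 3 17 (T3 3 22 (Q 23) (Q 23) (T2 4 23 (T1 5 27 (T2 5 29 (Q 71)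 (Q 71) (Q 29)) (Q 65) (T2 5 29 (T2 6 35 (T2 7 41 (T1 8 43 (N 322) (N 322) (Q 43)) (Q 65) (Q 65)) (Q 65) (Q 65)) (Q 65) (T3 4 29 (N 224) (N 224) (Q 29)))) (T1 5 27 (Q 29) (Q 29) (Q 81)) (Q 23))) (Q 23) (Q 17)) (T2 3 17 (T3 3 22 (Q 23) (Q 23) (T2 4 23 (T2 5 29 (T2 6 35 (Q 43) (Q 43) (Q 59)) (Q 59) (Q 59)) (Q 59) (Q 23))) (Q 23) (Q 17)) (T2 3 17 (T1 4 21 (T3 3 22 (T2 4 23 (Q 53) (Q 53) (Q 23)) (Q 59) (T2 4 23 (T2 5 29 (T3 4 29 (Q 53) (Q 53) (T2 6 35 (T3 5 36 (Q 53) (Q 53) (T1 7 37 (T2 7 41 (T3 6 43 (N 222) (N 222) (Q 43)) (Q 59) (Q 59)) (T2 7 41 (T3 6 43 (N 322) (N 322) (Q 43)) (Q 53) (Q 53)) (Q 37))) (Q 59) (Q 59))) (Q 59) (Q 59)) (Q 59) (Q 23))) (T3 3 22 (Q 53) (Q 37) (Q 37)) (T3 3 22 (T2 4 23 (T1 5 26 (Q 53) (Q 47) (T2 5 29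 (T1 6 31 (T2 6 35 (T3 5 37 (Q 47) (Q 47) (Q 37)) (Q 47) (Q 47)) (Q 83) (Q 31)) (Q 47) (T1 6 31 (Q 47) (Q 47) (Q 31)))) (T1 5 26 (Q 53) (Q 47) (T1 6 31 (Q 47) (Q 47) (Q 31))) (Q 23)) (Q 37) (T2 4 23 (T1 5 26 (Q 37) (Q 37) (T0 14 29 (N 350) (N 350) (T2 5 29 f74 f74 (T3 4 29 (Q 37) (Q 37) (P 29))))) (T1 5 26 (Q 37) (Q 37) (Q 52)) (Q 23)))) (Q 23) (Q 17)))
def f76 : C := T2 1 6 (T3 1 6 (T2 1 7 (T2 2 15 (N 30) (Q 31) (T3 3 19 (Q 71) (O 2) (O 2))) (T3 3 19 (Q 71) (O 2) (O 2)) (T3 1 7 (T3 2 15 (N 30) (Q 31) (T2 3 19 (Q 71) (Q 51) (T1 4 21 (N 42) (Q 37) (T3 3 22 (Q 31) (Q 31) (T2 4 25 (Q 51) (Q 51) (T1 5 26 (Q 37) (Q 37) (T3 4 29 (Q 31) (Q 31) (T1 6 31 (Q 37) (Q 37) (T2 5 31 (T3 5 36 (Q 51) (Q 51) (T3 6 43 (Q 51) (Q 51) (T1 9 46 (N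 322) (N 378) (T3 7 50 (Q 51) (Q 51) (T1 10 51 (Q 57) (Q 57) (Q 51)))))) (T3 5 36 (Q 51) (Q 51) (T3 6 43 (Q 51) (Q 51) (T1 9 46 (N 322) (N 378) (Q 87)))) (Q 31)))))))))) (T2 3 19 (Q 71) (Q 51) (T1 4 21 (Q 37) (Q 37) (T2 4 25 (Q 51) (Q 51) (T1 5 26 (Q 37) (Q 37) (T1 6 31 (Q 37) (Q 37) (T2 5 31 (Q 57) (Q 57) (Q 31))))))) (Q 7))) (O 2) (O 2)) (T3 1 6 (T3 1 7 (T3 2 15 (Q 31) (Q 31) (T1 4 21 (Q 37) (Q 37) (T3 3 22 (Q 31) (Q 31) (Q 37)))) (Q 37) (Q 7)) (Q 7) (O 2)) (T3 1 6 (T3 1 7 (T3 1 8 (T3 1 9 (Q 11) (Q 11) (T1 2 11 (T1 3 17 (Q 41) (Q 41) (T3 2 17 (N 110) (N 110) (Q 17))) (T3 2 17 (N 170) (N 280) (Q 17)) (T2 2 11 (T2 3 17 (Q 41) (Q 41) (T3 2 17 (N 110) (N 110) (Q 17))) (T3 2 17 (N 170) (N 280) (Q 17)) (Q 11)))) (T1 2 11 (T1 3 17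 (Q 41) (Q 41) (Q 17)) (Q 17) (T2 2 11 (T2 3 17 (Q 41) (Q 41) (Q 17)) (Q 17) (Q 11))) (T1 2 11 (T2 2 11 (Q 23) (O 1) (O 1)) (T2 2 11 (Q 23) (Q 17) (O 1)) (T2 2 11 f75 (Q 17) (Q 11)))) (T1 2 11 (T2 2 11 (Q 23) (O 1) (O 1)) (T2 2 11 (Q 23) (Q 17) (O 1)) (T2 2 11 (T1 3 16 (T2 3 17 (T2 4 23 (T1 5 27 (T2 5 29 (Q 71) (Q 71) (Q 29)) (Q 65) (T2 5 29 (T2 6 35 (T2 7 41 (T1 8 43 (N 650) (N 650) (Q 43)) (Q 65) (Q 65)) (Q 65) (Q 65)) (Q 65) (Q 29))) (Q 29) (Q 23)) (Q 23) (Q 17)) (T2 3 17 (Q 43) (Q 23) (Q 17)) (T2 3 17 (T1 4 21 (Q 43) (Q 37) (T2 4 23 (T1 5 26 (Q 37) (Q 37) (T0 14 29 (N 580) (N 615) (T2 5 29 (T1 6 31 (Q 37) (Q 37) (Q 31)) (T1 6 31 (Q 37) (Q 37) (Q 31)) (P 29)))) (T1 5 26 (Q 29) (Q 29) (Q 52)) (Q 23))) (Q 23) (Q 17))) (Q 17)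 (Q 11))) (Q 7)) (Q 7) (P 6))
def f77 : C := T2 2 15 (Q 31) (Q 31) (T3 3 19 (Q 71) (O 2) (O 2))
def f78 : C := T3 1 8 (T3 1 9 (Q 29) (Q 29) (Q 9)) (Q 9) (T1 2 9 (Q 15) (Q 15) (Q 9))
def f79 : C := T3 1 11 (Q 13) (Q 13) (T2 2 13 (Q 21) (Q 21) (Q 13))
def f80 : C := T2 3 20 (Q 21) (Q 21) (T1 5 21 (Q 47) (Q 47) (Q 21))
def f81 : C := T2 4 27 (Q 41) (Q 41) (T3 4 31 (Q 41) (Q 41) (Q 55))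
def f82 : C := T1 5 24 (T2 4 25 (Q 39) (Q 39) (Q 25)) (Q 39) (Q 39)
def f83 : C := T3 3 23 (T3 4 31 (Q 33) (Q 33) (Q 39)) (Q 39) (Q 39)
def f84 : C := T1 2 9 (T2 2 13 (T1 3 14 (T3 2 15 (Q 33) (Q 33) (Q 15)) (T3 2 15 (Q 33) (Q 33) (Q 15)) (T3 2 15 (T2 3 20 (T1 5 23 (Q 61) (Q 61) (T3 3 23 f81 (Q 55) (Q 23))) (T1 5 23 (Q 47) (Q 47) (T3 3 23 (Q 87) (Q 47) (Q 23))) (T1 5 23 (Q 47) (Q 47) (T3 3 23 (T3 4 31 (T1 7 32 (Q 33) (Q 33) (T2 5 33 (T3 5 39 (Q 41) (Q 41) (Q 47)) (T3 5 39 (Q 41) (Q 41) (Q 47)) (Q 33))) (Q 47) (Q 47)) (Q 47) (Q 23)))) (T2 3 20 (T1 5 23 (Q 61) (Q 61) (Q 23)) (Q 47) (Q 47)) (Q 15))) (T1 3 14 (T3 2 15 (Q 33) (Q 33) (Q 15)) (Q 33) (T3 2 15 (Q 33) (Q 33) (Q 15))) (T1 3 14 (T3 2 15 (T1 4 19 (T2 3 19 (Q 39) (Q 39) (T3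 3 23 (T1 5 24 (Q 25) (Q 25) (T2 4 25 (Q 39) (Q 39) (Q 25))) (T1 5 24 (Q 25) (Q 25) (Q 39)) f82)) (T2 3 19 (Q 39) (Q 39) (T3 3 23 (T2 4 25 (Q 39) (Q 39) (Q 25)) (Q 39) (Q 39))) (T2 3 19 f83 f83 (Q 19))) (T1 4 19 (T2 3 19 (Q 39) (Q 39) f82) (Q 39) (T2 3 19 (Q 39) (Q 39) (Q 19))) (Q 15)) (T3 2 15 (Q 33) (Q 33) (Q 15)) (T3 2 15 (T2 3 19 (Q 33) (Q 33) (Q 19)) (T2 3 19 (Q 33) (Q 33) (Q 19)) (Q 15)))) (T2 2 13 (T3 2 15 (T2 3 20 (T3 3 23 (Q 41) (Q 41) (Q 23)) (Q 41) (Q 41)) (Q 23) (Q 15)) (T3 2 15 (Q 33) (Q 23) (Q 15)) (T3 2 15 (T2 3 19 (Q 33) (Q 32) (Q 19)) (T2 3 19 (Q 23) (Q 23) (Q 19)) (Q 15))) (P 9)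
def f85 : C := T2 1 7 (T3 1 7 (T2 1 8 (T3 1 8 (N 8) (O 2) (O 2)) (Q 9) f78) (O 2) (O 2)) (T3 1 7 f78 (T1 2 9 (Q 15) (Q 15) (Q 9)) (O 2)) (T3 1 7 (T3 1 8 (T1 2 9 (T3 1 9 (N 18) (Q 19) (T2 2 13 (Q 33) (Q 33) (T1 3 14 (T1 4 19 (Q 25) (Q 25) (Q 19)) (Q 19) (T3 2 17 (Q 19) (Q 19) (T2 3 19 (T1 5 23 (Q 33) (Q 33) (T3 3 25 (Q 51) (Q 51) (T1 7 32 (Q 33) (Q 33) (T2 5 32 (T3 4 33 (N 198) (N 288) (Q 33)) (T3 4 33 (N 198) (N 486) (Q 33)) (T3 4 33 (Q 109) (Q 91) (Q 33)))))) (Q 51) (Q 19)))))) (T3 1 9 (Q 19) (Q 19) (T2 2 13 (Q 33) (Q 33) (T3 2 17 (Q 19) (Q 19) (T2 3 19 (Q 59) (Q 51) (Q 19))))) (T3 1 9 (T3 1 10 f79 (T2 2 13 (Q 21) (Q 21) (Q 13)) (T1 3 13 (T2 3 19 (N 234) (N 234) (T3 2 19 (Q 31) (Q 31) (Q 19))) (T2 3 19 (N 342) (N 576) (T3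 2 19 (Q 31) (Q 31) (Q 19))) (T2 2 13 (T1 4 17 (Q 47) (Q 47) (T3 2 19 (Q 21) (Q 21) f80)) (T1 4 17 (Q 47) (Q 47) (T3 2 19 (Q 21) (Q 21) (T1 5 21 (Q 47) (Q 47) (Q 21)))) (Q 13)))) (T1 3 13 (T2 3 19 (N 494) (N 728) (Q 19)) (T2 3 19 (N 836) (N 1070) (Q 19)) (T2 2 13 (T1 4 17 (Q 47) (Q 47) f80) (T1 4 17 (Q 47) (Q 47) (T1 5 21 (Q 47) (Q 47) (Q 21))) (Q 13))) (Q 9))) (T1 2 9 (T2 2 13 (Q 33) (Q 33) (T1 3 14 (Q 25) (Q 19) (Q 33))) (Q 33) (Q 9)) (T0 4 9 (T0 11 25 (N 84) (N 84) (Q 25)) (Q 25) f84)) (T0 4 9 (T0 11 25 (N 300) (N 384) (Q 25)) (Q 25) (T1 2 9 (Q 15) (Q 15) (P 9))) (P 7))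
def f86 : C := T0 5 12 (T0 7 17 (Q 37) (Q 22) (Q 17)) (Q 17) (Q 22)
def f87 : C := T3 5 31 (Q 32) (Q 32) (T1 7 32 (Q 37) (Q 37) (Q 32))
def f88 : C := T0 8 19 (Q 61) (Q 31) (T3 3 19 (Q 26) (Q 26) (P 19))
def f89 : C := T2 6 31 (Q 32) (Q 32) (T3 5 31 (Q 46) (Q 46) (T1 7 32 (T3 6 37 (Q 46) (Q 46) (P 37)) (T3 6 37 (Q 46) (Q 46) (P 37)) (P 32)))
def f90 : C := T0 5 12 (T0 7 17 (Q 32) (Q 32) (T1 5 23 (Q 51) (Q 37) (T0 12 29 (Q 32) (Q 32) f87))) (T1 5 23 (Q 51) (Q 37) f87) (T3 2 13 (T3 3 20 (Q 41) (Q 41) (T1 5 23 (N 455) (N 455) (T1 7 32 (Q 33) (Q 33) (T0 14 33 (Q 41) (Q 41) (T3 5 33 (Q 47) (Q 47) (Q 33)))))) (T1 5 23 (N 630) (N 630) (T1 7 32 (Q 33) (Q 33) (T0 14 33 (Q 41) (Q 41) (Q 33)))) (T1 3 14 (T0 8 19 (T0 13 31 (Q 61) (Q 43)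 (Q 31)) (Q 31) (T1 4 19 (T1 5 24 (Q 26) (Q 26) (T0 11 26 (Q 31) (Q 31) (Q 26))) (T0 11 26 (Q 31) (Q 31) (Q 26)) (T3 3 19 (Q 26) (Q 26) (P 19)))) f88 (T2 3 16 (Q 19) (Q 19) (T0 8 19 (T3 3 19 (Q 41) (Q 32) (T2 4 21 (Q 32) (Q 32) (T1 5 23 (T0 13 31 (T1 8 37 (Q 56) (Q 51) (Q 37)) (T1 8 37 (Q 43) (Q 43) (Q 37)) (T3 5 31 (N 285) (N 285) (Q 31))) (T0 13 31 (Q 37) (Q 37) (T3 5 31 (N 285) (N 285) (Q 31))) (T3 4 25 (Q 46) (Q 46) (T2 5 26 (Q 32) (Q 32) (T0 13 31 f89 f89 (T2 6 31 (Q 37) (Q 37) (T3 5 31 (T1 7 32 (Q 46) (Q 46) (P 32)) (T1 7 32 (Q 46) (Q 46) (P 32)) (P 31))))))))) (T3 3 19 (Q 41) (Q 32) (T2 4 21 (Q 32) (Q 32) (T1 5 23 (T3 5 31 (N 805) (N 805) (Q 31)) (Q 88) (T3 4 25 (Q 46) (P 69) (P 69))))) (T3 3 19 (T1 5 23 (Q 26) (Q 26)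 (T0 11 26 (Q 46) (Q 46) (T2 5 26 (Q 33) (Q 33) (P 26)))) (T1 5 23 (Q 26) (Q 26) (T0 11 26 (Q 46) (Q 46) (T2 5 26 (Q 32) (Q 32) (P 26)))) (P 19))))))
def f91 : C := T2 3 17 (Q 19) (Q 19) (T0 8 19 (Q 31) (Q 31) (Q 19))
def f92 : C := T0 11 26 (Q 29) (Q 29) (T1 7 29 (Q 40) (Q 40) (P 29))
def f93 : C := T1 5 22 (T2 5 27 (Q 31) (Q 31) (P 27)) (Q 49) (P 22)
def f94 : C := T0 5 12 (T1 3 13 (T3 2 13 (Q 22) (Q 22) (T2 3 16 (Q 22) (Q 22) (T0 7 17 (T3 3 19 (Q 22) (Q 22) (T2 4 21 (N 420) (N 624) (T0 9 22 (T1 5 22 (T0 11 27 (Q 67) (P 32) (P 27)) (Q 31) (T3 4 25 (N 325) (N 1430) (T0 11 27 (T3 5 31 (N 130) (N 130) (Q 31)) (P 32) (P 27)))) (P 27) (P 27)))) (P 27) (P 27)))) (T3 2 13 (Q 22) (Q 22) (T2 3 16 (Q 22) (Q 22) (T0 7 17 (T3 3 19 (Q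 22) (Q 22) (T2 4 21 (N 420) (N 918) (T0 9 22 (T3 4 25 (N 550) (Q 27) (T0 11 27 (T3 5 31 (N 589) (N 675) (Q 31)) (P 32) (P 27))) (P 27) (P 22)))) (P 22) (P 22)))) (T3 2 13 (T2 3 16 (T0 7 17 (T0 9 22 (Q 27) (Q 27) (P 22)) (P 22) (P 22)) (T0 7 17 (Q 27) (P 22) (P 22)) (T0 7 17 (T1 4 17 (Q 22) (Q 22) (T3 3 20 (T1 5 21 (N 340) (N 340) (T2 4 21 (Q 49) (Q 37) (P 21))) (T1 5 21 (Q 22) (Q 22) (T2 4 21 (Q 27) (Q 27) (P 21))) (T1 5 21 (Q 47) (Q 47) (T2 4 21 (T0 9 22 (T0 11 27 (T0 13 32 (Q 33) (Q 33) (T3 5 33 (N 336) (N 336) (Q 33))) (Q 86) (P 27)) (P 27) (P 22)) (T0 9 22 (T0 11 27 (Q 53) (Q 37) (P 27)) (P 27) (P 22)) (P 21))))) (P 22) (P 22))) (T2 3 16 (T0 7 17 (Q 33) (P 22) (P 22)) (Q 27) (T0 7 17 (T1 4 17 (Q 22) (Q 22) (T1 5 21 (Q 47)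 (Q 47) (T2 4 21 (Q 33) (Q 33) (P 21)))) (P 22) (P 22))) (P 13))) (T1 3 13 (Q 27) (P 22) (P 22)) (T1 3 13 (T3 2 13 (T2 3 16 (Q 22) (Q 22) (T0 8 19 (T3 3 20 (Q 22) (P 27) (P 27)) (T3 3 20 (Q 22) (P 27) (P 27)) (T3 3 20 (T2 4 21 (N 273) (Q 22) (T1 5 22 (T0 11 26 (Q 27) (Q 27) (T3 4 27 (Q 36) (Q 36) (P 27))) (T0 11 26 (Q 27) (Q 27) (T3 4 27 (Q 31) (Q 31) (P 27))) (P 22))) (P 27) (P 27)))) (Q 27) (T2 3 16 (T0 8 19 f93 (Q 50) (T3 3 19 (T1 5 22 (Q 27) (Q 27) (P 22)) (Q 45) (P 19))) (P 27) (P 27))) (P 22) (P 22))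
def f95 : C := T3 1 7 (T3 1 8 (Q 17) (Q 17) (T2 2 11 (Q 17) (Q 17) (T0 5 12 (T3 2 15 (N 60) (Q 17) (T0 7 17 (Q 37) (Q 22) (Q 17))) (Q 17) (T1 3 13 (Q 22) (Q 22) (T3 2 15 (Q 17) (Q 17) (T2 3 16 (Q 17) (Q 17) (T1 4 17 (T3 3 22 (Q 26) (Q 26) (P 22)) (T3 3 22 (Q 26) (Q 26) (P 22)) (P 17)))))))) (T2 2 11 (Q 17) (Q 17) f86) (T1 2 9 f90 (T0 5 12 (Q 32) (Q 32) (T3 2 13 (T3 3 20 (Q 41) (Q 41) (T0 14 33 (Q 41) (Q 41) (T3 5 33 (Q 41) (Q 41) (Q 33)))) (T0 14 33 (Q 41) (Q 41) (Q 33)) (T2 3 16 (Q 19) (Q 19) (T0 8 19 (T3 3 19 (Q 41) (P 32) (P 32)) (T3 3 19 (Q 41) (P 32) (P 32)) (T3 3 19 (T0 11 26 (Q 41) (Q 41) (T2 5 26 (Q 33) (Q 33) (P 26))) (P 32) (P 19)))))) (T2 2 11 (T0 5 12 (T3 2 13 (Q 17) (Q 17) (Q 13)) (T3 2 13 (Q 17) (Q 17) (Q 13))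 (T1 3 13 f91 f91 (T3 2 13 (T1 4 17 (N 357) (N 429) (T2 3 17 (T0 8 19 (Q 29) (Q 29) (T3 3 20 (T2 4 23 (Q 41) (Q 29) (Q 29)) (Q 41) (T2 4 23 (T0 11 26 (Q 29) (Q 29) (T2 5 29 (T0 14 33 (Q 41) (Q 41) (T3 5 33 (T2 6 35 (Q 54) (Q 41) (Q 41)) (Q 73) (Q 33))) (Q 41) (Q 29))) (Q 29) f92))) (T0 8 19 (Q 29) (Q 29) (T3 3 20 (Q 29) (Q 29) f92)) (P 17))) (T1 4 17 (N 357) (N 539) (T2 3 17 (T0 8 19 (Q 29) (Q 29) (T2 4 23 (T0 11 26 (Q 29) (Q 29) (T2 5 29 (T0 14 33 (Q 41) (Q 41) (Q 33)) (Q 41) (Q 29))) (Q 29) (Q 46))) (Q 46) (P 17))) (P 13)))) (T0 5 12 (T3 2 13 (Q 17) (Q 17) (Q 13)) (T3 2 13 (Q 17) (Q 17) (Q 13)) (T1 3 13 (T0 8 19 (Q 31) (Q 31) (Q 19)) (T0 8 19 (Q 31) (Q 31) (Q 19)) (T3 2 13 (T1 4 17 (N 357) (N 637) (P 17)) (T1 4 17 (N 357)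 (N 786) (P 17)) (P 13)))) f94))
def f96 : C := T2 3 16 (Q 17) (Q 17) (T1 4 17 (Q 26) (Q 26) (P 17))
def f97 : C := T1 4 19 (T1 9 43 (Q 101) (Q 67) (Q 91)) (Q 81) (T3 2 23 (Q 71) (Q 71) (T1 7 33 (T3 3 34 (Q 81) (Q 57) (Q 57)) (T3 3 34 (Q 71) (Q 57) (Q 57)) (T3 3 34 (T1 10 47 (Q 71) (Q 71) (Q 47)) (Q 57) (Q 57))))
def f98 : C := T1 4 19 (T1 9 43 (Q 101) (Q 67) (Q 67)) (Q 67) (Q 57)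
def f99 : C := T3 1 10 (T2 2 11 (Q 23) (Q 23) (T3 1 11 (T3 1 12 (T1 5 23 (Q 51) (Q 37) (T3 2 25 (T3 3 38 (Q 41) (Q 41) (Q 51)) (Q 51) (T1 7 32 (Q 51) (Q 51) (T2 7 36 (N 36) (Q 37) (T3 3 37 (T1 9 41 (Q 51) (Q 51) (Q 41)) (Q 87) (Q 37)))))) (T1 5 23 (Q 51) (Q 37) (Q 37)) (T1 3 14 f97 (T3 2 23 (Q 61) (Q 47) (Q 47)) (T2 3 16 (Q 23) (Q 23) (T2 4 21 (T3 2 23 (N 126) (N 126) (Q 23)) (Q 37) (T1 5 23 (T3 2 23 (T3 3 35 (T1 8 37 (Q 61) (Q 51) (Q 37)) (Q 47) (Q 47)) (Q 47) (T2 5 26 (Q 79) (Q 47) (Q 47))) (Q 37) (T3 2 23 (Q 37) (Q 37) (Q 23))))))) (T1 3 14 f98 (Q 47) (T2 3 16 (Q 23) (Q 23) (T2 4 21 (Q 23) (Q 23) (T1 5 23 (T2 5 26 (Q 79) (Q 47) (Q 47)) (Q 37) (Q 23))))) (Q 11))) (T2 2 11 (Q 23) (Q 23) (Q 11)) (T2 2 11 (T1 3 14 (T2 3 17 (Q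 19) (Q 19) (T1 4 19 (T1 5 24 (Q 39) (Q 29) (Q 29)) (Q 29) (T3 2 19 (Q 39) (Q 29) (Q 19)))) (T2 3 17 (Q 19) (Q 19) (T3 2 19 (Q 39) (Q 29) (Q 19))) (T2 3 17 (T3 2 19 (T2 4 23 (Q 41) (Q 41) (Q 23)) (T2 4 23 (Q 41) (Q 29) (Q 23)) (Q 19)) (T3 2 19 (Q 23) (Q 23) (Q 19)) (T3 2 19 (T1 5 23 (T2 5 28 (T3 3 29 (N 280) (N 280) (Q 29)) (Q 79) (T3 3 29 (T1 8 37 (T3 4 39 (Q 61) (Q 61) (Q 39)) (Q 51) (Q 51)) (T1 8 37 (Q 39) (Q 39) (Q 51)) (Q 29))) (Q 51) (Q 23)) (Q 29) (Q 19)))) (T1 3 14 (Q 39) (Q 39) (T3 2 19 (T1 5 23 (Q 61) (Q 51) (Q 23)) (Q 29) (Q 19))) (Q 11))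
def f100 : C := T2 3 17 (Q 19) (Q 19) (T3 2 17 (Q 19) (Q 19) (P 17))
def f101 : C := T3 1 9 f99 (T2 2 11 (T1 3 14 (T2 3 17 (Q 19) (Q 19) (T1 4 19 (T1 5 24 (Q 39) (Q 29) (Q 29)) (Q 29) (Q 19))) (Q 19) (Q 19)) (T1 3 14 (Q 39) (Q 19) (Q 19)) (Q 11)) (T0 5 11 (Q 41) (Q 41) (T2 2 11 (T1 3 14 (T2 3 17 (T3 2 17 (T1 4 19 (T2 4 23 (Q 53) (Q 29) (T1 5 24 (Q 35) (Q 29) (Q 29))) (T2 4 23 (Q 53) (Q 29) (Q 29)) (Q 19)) (T1 4 19 (T2 4 23 (Q 53) (Q 29) (Q 35)) (Q 43) (Q 19)) (T1 4 19 (T2 4 23 (T1 5 24 (T3 3 25 (T1 6 29 (Q 35) (Q 35) (T2 5 29 (T2 6 35 (N 350) (N 408) (Q 35)) (Q 35) (Q 29))) (Q 59) (Q 25)) (T3 3 25 (Q 53) (Q 53) (Q 25)) (T3 3 25 (T2 5 29 (T2 6 35 (T2 7 41 (T3 5 42 (Q 43) (Q 43) (Q 101)) (Q 53) (Q 53)) (Q 53) (Q 35)) (Q 35) (Q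 29)) (T2 5 29 (Q 101) (Q 35) (Q 29)) (Q 25))) (Q 35) (Q 35)) (T2 4 23 (Q 43) (Q 29) (Q 29)) (Q 19))) (T3 2 17 (T1 4 19 (T1 5 24 (Q 35) (Q 29) (Q 29)) (Q 29) (Q 19)) (Q 35) (T1 4 19 (Q 35) (Q 29) (Q 19))) (T3 2 17 (T1 4 19 (T1 5 24 (T3 3 26 (T2 5 28 (T1 6 29 (T1 7 34 (N 364) (N 364) (T3 4 35 (N 140) (N 638) (Q 35))) (Q 63) (Q 29)) (Q 45) (Q 45)) (Q 35) (Q 35)) (Q 29) (Q 29)) (Q 29) (Q 19)) (T1 4 19 (Q 35) (Q 29) (Q 19)) (Q 17))) (Q 19) (T0 8 17 (N 495) (N 495) f100)) (T1 3 14 (T3 2 17 (T1 4 19 (Q 45) (Q 29) (Q 19)) (T1 4 19 (Q 35) (Q 29) (Q 19)) (Q 17)) (Q 19) (Q 28)) (P 11)))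
def f102 : C := T3 1 13 (T3 1 14 (Q 17) (Q 17) (T2 3 17 (Q 29) (Q 29) (Q 17))) (T2 3 17 (Q 29) (Q 29) (Q 17)) (Q 13)
def f103 : C := T1 3 13 (T3 1 13 (T3 1 14 (Q 31) (Q 31) (T1 5 22 (T3 2 27 (T1 7 31 (N 270) (N 270) (Q 31)) (Q 41) (Q 27)) (Q 31) (T2 5 26 (N 26) (Q 27) (T3 2 27 (Q 31) (Q 31) (Q 27))))) (Q 27) (Q 27)) (T3 1 13 (T3 1 14 (Q 31) (Q 31) (T2 5 26 (Q 27) (Q 27) (T3 2 27 (Q 31) (Q 31) (Q 27)))) (Q 27) (Q 27)) (T3 1 13 (T3 1 14 (T3 1 15 (T2 3 16 (Q 17) (Q 17) (T3 1 16 (T3 1 17 (Q 21) (Q 21) (Q 17)) (Q 17) (T1 4 17 (T1 7 30 (N 30) (Q 31) (T3 2 31 (N 170) (N 170) (Q 31))) (Q 47) (Q 17)))) (T2 3 16 (Q 17) (Q 17) (T1 4 17 (Q 31) (Q 31) (Q 17))) (T2 3 16 (Q 17) (Q 17) (T1 4 17 (T3 2 29 (Q 31) (Q 31) (T1 7 30 (Q 31) (Q 31)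 (T2 6 31 (Q 43) (Q 43) (Q 31)))) (Q 47) (Q 17)))) (T2 3 16 (Q 17) (Q 17) (T1 4 17 (T1 7 30 (Q 31) (Q 31) (Q 43)) (Q 43) (Q 17))) (T2 3 16 (T1 4 17 (N 208) (N 208) (Q 17)) (T1 4 17 (N 442) (N 650) (Q 17)) (T1 4 17 (T2 4 21 (T3 2 27 (N 378) (N 714) (Q 27)) (Q 69) (T2 5 26 (T3 2 27 (Q 43) (Q 43) (Q 27)) (T3 2 27 (Q 43) (Q 43) (Q 27)) (T3 2 27 (T1 7 30 (T2 6 31 (T3 3 41 (Q 43) (Q 43) (T1 10 43 (T1 13 56 (N 310) (N 310) (Q 69)) (Q 69) (Q 43))) (Q 57) (Q 31)) (Q 43) (Q 43)) (T1 7 30 (T2 6 31 (Q 95) (Q 57) (Q 31)) (Q 43) (Q 43)) (Q 27)))) (T2 4 21 (Q 43) (Q 43) (T2 5 26 (Q 43) (Q 43) (T3 2 27 (Q 43) (Q 43) (Q 27)))) (Q 17)))) (T2 3 16 (T1 4 17 (N 272) (N 480) (Q 17)) (Q 27) (T1 4 17 (Q 27) (Q 27) (Q 17))) (Q 13))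
def f104 : C := T2 2 11 (T3 1 11 (T3 1 12 f102 (Q 13) (T1 3 13 (T1 5 22 (N 22) (Q 23) (T3 2 23 (N 264) (N 264) (Q 23))) (Q 35) (Q 13))) (T1 3 13 (Q 23) (Q 23) (Q 13)) (T1 3 13 (T2 3 17 (T3 2 21 (T2 4 23 (N 546) (N 546) (Q 23)) (Q 53) (T1 5 22 (T2 4 23 (Q 41) (Q 41) (Q 23)) (Q 53) (T2 4 23 (T2 5 29 (T3 3 31 (N 754) (N 754) (Q 31)) (Q 53) (Q 53)) (Q 53) (Q 23)))) (Q 23) (Q 23)) (T2 3 17 (T3 2 21 (Q 35) (Q 35) (T2 4 23 (T2 5 29 (T3 3 31 (Q 35) (Q 35) (Q 31)) (Q 35) (Q 35)) (Q 35) (Q 23))) (Q 23) (Q 23)) (Q 13))) (T3 1 11 (T3 1 12 (T3 1 13 (Q 17) (Q 17) (Q 13)) (Q 13) (T1 3 13 (T1 5 22 (Q 23) (Q 23) (T3 2 23 (N 368) (N 390) (Q 23))) (Q 35) (Q 13))) (T1 3 13 (Q 23) (Q 23) (Q 13)) (T1 3 13 (Q 23) (Q 23) (Q 13))) (T3 1 11 (T3 1 12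 f103 (T1 3 13 (Q 27) (Q 27) (Q 13)) (T0 6 13 (Q 46) (Q 37) (T1 3 13 (T2 3 16 (T1 5 22 (T3 2 23 (Q 49) (Q 49) (Q 23)) (T3 2 23 (Q 49) (Q 49) (Q 23)) (T3 2 23 (T2 5 27 (T1 8 35 (Q 49) (Q 49) (T3 3 35 (T2 7 38 (Q 83) (Q 49) (Q 49)) (T2 7 38 (Q 83) (Q 49) (Q 49)) (Q 35))) (Q 49) (Q 27)) (T2 5 27 (T1 8 35 (Q 49) (Q 49) (Q 35)) (Q 49) (Q 27)) (Q 23))) (Q 27) (T2 4 21 (Q 27) (Q 27) (T1 5 22 (T3 2 23 (Q 27) (Q 27) (Q 23)) (T3 2 23 (Q 27) (Q 27) (Q 23)) (T0 11 23 (N 715) (N 715) (T3 2 23 (Q 27) (Q 27) (P 23)))))) (T2 3 16 (T3 2 23 (Q 61) (Q 35) (Q 23)) (Q 27) (T2 4 21 (Q 27) (Q 27) (T0 11 23 (N 1265) (Q 36) (T3 2 23 (Q 27) (Q 27) (P 23))))) (P 13)))) (T0 6 13 (Q 46) (Q 37) (T1 3 13 (T2 3 16 (Q 23) (Q 23) (T2 4 21 (Q 23) (Q 23) (T1 5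 22 (Q 23) (Q 23) (T0 11 23 (N 1495) (Q 36) (P 23))))) (T2 3 16 (Q 23) (Q 23) (T2 4 21 (Q 23) (Q 23) (T0 11 23 (Q 36) (Q 36) (P 23)))) (P 13))) (P 11))
def f105 : C := T0 9 20 (Q 21) (Q 21) (T2 4 21 (Q 29) (Q 29) (Q 21))
def f106 : C := T0 9 20 (T2 4 21 (Q 38) (Q 37) (Q 21)) (Q 38) (T1 5 21 (Q 47) (P 38) (P 38))
def f107 : C := T3 1 10 (T0 5 11 (T0 9 20 (N 20) (Q 21) (T3 2 21 (N 220) (N 220) (Q 21))) (T3 2 21 (N 420) (N 640) (Q 21)) f104) (T0 5 11 (Q 21) (Q 21) (T2 2 11 (T1 3 13 (T2 3 17 (T1 5 22 (Q 41) (Q 31) (Q 31)) (Q 23) (Q 23)) (Q 31) (Q 13)) (T1 3 13 (Q 23) (Q 23) (Q 13)) (P 11))) (T0 5 11 (T2 3 16 (Q 29) (Q 29) (T1 4 17 (Q 31) (Q 31) (T3 2 19 f105 f105 f106))) (T2 3 16 (Q 29) (Q 29) (T1 4 17 (Q 31) (Q 31) (T3 2 19 (T2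 4 21 (Q 29) (Q 29) (Q 21)) (T2 4 21 (Q 29) (Q 29) (Q 21)) (T1 5 21 (Q 31) (P 38) (P 38))))) (T2 2 11 (T0 6 13 (Q 29) (Q 29) (T1 3 13 (T2 3 17 (T3 2 19 (T1 5 22 (T2 4 23 (T2 5 29 (T3 3 29 (T1 7 31 (T2 6 35 (Q 59) (Q 41) (Q 41)) (Q 71) (Q 31)) (T1 7 31 (Q 59) (Q 49) (Q 31)) (T1 7 31 (T2 6 35 (T1 9 40 (T2 7 41 (T2 8 47 (Q 77) (Q 59) (Q 59)) (Q 59) (Q 41)) (Q 49) (Q 49)) (Q 41) (Q 41)) (Q 49) (Q 31))) (Q 41) (Q 41)) (Q 41) (Q 23)) (Q 31) (Q 31)) (T1 5 22 (T2 4 23 (T2 5 29 (T1 7 31 (T2 6 35 (T1 9 40 (Q 77) (Q 49) (Q 49)) (Q 41) (Q 41)) (Q 49) (Q 31)) (Q 41) (Q 29)) (Q 29) (Q 23)) (Q 31) (Q 31)) (Q 19)) (Q 23) (T3 2 19 (Q 23) (Q 23) (Q 19))) (T2 3 17 (T3 2 19 (Q 31) (Q 31) (Q 19)) (Q 23) (Q 40)) (P 13))) (T0 6 13 (Q 29) (Q 29) (T1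 3 13 (T3 2 19 (Q 23) (Q 23) (Q 19)) (Q 40) (P 13))) (P 11)))
def f108 : C := T0 6 13 (Q 29) (Q 29) (T1 3 13 (Q 19) (Q 19) (P 13))
def f109 : C := T0 4 9 (T3 1 9 (Q 21) (Q 21) (T2 2 11 (Q 17) (Q 17) (T1 3 13 (Q 41) (Q 41) (T0 7 16 (T2 3 16 (N 16) (Q 17) (T3 2 17 (Q 21) (Q 21) (Q 17))) (T2 3 16 (Q 17) (Q 17) (T3 2 17 (Q 21) (Q 21) (Q 17))) (T2 3 16 (T3 2 17 (N 144) (N 144) (Q 17)) (T3 2 17 (N 612) (N 756) (Q 17)) (T1 4 17 (Q 26) (Q 26) (T3 2 17 (T1 5 21 (Q 26) (Q 26) (T2 4 21 (T3 3 26 (Q 37) (Q 37) (T2 7 37 (Q 113) (Q 53) (Q 37))) (Q 37) (P 21))) (T1 5 21 (Q 26) (Q 26) (T2 4 21 (T2 7 37 (Q 43) (Q 43) (Q 37)) (Q 37) (P 21))) (P 17)))))))) (T3 1 9 (Q 21) (Q 21) (T2 2 11 (Q 17) (Q 17) (T1 3 13 (Q 41) (Q 41) (T2 3 16 (T3 2 17 (N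 272) (N 416) (Q 17)) (Q 43) (T1 4 17 (Q 26) (Q 26) (T3 2 17 (T1 5 21 (Q 26) (Q 26) (T2 4 21 (Q 70) (Q 37) (P 21))) (P 43) (P 17))))))) (T1 2 9 f101 (T3 1 9 (T3 1 10 (T2 2 11 (Q 23) (Q 23) (T3 1 11 (T3 1 12 (T3 2 25 (Q 41) (Q 41) (T2 7 36 (Q 37) (Q 37) (T3 3 37 (Q 41) (Q 41) (Q 37)))) (Q 37) (T2 3 16 (Q 23) (Q 23) (T2 4 21 (Q 59) (Q 37) (T3 2 23 (Q 37) (Q 37) (Q 23))))) (Q 23) (Q 11))) (T2 2 11 (Q 23) (Q 23) (Q 11)) (T2 2 11 (T2 3 17 (T3 2 19 (Q 41) (Q 41) (Q 19)) (Q 23) (Q 23)) (Q 23) (Q 11))) (T2 2 11 (Q 19) (Q 19) (Q 11)) (T0 5 11 (Q 41) (Q 41) (T2 2 11 (T0 8 17 (N 544) (N 616) f100) (Q 28) (P 11)))) (T3 1 9 f107 (T0 5 11 (T2 3 16 (Q 29) (Q 29) (T1 4 17 (Q 31) (Q 31) f106)) (T2 3 16 (Q 29) (Q 29) (T1 4 17 (Q 31) (P 64) (P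 64))) (T2 2 11 f108 f108 (P 11))) (P 9)))
def f110 : C := T0 10 23 (T2 4 23 (Q 37) (Q 29) (Q 29)) (Q 30) (Q 30)
def f111 : C := T2 2 11 (T1 3 13 (N 693) (N 693) (T3 2 15 (T0 7 16 (Q 17) (Q 17) (T2 3 17 (Q 41) (Q 41) (Q 17))) (T0 7 16 (Q 17) (Q 17) (T2 3 17 (Q 41) (P 23) (P 23))) (T0 7 16 (T2 3 17 (T3 3 22 (Q 23) (Q 23) f110) (T3 3 22 (Q 23) (Q 23) (T0 10 23 (Q 29) (Q 29) (P 23))) (Q 17)) (Q 30) (T1 4 17 (Q 23) (P 30) (P 30))))) (T1 3 13 (N 819) (N 1512) (T3 2 15 (Q 17) (Q 17) (T0 7 16 (Q 17) (P 23) (P 23)))) (T1 3 13 (T3 2 15 (T0 7 16 (Q 23) (Q 23) (Q 16)) (Q 23) (T0 7 16 (T2 4 21 (Q 22) (Q 22) (T1 5 22 (T3 3 22 (Q 23) (Q 23) (T0 10 23 (T3 4 29 (Q 31) (Q 31) (T0 13 30 (T1 7 31 (Q 36) (Q 36) (Q 31)) (P 37) (P 37))) (P 37) (P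 23))) (T3 3 22 (Q 23) (Q 23) (T0 10 23 (Q 31) (P 37) (P 23))) (T3 3 22 (Q 31) (Q 31) (P 22)))) (P 23) (P 23))) (T3 2 15 (T0 7 16 (Q 23) (Q 23) (Q 16)) (Q 23) (T0 7 16 (T2 4 21 (Q 22) (Q 22) (T3 3 22 (Q 31) (Q 31) (P 22))) (P 23) (P 23))) (T3 2 15 (T0 7 16 f96 f96 (T2 3 16 (T1 4 17 (Q 23) (Q 23) (P 17)) (T1 4 17 (Q 23) (Q 23) (P 17)) (P 16))) (T0 7 16 f96 (P 23) (P 23)) (T0 7 16 (T2 3 16 (T1 4 17 (Q 22) (Q 22) (P 17)) (T1 4 17 (Q 22) (Q 22) (P 17)) (T1 4 17 (T2 4 21 (T3 3 22 (N 425) (N 425) (P 22)) (T3 3 22 (N 425) (N 425) (P 22)) (T3 3 22 (T0 10 23 (Q 26) (P 53) (P 23)) (T0 10 23 (Q 26) (P 37) (P 23)) (P 22))) (T2 4 21 (T3 3 22 (N 777) (N 777) (P 22)) (T3 3 22 (N 960) (N 960) (P 22)) (T3 3 22 (T0 10 23 (Q 26) (P 30) (P 23))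 (T0 10 23 (Q 26) (P 30) (P 23)) (P 22))) (P 17))) (P 23) (P 23))))
def f112 : C := T3 3 22 (Q 23) (Q 23) (T1 5 23 (Q 29) (Q 29) (P 23))
def f113 : C := T2 3 17 (Q 24) (Q 24) (T1 4 19 (Q 29) (P 24) (P 24))
def f114 : C := T2 2 11 (Q 23) (Q 23) (T3 2 15 (Q 16) (P 23) (P 23))
def f115 : C := T0 4 9 (T1 2 9 (T1 3 14 (Q 16) (Q 16) (T3 2 15 (N 45) (Q 16) (T0 7 16 (Q 37) (Q 23) (Q 16)))) (T3 2 15 (Q 16) (Q 16) (T0 7 16 (Q 37) (Q 23) (Q 16))) f111) (T1 2 9 (Q 16) (Q 16) (T2 2 11 (T1 3 13 (N 1001) (Q 23) (T3 2 15 (T2 3 17 (Q 25) (Q 25) (Q 17)) (T2 3 17 (Q 25) (P 23) (P 23)) (T1 4 17 (Q 23) (P 30) (P 30)))) (T1 3 13 (Q 23) (Q 23) (T3 2 15 (Q 17) (P 23) (P 23))) (T1 3 13 (T3 2 15 (Q 16) (P 23) (P 23)) (T3 2 15 (Q 16) (P 23) (P 23)) (T3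 2 15 (T2 3 16 (T1 4 17 (Q 23) (Q 23) (P 17)) (Q 43) (P 16)) (P 23) (P 23))))) (T1 2 9 (T0 5 11 (T2 2 11 (Q 23) (Q 23) (T1 3 14 (Q 16) (Q 16) (T3 2 15 (Q 16) (Q 16) (T2 3 16 (T0 9 20 (Q 23) (Q 23) f112) (T0 9 20 (Q 23) (P 38) (P 38)) (P 16))))) (T2 2 11 (Q 23) (Q 23) (T1 3 14 (Q 16) (Q 16) (T3 2 15 (Q 16) (Q 16) (T2 3 16 f112 (P 38) (P 16))))) (T2 2 11 (T0 6 13 (T1 3 14 (Q 24) (Q 24) (T2 3 17 (Q 29) (Q 23) f112)) (Q 24) (T1 3 14 (T0 7 15 f113 f113 (T3 2 15 (T0 8 17 (Q 24) (Q 24) (T2 3 17 (T1 4 19 (T2 4 23 (Q 25) (Q 25) (T3 3 23 (Q 25) (Q 25) (Q 23))) (P 24) (P 24)) (Q 40) (P 17))) (T0 8 17 (Q 24) (Q 24) (T2 3 17 (T1 4 19 (T2 4 23 (Q 25) (Q 25) (Q 23)) (P 24) (P 24)) (Q 40) (P 17))) (P 15))) (P 24) (P 24))) (T0 6 13 (T1 3 14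 (Q 24) (Q 24) f112) (Q 24) (T1 3 14 (T0 7 15 (Q 39) (Q 39) (T3 2 15 (T0 8 17 (Q 24) (Q 24) (P 17)) (T0 8 17 (Q 24) (Q 24) (P 17)) (P 15))) (P 24) (P 24))) (P 11))) (T0 5 11 f114 f114 (T2 2 11 (T0 6 13 (T2 3 17 (Q 29) (Q 23) (Q 23)) (P 24) (P 24)) (T0 6 13 (Q 23) (P 24) (P 24)) (P 11))) (P 9))
def f116 : C := T3 1 7 (T3 1 8 f109 (T0 4 9 (T2 2 11 (Q 17) (Q 17) (T1 3 13 (Q 41) (Q 41) (T0 7 16 (Q 17) (Q 17) f96))) (T2 2 11 (Q 17) (Q 17) (T1 3 13 (Q 41) (Q 41) (T2 3 16 (Q 17) (Q 17) (T1 4 17 (Q 26) (P 43) (P 17))))) (T1 2 9 (T0 5 11 (Q 41) (Q 41) (T2 2 11 (T1 3 14 (T2 3 17 (Q 25) (Q 25) (Q 17)) (Q 19) (T0 8 17 (N 495) (N 495) (T2 3 17 (Q 19) (Q 19) (P 17)))) (T1 3 14 (Q 17) (Q 17) (Q 28)) (P 11))) (T0 5 11 (Q 41) (Q 41) (T2 2 11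 (T0 8 17 (N 935) (N 1039) (T2 3 17 (Q 19) (P 41) (P 17))) (Q 28) (P 11))) (P 9))) f115) (T0 4 9 (T1 2 9 (T1 3 14 (Q 16) (Q 16) (T0 7 16 (Q 37) (Q 23) (Q 16))) (Q 37) (T2 2 11 (T1 3 13 (N 1287) (Q 23) (T0 7 16 (T2 3 17 f110 (Q 29) (Q 17)) (Q 30) (T1 4 17 (Q 23) (P 30) (P 30)))) (T1 3 13 (Q 23) (Q 23) (T0 7 16 (Q 17) (P 23) (P 23))) (T1 3 13 (T0 7 16 (T2 4 21 (Q 22) (Q 22) (T1 5 22 (T0 10 23 (T0 13 30 (Q 36) (P 37) (P 37)) (P 37) (P 23)) (T0 10 23 (Q 31) (P 37) (P 23)) (P 22))) (P 23) (P 23)) (P 22) (P 22)))) (T1 2 9 (Q 16) (Q 16) (T2 2 11 (T1 3 13 (Q 23) (Q 23) (T1 4 17 (Q 23) (P 30) (P 30))) (P 23) (P 23))) (T1 2 9 (T0 5 11 (T2 2 11 (Q 23) (Q 23) (T1 3 14 (Q 16) (Q 16) (T2 3 16 (T0 9 20 (Q 23) (P 29) (P 29)) (P 43) (P 16))))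 (T2 2 11 (Q 23) (Q 23) (T1 3 14 (Q 16) (P 29) (P 29))) (T2 2 11 (T0 6 13 (Q 29) (Q 24) (T1 3 14 (T0 7 15 (Q 29) (Q 29) (P 15)) (P 24) (P 24))) (T0 6 13 (Q 29) (P 50) (P 50)) (P 11))) (T0 5 11 (Q 23) (Q 23) (T0 6 13 (Q 29) (P 24) (P 24))) (P 9))) (P 7)
def f117 : C := T3 1 6 (T0 3 7 f95 (T3 1 7 (T3 1 8 (Q 17) (Q 17) (T2 2 11 (Q 17) (Q 17) (T1 3 13 (Q 22) (Q 22) (T3 2 15 (Q 17) (Q 17) f96)))) (T2 2 11 (Q 17) (Q 17) (Q 22)) (T1 2 9 (T3 2 13 (T3 3 20 (Q 41) (Q 41) (Q 47)) (Q 33) (T1 3 14 (T1 4 19 (Q 26) (Q 26) (T3 3 19 (Q 26) (Q 26) (P 19))) (Q 33) (Q 33))) (T3 2 13 (Q 68) (Q 33) (Q 33)) (T2 2 11 (T1 3 13 (Q 19) (Q 19) (T3 2 13 (T1 4 17 (N 429) (N 429) (T2 3 17 (T3 3 20 (T2 4 23 (Q 41) (Q 29) (Q 29)) (Q 41) (T2 4 23 (Q 54) (P 47)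 (P 47))) (T3 3 20 (Q 29) (P 47) (P 40)) (P 17))) (T1 4 17 (N 786) (N 786) (T2 3 17 (T2 4 23 (Q 33) (P 47) (P 47)) (P 40) (P 17))) (P 13))) (T1 3 13 (Q 19) (Q 19) (T3 2 13 (T1 4 17 (N 786) (N 786) (P 17)) (P 40) (P 13))) (T1 3 13 (T3 2 13 (T2 3 16 (Q 22) (Q 22) (T3 3 20 (T2 4 21 (Q 22) (Q 22) (T1 5 22 (T3 4 27 (Q 36) (Q 36) (P 27)) (T3 4 27 (Q 31) (P 75) (P 27)) (P 22))) (P 27) (P 27))) (P 33) (P 33)) (P 22) (P 22))))) f116) (T0 3 7 (T1 2 9 (T0 5 12 (T0 7 17 (Q 32) (Q 32) (T1 5 23 (Q 51) (Q 37) (Q 37))) (T1 5 23 (Q 51) (Q 37) (Q 37)) (T1 3 14 (T0 8 19 (Q 67) (Q 31) (T1 4 19 (Q 31) (Q 31) (P 19))) (T0 8 19 (Q 61) (Q 31) (P 19)) (T2 3 16 (Q 19) (Q 19) (T0 8 19 (T2 4 21 (Q 32) (Q 32) (T1 5 23 (T0 13 31 (T1 8 37 (Q 56) (Q 51) (P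 37)) (P 43) (P 43)) (P 37) (P 37))) (P 43) (P 19))))) (T0 5 12 (Q 32) (Q 32) (T2 3 16 (Q 19) (Q 19) (P 32))) (T2 2 11 (T0 5 12 (Q 13) (Q 13) (T1 3 13 (T2 3 17 (Q 19) (Q 19) (T0 8 19 (Q 31) (Q 31) (P 19))) (Q 31) (P 13))) (T0 5 12 (Q 13) (Q 13) (T1 3 13 (Q 50) (P 61) (P 13))) (T0 5 12 (T1 3 13 (T2 3 16 (Q 22) (Q 22) (T0 7 17 (T2 4 21 (N 845) (N 845) (T0 9 22 (T1 5 22 (T0 11 27 (Q 67) (P 32) (P 27)) (Q 31) (T0 11 27 (Q 31) (P 32) (P 27))) (P 27) (P 27))) (P 27) (P 27))) (T2 3 16 (Q 22) (Q 22) (T0 7 17 (T2 4 21 (N 1139) (N 1139) (T0 9 22 (T0 11 27 (Q 31) (P 32) (P 27)) (P 27) (P 22))) (P 22) (P 22))) (P 13)) (T1 3 13 (Q 27) (P 22) (P 13)) (T1 3 13 (T2 3 16 (T0 8 19 f93 (P 50) (P 19)) (P 27) (P 27)) (P 22) (P 13))))) (T1 2 9 (T1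 3 14 (T1 4 19 (Q 26) (Q 26) (P 19)) (P 19) (P 19)) (P 19) (P 19)) (P 7)) (P 6)
def f118 : C := T3 3 19 (Q 41) (Q 32) (T1 5 23 (Q 56) (P 51) (P 46))
def f119 : C := T3 4 25 (Q 27) (Q 27) (T0 11 27 (T3 5 31 (N 589) (N 719) (P 31)) (P 32) (P 27))
def f120 : C := T3 1 7 (T3 1 8 (Q 17) (Q 17) (T0 5 12 (T3 2 15 (Q 17) (Q 17) (T0 7 17 (Q 37) (Q 22) (Q 17))) (Q 17) (T1 3 13 (Q 22) (Q 22) (T3 2 15 (Q 17) (Q 17) (T1 4 17 (Q 31) (Q 31) (P 17)))))) f86 (T1 2 9 (T0 5 12 (T0 7 17 (Q 32) (Q 32) (Q 51)) (Q 51) (T3 2 13 (T3 3 20 (Q 41) (Q 41) (T1 5 23 (N 1274) (N 1274) (T1 7 32 (Q 33) (Q 33) (T0 14 33 (Q 41) (Q 41) (T3 5 33 (Q 47) (Q 47) (P 33)))))) (T1 5 23 (N 1449) (Q 33) (P 46)) (T1 3 14 (T0 8 19 (T0 13 31 (Q 61) (Q 43) (Q 31)) (Q 31) (T1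 4 19 (T1 5 24 (Q 26) (Q 26) (T0 11 26 (Q 31) (Q 31) (P 26))) (T0 11 26 (Q 31) (Q 31) (P 26)) (T3 3 19 (Q 26) (Q 26) (P 19)))) f88 (T0 8 19 f118 f118 (T3 3 19 (T1 5 23 (Q 26) (Q 26) (P 46)) (T1 5 23 (Q 26) (P 51) (P 46)) (P 19)))))) (T0 5 12 (Q 32) (Q 32) (Q 41)) (T0 5 12 (T1 3 13 (T3 2 13 (Q 22) (Q 22) (T0 7 17 (T3 3 19 (Q 22) (Q 22) (T0 9 22 (T1 5 22 (T0 11 27 (Q 67) (P 32) (P 27)) (Q 31) f119) (P 27) (P 27))) (P 27) (P 27))) (T3 2 13 (Q 22) (Q 22) (T0 7 17 (T3 3 19 (Q 22) (Q 22) (T0 9 22 f119 (P 27) (P 22))) (P 22) (P 22))) (T3 2 13 (T0 7 17 (T1 4 17 (Q 22) (Q 22) (T3 3 20 (T1 5 21 (Q 22) (Q 22) (P 21)) (T1 5 21 (Q 22) (Q 22) (P 21)) (T1 5 21 (Q 47) (Q 47) (P 21)))) (P 22) (P 22)) (T0 7 17 (T1 4 17 (Q 22) (Q 22) (T1 5 21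 (Q 47) (Q 47) (P 21))) (P 22) (P 22)) (P 13))) (T1 3 13 (Q 27) (P 22) (P 22)) (P 36)))
def f121 : C := T1 4 17 (Q 26) (Q 26) (T3 2 17 (T1 5 21 (Q 26) (Q 26) (P 21)) (P 26) (P 17))
def f122 : C := T3 2 27 (T1 7 31 (Q 41) (Q 41) (Q 31)) (Q 41) (Q 27)
def f123 : C := T0 6 13 (Q 46) (Q 37) (T1 3 13 (Q 36) (Q 36) (P 13))
def f124 : C := T1 2 9 (T3 1 9 (T3 1 10 (T3 1 11 (T3 1 12 (T1 5 23 (Q 51) (Q 37) (T3 2 25 (T3 3 38 (Q 41) (Q 41) (Q 51)) (Q 51) (Q 51))) (Q 51) (T1 3 14 (T1 4 19 (T1 9 43 (Q 101) (Q 67) (Q 91)) (Q 81) (T3 2 23 (Q 71) (Q 71) (Q 81))) (Q 61) (T1 5 23 (T3 2 23 (Q 61) (Q 47) (Q 47)) (Q 37) (T3 2 23 (Q 37) (Q 37) (Q 23))))) (T1 3 14 (T1 4 19 (Q 101) (Q 67) (Q 57)) (Q 47) (Q 56)) (Q 11)) (Q 11) (Q 11)) (Q 11) (T0 5 11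 (Q 41) (Q 41) (P 11))) (T3 1 9 (T3 1 10 (T3 1 11 (T3 1 12 (Q 41) (Q 37) (T3 2 23 (Q 37) (Q 37) (Q 23))) (Q 23) (Q 11)) (Q 11) (Q 11)) (Q 11) (T0 5 11 (Q 41) (Q 41) (P 11))) (T3 1 9 (T3 1 10 (T0 5 11 (T0 9 20 (Q 21) (Q 21) (T3 2 21 (N 924) (N 1144) (Q 21))) (Q 86) (T3 1 11 (T3 1 12 (T1 3 13 (T3 1 13 (T3 1 14 (Q 31) (Q 31) (T1 5 22 f122 (Q 31) (Q 31))) (Q 27) (Q 27)) (Q 31) (T3 1 13 (T3 1 14 (T3 1 15 (T3 1 16 (T3 1 17 (Q 21) (Q 21) (Q 17)) (Q 17) (T1 4 17 (T1 7 30 (Q 31) (Q 31) (T3 2 31 (N 1054) (N 1224) (Q 31))) (Q 47) (Q 17))) (T1 4 17 (Q 31) (Q 31) (Q 17)) (T1 4 17 (Q 31) (Q 31) (Q 17))) (T1 4 17 (Q 31) (Q 31) (Q 17)) (T1 4 17 (Q 31) (Q 31) (Q 17))) (T1 4 17 (Q 27) (Q 27) (Q 17)) (Q 13))) (T1 3 13 (Q 27) (Q 27) (Q 13)) f123)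 f123 (P 11))) (T0 5 11 (Q 21) (Q 21) (P 11)) (T0 5 11 (T1 4 17 (Q 31) (Q 31) (T3 2 19 (Q 21) (Q 21) (T0 9 20 (Q 21) (Q 21) (T1 5 21 (Q 47) (P 38) (P 21))))) (Q 31) (P 11))) (T0 5 11 (T1 4 17 (Q 31) (Q 31) (T0 9 20 (Q 21) (P 47) (P 47))) (Q 31) (P 11)) (P 9))
def f125 : C := T3 1 6 (T0 3 7 f120 (T3 1 7 (T3 1 8 (Q 17) (Q 17) (T1 3 13 (Q 22) (Q 22) (P 26))) (Q 22) (T1 2 9 (T3 2 13 (Q 61) (Q 33) (P 26)) (Q 41) (P 36))) (T3 1 7 (T3 1 8 (T0 4 9 (T3 1 9 (Q 21) (Q 21) (T1 3 13 (Q 41) (Q 41) (T0 7 16 (T3 2 17 (Q 21) (P 26) (P 26)) (T3 2 17 (Q 21) (P 26) (P 26)) f121))) (T3 1 9 (Q 21) (Q 21) (T1 3 13 (Q 41) (Q 41) f121)) f124) (T0 4 9 (T1 3 13 (Q 41) (Q 41) (P 26)) (Q 41) (T1 2 9 (T0 5 11 (Q 41) (Q 41) (P 11)) (P 41) (P 9))) (T0 4 9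 (T1 2 9 (T1 3 14 (Q 16) (Q 16) (T3 2 15 (Q 16) (Q 16) (T0 7 16 (Q 37) (Q 23) (P 16)))) (T3 2 15 (Q 16) (Q 16) (T0 7 16 (Q 37) (P 23) (P 16))) (T1 3 13 (T3 2 15 (T0 7 16 (Q 23) (Q 23) (P 16)) (Q 23) (T0 7 16 (T1 5 22 (T3 3 22 (Q 23) (Q 23) (T0 10 23 (T3 4 29 (Q 31) (Q 31) (T0 13 30 (T1 7 31 (Q 36) (Q 36) (P 31)) (P 37) (P 37))) (P 37) (P 23))) (P 31) (P 31)) (P 23) (P 16))) (T3 2 15 (T0 7 16 (Q 23) (Q 23) (P 16)) (P 31) (P 31)) (P 26))) (P 16) (P 16))) (T0 4 9 (T1 2 9 (T1 3 14 (Q 16) (Q 16) (T0 7 16 (Q 37) (P 71) (P 16))) (Q 37) (P 36)) (P 16) (P 16)) (P 7))) (T0 3 7 (T1 2 9 (T0 5 12 (Q 61) (Q 51) (T1 3 14 (T0 8 19 (Q 67) (P 31) (P 31)) (P 61) (P 56))) (Q 32) (T1 3 13 (T0 9 22 (T1 5 22 (Q 121) (P 31) (P 31)) (P 27) (P 27)) (P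 31) (P 13))) (P 26) (P 7)) (P 6)
def f126 : C := T1 1 5 (T2 1 5 (T3 1 5 (T1 1 6 (T2 1 6 (T3 1 6 (N 6) (O 2) (O 2)) (O 1) (O 1)) f71 f76) (O 2) (O 2)) (O 1) (O 1)) (T2 1 5 (T3 1 5 (T2 1 6 (T3 1 6 (T2 1 7 f77 (T3 3 19 (Q 71) (O 2) (O 2)) (T3 1 7 (T3 2 15 (Q 31) (Q 31) (T2 3 19 (Q 71) (Q 51) (T3 3 22 (Q 31) (Q 31) (T2 4 25 (Q 51) (Q 51) (T3 4 29 (Q 31) (Q 31) (T2 5 31 (Q 51) (Q 51) (Q 31))))))) (T2 3 19 (Q 71) (Q 51) (T2 4 25 (Q 51) (Q 51) (T2 5 31 (Q 51) (Q 51) (Q 31)))) (Q 7))) (O 2) (O 2)) (T3 1 6 (T3 1 7 (Q 31) (Q 31) (Q 7)) (Q 7) (O 2)) (T3 1 6 (T3 1 7 (T3 1 8 (T3 1 9 (Q 11) (Q 11) (T2 2 11 (T2 3 17 (Q 41) (Q 41) (T3 2 17 (N 374) (N 484) (Q 17))) (Q 61) (Q 11))) (T2 2 11 (Q 41) (Q 17) (Q 11)) (T2 2 11 (T3 2 15 (T2 3 17 (T2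 4 23 (T3 3 23 (T2 5 29 (T3 4 31 (Q 71) (Q 47) (Q 31)) (Q 41) (Q 41)) (Q 31) (Q 31)) (Q 41) (Q 41)) (Q 41) (Q 17)) (Q 31) (T2 3 17 (T3 3 22 (Q 31) (Q 31) (T2 4 23 (T0 14 29 (N 609) (N 644) (T2 5 29 (Q 31) (Q 31) (T3 4 29 (Q 31) (Q 31) (P 29)))) (Q 52) (Q 23))) (Q 23) (Q 17))) (Q 17) (Q 11))) (T2 2 11 (Q 36) (Q 17) (Q 11)) (Q 7)) (Q 7) (P 6))) (O 2) (O 2)) (T3 1 6 (T3 1 7 (Q 11) (Q 11) (Q 7)) (Q 7) (P 6)) (O 1)) (T2 1 5 (T3 1 5 (T2 1 6 (T3 1 6 (T0 3 7 (Q 13) (Q 13) f85) (O 2) (O 2)) (T3 1 6 (T0 3 7 (Q 13) (Q 13) (T3 1 7 (T3 1 8 (T1 2 9 (T3 1 9 (Q 19) (Q 19) (T1 3 14 (T1 4 19 (Q 25) (Q 25) (Q 19)) (Q 19) (Q 19))) (Q 19) (T3 1 9 (T3 1 10 (Q 13) (Q 13) (T1 3 13 (T3 2 19 (Q 31) (Q 31) (Q 19)) (Q 31) (Q 13))) (T1 3 13 (Q 19) (Q 19)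 (Q 13)) (Q 9))) (T1 2 9 (Q 25) (Q 19) (Q 9)) (T0 4 9 (Q 37) (Q 25) (T1 2 9 (T1 3 14 (T3 2 15 (Q 25) (Q 25) (Q 15)) (Q 19) (T3 2 15 (Q 19) (Q 19) (Q 15))) (T3 2 15 (Q 19) (Q 19) (Q 15)) (P 9)))) (T0 4 9 (Q 37) (Q 25) (T1 2 9 (Q 15) (Q 15) (P 9))) (P 7))) (T0 3 7 (Q 13) (Q 13) (P 7)) (O 2)) f117) (O 2) (O 2)) f125 (P 5))
def f127 : C := T0 11 28 (Q 29) (Q 29) (T3 4 29 (Q 33) (Q 33) (P 29))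
def f128 : C := T3 2 13 (Q 14) (Q 14) (T2 3 14 (Q 25) (P 33) (P 14))
def f129 : C := T3 1 7 (T0 3 8 (Q 9) (Q 9) (T3 1 8 (T3 1 9 (Q 13) (Q 13) (Q 9)) (Q 9) (T2 2 9 (T0 5 13 (N 819) (N 1071) (T2 3 14 (T2 4 19 (T2 5 24 (Q 73) (Q 29) (Q 29)) (Q 29) (T3 3 22 (Q 33) (Q 33) (T0 11 28 (Q 29) (Q 29) (T3 4 29 (Q 38) (Q 38) (P 29))))) (T3 3 22 (Q 33) (Q 33) f127) (T3 2 15 f57 (Q 61) (T0 7 18 (Q 29) (Q 29) (T3 3 22 (T0 9 23 (Q 37) (Q 37) (T2 5 23 (Q 33) (Q 33) (P 23))) (T0 9 23 (Q 37) (Q 37) (T2 5 23 (Q 33) (P 37) (P 23))) (T0 9 23 (T2 5 23 (Q 29) (P 37) (P 37)) (T2 5 23 (Q 29) (P 37) (P 37)) (T2 5 23 f127 (P 37) (P 23)))))))) (T0 5 13 (N 1183) (N 1435) (T3 2 15 (Q 41) (Q 23) (T0 7 18 (Q 29) (Q 29) (T3 3 22 (Q 41) (P 37) (P 37))))) (P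 9)))) (T0 3 8 (Q 9) (Q 9) (T2 2 9 (T0 5 13 (N 1287) (Q 29) (T2 3 14 (T2 4 19 (T2 5 24 (Q 73) (P 29) (P 29)) (P 29) (P 29)) (P 29) (P 29))) (Q 29) (P 9))) (T0 3 8 (T2 2 9 (T0 4 11 (Q 14) (Q 14) f128) (Q 14) (P 9)) (T2 2 9 f128 (P 14) (P 9)) (T2 2 9 (T0 5 13 (T3 2 13 (T2 3 14 (Q 21) (Q 21) (P 14)) (T2 3 14 (Q 21) (P 33) (P 14)) (T2 3 14 (T2 4 19 (T3 3 19 (T0 8 21 (N 399) (N 475) (P 21)) (Q 45) (T0 8 21 (T2 5 24 (Q 25) (Q 25) (T3 4 25 (Q 45) (Q 45) (P 25))) (P 45) (P 21))) (T3 3 19 (Q 29) (Q 29) (T0 8 21 (T3 4 25 (Q 45) (Q 45) (P 25)) (P 29) (P 21))) (T3 3 19 (T0 8 21 (T0 11 29 (Q 33) (P 53) (P 29)) (P 29) (P 21)) (Q 77) (P 19))) (P 33) (P 14))) (P 21) (P 21)) (P 14) (P 9)))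
def f130 : C := T3 1 8 (T3 1 9 (Q 29) (Q 29) (Q 9)) (Q 9) (Q 9)
def f131 : C := T2 3 16 (Q 17) (Q 17) (T3 2 17 (Q 21) (Q 21) (P 17))
def f132 : C := T3 1 12 (T3 1 13 (T3 1 14 (Q 17) (Q 17) (Q 29)) (Q 29) (Q 13)) (Q 13) (Q 13)
def f133 : C := T0 4 9 (T3 1 9 (Q 21) (Q 21) (T2 2 11 (Q 17) (Q 17) (T0 7 16 f131 f131 (T2 3 16 (T3 2 17 (N 1071) (N 1215) (P 17)) (T3 2 17 (N 1071) (N 1215) (P 17)) (T3 2 17 (T2 4 21 (T3 3 26 (Q 37) (Q 37) (T2 7 37 (Q 113) (P 53) (P 37))) (P 37) (P 21)) (T2 4 21 (T2 7 37 (Q 43) (P 53) (P 37)) (P 37) (P 21)) (P 17)))))) (T3 1 9 (Q 21) (Q 21) (T2 2 11 (Q 17) (Q 17) (T2 3 16 (Q 61) (Q 43) (T3 2 17 (T2 4 21 (Q 70) (P 37) (P 21)) (P 43) (P 17))))) (T3 1 9 (T3 1 10 (T0 5 11 (T0 9 20 (Q 21) (Q 21) (T3 2 21 (N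 1155) (N 1375) (Q 21))) (Q 53) (T2 2 11 (T3 1 11 f132 (Q 13) (Q 13)) (T3 1 11 (Q 17) (Q 13) (Q 13)) (T3 1 11 (T3 1 12 (T3 1 13 (T3 1 14 (T3 1 15 (T2 3 16 (Q 17) (Q 17) (T3 1 16 (T3 1 17 (Q 21) (Q 21) (Q 17)) (Q 17) (Q 17))) (Q 17) (Q 17)) (Q 17) (Q 17)) (Q 17) (Q 13)) (Q 13) (T0 6 13 (Q 46) (Q 37) (P 13))) (T0 6 13 (Q 46) (Q 37) (P 13)) (P 11)))) (T0 5 11 (Q 21) (Q 21) (T2 2 11 (Q 13) (Q 13) (P 11))) (T0 5 11 (T2 3 16 (Q 29) (Q 29) (T3 2 19 (T0 9 20 (Q 21) (Q 21) (T2 4 21 (Q 29) (Q 29) (P 21))) (T0 9 20 (Q 21) (P 29) (P 29)) (T0 9 20 (T2 4 21 (Q 38) (Q 37) (P 21)) (P 29) (P 29)))) (T2 3 16 (Q 29) (Q 29) (T3 2 19 (Q 53) (P 29) (P 29))) (T2 2 11 (T0 6 13 (Q 29) (Q 29) (P 13)) (T0 6 13 (Q 29) (P 50) (P 13)) (P 11)))) (T0 5 11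 (T2 3 16 (Q 29) (Q 29) (T0 9 20 (T2 4 21 (Q 38) (P 37) (P 21)) (P 29) (P 29))) (Q 29) (T2 2 11 (T0 6 13 (Q 29) (P 37) (P 13)) (P 29) (P 11))) (P 9))
def f134 : C := T0 3 7 (T3 1 7 (T3 1 8 (Q 17) (Q 17) (T2 2 11 (Q 17) (Q 17) (T0 5 12 (T3 2 15 (Q 17) (Q 17) (T0 7 17 (Q 37) (Q 22) (P 17))) (P 17) (P 17)))) (T2 2 11 (Q 17) (Q 17) (T0 5 12 (Q 37) (P 17) (P 17))) (T2 2 11 (T0 5 12 (T3 2 13 (Q 17) (Q 17) (P 13)) (T3 2 13 (Q 17) (Q 17) (P 13)) (T3 2 13 (T2 3 17 (T0 8 19 (Q 29) (Q 29) (T3 3 20 (T2 4 23 (Q 41) (P 29) (P 29)) (Q 41) (T2 4 23 (T0 11 26 (Q 29) (Q 29) (T2 5 29 (T0 14 33 (Q 41) (Q 41) (T3 5 33 (T2 6 35 (Q 54) (P 41) (P 41)) (Q 73) (P 33))) (P 41) (P 29))) (P 29) (P 29)))) (P 29) (P 17)) (T2 3 17 (T0 8 19 (Q 29) (Q 29) (T2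 4 23 (T0 11 26 (Q 29) (Q 29) (T2 5 29 (T0 14 33 (Q 41) (P 85) (P 33)) (P 41) (P 29))) (P 29) (P 29))) (P 29) (P 17)) (P 13))) (T0 5 12 (T3 2 13 (Q 17) (Q 17) (P 13)) (P 17) (P 17)) (T0 5 12 (T3 2 13 (T2 3 16 (T0 7 17 (T0 9 22 (Q 27) (Q 27) (P 22)) (P 22) (P 17)) (T0 7 17 (Q 27) (P 22) (P 17)) (T0 7 17 (T3 3 20 (T2 4 21 (Q 49) (Q 37) (P 21)) (T2 4 21 (Q 27) (Q 27) (P 21)) (T2 4 21 (T0 9 22 (T0 11 27 (T0 13 32 (Q 33) (Q 33) (Q 133)) (Q 86) (P 27)) (P 27) (P 22)) (Q 121) (P 21))) (P 22) (P 17))) (P 33) (P 13)) (P 17) (P 17)))) (T3 1 7 (Q 17) (Q 17) (T3 2 13 (T2 3 17 (T3 3 20 (T2 4 23 (Q 41) (P 29) (P 29)) (P 54) (P 54)) (P 29) (P 17)) (P 33) (P 13))) (T3 1 7 (T3 1 8 f133 (T0 4 9 (Q 17) (P 25) (P 9)) (T0 4 9 (T2 2 11 (T3 2 15 (T0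 7 16 (Q 17) (Q 17) (T2 3 17 (Q 41) (Q 41) (P 17))) (Q 53) (T0 7 16 (T2 3 17 (T3 3 22 (Q 23) (Q 23) (T0 10 23 (T2 4 23 (Q 37) (Q 29) (Q 29)) (P 30) (P 30))) (T3 3 22 (Q 23) (Q 23) (T0 10 23 (Q 29) (P 30) (P 23))) (P 17)) (P 30) (P 30))) (P 17) (P 17)) (P 25) (P 9))) (T0 7 16 (T2 3 17 (T0 10 23 (T2 4 23 (Q 37) (P 29) (P 29)) (P 30) (P 30)) (P 29) (P 17)) (P 30) (P 30)) (P 7))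
def f135 : C := T0 2 5 (T2 1 5 (T3 1 5 (T2 1 6 f53 (T0 5 13 (Q 21) (Q 21) (Q 13)) (T3 1 6 (T0 5 13 (Q 21) (Q 21) (T3 2 13 (Q 21) (Q 21) (P 13))) (T0 5 13 (Q 21) (Q 21) (P 13)) (P 6))) (O 2) (O 2)) (T3 1 5 (T3 1 6 (Q 21) (Q 21) (P 6)) (P 6) (O 2)) (T3 1 5 (T3 1 6 f129 (T0 3 8 (T2 2 9 (Q 25) (Q 14) (P 9)) (P 25) (P 25)) (P 6)) (P 6) (P 5))) (T2 1 5 (T3 1 5 (T2 1 6 (T2 2 13 (Q 21) (Q 21) (Q 13)) (Q 13) (T3 1 6 (T3 2 13 (Q 21) (Q 21) (P 13)) (P 13) (P 6))) (O 2) (O 2)) (Q 21) (T3 1 7 (T3 1 8 (T3 1 9 (Q 13) (Q 13) (Q 9)) (Q 9) (T2 2 9 (T2 3 14 (T2 4 19 (Q 73) (Q 29) (Q 38)) (P 33) (P 33)) (P 33) (P 9))) (Q 73) (P 21))) (T2 1 5 (T3 1 5 (T2 1 6 (T3 1 6 (T0 3 7 (Q 13) (Q 13) (T2 1 7 (T3 1 7 (T2 1 8 (T3 1 8 (Q 9) (O 2) (O 2)) (Q 9)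 f130) (O 2) (O 2)) (T3 1 7 f130 (Q 9) (O 2)) (T3 1 7 (T3 1 8 (T3 1 9 (T3 1 10 f79 (Q 21) (T2 2 13 (Q 21) (Q 21) (Q 13))) (T2 2 13 (Q 21) (Q 21) (Q 13)) (Q 9)) (Q 9) (T0 4 9 (T0 11 25 (N 875) (N 959) (Q 25)) (Q 25) (P 9))) (T0 4 9 (Q 57) (Q 25) (P 9)) (P 7)))) (O 2) (O 2)) (T3 1 6 (T0 3 7 (Q 13) (Q 13) (T3 1 7 (T3 1 8 (T3 1 9 (Q 13) (Q 13) (Q 9)) (Q 9) (T0 4 9 (Q 37) (P 25) (P 9))) (Q 37) (P 7))) (P 13) (O 2)) (T3 1 6 f134 (P 13) (P 6))) (O 2) (O 2)) (T0 3 7 (T3 1 7 (T3 1 8 (Q 17) (Q 17) (T0 5 12 (T3 2 15 (Q 17) (Q 17) (T0 7 17 (Q 37) (P 61) (P 17))) (P 17) (P 17))) (Q 37) (P 21)) (Q 17) (T0 4 9 (Q 21) (Q 21) (T3 1 10 (T0 5 11 (T0 9 20 (Q 21) (Q 21) (T3 2 21 (Q 53) (Q 53) (P 21))) (Q 53) (T3 1 11 (T3 1 12 (T3 1 13 (T3 1 14 (Q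 21) (Q 17) (Q 17)) (Q 17) (Q 13)) (Q 13) (T0 6 13 (Q 46) (P 37) (P 13))) (Q 46) (P 11))) (P 21) (P 21)))) (P 5))
def f136 : C := T3 1 7 (T2 1 8 (Q 43) (Q 43) (T3 1 8 (Q 43) (Q 43) (Q 8))) (O 2) (O 2)
def f137 : C := T3 1 7 (T3 1 8 (Q 43) (Q 43) (Q 8)) (Q 8) (O 2)
def f138 : C := T2 3 19 (Q 22) (Q 22) (T3 3 22 (Q 25) (Q 25) (Q 22))
def f139 : C := T1 6 19 (Q 43) (Q 43) (T2 3 19 (T3 3 22 (Q 46) (Q 46) (Q 22)) (T3 3 22 (Q 46) (Q 46) (Q 22)) (P 19))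
def f140 : C := T3 2 17 (Q 19) (Q 19) (T2 3 19 (Q 34) (Q 34) (Q 19))
def f141 : C := T0 9 23 (Q 34) (Q 34) (T3 3 25 (Q 34) (Q 34) (T0 11 28 (Q 34) (Q 34) (T1 9 28 (Q 33) (Q 33) (P 28))))
def f142 : C := T3 1 7 (T0 3 8 (T3 1 8 (N 24) (Q 19) (T0 4 11 (T0 5 14 (N 42) (Q 31) (T3 3 22 (N 66) (Q 25) (T0 9 25 (Q 31) (Q 31) (T2 4 25 (N 231) (N 231) (Q 25))))) (T3 3 22 (Q 25) (Q 25) (T2 4 25 (N 525) (N 756) (Q 25))) (T2 2 13 (Q 22) (Q 22) (T3 2 15 (T0 7 19 (Q 25) (Q 25) (T2 3 19 (N 120) (N 120) (Q 19))) (T0 7 19 (Q 25) (Q 25) (T2 3 19 (N 456) (N 576) (Q 19))) (T0 7 19 f138 f138 f139))))) (T3 1 8 (Q 19) (Q 19) (T2 2 13 (Q 22) (Q 22) (T3 2 15 (T2 3 19 (N 285) (N 405) (Q 19)) (T2 3 19 (N 741) (N 861) (Q 19)) f139))) (T3 1 8 (T3 1 9 (Q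 13) (Q 13) (T0 5 13 f140 f140 (T1 4 13 (N 120) (N 120) (T2 2 13 (T3 2 17 (Q 28) (Q 28) (T0 7 18 (Q 34) (Q 34) (T2 3 20 (T0 9 23 (N 120) (N 120) (T3 3 25 (Q 28) (Q 28) (T2 4 27 (Q 28) (Q 28) (Q 34)))) (Q 34) f141))) (T3 2 17 (Q 28) (Q 28) (T0 7 18 (Q 34) (Q 34) f141)) (P 13))))) (T0 5 13 (T2 3 19 (Q 34) (Q 34) (Q 19)) (T2 3 19 (Q 34) (Q 34) (Q 19)) (T1 4 13 (N 390) (N 510) (T2 2 13 (T0 7 18 (Q 34) (Q 34) (T2 3 20 (T0 9 23 (N 759) (N 879) (T2 4 27 (Q 28) (Q 28) (Q 34))) (Q 34) (T0 9 23 (Q 34) (Q 34) (Q 41)))) (T0 7 18 (Q 34) (Q 34) (T0 9 23 (Q 34) (Q 34) (Q 41))) (P 13)))) (P 8))) (T0 3 8 (T0 4 11 (T0 5 14 (Q 31) (Q 31) (T0 9 25 (Q 31) (Q 31) (T2 4 25 (N 825) (N 1056) (Q 25)))) (T2 4 25 (N 1350) (Q 58) (Q 25)) (T2 2 13 (Q 22)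 (Q 22) (T0 7 19 (Q 22) (Q 22) (T1 6 19 (Q 43) (Q 43) (T2 3 19 (Q 22) (Q 22) (P 19)))))) (T2 2 13 (Q 22) (Q 22) (T1 6 19 (Q 43) (Q 43) (T2 3 19 (Q 22) (P 51) (P 19)))) (P 8)) (P 7)
def f143 : C := T0 5 13 (Q 19) (Q 19) (T1 4 13 (N 455) (N 575) (P 13))
def f144 : C := T0 3 8 (Q 11) (Q 11) (T3 1 8 (Q 11) (Q 11) (P 8))
def f145 : C := T3 5 33 (Q 36) (Q 36) (T0 13 36 (Q 46) (Q 46) (Q 36))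
def f146 : C := T1 7 25 (Q 26) (Q 26) (T3 4 25 (Q 26) (Q 26) (T2 5 26 (Q 32) (Q 32) (P 26)))
def f147 : C := T3 4 25 (Q 26) (Q 26) (T2 5 26 (Q 37) (Q 37) (P 26))
def f148 : C := T0 9 25 (Q 26) (Q 26) (T1 7 25 (Q 26) (Q 26) (T2 5 26 (N 462) (N 462) (P 26)))
def f149 : C := T1 7 26 (Q 31) (Q 31) (T2 5 26 (Q 37) (Q 37) (P 26))
def f150 : C := T0 7 19 (Q 25) (Q 25) (T3 3 19 (Q 39) (Q 39) (P 19))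
def f151 : C := T0 4 11 (T1 3 11 (Q 31) (Q 26) (T3 2 13 (T3 3 20 (N 140) (N 385) (T0 9 25 (N 175) (N 455) f145)) (T0 9 25 (N 175) (N 630) (T0 13 36 (Q 46) (Q 46) (Q 36))) (T0 5 14 (T0 6 17 (Q 26) (Q 26) (T1 5 18 (Q 26) (Q 26) (T3 3 19 (Q 26) (Q 26) (T2 4 21 (N 42) (Q 32) f146)))) (T1 5 18 (Q 26) (Q 26) (T3 3 19 (Q 26) (Q 26) (T2 4 21 (Q 32) (Q 32) f146))) (T2 3 16 (T0 9 25 (N 336) (N 336) (Q 25)) (T0 9 25 (N 1050) (N 1386) (Q 25)) (T1 5 18 (T0 9 25 (Q 26) (Q 26) f147) (T0 9 25 (Q 26) (Q 26) f147) (T3 3 19 f148 f148 (T2 4 21 (T0 9 25 (Q 32) (Q 32) (T1 7 25 (Q 97) (Q 43) (T3 4 25 (N 231) (N 231) (P 25)))) (T0 9 25 (Q 32) (Q 32) (T1 7 25 (Q 37) (Q 37) (T3 4 25 (N 1375) (Q 32) (P 25)))) (T0 9 25 (T1 7 25 (Q 26) (Q 26) (T3 4 25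 (Q 26) (Q 26) (T2 5 26 (T1 9 32 (Q 37) (Q 37) (P 32)) (T1 9 32 (Q 37) (Q 37) (P 32)) (P 26)))) (T1 7 25 (Q 26) (Q 26) (T3 4 25 (Q 26) (Q 26) (T2 5 26 (T1 9 32 (Q 37) (Q 37) (P 32)) (T1 9 32 (Q 37) (P 89) (P 32)) (P 26)))) (T1 7 25 f147 f147 (T3 4 25 (T2 5 26 (Q 32) (Q 32) (P 26)) (T2 5 26 (Q 32) (Q 32) (P 26)) (P 25))))))))))) (T1 3 11 (Q 31) (Q 26) (T3 2 13 (Q 36) (Q 36) (T2 3 16 (Q 25) (Q 25) (T1 5 18 f147 (Q 58) (T3 3 19 (Q 47) (Q 47) (T2 4 21 (T1 7 25 (Q 69) (Q 43) (T3 4 25 (N 525) (N 756) (P 25))) (P 58) (P 58))))))) (T1 3 11 (T3 2 13 (Q 27) (Q 27) (T1 4 15 (T0 7 19 (Q 31) (Q 31) (T1 5 19 (T1 6 23 (T1 7 27 (Q 43) (Q 31) (Q 27)) (Q 27) (T0 10 27 (Q 31) (Q 31) (Q 27))) (T0 10 27 (Q 31) (Q 31) (Q 27)) (T3 3 19 (N 120) (N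 120) (P 19)))) (T0 7 19 (Q 31) (Q 31) (T3 3 19 (N 760) (N 880) (P 19))) (T2 3 16 (Q 19) (Q 19) (T0 7 19 (T3 4 25 (Q 26) (Q 26) f149) (T3 4 25 (Q 26) (Q 26) f149) (T3 3 19 (T1 7 26 (Q 27) (Q 27) (Q 26)) (T1 7 26 (Q 27) (Q 27) (Q 26)) (P 19)))))) (T3 2 13 (Q 27) (Q 27) (T2 3 16 (Q 19) (Q 19) (T0 7 19 f147 (T3 4 25 (Q 26) (Q 26) (Q 63)) (T3 3 19 (Q 26) (Q 26) (P 19))))) (T2 2 11 (T2 3 17 (Q 19) (Q 19) (T1 5 18 (Q 19) (Q 19) f150)) (T1 5 18 (Q 19) (Q 19) f150) (P 11)))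
def f152 : C := T2 5 26 (Q 28) (Q 28) (T3 3 28 (Q 31) (Q 31) (Q 28))
def f153 : C := T0 7 20 (Q 26) (Q 26) (T3 3 26 (Q 46) (Q 46) (Q 26))
def f154 : C := T0 11 32 (T0 12 35 (Q 91) (Q 41) (Q 41)) (Q 41) (Q 67)
def f155 : C := T3 3 25 (Q 26) (Q 26) (T2 5 26 (Q 43) (Q 43) (Q 26))
def f156 : C := T3 2 17 (Q 19) (Q 19) (T0 7 19 (Q 25) (Q 25) (Q 19))
def f157 : C := T0 4 11 (T2 2 11 (Q 17) (Q 17) (T0 5 14 (T2 3 16 (Q 17) (Q 17) (T0 6 17 (T3 2 17 f153 (Q 26) (T0 7 20 (T0 8 23 (T3 3 25 (Q 61) (Q 61) (T0 9 26 (T0 10 29 f154 (Q 67) (T3 4 33 (Q 61) (Q 58) (Q 58))) (T3 4 33 (Q 61) (Q 58) (Q 58)) (Q 26))) (Q 26) (T3 3 25 (Q 26) (Q 26) (T2 5 26 (Q 49) (Q 49) (Q 26)))) f155 (T2 4 21 (Q 43) (Q 43) f155))) (T3 2 17 (Q 37) (Q 26) (T2 4 21 (Q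 43) (Q 37) (T3 3 25 (Q 26) (Q 26) (T2 5 26 (Q 37) (Q 37) (Q 26))))) (T3 2 17 (Q 37) (Q 37) (P 17)))) (T2 3 16 (Q 17) (Q 17) (T3 2 17 (Q 37) (Q 37) (P 17))) (T1 5 16 (Q 17) (Q 17) (T2 3 16 (Q 28) (Q 28) (T3 2 17 (T2 4 21 (Q 28) (Q 28) (T1 7 22 (N 110) (N 935) (T0 9 25 (Q 28) (Q 28) (T1 8 25 (Q 26) (Q 26) (T2 5 26 (Q 28) (Q 28) (T3 3 26 (T1 9 28 (Q 36) (Q 36) (P 28)) (T1 9 28 (Q 36) (P 53) (P 28)) (P 26))))))) (T2 4 21 (Q 28) (Q 28) (T1 7 22 (N 110) (N 1045) (T0 9 25 (Q 28) (Q 28) (T1 8 25 (Q 26) (Q 26) (T2 5 26 (Q 28) (Q 28) (P 26)))))) (P 17)))))) (T2 2 11 (Q 17) (Q 17) (T1 5 16 (Q 17) (Q 17) (T2 3 16 (Q 28) (Q 28) (T3 2 17 (T2 4 21 (Q 28) (Q 28) (T1 7 22 (N 1020) (N 1020) (T1 8 25 (Q 26) (Q 26) (T2 5 26 (Q 28) (P 47) (P 47)))))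 (T2 4 21 (Q 28) (Q 28) (T1 7 22 (N 1130) (N 1130) (T1 8 25 (Q 26) (P 69) (P 69)))) (P 17))))) (T2 2 11 (T2 3 17 f156 f156 (T3 2 17 (T0 7 19 (Q 28) (Q 28) (Q 19)) (T0 7 19 (Q 28) (Q 28) (Q 19)) (P 17))) (T3 2 17 (Q 28) (Q 28) (P 17)) (P 11))
def f158 : C := T2 5 28 (Q 64) (Q 64) (T0 10 29 (T0 11 32 (T0 12 35 (Q 50) (Q 50) (Q 73)) (Q 67) (Q 73)) (Q 73) (Q 29))
def f159 : C := T2 5 28 (Q 29) (Q 29) (T3 4 29 (Q 52) (Q 52) (Q 29))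
def f160 : C := T0 8 23 (T0 9 26 (Q 38) (Q 38) (Q 55)) (Q 49) (Q 55)
def f161 : C := T0 6 17 (T0 7 20 (T0 8 23 (Q 36) (Q 26) (P 23)) (P 23) (P 23)) (P 23) (P 17)
def f162 : C := T2 2 11 (T0 5 14 (T3 2 15 (Q 40) (Q 23) (T0 6 17 (T2 3 17 (T0 7 20 (Q 29) (Q 29) (T2 4 23 (T2 5 29 (Q 43) (Q 43) (Q 29)) (Q 29) (Q 23))) (Q 52) (T0 7 20 (T3 3 22 (Q 23) (Q 23) (T0 8 23 (T0 9 26 f158 (Q 29) f159) f159 (Q 23))) (Q 23) (Q 23))) (T2 3 17 (Q 37) (Q 23) (Q 23)) (T2 3 17 (T3 3 22 (T2 4 23 (Q 31) (Q 31) (Q 23)) (Q 37) (T2 4 23 (Q 37) (Q 37) (Q 23))) (Q 23) (P 17)))) (T3 2 15 (Q 40) (Q 23) (T2 3 17 (Q 31) (Q 23) (P 17))) (T3 2 15 (T2 3 17 (T2 4 23 (T3 3 23 (Q 25) (Q 25) (Q 31)) (T3 3 23 (Q 25) (Q 25) (Q 31)) (T3 3 23 (T0 9 25 (Q 31) (Q 31) (Q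 25)) (Q 31) (Q 23))) (Q 40) (P 17)) (T2 3 17 (Q 31) (Q 23) (P 17)) (T1 5 16 (Q 17) (Q 17) (T2 3 17 (T1 7 22 (Q 23) (Q 23) (T3 3 22 (Q 31) (Q 31) (T2 4 23 (T0 9 25 (T2 5 29 (Q 31) (Q 31) (Q 59)) (T2 5 29 (Q 31) (Q 31) (Q 53)) (T1 8 25 (Q 29) (Q 29) (P 25))) (T0 9 25 (Q 59) (Q 53) (T1 8 25 (Q 29) (Q 29) (P 25))) (P 23)))) (P 23) (P 17))))) (T0 5 14 (T3 2 15 (Q 40) (Q 23) (T0 6 17 (T0 7 20 (T3 3 22 (Q 23) (Q 23) (T0 8 23 (T0 9 26 (T0 10 29 (Q 94) (Q 61) (Q 29)) (Q 29) (T3 4 29 (Q 52) (Q 52) (Q 29))) (T3 4 29 (Q 52) (Q 52) (Q 29)) (Q 23))) (Q 23) (Q 23)) (Q 23) (P 17))) (P 17) (P 17)) (T1 4 13 (T0 5 14 (T0 6 17 (T0 7 20 (Q 23) (Q 23) (T1 7 23 (Q 37) (Q 37) (Q 23))) (Q 37) (P 17)) (P 17) (P 17)) (T0 5 14 (Q 23) (P 17) (P 17)) (T0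 5 14 (T3 2 15 (T1 5 16 (Q 17) (Q 17) (T2 3 16 (T0 6 17 (T0 7 20 f160 (Q 55) (Q 40)) (Q 40) (P 17)) (T0 6 17 (T0 7 20 (T0 8 23 (Q 70) (Q 49) (Q 49)) (Q 43) (Q 40)) (Q 40) (P 17)) (P 16))) (T1 5 16 (Q 17) (Q 17) (T2 3 16 (T0 6 17 (T0 7 20 (Q 61) (P 23) (P 23)) (P 23) (P 17)) (Q 38) (P 16))) (T1 5 16 (T2 3 16 (N 112) (Q 17) f161) (T2 3 16 (Q 17) (Q 17) f161) (T2 3 16 (T0 6 17 (T0 7 20 (T3 3 22 (T0 8 23 (T0 9 26 (T2 5 27 (Q 61) (Q 38) (Q 38)) (Q 55) (Q 55)) (Q 55) (P 23)) (T0 8 23 (T0 9 26 (Q 82) (Q 55) (Q 52)) (Q 52) (P 23)) (Q 22)) (P 23) (P 23)) (P 23) (P 17)) (T0 6 17 (T0 7 20 (T3 3 22 (Q 38) (Q 38) (Q 22)) (P 23) (P 23)) (P 23) (P 17)) (P 16)))) (P 17) (P 17)))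
def f163 : C := T0 7 19 (Q 25) (Q 25) (T1 6 19 (Q 23) (Q 23) (P 19))
def f164 : C := T2 4 23 (T2 5 29 (Q 36) (Q 36) (Q 29)) (Q 29) (P 23)
def f165 : C := T3 1 8 (T3 1 9 (T3 1 10 (Q 11) (Q 11) (T0 4 11 (T0 5 14 (Q 31) (Q 31) (T3 2 19 (Q 31) (Q 31) (T0 9 25 (Q 31) (Q 31) f152))) (T3 2 19 (Q 31) (Q 31) f152) (T2 2 11 (Q 19) (Q 19) (P 11)))) (T0 4 11 (Q 37) (Q 28) (T2 2 11 (Q 19) (Q 19) (P 11))) (T1 3 10 (N 40) (Q 11) f157)) (T1 3 10 (Q 11) (Q 11) (T0 4 11 (T2 2 11 (Q 17) (Q 17) (T0 5 14 (T2 3 16 (Q 17) (Q 17) (T0 6 17 (T0 7 20 (T0 8 23 (T0 9 26 (T0 10 29 (T0 11 32 (Q 97) (Q 41) (Q 41)) (Q 41) (Q 58)) (Q 58) (Q 26)) (Q 26) (T2 5 26 (Q 49) (Q 49) (Q 26))) (T2 5 26 (Q 43) (Q 43) (Q 26)) (T2 4 21 (Q 43) (Q 43) (T2 5 26 (Q 43) (Q 43)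 (Q 26)))) (T2 4 21 (Q 43) (Q 37) (T2 5 26 (Q 37) (Q 37) (Q 26))) (P 17))) (P 17) (P 17))) (Q 17) (T2 2 11 (T2 3 17 (Q 25) (Q 25) (P 17)) (P 17) (P 11)))) (T1 3 10 (T0 4 11 (T0 5 14 (N 70) (Q 17) (T1 5 17 (Q 31) (Q 31) (Q 17))) (T1 5 17 (Q 31) (Q 31) (Q 17)) (T2 2 11 (N 280) (N 280) (P 11))) (Q 17) (T0 4 11 f162 (T2 2 11 (T3 2 15 (Q 25) (Q 25) (T1 5 16 (Q 17) (Q 17) (T2 3 17 (T1 7 22 (Q 23) (Q 23) (T3 3 22 (Q 25) (Q 25) (T2 4 23 (T1 8 25 (Q 29) (Q 29) (P 25)) (T1 8 25 (Q 29) (P 47) (P 25)) (P 23)))) (P 23) (P 17)))) (P 17) (P 17)) (T2 2 11 (T1 4 13 (Q 30) (Q 30) (T3 2 15 (T1 5 16 (Q 17) (Q 17) (T2 3 17 f163 f163 (P 17))) (T1 5 16 (Q 17) (Q 17) (T2 3 17 f163 (P 23) (P 17))) (T1 5 16 (T2 3 17 (Q 30) (P 23) (P 17)) (T2 3 17 (Q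 30) (P 23) (P 17)) (T2 3 17 (T0 7 19 (T1 6 19 (T2 4 23 (Q 30) (Q 29) (P 23)) (T2 4 23 (Q 30) (Q 29) (P 23)) (T1 7 22 (T3 3 22 (N 198) (N 578) f164) (T3 3 22 (N 578) (N 578) f164) (T3 3 22 (T2 4 23 (Q 25) (Q 25) (P 23)) (T2 4 23 (Q 25) (Q 25) (P 23)) (P 22)))) (P 30) (P 30)) (P 23) (P 17))))) (P 17) (P 11))))
def f166 : C := T3 1 10 (Q 11) (Q 11) (T2 2 11 (Q 19) (Q 19) (P 11))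
def f167 : C := T0 5 13 (Q 19) (Q 19) (T1 4 13 (Q 23) (Q 23) (P 13))
def f168 : C := T3 2 17 (Q 19) (Q 19) (T1 6 19 (Q 29) (Q 29) (P 19))
def f169 : C := T2 3 17 (Q 18) (Q 18) (T3 2 17 (Q 18) (Q 18) (P 17))
def f170 : C := T3 1 9 (T1 3 10 (Q 11) (Q 11) (T3 1 10 (T2 2 11 (T3 1 11 (Q 13) (Q 13) (T0 5 13 (N 330) (N 330) (Q 13))) (T3 1 11 (Q 13) (Q 13) (T0 5 13 (N 390) (N 720) (Q 13))) (T3 1 11 (T3 1 12 (T0 5 13 (Q 16) (Q 16) (T3 1 13 (Q 16) (Q 16) (Q 13))) (T0 5 13 (Q 16) (Q 16) (Q 13)) (T0 5 13 (Q 16) (Q 16) (Q 13))) (T0 5 13 (Q 16) (Q 16) (Q 13)) (P 11))) (T2 2 11 (T0 5 13 (N 429) (N 759) (Q 13)) (T0 5 13 (N 819) (N 1149) (Q 13)) (P 11)) (T2 2 11 (T0 5 13 (T2 3 17 (T3 2 19 (N 351) (N 351) (Q 19)) (Q 40) (T3 2 19 (Q 40) (Q 40)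 (Q 19))) (T2 3 17 (T3 2 19 (N 408) (N 408) (Q 19)) (Q 29) (T3 2 19 (Q 34) (Q 29) (Q 19))) (T1 4 13 (Q 23) (Q 23) (P 13))) (T0 5 13 (T3 2 19 (Q 40) (Q 40) (Q 19)) (Q 50) (T1 4 13 (Q 23) (Q 23) (P 13))) (P 11)))) (T1 3 10 (Q 11) (Q 11) (T2 2 11 f167 f167 (P 11))) (T1 3 10 (T2 2 11 (Q 18) (Q 18) (P 11)) (T2 2 11 (Q 18) (Q 18) (P 11)) (T2 2 11 (T0 5 13 (T1 5 16 (Q 17) (Q 17) (T2 3 17 f168 (T3 2 17 (Q 19) (Q 19) (T1 6 19 (Q 29) (P 35) (P 19))) (T3 2 17 (T1 6 19 (N 858) (N 858) (P 19)) (Q 35) (P 17)))) (T1 5 16 (Q 17) (Q 17) (T2 3 17 f168 (P 29) (P 29))) (T1 4 13 f169 f169 (P 13))) (T0 5 13 (T1 5 16 (Q 17) (Q 17) (T3 2 17 (T1 6 19 (N 1105) (N 1105) (P 19)) (Q 35) (P 17))) (T1 5 16 (Q 17) (P 29) (P 29)) (T1 4 13 (T3 2 17 (Q 18) (Q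 18) (P 17)) (T3 2 17 (Q 18) (Q 18) (P 17)) (P 13))) (P 11)))
def f171 : C := T0 6 17 (T0 7 20 (Q 22) (P 23) (P 23)) (P 23) (P 17)
def f172 : C := T3 1 7 (T0 3 8 f165 (T3 1 8 (T3 1 9 f166 (T2 2 11 (Q 19) (Q 19) (P 11)) (T1 3 10 (Q 11) (Q 11) (T2 2 11 (Q 19) (Q 19) (P 11)))) (T1 3 10 (Q 11) (Q 11) (T2 2 11 (Q 19) (P 17) (P 11))) (T1 3 10 (T2 2 11 (N 693) (N 973) (P 11)) (Q 17) (T2 2 11 (T1 4 13 (Q 30) (Q 30) (T3 2 15 (T1 5 16 (Q 17) (Q 17) (T2 3 17 (T1 6 19 (Q 23) (Q 23) (P 19)) (Q 35) (P 17))) (T1 5 16 (Q 17) (Q 17) (T2 3 17 (T1 6 19 (Q 23) (P 54) (P 19)) (P 23) (P 17))) (P 30))) (P 17) (P 11)))) (T3 1 8 f170 (T1 3 10 (T2 2 11 (Q 18) (Q 18) (P 11)) (T2 2 11 (Q 18) (P 17) (P 11)) (T2 2 11 (T0 5 13 (T1 5 16 (Q 17) (Q 17) (T2 3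 17 (T1 6 19 (Q 29) (Q 29) (P 19)) (T1 6 19 (Q 29) (P 35) (P 19)) (P 17))) (T1 5 16 (Q 17) (P 42) (P 42)) (T1 4 13 (T2 3 17 (Q 18) (Q 18) (P 17)) (T2 3 17 (Q 18) (Q 18) (P 17)) (P 13))) (P 17) (P 11))) (P 8))) (T0 3 8 (T1 3 10 (T0 4 11 (T0 5 14 (Q 17) (Q 17) (T1 5 17 (Q 31) (Q 31) (Q 17))) (T1 5 17 (Q 31) (Q 31) (Q 17)) (T2 2 11 (N 440) (N 720) (P 11))) (Q 17) (T0 4 11 (T2 2 11 (T0 5 14 (T0 6 17 (T2 3 17 (T0 7 20 (Q 29) (Q 29) (Q 43)) (Q 29) (T0 7 20 (T0 8 23 (T0 9 26 (T2 5 28 (Q 64) (Q 64) (T0 10 29 (Q 85) (Q 64) (Q 29))) (Q 29) (Q 29)) (Q 29) (Q 23)) (Q 23) (Q 23))) (T2 3 17 (Q 37) (Q 23) (Q 23)) (T2 3 17 (T2 4 23 (Q 37) (Q 29) (Q 23)) (Q 23) (P 17))) (T2 3 17 (Q 31) (Q 23) (P 17)) (T1 5 16 (Q 17) (Q 17) (T2 3 17 (T1 7 22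 (Q 23) (Q 23) (T2 4 23 (T0 9 25 (T2 5 29 (Q 31) (Q 31) (P 29)) (Q 78) (T1 8 25 (Q 29) (Q 29) (P 25))) (P 29) (P 23))) (P 23) (P 17)))) (T0 5 14 (T0 6 17 (Q 50) (Q 23) (P 17)) (P 17) (P 17)) (T1 4 13 (T0 5 14 (T0 6 17 (T0 7 20 (Q 23) (Q 23) (Q 43)) (Q 37) (P 17)) (P 17) (P 17)) (Q 23) (T0 5 14 (T1 5 16 (T2 3 16 (Q 17) (Q 17) f161) (T2 3 16 (Q 17) (Q 17) (T0 6 17 (T0 7 20 (T0 8 23 (Q 36) (P 29) (P 23)) (P 23) (P 23)) (P 23) (P 17))) (T2 3 16 f171 f171 (P 16))) (P 17) (P 17)))) (T2 2 11 (Q 36) (P 17) (P 17)) (T2 2 11 (T1 4 13 (Q 30) (P 36) (P 36)) (P 17) (P 11)))) (T1 3 10 (T2 2 11 (N 1133) (N 1413) (P 11)) (Q 17) (P 30)) (P 8)) (P 7)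
def f173 : C := T1 5 18 (Q 19) (Q 19) (T0 7 19 (Q 25) (Q 25) (P 19))
def f174 : C := T3 1 6 (T1 2 7 (T3 1 7 f144 (T0 3 8 (Q 11) (Q 11) (P 8)) (T0 3 8 f151 (T1 3 11 (T3 2 13 (Q 27) (Q 27) (T1 4 15 (T1 5 19 (T1 6 23 (Q 43) (Q 27) (Q 27)) (Q 27) (Q 27)) (Q 27) (T2 3 16 (Q 19) (P 27) (P 27)))) (T3 2 13 (Q 27) (Q 27) (T2 3 16 (Q 19) (P 27) (P 27))) (T2 2 11 (T2 3 17 (Q 19) (Q 19) (T1 5 18 (Q 19) (Q 19) (T3 3 19 (Q 39) (P 51) (P 19)))) (T1 5 18 (Q 19) (Q 19) (Q 83)) (P 11))) (P 8))) (T3 1 7 f144 (T0 3 8 (Q 11) (Q 11) (P 8)) (T0 3 8 (T0 4 11 (T3 2 13 (Q 67) (Q 46) (T0 5 14 (Q 32) (Q 32) (T2 3 16 (Q 39) (Q 39) (T3 3 19 (T0 9 25 (Q 26) (P 39) (P 39)) (P 32) (P 32))))) (T3 2 13 (Q 36) (Q 36) (Q 39)) (T2 2 11 (T2 3 17 (Q 19) (Q 19) f150)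 (Q 39) (P 11))) (T2 2 11 (T2 3 17 (Q 19) (Q 19) (Q 46)) (Q 39) (P 11)) (P 8))) f172) (T1 2 7 (T0 3 8 (T0 4 11 (T1 3 11 (Q 31) (Q 26) (T0 5 14 (T0 6 17 (Q 26) (Q 26) (Q 37)) (Q 37) (T2 3 16 (T0 9 25 (Q 39) (Q 39) (Q 25)) (Q 43) (T1 5 18 (Q 37) (Q 37) (T2 4 21 (T0 9 25 (Q 32) (Q 32) (T1 7 25 (Q 97) (P 43) (P 25))) (P 37) (P 37)))))) (T1 3 11 (Q 31) (Q 26) (T2 3 16 (Q 25) (Q 25) (T1 5 18 (Q 37) (P 80) (P 80)))) (T1 3 11 (T1 4 15 (T0 7 19 (Q 31) (Q 31) (T1 5 19 (T1 6 23 (T1 7 27 (Q 43) (Q 31) (Q 27)) (Q 27) (Q 31)) (Q 31) (P 19))) (T0 7 19 (Q 31) (Q 31) (P 19)) (T2 3 16 (Q 19) (Q 19) (T0 7 19 f149 (P 49) (P 19)))) (T2 3 16 (Q 19) (Q 19) (T0 7 19 (Q 37) (P 49) (P 19))) (T2 2 11 (T2 3 17 (Q 19) (Q 19) f173) f173 (P 11)))) (T1 3 11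 (T1 4 15 (Q 43) (P 19) (P 19)) (P 19) (P 19)) (P 8)) (T0 3 8 (T0 4 11 (T0 5 14 (Q 32) (Q 32) (T2 3 16 (Q 39) (P 43) (P 32))) (P 25) (P 25)) (P 19) (P 8)) (P 7)) (P 6)
def f175 : C := T0 6 17 (T0 7 20 (T0 8 23 (Q 36) (P 26) (P 23)) (P 23) (P 23)) (P 23) (P 17)
def f176 : C := T0 3 8 (T3 1 8 (T3 1 9 (T3 1 10 (Q 11) (Q 11) (T0 4 11 (Q 31) (Q 31) (P 11))) (T0 4 11 (Q 31) (Q 28) (P 11)) (T1 3 10 (Q 11) (Q 11) (T0 4 11 (T0 5 14 (T0 6 17 (T3 2 17 (Q 46) (Q 26) (T0 7 20 (T0 8 23 (T3 3 25 (Q 61) (Q 61) (T0 9 26 (T0 10 29 (T0 11 32 (Q 91) (Q 41) (Q 67)) (Q 61) (Q 61)) (Q 61) (Q 26))) (Q 26) (Q 26)) (Q 26) (Q 26))) (T3 2 17 (Q 37) (Q 26) (Q 26)) (T3 2 17 (Q 37) (Q 26) (P 17))) (T3 2 17 (Q 31) (Q 26) (P 17)) (T1 5 16 (Q 17) (Q 17) (T3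 2 17 (T1 7 22 (N 374) (N 1309) (T0 9 25 (Q 28) (Q 28) (T1 8 25 (Q 26) (Q 26) (T3 3 26 (T1 9 28 (Q 36) (P 81) (P 28)) (T1 9 28 (Q 36) (P 53) (P 28)) (P 26))))) (P 26) (P 17)))) (Q 36) (P 11)))) (T1 3 10 (Q 11) (Q 11) (T0 4 11 (T0 5 14 (T0 6 17 (T0 7 20 (T0 8 23 (T0 9 26 (T0 10 29 (T0 11 32 (Q 91) (Q 41) (Q 41)) (Q 41) (Q 41)) (Q 41) (Q 26)) (Q 26) (Q 26)) (Q 26) (Q 26)) (Q 26) (P 17)) (P 17) (P 17)) (P 17) (P 11))) (T1 3 10 (T0 4 11 (Q 31) (Q 31) (P 11)) (Q 17) (T0 4 11 (T1 4 13 (T0 5 14 (T0 6 17 (Q 66) (Q 37) (P 17)) (P 17) (P 17)) (T0 5 14 (Q 23) (P 17) (P 17)) (T0 5 14 (T3 2 15 (T1 5 16 (Q 17) (Q 17) (P 16)) (T1 5 16 (Q 17) (Q 17) (P 16)) (T1 5 16 f175 f175 (P 16))) (P 17) (P 17))) (P 17) (P 11)))) (Q 11) (T3 1 8 (T3 1 9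 (T1 3 10 (Q 11) (Q 11) (T3 1 10 (T3 1 11 (T3 1 12 (Q 16) (Q 16) (T0 5 13 (Q 16) (Q 16) (Q 13))) (T0 5 13 (Q 16) (Q 16) (Q 13)) (P 11)) (P 11) (P 11))) (P 11) (P 11)) (P 11) (P 8))
def f177 : C := T3 1 6 (T1 2 7 (T3 1 7 f144 (T0 3 8 (Q 11) (Q 11) (P 8)) (T0 3 8 (T0 4 11 (T1 3 11 (Q 31) (Q 26) (T3 2 13 (T3 3 20 (N 539) (N 539) (T0 9 25 (N 819) (N 819) f145)) (T0 9 25 (N 994) (N 994) (T0 13 36 (Q 46) (Q 46) (Q 36))) (Q 26))) (T1 3 11 (Q 31) (Q 26) (T3 2 13 (Q 36) (Q 36) (P 26))) (T1 3 11 (T3 2 13 (Q 27) (Q 27) (T1 4 15 (T0 7 19 (Q 31) (Q 31) (T1 5 19 (T1 6 23 (T1 7 27 (Q 43) (Q 31) (Q 27)) (Q 27) (T0 10 27 (Q 31) (P 46) (P 27))) (T0 10 27 (Q 31) (P 46) (P 27)) (T3 3 19 (N 1064) (N 1184) (P 19)))) (T0 7 19 (Q 31) (Q 31) (T3 3 19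 (N 1064) (N 1184) (P 19))) (T0 7 19 (T3 4 25 (Q 26) (Q 26) (T1 7 26 (Q 31) (Q 31) (P 26))) (T3 4 25 (Q 26) (Q 26) (T1 7 26 (Q 31) (P 41) (P 26))) (T3 3 19 (T1 7 26 (Q 27) (P 41) (P 26)) (T1 7 26 (Q 27) (P 41) (P 26)) (P 19))))) (T3 2 13 (Q 27) (Q 27) (P 26)) (P 11))) (T1 3 11 (T3 2 13 (Q 27) (Q 27) (T1 4 15 (Q 51) (P 27) (P 27))) (Q 27) (P 11)) (P 8))) (T3 1 7 (Q 11) (Q 11) (T0 4 11 (T3 2 13 (Q 67) (Q 46) (Q 26)) (P 36) (P 11))) (T3 1 7 f176 (T1 3 10 (T0 4 11 (Q 31) (P 36) (P 11)) (Q 17) (T1 4 13 (T0 6 17 (Q 66) (P 37) (P 17)) (P 36) (P 36))) (P 7))) (T1 2 7 (T0 3 8 (T0 4 11 (T1 3 11 (Q 31) (Q 26) (Q 26)) (Q 31) (T1 4 15 (T0 7 19 (Q 31) (Q 31) (T1 5 19 (T1 6 23 (T1 7 27 (Q 43) (P 31) (P 31)) (P 31) (P 31)) (P 31) (P 19))) (P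 31) (P 31))) (Q 43) (P 8)) (Q 26) (P 7)) (P 6)
def f178 : C := T1 7 25 (Q 29) (Q 29) (T2 6 25 (Q 39) (Q 39) (P 25))
def f179 : C := T0 5 14 (Q 15) (Q 15) (T2 3 14 (Q 15) (Q 15) (T3 2 15 (T2 5 23 (Q 25) (Q 25) (T3 3 23 (Q 25) (Q 25) (P 23))) (T2 5 23 (Q 25) (Q 25) (P 23)) (P 15)))
def f180 : C := T0 7 19 (Q 23) (Q 23) (T1 5 19 (T1 6 23 (Q 43) (Q 43) (Q 23)) (Q 23) (P 19))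
def f181 : C := T3 1 8 (T2 2 9 (Q 11) (Q 11) (T3 1 9 (T3 1 10 (T0 4 11 (N 140) (N 140) (T3 1 11 (Q 25) (Q 25) (Q 11))) (T0 4 11 (N 308) (N 448) (Q 11)) (T0 4 11 (T0 5 14 (Q 29) (Q 29) (T1 5 18 (T1 8 29 (Q 37) (Q 37) (Q 29)) (Q 29) (T3 2 19 (T0 9 25 (Q 29) (Q 29) (Q 25)) (Q 29) (T0 9 25 (Q 29) (Q 29) f178)))) (T1 5 18 (Q 102) (Q 29) (T3 2 19 (Q 25) (Q 25) f178)) (T1 3 11 (T1 4 15 (Q 19) (Q 19) (T0 7 19 (T0 11 30 (Q 37) (Q 37) (Q 30)) (Q 30) (Q 30))) (T0 7 19 (Q 37) (Q 30) (Q 30)) (P 11)))) (T0 4 11 (T0 5 14 (Q 29) (Q 29) (T1 5 18 (Q 37) (Q 29) (T0 9 25 (Q 29) (Q 29) f178))) (T1 5 18 (Q 37) (Q 29) (Q 47)) (T1 3 11 (T1 4 15 (Q 19) (Q 19) (T0 7 19 (T0 11 30 (Q 37) (Q 37) (Q 30)) (Q 30) (P 19))) (T0 7 19 (Q 37) (Q 30) (P 19)) (P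 11))) (P 9))) (T2 2 9 (Q 11) (Q 11) (P 9)) (T2 2 9 (T0 4 11 (T1 3 11 (Q 15) (Q 15) f179) (T1 3 11 (Q 15) (Q 15) (T2 3 14 (Q 15) (Q 15) (T3 2 15 (Q 25) (Q 25) (P 15)))) (T1 3 11 (T2 3 14 (Q 15) (Q 15) (T1 4 15 f180 (T0 7 19 (Q 23) (Q 23) (P 19)) (T3 2 15 (Q 19) (Q 19) (P 15)))) (T2 3 14 (Q 15) (Q 15) (T3 2 15 (Q 19) (Q 19) (P 15))) (P 11))) (T0 4 11 (T1 3 11 (Q 15) (Q 15) (T0 5 14 (Q 15) (Q 15) (T3 2 15 (T3 3 23 (Q 25) (Q 25) (P 23)) (P 23) (P 15)))) (T1 3 11 (Q 15) (Q 15) (T3 2 15 (Q 25) (P 23) (P 15))) (T1 3 11 (T1 4 15 f180 (Q 23) (T3 2 15 (Q 19) (P 23) (P 15))) (T3 2 15 (Q 19) (P 23) (P 15)) (P 11))) (P 9))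
def f182 : C := T1 4 15 (T1 5 19 (Q 51) (Q 23) (P 19)) (P 19) (P 19)
def f183 : C := T1 5 19 (Q 43) (Q 43) (T2 4 19 (Q 58) (Q 43) (P 19))
def f184 : C := T1 7 27 (Q 28) (Q 28) (T0 11 28 (Q 41) (P 51) (P 28))
def f185 : C := T0 7 18 (Q 29) (Q 29) (T1 5 18 (Q 33) (Q 29) (P 18))
def f186 : C := T1 7 25 (Q 29) (Q 29) (T2 6 25 (Q 34) (Q 34) (P 25))
def f187 : C := T1 7 27 (Q 37) (Q 37) (T0 11 29 (Q 85) (Q 37) (Q 29))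
def f188 : C := T1 3 11 (T0 5 13 (T1 4 15 (T1 5 19 (T3 2 19 (T0 8 21 (N 76) (N 76) (Q 21)) (Q 29) (T0 8 21 (T1 6 23 f187 (T0 11 29 (Q 77) (Q 37) (Q 29)) (T3 3 28 (Q 69) (Q 66) (T0 11 29 (T0 14 37 (T3 4 37 (N 148) (N 684) (T1 11 42 (Q 46) (Q 46) (Q 65))) (Q 69) (T3 4 37 (Q 69) (Q 65) (Q 37))) (Q 66) (Q 29)))) (Q 29) (Q 21))) (T3 2 19 (Q 50) (Q 29) (T0 8 21 (T3 3 28 (Q 61) (Q 61) (T0 11 29 (T0 14 37 (Q 65) (Q 61) (T3 4 37 (Q 61) (Q 61) (Q 37))) (Q 66) (Q 29))) (Q 29) (Q 21))) (T3 2 19 (T0 8 21 (Q 61) (Q 50) (Q 21)) (T0 8 21 (Q 61) (Q 29) (Q 21)) (P 19))) (T3 2 19 (T0 8 21 (Q 53) (Q 50) (Q 21)) (T0 8 21 (Q 49) (Q 29) (Q 21)) (P 19)) (T2 4 17 (Q 19) (P 30) (P 30))) (T1 4 15 (T1 5 19 (Q 21) (Q 21) (T3 2 19 (Q 21) (Q 21) (P 19)))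 (Q 34) (T2 4 17 (Q 19) (P 30) (P 30))) (T2 3 13 (T1 4 15 (T1 5 19 (T2 5 22 (Q 23) (Q 23) (T1 6 23 (Q 28) (Q 28) (Q 23))) (Q 23) (T3 2 19 (Q 23) (Q 23) (P 19))) (T3 2 19 (Q 23) (Q 23) (P 19)) (T0 7 18 (Q 19) (Q 19) (T3 2 19 (T2 5 22 (Q 23) (P 31) (P 31)) (T2 5 22 (Q 23) (P 31) (P 31)) (P 19)))) (T1 4 15 (T1 5 19 (T1 6 23 (Q 28) (Q 28) (Q 23)) (Q 23) (Q 31)) (Q 31) (T0 7 18 (Q 19) (P 31) (P 31))) (P 13))) (T0 5 13 (T2 4 17 (Q 19) (P 30) (P 30)) (T2 4 17 (Q 19) (P 30) (P 30)) (T2 3 13 (T0 7 18 (Q 19) (Q 19) (T3 2 19 (Q 41) (Q 41) (P 19))) (T0 7 18 (Q 19) (P 31) (P 31)) (P 13))) (P 11)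
def f189 : C := T3 1 10 (T1 3 11 (T3 1 11 (T3 1 12 (T3 1 13 (N 220) (N 220) (Q 13)) (Q 13) (Q 13)) (Q 13) (T0 5 13 (T1 4 15 (Q 21) (Q 21) (T0 8 21 (T1 7 26 (Q 41) (Q 41) (T0 11 29 (T0 14 37 (Q 41) (Q 41) (Q 45)) (Q 45) (Q 45))) (Q 45) (T3 2 21 (Q 45) (Q 45) (Q 21)))) (Q 34) (T2 3 13 (Q 23) (Q 23) (P 13)))) (T3 1 11 (T3 1 12 (T3 1 13 (N 260) (N 480) (Q 13)) (Q 13) (Q 13)) (Q 13) (T0 5 13 (T0 8 21 (T0 11 29 (Q 85) (Q 37) (Q 37)) (Q 37) (T3 2 21 (Q 37) (Q 37) (Q 21))) (Q 34) (T2 3 13 (Q 23) (Q 23) (P 13)))) (T3 1 11 (T3 1 12 (T0 5 13 (Q 29) (Q 29) (T2 3 13 (N 420) (N 420) (T3 1 13 (T3 1 14 (Q 18) (Q 18) f185) f185 (P 13)))) (T0 5 13 (Q 25) (Q 25) (T2 3 13 (N 455) (N 875) (P 13))) (T0 5 13 (T1 5 18 (Q 37) (Q 29) (T0 8 21 (T3 2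 23 (Q 25) (Q 25) (T1 7 25 (Q 37) (Q 37) (Q 25))) (Q 29) (T3 2 23 (Q 29) (Q 29) f186))) (T1 5 18 (Q 37) (Q 29) (T3 2 23 (Q 29) (Q 29) (Q 47))) (T2 3 13 (T1 5 18 (N 385) (N 385) (Q 18)) (T1 5 18 (N 385) (N 385) (Q 18)) (P 13)))) (T0 5 13 (T1 5 18 (Q 37) (Q 29) (T0 8 21 (T1 7 25 (Q 37) (Q 37) (Q 25)) (Q 29) f186)) (Q 34) (T2 3 13 (Q 23) (Q 23) (P 13))) (P 11))) (T1 3 11 (T0 5 13 (T1 4 15 (Q 21) (Q 21) (T0 8 21 (Q 41) (Q 41) (Q 21))) (Q 21) (T2 3 13 (Q 23) (Q 23) (P 13))) (T0 5 13 (T0 8 21 (Q 41) (Q 37) (Q 21)) (Q 21) (T2 3 13 (Q 23) (Q 23) (P 13))) (P 11)) f188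
def f190 : C := T1 4 15 (T1 5 19 (Q 28) (Q 23) (P 19)) (P 19) (P 19)
def f191 : C := T2 2 9 (T3 1 9 (T3 1 10 (Q 11) (Q 11) (T1 3 11 (T1 4 15 (N 45) (Q 19) (T3 2 19 (Q 23) (Q 23) (Q 19))) (T3 2 19 (Q 23) (Q 23) (Q 19)) (P 11))) (T1 3 11 (Q 19) (Q 19) (P 11)) (T1 3 11 (T0 5 13 (Q 19) (Q 19) (T2 3 14 (T1 4 15 f183 (Q 34) (T3 2 17 (T2 4 19 (Q 26) (Q 26) (P 19)) (T2 4 19 (Q 26) (Q 26) (P 19)) (T0 7 18 (Q 19) (Q 19) (T2 4 19 (T0 9 23 (N 304) (N 304) (T2 5 24 (T3 3 25 (Q 26) (Q 26) (T1 7 26 (T2 6 29 (Q 49) (P 34) (P 34)) (T2 6 29 (Q 41) (P 34) (P 34)) (P 26))) (P 34) (P 34))) (P 34) (P 19))))) (T1 4 15 (T1 5 19 (Q 33) (Q 33) (P 19)) (P 19) (P 19)) (T1 4 15 (T3 2 17 (T1 5 19 (Q 28) (Q 23) (P 19)) (T1 5 19 (Q 28) (Q 23) (P 19)) (T0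 7 18 (Q 19) (Q 19) (T1 5 19 (T0 9 23 (T1 6 23 (N 184) (N 360) (T0 16 41 (Q 50) (Q 50) (Q 41))) (Q 41) (T1 6 23 (T2 5 23 (Q 28) (Q 28) (T3 3 25 (Q 28) (Q 28) f184)) (T2 5 23 (Q 28) (Q 28) (T3 3 25 (Q 28) (Q 28) (T0 11 28 (Q 41) (P 51) (P 28)))) (T2 5 23 (Q 28) (Q 28) (P 23)))) (T0 9 23 (Q 42) (Q 41) (T2 5 23 (Q 28) (Q 28) (P 23))) (P 19)))) (P 19) (P 19)))) (T0 5 13 (Q 19) (Q 19) (T2 3 14 (T3 2 17 (T2 4 19 (Q 26) (Q 26) (P 19)) (P 26) (P 26)) (P 19) (P 19))) (P 11))) (T3 1 9 (T3 1 10 (Q 11) (Q 11) (T1 3 11 (Q 23) (Q 23) (P 11))) (Q 19) (T1 3 11 (T0 5 13 (Q 19) (Q 19) (T1 4 15 (T3 2 17 (T1 5 19 (Q 28) (Q 23) (P 19)) (T1 5 19 (Q 28) (Q 23) (P 19)) (T0 7 18 (Q 19) (Q 19) (T1 5 19 (T0 9 23 (Q 50) (Q 41) (T1 6 23 (T3 3 25 (Q 28)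 (Q 28) (T1 7 27 (Q 28) (P 59) (P 59))) (P 77) (P 23))) (T0 9 23 (Q 42) (P 77) (P 23)) (P 19)))) (P 19) (P 19))) (P 19) (P 11))) (T3 1 9 f189 (T1 3 11 (T0 5 13 (T1 4 15 (T1 5 19 (T0 8 21 (T1 6 23 f187 (T0 11 29 (Q 73) (Q 37) (Q 29)) (Q 46)) (Q 29) (Q 21)) (Q 46) (P 19)) (P 19) (P 19)) (T1 4 15 (T1 5 19 (Q 21) (Q 21) (P 19)) (P 19) (P 19)) (T2 3 13 f190 f190 (P 13))) (P 19) (P 11)) (P 9))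
def f192 : C := T2 4 19 (Q 20) (Q 20) (T3 3 20 (Q 35) (Q 27) (P 20))
def f193 : C := T2 2 9 (T0 4 11 (T1 3 11 (T3 2 13 (T0 5 14 (T1 4 15 (N 585) (Q 20) (P 15)) (Q 34) (T2 3 14 (Q 15) (Q 15) (P 14))) (Q 20) (T0 5 14 (T2 3 14 (T1 4 15 (Q 20) (Q 20) (P 15)) (T1 4 15 (Q 20) (Q 19) (P 15)) (T1 4 15 (T0 6 17 (T1 5 19 (T0 7 20 (Q 32) (Q 32) (P 20)) (T0 7 20 (Q 32) (Q 23) (P 20)) (T3 3 19 (N 405) (N 405) (P 19))) (P 20) (P 20)) (T0 6 17 (T3 3 19 (N 918) (N 918) (P 19)) (P 20) (P 20)) (P 15))) (P 20) (P 20))) (P 15) (P 15)) (T1 3 11 (T3 2 13 (T2 3 14 (Q 15) (Q 15) (P 14)) (P 20) (P 20)) (P 15) (P 15)) (T1 3 11 (T3 2 13 (T2 3 14 (T1 4 15 (T0 7 19 (T1 5 19 (N 247) (Q 20) (T2 4 19 (N 247) (N 806) (T3 3 20 (N 266) (N 266) (P 20)))) (T1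 5 19 (Q 20) (Q 20) (T2 4 19 (N 806) (N 806) (T3 3 20 (N 420) (N 686) (P 20)))) (T1 5 19 f192 f192 (T2 4 19 (T3 3 20 (Q 35) (Q 27) (P 20)) (T3 3 20 (Q 35) (Q 27) (P 20)) (P 19)))) (T0 7 19 (Q 34) (Q 34) (T2 4 19 (T3 3 20 (Q 34) (Q 27) (P 20)) (P 49) (P 19))) (P 15)) (T1 4 15 (T0 7 19 (Q 47) (Q 47) (T1 5 19 (T3 3 20 (Q 35) (Q 27) (P 20)) (T3 3 20 (Q 35) (P 47) (P 20)) (P 19))) (T0 7 19 (Q 34) (P 49) (P 19)) (P 15)) (P 14)) (P 20) (P 20)) (P 15) (P 11))) (T0 4 11 (T1 3 11 (T3 2 13 (T0 5 14 (Q 23) (Q 23) (P 14)) (Q 20) (T0 5 14 (T1 4 15 (T0 6 17 (Q 32) (P 20) (P 20)) (T0 6 17 (Q 32) (P 20) (P 20)) (P 15)) (P 20) (P 14))) (P 15) (P 15)) (P 14) (P 14)) (P 9)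
def f194 : C := T3 1 7 (T0 3 8 f181 (T3 1 8 (T2 2 9 (Q 11) (Q 11) (T3 1 9 (T3 1 10 (T3 1 11 (Q 25) (Q 25) (Q 11)) (Q 11) (T1 3 11 (T1 4 15 (Q 19) (Q 19) (Q 30)) (Q 30) (P 11))) (Q 19) (P 9))) (T2 2 9 (Q 11) (Q 11) (P 9)) (T2 2 9 (T1 3 11 (T2 3 14 (Q 15) (Q 15) f182) (T2 3 14 (Q 15) (P 19) (P 19)) (P 11)) (T1 3 11 f182 (P 19) (P 11)) (P 9))) (T3 1 8 f191 (T2 2 9 (T1 3 11 (T0 5 13 (Q 19) (Q 19) (T2 3 14 (T1 4 15 f183 (Q 34) (T0 7 18 (Q 19) (Q 19) (T2 4 19 (T0 9 23 (N 759) (N 902) (T2 5 24 (T1 7 26 (Q 49) (P 41) (P 26)) (P 34) (P 34))) (P 34) (P 19)))) (T1 4 15 (Q 89) (P 19) (P 19)) (T1 4 15 (T0 7 18 (Q 19) (Q 19) (T1 5 19 (T0 9 23 (Q 73) (Q 41) (T1 6 23 (T2 5 23 (Q 28) (Q 28) f184) (T2 5 23 (Q 28) (Q 28) (T0 11 28 (Q 41) (P 51)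 (P 28))) (T2 5 23 (Q 28) (Q 28) (P 23)))) (P 42) (P 19))) (P 19) (P 19)))) (T0 5 13 (Q 19) (Q 19) (P 26)) (P 11)) (T1 3 11 (T0 5 13 (Q 19) (Q 19) (T1 4 15 (T0 7 18 (Q 19) (Q 19) (T1 5 19 (T0 9 23 (Q 50) (P 41) (P 41)) (P 42) (P 19))) (P 19) (P 19))) (P 19) (P 11)) (P 9)) (P 8))) (T0 3 8 (T2 2 9 (T0 4 11 (Q 15) (Q 15) (T1 3 11 (T2 3 14 (Q 15) (Q 15) (T1 4 15 f180 (T0 7 19 (Q 23) (Q 23) (P 19)) (P 15))) (P 15) (P 11))) (T0 4 11 (Q 15) (Q 15) (T1 4 15 (T0 7 19 (Q 23) (Q 23) (T1 5 19 (T1 6 23 (Q 43) (P 50) (P 23)) (P 23) (P 19))) (P 23) (P 15))) (P 9)) (T2 2 9 (T1 3 11 (T2 3 14 (Q 15) (Q 15) (Q 43)) (P 15) (P 11)) (Q 43) (P 9)) (P 8)) (T0 3 8 f193 (T2 2 9 (T1 3 11 (T3 2 13 (T2 3 14 (T1 4 15 (T1 5 19 (T2 4 19 (Q 20) (Q 20) (Q 43))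 (P 35) (P 35)) (P 35) (P 15)) (Q 43) (P 14)) (P 20) (P 20)) (P 15) (P 11)) (P 14) (P 9)) (P 8))
def f195 : C := T3 1 10 (T3 1 11 (Q 25) (Q 25) (P 11)) (P 11) (P 11)
def f196 : C := T3 1 12 (Q 14) (Q 14) (T0 5 14 (Q 37) (Q 37) (T2 3 14 (Q 25) (Q 25) (P 14)))
def f197 : C := T3 2 21 (Q 34) (Q 34) (T2 5 23 (Q 34) (Q 34) (Q 23))
def f198 : C := T3 2 21 (Q 34) (Q 34) (T0 9 25 (Q 34) (Q 34) (Q 25))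
def f199 : C := T2 3 14 (T0 7 19 (Q 25) (Q 25) (T2 4 19 (Q 25) (Q 25) (Q 19))) (T0 7 19 (Q 25) (Q 25) (Q 19)) (P 14)
def f200 : C := T3 1 10 (T0 4 11 (T3 1 11 f196 (T0 5 14 (Q 23) (Q 23) (T2 3 14 (Q 25) (Q 25) (P 14))) (T0 5 14 (T2 3 14 (T0 6 17 (Q 43) (Q 43) (Q 34)) (Q 43) (T0 6 17 (T0 7 20 (T3 2 21 (Q 23) (Q 23) (T0 8 23 (T0 9 26 (Q 32) (Q 32) (Q 55)) (Q 55) (T2 5 23 (Q 52) (Q 52) (Q 23)))) (Q 43) (T3 2 21 (Q 23) (Q 23) (T2 5 23 (Q 43) (Q 43) (Q 23)))) (T3 2 21 (Q 23) (Q 23) (T2 5 23 (Q 43) (Q 37) (Q 23))) f197)) (T2 3 14 (Q 34) (Q 34) f197) (T2 3 14 (T2 4 19 (T3 2 21 (Q 25) (Q 25) (T2 5 24 (T0 9 25 (Q 31) (Q 31) (Q 25)) (Q 34) (Q 34))) (Q 34) f198) f198 (P 14)))) (T3 1 11 (Q 25) (Q 25) (T2 3 14 (Q 25) (Q 25) (P 14))) (T3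 1 11 (T3 1 12 (T3 1 13 (T2 3 14 (N 168) (N 312) (T3 1 14 (Q 19) (Q 19) (P 14))) (T2 3 14 (N 168) (N 480) (P 14)) (T2 3 14 (T0 7 19 (N 84) (N 84) (T2 4 19 (Q 25) (Q 25) (Q 19))) (T0 7 19 (N 228) (N 312) (Q 19)) (P 14))) (T2 3 14 (Q 25) (Q 25) (P 14)) f199) f199 (P 11))) (T0 4 11 (T0 5 14 (T2 3 14 (T0 6 17 (Q 43) (Q 43) (Q 34)) (Q 43) (T0 6 17 (T0 7 20 (T0 8 23 (T0 9 26 (Q 32) (Q 32) (Q 52)) (Q 52) (Q 52)) (Q 43) (T2 5 23 (Q 43) (Q 43) (Q 23))) (Q 71) (T2 5 23 (Q 34) (Q 34) (Q 23)))) (T2 3 14 (Q 31) (Q 31) (T2 5 23 (Q 31) (Q 31) (Q 23))) (T2 3 14 (T2 4 19 (Q 31) (Q 31) (T0 9 25 (Q 31) (Q 31) (Q 25))) (T0 9 25 (Q 31) (Q 31) (Q 25)) (P 14))) (T2 3 14 (Q 25) (Q 25) (P 14)) (P 11)) (P 10)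
def f201 : C := T0 5 14 (T0 6 17 (Q 37) (Q 37) (Q 17)) (Q 17) (T2 3 14 (Q 17) (Q 17) (P 14))
def f202 : C := T3 1 13 (T3 1 14 (Q 19) (Q 19) (P 14)) (P 14) (P 14)
def f203 : C := T3 2 19 (Q 21) (Q 21) (T2 5 21 (Q 31) (Q 31) (P 21))
def f204 : C := T2 7 30 (Q 31) (Q 31) (T0 11 31 (Q 37) (P 48) (P 31))
def f205 : C := T3 1 13 (Q 14) (Q 14) (T0 5 14 (Q 40) (Q 40) (P 14))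
def f206 : C := T3 1 16 (Q 17) (Q 17) (T0 6 17 (Q 49) (Q 37) (Q 17))
def f207 : C := T0 6 17 (T0 7 20 (T0 8 23 (Q 61) (Q 29) (Q 29)) (Q 29) (Q 29)) (Q 29) (Q 17)
def f208 : C := T3 2 27 (T0 10 29 (Q 85) (Q 61) (Q 29)) (Q 41) (T0 10 29 (T0 11 32 (T0 12 35 (T0 13 38 (T3 3 40 (Q 97) (Q 94) (T0 14 41 (T0 15 44 (Q 121) (Q 94) (Q 94)) (Q 85) (Q 41))) (Q 41) (Q 41)) (Q 41) (Q 41)) (Q 41) (Q 41)) (Q 41) (Q 29))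
def f209 : C := T3 1 16 (T3 1 17 (T3 1 18 (Q 25) (Q 25) (Q 37)) (Q 37) (Q 17)) (Q 17) (Q 17)
def f210 : C := T0 10 29 (T0 11 32 (T0 12 35 (T0 13 38 (T0 14 41 (Q 118) (Q 53) (Q 41)) (Q 41) (Q 41)) (Q 41) (Q 41)) (Q 41) (Q 41)) (Q 41) (Q 29)
def f211 : C := T3 1 13 (T0 5 14 (T3 1 14 (T3 1 15 f206 (T0 6 17 (Q 46) (Q 37) (Q 17)) (T0 6 17 (T0 7 20 (T0 8 23 (Q 61) (Q 49) (Q 46)) (Q 46) (T3 2 29 (Q 46) (Q 46) (Q 29))) (T3 2 29 (Q 37) (Q 37) (Q 29)) (Q 17))) f207 (T0 6 17 (T0 7 20 (T0 8 23 (T0 9 26 f208 (Q 29) (T3 2 27 (Q 29) (Q 29) (T2 7 29 (N 207) (N 207) (Q 29)))) (T3 2 27 (Q 29) (Q 29) (T2 7 29 (N 273) (N 273) (Q 29))) (T2 6 25 (Q 43) (Q 43) (T3 2 27 (Q 29) (Q 29) (T2 7 29 (Q 46) (Q 46) (Q 29))))) (T2 6 25 (Q 43) (Q 43) (T3 2 27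 (Q 29) (Q 29) (T2 7 29 (Q 43) (Q 43) (Q 29)))) (T2 5 21 (Q 43) (Q 43) (T1 8 25 (N 728) (N 728) (T2 6 25 (Q 43) (Q 43) (T3 2 27 (T2 7 29 (Q 43) (Q 43) (P 29)) (T2 7 29 (Q 43) (Q 43) (P 29)) (T1 9 28 (Q 29) (Q 29) (T2 7 29 (Q 43) (Q 43) (P 29)))))))) (T2 5 21 (Q 43) (Q 43) (T1 8 25 (N 728) (N 728) (T2 6 25 (Q 43) (Q 43) (T3 2 27 (T2 7 29 (Q 43) (Q 43) (P 29)) (T2 7 29 (Q 43) (Q 43) (P 29)) (T1 9 28 (Q 29) (Q 29) (T2 7 29 (Q 43) (P 54) (P 29))))))) (T2 4 17 (Q 82) (Q 43) (P 17)))) (T3 1 14 (Q 17) (Q 17) (T2 4 17 (Q 31) (Q 31) (P 17))) (T3 1 14 (T3 1 15 f209 (Q 17) (T2 4 17 (Q 31) (Q 31) (P 17))) (T2 4 17 (Q 31) (Q 31) (P 17)) (P 14))) (T0 5 14 (T0 6 17 (T0 7 20 (T0 8 23 (T0 9 26 f210 (Q 29) (T2 7 29 (N 207) (N 207) (Q 29))) (T2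 7 29 (N 480) (N 480) (Q 29)) (T2 6 25 (Q 43) (Q 43) (T2 7 29 (Q 46) (Q 46) (Q 29)))) (T2 6 25 (Q 43) (Q 43) (T2 7 29 (Q 43) (Q 43) (Q 29))) (T2 5 21 (Q 40) (Q 40) (T1 8 25 (N 1000) (N 1156) (T2 6 25 (Q 40) (Q 40) (T1 9 28 (Q 29) (Q 29) (T2 7 29 (Q 40) (Q 40) (P 29))))))) (T2 5 21 (Q 40) (Q 40) (T1 8 25 (N 1000) (Q 29) (T2 6 25 (Q 40) (Q 40) (T1 9 28 (Q 29) (Q 29) (T2 7 29 (Q 40) (P 54) (P 29)))))) (T2 4 17 (Q 40) (Q 40) (P 17))) (T2 4 17 (Q 31) (Q 31) (P 17)) (P 14)) (P 13)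
def f212 : C := T0 5 14 (T0 6 17 (Q 23) (Q 23) (Q 17)) (Q 17) (P 14)
def f213 : C := T0 8 23 (T0 9 26 (Q 67) (P 32) (P 32)) (P 32) (P 23)
def f214 : C := T0 5 14 (T1 5 16 (Q 23) (Q 23) (T0 6 17 (T1 6 19 (N 459) (N 459) (T0 7 20 (Q 22) (P 23) (P 23))) (P 23) (P 23))) (P 23) (P 14)
def f215 : C := T1 4 13 (T2 3 13 (Q 14) (Q 14) (T0 5 14 (T0 6 17 (T0 7 20 (T3 2 21 (Q 33) (Q 33) (Q 21)) (T3 2 21 (Q 33) (Q 33) (Q 21)) (T3 2 21 (T1 7 23 (T3 3 32 (Q 57) (Q 43) (T1 10 33 (Q 57) (Q 43) (Q 33))) (Q 33) (P 23)) (T1 7 23 (T1 10 33 (Q 57) (Q 43) (Q 33)) (Q 33) (P 23)) (Q 21))) (T3 2 21 (Q 37) (Q 37) (Q 21)) (T2 4 17 (Q 23) (Q 23) (P 17))) (T2 4 17 (Q 23) (Q 23) (P 17)) (P 14))) (T2 3 13 (Q 14) (Q 14) (T0 5 14 (T0 6 17 (T0 7 20 (T3 2 21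 (Q 33) (Q 33) (Q 21)) (P 23) (P 23)) (P 23) (P 23)) (P 23) (P 14))) (T2 3 13 (T0 5 14 (T1 5 16 (Q 23) (Q 23) (T0 6 17 (T1 6 19 (N 459) (N 459) (T0 7 20 (T3 2 21 (T2 5 22 (T0 8 23 (T0 9 26 (Q 67) (Q 55) (Q 55)) (Q 55) (P 23)) (T0 8 23 (Q 67) (Q 49) (P 23)) (Q 22)) (T2 5 22 f213 (Q 53) (Q 22)) (T2 5 22 (T0 8 23 (T0 9 26 (T0 10 29 (T2 7 31 (T3 3 31 (Q 67) (Q 67) (T0 11 32 (T0 12 35 (T0 13 38 (Q 103) (Q 41) (T2 9 40 (Q 41) (Q 41) (Q 76))) (Q 73) (Q 73)) (Q 73) (P 32))) (T3 3 31 (Q 67) (Q 67) (T0 11 32 (T0 12 35 (Q 103) (Q 73) (Q 73)) (Q 67) (P 32))) (T3 3 31 (Q 85) (Q 85) (Q 31))) (P 32) (P 32)) (P 32) (P 32)) (P 32) (P 23)) (T0 8 23 (T0 9 26 (T0 10 29 (T3 3 31 (Q 53) (Q 53) (Q 31)) (P 32) (P 32)) (P 32) (P 32)) (P 32) (P 23))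 (Q 22))) (P 23) (P 23))) (P 23) (P 23))) (P 23) (P 14)) f214 (P 13))
def f216 : C := T3 1 16 (T3 1 17 (Q 25) (Q 25) (Q 17)) (Q 17) (Q 17)
def f217 : C := T3 1 19 (T3 1 20 (Q 25) (Q 22) (Q 22)) (Q 22) (Q 19)
def f218 : C := T1 5 16 (Q 17) (Q 17) (T2 4 17 (T0 7 19 (Q 22) (Q 22) (Q 19)) (T0 7 19 (Q 22) (P 30) (P 30)) (P 17))
def f219 : C := T0 4 11 (T3 1 11 (T3 1 12 (T1 4 13 (Q 14) (Q 14) (T2 3 13 f205 (T3 1 13 (Q 14) (Q 14) (T0 5 14 (Q 40) (Q 31) (P 14))) f211)) (T1 4 13 (Q 14) (Q 14) (T2 3 13 (T0 5 14 (Q 37) (Q 37) (P 14)) (T0 5 14 (Q 37) (Q 31) (P 14)) (P 13))) (T1 4 13 f212 f212 (T2 3 13 (T0 5 14 (T0 6 17 (T0 7 20 (T2 5 22 (Q 23) (Q 23) (T0 8 23 (T0 9 26 (Q 35) (Q 35) (Q 58)) (Q 49) (Q 49))) (Q 49) (T2 5 22 (T3 2 23 (Q 37)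 (Q 37) (P 23)) (Q 40) (T3 2 23 (Q 40) (Q 40) (P 23)))) (Q 37) (T2 5 22 (T3 2 23 (Q 37) (Q 37) (P 23)) (T3 2 23 (Q 37) (Q 37) (P 23)) (T3 2 23 (Q 37) (Q 37) (P 23)))) (T2 5 22 (T3 2 23 (Q 37) (Q 37) (P 23)) (Q 31) (T3 2 23 (Q 31) (Q 31) (P 23))) (P 14)) (T0 5 14 (T0 6 17 (T0 7 20 (T0 8 23 (Q 35) (Q 35) (Q 49)) (Q 49) (T3 2 23 (Q 40) (Q 35) (P 23))) (Q 37) (T3 2 23 (Q 37) (Q 35) (P 23))) (Q 48) (P 14)) (P 13)))) (T1 4 13 f212 (Q 23) (T2 3 13 (T0 5 14 (T0 6 17 (T0 7 20 (T2 5 22 (Q 23) (Q 23) (T0 8 23 (Q 67) (Q 49) (P 23))) (P 23) (P 23)) (P 23) (P 23)) (P 23) (P 14)) (T0 5 14 (Q 35) (P 23) (P 14)) (P 13))) f215) (T3 1 11 (T3 1 12 (T1 4 13 (Q 14) (Q 14) (T2 3 13 (Q 14) (Q 14) (T3 1 13 (T3 1 14 (T3 1 15 f216 (Q 17) (T2 4 17 (Q 31)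 (Q 31) (P 17))) (T2 4 17 (Q 31) (Q 31) (P 17)) (P 14)) (P 14) (P 13)))) (P 14) (P 14)) (P 14) (P 14)) (T3 1 11 (T3 1 12 (T1 4 13 (T3 1 13 (Q 17) (P 14) (P 14)) (T3 1 13 (Q 17) (P 14) (P 14)) (T2 3 13 (T3 1 13 (T3 1 14 (T3 1 15 (Q 19) (Q 19) (T0 7 19 (Q 31) (Q 31) (Q 19))) (T0 7 19 (Q 31) (Q 31) (Q 19)) (P 14)) (P 14) (P 14)) (T3 1 13 (T3 1 14 (Q 22) (Q 22) (P 14)) (P 14) (P 14)) (T3 1 13 (T3 1 14 (T3 1 15 (T1 5 16 (Q 17) (Q 17) (T3 1 16 (T2 4 17 (Q 22) (Q 22) (T3 1 17 (T3 1 18 (T0 7 19 (Q 22) (Q 22) f217) (Q 22) (T0 7 19 (Q 22) (Q 22) (T1 6 19 (N 136) (N 136) (P 19)))) (T0 7 19 (Q 22) (Q 22) (T1 6 19 (N 152) (N 288) (P 19))) (P 17))) (T2 4 17 (Q 22) (Q 22) (P 17)) (T2 4 17 (Q 22) (Q 22) (P 17)))) (T1 5 16 (Q 17) (Q 17) (T2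 4 17 (Q 22) (Q 22) (P 17))) f218) f218 (P 14)) (P 14) (P 13)))) (P 14) (P 14)) (P 14) (P 11))
def f220 : C := T1 3 10 (T3 1 10 (T0 4 11 (T3 1 11 (Q 14) (Q 14) (T0 5 14 (T0 6 17 (Q 21) (Q 21) (T1 5 17 (Q 21) (Q 21) (Q 17))) (T1 5 17 (Q 21) (Q 21) (Q 17)) (P 14))) (Q 14) (Q 14)) (T0 4 11 (T0 5 14 (Q 21) (Q 21) (P 14)) (P 14) (P 11)) (T0 4 11 (T2 3 13 (Q 14) (Q 14) (T0 5 14 (T0 6 17 (T1 5 17 (Q 21) (Q 21) (T2 4 17 (N 153) (N 450) (T3 2 19 (Q 21) (Q 21) (T0 7 20 (Q 21) (Q 21) (T2 5 21 (T0 13 37 (Q 38) (Q 38) (T1 11 37 (N 252) (N 252) (Q 37))) (P 38) (P 21)))))) (T1 5 17 (Q 21) (Q 21) (T2 4 17 (N 450) (N 450) (T3 2 19 (Q 21) (Q 21) (T2 5 21 (T1 11 37 (N 252) (N 252) (Q 37)) (P 38) (P 21))))) (T1 5 17 f203 (T3 2 19 (Q 21) (Q 21)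 (Q 38)) (T2 4 17 (T1 8 27 (N 378) (Q 31) (T3 3 28 (N 140) (N 680) f204)) (T1 8 27 (N 378) (Q 31) (T3 3 28 (N 140) (N 820) (T0 11 31 (Q 37) (P 48) (P 31)))) (P 17)))) (T1 5 17 f203 (P 31) (P 31)) (P 14))) (P 14) (P 11))) (T3 1 10 (T0 4 11 (T3 1 11 (Q 14) (Q 14) (T0 5 14 (T0 6 17 (Q 21) (Q 21) (Q 17)) (Q 17) (P 14))) (Q 14) (Q 14)) (T0 4 11 (T0 5 14 (Q 21) (Q 17) (P 14)) (P 14) (P 11)) (T0 4 11 (T2 3 13 (Q 14) (Q 14) (T0 5 14 (T0 6 17 (T2 4 17 (N 153) (N 603) (T3 2 19 (Q 21) (Q 21) (T0 7 20 (Q 21) (Q 21) (T2 5 21 (Q 47) (P 38) (P 21))))) (T2 4 17 (N 603) (N 603) (T3 2 19 (Q 21) (P 77) (P 57))) (T2 4 17 (Q 57) (Q 47) (P 17))) (P 31) (P 14))) (P 14) (P 11))) (T3 1 10 f219 (T0 4 11 (T1 4 13 (T2 3 13 (Q 14) (Q 14) (T0 5 14 (T0 6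 17 (Q 21) (Q 21) (T2 4 17 (Q 23) (Q 23) (P 17))) (P 31) (P 14))) (T2 3 13 (Q 14) (Q 14) (T0 5 14 (T0 6 17 (Q 21) (P 23) (P 23)) (P 23) (P 14))) (T2 3 13 (T0 5 14 (T1 5 16 (Q 23) (Q 23) (T0 6 17 (T1 6 19 (N 459) (N 459) (T0 7 20 (T2 5 22 (T0 8 23 (T0 9 26 (T0 10 29 (T2 7 31 (T0 11 32 (T0 12 35 (Q 121) (Q 41) (Q 41)) (Q 41) (P 32)) (Q 71) (Q 31)) (P 32) (P 32)) (P 32) (P 32)) (P 32) (P 23)) (T0 8 23 (Q 31) (P 32) (P 23)) (Q 22)) (P 23) (P 23))) (P 23) (P 23))) (P 23) (P 14)) f214 (P 13))) (P 14) (P 11)) (P 10))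
def f221 : C := T2 2 9 (T3 1 9 (T1 3 10 (Q 11) (Q 11) f200) (T1 3 10 (Q 11) (Q 11) (P 10)) (T1 3 10 (T0 4 11 f201 (T2 3 14 (Q 17) (Q 17) (P 14)) (P 11)) (T0 4 11 (T0 5 14 (Q 37) (Q 17) (T2 3 14 (Q 17) (Q 17) (P 14))) (T2 3 14 (Q 17) (P 47) (P 14)) (P 11)) (P 10))) (T3 1 9 (T1 3 10 (Q 11) (Q 11) (T3 1 10 (T0 4 11 (T3 1 11 (T3 1 12 (Q 14) (Q 14) (T0 5 14 (Q 37) (Q 37) (P 14))) (Q 23) (T0 5 14 (T0 6 17 (T0 7 20 (Q 32) (Q 23) (Q 23)) (Q 23) (Q 23)) (Q 23) (P 14))) (Q 14) (T3 1 11 (T3 1 12 f202 (P 14) (P 14)) (P 14) (P 11))) (T0 4 11 (Q 32) (P 14) (P 11)) (P 10))) (T1 3 10 (Q 11) (Q 11) (P 10)) (T1 3 10 (T0 4 11 (T0 5 14 (T0 6 17 (Q 37) (Q 37) (Q 17)) (Q 17) (P 14)) (P 14) (P 11)) (Q 37) (P 10))) (T3 1 9 f220 (T1 3 10 (T0 4 11 (T2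 3 13 (Q 14) (Q 14) (T0 5 14 (T0 6 17 (T1 5 17 (Q 21) (Q 21) (T2 4 17 (N 170) (N 620) (T0 7 20 (Q 21) (Q 21) (T2 5 21 (Q 64) (P 38) (P 21))))) (T1 5 17 (Q 21) (Q 21) (T2 4 17 (N 620) (N 620) (T2 5 21 (Q 64) (P 38) (P 21)))) (T1 5 17 (T2 5 21 (Q 31) (Q 31) (P 21)) (Q 38) (T2 4 17 (T1 8 27 (Q 31) (Q 31) f204) (T1 8 27 (Q 31) (Q 31) (T0 11 31 (Q 37) (P 48) (P 31))) (P 17)))) (T1 5 17 (T2 5 21 (Q 31) (Q 31) (P 21)) (P 31) (P 31)) (P 14))) (P 14) (P 11)) (T0 4 11 (T2 3 13 (Q 14) (Q 14) (T0 5 14 (T0 6 17 (T2 4 17 (N 323) (N 773) (T0 7 20 (Q 21) (P 47) (P 47))) (P 37) (P 37)) (P 31) (P 14))) (P 14) (P 11)) (P 10)) (P 9))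
def f222 : C := T3 3 23 (Q 25) (Q 25) (T1 7 24 (Q 25) (P 31) (P 24))
def f223 : C := T2 2 9 (T1 3 10 (T0 4 11 (T0 5 14 (T2 3 14 (T3 2 15 (Q 24) (Q 24) (P 15)) (T3 2 15 (Q 24) (Q 24) (P 15)) (T3 2 15 (T0 6 17 (T1 5 17 (Q 32) (P 24) (P 24)) (T1 5 17 (Q 32) (P 24) (P 24)) (T1 5 17 (T2 5 23 (T1 7 24 (N 322) (N 322) (P 24)) (Q 79) (T3 3 23 (T1 7 24 (Q 32) (Q 32) (P 24)) (T1 7 24 (Q 32) (Q 31) (P 24)) (P 23))) (P 24) (P 17))) (T0 6 17 (Q 38) (Q 38) (T1 5 17 (T2 5 23 (Q 38) (Q 38) (P 23)) (P 24) (P 17))) (P 15))) (T2 3 14 (T3 2 15 (Q 17) (Q 17) (P 15)) (T3 2 15 (Q 17) (Q 17) (P 15)) (T3 2 15 (T1 5 17 (T2 5 23 (Q 31) (Q 31) (T3 3 23 (T1 7 24 (Q 32) (Q 32) (P 24)) (T1 7 24 (Q 32) (P 31) (P 24)) (P 23))) (P 24) (P 17)) (T1 5 17 (T2 5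 23 (Q 31) (Q 31) (P 23)) (P 24) (P 17)) (P 15))) (T2 3 14 (T3 2 15 (T1 5 17 (T2 4 19 (Q 25) (Q 24) f222) (T2 4 19 (Q 25) (P 24) (P 24)) (P 17)) (T1 5 17 (T2 4 19 (Q 25) (Q 24) (T1 7 24 (Q 25) (P 31) (P 24))) (P 31) (P 17)) (P 15)) (T3 2 15 (T1 5 17 f222 (P 24) (P 17)) (T1 5 17 (T1 7 24 (Q 25) (P 31) (P 24)) (P 24) (P 17)) (P 15)) (P 14))) (P 25) (P 11)) (T0 4 11 (T0 5 14 (T2 3 14 (T3 2 15 (Q 24) (Q 24) (P 15)) (P 24) (P 24)) (P 17) (P 17)) (P 17) (P 11)) (P 10)) (T1 3 10 (T0 4 11 (T0 5 14 (T3 2 15 (Q 32) (Q 32) (P 15)) (P 32) (P 14)) (P 14) (P 11)) (P 24) (P 10)) (P 9)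
def f224 : C := T2 3 14 (T2 4 19 (Q 25) (Q 25) (Q 19)) (Q 19) (P 14)
def f225 : C := T1 5 16 (Q 17) (Q 17) (T2 4 17 (Q 19) (P 30) (P 17))
def f226 : C := T3 1 10 (T3 1 11 (T3 1 12 (Q 14) (Q 14) (T2 3 14 (Q 24) (Q 24) (P 14))) (T2 3 14 (Q 24) (Q 24) (P 14)) (P 11)) (P 11) (P 11)
def f227 : C := T3 1 11 (T3 1 12 (Q 14) (Q 14) (Q 24)) (Q 24) (P 11)
def f228 : C := T3 1 13 (T2 3 14 (Q 16) (Q 16) (T3 1 14 (Q 19) (Q 16) (P 14))) (Q 16) (T2 3 14 (Q 16) (Q 16) (P 14))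
def f229 : C := T3 2 25 (Q 43) (Q 38) (T2 7 33 (Q 38) (Q 38) (Q 33))
def f230 : C := T3 1 18 (Q 43) (Q 43) (T2 4 19 (Q 58) (Q 43) (Q 19))
def f231 : C := T3 1 17 (T3 1 18 (Q 43) (Q 19) (Q 19)) (Q 19) (Q 19)
def f232 : C := T0 7 18 (Q 19) (Q 19) (T1 6 19 (Q 23) (Q 23) (P 19))
def f233 : C := T1 4 13 (T3 1 13 (T3 1 14 (Q 23) (Q 23) (Q 14)) (Q 14) (T2 3 14 (T2 4 19 (Q 53) (Q 43) (T1 7 23 (Q 38) (Q 38) f229)) (T1 7 23 (Q 38) (Q 33) (Q 33)) (P 14))) (T3 1 13 (T3 1 14 (Q 23) (Q 23) (Q 14)) (Q 14) (T2 3 14 (T2 4 19 (Q 53) (Q 43) f229) (Q 33) (P 14))) (T3 1 13 (T2 3 14 (T3 1 14 (T3 1 15 (T3 1 16 (T3 1 17 f230 (T2 4 19 (Q 58) (Q 43) (Q 19)) (T2 4 19 (T2 5 24 (T2 6 29 (T3 2 33 (Q 88) (Q 83) (T2 7 34 (T2 8 39 (Q 118) (Q 83) (Q 83)) (Q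 73) (Q 34))) (Q 34) (Q 34)) (Q 34) (Q 34)) (Q 34) (Q 19))) (T2 4 19 (T2 5 24 (T2 6 29 (T2 7 34 (T2 8 39 (Q 118) (Q 49) (Q 49)) (Q 49) (Q 34)) (Q 34) (Q 34)) (Q 34) (Q 34)) (Q 34) (Q 19)) (Q 16)) (Q 16) (Q 16)) (Q 16) (T1 5 16 (Q 43) (Q 29) (P 16))) (T3 1 14 (T3 1 15 (T3 1 16 f231 (Q 19) (Q 16)) (Q 16) (Q 16)) (Q 16) (T1 5 16 (Q 33) (P 29) (P 16))) (T3 1 14 (T3 1 15 (T1 5 16 (Q 23) (Q 23) (T3 1 16 (T3 1 17 (T0 7 18 (Q 19) (Q 19) (T3 1 18 (T3 1 19 (T3 1 20 (Q 28) (Q 28) (T0 9 23 (N 171) (N 171) (T2 5 23 (Q 28) (Q 28) (P 23)))) (T0 9 23 (N 189) (N 189) (T2 5 23 (Q 28) (Q 28) (P 23))) (Q 19)) (Q 19) (Q 19))) (Q 19) f232) f232 (P 16))) (T1 5 16 (Q 23) (Q 23) (P 16)) (T1 5 16 (T2 5 23 (Q 29) (Q 29) (Q 23)) (T2 5 23 (Q 29) (Q 29)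 (Q 23)) (P 16))) (T1 5 16 (T2 5 23 (Q 29) (Q 29) (Q 23)) (P 29) (P 16)) (P 14))) (T2 3 14 (T1 5 16 (Q 43) (Q 29) (P 16)) (T1 5 16 (Q 33) (P 29) (P 16)) (P 14)) (P 13))
def f234 : C := T1 4 13 (Q 14) (Q 14) (T2 3 14 (T1 5 16 (Q 24) (Q 24) (P 16)) (P 24) (P 14))
def f235 : C := T2 3 14 (T0 7 18 (Q 24) (Q 24) (P 36)) (P 24) (P 14)
def f236 : C := T3 1 11 (T3 1 12 (T0 5 13 f228 f228 f233) (T0 5 13 (T2 3 14 (Q 16) (Q 16) (P 14)) (T2 3 14 (Q 16) (Q 16) (P 14)) (T1 4 13 (T2 3 14 (T2 4 19 (Q 53) (Q 43) (T1 7 23 (Q 38) (Q 38) (T2 7 33 (Q 38) (Q 38) (Q 33)))) (Q 61) (P 14)) (T2 3 14 (Q 49) (Q 33) (P 14)) (P 13))) (T0 5 13 f234 f234 (T1 4 13 (T2 3 14 (T0 7 18 (Q 24) (Q 24) (T2 4 19 (T0 9 23 (Q 24) (Q 24) (T1 7 23 (T3 2 23 (Q 63) (Q 58)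 (T2 5 24 (T2 6 29 (T1 10 33 (Q 83) (Q 83) (T2 7 34 (Q 103) (Q 73) (T3 3 34 (N 430) (N 430) (P 34)))) (T1 10 33 (Q 34) (Q 34) (Q 63)) (T1 10 33 (Q 58) (Q 58) (T3 3 34 (Q 58) (Q 58) (P 34)))) (T1 10 33 (Q 58) (Q 53) (T3 3 34 (Q 53) (Q 53) (P 34))) (P 24))) (T3 2 23 (Q 53) (Q 53) (T2 5 24 (T2 6 29 (T2 7 34 (Q 79) (Q 73) (T3 3 34 (N 430) (N 430) (P 34))) (Q 63) (T3 3 34 (Q 58) (Q 58) (P 34))) (T3 3 34 (Q 53) (Q 53) (P 34)) (P 24))) (T3 2 23 (T2 5 24 (T2 6 29 (Q 59) (Q 59) (T3 3 35 (Q 63) (Q 59) (T1 11 36 (Q 63) (P 59) (P 36)))) (Q 53) (P 24)) (T2 5 24 (T2 6 29 (Q 59) (Q 59) (T1 11 36 (Q 58) (P 59) (P 36))) (Q 53) (P 24)) (P 23)))) (P 24) (P 24))) (P 24) (P 14)) f235 (P 13)))) (T0 5 13 f234 (T1 4 13 (Q 14) (Q 14) (T2 3 14 (T1 5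 16 (Q 24) (P 45) (P 16)) (P 24) (P 14))) (T1 4 13 (T2 3 14 (T0 7 18 (Q 24) (Q 24) (T2 4 19 (T0 9 23 (Q 24) (Q 24) (T1 7 23 (T2 5 24 (T2 6 29 (T1 10 33 (Q 78) (Q 78) (T2 7 34 (Q 103) (Q 73) (P 34))) (P 34) (P 34)) (P 34) (P 24)) (Q 56) (P 23))) (P 24) (P 24))) (P 24) (P 14)) f235 (P 13))) (P 11)
def f237 : C := T3 1 13 (T3 1 14 (Q 19) (Q 16) (P 14)) (P 14) (P 14)
def f238 : C := T3 1 13 (T3 1 14 (Q 23) (Q 23) (P 14)) (P 14) (P 14)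
def f239 : C := T1 5 17 (Q 21) (Q 21) (T2 4 17 (Q 18) (Q 18) (P 17))
def f240 : C := T1 5 17 (T2 4 17 (Q 18) (Q 18) (T0 7 18 (Q 21) (Q 21) (P 18))) (T2 4 17 (Q 18) (Q 18) (T0 7 18 (Q 21) (P 31) (P 18))) (T2 4 17 (Q 18) (Q 18) (P 17))
def f241 : C := T2 3 13 (Q 14) (Q 14) (T3 1 13 (T3 1 14 (T3 1 15 (T3 1 16 (Q 37) (Q 17) (Q 17)) (Q 17) (Q 17)) (Q 17) (P 14)) (P 14) (P 14))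
def f242 : C := T3 1 13 (T3 1 14 (T3 1 15 (T3 1 16 (T3 1 17 (T3 1 18 (Q 40) (Q 19) (Q 19)) (Q 19) (Q 19)) (Q 19) (Q 16)) (Q 16) (Q 16)) (Q 16) (P 14)) (P 14) (P 14)
def f243 : C := T3 1 14 (T3 1 15 (T3 1 16 (Q 22) (Q 19) (Q 16)) (Q 16) (Q 16)) (Q 16) (P 14)
def f244 : C := T3 1 19 (Q 29) (Q 29) (T0 8 21 (Q 45) (Q 29) (Q 21))
def f245 : C := T0 11 29 (T0 14 37 (T0 17 45 (Q 133) (Q 53) (Q 53)) (Q 53) (Q 37)) (Q 37) (Q 29)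
def f246 : C := T3 1 24 (T3 1 25 (T3 1 26 (Q 61) (Q 53) f245) f245 (Q 25)) (Q 25) (Q 25)
def f247 : C := T3 1 21 (T3 1 22 (Q 34) (Q 34) (Q 22)) (Q 22) (Q 22)
def f248 : C := T3 1 26 (T3 1 27 (Q 37) (Q 29) (Q 29)) (Q 29) (Q 29)
def f249 : C := T0 8 21 (T2 5 21 (Q 22) (Q 22) (T1 7 22 (Q 45) (Q 41) (P 22))) (T2 5 21 (Q 22) (Q 22) (T1 7 22 (Q 29) (Q 29) (P 22))) (T2 5 21 (Q 22) (Q 22) (P 21))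
def f250 : C := T3 2 35 (Q 45) (Q 45) (T0 14 37 (Q 109) (Q 45) (Q 37))
def f251 : C := T3 1 18 (T1 6 19 f244 f244 (T3 1 19 (T3 1 20 (T0 8 21 (T2 5 21 (Q 22) (Q 22) (T3 1 21 (T3 1 22 (T3 1 23 f246 (Q 25) (T2 6 25 (N 462) (N 462) (Q 25))) (T2 6 25 (N 483) (N 483) (Q 25)) (Q 22)) (Q 22) (Q 22))) (T2 5 21 (Q 22) (Q 22) (T3 1 21 (T3 1 22 (T3 1 23 (Q 29) (Q 25) (T2 6 25 (N 858) (N 858) (Q 25))) (T2 6 25 (N 879) (N 879) (Q 25)) (Q 22)) (Q 22) (Q 22))) (T2 5 21 f247 f247 (T3 1 21 (T1 7 22 (Q 29) (Q 29) (T3 1 22 (T3 1 23 (T3 1 24 (T2 6 25 (N 312) (N 312) (T3 1 25 f248 (Q 29) (Q 25))) (T2 6 25 (N 429) (N 429) (Q 25)) (T2 6 25 (Q 34) (Q 34) (Q 25))) (T2 6 25 (Q 34) (Q 34) (Q 25)) (T1 8 25 (Q 29) (Q 29) (T2 6 25 (T0 13 34 (T3 2 45 (Q 46)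 (Q 46) (T2 11 46 (Q 118) (Q 113) (Q 46))) (Q 55) (Q 34)) (Q 46) (P 25)))) (T1 8 25 (Q 29) (Q 29) (T2 6 25 (T0 13 34 (T2 11 46 (Q 118) (Q 67) (Q 46)) (Q 55) (Q 34)) (Q 46) (P 25))) (P 22))) (T1 7 22 (Q 29) (Q 29) (P 22)) (P 21)))) (T0 8 21 (Q 22) (Q 22) (T2 5 21 (Q 22) (Q 22) (P 21))) f249) f249 (P 19))) (T1 6 19 (T0 8 21 (Q 45) (Q 29) (Q 21)) (T0 8 21 (Q 45) (Q 29) (Q 21)) (P 19)) (T1 6 19 (T0 8 21 (T0 11 29 (T1 11 35 f250 f250 (T3 2 35 (T0 14 37 (Q 93) (Q 45) (Q 37)) (T0 14 37 (Q 93) (Q 45) (Q 37)) (P 35))) (Q 37) (Q 29)) (Q 29) (Q 21)) (T0 8 21 (Q 54) (Q 29) (Q 21)) (P 19))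
def f252 : C := T3 1 14 (T3 1 15 (Q 21) (Q 17) (Q 17)) (Q 17) (P 14)
def f253 : C := T3 1 13 (T3 1 14 (Q 18) (Q 18) (P 14)) (P 14) (P 14)
def f254 : C := T3 1 22 (Q 33) (Q 33) (T1 7 23 (Q 73) (Q 33) (Q 23))
def f255 : C := T3 2 29 (Q 30) (Q 30) (T2 7 30 (Q 44) (P 73) (P 30))
def f256 : C := T2 9 40 (T0 16 41 (Q 139) (Q 59) (P 41)) (Q 49) (Q 40)
def f257 : C := T3 1 16 (T3 1 17 (T0 7 18 (T3 1 18 (T3 1 19 (T3 1 20 (T3 1 21 (Q 22) (Q 22) (T2 5 22 (N 180) (N 180) (Q 22))) (T2 5 22 (N 198) (N 378) (Q 22)) (T2 5 22 (T0 12 31 (Q 40) (Q 40) (T2 7 31 (T2 9 40 (N 342) (N 342) (Q 40)) (Q 40) (Q 31))) (Q 40) (Q 22))) (T2 5 22 (Q 58) (Q 40) (Q 22)) (Q 19)) (Q 19) (Q 19)) (T3 1 18 (T3 1 19 (T3 1 20 (Q 31) (Q 31) (T2 5 22 (Q 67) (Q 31) (Q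 22))) (T2 5 22 (Q 58) (Q 31) (Q 22)) (Q 19)) (Q 19) (Q 19)) (T3 1 18 (T1 6 19 (Q 23) (Q 23) (T3 1 19 (T3 1 20 (T3 1 21 (T2 5 22 (T3 1 22 (Q 28) (Q 23) (T0 9 23 (N 189) (N 189) (P 23))) (Q 31) (T3 1 22 (Q 31) (Q 31) (Q 22))) (T2 5 22 (T0 9 23 (N 396) (N 396) (P 23)) (Q 31) (Q 22)) (T2 5 22 (T0 9 23 (Q 49) (Q 49) (P 23)) (T0 9 23 (Q 31) (Q 31) (P 23)) (Q 22))) (T2 5 22 (T0 9 23 (Q 49) (Q 41) (P 23)) (T0 9 23 (Q 31) (Q 31) (P 23)) (Q 22)) (T1 7 22 (Q 23) (Q 23) (T2 5 22 (T0 9 23 (T2 7 31 (T3 2 39 (Q 103) (Q 103) f256) (Q 40) (Q 31)) (P 41) (P 23)) (T0 9 23 (Q 31) (P 41) (P 23)) (P 22)))) (T1 7 22 (Q 23) (Q 23) (T2 5 22 (T0 9 23 (T2 7 31 f256 (Q 40) (Q 31)) (P 41) (P 23)) (T0 9 23 (Q 31) (P 41) (P 23)) (P 22))) (P 19))) (T1 6 19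 (Q 23) (Q 23) (P 19)) (P 18))) (T0 7 18 (Q 19) (Q 19) (P 18)) (T0 7 18 (Q 19) (Q 19) (P 18))) (T0 7 18 (Q 19) (Q 19) (P 18)) (P 16)
def f258 : C := T1 9 29 (Q 44) (Q 44) (T3 2 29 (Q 31) (Q 31) (P 29))
def f259 : C := T1 4 13 (T2 3 13 f253 f253 (T3 1 13 (T3 1 14 (T3 1 15 (T3 1 16 (T2 4 17 (Q 18) (Q 18) (T3 1 17 (T0 7 18 (Q 21) (Q 21) (T3 1 18 (T3 1 19 (T3 1 20 (T3 1 21 f254 (T1 7 23 (Q 73) (Q 33) (Q 23)) (Q 21)) (Q 21) (Q 21)) (Q 21) (T2 5 21 (Q 23) (Q 23) (P 21))) (T2 5 21 (Q 23) (Q 23) (P 21)) (P 18))) (T0 7 18 (Q 21) (Q 21) (P 18)) (P 17))) (T2 4 17 (Q 18) (Q 18) (P 17)) (T2 4 17 (Q 18) (Q 18) (P 17))) (T2 4 17 (Q 18) (P 47) (P 17)) (T2 4 17 (T0 7 18 (T1 7 23 (Q 30) (Q 30) f255) (P 31) (P 18)) (P 30) (P 17))) (T2 4 17 (T0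 7 18 (T1 7 23 (Q 30) (Q 30) (T2 7 30 (Q 44) (P 43) (P 30))) (P 31) (P 18)) (P 30) (P 17)) (P 14)) (P 14) (P 13))) (T2 3 13 f253 (T3 1 14 (Q 18) (Q 18) (P 14)) (T3 1 14 (T3 1 15 (T3 1 16 (T2 4 17 (Q 18) (Q 18) (T3 1 17 (T0 7 18 (Q 21) (Q 21) (T3 1 18 (T3 1 19 (T3 1 20 (T3 1 21 (Q 33) (Q 23) (Q 21)) (Q 21) (Q 21)) (Q 21) (T2 5 21 (Q 23) (Q 23) (P 21))) (T2 5 21 (Q 23) (Q 23) (P 21)) (P 18))) (T0 7 18 (Q 21) (Q 21) (P 18)) (P 17))) (T2 4 17 (Q 18) (Q 18) (P 17)) (T2 4 17 (Q 18) (Q 18) (P 17))) (T2 4 17 (Q 18) (P 47) (P 17)) (T2 4 17 (T0 7 18 f255 (P 31) (P 18)) (P 30) (P 17))) (T2 4 17 (T0 7 18 (T2 7 30 (Q 44) (P 43) (P 30)) (P 31) (P 18)) (P 30) (P 17)) (P 14))) (T2 3 13 (T3 1 13 (T3 1 14 (T3 1 15 (T1 5 16 (Q 18) (Q 18) f257)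 (T1 5 16 (Q 18) (Q 18) (P 16)) (T1 5 16 (T0 7 18 (T2 5 22 (Q 29) (Q 29) f258) (Q 31) (P 18)) (P 45) (P 16))) (T1 5 16 (T0 7 18 (T2 5 22 (Q 29) (Q 29) (T1 9 29 (Q 44) (P 71) (P 29))) (Q 31) (P 18)) (P 29) (P 16)) (P 14)) (P 14) (P 13)) (T3 1 14 (T3 1 15 (T1 5 16 (Q 18) (Q 18) (T3 1 16 (T3 1 17 (T0 7 18 (Q 22) (Q 22) (T3 1 18 (T1 6 19 (Q 23) (Q 23) (T3 1 19 (T3 1 20 (T3 1 21 (T3 1 22 (Q 31) (Q 31) (Q 22)) (Q 22) (Q 22)) (Q 22) (T1 7 22 (Q 23) (Q 23) (P 22))) (T1 7 22 (Q 23) (Q 23) (P 22)) (P 19))) (T1 6 19 (Q 23) (Q 23) (P 19)) (P 18))) (T0 7 18 (Q 19) (Q 19) (P 18)) (T0 7 18 (Q 19) (Q 19) (P 18))) (T0 7 18 (Q 19) (P 49) (P 18)) (P 16))) (T1 5 16 (Q 18) (P 61) (P 16)) (T1 5 16 (T0 7 18 f258 (P 31) (P 18)) (P 45) (P 16))) (T1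 5 16 (T0 7 18 (T1 9 29 (Q 44) (P 71) (P 29)) (P 31) (P 18)) (P 29) (P 16)) (P 14)) (P 13))
def f260 : C := T0 5 13 (T1 4 13 f241 f241 (T2 3 13 f242 (T3 1 13 f243 (P 14) (P 14)) (T3 1 13 (T3 1 14 (T3 1 15 (T1 5 16 (T3 1 16 (T3 1 17 (T3 1 18 (Q 21) (Q 21) (T0 8 21 (T0 11 29 (Q 45) (Q 37) (Q 37)) (Q 37) (Q 21))) (T0 8 21 (Q 53) (Q 37) (Q 21)) (Q 17)) (Q 17) (Q 17)) (T3 1 16 (T3 1 17 (T3 1 18 (Q 21) (Q 21) (T0 8 21 (Q 45) (Q 29) (Q 21))) (T0 8 21 (Q 45) (Q 29) (Q 21)) (Q 17)) (Q 17) (Q 17)) (T3 1 16 (T2 4 17 (T3 1 17 (Q 22) (Q 19) (Q 19)) (T3 1 17 (Q 22) (Q 19) (Q 19)) (T3 1 17 f251 (T1 6 19 (T0 8 21 (T0 11 29 (T1 11 35 (T0 14 37 (Q 109) (Q 45) (Q 37)) (Q 86) (P 35)) (Q 37) (Q 29)) (Q 29) (Q 21)) (P 35) (P 19)) (P 17))) (T2 4 17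 (Q 19) (Q 19) (P 17)) (P 16))) (T1 5 16 (Q 17) (Q 17) (P 16)) (T1 5 16 (T2 4 17 (T0 8 21 (Q 29) (Q 29) (T1 9 29 (T2 7 30 (N 364) (N 364) (P 30)) (T2 7 30 (N 364) (N 364) (P 30)) (T3 2 29 (T2 7 30 (N 304) (N 304) (P 30)) (T2 7 30 (N 304) (N 304) (P 30)) (P 29)))) (P 30) (P 17)) (T2 4 17 (Q 45) (P 30) (P 17)) (P 16))) (T1 5 16 (T2 4 17 (T0 8 21 (Q 29) (Q 29) (T1 9 29 (Q 43) (P 71) (P 29))) (P 30) (P 17)) (T2 4 17 (Q 29) (P 30) (P 17)) (P 16)) (P 14)) (P 14) (P 13)))) (T1 4 13 (T2 3 13 (Q 14) (Q 14) (T3 1 13 f252 (P 14) (P 14))) (T2 3 13 (Q 14) (Q 14) f252) (T2 3 13 f242 f243 (T3 1 14 (T3 1 15 (T1 5 16 (T3 1 16 (Q 21) (Q 17) (Q 17)) (T3 1 16 (Q 21) (Q 17) (Q 17)) (T3 1 16 (T2 4 17 (T3 1 17 (Q 22) (Q 19) (Q 19)) (T3 1 17 (Q 22)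 (Q 19) (Q 19)) (T3 1 17 (T3 1 18 (T1 6 19 (Q 21) (Q 21) (T3 1 19 (T3 1 20 (T2 5 21 (Q 34) (Q 34) (T3 1 21 (T1 7 22 (Q 29) (Q 29) (T3 1 22 (T3 1 23 (T3 1 24 (T2 6 25 (N 408) (N 408) (T3 1 25 (Q 34) (Q 29) (Q 25))) (T2 6 25 (N 525) (N 837) (Q 25)) (T2 6 25 (Q 34) (Q 34) (Q 25))) (Q 47) (Q 47)) (Q 47) (P 22))) (T1 7 22 (Q 29) (Q 29) (P 22)) (P 21))) (T2 5 21 (Q 22) (Q 22) (P 21)) (T2 5 21 (Q 22) (Q 22) (P 21))) (T2 5 21 (Q 22) (Q 22) (P 21)) (P 19))) (T1 6 19 (Q 21) (P 73) (P 19)) (T1 6 19 (Q 21) (P 73) (P 19))) (T1 6 19 (Q 21) (P 35) (P 19)) (P 17))) (T2 4 17 (Q 19) (P 81) (P 17)) (P 16))) (T1 5 16 (Q 17) (P 61) (P 16)) (T1 5 16 (T2 4 17 (T1 9 29 (Q 73) (Q 73) (T3 2 29 (T2 7 30 (N 304) (N 304) (P 30)) (Q 73) (P 29))) (P 30) (P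 17)) (P 45) (P 16))) (T1 5 16 (T2 4 17 (T1 9 29 (Q 43) (P 71) (P 29)) (P 30) (P 17)) (P 29) (P 16)) (P 14)))) f259
def f261 : C := T2 2 9 (T3 1 9 (T1 3 10 f226 (T3 1 10 f227 (P 11) (P 11)) (T3 1 10 f236 (P 11) (P 10))) (P 11) (P 11)) (T3 1 9 (T1 3 10 (Q 14) (Q 14) (T3 1 10 (T3 1 11 (T3 1 12 (T0 5 13 f237 f237 (T1 4 13 f238 (T3 1 13 (Q 23) (P 14) (P 14)) (T3 1 13 (T3 1 14 (T3 1 15 (T1 5 16 (Q 23) (Q 23) (T3 1 16 (T3 1 17 (T0 7 18 (Q 19) (Q 19) (T3 1 18 (T3 1 19 (T3 1 20 (Q 23) (Q 23) (Q 41)) (Q 41) (Q 19)) (Q 19) (Q 19))) (Q 19) f232) f232 (P 16))) (T1 5 16 (Q 23) (Q 23) (P 16)) (T1 5 16 (Q 23) (Q 23) (P 16))) (T1 5 16 (Q 23) (P 29) (P 16)) (P 14)) (P 14) (P 13)))) (P 14) (P 14)) (P 14) (P 11)) (P 11) (P 10))) (P 11) (P 11))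 (T3 1 9 (T1 3 10 (T3 1 10 (T3 1 11 (T3 1 12 (T0 5 13 (T3 1 13 (T3 1 14 (T3 1 15 (Q 17) (Q 17) (T1 5 17 (Q 21) (Q 21) (Q 17))) (T1 5 17 (Q 21) (Q 21) (Q 17)) (P 14)) (P 14) (P 14)) (T3 1 13 (T3 1 14 (Q 21) (Q 21) (P 14)) (P 14) (P 14)) (T2 3 13 (T3 1 13 (Q 18) (P 14) (P 14)) (T3 1 13 (Q 18) (P 14) (P 14)) (T3 1 13 (T3 1 14 (T3 1 15 (T3 1 16 (T1 5 17 (Q 21) (Q 21) (T3 1 17 (Q 21) (Q 18) (Q 17))) (T1 5 17 (Q 18) (Q 18) (Q 17)) f239) f239 f240) f240 (P 14)) (P 14) (P 13)))) (P 14) (P 14)) (P 14) (P 11)) (P 11) (P 11)) (T3 1 10 (T3 1 11 (T3 1 12 (T0 5 13 (T3 1 13 (Q 17) (P 14) (P 14)) (T3 1 13 (Q 17) (P 14) (P 14)) (T2 3 13 (T3 1 13 (Q 18) (P 14) (P 14)) (T3 1 13 (Q 18) (P 14) (P 14)) (T3 1 13 (T3 1 14 (T3 1 15 (T3 1 16 (T3 1 17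 (Q 21) (Q 18) (Q 17)) (Q 17) (T2 4 17 (Q 18) (Q 18) (P 17))) (T2 4 17 (Q 18) (P 47) (P 17)) (T2 4 17 (Q 18) (P 47) (P 17))) (T2 4 17 (Q 18) (P 47) (P 17)) (P 14)) (P 14) (P 13)))) (P 14) (P 14)) (P 14) (P 11)) (P 11) (P 11)) (T3 1 10 (T3 1 11 (T3 1 12 f260 (P 14) (P 14)) (P 14) (P 11)) (P 11) (P 10))) (P 11) (P 9))
def f262 : C := T3 1 7 (T0 3 8 (T3 1 8 f221 (T2 2 9 (T1 3 10 (T0 4 11 f201 (P 25) (P 11)) (T0 4 11 (Q 57) (P 17) (P 11)) (P 10)) (T1 3 10 (T0 4 11 (T0 5 14 (Q 41) (Q 17) (P 14)) (P 14) (P 11)) (Q 37) (P 10)) (P 9)) f223) (T3 1 8 (T2 2 9 (T3 1 9 (T1 3 10 (Q 11) (Q 11) (T3 1 10 (T3 1 11 (T3 1 12 (T3 1 13 (Q 19) (Q 19) f224) (T2 3 14 (Q 25) (Q 19) (P 14)) f224) (T2 3 14 (Q 35) (Q 19) (P 14)) (P 11)) (P 11) (P 10)))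 (P 11) (P 11)) (T3 1 9 (T1 3 10 (Q 11) (Q 11) (T3 1 10 (T3 1 11 (T3 1 12 (Q 19) (P 14) (P 14)) (P 14) (P 11)) (P 11) (P 10))) (P 11) (P 11)) (T3 1 9 (T1 3 10 (Q 14) (Q 14) (T3 1 10 (T3 1 11 (T3 1 12 (T1 4 13 (T3 1 13 (Q 17) (P 14) (P 14)) (T3 1 13 (Q 17) (P 14) (P 14)) (T2 3 13 (T3 1 13 (Q 19) (P 14) (P 14)) (T3 1 13 (Q 19) (P 14) (P 14)) (T3 1 13 (T3 1 14 (T3 1 15 (T1 5 16 (Q 17) (Q 17) (T3 1 16 (T2 4 17 (Q 19) (Q 19) (T3 1 17 (T3 1 18 f217 (Q 19) (T1 6 19 (N 1292) (N 1428) (P 19))) (Q 35) (P 17))) (T2 4 17 (Q 19) (Q 19) (P 17)) (T2 4 17 (Q 19) (Q 19) (P 17)))) (T1 5 16 (Q 17) (Q 17) (T2 4 17 (Q 19) (Q 19) (P 17))) f225) f225 (P 14)) (P 14) (P 13)))) (P 14) (P 14)) (P 14) (P 11)) (P 11) (P 10))) (P 11) (P 9))) (P 11) (P 11))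 (T3 1 8 f261 (P 11) (P 8))) (P 15) (P 7)
def f263 : C := T3 1 6 (T1 2 7 f194 (T3 1 7 (T0 3 8 (T3 1 8 (T2 2 9 (Q 11) (Q 11) (T3 1 9 (T3 1 10 (T0 4 11 (N 220) (N 360) (T3 1 11 (Q 25) (Q 25) (P 11))) (T0 4 11 (N 528) (N 668) (P 11)) (T0 4 11 (T0 5 14 (Q 29) (Q 29) (T3 2 19 (T0 9 25 (Q 29) (Q 29) (Q 25)) (Q 29) (T0 9 25 (Q 29) (Q 29) (Q 39)))) (T3 2 19 (Q 25) (Q 25) (Q 39)) (P 11))) (T0 4 11 (T0 5 14 (Q 29) (Q 29) (T0 9 25 (Q 29) (Q 29) (Q 39))) (Q 39) (P 11)) (P 9))) (T2 2 9 (Q 11) (Q 11) (P 9)) (T2 2 9 (T0 4 11 f179 (P 25) (P 11)) (Q 32) (P 9))) (T3 1 8 (T2 2 9 (Q 11) (Q 11) (T3 1 9 f195 (P 11) (P 9))) (P 11) (P 11)) (T3 1 8 (T2 2 9 (Q 11) (Q 11) (T3 1 9 (T3 1 10 (T3 1 11 (T3 1 12 (T0 5 13 (Q 29) (Q 29) (T2 3 13 (N 780) (N 1200)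 (T3 1 13 (T3 1 14 (Q 18) (Q 18) (T0 7 18 (Q 29) (Q 29) (P 18))) (T0 7 18 (Q 29) (Q 29) (P 18)) (P 13)))) (T0 5 13 (Q 25) (Q 25) (T2 3 13 (N 1235) (Q 18) (P 13))) (T0 5 13 (T0 8 21 (Q 25) (Q 25) (T3 2 23 (Q 25) (Q 25) (T2 6 25 (Q 34) (P 46) (P 25)))) (Q 60) (T2 3 13 (Q 18) (Q 18) (P 13)))) (T0 5 13 (T0 8 21 (Q 25) (Q 25) (T2 6 25 (Q 34) (P 46) (P 25))) (Q 34) (T2 3 13 (Q 18) (Q 18) (P 13))) (P 11)) (P 11) (P 11)) (P 11) (P 9))) (P 11) (P 8))) (P 15) (P 15)) f262) (T1 2 7 (T0 3 8 (T2 2 9 (T0 4 11 (T1 3 11 (T0 5 14 (T2 3 14 (T1 4 15 (Q 20) (Q 20) (P 15)) (T1 4 15 (Q 20) (P 19) (P 15)) (T1 4 15 (T0 6 17 (T1 5 19 (T0 7 20 (Q 32) (Q 32) (P 20)) (Q 61) (P 19)) (P 20) (P 20)) (P 19) (P 15))) (P 20) (P 20)) (P 15) (P 15)) (P 20) (P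 20)) (T1 3 11 (T0 5 14 (T1 4 15 (Q 32) (P 19) (P 15)) (P 20) (P 14)) (P 15) (P 15)) (P 9)) (P 20) (P 8)) (P 15) (P 7)) (P 6)
def f264 : C := T3 1 7 (T2 1 8 (Q 43) (Q 43) (T3 1 8 (Q 43) (Q 43) (P 8))) (O 2) (O 2)
def f265 : C := T3 1 7 (T3 1 8 (Q 11) (Q 11) (P 8)) (P 8) (P 8)
def f266 : C := T2 2 9 (T3 1 9 (T3 1 10 (Q 11) (Q 11) (T1 3 11 (T1 4 15 (Q 19) (Q 19) (T3 2 19 (Q 23) (Q 23) (Q 19))) (Q 48) (P 11))) (T1 3 11 (Q 19) (Q 19) (P 11)) (T1 3 11 (T2 3 14 (T1 4 15 f183 (Q 34) (T3 2 17 (T2 4 19 (Q 26) (Q 26) (P 19)) (Q 53) (T2 4 19 (T2 5 24 (T3 3 25 (Q 26) (Q 26) (T1 7 26 (Q 83) (Q 83) (P 26))) (P 34) (P 34)) (P 34) (P 19)))) (T1 4 15 (Q 43) (P 19) (P 19)) (P 28)) (T2 3 14 (T3 2 17 (Q 48) (P 26) (P 26)) (P 19) (P 19)) (P 11)))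 (T3 1 9 (Q 23) (P 28) (P 28)) (T3 1 9 (T3 1 10 (T1 3 11 (T3 1 11 (T3 1 12 (T3 1 13 (N 572) (N 792) (Q 13)) (Q 13) (Q 13)) (Q 13) (T2 3 13 (Q 23) (Q 23) (P 13))) (T3 1 11 (T3 1 12 (T3 1 13 (N 832) (N 1052) (Q 13)) (Q 13) (Q 13)) (P 23) (P 23)) (T3 1 11 (T3 1 12 (T2 3 13 (N 1092) (N 1512) (T3 1 13 (T3 1 14 (Q 18) (Q 18) (T1 5 18 (Q 33) (Q 29) (P 18))) (T1 5 18 (Q 33) (Q 29) (P 18)) (P 13))) (T2 3 13 (Q 18) (Q 18) (P 13)) (T2 3 13 (T1 5 18 (N 572) (N 572) (P 18)) (P 48) (P 13))) (P 23) (P 11))) (T1 3 11 (T2 3 13 (Q 23) (Q 23) (P 13)) (P 23) (P 11)) (T1 3 11 (T2 3 13 (T1 4 15 (T1 5 19 (T2 5 22 (Q 23) (Q 23) (T1 6 23 (Q 28) (P 31) (P 23))) (P 23) (P 23)) (P 23) (P 23)) (T1 4 15 (T1 5 19 (Q 48) (P 23) (P 23)) (P 23) (P 23)) (P 13))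 (P 23) (P 11))) (P 28) (P 9))
def f267 : C := T3 1 12 (T1 4 13 (T3 1 13 (T3 1 14 (Q 23) (Q 23) (Q 14)) (Q 14) (T2 3 14 (T2 4 19 (Q 53) (Q 43) (T1 7 23 (Q 38) (P 43) (P 43))) (T1 7 23 (Q 38) (P 33) (P 33)) (P 14))) (T3 1 13 (Q 33) (Q 14) (Q 53)) (T3 1 13 (T2 3 14 (T3 1 14 (T3 1 15 (T3 1 16 (T3 1 17 f230 (T2 4 19 (Q 58) (Q 43) (Q 19)) (T2 4 19 (T2 5 24 (T2 6 29 (T3 2 33 (Q 88) (Q 83) (T2 7 34 (Q 118) (Q 73) (Q 34))) (Q 34) (Q 34)) (Q 34) (Q 34)) (Q 34) (Q 19))) (T2 4 19 (T2 5 24 (T2 6 29 (T2 7 34 (Q 118) (Q 49) (Q 34)) (Q 34) (Q 34)) (Q 34) (Q 34)) (Q 34) (Q 19)) (Q 16)) (Q 16) (Q 16)) (Q 16) (T1 5 16 (Q 43) (Q 29) (P 16))) (T3 1 14 (T3 1 15 (T3 1 16 (T3 1 17 (Q 43) (Q 19) (Q 19)) (P 33) (P 33)) (P 33) (P 33)) (P 33) (P 33))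 (T3 1 14 (T3 1 15 (T1 5 16 (Q 23) (Q 23) (T3 1 16 (T3 1 17 (T3 1 18 (Q 28) (Q 19) (Q 19)) (Q 19) (T1 6 19 (Q 23) (Q 23) (P 19))) (P 33) (P 16))) (P 33) (P 33)) (P 33) (P 14))) (T2 3 14 (T1 5 16 (Q 43) (Q 29) (P 16)) (P 33) (P 14)) (P 13))) (T1 4 13 (T2 3 14 (Q 63) (P 38) (P 14)) (Q 49) (P 13)) (T1 4 13 (T2 3 14 (T2 4 19 (T1 7 23 (T3 2 23 (Q 63) (Q 58) (T2 5 24 (T2 6 29 (Q 103) (Q 73) (P 58)) (P 58) (P 24))) (T3 2 23 (Q 53) (Q 53) (T2 5 24 (T2 6 29 (Q 103) (P 63) (P 58)) (P 53) (P 24))) (T3 2 23 (T2 5 24 (T2 6 29 (Q 59) (P 63) (P 63)) (P 53) (P 24)) (Q 93) (P 23))) (P 24) (P 24)) (P 24) (P 14)) (P 36) (P 13))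
def f268 : C := T1 3 10 (T3 1 11 (T3 1 12 (T2 3 13 (Q 18) (Q 18) (T3 1 13 (T3 1 14 (T3 1 15 (T3 1 16 (T1 5 17 (Q 21) (Q 21) (T3 1 17 (Q 21) (P 18) (P 18))) (P 18) (P 18)) (P 18) (P 18)) (P 18) (P 14)) (P 14) (P 13))) (P 14) (P 14)) (P 14) (P 11)) (T2 3 13 (Q 18) (Q 18) (T3 1 15 (T3 1 16 (T3 1 17 (Q 21) (P 18) (P 18)) (P 18) (P 18)) (P 18) (P 18))) (T1 4 13 (T2 3 13 (Q 18) (Q 18) (T3 1 15 (T3 1 16 (T2 4 17 (Q 18) (Q 18) (T3 1 17 (T3 1 18 (T3 1 19 (T3 1 20 (T3 1 21 (T3 1 22 (Q 33) (Q 33) (T1 7 23 (Q 73) (Q 33) (P 23))) (T1 7 23 (Q 73) (P 43) (P 23)) (Q 21)) (Q 21) (Q 21)) (Q 21) (T2 5 21 (Q 23) (P 38) (P 21))) (T2 5 21 (Q 23) (P 38) (P 21)) (P 18)) (P 18) (P 17))) (P 18) (P 18)) (P 18) (P 18))) (T2 3 13 (Q 18) (Q 18) (T2 4 17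 (Q 18) (Q 18) (T3 1 18 (T3 1 19 (T3 1 20 (T3 1 21 (Q 33) (P 23) (P 23)) (P 23) (P 23)) (P 23) (P 23)) (P 23) (P 18)))) (T2 3 13 (T3 1 15 (T1 5 16 (Q 18) (Q 18) (T3 1 16 (T3 1 17 (T3 1 18 (T1 6 19 (Q 23) (Q 23) (T3 1 19 (T3 1 20 (T3 1 21 (T2 5 22 (Q 28) (Q 28) (T3 1 22 (Q 31) (P 23) (P 23))) (P 23) (P 23)) (P 23) (P 23)) (P 23) (P 19))) (P 23) (P 18)) (P 18) (P 18)) (P 18) (P 16))) (P 18) (P 18)) (T1 5 16 (Q 18) (Q 18) (T3 1 18 (T1 6 19 (Q 23) (Q 23) (T3 1 19 (T3 1 20 (T3 1 21 (T3 1 22 (Q 31) (P 23) (P 23)) (P 23) (P 23)) (P 23) (P 23)) (P 23) (P 19))) (P 23) (P 18))) (P 13)))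
def f269 : C := T2 1 5 (T3 1 5 (T2 1 6 (T3 1 6 (T1 2 7 (Q 8) (Q 8) (T2 1 7 f264 (T3 1 7 (T3 1 8 (Q 43) (Q 43) (P 8)) (P 8) (O 2)) (T3 1 7 (T3 1 8 (T3 1 9 (Q 13) (Q 13) (T1 4 13 (N 312) (N 432) (T2 2 13 (T3 2 17 (Q 28) (Q 28) (T2 3 20 (Q 28) (Q 28) (T3 3 25 (Q 28) (Q 28) (T1 9 28 (Q 33) (Q 33) (P 28))))) (T3 2 17 (Q 28) (Q 28) (T3 3 25 (Q 28) (Q 28) (T1 9 28 (Q 33) (P 53) (P 28)))) (P 13)))) (T1 4 13 (N 702) (N 822) (T2 2 13 (T2 3 20 (Q 28) (Q 28) (Q 41)) (P 33) (P 13))) (P 8)) (P 8) (P 7)))) (O 2) (O 2)) (T3 1 6 (T1 2 7 (Q 8) (Q 8) (T3 1 7 (T3 1 8 (T3 1 9 (Q 13) (Q 13) (T1 4 13 (N 767) (N 887) (P 13))) (Q 33) (P 8)) (P 8) (P 7))) (P 8) (O 2)) (T3 1 6 (T1 2 7 f265 (Q 18) (T3 1 7 (T3 1 8 (T3 1 9 (T1 3 10 (Q 11) (Q 11) (T3 1 10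 (T2 2 11 (Q 13) (Q 13) (T3 1 11 (T3 1 12 (T3 1 13 (Q 16) (Q 16) (Q 13)) (Q 13) (Q 13)) (Q 13) (P 11))) (T2 2 11 (Q 13) (Q 13) (P 11)) (T2 2 11 (T1 4 13 (Q 23) (Q 23) (P 13)) (Q 23) (P 11)))) (T1 3 10 (Q 11) (Q 11) (T2 2 11 (T1 4 13 (Q 23) (Q 23) (P 13)) (P 28) (P 11))) (P 18)) (P 18) (P 8)) (P 8) (P 7))) (P 8) (P 6))) (O 2) (O 2)) (T1 2 7 f265 (Q 11) (T3 1 9 (T1 3 10 (Q 11) (Q 11) (T3 1 11 (T3 1 12 (Q 16) (Q 13) (Q 13)) (Q 13) (P 11))) (P 11) (P 11))) (T1 2 7 (T3 1 7 (T3 1 8 f266 (T2 2 9 (T1 3 11 (T2 3 14 (T1 4 15 (Q 58) (Q 34) (T1 7 26 (Q 49) (P 41) (P 26))) (P 33) (P 28)) (P 26) (P 11)) (P 28) (P 9)) (P 8)) (P 8) (P 8)) (T2 2 9 (Q 11) (Q 11) (Q 18)) (T2 2 9 (T3 1 9 (T1 3 10 f226 f227 (T3 1 11 f267 (T1 4 13 (T1 7 23 (T2 5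 24 (T2 6 29 (Q 103) (P 34) (P 34)) (P 34) (P 24)) (P 56) (P 23)) (P 23) (P 13)) (P 11))) (P 11) (P 11)) (T1 3 10 (Q 14) (Q 14) (T1 4 13 f238 (Q 23) (Q 23))) f268))
def f270 : C := T3 1 7 (T3 1 8 (Q 19) (Q 19) (P 8)) (P 8) (P 8)
def f271 : C := T2 1 7 (T3 1 7 (Q 8) (O 2) (O 2)) (Q 8) f270
def f272 : C := T3 1 8 (T3 1 9 (T3 1 10 (Q 22) (Q 22) (Q 10)) (Q 10) (Q 10)) (Q 10) (P 8)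
def f273 : C := T3 1 7 (T2 1 8 (T3 1 8 (Q 10) (O 2) (O 2)) (Q 10) f272) (O 2) (O 2)
def f274 : C := T1 5 17 (Q 19) (Q 19) (T3 2 19 (Q 31) (Q 31) (Q 19))
def f275 : C := T3 2 21 (Q 22) (Q 22) (T1 7 22 (Q 33) (Q 33) (P 22))
def f276 : C := T1 3 10 f274 (T3 2 19 (Q 31) (Q 31) (Q 19)) (T3 1 10 (T3 1 11 (T0 5 12 (Q 13) (Q 13) (T3 1 12 (T3 1 13 (Q 19) (Q 19) (Q 13)) (Q 13) (T2 2 13 (T2 3 20 (T2 4 27 (Q 82) (Q 34) (T3 3 34 (Q 47) (Q 47) (Q 34))) (T3 3 34 (Q 47) (Q 47) (Q 34)) (T3 2 23 (Q 40) (Q 40) (T0 11 26 (Q 34) (Q 34) (T0 14 33 (T2 5 33 (N 33) (Q 34) (T3 3 34 (N 351) (N 351) (Q 34))) (T2 5 33 (Q 34) (Q 34) (T3 3 34 (N 351) (N 351) (Q 34))) (T2 5 33 (T3 3 34 (Q 40) (Q 40) (Q 34)) (T3 3 34 (Q 40) (Q 40) (Q 34)) (T3 3 34 (T0 17 40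 (Q 46) (Q 46) (Q 40)) (T0 17 40 (Q 46) (Q 46) (Q 40)) (Q 34))))))) (T3 2 23 (Q 40) (Q 40) (T0 11 26 (Q 34) (Q 34) (T0 14 33 (Q 46) (Q 46) (Q 59)))) (Q 13)))) (T0 5 12 (Q 13) (Q 13) (T2 2 13 (T2 3 20 (T2 4 27 (Q 82) (Q 34) (Q 34)) (Q 34) (Q 34)) (Q 34) (Q 13))) (T0 5 12 (T2 2 13 (Q 22) (Q 22) (Q 13)) (T2 2 13 (Q 22) (Q 22) (Q 13)) (T1 4 13 (Q 33) (Q 33) (T2 2 13 (T0 8 19 (Q 22) (Q 22) (T2 3 20 (Q 22) (Q 22) f275)) (T0 8 19 (Q 22) (Q 22) f275) (P 13))))) (T0 5 12 (T2 2 13 (Q 22) (Q 22) (Q 13)) (T2 2 13 (Q 22) (Q 22) (Q 13)) (T1 4 13 (Q 31) (Q 31) (T2 2 13 (T0 8 19 (Q 22) (Q 22) (T2 3 20 (Q 22) (Q 22) (T1 7 22 (Q 33) (P 41) (P 22)))) (T0 8 19 (Q 22) (Q 22) (T1 7 22 (Q 33) (P 41) (P 22))) (P 13)))) (P 10))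
def f277 : C := T1 5 17 (Q 25) (Q 25) (T3 2 17 (Q 27) (Q 27) (P 17))
def f278 : C := T1 5 17 (Q 33) (Q 33) (T3 2 17 (Q 27) (Q 27) (P 17))
def f279 : C := T2 4 25 (Q 41) (Q 41) (T3 3 25 (Q 55) (Q 55) (P 25))
def f280 : C := T3 3 25 (Q 26) (Q 26) (T0 11 26 (Q 41) (Q 41) (P 26))
def f281 : C := T2 2 13 (T3 2 17 (Q 27) (Q 27) (P 17)) (P 27) (P 27)
def f282 : C := T3 1 8 (T3 1 9 f276 (T1 3 10 (Q 19) (Q 19) (P 10)) (T1 3 10 (T0 5 12 (T0 7 17 (Q 25) (Q 25) f277) f277 (T2 2 13 f278 f278 (T1 5 17 (T3 2 17 (T0 8 19 (N 102) (N 102) (Q 19)) (T0 8 19 (N 798) (N 900) (Q 19)) (T0 8 19 (T1 7 24 (T3 3 25 (N 216) (N 216) (Q 25)) (T3 3 25 (N 425) (N 558) (Q 25)) f279) (T1 7 24 (T3 3 25 (N 216) (N 216) (Q 25)) (Q 31) (T2 4 25 (Q 41) (P 69) (P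 69))) (T2 3 19 (T1 7 24 (Q 26) (Q 26) f280) (T1 7 24 (Q 26) (Q 26) (Q 45)) (P 19)))) (T3 2 17 (T0 8 19 (N 798) (N 900) (Q 19)) (T0 8 19 (N 798) (N 900) (Q 19)) (T0 8 19 f279 (T2 4 25 (Q 41) (P 69) (P 69)) (T2 3 19 f280 (Q 45) (P 19)))) (T3 2 17 (T0 8 19 (T3 3 26 (T1 8 27 (N 216) (N 546) (P 27)) (Q 44) (T1 8 27 (Q 55) (Q 44) (P 27))) (T3 3 26 (Q 31) (Q 31) (T1 8 27 (Q 31) (Q 31) (P 27))) (T2 3 19 (T3 3 26 (Q 27) (Q 27) (Q 26)) (Q 45) (P 19))) (T0 8 19 (T1 8 27 (Q 43) (Q 43) (P 27)) (Q 69) (T2 3 19 (Q 26) (Q 26) (P 19))) (P 17))))) (T0 5 12 (Q 27) (Q 27) f281) (P 10))) (T1 3 10 (T0 5 12 (T0 7 17 (Q 25) (Q 25) (T1 5 17 (Q 25) (Q 25) (P 17))) (T1 5 17 (Q 25) (Q 25) (P 17)) (T2 2 13 (T1 5 17 (Q 33) (Q 33) (P 17)) (T1 5 17 (Q 33)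 (P 41) (P 17)) (T1 5 17 (T0 8 19 (T1 7 24 (Q 25) (Q 25) (T2 4 25 (Q 41) (Q 41) (P 25))) (T1 7 24 (Q 25) (Q 25) (Q 107)) (T2 3 19 (T1 7 24 (Q 26) (Q 26) (T0 11 26 (Q 41) (Q 41) (P 26))) (T1 7 24 (Q 26) (Q 26) (Q 45)) (P 19))) (P 41) (P 17)))) (T0 5 12 (Q 27) (P 17) (P 17)) (P 10)) (P 8)
def f283 : C := T3 4 37 (Q 47) (Q 47) (T1 10 39 (T1 11 43 (T3 5 46 (N 340) (N 340) (Q 83)) (Q 47) (Q 47)) (Q 47) (Q 39))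
def f284 : C := T3 2 19 (T2 3 22 (T1 6 23 (T1 7 27 (Q 39) (Q 31) (Q 31)) (Q 31) (Q 23)) (T1 6 23 (Q 59) (Q 31) (Q 23)) (T1 6 23 (T1 7 27 (T2 4 29 (Q 59) (Q 51) (T3 3 29 (T1 8 31 (T1 9 35 (T2 5 36 (N 280) (N 280) (T1 10 39 (T3 4 39 (T1 11 43 (Q 71) (Q 51) (Q 43)) (Q 79) (T1 11 43 (T1 12 47 (T1 13 51 (T1 14 55 (T1 15 59 (Q 99) (Q 71) (Q 59)) (Q 59) (Q 59)) (Q 59) (Q 51)) (Q 51) (Q 51)) (Q 51) (Q 51))) (Q 51) (Q 51))) (Q 51) (Q 51)) (Q 51) (Q 31)) (T1 8 31 (T1 9 35 (T2 5 36 (N 280) (N 280) (T1 10 39 (T1 11 43 (T1 12 47 (Q 107) (Q 51) (Q 51)) (Q 51) (Q 51)) (Q 51) (Q 39))) (Q 39) (Q 39)) (Q 39) (Q 31)) (Q 29))) (Q 31) (Q 31)) (Q 31) (Q 23))) (T2 3 22 (Q 39) (Q 39) (T1 6 23 (T1 7 27 (T2 4 29 (Q 59) (Q 51) (Q 29)) (Q 31) (Q 31))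 (Q 31) (Q 23))) (T2 3 22 (T1 6 23 (T1 7 27 (T3 3 28 (T1 8 31 (T1 9 35 (Q 67) (Q 39) (Q 39)) (Q 39) (Q 31)) (Q 47) (T1 8 31 (T1 9 35 (T2 5 37 f283 f283 (T3 4 37 (Q 67) (Q 67) (Q 37))) (Q 39) (Q 39)) (Q 39) (Q 31))) (Q 31) (Q 31)) (Q 31) (Q 23)) (T1 6 23 (T1 7 27 (T3 3 28 (Q 59) (Q 47) (T1 8 31 (T1 9 35 (T3 4 37 (Q 59) (Q 59) (Q 37)) (Q 39) (Q 39)) (Q 39) (Q 31))) (Q 31) (Q 31)) (Q 31) (Q 23)) (T1 6 23 (T1 7 27 (T3 3 28 (T2 4 29 (Q 59) (Q 59) (Q 29)) (T2 4 29 (Q 59) (Q 59) (Q 29)) (T2 4 29 (T1 8 31 (T1 9 35 (T3 4 37 (Q 103) (Q 103) (Q 37)) (Q 39) (Q 39)) (Q 39) (Q 31)) (T1 8 31 (T1 9 35 (T3 4 37 (Q 95) (Q 95) (Q 37)) (Q 39) (Q 39)) (Q 39) (Q 31)) (Q 29))) (Q 31) (Q 31)) (Q 31) (Q 23)))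
def f285 : C := T1 4 15 (T2 2 15 (T1 5 19 (T3 2 19 (Q 31) (Q 31) (T1 6 23 (T2 3 23 (T1 7 27 (Q 39) (Q 39) (T2 4 31 (Q 55) (Q 39) (Q 31))) (Q 39) (T1 7 27 (T3 3 28 (N 270) (N 270) (T1 8 31 (T1 9 35 (T2 5 38 (N 342) (N 486) (T1 10 39 (Q 55) (Q 47) (Q 39))) (Q 39) (Q 39)) (Q 39) (Q 31))) (Q 31) (Q 31))) (T2 3 23 (T2 4 31 (Q 55) (Q 39) (Q 31)) (Q 31) (Q 31)) (T2 3 23 (T3 3 28 (Q 31) (Q 31) (T2 4 31 (T3 4 37 (Q 47) (Q 47) (T2 5 39 (T1 11 42 (T2 6 47 (Q 73) (Q 55) (Q 47)) (Q 65) (Q 65)) (Q 47) (Q 39))) (Q 39) (Q 31))) (Q 31) (Q 23)))) (T3 2 19 (Q 23) (Q 23) (T2 3 23 (T3 3 28 (Q 31) (Q 31) (T2 4 31 (T3 4 37 (Q 47) (Q 47) (Q 65)) (Q 39) (Q 31))) (Q 31) (Q 23))) (T3 2 19 (T2 3 23 (T3 3 29 (Q 31) (Q 31) (T2 4 31 (Q 87) (Q 39) (Q 31)))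 (Q 31) (Q 23)) (T2 3 23 (T2 4 31 (Q 87) (Q 39) (Q 31)) (Q 31) (Q 23)) (Q 19))) (T1 5 19 (T3 2 19 (Q 31) (Q 31) (T1 6 23 (T1 7 27 (T3 3 28 (N 532) (N 802) (T1 8 31 (T1 9 35 (Q 83) (Q 39) (Q 39)) (Q 39) (Q 31))) (Q 31) (Q 31)) (Q 31) (Q 23))) (Q 23) (Q 23)) (T1 5 19 f284 (Q 23) (Q 23))) (T2 2 15 (T3 2 19 (T2 3 23 (Q 49) (Q 31) (Q 23)) (Q 49) (Q 19)) (Q 23) (Q 23)) (T2 2 15 (T3 2 19 (T2 3 23 (T1 7 26 (T3 3 29 (T2 4 31 (T2 5 39 (Q 79) (Q 71) (T3 4 39 (Q 71) (Q 49) (Q 39))) (Q 109) (Q 31)) (Q 49) (Q 49)) (Q 41) (Q 41)) (Q 31) (Q 23)) (T2 3 23 (Q 49) (Q 31) (Q 23)) (Q 19)) (Q 23) (Q 15))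
def f286 : C := T3 1 10 (T1 3 11 (T3 1 11 (T1 4 15 (Q 23) (Q 23) (Q 15)) (Q 23) (T1 4 15 (T2 2 15 (N 30) (Q 23) (T1 5 19 (T3 2 21 (Q 23) (Q 23) (T2 3 22 (N 110) (N 190) (T1 6 23 (T1 7 27 (Q 43) (Q 31) (T3 3 31 (Q 43) (Q 43) (Q 31))) (T3 3 31 (Q 43) (Q 43) (Q 31)) (Q 23)))) (Q 23) (Q 23))) (Q 23) (T2 2 15 (T3 2 21 (Q 23) (Q 23) (T2 3 23 (T1 7 26 (N 130) (N 230) (T2 4 31 (Q 41) (Q 41) (T3 3 31 (N 506) (N 506) (Q 31)))) (T1 7 26 (N 130) (N 360) (T3 3 31 (N 682) (N 1188) (Q 31))) (Q 23))) (Q 23) (Q 15)))) (T3 1 11 (Q 15) (Q 15) (T2 2 15 (T3 2 21 (Q 23) (Q 23) (T2 3 23 (T2 4 31 (Q 41) (Q 41) (Q 63)) (Q 63) (Q 23))) (Q 23) (Q 15))) (T3 1 11 (T3 1 12 (T3 1 13 (Q 15) (Q 15) (T2 2 15 (Q 25) (Q 25) (Q 15))) (T2 2 15 (Q 25) (Q 25) (Q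 15)) (T2 2 15 (T1 5 18 (Q 23) (Q 23) (T2 3 23 (T3 2 23 (Q 25) (Q 25) (T1 7 25 (Q 47) (Q 47) (Q 25))) (T3 2 23 (Q 25) (Q 25) (Q 47)) (T3 2 23 (T1 7 25 (Q 47) (Q 47) (Q 25)) (Q 47) (Q 23)))) (T1 5 18 (Q 23) (Q 23) (T3 2 23 (Q 61) (Q 47) (Q 23))) (Q 15))) (T2 2 15 (T1 5 18 (Q 23) (Q 23) (T2 3 23 (T1 7 25 (Q 47) (Q 47) (Q 25)) (Q 47) (Q 23))) (Q 23) (Q 15)) (Q 11))) (T1 3 11 (T1 4 15 (T2 2 15 (Q 23) (Q 23) (T1 5 19 (T2 3 22 (N 418) (N 608) (T1 6 23 (Q 51) (Q 31) (Q 23))) (Q 23) (Q 23))) (Q 23) (T2 2 15 (T2 3 23 (Q 41) (Q 31) (Q 23)) (Q 23) (Q 15))) (T2 2 15 (Q 41) (Q 23) (Q 15)) (Q 11)) (T1 3 11 f285 (T2 2 15 (T3 2 19 (Q 41) (Q 41) (Q 19)) (Q 23) (Q 15)) (Q 11))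
def f287 : C := T2 5 33 (Q 34) (Q 34) (T3 4 33 (N 396) (N 585) (P 33))
def f288 : C := T2 2 13 (T0 7 16 (T0 10 23 (N 416) (N 416) (T2 5 33 (N 112) (N 112) (Q 33))) (T2 5 33 (Q 53) (Q 53) (Q 33)) (T3 2 17 (Q 53) (Q 43) (T1 5 18 (Q 33) (Q 33) (T2 3 20 (T0 11 25 (Q 57) (Q 41) (T1 7 25 (N 200) (N 360) (T3 3 25 (Q 34) (Q 34) (P 25)))) (T0 11 25 (Q 57) (Q 41) (T1 7 25 (N 432) (N 432) (T3 3 25 (Q 34) (Q 34) (P 25)))) (T0 11 25 (T3 3 25 (N 175) (N 1183) (T1 9 32 (Q 33) (Q 33) (T2 5 33 (T0 18 41 (Q 60) (Q 57) (Q 41)) (T0 18 41 (Q 53) (Q 53) (Q 41)) (T3 4 33 (Q 46) (Q 46) (P 33))))) (T3 3 25 (N 1183) (N 1183) (T1 9 32 (Q 33) (Q 33) (T2 5 33 (Q 41) (Q 41) (T3 4 33 (Q 46) (Q 46) (P 33))))) (T1 7 25 f287 f287 (T3 3 25 (T1 9 32 (N 416) (N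 533) (T2 5 33 (Q 34) (Q 34) (T0 15 34 (Q 46) (Q 46) (P 34)))) (T1 9 32 (N 416) (N 533) (T2 5 33 (Q 34) (Q 34) (T0 15 34 (Q 46) (P 93) (P 34)))) (P 25)))))))) (T0 7 16 (Q 33) (Q 33) (T3 2 17 (Q 46) (Q 43) (T1 5 18 (Q 33) (Q 33) (T0 11 25 (T3 3 25 (N 175) (N 1358) (T1 9 32 (Q 33) (Q 33) (T3 4 33 (Q 46) (Q 46) (P 33)))) (T3 3 25 (N 1358) (N 1358) (T1 9 32 (Q 33) (Q 33) (T3 4 33 (Q 46) (P 157) (P 33)))) (T1 7 25 (T3 4 33 (N 396) (N 675) (P 33)) (T3 4 33 (N 396) (N 857) (P 33)) (T3 3 25 (T1 9 32 (N 558) (N 558) (T0 15 34 (Q 46) (Q 46) (P 34))) (T1 9 32 (N 558) (N 558) (T0 15 34 (Q 46) (P 59) (P 34))) (P 25))))))) (T0 7 16 (T3 2 17 (Q 19) (P 26) (P 26)) (T3 2 17 (Q 19) (P 26) (P 26)) (T3 2 17 (T1 5 18 (Q 19) (Q 19) (T2 3 19 (T0 11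 25 (Q 26) (Q 26) (T1 7 25 (Q 26) (Q 26) (T3 3 26 (T2 5 32 (Q 39) (Q 39) (Q 32)) (T2 5 32 (Q 39) (Q 39) (Q 32)) (P 26)))) (T0 11 25 (Q 26) (Q 26) (T1 7 25 (Q 26) (Q 26) (T3 3 26 (Q 32) (Q 32) (P 26)))) (P 19))) (P 26) (P 26)))
def f289 : C := T1 5 18 (Q 33) (Q 33) (T2 3 20 (Q 43) (P 34) (P 34))
def f290 : C := T1 7 25 (Q 31) (Q 31) (T2 4 25 (Q 32) (Q 32) (P 25))
def f291 : C := T2 4 25 (Q 27) (Q 27) (T3 2 27 (Q 31) (Q 31) (Q 27))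
def f292 : C := T3 1 12 (T2 2 13 (T3 1 13 (Q 15) (Q 15) (T1 4 15 (Q 27) (Q 27) (Q 15))) (T3 1 13 (Q 15) (Q 15) (Q 27)) (T3 1 13 (T3 1 14 (T1 4 15 (T3 1 15 (N 30) (Q 19) (T1 5 19 (Q 31) (Q 31) (Q 19))) (Q 19) (T3 1 15 (Q 19) (Q 19) (Q 15))) (T1 4 15 (T1 5 19 (Q 31) (Q 31) (Q 19)) (Q 19) (Q 15)) (T1 4 15 (T1 5 19 (T1 6 23 (T1 7 27 (T3 2 27 (N 54) (Q 31) (T1 8 31 (Q 55) (Q 43) (Q 31))) (Q 31) (Q 31)) (Q 31) f291) f291 (T2 3 19 (Q 27) (Q 27) (Q 19))) (T2 3 19 (Q 27) (Q 27) (Q 19)) (Q 15))) (T1 4 15 (T1 5 19 (T1 6 23 (T1 7 27 (T1 8 31 (Q 55) (Q 43) (Q 31)) (Q 31) (Q 27)) (Q 27) (Q 27)) (Q 27) (Q 27)) (Q 27) (Q 15)) (Q 13))) (T2 2 13 (T1 4 15 (Q 27) (Q 27) (Q 15)) (Q 27) (Q 13)) (T2 2 13 (T1 4 15 (T1 5 19 (T2 3 20 (Q 35) (Q 35) (T1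 6 23 (T3 2 23 (T1 7 27 (Q 35) (Q 35) (Q 27)) (Q 35) (T1 7 27 (T1 8 31 (T2 5 33 (Q 47) (Q 47) (T3 3 34 (Q 35) (Q 35) (T1 9 35 (T1 10 39 (Q 79) (Q 47) (Q 47)) (Q 47) (Q 35)))) (Q 35) (Q 35)) (Q 35) (Q 27))) (Q 27) (Q 27))) (T2 3 20 (Q 35) (Q 27) (Q 27)) (T2 3 20 (T3 2 23 (T2 4 27 (T1 9 34 (N 506) (N 506) (T2 5 34 (Q 49) (Q 49) (T3 3 35 (Q 49) (Q 49) (Q 35)))) (Q 61) (Q 27)) (Q 35) (Q 23)) (Q 27) (Q 27))) (T2 3 20 (Q 49) (Q 27) (Q 27)) (Q 15)) (T1 4 15 (T1 5 19 (T1 6 23 (T3 2 23 (T1 7 27 (Q 35) (Q 35) (Q 27)) (Q 35) (Q 59)) (Q 27) (Q 27)) (Q 27) (Q 27)) (Q 27) (Q 15)) (Q 13))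
def f293 : C := T0 6 13 (Q 31) (Q 31) (T2 2 13 (Q 15) (Q 15) (P 13))
def f294 : C := T2 4 27 (Q 109) (Q 95) (T3 2 31 (Q 81) (Q 47) (T3 3 46 (Q 81) (Q 81) (T2 7 47 (T3 4 61 (Q 81) (Q 81) (Q 61)) (Q 215) (Q 47))))
def f295 : C := T2 3 20 (T2 4 27 (Q 109) (Q 61) (Q 61)) (Q 47) (Q 47)
def f296 : C := T1 5 18 (Q 33) (Q 33) (T2 3 19 (Q 33) (Q 33) (Q 19))
def f297 : C := T0 6 13 (Q 25) (Q 25) (T2 2 13 (Q 15) (Q 15) (P 13))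
def f298 : C := T3 1 11 (T3 1 12 (T2 2 13 (T3 1 13 (T3 1 14 (T3 1 15 (T3 1 16 (T2 5 33 (N 112) (N 112) (T3 2 33 (Q 53) (Q 53) (Q 33))) (T2 5 33 (N 462) (N 574) (Q 33)) (T2 3 20 f294 (T3 2 31 (Q 67) (Q 47) (Q 47)) (T1 7 25 (Q 33) (Q 33) (T3 2 31 (T1 9 32 (N 416) (N 494) (T2 5 33 (T3 3 47 (Q 67) (Q 67) (Q 47)) (Q 53) (Q 33))) (Q 47) (Q 47))))) f295 (Q 15)) (Q 15) (Q 15)) (Q 15) (Q 15)) (T3 1 13 (T3 1 14 (T3 1 15 (T3 1 16 (Q 85) (Q 33) (Q 33)) (Q 33) (Q 15)) (Q 15) (Q 15)) (Q 15) (Q 15)) (T3 1 13 (T3 1 14 (T3 1 15 (T3 1 16 (T3 1 17 (T1 5 18 (Q 19) (Q 19) (T3 1 18 (T3 1 19 (Q 25) (Q 25) (Q 19)) (Q 19) (T2 3 19 (Q 39) (Q 39) (Q 19)))) (T1 5 18 (Q 19) (Q 19) (T2 3 19 (Q 39) (Q 39) (Q 19))) (T1 5 18 (Q 19) (Q 19) (T2 3 19 (T1 7 25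 (Q 33) (Q 33) (T1 9 32 (T2 5 32 (N 32) (Q 33) (T3 2 33 (N 462) (N 494) (Q 33))) (T2 5 32 (Q 33) (Q 33) (T3 2 33 (N 462) (N 494) (Q 33))) (T2 5 32 (T3 2 33 (Q 39) (Q 39) (Q 33)) (T3 2 33 (Q 39) (Q 39) (Q 33)) (T3 2 33 (T1 11 39 (T3 3 50 (N 950) (N 1216) (Q 217)) (Q 71) (Q 39)) (T1 11 39 (Q 83) (Q 71) (Q 39)) (Q 33))))) (Q 51) (Q 19)))) (T1 5 18 (Q 19) (Q 19) (T2 3 19 (Q 33) (Q 33) (Q 19))) f296) f296 (Q 15)) (Q 15) (Q 15)) (Q 15) (Q 13))) (T2 2 13 (Q 15) (Q 15) (Q 13)) f297) f297 (P 11)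
def f299 : C := T1 3 11 (T3 1 11 f292 (T2 2 13 (T1 4 15 (T1 5 19 (T2 3 20 (Q 35) (Q 35) (T1 6 23 (Q 67) (Q 27) (Q 23))) (Q 23) (Q 23)) (Q 23) (Q 15)) (T1 4 15 (T1 5 19 (T1 6 23 (Q 59) (Q 27) (Q 23)) (Q 23) (Q 23)) (Q 23) (Q 15)) (Q 13)) (T0 6 13 (Q 31) (Q 31) (T2 2 13 (T1 4 15 (T1 5 19 (T2 3 20 (T3 2 21 (T1 6 23 (T1 7 27 (T2 4 27 (T1 8 31 (Q 43) (Q 35) (Q 35)) (Q 55) (T1 8 31 (T3 3 32 (Q 55) (Q 55) (Q 75)) (Q 35) (Q 35))) (Q 35) (Q 35)) (Q 35) (Q 23)) (T1 6 23 (T1 7 27 (T2 4 27 (Q 43) (Q 43) (Q 75)) (Q 35) (Q 35)) (Q 35) (Q 23)) (Q 21)) (T3 2 21 (T1 6 23 (Q 67) (Q 27) (Q 23)) (T1 6 23 (Q 67) (Q 27) (Q 23)) (Q 21)) (T3 2 21 (T1 6 23 (T1 7 27 (T1 8 31 (T3 3 32 (T2 5 33 (Q 67) (Q 67) (Q 33)) (T2 5 33 (Q 67) (Q 67) (Q 33)) (T2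 5 33 (T1 9 35 (Q 107) (Q 43) (Q 35)) (T1 9 35 (Q 107) (Q 43) (Q 35)) (Q 33))) (Q 35) (Q 35)) (Q 35) (Q 27)) (Q 27) (Q 23)) (T1 6 23 (T1 7 27 (T1 8 31 (T2 5 33 (T1 9 35 (Q 107) (Q 43) (Q 35)) (Q 53) (Q 33)) (Q 35) (Q 35)) (Q 35) (Q 27)) (Q 27) (Q 23)) (Q 21))) (Q 23) (Q 23)) (Q 23) (Q 15)) (T1 4 15 (T1 5 19 (T3 2 21 (Q 33) (Q 33) (Q 21)) (Q 23) (Q 23)) (Q 23) (Q 15)) (P 13)))) (T3 1 11 (T3 1 12 (T2 2 13 (Q 15) (Q 15) (T3 1 13 (T3 1 14 (T3 1 15 (Q 19) (Q 19) (Q 15)) (Q 15) (Q 15)) (Q 15) (Q 13))) (Q 15) (Q 15)) (Q 15) f293) f298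
def f300 : C := T0 13 29 (Q 43) (Q 43) (T3 3 29 (Q 43) (Q 43) (P 29))
def f301 : C := T1 3 11 (Q 19) (Q 19) (T2 2 13 (Q 29) (P 20) (P 20))
def f302 : C := T0 5 11 (T1 3 11 (Q 19) (Q 19) (T2 2 13 (Q 29) (Q 29) (T1 5 18 (T2 3 19 (Q 20) (Q 20) (T3 2 19 (T0 9 20 (N 180) (N 342) (P 20)) (T0 9 20 (N 180) (N 522) (P 20)) (P 19))) (T2 3 19 (Q 20) (Q 20) (T3 2 19 (T0 9 20 (N 1140) (N 1482) (P 20)) (Q 29) (P 19))) (T2 3 19 (T3 2 19 (Q 20) (Q 20) (T0 9 20 (T3 3 28 (Q 29) (Q 29) (T0 13 29 (Q 39) (P 47) (P 29))) (P 29) (P 20))) (T3 2 19 (Q 20) (Q 20) (T0 9 20 (T3 3 28 (Q 29) (Q 29) (T0 13 29 (Q 32) (P 47) (P 29))) (P 29) (P 20))) (T3 2 19 (T0 9 20 (T1 7 25 f300 (Q 43) (T2 4 25 (Q 29) (Q 29) (P 25))) (T1 7 25 (Q 49) (Q 43) (T2 4 25 (Q 29)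 (Q 29) (P 25))) (P 20)) (T0 9 20 (T1 7 25 (T0 13 29 (Q 43) (Q 43) (P 29)) (Q 43) (T2 4 25 (Q 29) (Q 29) (P 25))) (P 29) (P 20)) (P 19)))))) f301 (T1 3 11 (T0 6 13 (Q 20) (Q 20) (T2 2 13 (T0 7 15 (T2 3 20 (Q 28) (Q 28) (P 20)) (T2 3 20 (Q 28) (Q 28) (P 20)) (T1 4 15 (T0 8 17 (Q 20) (Q 20) (T0 9 19 (T1 5 19 (Q 20) (Q 20) (T3 2 19 (N 247) (N 806) (T2 3 20 (Q 28) (Q 28) (P 20)))) (T1 5 19 (Q 20) (Q 20) (T3 2 19 (N 806) (N 806) (T2 3 20 (Q 28) (Q 28) (P 20)))) (T1 5 19 (T3 2 19 (Q 21) (Q 21) (T2 3 20 (T0 10 21 (Q 28) (Q 28) (P 21)) (T0 10 21 (Q 28) (Q 28) (P 21)) (P 20))) (T3 2 19 (Q 21) (Q 21) (T2 3 20 (T0 10 21 (Q 28) (Q 28) (P 21)) (T0 10 21 (Q 28) (P 61) (P 21)) (P 20))) (T3 2 19 (T2 3 20 (Q 21) (Q 21) (P 20)) (T2 3 20 (Q 21)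 (Q 21) (P 20)) (P 19))))) (T0 8 17 (Q 20) (Q 20) (T0 9 19 (Q 34) (Q 34) (T3 2 19 (T2 3 20 (Q 21) (P 34) (P 20)) (P 49) (P 19)))) (P 15))) (P 20) (P 13))) (T0 6 13 (Q 20) (Q 20) (T2 2 13 (T0 7 15 (Q 48) (Q 41) (P 15)) (P 20) (P 13))) (P 11))
def f303 : C := T0 4 9 (T3 1 9 (T0 7 16 (Q 19) (Q 19) (T1 5 18 (N 18) (Q 19) (T3 2 19 (Q 25) (Q 25) (Q 19)))) (Q 19) (T1 3 11 (T1 4 15 (Q 19) (Q 19) (T0 7 16 (Q 19) (Q 19) (T3 2 17 (Q 19) (Q 19) (T2 3 19 (Q 26) (Q 26) (P 19))))) (Q 26) f288)) (T3 1 9 (T1 5 18 (Q 19) (Q 19) (T3 2 19 (Q 25) (Q 25) (Q 19))) (Q 19) (T1 3 11 (T1 4 15 (Q 19) (Q 19) (T3 2 17 (Q 19) (Q 19) (Q 34))) (Q 26) (T2 2 13 (T3 2 17 (Q 53) (Q 43) f289) (T3 2 17 (Q 46) (Q 43) (P 34)) (T3 2 17 (T1 5 18 (Q 19) (Q 19) (T2 3 19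 (T1 7 25 (Q 26) (Q 26) (T3 3 26 (T2 5 32 (Q 39) (Q 39) (Q 32)) (P 61) (P 26))) (T1 7 25 (Q 26) (Q 26) (T3 3 26 (Q 32) (P 61) (P 26))) (P 19))) (P 26) (P 26))))) (T3 1 9 (T3 1 10 (T0 5 11 (T0 9 20 (Q 25) (Q 25) (T3 2 21 (Q 25) (Q 25) f290)) (T3 2 21 (Q 25) (Q 25) f290) f299) (T0 5 11 (T0 9 20 (Q 25) (Q 25) f290) (Q 51) (T1 3 11 (T0 6 13 (Q 31) (Q 31) (T2 2 13 (T1 4 15 (Q 21) (Q 21) (Q 15)) (T1 4 15 (Q 21) (Q 21) (Q 15)) (P 13))) f293 (P 11))) f302) (T0 5 11 (T1 3 11 (Q 19) (Q 19) (T2 2 13 (Q 29) (Q 29) (T1 5 18 (T2 3 19 (Q 20) (Q 20) (P 19)) (T2 3 19 (Q 20) (Q 20) (P 19)) (T2 3 19 (T0 9 20 (T0 13 29 (Q 39) (P 47) (P 29)) (P 29) (P 20)) (T0 9 20 (T0 13 29 (Q 32) (P 47) (P 29)) (P 29) (P 20)) (P 19))))) f301 (T1 3 11 (T0 6 13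 (Q 20) (Q 20) (T2 2 13 (T0 7 15 (T2 3 20 (Q 28) (Q 28) (P 20)) (P 28) (P 28)) (P 20) (P 13))) (T0 6 13 (Q 20) (P 37) (P 37)) (P 11))) (P 9))
def f304 : C := T2 1 7 (T3 1 7 (T2 1 8 (T3 1 8 (T2 1 9 (T3 1 9 (Q 11) (O 2) (O 2)) (T3 1 9 (Q 11) (Q 11) (O 2)) (T3 1 9 (T3 1 10 (T3 1 11 (Q 25) (Q 25) (Q 11)) (Q 11) (T1 3 11 (T1 4 15 (Q 19) (Q 19) (T2 2 17 (Q 19) (Q 19) (T3 2 19 (T1 7 26 (N 104) (N 152) (T3 3 29 (Q 41) (Q 41) (T1 10 37 (Q 41) (Q 41) (T2 5 41 (N 418) (N 418) (Q 41))))) (Q 67) (Q 19)))) (T2 2 17 (Q 19) (Q 19) (T3 2 19 (T3 3 29 (Q 41) (Q 41) (Q 59)) (Q 59) (Q 19))) (Q 11))) (Q 19) (Q 9))) (O 2) (O 2)) (T3 1 8 (T3 1 9 (T3 1 10 (T3 1 11 (Q 25) (Q 25) (Q 11)) (Q 11) (T1 3 11 (T1 4 15 (Q 19) (Q 19) (T3 2 19 (Q 41) (Q 41) (Q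 19))) (Q 41) (Q 11))) (Q 19) (Q 9)) (Q 9) (O 2)) (T3 1 8 (T3 1 9 f286 (T1 3 11 (T1 4 15 (T2 2 15 (T1 5 19 (T1 6 23 (Q 55) (Q 55) (T2 3 23 (Q 73) (Q 31) (Q 23))) (T2 3 23 (Q 65) (Q 31) (Q 23)) (Q 19)) (T1 5 19 (Q 55) (Q 23) (Q 19)) (T1 5 19 (T2 3 22 (T1 6 23 (T1 7 27 (T1 8 31 (T1 9 35 (T2 5 37 (Q 83) (Q 83) (Q 37)) (Q 39) (Q 39)) (Q 39) (Q 31)) (Q 31) (Q 31)) (Q 31) (Q 23)) (Q 37) (T1 6 23 (T1 7 27 (T2 4 29 (Q 37) (Q 37) (Q 29)) (Q 31) (Q 31)) (Q 31) (Q 23))) (Q 23) (Q 19))) (Q 19) (T2 2 15 (Q 19) (Q 19) (Q 15))) (T2 2 15 (Q 19) (Q 19) (Q 15)) (Q 11)) (Q 9)) (Q 9) (P 8))) (O 2) (O 2)) (T3 1 7 (T3 1 8 (T3 1 9 (T3 1 10 (T1 3 11 (T3 1 11 (T1 4 15 (Q 23) (Q 23) (Q 15)) (Q 23) (T1 4 15 (T1 5 19 (Q 43) (Q 23) (Q 23)) (Q 23) (Q 15)))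 (Q 15) (Q 15)) (T1 3 11 (T1 4 15 (Q 43) (Q 23) (Q 15)) (Q 15) (Q 11)) (T1 3 11 (T1 4 15 (T1 5 19 (T3 2 19 (T1 6 23 (T1 7 27 (T3 3 29 (T1 8 31 (T1 9 35 (T1 10 39 (T3 4 39 (Q 71) (Q 71) (Q 99)) (Q 43) (Q 43)) (Q 43) (Q 43)) (Q 43) (Q 31)) (T1 8 31 (Q 99) (Q 39) (Q 31)) (Q 29)) (Q 31) (Q 31)) (Q 31) (Q 23)) (Q 29) (T1 6 23 (Q 29) (Q 29) (Q 23))) (Q 23) (Q 23)) (Q 23) (Q 15)) (Q 15) (Q 11))) (T1 3 11 (T1 4 15 (T1 5 19 (T1 6 23 (Q 29) (Q 29) (Q 23)) (Q 23) (Q 19)) (Q 19) (Q 15)) (Q 15) (Q 11)) (Q 9)) (Q 9) (P 8)) (P 8) (O 2)) (T3 1 7 (T3 1 8 f303 (T0 4 9 (T1 3 11 (T1 4 15 (Q 19) (Q 19) (T0 7 16 (Q 19) (Q 19) (T2 3 19 (Q 26) (Q 26) (P 19)))) (Q 26) (T2 2 13 (T0 7 16 (T0 10 23 (N 455) (N 455) (T2 5 33 (Q 53) (Q 53) (P 33))) (T2 5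 33 (Q 53) (Q 53) (P 33)) (T1 5 18 (Q 33) (Q 33) (T2 3 20 (T0 11 25 (Q 57) (Q 41) (T1 7 25 (N 639) (N 639) (P 25))) (T0 11 25 (Q 57) (P 41) (P 41)) (T0 11 25 (T1 9 32 (Q 33) (Q 33) (T2 5 33 (T0 18 41 (Q 60) (P 57) (P 41)) (T0 18 41 (Q 53) (P 57) (P 41)) (P 33))) (P 41) (P 41))))) (P 33) (P 26))) (T1 3 11 (T1 4 15 (Q 19) (Q 19) (Q 34)) (Q 26) (T2 2 13 f289 (P 33) (P 26))) (P 9)) (P 8)) (P 8) (P 7))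
def f305 : C := T0 4 9 (T3 1 9 (T0 7 16 (Q 19) (Q 19) (Q 32)) (Q 19) (T2 2 13 (T0 7 16 (Q 53) (Q 53) (T3 2 17 (Q 53) (Q 43) (T2 3 20 (T0 11 25 (Q 57) (Q 41) (T3 3 25 (Q 34) (Q 34) (P 25))) (T0 11 25 (Q 57) (Q 41) (T3 3 25 (Q 34) (P 67) (P 25))) (P 60)))) (Q 53) (T0 7 16 (T3 2 17 (Q 19) (P 26) (P 26)) (P 39) (P 39)))) (T3 1 9 (Q 32) (Q 19) (T2 2 13 (T3 2 17 (Q 53) (P 43) (P 43)) (P 46) (P 39))) (T3 1 9 (T3 1 10 (T0 5 11 (T0 9 20 (Q 25) (Q 25) (T3 2 21 (Q 25) (Q 25) (Q 32))) (T3 2 21 (Q 25) (Q 25) (Q 32)) (T3 1 11 (T3 1 12 (T2 2 13 (T3 1 13 (T3 1 14 (T3 1 15 (T3 1 16 (Q 53) (Q 53) (T2 3 20 (T2 4 27 (Q 109) (Q 95) (Q 81)) (Q 67) (Q 67))) (T2 3 20 (Q 109) (Q 47) (Q 47)) (Q 15)) (Q 15) (Q 15)) (Q 15) (Q 15)) (T3 1 13 (T3 1 14 (T3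 1 15 (Q 53) (Q 33) (Q 15)) (Q 15) (Q 15)) (Q 15) (Q 15)) (T3 1 13 (T3 1 14 (T3 1 15 (T3 1 16 (T3 1 17 (T3 1 18 (T3 1 19 (Q 25) (Q 25) (Q 19)) (Q 19) (Q 39)) (Q 39) (T2 3 19 (Q 39) (Q 39) (Q 19))) (T2 3 19 (Q 33) (Q 33) (Q 19)) (T2 3 19 (Q 33) (Q 32) (Q 19))) (Q 46) (Q 15)) (Q 15) (Q 15)) (Q 15) (Q 13))) (T2 2 13 (Q 15) (Q 15) (Q 13)) f297) (T0 6 13 (Q 25) (Q 25) (T2 2 13 (Q 15) (P 46) (P 13))) (P 11))) (T0 5 11 (Q 32) (Q 32) (P 11)) (T0 5 11 (T2 2 13 (Q 29) (Q 29) (T2 3 19 (T3 2 19 (Q 20) (P 39) (P 39)) (P 32) (P 32))) (T2 2 13 (Q 29) (P 20) (P 20)) (P 11))) (T0 5 11 (T2 2 13 (Q 29) (P 46) (P 39)) (P 29) (P 11)) (P 9))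
def f306 : C := T3 1 9 (T3 1 10 (Q 25) (Q 25) (Q 10)) (Q 10) (Q 10)
def f307 : C := T3 1 10 (T3 1 11 (Q 37) (Q 37) (Q 11)) (Q 11) (Q 11)
def f308 : C := T3 1 11 (T3 1 12 (T3 1 13 (Q 67) (Q 67) (Q 13)) (Q 13) (Q 13)) (Q 13) (O 2)
def f309 : C := T2 3 32 (T3 3 41 (Q 97) (Q 55) (Q 55)) (Q 43) (Q 43)
def f310 : C := T3 2 27 f309 (Q 55) (T2 3 32 (Q 55) (Q 43) (Q 43))
def f311 : C := T3 1 12 (T3 1 13 (T3 1 14 (Q 31) (Q 31) (T3 2 27 (Q 31) (Q 31) (Q 41))) (Q 41) (Q 13)) (Q 13) (Q 13)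
def f312 : C := T2 2 19 (T2 3 29 (T3 2 31 (T2 4 39 (Q 79) (Q 49) (Q 49)) (Q 79) (Q 31)) (Q 49) (Q 49)) (Q 49) (Q 19)
def f313 : C := T2 3 29 (T1 10 31 (Q 41) (Q 41) (Q 31)) (T1 10 31 (Q 41) (Q 41) (Q 31)) (Q 29)
def f314 : C := T1 10 33 (Q 37) (Q 37) (T3 3 35 (Q 37) (Q 37) (Q 47))
def f315 : C := T3 1 12 (T1 4 13 (T1 11 36 (N 36) (Q 37) (T3 3 37 (N 234) (N 234) (Q 37))) (Q 75) (T3 1 13 (T3 1 14 (T3 1 15 (T3 1 16 (T3 1 17 (Q 19) (Q 19) (T2 2 19 (T2 5 48 (N 48) (Q 49) (T3 3 49 (N 114) (N 114) (Q 49))) (Q 67) (Q 19))) (T2 2 19 (Q 49) (Q 49) (Q 19)) f312) (T2 2 19 (Q 31) (Q 31) (Q 19)) (T2 2 19 (Q 31) (Q 31) (Q 19))) (T2 2 19 (Q 31) (Q 29) (Q 19)) (T1 5 16 (Q 29) (Q 29) (T1 6 19 (Q 29) (Q 29) (T2 2 19 (T1 7 22 (Q 29) (Q 29) (T1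 8 25 (Q 41) (Q 41) (T3 2 27 (T1 9 28 (Q 29) (Q 29) f313) (T1 9 28 (Q 29) (Q 29) (T2 3 29 (Q 41) (Q 41) (Q 29))) (T1 9 28 (Q 41) (Q 41) f313)))) (Q 29) (Q 19))))) (T1 5 16 (Q 29) (Q 29) (T1 6 19 (Q 29) (Q 29) (T2 2 19 (T1 7 22 (Q 29) (Q 29) (T1 8 25 (Q 41) (Q 41) (T1 9 28 (Q 41) (Q 41) f313))) (Q 29) (Q 19)))) (Q 13))) (T1 4 13 (Q 37) (Q 37) (Q 13)) (T1 4 13 (T2 2 19 (T1 7 23 (T2 5 48 (N 220) (N 220) (T1 17 56 (N 418) (N 418) (Q 145))) (Q 79) (T3 2 23 (N 494) (N 494) (Q 23))) (T1 7 23 (Q 67) (Q 67) (T3 2 23 (N 598) (N 1092) (Q 23))) (T1 7 23 (T3 2 23 f314 (Q 47) (T2 3 28 (Q 57) (Q 47) (Q 47))) (T3 2 23 (T3 3 35 (Q 37) (Q 37) (Q 47)) (Q 47) (T2 3 28 (Q 57) (Q 47) (Q 47))) (T3 2 23 (T2 3 28 (T3 3 35 (Q 49) (Q 49) (Q 59)) (T3 3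 35 (Q 49) (Q 47) (Q 47)) (T3 3 35 (T1 11 36 (T2 4 37 (N 268) (N 268) (Q 37)) (T2 4 37 (N 268) (N 268) (Q 37)) (T2 4 37 (T3 4 47 (Q 49) (Q 49) (Q 47)) (T3 4 47 (Q 49) (Q 49) (Q 47)) (Q 37))) (Q 47) (Q 47))) (T2 3 28 (Q 59) (Q 47) (Q 47)) (Q 23)))) (T2 2 19 (T3 2 23 (N 874) (N 1368) (Q 23)) (Q 49) (T3 2 23 (Q 49) (Q 49) (Q 23))) (Q 13))
def f316 : C := T1 5 16 (Q 29) (Q 29) (T1 6 19 (Q 29) (Q 29) (Q 19))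
def f317 : C := T1 5 17 (Q 25) (Q 25) (T2 2 17 (Q 27) (Q 27) (Q 17))
def f318 : C := T2 2 17 (T1 6 19 (Q 35) (Q 35) (Q 19)) (T1 6 19 (Q 35) (Q 35) (Q 19)) (Q 17)
def f319 : C := T0 9 19 (Q 28) (Q 28) (T1 6 19 (Q 29) (Q 29) (P 19))
def f320 : C := T3 1 14 (T3 1 15 (T1 5 16 (Q 17) (Q 17) (T3 1 16 (T2 2 17 (T3 1 17 (T3 1 18 (T3 1 19 (T3 1 20 (T3 2 41 (N 102) (N 102) (T2 5 43 (N 60) (N 60) (Q 43))) (Q 61) (T2 3 26 (T2 4 35 (T2 5 44 (N 114) (N 114) (Q 97)) (Q 79) (T3 2 39 (N 78) (Q 79) (Q 79))) (Q 61) (Q 61))) (T2 3 26 (Q 115) (Q 61) (Q 61)) (Q 19)) (Q 19) (Q 19)) (Q 19) (Q 19)) f231 (T3 1 17 (T3 1 18 (T3 1 19 (T3 1 20 (T3 1 21 (T3 1 22 (Q 25) (Q 25) (T2 3 25 (T2 5 42 (N 42) (Q 43) (T3 2 43 (N 150) (N 150) (Q 43))) (Q 67) (Q 25)))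 (Q 43) (T2 3 25 (Q 43) (Q 43) (Q 25))) (T2 3 25 (Q 43) (Q 43) (Q 25)) (T2 3 25 (Q 43) (Q 43) (Q 25))) (T2 3 25 (Q 43) (Q 43) (Q 25)) (Q 19)) (Q 19) (T1 6 19 (N 136) (N 136) (Q 19))) (T1 6 19 (N 152) (N 288) (Q 19)) (Q 17))) (T2 2 17 (Q 19) (Q 19) (Q 17)) f318)) (T1 5 16 (Q 17) (Q 17) f318) (T1 5 16 (T2 2 17 (T1 9 29 (N 238) (N 238) (Q 29)) (T1 9 29 (N 280) (N 280) (Q 29)) (Q 17)) (Q 45) (T0 8 17 (Q 43) (Q 43) (T2 2 17 (T1 6 19 (Q 45) (Q 45) (Q 19)) (T1 6 19 (Q 45) (Q 35) (Q 19)) (P 17))))) (T1 5 16 (T2 2 17 (Q 71) (Q 43) (Q 17)) (Q 29) (T0 8 17 (Q 43) (Q 43) (T2 2 17 (T1 6 19 (Q 29) (Q 29) (Q 19)) (T1 6 19 (Q 29) (Q 29) (Q 19)) (P 17)))) (T0 7 15 (Q 41) (Q 28) (T1 5 16 (T2 2 17 (T2 3 26 (T3 2 27 (Q 71) (Q 55) (Q 27)) (T3 2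 27 (Q 71) (Q 55) (Q 27)) (T3 2 27 (T1 9 29 (T3 3 41 (T1 13 42 (Q 43) (Q 43) (T2 5 43 (N 232) (N 232) (Q 43))) (T1 13 42 (Q 43) (Q 43) (Q 55)) (T1 13 42 (T2 5 43 (N 378) (N 378) (Q 43)) (Q 55) (Q 55))) (Q 71) (Q 29)) (T1 9 29 (T1 13 42 (T2 5 43 (N 688) (N 1066) (Q 43)) (Q 55) (Q 55)) (Q 55) (Q 29)) (Q 27))) (Q 43) (Q 17)) (Q 29) (T0 8 17 (Q 28) (Q 28) (T2 2 17 f319 f319 (P 17)))))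
def f321 : C := T0 9 19 (Q 28) (Q 28) (T1 6 19 (Q 27) (Q 27) (P 19))
def f322 : C := T1 4 13 (T2 2 17 (Q 27) (Q 27) (Q 17)) (Q 36) (P 13)
def f323 : C := T0 5 11 (T3 1 11 (Q 25) (Q 25) (T2 2 17 (T0 9 20 (Q 52) (Q 52) (T3 2 21 (T2 5 43 (N 189) (N 189) (Q 43)) (Q 53) (T2 3 26 (T0 14 31 (Q 91) (Q 71) (T3 3 31 (Q 53) (Q 53) (Q 31))) (T0 14 31 (Q 61) (Q 61) (T3 3 31 (Q 53) (Q 53) (Q 31))) (T0 14 31 (Q 52) (Q 52) (T3 3 31 (T0 19 42 (Q 43) (Q 43) (T2 5 43 (Q 53) (Q 53) (Q 43))) (Q 52) (Q 31)))))) (Q 43) (T0 9 20 (Q 34) (Q 34) (T3 2 21 (Q 34) (Q 34) (T1 8 25 (N 200) (N 440) (T2 3 25 (Q 34) (Q 34) (P 25))))))) (T3 1 11 (Q 25) (Q 25) (T2 2 17 (T3 2 21 (Q 64) (Q 53) (T2 3 26 (Q 64) (Q 53) (Q 53))) (Q 43) (T3 2 21 (Q 34) (Q 34) (T1 8 25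 (N 200) (N 640) (T2 3 25 (Q 34) (P 42) (P 25)))))) (T3 1 11 (T3 1 12 (T0 6 13 (T0 11 24 (N 24) (Q 25) (T3 2 25 (N 312) (N 312) (Q 25))) (Q 76) (T1 4 13 (T3 1 13 (T3 1 14 (Q 17) (Q 17) (T2 2 17 (T2 3 26 (N 26) (Q 27) (T3 2 27 (N 364) (N 364) (Q 27))) (Q 43) (Q 17))) (Q 27) (Q 27)) (T3 1 13 (T3 1 14 (Q 17) (Q 17) (T2 2 17 (T2 3 26 (Q 27) (Q 27) (T3 2 27 (N 432) (N 458) (Q 27))) (Q 43) (Q 17))) (Q 27) (Q 27)) (T3 1 13 f320 (T0 7 15 (Q 41) (Q 28) (T1 5 16 (Q 27) (Q 27) (T0 8 17 (Q 28) (Q 28) (T2 2 17 f321 f321 (P 17))))) (P 13)))) (T0 6 13 (Q 25) (Q 25) (T1 4 13 (Q 27) (Q 27) (P 13))) (T0 6 13 (T2 2 17 (T3 2 23 (N 195) (N 195) (Q 46)) (Q 35) (T3 2 23 (T0 11 24 (Q 25) (Q 25) (T2 3 25 (Q 61) (Q 61) (Q 25))) (T0 11 24 (Q 25) (Q 25)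 (Q 35)) (T0 11 24 (T2 3 25 (T3 3 34 (N 408) (N 600) (Q 34)) (T3 3 34 (N 408) (N 1008) (Q 34)) (Q 25)) (Q 35) (Q 35)))) (T2 2 17 (Q 37) (Q 35) (T3 2 23 (Q 37) (Q 35) (Q 35))) f322)) (T0 6 13 (T2 2 17 (Q 46) (Q 35) (T0 11 24 (Q 34) (Q 34) (Q 35))) (T2 2 17 (Q 37) (Q 35) (Q 35)) f322) (P 11))
def f324 : C := T2 1 9 (T3 1 9 (T1 3 10 (T2 1 10 (T3 1 10 (N 10) (O 2) (O 2)) (Q 11) f307) (T2 1 10 (T3 1 10 (Q 11) (O 2) (O 2)) (Q 11) f307) (T2 1 10 (T3 1 10 (T2 1 11 (T3 1 11 (T2 1 12 (T3 1 12 (N 12) (O 2) (O 2)) (Q 13) (T3 1 12 (T3 1 13 (T3 4 53 (N 66) (N 66) (T2 5 56 (N 78) (N 78) (T3 5 66 (N 66) (Q 67) (T2 6 67 (N 78) (N 78) (Q 67))))) (Q 79) (Q 13)) (Q 13) (Q 13))) (O 2) (O 2)) f308 (T3 1 11 (T3 1 12 (T3 1 13 (T3 1 14 (T3 1 15 (N 30)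 (Q 31) (T2 2 21 (N 42) (Q 43) (T3 2 29 (Q 31) (Q 31) (T2 3 31 (T3 3 43 (N 186) (N 186) (Q 43)) (Q 73) (Q 31))))) (Q 43) (T2 2 21 f310 (Q 43) (T3 2 27 (T2 3 31 (Q 43) (Q 43) (Q 31)) (T2 3 31 (Q 43) (Q 43) (Q 31)) (T1 10 31 (N 130) (N 130) (T2 3 31 (Q 43) (Q 43) (Q 31)))))) (T2 2 21 (T2 3 32 (Q 55) (Q 43) (Q 43)) (Q 43) (T1 10 31 (N 220) (N 220) (T2 3 31 (Q 43) (Q 43) (Q 31)))) (Q 13)) (Q 13) (Q 13)) (Q 13) (Q 11))) (O 2) (O 2)) (T3 1 10 (T3 1 11 f311 (Q 13) (Q 11)) (Q 11) (O 2)) (T3 1 10 (T3 1 11 f315 (T1 4 13 (T2 2 19 (T1 7 23 (Q 221) (Q 79) (Q 23)) (Q 67) (T1 7 23 (Q 57) (Q 57) (Q 23))) (Q 23) (Q 13)) (Q 11)) (Q 11) (P 10)))) (O 2) (O 2)) (T3 1 9 (T1 3 10 f307 (T3 1 10 (Q 37) (Q 11) (Q 11)) (T3 1 10 (T3 1 11 (T3 1 12 (T1 4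 13 (T1 11 36 (Q 37) (Q 37) (T3 3 37 (N 962) (N 1196) (Q 37))) (Q 75) (T3 1 13 (T3 1 14 (Q 19) (Q 19) f316) f316 (Q 13))) (T1 4 13 (Q 37) (Q 37) (Q 13)) (T1 4 13 (Q 37) (Q 37) (Q 13))) (T1 4 13 (Q 37) (Q 23) (Q 13)) (Q 11)) (Q 11) (P 10))) (T1 3 10 (Q 11) (Q 11) (P 10)) (O 2)) (T3 1 9 (T1 3 10 (T3 1 10 (T3 1 11 (T3 1 12 (T3 1 13 (Q 17) (Q 17) f317) f317 (T1 5 17 (T2 2 17 (Q 35) (Q 35) (T3 2 23 (T1 7 24 (Q 25) (Q 25) (T2 3 25 (T3 3 35 (N 350) (N 408) (Q 35)) (Q 59) (Q 25))) (Q 35) (Q 35))) (T2 2 17 (Q 35) (Q 35) (T3 2 23 (T2 3 25 (T3 3 35 (N 350) (N 758) (Q 35)) (Q 59) (Q 25)) (Q 35) (Q 35))) (T2 2 17 (T3 2 23 (T2 3 26 (Q 27) (Q 27) (T1 8 27 (Q 95) (Q 61) (Q 27))) (T2 3 26 (Q 27) (Q 27) (Q 35)) (T2 3 26 (T1 8 27 (T3 3 34 (N 442)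 (N 702) (T2 4 35 (T1 13 44 (Q 45) (Q 45) (T2 5 44 (Q 45) (Q 45) (T3 4 45 (N 236) (N 236) (Q 45)))) (Q 79) (Q 35))) (T3 3 34 (N 442) (N 1144) (Q 125)) (Q 27)) (Q 35) (Q 35))) (T3 2 23 (T1 8 27 (Q 95) (Q 61) (Q 27)) (Q 35) (Q 35)) (Q 17)))) (T1 5 17 (Q 35) (Q 35) (T2 2 17 (Q 45) (Q 35) (Q 17))) (Q 11)) (Q 11) (Q 11)) (T3 1 10 (T3 1 11 (Q 27) (Q 27) (Q 11)) (Q 11) (Q 11)) (T3 1 10 f323 (T0 5 11 (T2 2 17 (T0 9 20 (Q 52) (Q 52) (T2 3 26 (T0 14 31 (Q 91) (Q 71) (Q 31)) (Q 61) (Q 52))) (Q 43) (T0 9 20 (Q 34) (Q 34) (T1 8 25 (N 528) (N 528) (T2 3 25 (Q 34) (Q 34) (P 25))))) (T2 2 17 (Q 31) (Q 31) (Q 51)) (P 11)) (P 10))) (T1 3 10 (Q 11) (Q 11) (P 10)) (P 9))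
def f325 : C := T1 5 16 (Q 17) (Q 17) (T0 8 17 (Q 43) (Q 43) (P 17))
def f326 : C := T0 7 15 (Q 41) (Q 28) (T1 5 16 (Q 17) (Q 17) (T0 8 17 (Q 28) (Q 28) (P 17)))
def f327 : C := T0 6 13 (Q 25) (Q 25) (T1 4 13 (Q 17) (Q 17) (P 13))
def f328 : C := T0 7 16 (T0 10 23 (Q 58) (Q 37) (Q 37)) (Q 37) (Q 16)
def f329 : C := T0 11 25 (T0 18 41 (Q 65) (Q 57) (T1 12 41 (Q 57) (Q 57) (Q 41))) (Q 66) (T3 3 25 (Q 43) (Q 43) (P 25))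
def f330 : C := T3 1 9 (T3 1 10 (T3 1 11 (T3 1 12 (Q 16) (Q 16) (T2 2 15 (Q 16) (Q 16) f328)) (T2 2 15 (Q 16) (Q 16) (T0 7 16 (T0 10 23 (Q 58) (Q 37) (Q 23)) (Q 23) (Q 16))) (T2 2 15 (T0 7 16 (T3 2 21 (N 105) (N 240) (T0 10 23 (Q 31) (Q 31) (T2 3 23 (T2 4 31 (N 240) (N 240) (Q 31)) (Q 31) (Q 23)))) (Q 55) (Q 16)) (T0 7 16 (T3 2 21 (N 336) (N 576) (T0 10 23 (Q 31) (Q 31) (Q 23))) (Q 23) (Q 16)) (T0 7 16 (T3 2 21 (T2 3 22 (Q 76) (Q 37) (Q 22)) (T2 3 22 (Q 53) (Q 37) (Q 22)) (T2 3 22 (T0 10 23 (T0 13 30 (T3 3 31 (N 330) (N 330) (Q 31)) (T3 3 31 (N 909) (N 909) (Q 31)) (T3 3 31 (Q 67) (Q 67) (Q 31))) (Q 53) (Q 23)) (T0 10 23 (T0 13 30 (Q 52) (Q 37) (Q 37)) (Q 37) (Q 23)) (Q 22))) (Q 23) (Q 23)))) (T2 2 15 (T0 7 16 (T0 10 23 (Q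 31) (Q 31) (T2 3 23 (T2 4 31 (N 1209) (N 1449) (Q 31)) (Q 31) (Q 23))) (Q 55) (Q 16)) (T0 7 16 (Q 31) (Q 23) (Q 16)) (T0 7 16 (T2 3 22 (Q 31) (Q 31) (Q 22)) (Q 23) (Q 23))) (Q 10)) (Q 10) (T1 3 10 (T2 2 15 (Q 17) (Q 17) (T0 7 16 (T1 5 17 (N 112) (N 112) (Q 17)) (T1 5 17 (N 952) (N 1064) (Q 17)) (T1 5 17 (T2 3 22 (N 792) (N 1224) (T1 7 24 (T0 11 25 (N 168) (N 168) (Q 25)) (T0 11 25 (N 784) (N 784) (Q 25)) f329)) (T2 3 22 (N 792) (Q 25) (T0 11 25 (Q 58) (Q 41) (T3 3 25 (Q 43) (Q 43) (P 25)))) (T3 2 17 (T0 11 25 (Q 37) (Q 37) (T3 3 26 (T0 15 34 (N 476) (N 546) (T3 4 35 (Q 37) (Q 37) (Q 44))) (Q 44) (T1 8 27 (Q 52) (Q 44) (Q 44)))) (T0 11 25 (Q 37) (Q 37) (T1 8 27 (Q 43) (Q 43) (Q 44))) (P 17))))) (T2 2 15 (Q 17) (Q 17) (T0 7 16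 (Q 17) (Q 17) (T3 2 17 (Q 37) (Q 37) (P 17)))) (P 10))
def f331 : C := T3 2 31 (T1 12 41 (Q 79) (Q 65) (Q 65)) (Q 79) (Q 31)
def f332 : C := T1 7 24 (T1 9 31 (Q 53) (Q 53) (Q 31)) (Q 31) (Q 31)
def f333 : C := T2 5 39 (T1 12 41 (Q 79) (Q 65) (Q 41)) (Q 55) (Q 39)
def f334 : C := T3 1 11 (T3 1 12 (T3 1 13 (T3 1 14 (T2 2 15 (Q 17) (Q 17) (T3 1 15 (T3 1 16 (T1 5 17 (N 112) (N 112) (T3 1 17 (Q 37) (Q 37) (Q 17))) (T1 5 17 (N 238) (N 350) (Q 17)) (T1 5 17 (T1 7 24 (T1 9 31 (N 210) (N 210) (Q 31)) (Q 31) f331) (Q 65) (Q 17))) (T1 5 17 (T1 7 24 (Q 107) (Q 31) (Q 31)) (Q 31) (Q 17)) (Q 15))) (T2 2 15 (Q 17) (Q 17) (Q 15)) (T2 2 15 (T1 5 17 (T2 3 23 (Q 55) (Q 31) f332) (T2 3 23 (Q 41) (Q 31) (Q 31)) (Q 17)) (T1 5 17 f332 (Q 31) (Q 17))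 (Q 15))) (T2 2 15 (T1 5 17 (T2 3 23 (Q 55) (Q 31) f332) (Q 41) (Q 17)) (T1 5 17 (Q 53) (Q 31) (Q 17)) (Q 15)) (T2 2 15 (T1 5 17 (T2 3 23 (T1 7 24 (T3 2 25 (T1 9 31 (Q 39) (Q 39) (T2 4 31 (T3 3 38 (N 240) (N 240) (T2 5 39 (N 312) (N 600) (Q 39))) (Q 39) (Q 31))) (Q 63) (Q 25)) (T3 2 25 (Q 55) (Q 55) (Q 25)) (T3 2 25 (T2 4 31 (T3 3 38 (T2 5 39 (T1 12 41 (N 304) (N 304) (Q 41)) (Q 55) (Q 39)) (Q 103) f333) (Q 39) (Q 31)) (T2 4 31 f333 (Q 39) (Q 31)) (Q 25))) (Q 39) (Q 39)) (Q 41) (Q 17)) (T1 5 17 (Q 39) (Q 31) (Q 17)) (Q 15))) (T2 2 15 (Q 25) (Q 25) (Q 15)) (T0 7 15 (Q 24) (Q 24) (T2 2 15 (T1 5 17 (Q 25) (P 24) (P 24)) (T1 5 17 (Q 25) (P 24) (P 24)) (P 15)))) (T0 7 15 (Q 24) (Q 24) (T2 2 15 (T1 5 17 (Q 25) (P 24) (P 24)) (T1 5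 17 (Q 23) (P 24) (P 24)) (P 15))) (Q 11)
def f335 : C := T3 1 12 (Q 16) (Q 16) (T2 2 15 (Q 16) (Q 16) (T1 5 16 (Q 23) (Q 23) (P 16)))
def f336 : C := T2 2 15 (T1 5 16 (Q 23) (Q 23) (P 16)) (P 23) (P 23)
def f337 : C := T2 2 15 (Q 16) (Q 16) (T1 5 16 (Q 29) (Q 29) (P 16))
def f338 : C := T0 7 15 (Q 37) (Q 37) (T2 2 15 (Q 17) (Q 17) (P 15))
def f339 : C := T2 2 15 (Q 16) (Q 16) (T3 1 15 (T3 1 16 (Q 22) (Q 22) (Q 16)) (Q 16) (Q 16))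
def f340 : C := T2 4 31 (T2 5 39 (Q 127) (Q 55) (Q 55)) (Q 55) (Q 31)
def f341 : C := T3 1 23 (T3 1 24 (Q 31) (Q 25) (Q 25)) (Q 25) (Q 23)
def f342 : C := T2 3 23 (T1 8 25 (Q 41) (Q 41) (Q 25)) (T1 8 25 (Q 41) (Q 41) (Q 25)) (Q 23)
def f343 : C := T3 1 18 (T1 6 19 (T3 1 19 (Q 23) (Q 23) (T2 3 23 (T2 4 31 (T2 5 39 (N 234) (N 288) (Q 39)) (Q 39) (Q 39)) (Q 39) (Q 23))) (T3 1 19 (Q 23) (Q 23) (T2 3 23 (T2 4 31 (Q 111) (Q 39) (Q 39)) (Q 39) (Q 23))) (T3 1 19 (T3 1 20 (T3 1 21 (T3 1 22 (T2 3 23 (T3 1 23 (T3 1 24 (T3 1 25 (T3 1 26 (T3 1 27 (T3 1 28 (N 84) (N 138) (T2 4 31 (N 54) (N 54) (Q 31))) (Q 55) (Q 55)) (Q 55) (T2 4 31 (T2 5 39 (T2 6 47 (T3 2 51 (Q 79) (Q 79) (T2 7 55 (T2 8 63 (T2 9 71 (T3 3 76 (N 126) (N 126) (Q 127)) (Q 79)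 (Q 79)) (Q 79) (Q 79)) (Q 79) (Q 55))) (Q 55) (Q 55)) (Q 55) (Q 55)) (Q 55) (Q 31))) f340 (Q 25)) (Q 25) (Q 25)) (Q 25) (Q 25)) (Q 31) f341) (Q 25) (T2 3 23 (Q 25) (Q 25) (Q 23))) (T2 3 23 (Q 25) (Q 25) (Q 23)) (T1 7 22 (Q 23) (Q 23) f342)) (T1 7 22 (Q 23) (Q 23) f342) (T1 7 22 (T2 3 23 (T2 4 31 (N 418) (N 418) (T3 2 39 (N 506) (N 506) (Q 39))) (T3 2 39 (N 682) (N 682) (Q 39)) (Q 23)) (Q 41) f342)) (T1 7 22 (Q 39) (Q 39) (T2 3 23 (T1 8 25 (Q 41) (Q 41) (Q 25)) (T1 8 25 (Q 39) (Q 39) (Q 25)) (Q 23))) (Q 19))) (T1 6 19 (Q 55) (Q 55) (Q 19)) (T1 6 19 (T2 3 23 (T2 4 31 (T1 11 35 (T3 2 35 (Q 55) (Q 55) (T2 5 39 (T2 6 47 (T1 16 51 (Q 71) (Q 71) (T3 3 52 (N 658) (N 658) (T2 7 55 (T2 8 63 (T2 9 71 (N 544) (N 544) (Q 71)) (Q 71) (Q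 71)) (Q 71) (Q 55)))) (Q 55) (Q 55)) (Q 55) (Q 39))) (T3 2 35 (Q 55) (Q 55) (T2 5 39 (T2 6 47 (T3 3 52 (N 658) (N 658) (Q 191)) (Q 55) (Q 55)) (Q 55) (Q 39))) (T3 2 35 (T2 5 39 (T2 6 47 (T3 3 53 (Q 73) (Q 71) (Q 159)) (Q 55) (Q 55)) (Q 55) (Q 39)) (T2 5 39 (T2 6 47 (Q 159) (Q 55) (Q 55)) (Q 55) (Q 39)) (Q 35))) (Q 39) (Q 39)) (Q 39) (Q 23)) (T2 3 23 (Q 73) (Q 39) (Q 23)) (Q 19))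
def f344 : C := T2 3 22 (Q 23) (Q 23) (T3 1 22 (T3 1 23 (T3 1 24 (Q 29) (Q 29) (Q 51)) (Q 51) (Q 23)) (Q 23) (Q 23))
def f345 : C := T3 1 25 (T3 1 26 (Q 37) (Q 31) (Q 31)) (Q 31) (Q 25)
def f346 : C := T2 5 36 (Q 37) (Q 37) (T1 12 37 (N 154) (N 154) (Q 37))
def f347 : C := T1 9 28 (Q 29) (Q 29) (T2 4 29 (Q 31) (Q 31) (Q 29))
def f348 : C := T3 1 24 (T1 8 25 (T3 1 25 (Q 29) (Q 29) (Q 51)) (T3 1 25 (Q 29) (Q 29) (Q 51)) (T3 1 25 (T3 1 26 (T3 1 27 (T1 9 28 (Q 29) (Q 29) (T3 1 28 (T2 4 29 (Q 37) (Q 37) (T3 1 29 (T3 1 30 (T3 1 31 (T3 1 32 (T3 1 33 (T3 1 34 (T3 1 35 (T2 5 36 (Q 37) (Q 37) (T3 1 36 (T3 1 37 (T3 1 38 (T3 1 39 (T3 1 40 (T3 1 41 (T3 1 42 (N 42) (Q 43) (Q 43)) (Q 43) (Q 43)) (Q 43) (Q 43)) (Q 43) (Q 43)) (Q 43) (T2 6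 43 (N 222) (N 222) (Q 43))) (T2 6 43 (N 258) (N 480) (Q 43)) (Q 37)) (Q 37) (Q 37))) (Q 37) (Q 37)) (Q 37) (Q 37)) (Q 37) (Q 37)) (Q 37) f346) f346 (Q 31)) (Q 31) (T1 10 31 (N 406) (N 406) (Q 31))) (T1 10 31 (N 434) (N 840) (Q 31)) (Q 29))) (T2 4 29 (Q 31) (Q 31) (Q 29)) (T2 4 29 (Q 31) (Q 31) (Q 29)))) f347 f347) f347 (T1 9 28 (T2 4 29 (N 174) (N 224) (Q 29)) (Q 53) (T2 4 29 (T1 10 31 (Q 53) (Q 53) (Q 31)) (T1 10 31 (Q 53) (Q 53) (Q 31)) (Q 29)))) (T1 9 28 (Q 51) (Q 51) (T2 4 29 (T1 10 31 (Q 53) (Q 53) (Q 31)) (T1 10 31 (Q 51) (Q 51) (Q 31)) (Q 29))) (Q 25))) (T1 8 25 (Q 51) (Q 51) (Q 25)) (T0 12 25 (N 252) (N 252) (T1 8 25 (T2 4 29 (T1 15 47 (T3 2 47 (N 94) (N 986) (T2 7 51 (N 874) (N 874) (Q 51))) (T3 2 47 (N 986) (N 986)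 (T2 7 51 (N 874) (N 874) (Q 51))) (T3 2 47 (T2 7 51 (N 728) (N 728) (Q 51)) (T2 7 51 (N 728) (N 728) (Q 51)) (Q 47))) (Q 51) (Q 29)) (T2 4 29 (Q 97) (Q 51) (Q 29)) (P 25)))
def f349 : C := T1 7 22 (Q 23) (Q 23) (T2 3 22 (Q 23) (Q 23) (P 22))
def f350 : C := T0 10 21 (Q 22) (Q 22) (T1 7 22 (Q 23) (Q 23) (T2 3 22 (T0 11 23 (Q 40) (Q 40) (P 23)) (T0 11 23 (Q 40) (Q 40) (P 23)) (P 22)))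
def f351 : C := T1 6 19 (T3 1 19 (T3 1 20 (T3 1 21 (T2 3 22 (N 418) (N 608) (T3 1 22 (Q 29) (Q 23) (Q 23))) (Q 23) (Q 23)) (Q 23) (Q 23)) (Q 23) (Q 23)) (T3 1 19 (T3 1 20 (T3 1 21 (T2 3 22 (N 440) (N 630) (T3 1 22 (Q 29) (Q 23) (Q 23))) (Q 23) (Q 23)) (Q 23) (Q 23)) (Q 23) (Q 23)) (T3 1 19 (T3 1 20 (T0 10 21 (Q 22) (Q 22) (T3 1 21 (T1 7 22 f344 f344 (T2 3 22 (T3 1 22 (T3 1 23 (T3 1 24 (T3 1 25 (T3 1 26 (T3 1 27 (T3 1 28 (T3 1 29 (T3 1 30 (T3 1 31 (T3 1 32 (T3 1 33 (N 66) (Q 37) (Q 67)) (Q 67) (T2 5 37 (T2 7 52 (T3 2 63 (N 126) (N 156) (T2 9 67 (N 186) (N 186) (Q 67))) (Q 67) (Q 67)) (Q 67) (Q 37))) (T2 5 37 (Q 187) (Q 67) (Q 37)) (Q 31)) (Q 31) (Q 31)) (Q 31) (Q 31)) (Q 31) (Q 31)) (Q 31) (Q 31)) (Q 31) (Q 31)) (Q 31) (Q 25))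 (Q 25) (T1 8 25 (N 506) (N 506) (Q 25))) (T1 8 25 (N 528) (N 528) (Q 25)) (Q 23)) (Q 23) (Q 23)) (T3 1 22 (T3 1 23 (T3 1 24 f345 (Q 25) (T1 8 25 (N 828) (N 828) (Q 25))) (T1 8 25 (N 850) (N 1356) (Q 25)) (Q 23)) (Q 23) (Q 23)) (T3 1 22 (T0 11 23 (N 462) (N 462) (T3 1 23 f348 (T0 12 25 (N 252) (N 252) (T1 8 25 (T2 4 29 (T1 15 47 (Q 139) (Q 139) (Q 47)) (Q 51) (Q 29)) (Q 47) (P 25))) (P 23))) (T0 11 23 (N 483) (N 945) (P 23)) (P 22)))) f349 f349)) (T0 10 21 (Q 22) (Q 22) f349) f350) f350 (P 19))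
def f352 : C := T0 9 19 (Q 22) (Q 22) (T1 6 19 (Q 23) (Q 23) (P 19))
def f353 : C := T2 2 15 (T3 1 15 (T1 5 16 (T3 1 16 (T3 1 17 (T3 1 18 (Q 23) (Q 23) (T2 3 23 (Q 55) (Q 39) (Q 23))) (T2 3 23 (Q 55) (Q 39) (Q 23)) (Q 17)) (Q 17) (Q 17)) (T3 1 16 (T3 1 17 (T3 1 18 (Q 23) (Q 23) (Q 55)) (Q 55) (Q 17)) (Q 17) (Q 17)) (T3 1 16 (T0 8 17 (N 240) (N 240) (T3 1 17 f343 (T1 6 19 (T2 3 23 (T2 4 31 (T1 11 35 (Q 103) (Q 103) (Q 35)) (Q 39) (Q 39)) (Q 39) (Q 23)) (Q 35) (Q 19)) (P 17))) (T0 8 17 (N 255) (N 495) (P 17)) (P 16))) (T1 5 16 (Q 17) (Q 17) (P 16)) (T1 5 16 (Q 17) (Q 17) (P 16))) (T3 1 15 (T1 5 16 (Q 23) (Q 23) (T3 1 16 (T0 8 17 (N 816) (N 1056) (T3 1 17 (T3 1 18 (T1 6 19 (Q 23) (Q 23) (T3 1 19 (T3 1 20 (T3 1 21 (T3 1 22 f341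 (Q 23) (Q 23)) (Q 23) (Q 23)) (Q 23) (Q 23)) (Q 23) (Q 19))) (T1 6 19 (Q 23) (Q 23) (Q 19)) (T1 6 19 (Q 23) (Q 23) (Q 19))) (T1 6 19 (Q 23) (Q 23) (Q 19)) (P 17))) (T0 8 17 (N 1071) (N 1311) (P 17)) (P 16))) (T1 5 16 (Q 17) (Q 17) (P 16)) (T1 5 16 (Q 17) (Q 17) (P 16))) (T3 1 15 (T1 5 16 (T3 1 16 (Q 23) (Q 17) (Q 17)) (T3 1 16 (Q 23) (Q 17) (Q 17)) (T3 1 16 (T0 8 17 (T3 1 17 (Q 22) (Q 22) (T2 3 22 (T0 15 32 (Q 52) (Q 52) (T3 2 33 (Q 52) (Q 52) (T2 5 37 (T0 23 49 (T2 7 52 (N 624) (N 720) (Q 52)) (Q 179) (T3 3 49 (T2 7 52 (N 408) (N 408) (Q 52)) (Q 82) (Q 49))) (Q 52) (Q 37)))) (Q 37) (Q 22))) (T3 1 17 (Q 22) (Q 22) (T2 3 22 (T3 2 33 (Q 52) (Q 52) (Q 83)) (Q 37) (Q 22))) (T3 1 17 (T3 1 18 (T0 9 19 (Q 22) (Q 22) f351) f352 (T0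 9 19 (T2 3 22 (T3 2 35 (Q 37) (Q 37) (T0 17 36 (T2 5 37 (N 288) (N 288) (Q 37)) (Q 53) (Q 53))) (Q 37) (Q 22)) (T2 3 22 (Q 55) (Q 37) (Q 22)) (T1 6 19 (Q 23) (Q 23) (P 19)))) (T0 9 19 (T2 3 22 (T0 17 36 (Q 52) (Q 52) (Q 53)) (Q 37) (Q 22)) (Q 53) (T1 6 19 (Q 23) (Q 23) (P 19))) (P 17))) (T0 8 17 (T2 3 22 (T0 15 32 (Q 52) (Q 52) (T2 5 37 (T0 23 49 (Q 97) (Q 97) (Q 49)) (Q 52) (Q 37))) (Q 37) (Q 22)) (T2 3 22 (Q 49) (Q 37) (Q 22)) (P 17)) (P 16))) (T1 5 16 (Q 17) (Q 17) (P 16)) (P 15))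
def f354 : C := T0 7 15 (Q 16) (Q 16) (T2 2 15 (T1 5 16 (Q 17) (Q 17) (P 16)) (T1 5 16 (Q 17) (Q 17) (P 16)) (P 15))
def f355 : C := T3 1 12 (T0 6 13 (T3 1 13 (T3 1 14 (T2 2 15 (N 195) (N 546) (T3 1 15 (Q 22) (Q 16) (Q 16))) (Q 16) (Q 16)) (Q 16) f337) (T3 1 13 (T3 1 14 (T2 2 15 (N 210) (N 756) (T3 1 15 (Q 22) (Q 16) (Q 16))) (Q 16) (Q 16)) (Q 16) f337) (T1 4 13 (T3 1 13 (T3 1 14 (T2 2 15 (T3 1 15 (T3 1 16 (T3 1 17 (N 390) (N 390) (Q 17)) (Q 17) (Q 17)) (Q 17) (Q 17)) (T3 1 15 (T3 1 16 (Q 53) (Q 17) (Q 17)) (Q 17) (Q 17)) (T3 1 15 (T3 1 16 (T3 1 17 (T3 1 18 (T3 1 19 (T3 1 20 (Q 23) (Q 23) (T1 7 23 (N 266) (N 266) (Q 23))) (T1 7 23 (N 322) (N 588) (Q 23)) (T2 3 22 (N 198) (N 234) (T1 7 23 (T1 10 33 (Q 57) (Q 43) (T3 2 37 (Q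 43) (Q 43) (Q 37))) (Q 79) (Q 23)))) (Q 37) (T2 3 22 (T1 7 23 (N 220) (N 220) (Q 23)) (Q 37) (Q 37))) (T2 3 22 (Q 53) (Q 37) (Q 37)) (Q 17)) (Q 17) (Q 17)) (Q 17) (Q 15))) (Q 17) (Q 17)) (Q 17) f338) (T3 1 13 (T3 1 14 (T2 2 15 (T3 1 15 (T3 1 16 (T3 1 17 (N 510) (N 900) (Q 17)) (Q 17) (Q 17)) (Q 17) (Q 17)) (Q 23) (T3 1 15 (Q 23) (Q 17) (Q 15))) (Q 17) (Q 17)) (Q 17) f338) (T3 1 13 (T3 1 14 (T0 7 15 f339 f339 f353) f354 f354) f354 (P 13)))) (T0 6 13 f337 (T2 2 15 (Q 16) (Q 16) (Q 61)) (T1 4 13 f338 f338 (P 13))) (T0 6 13 (T1 4 13 (T1 7 23 (N 483) (N 637) (Q 23)) (Q 23) (T2 2 15 (Q 16) (Q 16) (T1 5 16 (T2 3 22 (Q 23) (Q 23) (T3 2 23 (T0 11 24 (Q 29) (Q 29) (P 24)) (T0 11 24 (Q 29) (P 59) (P 24)) (P 23))) (T2 3 22 (Q 23) (Q 23)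 (T3 2 23 (Q 29) (Q 29) (P 23))) (P 16)))) (P 24) (P 24))
def f356 : C := T3 1 9 (T1 3 10 (T3 1 10 f334 (Q 11) (T0 5 11 (T1 5 17 (Q 29) (Q 29) (T3 2 19 (Q 51) (Q 29) (T0 9 20 (T1 8 27 (Q 29) (Q 29) (T3 3 28 (N 140) (Q 29) (T0 13 29 (T1 11 37 (N 252) (N 252) (Q 37)) (Q 38) (Q 29)))) (Q 29) (Q 38)))) (Q 31) (P 11))) (T3 1 10 (T3 1 11 (T3 1 12 (T3 1 13 (T3 1 14 (T2 2 15 (Q 17) (Q 17) (T3 1 15 (T3 1 16 (Q 37) (Q 17) (Q 17)) (Q 17) (Q 15))) (Q 17) (Q 17)) (Q 17) (Q 17)) (Q 17) (Q 24)) (Q 24) (Q 11)) (Q 11) (T0 5 11 (T3 2 19 (Q 51) (Q 29) (T0 9 20 (T3 3 28 (Q 29) (Q 29) (T0 13 29 (Q 37) (Q 37) (Q 29))) (Q 29) (Q 38))) (Q 31) (P 11))) (T3 1 10 (T0 5 11 (T3 1 11 f335 (T2 2 15 (Q 16) (Q 16) (Q 23)) (T1 4 13 (T0 9 20 (Q 23) (Q 23) (T3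 2 21 (Q 23) (Q 23) (T1 7 23 (Q 31) (Q 31) (Q 23)))) (Q 23) f336)) (T3 1 11 f335 (T2 2 15 (Q 16) (Q 16) (Q 23)) (T1 4 13 (T3 2 21 (Q 23) (Q 23) (Q 53)) (Q 23) f336)) (T3 1 11 f355 (T0 6 13 (T1 4 13 (T1 7 23 (N 483) (N 637) (Q 23)) (Q 23) (T2 2 15 (Q 16) (P 23) (P 23))) (P 24) (P 24)) (P 11))) (T0 5 11 (T1 4 13 (T0 9 20 (Q 23) (Q 23) (T1 7 23 (Q 31) (Q 31) (Q 23))) (Q 23) f336) (T1 4 13 (Q 31) (Q 23) (T2 2 15 (Q 42) (P 23) (P 23))) (P 11)) (P 10))) (T1 3 10 (T0 5 11 (T1 5 17 (Q 29) (Q 29) (T0 9 20 (T1 8 27 (Q 29) (Q 29) (T0 13 29 (T1 11 37 (N 602) (N 602) (Q 37)) (Q 38) (Q 29))) (Q 29) (Q 38))) (Q 31) (P 11)) (T0 5 11 (T0 9 20 (Q 37) (Q 29) (Q 38)) (P 64) (P 11)) (P 10)) (P 9)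
def f357 : C := T2 1 8 (T3 1 8 (T0 4 9 (T2 1 9 (T3 1 9 (N 9) (O 2) (O 2)) (Q 10) f306) (T2 1 9 (T3 1 9 (Q 10) (O 2) (O 2)) (Q 10) f306) f324) (O 2) (O 2)) (T3 1 8 (T0 4 9 f306 f306 (T3 1 9 (T1 3 10 (T3 1 10 (T3 1 11 (T3 1 12 (T3 1 13 (Q 17) (Q 17) (T1 5 17 (Q 25) (Q 25) (Q 17))) (Q 25) (Q 25)) (Q 25) (Q 11)) (Q 11) (Q 11)) (T3 1 10 (Q 17) (Q 11) (Q 11)) (T3 1 10 (T0 5 11 (T3 1 11 (Q 25) (Q 25) (T0 9 20 (Q 25) (Q 25) (T3 2 21 (Q 25) (Q 25) (T1 8 25 (N 550) (N 759) (P 25))))) (T3 1 11 (Q 25) (Q 25) (T3 2 21 (Q 25) (Q 25) (Q 42))) (T3 1 11 (T3 1 12 (T0 6 13 (T0 11 24 (Q 25) (Q 25) (T3 2 25 (N 975) (N 1287) (Q 25))) (Q 76) (T1 4 13 (Q 17) (Q 17) (T3 1 13 (T3 1 14 (T3 1 15 (T1 5 16 (Q 17) (Q 17) (T3 1 16 (T3 1 17 (T3 1 18 (T3 1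 19 (Q 25) (Q 25) (Q 19)) (Q 19) (T1 6 19 (N 646) (N 782) (Q 19))) (T1 6 19 (N 798) (N 934) (Q 19)) (Q 17)) (Q 17) (Q 17))) (Q 17) f325) f325 f326) f326 (P 13)))) f327 f327) f327 (P 11))) (T0 5 11 (Q 41) (Q 41) (P 11)) (P 10))) (T1 3 10 (Q 11) (Q 11) (P 10)) (P 9))) (T0 4 9 (Q 10) (P 25) (P 9)) (O 2)) (T3 1 8 (T0 4 9 f330 (T3 1 9 (T3 1 10 (T3 1 11 (Q 16) (Q 16) (T2 2 15 (Q 16) (Q 16) (Q 23))) (T2 2 15 (Q 16) (Q 16) (Q 23)) (Q 10)) (Q 10) (T1 3 10 (T2 2 15 (Q 17) (Q 17) (T1 5 17 (T2 3 22 (N 1496) (Q 25) (T1 7 24 (Q 25) (Q 25) (Q 52))) (Q 52) (T3 2 17 (T3 3 26 (T3 4 35 (Q 37) (Q 37) (Q 44)) (Q 44) (Q 52)) (Q 52) (P 17)))) (T2 2 15 (Q 17) (Q 17) (T3 2 17 (Q 37) (P 61) (P 17))) (P 10))) f356) (T0 4 9 (T1 3 10 (T2 2 15 (Q 17) (Q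 17) (T0 7 16 (T1 5 17 (N 1071) (N 1183) (P 17)) (T1 5 17 (N 1071) (N 1183) (P 17)) (T1 5 17 (T2 3 22 (Q 25) (Q 25) (T1 7 24 (T0 11 25 (N 959) (N 959) (P 25)) (Q 66) (T0 11 25 (T0 18 41 (Q 65) (Q 57) (Q 73)) (P 66) (P 25)))) (T2 3 22 (Q 25) (Q 25) (T0 11 25 (Q 58) (P 41) (P 25))) (P 17)))) (P 17) (P 10)) (P 25) (P 9)) (P 8))
def f358 : C := T3 1 13 (T3 1 14 (Q 22) (Q 16) (Q 16)) (Q 16) (Q 29)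
def f359 : C := T0 10 21 (Q 22) (Q 22) (T1 7 22 (Q 23) (Q 23) (P 22))
def f360 : C := T0 8 17 (Q 22) (Q 22) (T3 1 17 (T3 1 18 (T0 9 19 (Q 22) (Q 22) (T1 6 19 (Q 29) (Q 29) (T3 1 19 (T3 1 20 (T0 10 21 (Q 22) (Q 22) (T3 1 21 (T1 7 22 (Q 29) (Q 29) (T3 1 22 (T0 11 23 (Q 67) (Q 67) (T3 1 23 (T3 1 24 (T1 8 25 (Q 29) (Q 29) (T3 1 25 (T3 1 26 (T3 1 27 (T1 9 28 (Q 29) (Q 29) (T3 1 28 (T3 1 29 (T3 1 30 (T3 1 31 (T3 1 32 (T3 1 33 (T3 1 34 (T3 1 35 (T3 1 36 (T3 1 37 (T3 1 38 (T3 1 39 (T3 1 40 (T3 1 41 (T3 1 42 (T3 1 43 (N 258) (N 300) (Q 43)) (Q 43) (Q 43)) (Q 43) (Q 43)) (Q 43) (Q 43)) (Q 43) (Q 43)) (Q 43) (Q 43)) (Q 43) (Q 37)) (Q 37) (Q 37)) (Q 37) (Q 37)) (Q 37) (Q 37)) (Q 37) (Q 37)) (Q 37) (T1 12 37 (N 370) (N 496) (Q 37))) (T1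 12 37 (N 370) (N 524) (Q 37)) (Q 31)) (Q 31) (T1 10 31 (T1 19 59 (N 580) (N 580) (Q 59)) (Q 59) (Q 31))) (T1 10 31 (Q 205) (Q 59) (Q 31)) (Q 29)) (Q 29) (Q 29))) (Q 29) (Q 29)) (Q 29) (Q 29)) (Q 29) (Q 25))) (T1 8 25 (Q 29) (Q 29) (Q 25)) (T0 12 25 (N 552) (N 552) (T1 8 25 (Q 29) (Q 29) (P 25)))) (T0 12 25 (N 804) (N 804) (T1 8 25 (Q 29) (Q 29) (P 25))) (P 23))) (T0 11 23 (Q 67) (Q 67) (P 23)) (P 22))) (T1 7 22 (Q 23) (Q 23) (P 22)) (T1 7 22 (Q 23) (Q 23) (P 22)))) f359 f359) f359 (P 19)))) f352 (T0 9 19 (Q 22) (P 36) (P 36))) (T0 9 19 (Q 22) (P 36) (P 36)) (P 17))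
def f361 : C := T1 3 10 (T3 1 10 (T3 1 11 (T3 1 12 (T3 1 13 (T3 1 14 (T3 1 15 (T3 1 16 (T1 5 17 (N 272) (N 384) (T3 1 17 (Q 37) (Q 37) (Q 17))) (Q 65) (T1 5 17 (T1 7 24 (T1 9 31 (N 930) (N 1140) (Q 31)) (Q 31) f331) (Q 65) (Q 17))) (T1 5 17 (Q 107) (Q 31) (Q 17)) (Q 15)) (Q 15) (Q 15)) (Q 15) (Q 15)) (Q 15) (T0 7 15 (Q 24) (Q 24) (P 15))) (T0 7 15 (Q 24) (Q 24) (P 15)) (Q 11)) (Q 11) (T0 5 11 (T1 5 17 (Q 29) (Q 29) (T3 2 19 (Q 51) (Q 29) (T0 9 20 (T1 8 27 (Q 29) (Q 29) (T3 3 28 (Q 29) (Q 29) (T0 13 29 (T1 11 37 (N 629) (N 783) (Q 37)) (P 38) (P 29)))) (P 29) (P 29)))) (Q 31) (P 11))) (T3 1 10 (T3 1 11 (T3 1 12 (T3 1 13 (T3 1 14 (T3 1 15 (Q 37) (Q 17) (Q 15)) (Q 15) (Q 15)) (Q 15) (Q 15)) (Q 15) (Q 24)) (Q 24) (Q 11)) (Q 11)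 (T0 5 11 (T3 2 19 (Q 51) (Q 29) (P 57)) (P 31) (P 11))) (T3 1 10 (T0 5 11 (T3 1 11 (T3 1 12 (Q 16) (Q 16) (Q 36)) (Q 23) (T1 4 13 (T0 9 20 (Q 23) (Q 23) (T3 2 21 (Q 23) (Q 23) (T1 7 23 (Q 31) (P 43) (P 23)))) (P 23) (P 23))) (T3 1 11 (T3 1 12 (Q 16) (Q 16) (Q 29)) (Q 23) (T1 4 13 (Q 64) (P 23) (P 23))) (T3 1 11 (T3 1 12 (T0 6 13 f358 f358 (T1 4 13 (T3 1 13 (T3 1 14 (T3 1 15 (T3 1 16 (T3 1 17 (T3 1 18 (T3 1 19 (Q 43) (Q 43) (Q 57)) (Q 37) (Q 37)) (Q 37) (Q 17)) (Q 17) (Q 17)) (Q 17) (Q 15)) (Q 15) (Q 15)) (Q 15) (T0 7 15 (Q 37) (Q 37) (P 15))) (T3 1 13 (T3 1 14 (T3 1 15 (Q 23) (Q 17) (Q 15)) (Q 15) (Q 15)) (Q 15) (Q 43)) (T3 1 13 (T3 1 14 (T0 7 15 (Q 22) (Q 22) (T3 1 15 (T1 5 16 (T3 1 16 (Q 23) (Q 17) (Q 17)) (T3 1 16 (Q 23)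 (Q 17) (Q 17)) (T3 1 16 f360 (T0 8 17 (Q 22) (Q 22) (P 17)) (P 16))) (T1 5 16 (Q 17) (Q 17) (P 16)) (P 15))) (T0 7 15 (Q 16) (P 43) (P 15)) (T0 7 15 (Q 16) (P 43) (P 15))) (T0 7 15 (Q 16) (P 43) (P 15)) (P 13)))) (T0 6 13 (Q 29) (P 37) (P 37)) (T0 6 13 (T1 4 13 (T1 7 23 (N 923) (N 923) (Q 23)) (P 36) (P 36)) (P 24) (P 24))) (T0 6 13 (T1 4 13 (Q 57) (P 23) (P 23)) (P 24) (P 24)) (P 11))) (T0 5 11 (T1 4 13 (T0 9 20 (Q 23) (Q 23) (T1 7 23 (Q 31) (P 43) (P 23))) (P 23) (P 23)) (P 31) (P 11)) (P 10))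
def f362 : C := T3 1 8 (T0 4 9 (T3 1 9 (T3 1 10 (T3 1 11 (T3 1 12 (Q 16) (Q 16) f328) (T0 7 16 (Q 58) (Q 23) (Q 16)) (T0 7 16 (Q 22) (Q 22) (Q 23))) (T0 7 16 (Q 22) (Q 22) (Q 23)) (Q 10)) (Q 10) (T1 3 10 (T0 7 16 (T1 5 17 (N 272) (N 384) (Q 17)) (T1 5 17 (N 1224) (N 1336) (Q 17)) (T1 5 17 (T1 7 24 (T0 11 25 (N 384) (N 384) (Q 25)) (T0 11 25 (N 1000) (N 1168) (Q 25)) f329) (T0 11 25 (Q 58) (Q 41) (T3 3 25 (Q 43) (P 92) (P 25))) (T3 2 17 (T0 11 25 (Q 37) (Q 37) (T3 3 26 (T0 15 34 (N 510) (N 580) (T3 4 35 (Q 37) (Q 37) (Q 44))) (Q 44) (T1 8 27 (Q 52) (P 44) (P 44)))) (T0 11 25 (Q 37) (Q 37) (T1 8 27 (Q 43) (P 44) (P 44))) (P 17)))) (T0 7 16 (Q 17) (P 37) (P 37)) (P 10))) (T3 1 9 (T3 1 10 (T3 1 11 (Q 16) (Q 16) (Q 23)) (Q 23) (Q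 10)) (Q 10) (T1 3 10 (T1 5 17 (Q 43) (Q 43) (T3 2 17 (T3 3 26 (T3 4 35 (Q 37) (P 79) (P 79)) (P 79) (P 52)) (P 43) (P 17))) (P 37) (P 10))) (T3 1 9 f361 (T1 3 10 (T0 5 11 (T1 5 17 (Q 29) (Q 29) (T0 9 20 (T1 8 27 (Q 29) (Q 29) (T0 13 29 (Q 64) (P 38) (P 29))) (P 29) (P 29))) (P 29) (P 11)) (P 37) (P 10)) (P 9))) (T0 4 9 (T1 3 10 (T0 7 16 (Q 58) (Q 58) (T1 5 17 (T1 7 24 (Q 57) (Q 57) (T0 11 25 (T0 18 41 (Q 65) (P 57) (P 57)) (P 57) (P 25))) (P 58) (P 17))) (P 17) (P 10)) (P 25) (P 9)) (P 8)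
def f363 : C := T0 3 7 (T1 2 7 (T2 1 7 (T3 1 7 (N 7) (O 2) (O 2)) (Q 8) f270) f271 (T2 1 7 f273 (T3 1 7 f272 (P 8) (O 2)) (T3 1 7 f282 (P 8) (P 7)))) (T1 2 7 f271 (T2 1 7 (T3 1 7 (Q 8) (O 2) (O 2)) (Q 8) (T3 1 8 (Q 19) (Q 19) (P 8))) (T2 1 7 f273 f272 (T3 1 8 (T3 1 9 (T1 3 10 f274 (T3 2 19 (Q 31) (Q 31) (Q 19)) (T3 1 10 (T3 1 11 (T3 1 12 (T3 1 13 (Q 19) (Q 19) (Q 13)) (Q 13) (T2 2 13 (T2 3 20 (Q 82) (Q 47) (Q 40)) (Q 40) (Q 13))) (T2 2 13 (Q 89) (Q 34) (Q 13)) (T1 4 13 (Q 33) (Q 33) (T2 2 13 (T2 3 20 (Q 22) (Q 22) (T3 2 21 (Q 22) (Q 22) (Q 54))) (P 33) (P 13)))) (T1 4 13 (Q 31) (Q 31) (T2 2 13 (T2 3 20 (Q 22) (Q 22) (Q 54)) (P 33) (P 13))) (P 10))) (T1 3 10 (Q 19) (Q 19) (P 10)) (T1 3 10 (T2 2 13 f278 f278 (T1 5 17 (T3 2 17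 (Q 19) (P 26) (P 26)) (T3 2 17 (Q 19) (P 26) (P 26)) (T3 2 17 (T2 3 19 (T3 3 26 (Q 27) (Q 27) (P 26)) (P 45) (P 19)) (P 26) (P 17)))) f281 (P 10))) (T1 3 10 (T2 2 13 (T1 5 17 (Q 33) (Q 33) (P 17)) (P 33) (P 26)) (P 17) (P 10)) (P 8)))) (T1 2 7 f304 (T2 1 7 (T3 1 7 (T2 1 8 (T3 1 8 (T2 1 9 (T3 1 9 (Q 11) (O 2) (O 2)) (Q 11) (T3 1 9 (T3 1 10 (T3 1 11 (Q 25) (Q 25) (Q 11)) (Q 11) (Q 11)) (Q 11) (Q 9))) (O 2) (O 2)) (T3 1 8 (T3 1 9 (T3 1 10 (Q 25) (Q 11) (Q 11)) (Q 11) (Q 9)) (Q 9) (O 2)) (T3 1 8 (T3 1 9 (T3 1 10 (T3 1 11 (T3 1 12 (T3 1 13 (Q 15) (Q 15) (Q 39)) (Q 25) (T2 2 15 (Q 25) (Q 25) (Q 15))) (T2 2 15 (Q 25) (Q 23) (Q 15)) (Q 11)) (Q 11) (Q 11)) (Q 11) (Q 9)) (Q 9) (P 8))) (O 2) (O 2)) (T3 1 8 (T3 1 9 (T3 1 10 (Q 15) (Q 11)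 (Q 11)) (Q 11) (Q 9)) (Q 9) (P 8)) (T3 1 8 f305 (T0 4 9 (T2 2 13 (T0 7 16 (Q 53) (Q 53) (T2 3 20 (Q 57) (P 67) (P 60))) (P 33) (P 26)) (P 25) (P 9)) (P 8))) (T2 1 7 (T3 1 7 f357 (O 2) (O 2)) f362 (P 7)))
def f364 : C := T3 1 12 (T3 1 13 (Q 19) (Q 19) (Q 13)) (Q 13) (Q 13)
def f365 : C := T1 5 18 (Q 19) (Q 19) (T3 2 19 (Q 25) (Q 25) (P 19))
def f366 : C := T3 2 21 (Q 25) (Q 25) (T1 7 25 (Q 31) (P 43) (P 25))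
def f367 : C := T3 1 9 (T3 1 10 (T0 5 11 (T0 9 20 (Q 25) (Q 25) f366) f366 (T1 3 11 (T3 1 11 (T3 1 12 (T3 1 13 (T3 1 14 (T1 4 15 (Q 31) (Q 19) (Q 19)) (Q 31) (T1 4 15 (T1 5 19 (T1 6 23 (T1 7 27 (Q 55) (Q 31) (Q 31)) (Q 31) (Q 31)) (Q 31) (Q 19)) (Q 19) (Q 15))) (T1 4 15 (T1 5 19 (Q 55) (Q 27) (Q 19)) (Q 19) (Q 15)) (Q 13)) (Q 13) (Q 13)) (Q 13) (T0 6 13 (Q 31) (Q 31) (P 13))) (T3 1 11 (T3 1 12 (Q 19) (Q 13) (Q 13)) (Q 13) (Q 37)) (T3 1 11 (T3 1 12 (T3 1 13 (T3 1 14 (T3 1 15 (T3 1 16 (T3 1 17 (T1 5 18 (Q 19) (Q 19) (T3 1 18 (T3 1 19 (Q 25) (Q 25) (Q 19)) (Q 19) (Q 19))) (Q 19) (Q 19)) (Q 19) (Q 19)) (Q 19) (Q 15)) (Q 15) (Q 15)) (Q 15) (Q 13)) (Q 13) (T0 6 13 (Q 25) (P 37) (P 13))) (T0 6 13 (Q 25) (P 37) (P 13)) (P 11)))) (T0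 5 11 (T0 9 20 (Q 25) (Q 25) (T1 7 25 (Q 31) (P 43) (P 25))) (Q 31) (T1 3 11 (T0 6 13 (Q 31) (Q 31) (P 13)) (P 31) (P 11))) (T0 5 11 (T1 3 11 (Q 19) (Q 19) (T1 5 18 (T3 2 19 (T0 9 20 (Q 29) (Q 29) (P 20)) (Q 49) (P 19)) (T3 2 19 (T0 9 20 (Q 29) (Q 29) (P 20)) (Q 29) (P 19)) (T3 2 19 (T0 9 20 (T1 7 25 f300 (P 43) (P 25)) (T1 7 25 (Q 49) (P 43) (P 25)) (P 20)) (T0 9 20 (T1 7 25 (T0 13 29 (Q 43) (P 67) (P 29)) (P 43) (P 25)) (P 29) (P 20)) (P 19)))) (P 20) (P 20))) (T0 5 11 (Q 19) (P 20) (P 20)) (P 9)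
def f368 : C := T0 3 7 (T1 2 7 f270 (T3 1 7 (T3 1 8 (Q 19) (P 25) (P 8)) (P 8) (P 8)) (T3 1 7 (T3 1 8 (T3 1 9 (T1 3 10 (Q 31) (Q 31) (T3 1 10 (T3 1 11 (T0 5 12 (Q 13) (Q 13) f364) (Q 13) (T0 5 12 (Q 13) (Q 13) (T1 4 13 (Q 33) (Q 33) (P 13)))) (T0 5 12 (Q 13) (Q 13) (T1 4 13 (Q 31) (Q 31) (P 13))) (P 10))) (T1 3 10 (Q 19) (Q 19) (P 10)) (T1 3 10 (T0 5 12 (T0 7 17 (Q 25) (Q 25) f277) f277 (T1 5 17 (T3 2 17 (T0 8 19 (N 323) (N 425) (P 19)) (Q 43) (T0 8 19 (T1 7 24 (T3 3 25 (N 425) (N 641) (P 25)) (T3 3 25 (N 425) (N 641) (P 25)) (T3 3 25 (Q 55) (Q 55) (P 25))) (P 43) (P 19))) (T3 2 17 (Q 31) (Q 31) (T0 8 19 (T3 3 25 (Q 55) (P 92) (P 25)) (P 31) (P 19))) (T3 2 17 (T0 8 19 (T3 3 26 (T1 8 27 (N 641) (N 641) (P 27)) (Q 44) (T1 8 27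 (Q 55) (P 44) (P 27))) (P 31) (P 19)) (T0 8 19 (T1 8 27 (Q 43) (P 44) (P 27)) (P 31) (P 19)) (P 17)))) (Q 27) (P 10))) (P 25) (P 8)) (P 8) (P 7))) (T1 2 7 f270 (Q 19) (T3 1 9 (T1 3 10 (Q 31) (Q 31) (T3 1 10 (T3 1 11 (T3 1 12 (Q 19) (Q 13) (Q 13)) (Q 13) (Q 33)) (P 31) (P 10))) (P 19) (P 19))) (T1 2 7 (T3 1 7 (T3 1 8 (T0 4 9 (T3 1 9 (T0 7 16 (Q 19) (Q 19) f365) (Q 19) (Q 19)) (T3 1 9 f365 (Q 19) (Q 19)) f367) (T0 4 9 (Q 19) (P 25) (P 9)) (P 8)) (P 8) (P 7)) (T0 4 9 (T3 1 9 (T0 7 16 (Q 19) (Q 19) (Q 32)) (P 19) (P 19)) (Q 25) (T3 1 10 (T0 5 11 (Q 25) (Q 25) (T3 1 11 (T3 1 12 (T3 1 13 (T3 1 14 (T3 1 15 (Q 25) (Q 19) (Q 15)) (Q 15) (Q 15)) (Q 15) (Q 13)) (P 25) (P 25)) (P 25) (P 11))) (P 25) (P 25))) (P 7))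
def f369 : C := T1 3 11 (T0 5 12 (Q 37) (Q 37) (P 12)) (T0 5 12 (Q 37) (Q 37) (P 12)) (T2 2 11 (Q 12) (Q 12) (P 11))
def f370 : C := T0 7 17 (Q 27) (Q 27) (T3 2 17 (Q 27) (Q 27) (P 17))
def f371 : C := T2 4 21 (Q 27) (Q 27) (T0 9 22 (Q 26) (P 27) (P 27))
def f372 : C := T3 1 8 (T3 1 9 (T3 1 10 (T1 3 11 (Q 12) (Q 12) (T3 1 11 (Q 12) (Q 12) (Q 11))) (T1 3 11 (Q 12) (Q 12) (Q 11)) f369) f369 (T1 3 11 (T2 2 11 (Q 12) (Q 12) (T0 5 12 (T1 4 15 f370 (Q 27) (T2 3 16 (Q 17) (Q 17) (T0 7 17 (T3 2 17 (Q 27) (Q 26) (T2 4 21 (N 1496) (N 1496) (T0 9 22 (T3 3 25 (Q 26) (Q 26) (T1 7 26 (Q 42) (Q 42) (Q 26))) (P 27) (P 27)))) (P 27) (P 27)))) (T1 4 15 (T3 2 17 (Q 27) (Q 27) (P 17)) (Q 27) (T2 3 16 (Q 17) (P 27) (P 27))) (P 12))) (T2 2 11 (Q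 12) (Q 12) (T0 5 12 (T2 3 16 (Q 17) (Q 17) (T0 7 17 (T3 2 17 (Q 27) (Q 26) f371) (P 27) (P 27))) (T2 3 16 (Q 17) (P 27) (P 27)) (P 12))) (T2 2 11 (T0 5 12 (T0 7 17 (Q 18) (Q 18) f169) f169 (P 12)) (T0 5 12 (T0 7 17 (Q 18) (Q 18) (T3 2 17 (Q 18) (Q 18) (P 17))) (T3 2 17 (Q 18) (Q 18) (P 17)) (P 12)) (P 11)))) (T1 3 11 (T2 2 11 (Q 12) (Q 12) (T0 5 12 (T1 4 15 (T0 7 17 (Q 27) (Q 27) (P 17)) (Q 27) (T2 3 16 (Q 17) (Q 17) (T0 7 17 (T2 4 21 (Q 27) (Q 27) (T0 9 22 (T1 7 26 (Q 42) (Q 41) (Q 26)) (P 27) (P 27))) (P 27) (P 17)))) (P 17) (P 12))) (T2 2 11 (Q 12) (Q 12) (T0 5 12 (T2 3 16 (Q 17) (Q 17) (T0 7 17 f371 (P 27) (P 17))) (P 17) (P 12))) (T2 2 11 (T0 5 12 (T0 7 17 (Q 18) (Q 18) (T2 3 17 (Q 18) (Q 18) (P 17))) (Q 41) (P 12)) (T0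 5 12 (T0 7 17 (Q 18) (Q 18) (P 17)) (P 17) (P 12)) (P 11))) (P 8)
def f373 : C := T0 7 17 (Q 27) (Q 27) (T1 5 17 (Q 46) (Q 46) (P 17))
def f374 : C := T1 8 27 (Q 28) (Q 28) (T2 5 28 (Q 37) (Q 37) (T3 3 28 (Q 39) (Q 39) (P 28)))
def f375 : C := T2 5 28 (Q 29) (Q 29) (T3 3 28 (N 588) (N 792) (P 28))
def f376 : C := T1 8 27 (Q 29) (Q 29) (T3 3 28 (Q 29) (Q 29) (T0 12 29 (Q 37) (P 75) (P 29)))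
def f377 : C := T3 2 27 (Q 28) (Q 28) (T2 5 28 (Q 40) (Q 40) (Q 28))
def f378 : C := T3 2 27 (Q 29) (Q 29) (T0 12 29 (Q 40) (Q 40) (Q 29))
def f379 : C := T3 1 16 (Q 19) (Q 19) (T2 3 17 (Q 19) (Q 19) (P 17))
def f380 : C := T1 4 13 (T0 7 17 (Q 23) (Q 23) (T2 3 17 (Q 23) (Q 23) (P 17))) (Q 23) (P 13)
def f381 : C := T3 1 15 (T3 1 16 (Q 19) (P 17) (P 17)) (P 17) (P 17)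
def f382 : C := T0 11 27 (T0 13 32 (Q 67) (Q 37) (Q 37)) (Q 37) (Q 37)
def f383 : C := T3 1 16 (T0 7 17 (T3 1 17 (Q 37) (Q 37) (T0 9 22 f382 (Q 37) (Q 22))) (Q 22) (Q 22)) (T0 7 17 (T0 9 22 (T0 11 27 (Q 67) (Q 37) (Q 37)) (Q 37) (Q 22)) (Q 22) (P 17)) (Q 16)
def f384 : C := T3 2 23 (Q 27) (Q 27) (T0 11 27 (T0 13 32 (Q 57) (P 37) (P 37)) (P 37) (P 27))
def f385 : C := T0 9 22 (T1 7 23 f384 f384 (T3 2 23 (T0 11 27 (T0 13 32 (Q 36) (P 37) (P 37)) (P 37) (P 27)) (Q 47) (P 23))) (P 27) (P 27)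
def f386 : C := T2 4 21 (Q 22) (Q 22) (T1 7 22 (N 245) (N 245) (P 22))
def f387 : C := T0 8 19 (Q 22) (Q 22) (T1 6 19 (Q 26) (Q 26) (P 19))
def f388 : C := T0 5 12 (T3 1 12 (T1 4 13 (Q 27) (Q 27) (T3 1 13 (T3 1 14 (T3 1 15 (T2 3 16 (Q 17) (Q 17) f383) (T2 3 16 (Q 17) (Q 17) (Q 16)) (T1 5 16 (Q 17) (Q 17) (T2 3 16 (T0 7 17 (T0 9 22 (T0 11 27 (N 336) (N 336) (T2 8 43 (N 462) (N 462) (T3 3 43 (N 501) (N 501) (Q 43)))) (Q 49) (Q 22)) (Q 22) (P 17)) (T0 7 17 (T0 9 22 (Q 59) (Q 49) (Q 22)) (Q 22) (P 17)) (P 16)))) (T1 5 16 (Q 17) (Q 17) (T2 3 16 (T0 7 17 (T0 9 22 (T0 11 27 (N 405) (N 741) (T2 8 43 (N 1161) (Q 49) (Q 43))) (Q 49) (Q 22)) (Q 22) (P 17)) (Q 59) (P 16))) (T1 5 16 (T0 7 17 (Q 27) (Q 27) (P 17)) (Q 42) (T2 3 16 (T0 7 17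 (Q 28) (Q 22) (P 17)) (T0 7 17 (Q 28) (Q 22) (P 17)) (P 16)))) (T1 5 16 (Q 27) (Q 27) (T2 3 16 (T0 7 17 (Q 28) (Q 22) (P 17)) (T0 7 17 (Q 28) (P 27) (P 17)) (P 16))) (P 13))) (T1 4 13 (Q 27) (Q 27) (P 13)) (T1 4 13 (T2 3 16 (Q 17) (Q 17) (T0 7 17 (T2 4 21 (Q 23) (Q 23) f385) (P 27) (P 17))) (T2 3 16 (Q 17) (Q 17) (T0 7 17 (T2 4 21 (Q 23) (Q 23) (T0 9 22 (T3 2 23 (Q 36) (Q 36) (P 23)) (P 27) (P 27))) (P 27) (P 17))) (P 13))) (T3 1 12 (T1 4 13 (Q 17) (Q 17) (T3 1 13 (T3 1 14 (T3 1 15 (T2 3 16 (Q 17) (Q 17) (T3 1 16 (Q 22) (P 17) (P 17))) (P 17) (P 17)) (P 17) (P 17)) (P 17) (P 13))) (P 17) (P 17)) (T3 1 12 (T1 4 13 (Q 17) (Q 17) (T3 1 13 (T3 1 14 (T3 1 15 (T1 5 16 (T3 1 16 (Q 26) (P 17) (P 17)) (T3 1 16 (Q 26) (P 17) (P 17))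 (T2 3 16 (T3 1 16 (Q 22) (P 17) (P 17)) (T3 1 16 (Q 22) (P 17) (P 17)) (T3 1 16 (T3 1 17 (T3 1 18 (T0 8 19 (T3 1 19 (T3 1 20 (T3 1 21 (Q 46) (Q 22) (Q 22)) (Q 22) (Q 22)) (Q 22) (Q 22)) (T3 1 19 (T3 1 20 (Q 31) (Q 22) (Q 22)) (Q 22) (Q 22)) (T1 6 19 (N 630) (N 630) (T3 1 19 (T3 1 20 (T2 4 21 (Q 22) (Q 22) (T3 1 21 (T3 1 22 (T3 1 23 (Q 31) (Q 31) (T0 11 26 (Q 31) (Q 31) (T2 5 26 (N 462) (N 462) (P 26)))) (T0 11 26 (Q 31) (Q 31) (T2 5 26 (N 483) (N 483) (P 26))) (Q 22)) (Q 22) (Q 22))) (Q 22) f386) f386 (P 19)))) (T0 8 19 (Q 22) (Q 22) (T1 6 19 (N 665) (N 1295) (P 19))) f387) f387 (P 17)) (P 17) (P 16)))) (P 17) (P 17)) (P 17) (P 17)) (P 17) (P 13))) (P 17) (P 12))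
def f389 : C := T2 2 11 (T3 1 11 (T0 5 12 (T3 1 12 (T3 1 13 (T3 1 14 (Q 17) (Q 17) (T0 7 17 (T0 9 22 (Q 28) (Q 28) f377) f377 (T2 3 17 (T2 4 23 (Q 29) (Q 29) f378) f378 (P 17)))) (T0 7 17 (Q 40) (Q 40) (T2 3 17 (T2 4 23 (Q 29) (Q 29) (T0 12 29 (Q 40) (Q 40) (Q 29))) (Q 40) (P 17))) (Q 13)) (Q 13) (Q 13)) f132 (T3 1 12 (T1 4 13 (Q 17) (Q 17) (T3 1 13 (T3 1 14 (T3 1 15 f379 (T2 3 17 (Q 19) (Q 19) (P 17)) (T2 3 17 (T0 8 19 (T2 4 23 (N 546) (N 546) (Q 46)) (Q 31) (Q 19)) (T0 8 19 (Q 46) (Q 31) (Q 19)) (P 17))) (T2 3 17 (T0 8 19 (Q 29) (Q 29) (Q 19)) (Q 29) (P 17)) (T1 5 16 (N 819) (N 819) (T2 3 17 (T0 8 19 (T2 4 23 (T3 2 27 (T2 5 29 (Q 31) (Q 31) (P 29)) (Q 41) (T2 5 29 (T0 13 31 (T2 6 35 (T2 7 41 (Q 55) (Q 53) (Q 41)) (Q 41) (Q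 41)) (Q 43) (Q 31)) (Q 41) (P 29))) (P 29) (P 29)) (Q 31) (Q 19)) (P 29) (P 17)))) (T1 5 16 (N 896) (N 1078) (T2 3 17 (T0 8 19 (T2 4 23 (T2 5 29 (T0 13 31 (Q 118) (Q 43) (Q 31)) (Q 41) (P 29)) (P 29) (P 29)) (Q 31) (Q 19)) (P 29) (P 17))) (P 13))) (T1 4 13 (Q 17) (Q 17) (P 13)) (P 12))) (T0 5 12 (Q 13) (Q 13) (P 12)) (T0 5 12 f380 (T1 4 13 (T2 3 17 (Q 23) (Q 23) (P 17)) (Q 23) (P 13)) (P 12))) (T3 1 11 (T0 5 12 (T3 1 12 (T3 1 13 (T3 1 14 (Q 17) (Q 17) (Q 28)) (Q 28) (Q 13)) (Q 13) (Q 13)) (Q 17) (T3 1 12 (T1 4 13 (Q 17) (Q 17) (T3 1 13 (T3 1 14 f381 (P 17) (P 17)) (P 17) (P 13))) (P 17) (P 12))) (T0 5 12 (Q 13) (P 17) (P 12)) (T0 5 12 (T1 4 13 (T0 7 17 (Q 23) (Q 23) (P 17)) (P 23) (P 13)) (P 17) (P 12))) (T3 1 11 f388 (T0 5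 12 (T1 4 13 (T2 3 16 (Q 17) (Q 17) (T0 7 17 (T2 4 21 (Q 23) (Q 23) (T0 9 22 (T1 7 23 (Q 57) (Q 57) (P 23)) (P 27) (P 27))) (P 27) (P 17))) (P 23) (P 13)) (P 17) (P 12)) (P 11))
def f390 : C := T1 3 10 (T3 1 10 (T2 2 11 (Q 12) (Q 12) (T3 1 11 (T0 5 12 (T3 1 12 (N 60) (Q 17) f373) (T3 1 12 (Q 17) (Q 17) (T1 5 17 (Q 46) (Q 41) (P 17))) (T3 1 12 (T3 1 13 (Q 31) (Q 31) (T2 3 16 (N 240) (N 420) (T1 5 17 (T1 7 24 (Q 26) (Q 26) (T3 2 25 (Q 26) (Q 26) (Q 38))) (T3 2 25 (Q 26) (Q 26) (Q 38)) (P 17)))) (T2 3 16 (N 490) (N 490) (T1 5 17 (T1 7 24 (Q 26) (Q 26) (Q 38)) (Q 38) (P 17))) (P 12))) (T0 5 12 f373 (T1 5 17 (Q 46) (Q 41) (P 17)) (P 12)) (P 11))) (T2 2 11 (Q 12) (Q 12) (P 11)) (T2 2 11 (T0 5 12 (T0 7 17 (T2 3 17 (N 153) (N 810) (T0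 9 22 (Q 28) (Q 28) f374)) (T2 3 17 (N 810) (N 810) f374) (T1 5 17 (T1 7 24 (Q 28) (Q 28) f375) f375 (T2 3 17 (T2 4 23 (Q 37) (Q 29) f376) f376 (P 17)))) (T1 5 17 (Q 29) (Q 29) (Q 41)) (P 12)) (T0 5 12 (T0 7 17 (T0 9 22 (Q 28) (Q 28) (T1 8 27 (Q 28) (Q 28) (T3 3 28 (Q 39) (Q 39) (P 28)))) (Q 39) (T1 5 17 (Q 39) (Q 39) (P 17))) (T1 5 17 (Q 29) (P 41) (P 17)) (P 12)) (P 11))) (T3 1 10 (T2 2 11 (Q 12) (Q 12) (T3 1 11 (T0 5 12 (Q 27) (Q 17) (Q 17)) (T0 5 12 (Q 27) (P 17) (P 12)) (P 11))) (T2 2 11 (Q 12) (Q 12) (P 11)) (T2 2 11 (T0 5 12 (T0 7 17 (Q 57) (Q 57) (T2 3 17 (T2 4 23 (Q 37) (Q 29) (T3 3 28 (Q 29) (P 47) (P 47))) (Q 57) (P 17))) (Q 41) (P 12)) (T0 5 12 (T0 7 17 (Q 57) (P 61) (P 17)) (P 17) (P 12)) (P 11))) (T3 1 10 f389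 (T2 2 11 (T0 5 12 f380 (T1 4 13 (Q 41) (Q 23) (P 13)) (P 12)) (T0 5 12 (T1 4 13 (T0 7 17 (Q 23) (P 61) (P 17)) (P 23) (P 13)) (P 17) (P 12)) (P 11)) (P 10))
def f391 : C := T1 8 27 (Q 29) (Q 29) (T0 12 29 (Q 37) (P 46) (P 29))
def f392 : C := T1 3 10 (T3 1 10 (T2 2 11 (Q 12) (Q 12) (T3 1 11 (T3 1 12 (T3 1 13 (Q 31) (Q 31) (T2 3 16 (N 240) (N 660) (T1 5 17 (Q 26) (Q 26) (P 17)))) (T2 3 16 (N 730) (N 730) (T1 5 17 (Q 26) (P 38) (P 17))) (P 12)) (P 12) (P 11))) (P 12) (P 12)) (T3 1 10 (T2 2 11 (Q 12) (Q 12) (Q 17)) (P 12) (P 12)) (T3 1 10 (T2 2 11 (T3 1 11 (T3 1 12 (T1 4 13 (Q 17) (Q 17) (T3 1 13 (T3 1 14 (Q 19) (Q 19) (T1 5 16 (N 1248) (N 1430) (T2 3 17 (Q 19) (P 29) (P 17)))) (T1 5 16 (N 1507) (N 1507) (T2 3 17 (Q 19) (P 29)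 (P 17))) (P 13))) (T1 4 13 (Q 17) (Q 17) (P 13)) (P 12)) (P 12) (P 12)) (T3 1 12 (T1 4 13 (Q 17) (Q 17) (T3 1 13 (T3 1 14 (Q 19) (P 17) (P 17)) (P 17) (P 13))) (P 17) (P 12)) (T3 1 12 (T1 4 13 (Q 17) (Q 17) (T3 1 13 (T3 1 14 (T3 1 15 (T1 5 16 (T3 1 16 (Q 26) (P 17) (P 17)) (T3 1 16 (Q 26) (P 17) (P 17)) (T2 3 16 (T3 1 16 (Q 22) (P 17) (P 17)) (T3 1 16 (Q 22) (P 17) (P 17)) (T3 1 16 (T3 1 17 (T3 1 18 (T1 6 19 (Q 26) (Q 26) (T3 1 19 (T3 1 20 (T2 4 21 (Q 22) (Q 22) (T3 1 21 (T3 1 22 (T3 1 23 (Q 31) (Q 26) (Q 47)) (Q 47) (Q 22)) (Q 22) (Q 22))) (Q 22) (T2 4 21 (Q 22) (Q 22) (T1 7 22 (N 380) (N 380) (P 22)))) (T2 4 21 (Q 22) (Q 22) (T1 7 22 (N 550) (N 625) (P 22))) (P 19))) (T1 6 19 (Q 26) (Q 26) (P 19)) (T1 6 19 (Q 26) (P 54) (P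 19))) (T1 6 19 (Q 26) (P 54) (P 19)) (P 17)) (P 17) (P 16)))) (P 17) (P 17)) (P 17) (P 17)) (P 17) (P 13))) (P 17) (P 12))) (P 12) (P 10))
def f393 : C := T3 1 11 (T3 1 12 (Q 16) (Q 16) (P 12)) (P 12) (P 12)
def f394 : C := T3 1 14 (Q 16) (Q 16) (T0 7 16 (Q 46) (Q 46) (Q 16))
def f395 : C := T0 7 16 (Q 26) (Q 26) (T2 3 16 (Q 25) (Q 25) (P 16))
def f396 : C := T3 1 11 (T3 1 12 (Q 18) (Q 18) (P 12)) (P 12) (P 12)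
def f397 : C := T3 1 14 (T3 1 15 (Q 18) (Q 16) (Q 16)) (Q 16) (T2 3 16 (Q 18) (Q 18) (P 16))
def f398 : C := T1 7 27 (T3 2 29 (Q 75) (Q 75) (Q 29)) (Q 31) (Q 31)
def f399 : C := T2 7 41 (T3 3 41 (Q 59) (Q 55) (Q 83)) (Q 59) (Q 71)
def f400 : C := T2 7 41 (T1 11 43 (Q 95) (Q 55) (Q 43)) (Q 71) (Q 41)
def f401 : C := T1 13 51 (T3 4 53 (Q 83) (Q 83) (Q 53)) (Q 55) (Q 55)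
def f402 : C := T3 1 14 (T1 4 15 (T3 1 15 (T3 1 16 (T2 3 17 (T3 1 17 (Q 19) (Q 19) (T1 5 19 (Q 35) (Q 35) (Q 19))) (T3 1 17 (Q 19) (Q 19) (Q 35)) (T3 1 17 (T3 1 18 (Q 23) (Q 23) (T1 5 19 (T1 6 23 (Q 39) (Q 39) (Q 23)) (Q 23) (Q 19))) (Q 35) (Q 17))) (T2 3 17 (T1 5 19 (Q 35) (Q 35) (Q 19)) (Q 35) (Q 17)) (T2 3 17 (T1 5 19 (T1 6 23 (T2 4 23 (Q 31) (Q 31) (T1 7 27 (T1 8 31 (Q 47) (Q 35) (Q 35)) (Q 35) (Q 35))) (Q 35) (T2 4 23 (T2 5 29 (T3 2 31 (Q 35) (Q 35) (Q 31)) (Q 35) (Q 35)) (Q 35) (Q 23))) (Q 65) (Q 19)) (T1 5 19 (T1 6 23 (T1 7 27 (Q 63) (Q 35) (Q 35)) (Q 35) (Q 23)) (Q 23) (Q 19)) (Q 17))) (T2 3 17 (T1 5 19 (T1 6 23 (Q 47) (Q 31) (Q 31)) (Q 31) (Q 19)) (Q 47) (Q 17)) (T2 3 17 (T1 5 19 (T1 6 23 (T2 4 23 (T1 7 27 (T2 5 29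 (T3 2 29 (Q 47) (Q 47) (T1 8 31 (Q 59) (Q 59) (Q 31))) (Q 47) (T3 2 29 (Q 47) (Q 47) (Q 29))) (Q 31) (Q 31)) (T1 7 27 (Q 75) (Q 31) (Q 31)) f398) (Q 31) (Q 31)) (Q 31) (Q 19)) (T1 5 19 (T1 6 23 f398 (Q 31) (Q 23)) (Q 23) (Q 19)) (Q 17))) (T3 1 15 (T3 1 16 (T2 3 17 (Q 19) (Q 19) (Q 23)) (Q 19) (Q 19)) (Q 19) (Q 19)) (T3 1 15 (T3 1 16 (T2 3 17 (T3 1 17 (T3 1 18 (T3 1 19 (Q 23) (Q 23) (Q 19)) (Q 19) (Q 19)) (Q 19) (Q 19)) (Q 23) (Q 23)) (Q 19) (Q 19)) (Q 19) (Q 15))) (T1 4 15 (T2 3 17 (T1 5 19 (T1 6 23 (T2 4 23 (T1 7 27 (T2 5 29 (T1 8 31 (Q 59) (Q 43) (Q 31)) (Q 47) (Q 29)) (Q 31) (Q 31)) (Q 29) (Q 29)) (Q 31) (Q 31)) (Q 31) (Q 19)) (Q 29) (Q 17)) (Q 19) (Q 15)) (T1 4 15 (T2 3 17 (T1 5 19 (T1 6 23 (T2 4 23 (T1 7 27 (T3 2 27 (T2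 5 29 (T1 8 31 (T1 9 35 (T2 6 35 (T1 10 39 f399 (Q 43) (Q 43)) (Q 71) (T1 10 39 (T3 3 41 (Q 71) (Q 71) (Q 41)) (Q 43) (Q 43))) (Q 43) (Q 43)) (Q 43) (Q 31)) (T1 8 31 (T1 9 35 (Q 99) (Q 43) (Q 35)) (Q 35) (Q 31)) (Q 29)) (T2 5 29 (T1 8 31 (T1 9 35 (T2 6 35 (T1 10 39 (Q 83) (Q 43) (Q 43)) (Q 41) (Q 41)) (Q 43) (Q 43)) (Q 43) (Q 31)) (Q 41) (Q 29)) (T2 5 29 (T1 8 31 (T1 9 35 (T2 6 35 (T1 10 39 (T3 3 40 f400 f400 (T2 7 41 (T1 11 43 (T1 12 47 (T2 8 47 (T1 13 51 (T2 9 53 (T3 4 53 (Q 67) (Q 67) (T1 14 55 (T1 15 59 (T2 10 59 (T1 16 63 (Q 95) (Q 67) (Q 67)) (Q 95) (Q 107)) (Q 67) (Q 67)) (Q 67) (Q 55))) (Q 107) (T3 4 53 (Q 71) (Q 71) (Q 53))) (Q 55) (Q 55)) (Q 147) f401) (Q 55) (Q 55)) (Q 55) (Q 43)) (T1 11 43 (T1 12 47 f401 (Q 55) (Q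 47)) (Q 47) (Q 43)) (Q 41))) (Q 43) (Q 43)) (Q 41) (Q 41)) (Q 43) (Q 43)) (Q 43) (Q 31)) (Q 41) (Q 29))) (Q 31) (Q 31)) (Q 29) (Q 29)) (Q 31) (T2 4 23 (Q 31) (Q 29) (Q 23))) (Q 42) (Q 19)) (T1 5 19 (Q 29) (Q 23) (Q 19)) (Q 17)) (Q 19) (Q 15))
def f403 : C := T3 1 15 (T3 1 16 (Q 23) (Q 17) (Q 17)) (Q 17) (Q 15)
def f404 : C := T1 4 15 (Q 16) (Q 16) (T3 1 15 (T3 1 16 (Q 26) (Q 26) (Q 16)) (Q 16) (Q 16))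
def f405 : C := T1 6 23 (T1 7 27 (T1 8 31 (Q 91) (Q 39) (Q 39)) (Q 39) (Q 27)) (Q 27) (Q 23)
def f406 : C := T1 8 31 (T1 9 35 (T1 10 39 (Q 71) (Q 47) (Q 47)) (Q 47) (Q 47)) (Q 47) (Q 31)
def f407 : C := T3 1 23 (T3 1 24 (Q 31) (Q 27) (Q 27)) (Q 27) (Q 23)
def f408 : C := T1 12 47 (T1 13 51 (Q 91) (Q 67) (Q 51)) (Q 51) (Q 47)
def f409 : C := T1 17 67 (T1 18 71 (T1 19 75 (T1 20 79 (T1 21 83 (Q 151) (Q 87) (Q 87)) (Q 87) (Q 87)) (Q 87) (Q 87)) (Q 87) (Q 71)) (Q 71) (Q 67)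
def f410 : C := T1 13 51 (T1 14 55 (T1 15 59 (T1 16 63 (T3 3 64 (Q 111) (Q 107) f409) (Q 67) (Q 67)) (Q 67) (Q 67)) (Q 67) (Q 67)) (Q 67) (Q 51)
def f411 : C := T1 13 51 (T1 14 55 (T1 15 59 (T1 16 63 f409 (Q 67) (Q 67)) (Q 67) (Q 67)) (Q 67) (Q 67)) (Q 67) (Q 51)
def f412 : C := T3 1 19 (T3 1 20 (T2 4 21 (Q 27) (Q 27) (T3 1 21 (T3 1 22 (T3 1 23 (T3 1 24 (T3 1 25 (T3 1 26 (Q 31) (Q 27) (Q 27)) (Q 27) (Q 27)) (Q 27) (Q 27)) (Q 27) (Q 23)) (Q 23) (Q 23)) (Q 23) (Q 21))) (Q 23) (Q 23)) (Q 23) (Q 19)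
def f413 : C := T1 5 19 (T3 1 19 (T3 1 20 (T2 4 21 (T3 1 21 (Q 23) (Q 23) (Q 43)) (T3 1 21 (Q 23) (Q 23) (Q 43)) (T3 1 21 (T3 1 22 (T1 6 23 (T3 1 23 (T3 1 24 (T3 1 25 (Q 27) (Q 27) (Q 51)) (Q 51) (T1 7 27 (Q 51) (Q 31) (Q 27))) (Q 47) (T1 7 27 f406 (Q 31) (Q 27))) (Q 27) f407) (T1 6 23 (T1 7 27 (Q 67) (Q 31) (Q 27)) (Q 27) (Q 23)) (T1 6 23 (T2 5 26 (Q 27) (Q 27) (T1 7 27 (T1 8 31 (T1 9 35 (T1 10 39 (T1 11 43 (T3 2 43 f408 f408 (T1 12 47 f410 (Q 51) (Q 47))) (Q 47) (Q 47)) (Q 47) (Q 47)) (Q 47) (Q 47)) (Q 47) (Q 47)) (Q 47) (Q 27))) (Q 27) (Q 23))) (T1 6 23 (T2 5 26 (Q 27) (Q 27) (T1 7 27 (T1 8 31 (T1 9 35 (T1 10 39 (T1 11 43 (T1 12 47 f411 (Q 51) (Q 47)) (Q 47) (Q 43)) (Q 43) (Q 43)) (Q 43) (Q 43)) (Q 43) (Q 43)) (Q 43) (Q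 27))) (Q 27) (Q 23)) (Q 21))) (T2 4 21 (Q 43) (Q 43) (Q 21)) (T2 4 21 (Q 43) (Q 43) (Q 21))) (T2 4 21 (Q 43) (Q 43) (Q 21)) (T2 4 21 (T1 6 23 (T1 7 27 (T1 8 31 (T1 9 35 (T2 7 37 (Q 59) (Q 59) (T3 2 37 (Q 59) (Q 59) (Q 37))) (Q 39) (Q 39)) (Q 39) (Q 39)) (Q 39) (Q 27)) (Q 27) (Q 23)) (T1 6 23 (T1 7 27 (Q 79) (Q 39) (Q 27)) (Q 27) (Q 23)) (Q 21))) (T3 1 19 (T3 1 20 (T2 4 21 (Q 23) (Q 23) (T3 1 21 (T3 1 22 f407 (Q 23) (Q 23)) (Q 23) (Q 21))) (Q 23) (Q 23)) (Q 23) (Q 23)) f412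
def f414 : C := T2 3 16 (T3 1 16 (T3 1 17 (T3 1 18 (T1 5 19 (T3 1 19 (T3 1 20 (Q 23) (Q 23) (T1 6 23 (T1 7 27 (N 208) (N 208) (Q 27)) (Q 27) (Q 23))) (Q 39) (T1 6 23 (T1 7 27 (T2 5 27 (N 54) (Q 39) (T1 8 31 (T1 9 35 (Q 43) (Q 39) (Q 39)) (Q 39) (Q 39))) (Q 39) (Q 39)) (Q 39) (Q 23))) (Q 23) (Q 23)) (T1 5 19 (Q 55) (Q 23) (Q 19)) (T1 5 19 (T1 6 23 (T1 7 27 (T2 5 27 (Q 55) (Q 55) (T1 8 31 (T1 9 35 (T3 2 35 (Q 55) (Q 55) (T1 10 39 (T1 11 43 (T2 8 43 (Q 71) (Q 71) (T1 12 47 (T1 13 51 (T3 3 52 (Q 71) (Q 71) (Q 87)) (Q 55) (Q 55)) (Q 55) (Q 55))) (Q 55) (Q 55)) (Q 55) (Q 39))) (Q 39) (Q 39)) (Q 39) (Q 39))) (Q 39) (Q 39)) (Q 39) (Q 23)) (Q 23) (Q 19))) (T1 5 19 (T1 6 23 (T1 7 27 (T2 5 27 (Q 55) (Q 55) (T1 8 31 (Q 87) (Q 35) (Q 35)))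 (Q 35) (Q 35)) (Q 35) (Q 23)) (Q 23) (Q 19)) (Q 17)) (Q 17) (Q 17)) (T3 1 16 (T3 1 17 (T3 1 18 (T1 5 19 (Q 43) (Q 23) (Q 23)) (Q 43) (T1 5 19 f405 (Q 23) (Q 19))) (T1 5 19 (T1 6 23 (T1 7 27 (T1 8 31 (Q 87) (Q 35) (Q 35)) (Q 35) (Q 27)) (Q 27) (Q 23)) (Q 23) (Q 19)) (Q 17)) (Q 17) (Q 17)) (T3 1 16 (T0 8 17 (N 240) (N 240) (T3 1 17 (T3 1 18 f413 (T1 5 19 (T2 4 21 f405 (Q 37) (Q 21)) (Q 23) (Q 19)) (T1 5 19 (T2 4 21 (T1 6 23 (T1 7 27 (T1 8 31 (T1 9 35 (T3 2 35 (T2 7 37 (Q 91) (Q 91) (Q 37)) (T2 7 37 (Q 91) (Q 53) (Q 37)) (T2 7 37 (T1 10 39 (T1 11 43 (T1 12 47 (T1 13 51 (T3 3 52 (Q 107) (Q 107) (T2 10 53 (Q 139) (Q 139) (Q 53))) (Q 55) (Q 55)) (Q 55) (Q 55)) (Q 55) (Q 43)) (Q 43) (Q 39)) (Q 53) (Q 37))) (Q 39) (Q 39)) (Q 39) (Q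 39)) (Q 39) (Q 27)) (Q 27) (Q 23)) (Q 37) (Q 21)) (T2 4 21 (Q 23) (Q 23) (Q 21)) (Q 19))) (T1 5 19 (T2 4 21 (T1 6 23 (T1 7 27 (T1 8 31 (T1 9 35 (T2 7 37 (T1 10 39 (T1 11 43 (T1 12 47 (T1 13 51 (T2 10 53 (Q 139) (Q 69) (Q 53)) (Q 55) (Q 55)) (Q 55) (Q 55)) (Q 55) (Q 43)) (Q 43) (Q 39)) (Q 53) (Q 37)) (Q 39) (Q 35)) (Q 35) (Q 35)) (Q 35) (Q 27)) (Q 27) (Q 23)) (Q 37) (Q 21)) (T2 4 21 (Q 23) (Q 23) (Q 21)) (Q 19)) (P 17))) (T0 8 17 (N 255) (N 495) (P 17)) (P 16))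
def f415 : C := T2 5 27 (T2 7 38 (Q 71) (Q 49) (Q 49)) (Q 49) (Q 27)
def f416 : C := T3 1 16 (T3 1 17 (T3 1 18 (Q 27) (Q 19) (Q 19)) (Q 19) (Q 17)) (Q 17) (Q 17)
def f417 : C := T0 23 49 (Q 86) (Q 86) (T3 3 49 (Q 66) (Q 66) (P 49))
def f418 : C := T3 1 28 (T3 1 29 (T3 1 30 (T3 1 31 (T3 1 32 (Q 71) (Q 71) (T1 11 41 (Q 161) (Q 71) (Q 41))) (T1 11 41 (Q 161) (Q 71) (Q 41)) (Q 31)) (Q 31) (Q 31)) (Q 31) (Q 31)) (Q 31) (Q 57)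
def f419 : C := T3 1 26 (T3 1 27 (Q 63) (Q 63) (Q 27)) (Q 27) (Q 27)
def f420 : C := T2 4 21 (T3 1 21 (T3 1 22 (T3 1 23 (T3 1 24 (T3 1 25 (T1 7 26 (N 546) (N 672) (T3 1 26 (T3 1 27 (Q 37) (Q 37) (Q 27)) (Q 27) (Q 27))) (Q 27) (Q 27)) (Q 27) (Q 27)) (Q 27) (Q 23)) (Q 23) (Q 23)) (Q 23) (Q 23)) (T3 1 21 (T3 1 22 (T3 1 23 (T3 1 24 (T3 1 25 (T1 7 26 (N 572) (N 698) (T3 1 26 (Q 37) (Q 27) (Q 27))) (Q 27) (Q 27)) (Q 27) (Q 27)) (Q 27) (Q 23)) (Q 23) (Q 23)) (Q 23) (Q 23)) (T3 1 21 (T3 1 22 (T3 1 23 (T3 1 24 (T3 1 25 (T1 7 26 (T2 5 26 (Q 27) (Q 27) (T3 1 26 (T3 1 27 f418 (Q 57) (Q 27)) (Q 27) (Q 27))) (T2 5 26 (Q 27) (Q 27) (T3 1 26 (T3 1 27 (T3 1 28 (Q 67) (Q 31) (Q 57)) (Q 57) (Q 27)) (Q 27) (Q 27))) (T2 5 26 f419 f419 (T3 1 26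 (T3 1 27 (T3 1 28 (T3 1 29 (T3 1 30 (T2 6 31 (N 330) (N 330) (T3 1 31 (T3 1 32 (Q 41) (Q 41) (Q 67)) (Q 67) (Q 31))) (T2 6 31 (N 418) (N 418) (Q 31)) (T2 6 31 (Q 37) (Q 37) (Q 31))) (T2 6 31 (Q 37) (Q 37) (Q 31)) (T2 6 31 (Q 63) (Q 63) (Q 31))) (T2 6 31 (Q 63) (Q 57) (Q 31)) (T2 6 31 (T1 10 37 (T3 2 55 (T2 11 57 (N 440) (N 440) (Q 57)) (T2 11 57 (N 466) (N 466) (Q 57)) (T2 11 57 (T1 17 63 (N 378) (N 1026) (Q 63)) (Q 83) (Q 57))) (Q 63) (Q 37)) (Q 57) (Q 31))) (T2 6 31 (T1 10 37 (T2 11 57 (T1 17 63 (N 1430) (N 1430) (Q 63)) (Q 83) (Q 57)) (Q 63) (Q 37)) (Q 57) (Q 31)) (Q 27)) (Q 27) (P 26)))) (Q 27) (Q 27)) (Q 27) (Q 27)) (Q 27) (Q 23)) (Q 23) (Q 23)) (Q 23) (Q 21))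
def f421 : C := T0 10 21 (Q 26) (Q 26) (T2 4 21 (Q 23) (Q 23) (P 21))
def f422 : C := T1 4 15 (T3 1 15 f414 (T2 3 16 (Q 17) (Q 17) (P 16)) (T2 3 16 (Q 17) (Q 17) (P 16))) (T3 1 15 (T2 3 16 (Q 23) (Q 23) (T3 1 16 (T0 8 17 (N 1360) (Q 49) (T3 1 17 (T3 1 18 f412 (Q 19) (Q 19)) (Q 19) (P 17))) (Q 49) (P 16))) (T2 3 16 (Q 17) (Q 17) (P 16)) (T2 3 16 (Q 17) (Q 17) (P 16))) (T3 1 15 (T2 3 16 (T3 1 16 (T3 1 17 (T3 1 18 (T3 1 19 (T3 1 20 (T3 1 21 (T3 1 22 (T3 1 23 (T3 1 24 (T3 1 25 (Q 27) (Q 27) (T2 5 27 (N 216) (N 264) (Q 27))) (Q 49) (T1 7 26 (Q 27) (Q 27) f415)) (Q 71) (Q 23)) (Q 23) (Q 23)) (Q 23) (Q 23)) (Q 23) (Q 23)) (Q 23) (Q 19)) (Q 19) (Q 19)) (Q 19) (Q 17)) (Q 17) (Q 17)) f416 (T3 1 16 (T0 8 17 (T3 1 17 (Q 26) (Q 26) (T1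 7 26 (T0 15 32 (Q 56) (Q 56) (T3 2 33 (Q 56) (Q 56) (T1 11 41 f417 (Q 56) (Q 41)))) (Q 41) (Q 26))) (T3 1 17 (Q 26) (Q 26) (T1 7 26 (T3 2 33 (Q 56) (Q 56) (Q 66)) (Q 41) (Q 26))) (T3 1 17 (T3 1 18 (T0 9 19 (Q 26) (Q 26) (T3 1 19 (T3 1 20 f420 (T2 4 21 (Q 23) (Q 23) (Q 21)) f421) f421 (P 19))) (T0 9 19 (Q 26) (Q 26) (P 19)) (T0 9 19 (T1 7 26 (T3 2 35 (Q 36) (Q 36) (T0 17 36 (Q 41) (Q 41) (Q 36))) (Q 41) (Q 26)) (T1 7 26 (Q 36) (Q 36) (Q 26)) (P 19))) (T0 9 19 (T1 7 26 (Q 87) (Q 41) (Q 26)) (Q 53) (P 19)) (P 17))) (T0 8 17 (T1 7 26 (T0 15 32 (Q 56) (Q 56) (T1 11 41 (T0 23 49 (Q 86) (Q 81) (P 49)) (Q 56) (Q 41))) (Q 41) (Q 26)) (P 49) (P 17)) (P 16))) (T2 3 16 (Q 17) (Q 17) (P 16)) (P 15))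
def f423 : C := T2 5 27 (Q 28) (Q 28) (T3 2 27 (Q 28) (Q 28) (P 27))
def f424 : C := T2 2 11 (T3 1 11 (T3 1 12 (T0 6 13 (N 132) (N 132) (T3 1 13 f402 (T1 4 15 (T2 3 17 (T1 5 19 (T1 6 23 (T2 4 23 (T1 7 27 (T2 5 29 (T1 8 31 (T1 9 35 (T2 6 35 (T1 10 39 (T2 7 41 (T1 11 43 (T1 12 47 (T2 8 47 (T1 13 51 (T2 9 53 (T1 14 55 (T1 15 59 (Q 119) (Q 67) (Q 67)) (Q 67) (Q 55)) (Q 107) (Q 53)) (Q 55) (Q 55)) (Q 53) (Q 53)) (Q 55) (Q 55)) (Q 55) (Q 43)) (Q 53) (Q 41)) (Q 43) (Q 43)) (Q 41) (Q 41)) (Q 43) (Q 43)) (Q 43) (Q 31)) (Q 41) (Q 29)) (Q 31) (Q 27)) (Q 29) (Q 29)) (Q 27) (Q 27)) (Q 27) (Q 19)) (Q 40) (Q 17)) (Q 19) (Q 15)) (P 13))) (T0 6 13 (N 143) (N 275) (P 13)) (P 12)) (P 12) (P 12)) (T3 1 11 (T3 1 12 (T0 6 13 (N 780) (N 912) (T3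 1 13 (T3 1 14 (T1 4 15 (T3 1 15 (T3 1 16 (T3 1 17 (T3 1 18 (Q 23) (Q 23) (Q 39)) (Q 35) (Q 17)) (Q 17) (Q 17)) (Q 17) (Q 17)) (Q 23) f403) (Q 17) (Q 28)) (Q 28) (P 13))) (T0 6 13 (N 923) (N 1055) (P 13)) (P 12)) (P 12) (P 12)) (T3 1 11 (T3 1 12 (T0 6 13 (T3 1 13 (Q 16) (Q 16) (T1 4 15 (Q 16) (Q 16) (T2 3 16 (T0 11 24 (Q 38) (Q 38) (T3 2 25 (T2 5 27 (N 275) (N 275) (P 27)) (Q 38) (T1 7 26 (Q 27) (Q 27) (T2 5 27 (T0 17 37 (Q 49) (Q 49) (T1 10 37 (Q 49) (Q 49) (T3 3 37 (Q 50) (Q 50) (P 37)))) (P 38) (P 27))))) (P 27) (P 16)))) (T3 1 13 (Q 16) (Q 16) (T1 4 15 (Q 16) (Q 16) (T2 3 16 (T3 2 25 (T2 5 27 (N 275) (N 275) (P 27)) (Q 38) (P 50)) (P 27) (P 16)))) (T3 1 13 (T3 1 14 (T0 7 15 f404 f404 f422) (T0 7 15 (Q 16) (Q 16) (T1 4 15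 (T2 3 16 (Q 17) (Q 17) (P 16)) (T2 3 16 (Q 17) (P 43) (P 16)) (P 15))) (T0 7 15 (T1 4 15 (Q 16) (Q 16) (T2 3 16 (T1 7 26 (Q 27) (Q 27) f423) (T1 7 26 (Q 27) (Q 27) (T3 2 27 (Q 28) (Q 28) (P 27))) (P 16))) (P 28) (P 28))) (T0 7 15 (T1 4 15 (Q 16) (Q 16) (T2 3 16 (T1 7 26 (Q 27) (Q 27) (T2 5 27 (Q 28) (Q 28) (P 27))) (P 27) (P 16))) (P 28) (P 28)) (P 13))) (T0 6 13 (T1 4 15 (Q 16) (Q 16) (T2 3 16 (T0 11 24 (Q 38) (Q 38) (T1 7 26 (Q 27) (Q 27) (T2 5 27 (T0 17 37 (Q 49) (P 61) (P 61)) (P 38) (P 27)))) (P 27) (P 16))) (T1 4 15 (Q 16) (P 50) (P 50)) (P 13)) (P 12)) (P 12) (P 11))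
def f425 : C := T3 1 14 (T0 7 15 (T3 1 15 (Q 26) (Q 16) (Q 16)) (T3 1 15 (Q 26) (Q 16) (Q 16)) (T3 1 15 (T2 3 16 (T3 1 16 (T3 1 17 (T3 1 18 (T3 1 19 (T3 1 20 (T3 1 21 (T3 1 22 (T3 1 23 (T3 1 24 (Q 103) (Q 49) f415) (Q 71) (Q 23)) (Q 23) (Q 23)) (Q 23) (Q 23)) (Q 23) (Q 23)) (Q 23) (Q 19)) (Q 19) (Q 19)) (Q 19) (Q 17)) (Q 17) (Q 17)) f416 (T3 1 16 (T0 8 17 (Q 26) (Q 26) (T3 1 17 (T3 1 18 (T0 9 19 (Q 26) (Q 26) (T3 1 19 (T3 1 20 (T2 4 21 (T3 1 21 (T3 1 22 (T3 1 23 (Q 59) (Q 27) (Q 23)) (Q 23) (Q 23)) (Q 23) (Q 23)) (T3 1 21 (Q 37) (Q 23) (Q 23)) (T3 1 21 (T3 1 22 (T3 1 23 (T3 1 24 (T3 1 25 (T2 5 26 (Q 37) (Q 37) (T3 1 26 (T3 1 27 (T3 1 28 (T3 1 29 (T3 1 30 (T2 6 31 (N 480) (N 480) (T3 1 31 (T3 1 32 (Q 41) (Q 37) (Q 37)) (Q 37)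 (Q 31))) (Q 37) (Q 37)) (Q 37) (Q 37)) (Q 37) (Q 37)) (Q 37) (Q 27)) (Q 27) (P 26))) (Q 27) (Q 27)) (Q 27) (Q 27)) (Q 27) (Q 23)) (Q 23) (Q 23)) (Q 23) (Q 21))) (T2 4 21 (Q 23) (Q 23) (Q 21)) f421) (T0 10 21 (Q 26) (P 59) (P 59)) (P 19))) (T0 9 19 (Q 26) (Q 26) (P 19)) (T0 9 19 (Q 26) (Q 26) (P 19))) (T0 9 19 (Q 26) (P 70) (P 19)) (P 17))) (T0 8 17 (Q 26) (P 49) (P 17)) (P 16))) (T2 3 16 (Q 17) (Q 17) (P 16)) (P 15))) (T0 7 15 (Q 16) (Q 16) (P 15)) (T0 7 15 (T2 3 16 f423 (P 59) (P 16)) (P 28) (P 15))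
def f426 : C := T1 8 29 (T0 17 37 (Q 51) (Q 51) (T3 3 37 (Q 50) (Q 50) (P 37))) (P 40) (P 29)
def f427 : C := T2 4 23 (T1 7 25 (Q 65) (Q 43) (Q 25)) (Q 29) (Q 23)
def f428 : C := T1 5 18 (T3 1 18 (T3 1 19 (T3 1 20 (T3 1 21 (Q 23) (Q 23) (T2 4 23 (T1 8 29 (N 460) (N 460) (T2 5 29 (Q 41) (Q 41) (Q 29))) (T1 8 29 (N 500) (N 500) (Q 29)) (Q 23))) (Q 41) (T2 4 23 (T1 8 29 (Q 41) (Q 41) (T2 5 29 (T2 6 35 (T3 2 39 (Q 47) (Q 47) (T2 7 41 (T1 13 47 (Q 59) (Q 59) (T2 8 47 (T2 9 53 (T2 10 59 (N 342) (N 342) (Q 59)) (Q 59) (Q 59)) (Q 59) (Q 47))) (Q 59) (Q 41))) (Q 41) (Q 41)) (Q 41) (Q 29))) (Q 41) (Q 23))) (T2 4 23 (Q 77) (Q 41) (Q 23)) (Q 19)) (Q 19) (Q 19)) (T3 1 18 (T3 1 19 (T3 1 20 (Q 47) (Q 41) (T2 4 23 (Q 83) (Q 29) (Q 23))) (T2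 4 23 (Q 77) (Q 29) (Q 23)) (Q 19)) (Q 19) (Q 19)) (T3 1 18 (T3 1 19 (T3 1 20 (T3 1 21 (T3 1 22 (T2 4 23 (T3 1 23 (T3 1 24 (Q 53) (Q 25) (Q 25)) (Q 25) (T1 7 25 (N 132) (N 132) (Q 25))) (Q 29) (Q 29)) (T2 4 23 (T1 7 25 (N 350) (N 414) (Q 25)) (Q 29) (Q 23)) (T2 4 23 (T1 7 25 (Q 47) (Q 47) (Q 25)) (Q 29) (Q 23))) (T2 4 23 (T1 7 25 (Q 47) (Q 43) (Q 25)) (Q 29) (Q 23)) f427) f427 (T2 4 23 (T1 7 25 (T2 5 29 (T2 6 35 (T3 2 39 (T2 7 41 (T1 12 43 (Q 83) (Q 61) (Q 43)) (Q 47) (Q 41)) (Q 137) (T2 7 41 (T1 12 43 (T2 8 47 (T2 9 53 (T3 3 58 (Q 101) (Q 101) (T2 10 59 (T1 17 61 (Q 137) (Q 79) (Q 61)) (Q 65) (Q 59))) (Q 59) (Q 59)) (Q 59) (Q 47)) (Q 61) (Q 43)) (Q 47) (Q 41))) (Q 41) (Q 41)) (Q 41) (Q 29)) (Q 43) (Q 25)) (Q 29) (Q 23))) (T2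 4 23 (T1 7 25 (T2 5 29 (T2 6 35 (T2 7 41 (T1 12 43 (T2 8 47 (Q 173) (Q 59) (Q 47)) (Q 61) (Q 43)) (Q 47) (Q 41)) (Q 41) (Q 41)) (Q 41) (Q 29)) (Q 43) (Q 25)) (Q 29) (Q 23)) (Q 19)) (Q 19) (P 18))
def f429 : C := T3 1 18 (T3 1 19 (Q 29) (Q 23) (Q 19)) (Q 19) (P 18)
def f430 : C := T3 1 18 (T3 1 19 (T3 1 20 (T3 1 21 (T3 1 22 (T3 1 23 (T3 1 24 (Q 51) (Q 51) (Q 73)) (Q 73) (Q 23)) (Q 23) (Q 23)) (Q 23) (Q 23)) (Q 23) (Q 23)) (Q 23) (Q 19)) (Q 19) (Q 19)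
def f431 : C := T3 1 13 (T3 1 14 (T0 7 15 (Q 18) (Q 18) (T3 1 15 (T3 1 16 (T0 8 17 (Q 18) (Q 18) (T2 3 17 (T3 1 17 f428 (Q 19) (Q 19)) (T3 1 17 (T1 5 18 (Q 23) (Q 23) f429) (Q 19) (Q 19)) (T3 1 17 (T1 5 18 f430 (T3 1 18 (Q 29) (Q 19) (Q 19)) (T3 1 18 (T3 1 19 (T3 1 20 (T3 1 21 (T3 1 22 (T3 1 23 (T3 1 24 (T1 7 25 (Q 29) (Q 29) (T3 1 25 (T3 1 26 (T3 1 27 (T2 5 28 (Q 29) (Q 29) (T3 1 28 (T3 1 29 (T3 1 30 (Q 39) (Q 39) (T2 7 39 (N 406) (N 406) (Q 39))) (T2 7 39 (N 434) (N 434) (Q 39)) (Q 29)) (Q 29) (Q 29))) (Q 29) (Q 29)) (Q 29) (Q 29)) (Q 29) (Q 25))) (Q 29) (Q 29)) (Q 29) (Q 23)) (Q 23) (Q 23)) (Q 23) (Q 23)) (Q 23) (Q 23)) (Q 23) (Q 19)) (Q 19) (P 18))) (T1 5 18 (Q 19) (Q 19) (P 18)) (P 17)))) (T0 8 17 (Q 18) (Q 18) (T2 3 17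 (Q 19) (Q 19) (P 17))) (T0 8 17 (Q 18) (Q 18) (T2 3 17 (T1 5 18 (Q 19) (Q 19) (P 18)) (T1 5 18 (Q 19) (Q 19) (P 18)) (P 17)))) (T0 8 17 (Q 18) (Q 18) (T2 3 17 (T1 5 18 (Q 19) (Q 19) (P 18)) (T1 5 18 (Q 19) (P 47) (P 18)) (P 17))) (P 15))) (T0 7 15 (Q 18) (Q 18) (P 15)) (T0 7 15 (T2 3 17 (Q 18) (Q 18) (T1 5 18 (T3 2 27 (Q 28) (Q 28) (T0 13 28 (Q 29) (P 41) (P 41))) (P 29) (P 18))) (T2 3 17 (Q 18) (Q 18) (T1 5 18 (T3 2 27 (Q 28) (P 41) (P 41)) (P 29) (P 18))) (P 15))) (T0 7 15 (T2 3 17 (Q 18) (Q 18) (T1 5 18 (T0 13 28 (Q 29) (P 41) (P 41)) (P 29) (P 18))) (T2 3 17 (Q 18) (P 41) (P 41)) (P 15)) (P 13)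
def f432 : C := T2 2 11 (T3 1 11 (T3 1 12 (T0 6 13 (T3 1 13 (Q 18) (Q 18) (T2 3 17 (Q 18) (Q 18) (T1 5 18 (T0 11 24 (Q 40) (Q 40) (T3 2 25 (Q 29) (Q 29) (T2 5 28 (Q 29) (Q 29) f426))) (P 29) (P 18)))) (T3 1 13 (Q 18) (Q 18) (T2 3 17 (Q 18) (Q 18) (T1 5 18 (T3 2 25 (Q 29) (P 63) (P 63)) (P 29) (P 18)))) f431) (T0 6 13 (T2 3 17 (Q 18) (Q 18) (T1 5 18 (T0 11 24 (Q 40) (Q 40) (T2 5 28 (Q 29) (Q 29) (T1 8 29 (T0 17 37 (Q 51) (P 85) (P 37)) (P 40) (P 29)))) (P 29) (P 18))) (P 37) (P 13)) (P 12)) (P 12) (P 11)) (T3 1 12 (T0 6 13 (T3 1 13 (Q 18) (Q 18) (T1 5 18 (T0 11 24 (Q 40) (Q 40) (T3 2 25 (Q 29) (Q 29) f426)) (P 29) (P 18))) (T3 1 13 (Q 18) (Q 18) (T1 5 18 (T3 2 25 (Q 29) (P 63) (P 50)) (P 29) (P 18))) (T3 1 13 (T3 1 14 (T0 7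 15 (Q 18) (Q 18) (T3 1 15 (T3 1 16 (T0 8 17 (Q 18) (Q 18) (T3 1 17 (T1 5 18 f430 (T3 1 18 (Q 29) (Q 19) (Q 19)) (T3 1 18 (T3 1 19 (T3 1 20 (T3 1 21 (T3 1 22 (T3 1 23 (T3 1 24 (T1 7 25 (Q 29) (Q 29) (T3 1 25 (T3 1 26 (T3 1 27 (T3 1 28 (T3 1 29 (Q 39) (Q 39) (Q 29)) (Q 29) (Q 29)) (Q 29) (Q 29)) (Q 29) (Q 29)) (Q 29) (Q 25))) (Q 29) (Q 29)) (Q 29) (Q 23)) (Q 23) (Q 23)) (Q 23) (Q 23)) (Q 23) (Q 23)) (Q 23) (Q 19)) (Q 19) (P 18))) (T1 5 18 (Q 19) (Q 19) (P 18)) (P 17))) (T0 8 17 (Q 18) (Q 18) (P 17)) (T0 8 17 (Q 18) (Q 18) (P 17))) (T0 8 17 (Q 18) (Q 18) (P 17)) (P 15))) (T0 7 15 (Q 18) (Q 18) (P 15)) (T0 7 15 (T1 5 18 (T3 2 27 (Q 28) (Q 28) (T0 13 28 (Q 29) (P 41) (P 28))) (P 29) (P 18)) (P 28) (P 15))) (T0 7 15 (T1 5 18 (Q 67)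 (P 29) (P 18)) (P 28) (P 15)) (P 13))) (T0 6 13 (T1 5 18 (T0 11 24 (Q 40) (Q 40) (T1 8 29 (T0 17 37 (Q 51) (P 61) (P 37)) (P 40) (P 29))) (P 29) (P 18)) (P 37) (P 13)) (P 12)) (P 11)
def f433 : C := T0 5 11 (T1 3 11 (T2 2 11 (Q 12) (Q 12) f393) (T2 2 11 (Q 12) (Q 12) f393) (T2 2 11 f396 f396 (T3 1 11 (T3 1 12 (T3 1 13 f397 (T2 3 16 (Q 18) (P 27) (P 16)) (T2 3 16 (T1 5 18 (T3 2 25 (N 1375) (N 1386) (T2 5 27 (Q 29) (Q 29) (P 27))) (Q 29) (P 18)) (P 27) (P 16))) (T2 3 16 (T1 5 18 (Q 49) (Q 29) (P 18)) (P 27) (P 16)) (P 12)) (P 12) (P 11)))) (T1 3 11 (T2 2 11 (Q 12) (Q 12) f393) (T2 2 11 (Q 12) (Q 12) (T3 1 12 (Q 16) (Q 16) (P 12))) (T2 2 11 f396 (T3 1 12 (Q 18) (Q 18) (P 12)) (T3 1 12 (T3 1 13 f397 (T2 3 16 (Q 18) (P 27) (P 16))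 (T2 3 16 (T1 5 18 (T3 2 25 (Q 27) (Q 27) (T2 5 27 (Q 29) (P 38) (P 27))) (P 29) (P 18)) (P 27) (P 16))) (T2 3 16 (T1 5 18 (Q 49) (P 29) (P 18)) (P 27) (P 16)) (P 12)))) (T1 3 11 f424 (T2 2 11 (T3 1 11 (T3 1 12 (T0 6 13 (N 780) (N 912) (T3 1 13 (T3 1 14 (T3 1 15 (T3 1 16 (T2 3 17 (T3 1 17 (T3 1 18 (Q 41) (Q 19) (Q 19)) (Q 19) (Q 19)) (Q 23) (Q 23)) (Q 19) (Q 19)) (Q 19) (Q 15)) (Q 15) (Q 15)) (Q 15) (P 13))) (Q 37) (P 12)) (P 12) (P 12)) (T3 1 12 (T0 6 13 (N 780) (N 912) (T3 1 13 (T3 1 14 f403 (Q 15) (Q 15)) (Q 15) (P 13))) (Q 37) (P 12)) (T3 1 12 (T0 6 13 (T3 1 13 (Q 16) (Q 16) (T2 3 16 (T0 11 24 (Q 38) (Q 38) (T3 2 25 (Q 92) (Q 38) (T2 5 27 (T0 17 37 (Q 49) (Q 49) (T3 3 37 (Q 50) (Q 50) (P 37))) (P 38) (P 27)))) (P 27) (P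 16))) (T3 1 13 (Q 16) (Q 16) (T2 3 16 (T3 2 25 (Q 92) (P 63) (P 50)) (P 27) (P 16))) (T3 1 13 f425 (T0 7 15 (T2 3 16 (T2 5 27 (Q 28) (P 92) (P 27)) (P 27) (P 16)) (P 28) (P 15)) (P 13))) (T0 6 13 (T2 3 16 (T0 11 24 (Q 38) (Q 38) (T2 5 27 (T0 17 37 (Q 49) (P 61) (P 37)) (P 38) (P 27))) (P 27) (P 16)) (P 37) (P 13)) (P 12))) f432)
def f434 : C := T0 4 9 (T3 1 9 (T3 1 10 (T2 2 11 (Q 12) (Q 12) (T3 1 11 (T3 1 12 (T3 1 13 f394 (Q 53) (T0 7 16 (Q 26) (P 39) (P 39))) (T0 7 16 (Q 26) (P 39) (P 39)) (P 12)) (P 12) (P 11))) (P 12) (P 12)) (P 12) (P 12)) (T3 1 10 (T2 2 11 (Q 12) (Q 12) (T3 1 12 (T3 1 13 (Q 16) (Q 16) (P 39)) (P 25) (P 12))) (P 12) (P 12)) (T3 1 10 (T0 5 11 (Q 18) (Q 18) (T2 2 11 (T3 1 11 (T3 1 12 (T0 6 13 (Q 18) (Q 18)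 (T3 1 13 (T3 1 14 (T0 7 15 (Q 18) (Q 18) (T3 1 15 (T3 1 16 (T0 8 17 (Q 18) (Q 18) (T2 3 17 (T3 1 17 (T3 1 18 (T3 1 19 (T3 1 20 (T3 1 21 (T3 1 22 (T2 4 23 (T3 1 23 (Q 53) (Q 25) (Q 25)) (Q 29) (Q 29)) (Q 25) (Q 25)) (Q 25) (Q 25)) (Q 25) (Q 25)) (Q 25) (Q 19)) (Q 19) (P 18)) (P 18) (P 18)) (T3 1 17 f429 (P 18) (P 18)) (T3 1 17 (T3 1 18 (T3 1 19 (T3 1 20 (T3 1 21 (T3 1 22 (T3 1 23 (T3 1 24 (T3 1 25 (T3 1 26 (T3 1 27 (T2 5 28 (Q 29) (Q 29) (T3 1 28 (T3 1 29 (Q 67) (Q 67) (Q 29)) (Q 29) (Q 29))) (Q 29) (Q 29)) (Q 29) (Q 29)) (Q 29) (Q 25)) (Q 25) (Q 25)) (Q 25) (Q 23)) (Q 23) (Q 23)) (Q 23) (Q 23)) (Q 23) (Q 23)) (Q 23) (Q 19)) (Q 19) (P 18)) (P 18) (P 17)))) (P 18) (P 18)) (P 18) (P 15))) (P 18) (P 18)) (P 18) (P 13))) (P 18)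 (P 12)) (P 12) (P 11)) (T0 6 13 (Q 18) (Q 18) (T0 7 15 (Q 18) (Q 18) (T3 1 16 (T0 8 17 (Q 18) (Q 18) (T3 1 17 (T3 1 18 (T3 1 19 (T3 1 20 (T3 1 21 (T3 1 22 (T3 1 23 (Q 39) (Q 25) (Q 23)) (Q 23) (Q 23)) (Q 23) (Q 23)) (Q 23) (Q 23)) (P 39) (P 39)) (P 39) (P 18)) (P 18) (P 17))) (P 18) (P 18)))) (P 11))) (P 12) (P 12))
def f435 : C := T0 3 7 (T1 2 7 (T3 1 7 f372 (P 8) (P 8)) (T3 1 7 (T3 1 8 (T3 1 9 (T3 1 10 (T3 1 11 (Q 12) (Q 12) (Q 11)) (Q 11) (T2 2 11 (Q 12) (Q 12) (P 11))) (T2 2 11 (Q 12) (Q 12) (P 11)) (P 18)) (P 18) (P 8)) (P 8) (P 8)) (T3 1 7 (T3 1 8 (T3 1 9 f390 (T1 3 10 (T2 2 11 (T0 5 12 (T0 7 17 (T2 3 17 (N 170) (N 980) (T0 9 22 (Q 28) (Q 28) (T1 8 27 (Q 28) (Q 28) (T2 5 28 (Q 37) (Q 37) (P 28))))) (T2 3 17 (N 980) (N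 980) (T1 8 27 (Q 28) (Q 28) (T2 5 28 (Q 37) (P 73) (P 28)))) (T1 5 17 (T1 7 24 (Q 28) (Q 28) (T2 5 28 (Q 29) (P 73) (P 28))) (T2 5 28 (Q 29) (P 73) (P 28)) (T2 3 17 (T2 4 23 (Q 37) (Q 29) f391) f391 (P 17)))) (T1 5 17 (Q 29) (Q 29) (Q 41)) (P 12)) (P 28) (P 11)) (T2 2 11 (Q 37) (P 28) (P 11)) (P 10)) (P 18)) (P 18) (P 8)) (P 8) (P 7))) (T1 2 7 (Q 12) (Q 12) (T3 1 9 f392 (P 12) (P 12))) (T1 2 7 (T3 1 7 (T3 1 8 (T0 4 9 (T3 1 9 (T3 1 10 (T1 3 11 f393 (T3 1 11 (Q 37) (P 12) (P 12)) (T2 2 11 (Q 12) (Q 12) (T3 1 11 (T3 1 12 (T3 1 13 f394 (T0 7 16 (Q 46) (Q 46) (Q 16)) f395) f395 (P 12)) (P 12) (P 11)))) (P 12) (P 12)) (P 12) (P 12)) (T3 1 9 (T3 1 10 (T1 3 11 (T3 1 11 (Q 16) (P 12) (P 12)) (T3 1 11 (Q 16) (P 12) (P 12)) (T2 2 11 (Q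 12) (Q 12) (T3 1 11 (T3 1 12 (T3 1 13 (Q 16) (Q 16) (T2 3 16 (Q 25) (Q 25) (P 16))) (T2 3 16 (Q 25) (Q 25) (P 16)) (P 12)) (P 12) (P 11)))) (P 12) (P 12)) (P 12) (P 12)) (T3 1 9 (T3 1 10 f433 (P 12) (P 12)) (P 12) (P 9))) (P 12) (P 8)) (P 8) (P 7)) f434 (P 7))
def f436 : C := T1 5 17 (T1 7 24 (Q 26) (Q 26) (Q 31)) (P 41) (P 17)
def f437 : C := T1 2 7 (T3 1 7 (T3 1 8 (T3 1 9 (T3 1 10 (T1 3 11 (Q 12) (Q 12) (T3 1 11 (Q 12) (Q 12) (P 11))) (T1 3 11 (Q 12) (Q 12) (P 11)) (T1 3 11 (T0 5 12 (Q 37) (Q 37) (P 12)) (Q 41) (P 11))) (T1 3 11 (T0 5 12 (Q 37) (Q 37) (P 12)) (Q 37) (P 11)) (T1 3 11 (T0 5 12 (T1 4 15 f370 (Q 27) (T0 7 17 (T3 2 17 (Q 27) (Q 26) (T0 9 22 (T3 3 25 (Q 26) (Q 26) (T1 7 26 (Q 42) (Q 42) (P 26))) (P 27) (P 27)))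 (P 27) (P 27))) (T1 4 15 (T3 2 17 (Q 27) (Q 27) (P 17)) (P 27) (P 27)) (P 12)) (T0 7 17 (T3 2 17 (Q 27) (P 26) (P 26)) (P 27) (P 27)) (P 11))) (T1 3 11 (T0 5 12 (T1 4 15 (T0 7 17 (Q 27) (Q 27) (P 17)) (Q 27) (T1 7 26 (Q 42) (P 41) (P 26))) (P 17) (P 12)) (P 26) (P 11)) (P 8)) (P 8) (P 8)) (T3 1 9 (T3 1 10 (T3 1 11 (Q 12) (Q 12) (P 11)) (P 11) (P 11)) (P 11) (P 11)) (T3 1 9 (T1 3 10 (T3 1 10 (T3 1 11 (T0 5 12 (T3 1 12 (Q 17) (Q 17) f373) (T3 1 12 (Q 17) (Q 17) (T1 5 17 (Q 46) (P 41) (P 17))) (T3 1 12 (T3 1 13 (Q 31) (Q 31) f436) f436 (P 12))) (T0 5 12 (T0 7 17 (Q 27) (P 56) (P 56)) (P 46) (P 12)) (P 11)) (P 11) (P 11)) (T3 1 11 (T0 5 12 (Q 27) (Q 17) (Q 17)) (Q 27) (P 11)) (T3 1 11 (T0 5 12 (T3 1 12 (T1 4 13 (Q 27) (Q 27) (T3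 1 13 (T3 1 14 (T3 1 15 f383 (Q 16) (T1 5 16 (Q 17) (Q 17) (P 16))) (T1 5 16 (Q 17) (Q 17) (P 16)) (T1 5 16 (T0 7 17 (Q 27) (P 56) (P 17)) (Q 42) (P 16))) (T1 5 16 (Q 27) (Q 27) (P 16)) (P 13))) (T1 4 13 (Q 27) (Q 27) (P 13)) (T1 4 13 (T0 7 17 f385 (P 27) (P 17)) (P 36) (P 13))) (T1 4 13 (Q 17) (Q 17) (T3 1 14 (T3 1 15 (T3 1 16 (Q 22) (P 17) (P 17)) (P 17) (P 17)) (P 17) (P 17))) (T1 4 13 (Q 17) (Q 17) (T3 1 14 (T3 1 15 (T1 5 16 (Q 36) (Q 36) (T3 1 16 (T3 1 17 (T3 1 18 (T0 8 19 (T3 1 19 (T3 1 20 (Q 46) (Q 22) (Q 22)) (Q 22) (Q 22)) (Q 31) (T1 6 19 (Q 26) (Q 26) (T3 1 19 (T3 1 20 (T3 1 21 (Q 31) (Q 22) (Q 22)) (Q 22) (Q 41)) (Q 41) (P 19)))) f387 (P 36)) (P 36) (P 17)) (P 17) (P 16))) (P 17) (P 17)) (P 17) (P 17)))) (T1 4 13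 (T1 7 23 (Q 57) (P 56) (P 23)) (P 23) (P 13)) (P 11))) (P 11) (P 11))
def f438 : C := T3 1 14 (T3 1 15 (Q 18) (P 16) (P 16)) (P 16) (P 16)
def f439 : C := T1 6 23 (T3 1 23 (T3 1 24 (T3 1 25 (Q 27) (Q 27) (Q 51)) (Q 51) (Q 51)) (Q 47) (Q 71)) (Q 27) (Q 31)
def f440 : C := T1 12 47 (T1 13 51 (Q 151) (Q 67) (Q 51)) (Q 51) (Q 47)
def f441 : C := T3 1 19 (T3 1 20 (T3 1 21 (Q 31) (Q 23) (Q 21)) (Q 21) (Q 21)) (Q 21) (Q 19)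
def f442 : C := T1 4 15 (T3 1 15 (T3 1 16 (T0 8 17 (Q 49) (Q 49) (T3 1 17 (T3 1 18 (T1 5 19 (T3 1 19 (T3 1 20 (T3 1 21 (T3 1 22 f439 (T1 6 23 (Q 67) (Q 27) (Q 23)) (T1 6 23 (T1 7 27 (T1 8 31 (T1 9 35 (T1 10 39 (T1 11 43 (T3 2 43 (Q 91) (Q 91) f440) (Q 47) (Q 47)) (Q 47) (Q 47)) (Q 47) (Q 47)) (Q 47) (Q 31)) (Q 31) (Q 27)) (Q 27) (Q 23))) (T1 6 23 (T1 7 27 (T1 8 31 (T1 9 35 (T1 10 39 (T1 11 43 f440 (Q 47) (Q 43)) (Q 43) (Q 43)) (Q 43) (Q 43)) (Q 43) (Q 31)) (Q 31) (Q 27)) (Q 27) (Q 23)) (Q 21)) (Q 21) (Q 21)) (Q 21) (Q 21)) (T3 1 19 (T3 1 20 (Q 31) (Q 21) (Q 21)) (Q 21) (Q 21)) f441) (Q 21) (Q 36)) (Q 36) (P 17))) (T0 8 17 (Q 49) (Q 49) (P 17)) (P 16)) (P 16) (P 16)) (T3 1 16 (T0 8 17 (Q 49) (Q 49) (T3 1 17 (T3 1 18 f441 (Q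 19) (Q 19)) (Q 19) (P 17))) (Q 49) (P 16)) (T3 1 16 (T0 8 17 (T3 1 17 (Q 26) (Q 26) (T1 7 26 (T0 15 32 (Q 56) (Q 56) (T3 2 33 (Q 56) (Q 56) (T1 11 41 f417 (P 56) (P 41)))) (P 41) (P 26))) (T3 1 17 (Q 26) (Q 26) (T1 7 26 (T3 2 33 (Q 56) (P 83) (P 66)) (P 41) (P 26))) (T3 1 17 (T3 1 18 (T0 9 19 (Q 26) (Q 26) (T3 1 19 (T3 1 20 (T3 1 21 (T3 1 22 (T3 1 23 (T3 1 24 (T3 1 25 (T1 7 26 (T3 1 26 (T3 1 27 (T3 1 28 (T3 1 29 (T3 1 30 (T3 1 31 (T3 1 32 (Q 71) (Q 71) (Q 161)) (Q 161) (Q 31)) (Q 31) (Q 31)) (Q 31) (Q 31)) (Q 31) (Q 31)) (Q 31) (Q 27)) (Q 27) (Q 27)) (Q 41) (T3 1 26 (Q 41) (Q 27) (P 26))) (Q 27) (Q 27)) (Q 27) (Q 27)) (Q 27) (Q 23)) (Q 23) (Q 23)) (Q 23) (Q 21)) (Q 21) (T0 10 21 (Q 26) (P 61) (P 21))) (T0 10 21 (Q 26) (P 61)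 (P 21)) (P 19))) (T0 9 19 (Q 26) (P 91) (P 19)) (T0 9 19 (T1 7 26 (T3 2 35 (Q 36) (Q 36) (T0 17 36 (Q 41) (P 53) (P 36))) (P 41) (P 26)) (P 36) (P 19))) (T0 9 19 (T1 7 26 (Q 87) (P 41) (P 26)) (P 36) (P 19)) (P 17))) (T0 8 17 (T1 7 26 (T0 15 32 (Q 56) (Q 56) (T1 11 41 (T0 23 49 (Q 86) (P 81) (P 49)) (P 56) (P 41))) (P 41) (P 26)) (P 49) (P 17)) (P 16))
def f443 : C := T0 3 7 f437 (T1 2 7 (Q 12) (Q 12) (T1 3 10 (T3 1 12 (T3 1 13 (Q 31) (Q 31) (P 26)) (P 26) (P 12)) (Q 17) (T1 4 13 (Q 17) (Q 17) (T1 5 16 (Q 26) (Q 26) (T3 1 17 (T3 1 18 (T1 6 19 (Q 26) (Q 26) (T3 1 19 (T3 1 20 (T3 1 21 (Q 31) (P 26) (P 26)) (P 26) (P 26)) (P 26) (P 19))) (P 26) (P 26)) (P 26) (P 17)))))) (T1 2 7 (T0 4 9 (T3 1 9 (T3 1 10 (T1 3 11 f393 (Q 26) (T3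 1 11 (T3 1 12 (T3 1 13 (T3 1 14 (Q 16) (Q 16) (T0 7 16 (Q 46) (Q 46) (P 16))) (T0 7 16 (Q 46) (Q 46) (P 16)) (P 26)) (P 26) (P 12)) (P 12) (P 11))) (P 12) (P 12)) (P 12) (P 12)) (Q 16) (T3 1 10 (T0 5 11 (T1 3 11 (Q 16) (Q 16) (T3 1 13 f438 (P 16) (P 16))) (T1 3 11 (Q 16) (Q 16) f438) (T1 3 11 (T3 1 11 (T3 1 12 (T0 6 13 (Q 16) (Q 16) (T3 1 13 (T3 1 14 (T0 7 15 (T1 4 15 (Q 16) (Q 16) (T3 1 15 (T3 1 16 (Q 26) (Q 26) (P 16)) (P 16) (P 16))) (T1 4 15 (Q 16) (Q 16) (T3 1 16 (Q 26) (Q 26) (P 16))) f442) (P 16) (P 16)) (P 16) (P 13))) (P 16) (P 12)) (P 12) (P 11)) (T0 6 13 (Q 16) (Q 16) (T0 7 15 (Q 26) (Q 26) (T0 8 17 (Q 26) (Q 26) (T3 1 18 (T0 9 19 (Q 26) (Q 26) (T3 1 19 (T3 1 20 (T3 1 21 (T3 1 22 (T3 1 23 (T3 1 24 (T3 1 25 (T3 1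 26 (Q 41) (Q 27) (P 26)) (P 26) (P 26)) (P 26) (P 26)) (P 26) (P 26)) (P 26) (P 26)) (P 26) (P 26)) (P 26) (P 26)) (P 26) (P 19))) (P 26) (P 26))))) (P 11))) (P 12) (P 12))) (T0 4 9 (T3 1 12 (T3 1 13 (Q 46) (Q 46) (P 26)) (P 26) (P 12)) (Q 16) (T0 5 11 (Q 18) (Q 18) (P 11))) (P 7))
def f444 : C := T0 7 18 (Q 29) (Q 29) (T1 5 18 (Q 33) (P 29) (P 18))
def f445 : C := T3 1 10 (T1 3 11 (T3 1 11 (T3 1 12 (T3 1 13 (N 715) (N 935) (Q 13)) (Q 13) (Q 13)) (Q 13) (T0 5 13 (T1 4 15 (Q 21) (Q 21) (T0 8 21 (T1 7 26 (Q 41) (Q 41) (T0 11 29 (Q 93) (P 45) (P 45))) (P 45) (P 45))) (Q 34) (P 13))) (T3 1 11 (T3 1 12 (Q 41) (Q 13) (Q 13)) (Q 13) (T0 5 13 (T0 8 21 (Q 85) (P 37) (P 37)) (P 34) (P 13))) (T3 1 11 (T3 1 12 (T0 5 13 (Q 29) (Q 29) (T3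 1 13 (T3 1 14 (Q 18) (Q 18) f444) f444 (P 13))) (Q 37) (T0 5 13 (T1 5 18 (Q 37) (Q 29) (T0 8 21 (T3 2 23 (Q 25) (Q 25) (T1 7 25 (Q 37) (Q 37) (P 25))) (P 29) (P 29))) (P 37) (P 13))) (T0 5 13 (T1 5 18 (Q 37) (Q 29) (T0 8 21 (T1 7 25 (Q 37) (Q 37) (P 25)) (P 29) (P 29))) (P 34) (P 13)) (P 11))) (T1 3 11 (T0 5 13 (T1 4 15 (Q 21) (Q 21) (T0 8 21 (Q 41) (P 45) (P 21))) (P 21) (P 13)) (P 41) (P 11)) (T1 3 11 (T0 5 13 (T1 4 15 (T1 5 19 (T3 2 19 (T0 8 21 (N 399) (N 475) (P 21)) (Q 29) (T0 8 21 (T1 6 23 (T1 7 27 (Q 37) (Q 37) (Q 85)) (Q 77) (T3 3 28 (Q 69) (Q 66) (T0 11 29 (T0 14 37 (T3 4 37 (N 703) (N 1387) (T1 11 42 (Q 46) (P 65) (P 65))) (P 69) (P 69)) (P 66) (P 29)))) (P 29) (P 21))) (T3 2 19 (Q 50) (Q 29) (T0 8 21 (T3 3 28 (Q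 61) (Q 61) (T0 11 29 (T0 14 37 (Q 65) (P 61) (P 61)) (P 61) (P 29))) (P 29) (P 21))) (T3 2 19 (Q 61) (Q 61) (P 19))) (T3 2 19 (Q 53) (P 49) (P 19)) (P 30)) (P 21) (P 13)) (P 30) (P 11))
def f446 : C := T0 5 14 (T0 6 17 (Q 23) (P 37) (P 17)) (P 17) (P 14)
def f447 : C := T3 1 11 (T3 1 12 (T1 4 13 (Q 14) (Q 14) (T3 1 13 (T0 5 14 (T3 1 14 (T3 1 15 (T3 1 16 (Q 17) (Q 17) (T0 6 17 (Q 49) (Q 37) (P 17))) (T0 6 17 (Q 46) (Q 37) (P 17)) (T0 6 17 (T0 7 20 (Q 61) (Q 46) (T3 2 29 (Q 46) (Q 46) (Q 29))) (Q 37) (P 17))) (T0 6 17 (T0 7 20 (Q 61) (Q 29) (Q 29)) (Q 29) (P 17)) (T0 6 17 (T0 7 20 (T0 8 23 (T0 9 26 (T3 2 27 (T0 10 29 (Q 85) (Q 61) (Q 29)) (Q 41) (T0 10 29 (T0 11 32 (T0 12 35 (T0 13 38 (T3 3 40 (Q 97) (Q 94) (T0 14 41 (Q 121)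 (Q 85) (Q 41))) (Q 41) (Q 41)) (Q 41) (Q 41)) (Q 41) (Q 41)) (Q 41) (Q 29))) (Q 29) (Q 29)) (Q 29) (Q 29)) (Q 29) (Q 29)) (Q 29) (P 17))) (Q 17) (T3 1 14 (T3 1 15 (T3 1 16 (T3 1 17 (T3 1 18 (Q 25) (Q 25) (Q 37)) (Q 37) (P 17)) (P 17) (P 17)) (P 17) (P 17)) (P 17) (P 14))) (T0 5 14 (T0 6 17 (T0 7 20 (T0 8 23 (T0 9 26 f210 (Q 29) (Q 29)) (Q 29) (Q 29)) (Q 29) (Q 29)) (Q 29) (P 17)) (P 17) (P 14)) (P 13))) (T1 4 13 (Q 14) (Q 14) (P 13)) (T1 4 13 f446 (Q 49) (P 13))) (T1 4 13 f446 (Q 23) (P 13)) (T1 4 13 (T0 5 14 (T0 6 17 (T0 7 20 (T3 2 21 (Q 33) (Q 33) (P 21)) (T3 2 21 (Q 33) (Q 33) (P 21)) (T3 2 21 (T1 7 23 (T3 3 32 (Q 57) (Q 43) (T1 10 33 (Q 57) (P 43) (P 33))) (P 33) (P 23)) (T1 7 23 (T1 10 33 (Q 57) (P 43) (P 33)) (P 33) (P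 23)) (P 21))) (P 37) (P 17)) (P 17) (P 14)) (P 33) (P 13))
def f448 : C := T0 7 19 (Q 22) (Q 22) (T1 6 19 (Q 35) (Q 35) (P 19))
def f449 : C := T3 1 15 (T3 1 16 (Q 37) (P 17) (P 17)) (P 17) (P 17)
def f450 : C := T0 11 29 (T0 14 37 (Q 133) (Q 53) (Q 37)) (Q 37) (P 29)
def f451 : C := T0 8 21 (T1 7 22 (Q 45) (P 41) (P 22)) (P 29) (P 21)
def f452 : C := T0 5 13 (T1 4 13 (T3 1 14 f449 (P 17) (P 14)) f449 (T3 1 15 (T1 5 16 (T3 1 16 (T3 1 17 (T3 1 18 (Q 21) (Q 21) (T0 8 21 (T0 11 29 (Q 45) (P 37) (P 37)) (P 37) (P 21))) (Q 53) (P 17)) (P 17) (P 17)) (T3 1 17 (Q 45) (Q 45) (P 17)) (T3 1 17 (T3 1 18 (T1 6 19 (Q 45) (Q 45) (T3 1 19 (T3 1 20 (T0 8 21 (T3 1 21 (T3 1 22 (T3 1 23 (T3 1 24 (T3 1 25 (T3 1 26 (Q 61) (Q 53) f450) f450 (Q 25))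 (Q 25) (Q 25)) (Q 25) (Q 25)) (Q 25) (Q 22)) (Q 22) (Q 22)) (Q 29) (T3 1 21 (T1 7 22 (Q 29) (Q 29) (T3 1 22 (T3 1 23 (T3 1 24 (T3 1 25 (Q 37) (P 29) (P 29)) (P 29) (P 29)) (P 29) (P 29)) (P 29) (P 22))) (P 29) (P 21))) (T0 8 21 (Q 22) (P 29) (P 21)) f451) f451 (P 19))) (T1 6 19 (Q 45) (P 73) (P 19)) (T1 6 19 (T0 8 21 (T0 11 29 (T1 11 35 (Q 109) (Q 109) (T3 2 35 (Q 93) (Q 93) (P 35))) (P 37) (P 29)) (P 29) (P 21)) (P 54) (P 19))) (T1 6 19 (T1 11 35 (Q 109) (P 86) (P 35)) (P 35) (P 19)) (P 17))) (P 17) (P 17))) (T1 4 13 (Q 21) (Q 21) (T1 5 16 (Q 21) (Q 21) (T1 6 19 (Q 21) (Q 21) (T3 1 21 (T1 7 22 (Q 29) (Q 29) (T3 1 22 (T3 1 23 (T3 1 24 (T3 1 25 (Q 34) (P 29) (P 29)) (P 29) (P 29)) (P 29) (P 29)) (P 29) (P 22))) (P 29) (P 21)))))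 (T1 4 13 (T3 1 16 (T3 1 17 (T0 7 18 (Q 21) (Q 21) (T3 1 18 (T3 1 19 (T3 1 20 (T3 1 21 f254 (T1 7 23 (Q 73) (Q 33) (Q 23)) (P 21)) (P 21) (P 21)) (P 21) (P 21)) (P 21) (P 18))) (P 21) (P 17)) (P 17) (P 17)) (T0 7 18 (Q 21) (Q 21) (Q 49)) (P 13))
def f453 : C := T1 2 7 (T3 1 7 (T0 3 8 (T3 1 8 (T3 1 9 (T3 1 10 (T0 4 11 (N 539) (N 679) (T3 1 11 (Q 25) (Q 25) (Q 11))) (T0 4 11 (N 539) (N 679) (Q 11)) (T0 4 11 (T0 5 14 (Q 29) (Q 29) (T1 5 18 (T1 8 29 (Q 37) (Q 37) (Q 29)) (Q 29) (T3 2 19 (T0 9 25 (Q 29) (Q 29) (Q 25)) (P 29) (P 29)))) (T1 5 18 (Q 102) (Q 29) (T3 2 19 (Q 25) (P 29) (P 29))) (T1 3 11 (T1 4 15 (Q 19) (Q 19) (T0 7 19 (T0 11 30 (Q 37) (Q 37) (P 30)) (P 30) (P 30))) (T0 7 19 (Q 37) (P 30) (P 30)) (P 11)))) (T0 4 11 (Q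 37) (Q 37) (T1 3 11 (T1 4 15 (Q 19) (Q 19) (T0 7 19 (T0 11 30 (Q 37) (Q 37) (P 30)) (P 30) (P 19))) (P 37) (P 11))) (P 9)) (P 9) (P 9)) (T3 1 9 (T3 1 10 (T3 1 11 (Q 25) (Q 25) (Q 11)) (Q 11) (T1 3 11 (T1 4 15 (Q 19) (Q 19) (P 30)) (P 30) (P 11))) (Q 19) (P 9)) (T3 1 9 f445 (T0 5 13 (T1 5 19 (T0 8 21 (T1 6 23 (Q 109) (P 73) (P 46)) (P 29) (P 21)) (P 46) (P 19)) (P 21) (P 13)) (P 9))) (P 9) (P 9)) (T0 3 8 (T3 1 8 (T3 1 9 (T3 1 10 (Q 25) (Q 25) (T0 4 11 (T0 5 14 (Q 29) (Q 29) (T3 2 19 (Q 81) (P 29) (P 29))) (P 25) (P 11))) (Q 29) (P 9)) (P 9) (P 9)) (Q 25) (T3 1 12 (T0 5 13 (Q 29) (Q 29) (T3 1 13 (T3 1 14 (Q 18) (P 29) (P 29)) (P 29) (P 13))) (P 25) (P 25))) (T0 3 8 (T3 1 8 (T3 1 9 (T1 3 10 (T3 1 10 (T0 4 11 (T3 1 11 (Q 14) (Q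 14) (T0 5 14 (T0 6 17 (Q 21) (Q 21) (T1 5 17 (Q 21) (Q 21) (P 17))) (Q 45) (P 14))) (Q 14) (Q 14)) (P 21) (P 21)) (T3 1 10 (T0 4 11 (T3 1 11 (Q 14) (Q 14) (T0 5 14 (T0 6 17 (Q 21) (P 37) (P 17)) (P 17) (P 14))) (Q 14) (Q 14)) (P 21) (P 21)) (T3 1 10 (T0 4 11 f447 (T3 1 12 (T1 4 13 (Q 14) (Q 14) (T3 1 13 (T3 1 14 (T3 1 15 (T3 1 16 (Q 25) (P 17) (P 17)) (P 17) (P 17)) (P 17) (P 14)) (P 14) (P 13))) (P 14) (P 14)) (T3 1 12 (T1 4 13 (Q 17) (Q 17) (T3 1 13 (T3 1 14 (T3 1 15 (T1 5 16 (Q 17) (Q 17) (T3 1 16 (T3 1 17 (T3 1 18 (T0 7 19 (Q 22) (Q 22) (T3 1 19 (Q 25) (Q 22) (Q 19))) (Q 22) f448) f448 (P 17)) (P 17) (P 17))) (P 17) (P 17)) (P 17) (P 14)) (P 14) (P 13))) (P 14) (P 14))) (P 21) (P 10))) (P 21) (P 9)) (P 9) (P 9)) (T1 3 10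 (Q 14) (Q 14) (T1 4 13 (Q 17) (Q 17) (T3 1 15 (T1 5 16 (Q 17) (Q 17) (T3 1 17 (T3 1 18 (T3 1 19 (Q 25) (Q 22) (Q 19)) (Q 19) (Q 54)) (Q 35) (P 17))) (P 17) (P 17)))) (T1 3 10 (T3 1 12 (T0 5 13 (T3 1 13 (T3 1 14 (T3 1 15 (Q 17) (Q 17) (Q 45)) (Q 45) (P 14)) (P 14) (P 14)) (Q 21) (Q 21)) (P 14) (P 14)) (T0 5 13 (Q 17) (Q 17) (Q 21)) f452))
def f454 : C := T1 1 4 (T2 1 4 (T3 1 4 (T0 2 5 (T1 1 5 (T2 1 5 (T3 1 5 (N 5) (O 2) (O 2)) (O 1) (O 1)) f52 (T2 1 5 (T3 1 5 (T2 1 6 f53 (T0 5 13 (Q 21) (Q 21) (Q 13)) f54) (O 2) (O 2)) (T3 1 5 f54 (P 6) (O 2)) (T3 1 5 f68 (P 6) (P 5)))) (T1 1 5 (T2 1 5 (T3 1 5 (Q 6) (O 2) (O 2)) (O 1) (O 1)) f52 (T2 1 5 (T3 1 5 (T2 1 6 (T2 2 13 (Q 21) (Q 21) (Q 13)) (Q 13) f69) (O 2) (O 2)) f69 f70)) f126) (O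 2) (O 2)) (O 1) (O 1)) (T2 1 4 (T3 1 4 f135 (O 2) (O 2)) (T0 2 5 (T3 1 7 (T0 3 8 (Q 9) (Q 9) (T3 1 9 (Q 13) (Q 13) (P 9))) (P 9) (P 9)) (Q 13) (P 5)) (O 1)) (T2 1 4 (T3 1 4 (T0 2 5 (T2 1 5 (T3 1 5 (T2 1 6 (T3 1 6 (T1 2 7 (Q 8) (Q 8) (T2 1 7 f136 f137 f142)) (O 2) (O 2)) (T3 1 6 (T1 2 7 (Q 8) (Q 8) (T3 1 7 (T0 3 8 (T3 1 8 (Q 19) (Q 19) (T0 4 11 (Q 31) (Q 25) (T3 2 15 (Q 25) (Q 25) (T0 7 19 (Q 25) (Q 25) (T1 6 19 (Q 43) (Q 43) (P 19)))))) (T3 1 8 (Q 19) (Q 19) (T3 2 15 (Q 19) (Q 19) (T1 6 19 (Q 43) (Q 43) (P 19)))) (T3 1 8 (T3 1 9 (Q 13) (Q 13) f143) f143 (P 8))) (T0 3 8 (T0 4 11 (Q 31) (Q 25) (T0 7 19 (Q 22) (Q 22) (T1 6 19 (Q 43) (Q 43) (P 19)))) (Q 43) (P 8)) (P 7))) (T1 2 7 (Q 8) (Q 8) (P 7)) (O 2)) f174) (O 2) (O 2)) (T3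 1 5 f177 (P 6) (O 2)) (T3 1 5 f263 (P 6) (P 5))) f269 (T2 1 5 (T3 1 5 (T2 1 6 (T3 1 6 f363 (O 2) (O 2)) (T3 1 6 f368 (P 8) (O 2)) (T3 1 6 f435 (P 8) (P 6))) (O 2) (O 2)) f443 (P 5))) (O 2) (O 2)) (T0 2 5 f453 (T1 2 7 (T1 3 11 (T3 1 11 (T3 1 12 (Q 53) (P 13) (P 13)) (P 13) (P 13)) (Q 41) (Q 33)) (Q 18) (T1 3 10 (Q 21) (Q 21) (T1 4 13 (T3 1 21 (Q 73) (Q 73) (P 21)) (Q 33) (P 13)))) (P 5)) (P 4))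
def f455 : C := T0 7 19 (Q 25) (Q 25) (T2 3 19 (N 1064) (N 1184) (P 19))
def f456 : C := T0 4 11 (T2 2 11 (T0 5 14 (T3 2 15 (Q 40) (Q 23) (T0 6 17 (T2 3 17 (T0 7 20 (Q 29) (Q 29) (T2 4 23 (T2 5 29 (Q 43) (Q 43) (Q 29)) (Q 29) (P 23))) (Q 52) (T0 7 20 (T3 3 22 (Q 23) (Q 23) (T0 8 23 (T0 9 26 f158 (Q 29) (P 52)) (P 52) (P 23))) (P 23) (P 23))) (T2 3 17 (Q 37) (P 23) (P 23)) (T2 3 17 (T3 3 22 (T2 4 23 (Q 31) (Q 31) (P 23)) (P 37) (P 37)) (P 23) (P 17)))) (T3 2 15 (Q 40) (P 31) (P 31)) (T3 2 15 (T2 3 17 (T2 4 23 (T3 3 23 (Q 25) (P 31) (P 31)) (T3 3 23 (Q 25) (P 31) (P 31)) (T3 3 23 (T0 9 25 (Q 31) (P 64) (P 25)) (P 31) (P 23))) (P 40) (P 17)) (P 31) (P 31))) (T0 5 14 (T3 2 15 (Q 40) (Q 23) (T0 7 20 (T3 3 22 (Q 23) (Q 23) (T0 8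 23 (T0 9 26 (T0 10 29 (Q 94) (P 61) (P 61)) (P 61) (P 52)) (P 52) (P 23))) (P 23) (P 23))) (P 17) (P 17)) (T0 5 14 (T3 2 15 (T2 3 16 (T0 6 17 (T0 7 20 f160 (Q 55) (P 40)) (P 40) (P 17)) (T0 6 17 (T0 7 20 (T0 8 23 (Q 70) (P 49) (P 49)) (P 43) (P 40)) (P 40) (P 17)) (P 16)) (T2 3 16 (Q 61) (Q 38) (P 16)) (T2 3 16 (T0 7 20 (T3 3 22 (T0 8 23 (T0 9 26 (T2 5 27 (Q 61) (Q 38) (Q 38)) (P 55) (P 55)) (P 55) (P 23)) (T0 8 23 (T0 9 26 (Q 82) (P 55) (P 52)) (P 52) (P 23)) (P 22)) (P 23) (P 23)) (T3 3 22 (Q 38) (Q 38) (P 22)) (P 16))) (P 17) (P 17))) (P 25) (P 25)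
def f457 : C := T0 3 8 (T3 1 8 (T3 1 9 (T3 1 10 (Q 11) (Q 11) (T0 4 11 (T0 5 14 (Q 31) (Q 31) (T3 2 19 (Q 31) (Q 31) (T0 9 25 (Q 31) (Q 31) (T2 5 26 (Q 28) (Q 28) (T3 3 28 (Q 31) (Q 31) (P 28)))))) (T3 2 19 (Q 31) (Q 31) (Q 58)) (T2 2 11 (Q 19) (Q 19) (P 11)))) (T0 4 11 (Q 37) (Q 28) (Q 28)) (T0 4 11 (T2 2 11 (Q 17) (Q 17) (T0 5 14 (T2 3 16 (Q 17) (Q 17) (T0 6 17 (T3 2 17 f153 (Q 26) (T0 7 20 (T0 8 23 (T3 3 25 (Q 61) (Q 61) (T0 9 26 (T0 10 29 f154 (Q 67) (Q 67)) (Q 67) (Q 26))) (Q 26) (T3 3 25 (Q 26) (Q 26) (T2 5 26 (Q 49) (Q 49) (P 26)))) (P 43) (P 43))) (T3 2 17 (Q 37) (P 43) (P 43)) (T3 2 17 (Q 37) (P 43) (P 17)))) (T2 3 16 (Q 17) (Q 17) (T3 2 17 (Q 37) (P 43) (P 17))) (P 28))) (T2 2 11 (Q 17) (P 28) (P 28)) (T2 2 11 (T2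 3 17 (T3 2 17 (Q 19) (Q 19) (T0 7 19 (Q 25) (Q 25) (P 19))) (T3 2 17 (Q 19) (Q 19) (T0 7 19 (Q 25) (P 52) (P 19))) (T3 2 17 (T0 7 19 (Q 28) (Q 28) (P 19)) (Q 52) (P 17))) (P 28) (P 11)))) (T0 4 11 (T2 2 11 (Q 17) (Q 17) (T0 5 14 (T2 3 16 (Q 17) (Q 17) (T0 6 17 (T0 7 20 (T0 8 23 (T0 9 26 (T0 10 29 (Q 97) (Q 41) (Q 58)) (Q 58) (Q 26)) (P 49) (P 49)) (P 43) (P 43)) (P 43) (P 17))) (P 17) (P 17))) (P 25) (P 25)) f456) (T3 1 9 f166 (P 19) (P 19)) (T3 1 9 (T3 1 10 (T2 2 11 (T3 1 11 (Q 13) (Q 13) (T0 5 13 (N 1430) (Q 34) (P 13))) (T3 1 11 (Q 13) (Q 13) (Q 34)) (T3 1 11 (T3 1 12 (T0 5 13 (Q 16) (Q 16) (T3 1 13 (Q 16) (Q 16) (P 13))) (T0 5 13 (Q 16) (Q 16) (P 13)) (T0 5 13 (Q 16) (Q 16) (P 13))) (T0 5 13 (Q 16) (P 34) (P 13)) (P 11)))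 (T2 2 11 (T0 5 13 (Q 34) (Q 34) (P 13)) (Q 34) (P 11)) (T2 2 11 (T0 5 13 (T2 3 17 (T3 2 19 (N 1235) (Q 29) (P 19)) (P 40) (P 40)) (T2 3 17 (T3 2 19 (N 1292) (Q 29) (P 19)) (P 40) (P 34)) (P 13)) (P 40) (P 11))) (P 19) (P 19))
def f458 : C := T2 1 6 (T3 1 6 (T2 1 7 f136 f137 (T3 1 7 (T0 3 8 (T3 1 8 (Q 19) (Q 19) (T0 4 11 (T0 5 14 (Q 31) (Q 31) (T3 3 22 (Q 25) (Q 25) (T0 9 25 (Q 31) (Q 31) (T2 4 25 (Q 58) (Q 58) (P 25))))) (T3 3 22 (Q 25) (Q 25) (T2 4 25 (Q 58) (Q 58) (P 25))) (T2 2 13 (Q 22) (Q 22) (T3 2 15 f455 f455 (T0 7 19 (T2 3 19 (Q 22) (Q 22) (T3 3 22 (Q 25) (Q 25) (P 22))) (T2 3 19 (Q 22) (Q 22) (T3 3 22 (Q 25) (P 52) (P 22))) (T2 3 19 (T3 3 22 (Q 46) (P 52) (P 22)) (T3 3 22 (Q 46) (P 52) (P 22)) (P 19))))))) (T3 1 8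 (Q 19) (Q 19) (T2 2 13 (Q 22) (Q 22) (T3 2 15 (T2 3 19 (N 1349) (N 1469) (P 19)) (P 46) (P 46)))) (T3 1 8 (T3 1 9 (Q 13) (Q 13) (T0 5 13 (T3 2 17 (Q 19) (Q 19) (T2 3 19 (Q 34) (Q 34) (P 19))) (T3 2 17 (Q 19) (Q 19) (Q 34)) (T2 2 13 (T3 2 17 (Q 28) (Q 28) (T0 7 18 (Q 34) (Q 34) (T2 3 20 (T0 9 23 (N 920) (N 1040) (T3 3 25 (Q 28) (Q 28) (T2 4 27 (Q 28) (P 34) (P 34)))) (P 34) (P 34)))) (T3 2 17 (Q 28) (Q 28) (P 34)) (P 13)))) (T0 5 13 (T2 3 19 (Q 34) (Q 34) (P 19)) (Q 34) (T2 2 13 (T0 7 18 (Q 34) (P 49) (P 49)) (P 34) (P 13))) (P 8))) (T0 3 8 (T0 4 11 (T0 5 14 (Q 31) (Q 31) (T0 9 25 (Q 31) (Q 31) (Q 64))) (Q 58) (P 22)) (P 22) (P 8)) (P 7))) (O 2) (O 2)) (T3 1 7 (T0 3 8 (T3 1 8 (Q 19) (Q 19) (T0 4 11 (Q 31) (P 25) (P 25))) (Q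 19) (T3 1 9 (Q 13) (P 19) (P 19))) (Q 31) (P 7)) (T3 1 7 f457 (T2 2 11 (T0 6 17 (T2 3 17 (T0 7 20 (Q 29) (P 43) (P 43)) (Q 29) (Q 85)) (P 37) (P 37)) (Q 50) (P 22)) (P 7))
def f459 : C := T3 1 11 (T3 1 12 (T2 3 13 f205 (T3 1 13 (Q 14) (Q 14) (Q 40)) (T3 1 13 (T0 5 14 (T3 1 14 (T3 1 15 f206 (Q 46) (T0 6 17 (T0 7 20 (T0 8 23 (Q 61) (Q 49) (Q 46)) (Q 46) (Q 46)) (Q 46) (Q 17))) f207 (T0 6 17 (T0 7 20 (T0 8 23 (T0 9 26 f208 (Q 29) (T3 2 27 (Q 29) (Q 29) (Q 55))) (T3 2 27 (Q 29) (Q 29) (Q 55)) (T2 6 25 (Q 43) (P 46) (P 46))) (Q 43) (Q 43)) (Q 43) (T2 4 17 (Q 82) (P 43) (P 17)))) (T3 1 14 (Q 17) (P 31) (P 31)) (T3 1 14 (T3 1 15 f209 (P 31) (P 31)) (P 31) (P 14))) (T0 5 14 (T0 6 17 (T0 7 20 (T0 8 23 (T0 9 26 (T0 10 29 (T0 11 32 (T0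 12 35 (Q 118) (Q 41) (Q 41)) (Q 41) (Q 41)) (Q 41) (Q 29)) (Q 29) (Q 55)) (Q 55) (Q 55)) (Q 43) (P 40)) (P 40) (P 40)) (P 31) (P 14)) (P 13))) (T2 3 13 (Q 37) (Q 37) (P 13)) (T2 3 13 (T0 5 14 (T0 6 17 (T0 7 20 (T2 5 22 (Q 23) (Q 23) (T0 8 23 (T0 9 26 (Q 35) (Q 35) (Q 58)) (P 49) (P 49))) (Q 49) (T2 5 22 (T3 2 23 (Q 37) (Q 37) (P 23)) (P 40) (P 40))) (P 37) (P 37)) (P 37) (P 14)) (Q 61) (P 13))) (T2 3 13 (T0 6 17 (T0 7 20 (Q 67) (P 23) (P 23)) (P 23) (P 23)) (Q 35) (P 13)) (T2 3 13 (T0 6 17 (T0 7 20 (T3 2 21 (T2 5 22 (T0 8 23 (T0 9 26 (Q 67) (P 55) (P 55)) (P 55) (P 23)) (Q 67) (P 22)) (T2 5 22 f213 (Q 53) (P 22)) (T2 5 22 (T0 8 23 (T0 9 26 (T0 10 29 (T2 7 31 (T3 3 31 (Q 67) (Q 67) (T0 11 32 (T0 12 35 (T0 13 38 (Q 103) (Q 41)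 (T2 9 40 (Q 41) (P 76) (P 76))) (P 73) (P 73)) (P 73) (P 32))) (T3 3 31 (Q 67) (Q 67) (T0 11 32 (T0 12 35 (Q 103) (P 73) (P 73)) (P 67) (P 32))) (T3 3 31 (Q 85) (Q 85) (P 31))) (P 32) (P 32)) (P 32) (P 32)) (P 32) (P 23)) (T3 3 31 (Q 53) (Q 53) (P 31)) (P 22))) (P 23) (P 23)) (P 23) (P 23)) (P 22) (P 13))
def f460 : C := T3 1 19 (T3 1 20 (Q 25) (P 22) (P 22)) (P 22) (P 19)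
def f461 : C := T2 2 9 (T3 1 9 (T3 1 10 (T0 4 11 (T3 1 11 f196 (T0 5 14 (Q 23) (Q 23) (Q 34)) (T0 5 14 (T2 3 14 (T0 6 17 (Q 43) (Q 43) (Q 34)) (Q 43) (T0 6 17 (T0 7 20 (T3 2 21 (Q 23) (Q 23) (T0 8 23 (T0 9 26 (Q 32) (Q 32) (Q 55)) (Q 55) (T2 5 23 (Q 52) (Q 52) (P 23)))) (Q 43) (T3 2 21 (Q 23) (P 43) (P 43))) (T3 2 21 (Q 23) (P 43) (P 43)) (P 34))) (Q 34) (T2 3 14 (T2 4 19 (T3 2 21 (Q 25) (Q 25) (T2 5 24 (T0 9 25 (Q 31) (Q 31) (P 25)) (P 34) (P 34))) (P 34) (P 34)) (P 34) (P 14)))) (Q 25) (T3 1 11 (T3 1 12 (T3 1 13 (T2 3 14 (N 728) (N 1040) (T3 1 14 (Q 19) (Q 19) (P 14))) (T2 3 14 (N 896) (N 1208) (P 14)) (T2 3 14 (T0 7 19 (N 779) (N 863) (T2 4 19 (Q 25) (Q 25) (P 19))) (Q 52) (P 14))) (P 25) (P 25)) (P 25) (P 11))) (T0 4 11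 (T0 5 14 (T2 3 14 (Q 91) (Q 43) (T0 7 20 (T0 8 23 (T0 9 26 (Q 32) (P 61) (P 52)) (P 52) (P 52)) (P 43) (P 43))) (P 31) (P 31)) (P 25) (P 11)) (P 10)) (P 10) (P 10)) (T3 1 10 (T0 4 11 (T3 1 11 (T3 1 12 (Q 14) (Q 14) (Q 37)) (Q 23) (T0 6 17 (T0 7 20 (Q 32) (P 23) (P 23)) (P 23) (P 23))) (Q 14) f202) (Q 32) (P 10)) (T3 1 10 (T0 4 11 f459 (T2 3 13 (Q 14) (Q 14) (T3 1 14 (T3 1 15 f216 (P 31) (P 31)) (P 31) (P 14))) (T2 3 13 (T3 1 13 (T3 1 14 (T3 1 15 (Q 19) (Q 19) (T0 7 19 (Q 31) (Q 31) (P 19))) (T0 7 19 (Q 31) (Q 31) (P 19)) (P 14)) (P 14) (P 14)) (Q 22) (T3 1 14 (T3 1 15 (T3 1 16 (T2 4 17 (Q 22) (Q 22) (T3 1 17 (T3 1 18 (T0 7 19 (Q 22) (Q 22) f460) (P 22) (P 22)) (P 22) (P 17))) (P 22) (P 22)) (P 22) (P 22)) (P 22) (P 14)))) (T2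 3 13 (T2 5 22 (T2 7 31 (T0 11 32 (T0 12 35 (Q 121) (P 41) (P 41)) (P 41) (P 32)) (Q 71) (P 31)) (P 31) (P 22)) (P 22) (P 13)) (P 10))
def f462 : C := T3 1 13 (T2 3 14 (Q 16) (Q 16) (Q 19)) (P 16) (P 16)
def f463 : C := T3 1 17 (T3 1 18 (Q 40) (P 19) (P 19)) (P 19) (P 19)
def f464 : C := T2 9 40 (T0 16 41 (Q 139) (P 59) (P 41)) (P 49) (P 40)
def f465 : C := T0 5 13 (T2 3 13 (T3 1 15 (T3 1 16 f463 (P 19) (P 16)) (P 16) (P 16)) (Q 22) (T2 4 17 (Q 22) (Q 22) (T3 1 18 (T3 1 19 (T3 1 20 (T0 8 21 (T2 5 21 (Q 22) (Q 22) (T3 1 21 (T3 1 22 (T3 1 23 f246 (Q 25) (Q 46)) (Q 46) (P 22)) (P 22) (P 22))) (T2 5 21 (Q 22) (Q 22) (T3 1 22 (T3 1 23 (Q 29) (Q 25) (Q 46)) (Q 46) (P 22))) (T2 5 21 (T3 1 21 (T3 1 22 (Q 34) (Q 34) (P 22)) (P 22) (P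 22)) (T3 1 22 (Q 34) (Q 34) (P 22)) (T3 1 22 (T3 1 23 (T3 1 24 (T2 6 25 (N 1079) (N 1079) (T3 1 25 f248 (Q 29) (P 25))) (Q 121) (T2 6 25 (Q 34) (P 121) (P 25))) (T2 6 25 (Q 34) (P 71) (P 25)) (T2 6 25 (T0 13 34 (T3 2 45 (Q 46) (Q 46) (T2 11 46 (Q 118) (P 113) (P 46))) (P 55) (P 34)) (P 46) (P 25))) (T2 6 25 (T0 13 34 (T2 11 46 (Q 118) (P 67) (P 46)) (P 55) (P 34)) (P 46) (P 25)) (P 22)))) (P 22) (P 22)) (P 22) (P 19)) (P 19) (P 19)))) (T2 3 13 f463 (Q 22) (T2 4 17 (Q 22) (Q 22) (Q 34))) (T2 3 13 (T3 1 17 (T0 7 18 (T3 1 18 (T3 1 19 (T3 1 20 (T3 1 21 (Q 22) (Q 22) (T2 5 22 (N 959) (N 959) (P 22))) (T2 5 22 (N 959) (N 959) (P 22)) (T2 5 22 (T0 12 31 (Q 40) (Q 40) (T2 7 31 (T2 9 40 (Q 58) (Q 49) (P 40)) (P 40) (P 31))) (P 40) (P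 22))) (Q 58) (P 19)) (P 19) (P 19)) (T3 1 19 (Q 67) (Q 58) (P 19)) (T3 1 19 (T3 1 20 (T3 1 21 (T2 5 22 (T3 1 22 (Q 28) (Q 23) (T0 9 23 (N 902) (N 902) (P 23))) (Q 31) (Q 31)) (T2 5 22 (Q 64) (P 31) (P 22)) (T2 5 22 (T0 9 23 (Q 49) (P 64) (P 23)) (P 31) (P 22))) (T2 5 22 (T0 9 23 (Q 49) (P 41) (P 23)) (P 31) (P 22)) (T2 5 22 (T0 9 23 (T2 7 31 (T3 2 39 (Q 103) (Q 103) f464) (P 40) (P 31)) (P 41) (P 23)) (P 31) (P 22))) (T0 9 23 f464 (P 41) (P 23)) (P 19))) (P 19) (P 19)) (T0 7 18 (Q 22) (Q 22) (Q 31)) (P 13))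
def f466 : C := T0 3 8 (T3 1 8 f461 (P 10) (P 10)) (T2 2 9 (T3 1 11 (T3 1 12 (T3 1 13 (Q 19) (Q 19) (T2 3 14 (T2 4 19 (Q 25) (P 43) (P 19)) (P 19) (P 14))) (P 25) (P 25)) (P 25) (P 11)) (Q 19) (T2 3 13 (Q 19) (Q 19) (T2 4 17 (Q 19) (Q 19) (T3 1 18 f460 (P 19) (P 19))))) (T2 2 9 (T3 1 11 (T3 1 12 (T0 5 13 f462 f462 (T3 1 13 (T2 3 14 (T3 1 14 (T3 1 15 (T3 1 16 (T3 1 17 (T3 1 18 (Q 43) (Q 43) (T2 4 19 (Q 58) (Q 43) (P 19))) (T2 4 19 (Q 58) (Q 43) (P 19)) (T2 4 19 (T2 5 24 (T2 6 29 (T3 2 33 (Q 88) (Q 83) (T2 7 34 (T2 8 39 (Q 118) (Q 83) (Q 83)) (Q 73) (P 34))) (P 34) (P 34)) (P 34) (P 34)) (P 34) (P 19))) (T2 4 19 (T2 5 24 (T2 6 29 (T2 7 34 (T2 8 39 (Q 118) (Q 49) (Q 49)) (Q 49) (P 34)) (P 34) (P 34)) (P 34) (P 34)) (P 34) (P 19))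 (P 16)) (P 16) (P 16)) (P 16) (P 16)) (T3 1 15 (T3 1 16 (T3 1 17 (T3 1 18 (Q 43) (P 19) (P 19)) (P 19) (P 19)) (P 19) (P 16)) (P 16) (P 16)) (T3 1 15 (T3 1 16 (T3 1 17 (T0 7 18 (Q 19) (Q 19) (T3 1 18 (T3 1 19 (T3 1 20 (Q 28) (Q 28) (T0 9 23 (N 1178) (N 1178) (T2 5 23 (Q 28) (Q 28) (P 23)))) (T0 9 23 (N 1196) (N 1367) (T2 5 23 (Q 28) (Q 28) (P 23))) (P 19)) (P 19) (P 19))) (P 19) (P 19)) (P 19) (P 16)) (P 16) (P 16))) (P 16) (P 13))) (P 16) (P 16)) (P 16) (P 11)) (T0 5 13 (Q 19) (Q 19) (T3 1 17 (T0 7 18 (Q 19) (Q 19) (T3 1 19 (T3 1 20 (Q 23) (Q 23) (Q 41)) (Q 41) (P 19))) (P 19) (P 19))) f465)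
def f467 : C := T3 1 9 (T3 1 10 (Q 22) (Q 22) (P 10)) (P 10) (P 10)
def f468 : C := T2 5 33 (Q 34) (Q 34) (T3 3 34 (N 1235) (N 1235) (P 34))
def f469 : C := T0 5 12 (T2 2 13 (Q 22) (Q 22) (P 13)) (P 22) (P 22)
def f470 : C := T3 1 9 (T3 1 10 (Q 25) (Q 25) (P 10)) (P 10) (P 10)
def f471 : C := T3 5 66 (Q 67) (Q 67) (T2 6 67 (Q 79) (Q 79) (Q 67))
def f472 : C := T3 1 15 (Q 31) (Q 31) (T2 2 21 (Q 43) (Q 43) (T3 2 29 (Q 31) (Q 31) (T2 3 31 (T3 3 43 (Q 73) (Q 73) (Q 43)) (Q 73) (Q 31))))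
def f473 : C := T3 1 17 (Q 19) (Q 19) (T2 2 19 (T2 5 48 (Q 49) (Q 49) (T3 3 49 (Q 67) (Q 67) (Q 49))) (Q 67) (Q 19))
def f474 : C := T3 1 22 (Q 25) (Q 25) (T2 3 25 (T2 5 42 (Q 43) (Q 43) (T3 2 43 (Q 67) (Q 67) (Q 43))) (Q 67) (Q 25))
def f475 : C := T0 5 11 (T3 1 11 (Q 25) (Q 25) (T2 2 17 (T0 9 20 (Q 52) (Q 52) (T3 2 21 (T2 5 43 (N 860) (N 902) (Q 43)) (Q 53) (T2 3 26 (T0 14 31 (Q 91) (Q 71) (T3 3 31 (Q 53) (Q 53) (P 31))) (T0 14 31 (Q 61) (Q 61) (T3 3 31 (Q 53) (Q 53) (P 31))) (T0 14 31 (Q 52) (Q 52) (T3 3 31 (T0 19 42 (Q 43) (Q 43) (T2 5 43 (Q 53) (Q 53) (P 43))) (P 52) (P 31)))))) (Q 43) (P 34))) (T3 1 11 (Q 25) (Q 25) (T2 2 17 (Q 64) (Q 43) (P 34))) (T3 1 11 (T3 1 12 (T0 6 13 (T0 11 24 (Q 25) (Q 25) (T3 2 25 (Q 76) (Q 76)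 (Q 25))) (Q 76) (T3 1 13 (T3 1 14 (T3 1 15 (T3 1 16 (T2 2 17 (T3 1 17 (T3 1 18 (T3 1 19 (T3 1 20 (T3 2 41 (N 1394) (N 1496) (T2 5 43 (N 860) (N 920) (Q 43))) (Q 61) (T2 3 26 (T2 4 35 (T2 5 44 (N 836) (N 950) (Q 97)) (Q 79) (T3 2 39 (T3 3 59 (N 806) (N 806) (Q 79)) (Q 79) (Q 79))) (Q 61) (Q 61))) (Q 115) (Q 19)) (Q 19) (Q 19)) (Q 19) (Q 19)) (T3 1 17 (Q 43) (Q 19) (Q 19)) (T3 1 17 (T3 1 18 (T3 1 19 (T3 1 20 (T3 1 21 f474 (Q 43) (Q 43)) (Q 43) (Q 43)) (Q 43) (Q 19)) (Q 19) (Q 19)) (Q 19) (Q 17))) (Q 19) (Q 19)) (Q 19) (T0 8 17 (Q 43) (Q 43) (T2 2 17 (Q 19) (Q 19) (P 17)))) (T0 8 17 (Q 43) (Q 43) (T2 2 17 (Q 19) (P 43) (P 17))) (T0 7 15 (Q 41) (P 28) (P 28))) (T0 7 15 (Q 41) (P 28) (P 28)) (P 13))) (T0 6 13 (Q 25) (P 37) (P 13))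 (T0 6 13 (T2 2 17 (T3 2 23 (N 782) (N 884) (Q 46)) (Q 35) (T3 2 23 (T0 11 24 (Q 25) (Q 25) (T2 3 25 (Q 61) (Q 61) (P 25))) (T0 11 24 (Q 25) (P 35) (P 35)) (T0 11 24 (T2 3 25 (T3 3 34 (Q 35) (Q 35) (P 34)) (T3 3 34 (Q 35) (Q 35) (P 34)) (P 25)) (P 35) (P 35)))) (P 37) (P 13))) (T0 6 13 (T2 2 17 (Q 46) (Q 35) (P 34)) (P 37) (P 13)) (P 11))
def f476 : C := T2 3 22 (T3 1 22 (T3 1 23 (T3 1 24 (T3 1 25 (T3 1 26 (T3 1 27 (T3 1 28 (T3 1 29 (T3 1 30 (T3 1 31 (T3 1 32 (T3 1 33 (Q 37) (Q 37) (Q 67)) (Q 67) (T2 5 37 (T2 7 52 (T3 2 63 (N 1196) (N 1196) (T2 9 67 (T2 11 82 (N 1364) (N 1364) (Q 97)) (Q 97) (Q 67))) (Q 67) (Q 67)) (Q 67) (Q 37))) (Q 187) (Q 31)) (Q 31) (Q 31)) (Q 31) (Q 31)) (Q 31) (Q 31)) (Q 31) (Q 31)) (Q 31) (Q 31)) (Q 31)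 (Q 25)) (Q 25) (Q 25)) (Q 25) (Q 23)) (Q 23) (Q 23)) (T3 1 22 (T3 1 23 (T3 1 24 (Q 37) (Q 25) (Q 25)) (Q 25) (Q 23)) (Q 23) (Q 23)) (T3 1 22 (T0 11 23 (Q 67) (Q 67) (T3 1 23 (T3 1 24 (T3 1 25 (T3 1 26 (T3 1 27 (T3 1 28 (T2 4 29 (Q 37) (Q 37) (T3 1 29 (T3 1 30 (T3 1 31 (T3 1 32 (T3 1 33 (T3 1 34 (T3 1 35 (T2 5 36 (Q 37) (Q 37) (T3 1 36 (T3 1 37 (T3 1 38 (T3 1 39 (T3 1 40 (T3 1 41 (T3 1 42 (T3 1 43 (N 602) (N 644) (Q 43)) (Q 43) (Q 43)) (Q 43) (Q 43)) (Q 43) (Q 43)) (Q 43) (Q 43)) (Q 43) (T2 6 43 (T3 2 75 (N 824) (N 824) (T2 11 79 (N 962) (N 962) (Q 79))) (Q 79) (Q 43))) (T2 6 43 (T2 11 79 (N 998) (N 998) (Q 79)) (Q 79) (Q 43)) (Q 37)) (Q 37) (Q 37))) (Q 37) (Q 37)) (Q 37) (Q 37)) (Q 37) (Q 37)) (Q 37) (Q 37)) (Q 37) (Q 31))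 (Q 31) (Q 31)) (Q 31) (Q 29))) (Q 31) (Q 31)) (Q 31) (Q 31)) (Q 31) (Q 52)) (Q 52) (Q 25)) (Q 25) (T0 12 25 (N 1127) (N 1127) (P 25))) (T0 12 25 (N 1379) (N 1379) (P 25)) (P 23))) (Q 67) (P 22))
def f477 : C := T2 2 15 (T3 1 15 (T3 1 16 (T0 8 17 (Q 49) (Q 49) (T3 1 17 (T3 1 18 (T3 1 19 (T3 1 20 (T3 1 21 (T3 1 22 (T2 3 23 (T3 1 23 (T3 1 24 (T3 1 25 (T3 1 26 (T3 1 27 (T3 1 28 (N 644) (N 782) (T2 4 31 (N 620) (N 674) (Q 31))) (Q 55) (Q 55)) (Q 55) (T2 4 31 (T2 5 39 (T2 6 47 (T3 2 51 (Q 79) (Q 79) (T2 7 55 (T2 8 63 (T2 9 71 (T3 3 76 (N 836) (N 962) (Q 127)) (Q 79) (Q 79)) (Q 79) (Q 79)) (Q 79) (Q 55))) (Q 55) (Q 55)) (Q 55) (Q 55)) (Q 55) (Q 31))) (T2 4 31 (Q 127) (Q 55) (Q 31)) (Q 25)) (Q 25) (Q 25)) (Q 25) (Q 25)) (Q 31) (Q 31))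 (Q 25) (Q 25)) (Q 25) (Q 25)) (Q 25) (Q 25)) (Q 25) (Q 19)) (Q 19) (Q 19)) (Q 19) (P 17))) (Q 49) (P 16)) (P 16) (P 16)) (T3 1 16 (T0 8 17 (Q 49) (Q 49) (T3 1 17 (T3 1 18 (T3 1 19 (T3 1 20 (T3 1 21 (Q 31) (Q 23) (Q 23)) (Q 23) (Q 23)) (Q 23) (Q 19)) (Q 19) (Q 19)) (Q 19) (P 17))) (Q 49) (P 16)) (T3 1 16 (T0 8 17 (T3 1 17 (Q 22) (Q 22) (T2 3 22 (T0 15 32 (Q 52) (Q 52) (T3 2 33 (Q 52) (Q 52) (T2 5 37 (T0 23 49 (T2 7 52 (Q 97) (P 67) (P 52)) (Q 179) (T3 3 49 (T2 7 52 (Q 83) (P 67) (P 52)) (Q 82) (P 49))) (P 52) (P 37)))) (P 37) (P 22))) (T3 1 17 (Q 22) (Q 22) (T2 3 22 (T3 2 33 (Q 52) (P 83) (P 83)) (P 37) (P 22))) (T3 1 17 (T3 1 18 (T0 9 19 (Q 22) (Q 22) (T3 1 19 (T3 1 20 (T0 10 21 (Q 22) (Q 22) (T3 1 21 f476 (T2 3 22 (Q 23) (Q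 23) (P 22)) (T2 3 22 (Q 23) (Q 23) (P 22)))) (T0 10 21 (Q 22) (P 61) (P 61)) (T0 10 21 (Q 22) (P 40) (P 40))) (T0 10 21 (Q 22) (P 40) (P 40)) (P 19))) (T0 9 19 (Q 22) (P 55) (P 19)) (T0 9 19 (T2 3 22 (T3 2 35 (Q 37) (Q 37) (T0 17 36 (T2 5 37 (N 1139) (N 1139) (P 37)) (P 53) (P 53))) (P 37) (P 22)) (P 55) (P 19))) (T0 9 19 (T2 3 22 (T0 17 36 (Q 52) (P 53) (P 53)) (P 37) (P 22)) (P 53) (P 19)) (P 17))) (T0 8 17 (T2 3 22 (T0 15 32 (Q 52) (Q 52) (T2 5 37 (T0 23 49 (Q 97) (P 113) (P 49)) (P 52) (P 37))) (P 37) (P 22)) (P 49) (P 17)) (P 16))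
def f478 : C := T0 4 9 (T3 1 9 (T3 1 10 (T3 1 11 (T3 1 12 (Q 16) (Q 16) (T2 2 15 (Q 16) (Q 16) (T0 7 16 (T0 10 23 (Q 58) (Q 37) (Q 37)) (Q 37) (P 16)))) (T2 2 15 (Q 16) (Q 16) (T0 7 16 (T0 10 23 (Q 58) (Q 37) (P 23)) (P 23) (P 16))) (T2 2 15 (T0 7 16 (T3 2 21 (N 944) (N 944) (T0 10 23 (Q 31) (Q 31) (T2 3 23 (T2 4 31 (Q 55) (Q 55) (Q 31)) (Q 31) (P 23)))) (Q 55) (P 16)) (T0 7 16 (T3 2 21 (N 944) (N 944) (T0 10 23 (Q 31) (P 53) (P 23))) (P 23) (P 16)) (T0 7 16 (T3 2 21 (T2 3 22 (Q 76) (Q 37) (P 22)) (T2 3 22 (Q 53) (Q 37) (P 22)) (T2 3 22 (T0 10 23 (T0 13 30 (T3 3 31 (Q 37) (Q 37) (P 31)) (T3 3 31 (Q 37) (Q 37) (P 31)) (T3 3 31 (Q 67) (Q 67) (P 31))) (P 53) (P 23)) (T0 10 23 (T0 13 30 (Q 52) (P 37) (P 37)) (P 37) (P 23)) (P 22)))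 (P 23) (P 16)))) (T2 2 15 (T0 7 16 (T0 10 23 (Q 31) (Q 31) (T2 3 23 (T2 4 31 (Q 55) (Q 55) (P 31)) (P 31) (P 23))) (Q 55) (P 16)) (P 31) (P 31)) (P 10)) (P 10) (P 10)) (Q 16) (T0 5 11 (Q 16) (Q 16) (T3 1 12 (T0 6 13 (T3 1 13 (T3 1 14 (T2 2 15 (N 1274) (N 1274) (T3 1 15 (Q 22) (P 16) (P 16))) (P 16) (P 16)) (P 16) (P 16)) (T3 1 13 (T3 1 14 (T2 2 15 (N 1484) (N 1484) (T3 1 15 (Q 22) (P 16) (P 16))) (P 16) (P 16)) (P 16) (P 16)) (T3 1 13 (T3 1 14 (T0 7 15 (T2 2 15 (Q 16) (Q 16) (T3 1 15 (T3 1 16 (Q 22) (Q 22) (P 16)) (P 16) (P 16))) (T2 2 15 (Q 16) (Q 16) (T3 1 16 (Q 22) (Q 22) (P 16))) f477) (P 16) (P 16)) (P 16) (P 13))) (P 16) (P 16)))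
def f479 : C := T2 1 8 (T3 1 8 (T0 4 9 (T2 1 9 (T3 1 9 (Q 10) (O 2) (O 2)) (Q 10) f470) (T2 1 9 (T3 1 9 (Q 10) (O 2) (O 2)) (Q 10) (T3 1 10 (Q 25) (Q 25) (P 10))) (T2 1 9 (T3 1 9 (T2 1 10 (T3 1 10 (T2 1 11 (T3 1 11 (T2 1 12 (T3 1 12 (Q 13) (O 2) (O 2)) (Q 13) (T3 1 12 (T3 1 13 (T3 4 53 (N 1166) (N 1232) (T2 5 56 (N 728) (N 806) f471)) (Q 79) (Q 13)) (Q 13) (Q 13))) (O 2) (O 2)) f308 (T3 1 11 (T3 1 12 (T3 1 13 (T3 1 14 f472 (Q 43) (T2 2 21 (T3 2 27 f309 (Q 55) (Q 55)) (Q 43) (Q 43))) (T2 2 21 (Q 55) (Q 43) (Q 43)) (Q 13)) (Q 13) (Q 13)) (Q 13) (Q 11))) (O 2) (O 2)) (T3 1 10 (T3 1 11 (T3 1 12 (T3 1 13 (Q 31) (Q 31) (Q 13)) (Q 13) (Q 13)) (Q 13) (Q 11)) (Q 11) (O 2)) (T3 1 10 (T3 1 11 (T3 1 12 (T3 1 13 (T3 1 14 (T3 1 15 (T3 1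 16 f473 (Q 49) f312) (Q 31) (T2 2 19 (Q 31) (Q 31) (Q 19))) (T2 2 19 (Q 31) (Q 29) (Q 19)) (T2 2 19 (T3 2 27 (Q 31) (Q 31) (T2 3 29 (Q 31) (Q 31) (Q 29))) (Q 29) (Q 19))) (Q 40) (Q 13)) (Q 13) (Q 13)) (Q 13) (Q 11)) (Q 11) (P 10))) (O 2) (O 2)) (T3 1 10 (T3 1 11 f364 (Q 13) (Q 11)) (Q 11) (P 10)) (T3 1 10 f475 (T0 5 11 (T2 2 17 (T0 9 20 (Q 52) (Q 52) (T2 3 26 (Q 91) (P 61) (P 52))) (P 43) (P 34)) (P 31) (P 11)) (P 10)))) (O 2) (O 2)) (T0 4 9 f470 (Q 25) (T0 5 11 (Q 25) (Q 25) (T3 1 12 (T0 6 13 (T0 11 24 (Q 25) (Q 25) (T3 2 25 (Q 76) (Q 76) (P 25))) (Q 76) (T3 1 13 (T3 1 14 (T3 1 15 (T3 1 16 (T3 1 17 (Q 25) (Q 19) (Q 17)) (Q 17) (Q 17)) (Q 17) (Q 49)) (Q 43) (T0 7 15 (Q 41) (P 28) (P 28))) (Q 41) (P 13))) (P 25) (P 25)))) f478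
def f480 : C := T0 3 7 (T2 1 7 (T3 1 7 (T2 1 8 (T3 1 8 (Q 10) (O 2) (O 2)) (Q 10) (T3 1 8 f467 (P 10) (P 8))) (O 2) (O 2)) (T3 1 9 (Q 22) (P 10) (P 10)) (T3 1 9 (T3 1 10 (T3 1 11 (T0 5 12 (Q 13) (Q 13) (T3 1 12 (T3 1 13 (Q 19) (Q 19) (Q 13)) (Q 13) (T2 2 13 (T2 3 20 (T2 4 27 (Q 82) (Q 34) (T3 3 34 (Q 47) (Q 47) (P 34))) (T3 3 34 (Q 47) (Q 47) (P 34)) (T3 2 23 (Q 40) (Q 40) (T0 11 26 (Q 34) (Q 34) (T0 14 33 f468 f468 (T2 5 33 (T3 3 34 (Q 40) (Q 40) (P 34)) (T3 3 34 (Q 40) (Q 40) (P 34)) (T3 3 34 (T0 17 40 (Q 46) (P 73) (P 40)) (T0 17 40 (Q 46) (P 73) (P 40)) (P 34))))))) (T3 2 23 (Q 40) (Q 40) (P 46)) (P 13)))) (T0 5 12 (Q 13) (Q 13) (T2 2 13 (T2 3 20 (T2 4 27 (Q 82) (P 34) (P 34)) (P 34) (P 34)) (P 34) (P 13))) f469) f469 (P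 10)) (P 10) (P 10))) (T2 1 7 (T3 1 7 (T2 1 8 (T3 1 8 (Q 10) (O 2) (O 2)) (Q 10) f467) (O 2) (O 2)) (Q 22) (T3 1 11 (T3 1 12 (T3 1 13 (Q 19) (Q 19) (Q 13)) (Q 13) (T2 2 13 (T2 3 20 (Q 82) (P 61) (P 40)) (P 40) (P 13))) (Q 82) (P 22))) (T2 1 7 (T3 1 7 f479 (O 2) (O 2)) (T0 4 9 (T3 1 11 (T3 1 12 (Q 16) (Q 16) (T0 7 16 (T0 10 23 (Q 58) (P 37) (P 37)) (P 37) (P 16))) (Q 58) (P 22)) (Q 16) (T0 5 11 (Q 16) (Q 16) (T0 6 13 (Q 22) (Q 22) (T0 7 15 (Q 22) (Q 22) (T0 8 17 (Q 22) (Q 22) (T0 9 19 (Q 22) (Q 22) (T3 1 20 (T0 10 21 (Q 22) (Q 22) (T3 1 22 (T0 11 23 (Q 67) (Q 67) (T3 1 23 (T3 1 24 (T3 1 25 (T3 1 26 (T3 1 27 (T3 1 28 (T3 1 29 (T3 1 30 (T3 1 31 (T3 1 32 (T3 1 33 (T3 1 34 (T3 1 35 (T3 1 36 (T3 1 37 (T3 1 38 (T3 1 39 (T3 1 40 (T3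 1 41 (T3 1 42 (T3 1 43 (N 860) (N 902) (Q 43)) (Q 43) (Q 43)) (Q 43) (Q 43)) (Q 43) (Q 43)) (Q 43) (Q 43)) (Q 43) (Q 43)) (Q 43) (Q 37)) (Q 37) (Q 37)) (Q 37) (Q 37)) (Q 37) (Q 37)) (Q 37) (Q 37)) (Q 37) (Q 37)) (Q 37) (Q 31)) (Q 31) (Q 31)) (Q 31) (Q 29)) (Q 29) (Q 29)) (Q 29) (Q 29)) (Q 29) (Q 29)) (Q 29) (Q 25)) (Q 25) (Q 73)) (Q 71) (P 23))) (Q 67) (P 22))) (P 22) (P 22)))))))) (P 7))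
def f481 : C := T3 1 13 (T3 1 14 (Q 17) (Q 17) (Q 29)) (Q 29) (P 13)
def f482 : C := T2 2 11 (T3 1 11 (T0 5 12 (T3 1 12 (T3 1 13 (T3 1 14 (Q 17) (Q 17) (T0 7 17 (T0 9 22 (Q 28) (Q 28) (T3 2 27 (Q 28) (Q 28) (T2 5 28 (Q 40) (Q 40) (P 28)))) (T3 2 27 (Q 28) (Q 28) (T2 5 28 (Q 40) (P 73) (P 28))) (T2 3 17 (T2 4 23 (Q 29) (Q 29) (T3 2 27 (Q 29) (Q 29) (T0 12 29 (Q 40) (P 46) (P 29)))) (Q 97) (P 17)))) (T0 7 17 (Q 40) (Q 40) (T2 3 17 (T2 4 23 (Q 29) (Q 29) (T0 12 29 (Q 40) (P 46) (P 29))) (P 40) (P 17))) (P 13)) (P 13) (P 13)) f481 (T3 1 13 (T3 1 14 (T3 1 15 f379 (T2 3 17 (Q 19) (P 46) (P 17)) (T2 3 17 (T0 8 19 (T2 4 23 (Q 29) (Q 29) (P 46)) (P 31) (P 19)) (P 46) (P 17))) (T2 3 17 (T0 8 19 (Q 29) (P 31) (P 19)) (P 29) (P 17)) (T2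 3 17 (T0 8 19 (T2 4 23 (T3 2 27 (T2 5 29 (Q 31) (P 70) (P 29)) (Q 41) (T2 5 29 (T0 13 31 (T2 6 35 (T2 7 41 (Q 55) (Q 53) (P 41)) (P 41) (P 41)) (P 43) (P 31)) (P 41) (P 29))) (P 29) (P 29)) (P 31) (P 19)) (P 29) (P 17))) (T0 8 19 (T2 5 29 (T0 13 31 (Q 118) (P 43) (P 31)) (P 41) (P 29)) (P 31) (P 19)) (P 13))) (P 13) (P 13)) (T0 5 12 (T3 1 12 (T3 1 13 (T3 1 14 (Q 17) (Q 17) (P 28)) (P 28) (P 13)) (P 13) (P 13)) (Q 17) f381) (T0 5 12 (T3 1 12 (T3 1 13 (T3 1 14 (T3 1 15 (T2 3 16 (Q 17) (Q 17) (T3 1 16 (T0 7 17 (T3 1 17 (Q 37) (Q 37) (T0 9 22 f382 (Q 37) (P 22))) (Q 22) (Q 22)) (T0 7 17 (T0 9 22 (Q 67) (P 49) (P 22)) (P 22) (P 17)) (P 16))) (T2 3 16 (Q 17) (Q 17) (P 16)) (T2 3 16 (T0 7 17 (T0 9 22 (T0 11 27 (N 1232) (N 1232) (T2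 8 43 (Q 49) (Q 49) (T3 3 43 (N 1232) (N 1232) (P 43)))) (Q 49) (P 22)) (P 22) (P 17)) (Q 91) (P 16))) (T2 3 16 (T0 7 17 (T0 9 22 (T0 11 27 (Q 43) (Q 43) (T2 8 43 (Q 49) (P 113) (P 43))) (Q 49) (P 22)) (P 22) (P 17)) (P 43) (P 16)) (P 28)) (P 28) (P 13)) (P 13) (P 13)) (Q 22) (T3 1 15 (T2 3 16 (Q 22) (Q 22) (T3 1 17 (T3 1 18 (T0 8 19 (T3 1 19 (T3 1 20 (T3 1 21 (Q 46) (P 22) (P 22)) (P 22) (P 22)) (P 22) (P 22)) (T3 1 19 (T3 1 20 (Q 31) (P 22) (P 22)) (P 22) (P 22)) (T3 1 19 (T3 1 20 (T2 4 21 (Q 22) (Q 22) (T3 1 21 (T3 1 22 (T3 1 23 (Q 31) (Q 31) (T0 11 26 (Q 31) (Q 31) (T2 5 26 (N 1232) (N 1232) (P 26)))) (T0 11 26 (Q 31) (Q 31) (T2 5 26 (N 1253) (N 1253) (P 26))) (P 22)) (P 22) (P 22))) (P 22) (P 22)) (P 22) (P 19))) (P 22)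 (P 22)) (P 22) (P 17))) (P 17) (P 17)))
def f483 : C := T0 2 5 (T2 1 5 (T3 1 5 f458 (O 2) (O 2)) (T0 3 8 (T3 1 8 (T3 1 9 (T3 1 10 (Q 11) (Q 11) (Q 31)) (Q 31) (T0 6 17 (T3 2 17 (Q 46) (Q 26) (T0 8 23 (T3 3 25 (Q 61) (Q 61) (T0 9 26 (T0 10 29 (Q 91) (P 61) (P 61)) (P 61) (P 26))) (P 26) (P 26))) (P 37) (P 37))) (Q 91) (P 16)) (Q 11) (Q 16)) f466) (T2 1 5 (T3 1 5 (T2 1 6 (T3 1 6 (T2 1 7 f264 (Q 43) (T3 1 9 (Q 13) (P 28) (P 28))) (O 2) (O 2)) (Q 13) (T2 2 11 (Q 13) (Q 13) (T3 1 12 (T3 1 13 (Q 16) (P 28) (P 13)) (P 13) (P 13)))) (O 2) (O 2)) (Q 16) (T2 2 9 (T2 3 14 (T3 1 16 (T3 1 17 (T3 1 18 (Q 43) (Q 43) (Q 58)) (Q 58) (T2 6 29 (T3 2 33 (Q 88) (Q 83) (Q 118)) (P 34) (P 34))) (Q 118) (P 16)) (Q 43) (Q 28)) (Q 23) (T2 3 13 (T2 5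 22 (Q 28) (Q 28) (Q 31)) (Q 31) (P 13)))) (T2 1 5 (T3 1 5 (T2 1 6 (T3 1 6 f480 (O 2) (O 2)) (T0 3 7 (T3 1 11 (T0 5 12 (Q 13) (Q 13) (T3 1 13 (Q 19) (Q 19) (P 13))) (P 13) (P 13)) (Q 19) (P 7)) (T0 3 7 f482 (T2 2 11 (Q 19) (Q 19) (T2 3 16 (Q 22) (Q 22) (T3 1 20 (T2 4 21 (Q 22) (Q 22) (T3 1 22 (T3 1 23 (Q 31) (Q 26) (Q 47)) (Q 47) (P 22))) (P 22) (P 22)))) (P 7))) (O 2) (O 2)) (T0 3 7 (T0 5 12 (T3 1 16 (T0 7 17 (T3 1 17 (Q 37) (Q 37) (T0 11 27 (T0 13 32 (Q 67) (P 37) (P 37)) (P 37) (P 37))) (Q 22) (Q 22)) (Q 67) (P 16)) (Q 22) (T0 8 19 (Q 46) (Q 31) (Q 31))) (Q 31) (P 7)) (P 5))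
def f484 : C := T2 1 2 (T3 1 2 (T0 1 3 (T1 1 3 (T2 1 3 (T3 1 3 (T0 1 4 (T1 1 4 (T2 1 4 (T3 1 4 (N 4) (O 2) (O 2)) (O 1) (O 1)) (O 0) (O 0)) (T1 1 4 (T2 1 4 (T3 1 4 (Q 5) (O 2) (O 2)) (O 1) (O 1)) (T2 1 4 (T3 1 4 (Q 5) (O 2) (O 2)) (Q 5) (O 1)) (O 0)) f46) (O 2) (O 2)) (O 1) (O 1)) (O 0) (O 0)) (T1 1 3 (T2 1 3 (T3 1 3 f51 (O 2) (O 2)) (O 1) (O 1)) (T2 1 4 (T3 1 4 (T2 1 5 (T3 1 5 (T2 1 6 (T3 1 6 (Q 7) (O 2) (O 2)) (Q 7) (T3 1 7 (Q 16) (Q 16) (P 7))) (O 2) (O 2)) (Q 16) (T3 1 8 (T2 2 9 (Q 10) (Q 10) (T3 1 10 (Q 13) (Q 13) (P 10))) (P 10) (P 10))) (O 2) (O 2)) (Q 13) (P 4)) (O 0)) (T1 1 3 (T2 1 3 (T3 1 3 f454 (O 2) (O 2)) (O 1) (O 1)) (T2 1 4 (T3 1 4 f483 (O 2) (O 2)) (T0 2 5 (T0 3 8 (T0 4 11 (T3 1 13 (T0 5 14 (T3 1 14 (T3 1 15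 (T3 1 16 (Q 17) (Q 17) (Q 49)) (Q 46) (Q 61)) (Q 61) (T3 2 27 (Q 85) (Q 41) (T0 13 38 (T3 3 40 (Q 97) (Q 94) (Q 121)) (P 41) (P 41)))) (Q 17) (T3 1 17 (T3 1 18 (Q 25) (P 37) (P 37)) (P 37) (P 17))) (Q 118) (P 13)) (Q 25) (Q 25)) (Q 25) (T0 5 13 (T0 8 21 (T3 1 25 (T3 1 26 (Q 61) (Q 53) (Q 133)) (Q 133) (P 25)) (Q 29) (Q 37)) (Q 34) (P 13))) (P 13) (P 5)) (P 4)) (P 3))) (O 2) (O 2)) (O 1) (O 1)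
def f485 : C := T3 2 15 (T1 3 16 (Q 17) (Q 17) (T2 3 17 (T1 4 21 (Q 23) (Q 23) (T2 4 23 (T3 3 23 f72 (Q 31) (T1 5 26 (N 1305) (N 1305) (T2 5 29 (Q 31) (P 47) (P 47)))) f73 (T3 3 23 (T1 6 31 (Q 47) (Q 47) (T3 4 31 (T1 7 36 (Q 47) (Q 47) (T3 5 39 (T2 7 40 (Q 41) (Q 41) (T1 8 41 (Q 47) (Q 47) (P 41))) (P 47) (P 47))) (P 47) (P 31))) (Q 47) (P 23)))) (T1 4 21 (Q 23) (Q 23) (T3 3 23 (T1 6 31 (Q 47) (P 57) (P 57)) (P 63) (P 23))) (P 17))) (T1 3 16 (Q 17) (Q 17) (T2 3 17 (T1 4 21 (Q 23) (Q 23) (T2 4 23 (T1 5 26 (N 1357) (N 1357) (T2 5 29 (Q 31) (P 47) (P 47))) (P 53) (P 23))) (P 23) (P 17))) (T1 3 16 (T2 3 17 (T3 3 22 (Q 23) (Q 23) (T2 4 23 (T1 5 27 (T2 5 29 (Q 71) (Q 71) (Q 29)) (Q 65) (T2 5 29 (T2 6 35 (T2 7 41 (T1 8 43 (N 1435)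 (N 1435) (Q 43)) (Q 65) (Q 65)) (Q 65) (Q 65)) (Q 65) (T3 4 29 (N 1029) (N 1029) (P 29)))) (T1 5 27 (Q 29) (Q 29) (P 81)) (P 23))) (P 23) (P 17)) (T2 3 17 (T3 3 22 (Q 23) (Q 23) (T2 4 23 (T2 5 29 (T2 6 35 (Q 43) (P 59) (P 59)) (P 59) (P 59)) (P 59) (P 23))) (P 23) (P 17)) (T2 3 17 (T1 4 21 (T3 3 22 (T2 4 23 (Q 53) (P 75) (P 23)) (Q 59) (T2 4 23 (T2 5 29 (T3 4 29 (Q 53) (Q 53) (T2 6 35 (T3 5 36 (Q 53) (Q 53) (T1 7 37 (T2 7 41 (T3 6 43 (N 1189) (N 1189) (P 43)) (P 59) (P 59)) (T2 7 41 (T3 6 43 (N 1189) (N 1189) (P 43)) (P 53) (P 53)) (P 37))) (P 59) (P 59))) (P 59) (P 59)) (P 59) (P 23))) (T3 3 22 (Q 53) (P 37) (P 37)) (T3 3 22 (T2 4 23 (T1 5 26 (Q 53) (Q 47) (T2 5 29 (T1 6 31 (T2 6 35 (T3 5 37 (Q 47) (Q 47) (P 37)) (P 47) (P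 47)) (Q 83) (P 31)) (P 47) (P 47))) (P 53) (P 23)) (P 37) (P 37))) (P 23) (P 17)))
def f486 : C := T2 1 6 (T3 1 6 (T2 1 7 f77 (T3 3 19 (Q 71) (O 2) (O 2)) (T3 1 7 (T3 2 15 (Q 31) (Q 31) (T2 3 19 (Q 71) (Q 51) (T1 4 21 (Q 37) (Q 37) (T3 3 22 (Q 31) (Q 31) (T2 4 25 (Q 51) (Q 51) (T1 5 26 (Q 37) (Q 37) (T3 4 29 (Q 31) (Q 31) (T1 6 31 (Q 37) (Q 37) (T2 5 31 (T3 5 36 (Q 51) (Q 51) (T3 6 43 (Q 51) (Q 51) (T1 9 46 (Q 57) (Q 57) (T3 7 50 (Q 51) (Q 51) (T1 10 51 (Q 57) (Q 57) (P 51)))))) (T3 5 36 (Q 51) (Q 51) (T3 6 43 (Q 51) (Q 51) (T1 9 46 (Q 57) (P 87) (P 87)))) (P 31)))))))))) (T2 3 19 (Q 71) (Q 51) (T1 4 21 (Q 37) (Q 37) (T2 4 25 (Q 51) (Q 51) (T1 5 26 (Q 37) (Q 37) (T1 6 31 (Q 37) (P 57) (P 57)))))) (P 7))) (O 2) (O 2)) (T3 1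 7 (T3 2 15 (Q 31) (Q 31) (T1 4 21 (Q 37) (Q 37) (T3 3 22 (Q 31) (P 37) (P 37)))) (Q 37) (P 7)) (T3 1 7 (T3 1 8 (T3 1 9 (Q 11) (Q 11) (T1 2 11 (T1 3 17 (Q 41) (Q 41) (T3 2 17 (N 935) (N 1045) (Q 17))) (T3 2 17 (N 1105) (N 1215) (Q 17)) (T2 2 11 (T2 3 17 (Q 41) (Q 41) (T3 2 17 (N 935) (N 1045) (P 17))) (T3 2 17 (N 1105) (N 1215) (P 17)) (P 11)))) (T1 2 11 (T1 3 17 (Q 41) (Q 41) (Q 17)) (Q 17) (T2 2 11 (T2 3 17 (Q 41) (Q 41) (P 17)) (P 17) (P 11))) (T1 2 11 (T2 2 11 (Q 23) (O 1) (O 1)) (T2 2 11 (Q 23) (P 17) (O 1)) (T2 2 11 f485 (P 17) (P 11)))) (T1 2 11 (T2 2 11 (Q 23) (O 1) (O 1)) (Q 23) (T1 3 16 (T2 4 23 (T1 5 27 (T2 5 29 (Q 71) (P 99) (P 29)) (Q 65) (T2 6 35 (T2 7 41 (T1 8 43 (Q 65) (Q 65) (P 43)) (P 65) (P 65)) (P 65) (P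 65))) (P 29) (P 23)) (P 43) (P 43))) (P 7))
def f487 : C := T3 1 8 (T3 1 9 (Q 29) (Q 29) (Q 9)) (Q 9) (T1 2 9 (Q 15) (Q 15) (P 9))
def f488 : C := T2 3 19 (Q 83) (Q 83) (T3 2 19 (Q 31) (Q 31) (P 19))
def f489 : C := T1 5 24 (T2 4 25 (Q 39) (Q 39) (P 25)) (P 39) (P 39)
def f490 : C := T3 3 23 (T3 4 31 (Q 33) (P 39) (P 39)) (P 39) (P 39)
def f491 : C := T3 1 8 (T1 2 9 (T3 1 9 (Q 19) (Q 19) (T2 2 13 (Q 33) (Q 33) (T1 3 14 (T1 4 19 (Q 25) (Q 25) (Q 19)) (Q 19) (T3 2 17 (Q 19) (Q 19) (T2 3 19 (T1 5 23 (Q 33) (Q 33) (T3 3 25 (Q 51) (Q 51) (T1 7 32 (Q 33) (Q 33) (T2 5 32 (T3 4 33 (Q 59) (Q 59) (P 33)) (T3 4 33 (Q 59) (Q 59) (P 33)) (T3 4 33 (Q 109) (Q 91) (P 33)))))) (Q 51) (P 19)))))) (T3 1 9 (Q 19) (Q 19) (T2 2 13 (Q 33) (Q 33)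 (T3 2 17 (Q 19) (Q 19) (T2 3 19 (Q 59) (P 51) (P 19))))) (T3 1 9 (T3 1 10 f79 (T2 2 13 (Q 21) (Q 21) (Q 13)) (T1 3 13 f488 f488 (T2 2 13 (T1 4 17 (Q 47) (Q 47) (T3 2 19 (Q 21) (Q 21) (T2 3 20 (Q 21) (Q 21) (T1 5 21 (Q 47) (Q 47) (P 21))))) (T1 4 17 (Q 47) (Q 47) (T3 2 19 (Q 21) (Q 21) (T1 5 21 (Q 47) (P 59) (P 21)))) (P 13)))) (T1 3 13 (T2 3 19 (Q 83) (Q 83) (P 19)) (Q 83) (T2 2 13 (T1 4 17 (Q 47) (Q 47) (T2 3 20 (Q 21) (P 47) (P 47))) (Q 47) (P 13))) (P 9))) (T1 2 9 (T2 2 13 (Q 33) (Q 33) (T1 3 14 (Q 25) (P 33) (P 33))) (Q 33) (P 9)) (T1 2 9 (T2 2 13 (T1 3 14 (T3 2 15 (Q 33) (Q 33) (P 15)) (T3 2 15 (Q 33) (Q 33) (P 15)) (T3 2 15 (T2 3 20 (T1 5 23 (Q 61) (Q 61) (T3 3 23 f81 (Q 55) (P 23))) (T1 5 23 (Q 47) (Q 47) (T3 3 23 (Q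 87) (P 47) (P 23))) (T1 5 23 (Q 47) (Q 47) (T3 3 23 (T3 4 31 (T1 7 32 (Q 33) (Q 33) (T2 5 33 (T3 5 39 (Q 41) (P 47) (P 47)) (T3 5 39 (Q 41) (P 47) (P 47)) (P 33))) (P 47) (P 47)) (P 47) (P 23)))) (T2 3 20 (T1 5 23 (Q 61) (Q 61) (P 23)) (P 47) (P 47)) (P 15))) (T1 3 14 (T3 2 15 (Q 33) (Q 33) (P 15)) (P 33) (P 33)) (T1 3 14 (T3 2 15 (T1 4 19 (T2 3 19 (Q 39) (Q 39) (T3 3 23 (T1 5 24 (Q 25) (Q 25) (T2 4 25 (Q 39) (Q 39) (P 25))) (T1 5 24 (Q 25) (P 39) (P 39)) f489)) (T2 3 19 (Q 39) (Q 39) (T3 3 23 (T2 4 25 (Q 39) (Q 39) (P 25)) (P 39) (P 39))) (T2 3 19 f490 f490 (P 19))) (T1 4 19 (T2 3 19 (Q 39) (Q 39) f489) (P 39) (P 39)) (P 15)) (P 33) (P 33))) (T3 2 15 (T2 3 20 (T3 3 23 (Q 41) (P 77) (P 23)) (P 41) (P 41)) (P 23) (P 15)) (P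 9))
def f492 : C := T3 1 9 (T3 1 10 (T2 2 11 (Q 23) (Q 23) (T3 1 11 (T3 1 12 (T1 5 23 (Q 51) (Q 37) (T3 2 25 (T3 3 38 (Q 41) (Q 41) (Q 51)) (Q 51) (T1 7 32 (Q 51) (Q 51) (T2 7 36 (Q 37) (Q 37) (T3 3 37 (T1 9 41 (Q 51) (Q 51) (Q 41)) (Q 87) (P 37)))))) (T1 5 23 (Q 51) (Q 37) (Q 37)) (T1 3 14 f97 (T3 2 23 (Q 61) (Q 47) (Q 47)) (T2 3 16 (Q 23) (Q 23) (T2 4 21 (T3 2 23 (N 1449) (Q 37) (Q 23)) (Q 37) (T1 5 23 (T3 2 23 (T3 3 35 (T1 8 37 (Q 61) (Q 51) (P 37)) (Q 47) (Q 47)) (Q 47) (T2 5 26 (Q 79) (P 47) (P 47))) (P 37) (P 37)))))) (T1 3 14 f98 (Q 47) (T2 3 16 (Q 23) (Q 23) (T2 4 21 (Q 23) (Q 23) (T1 5 23 (Q 89) (P 37) (P 23))))) (P 11))) (T2 2 11 (Q 23) (Q 23) (P 11)) (T2 2 11 (T1 3 14 (T2 3 17 (Q 19) (Q 19) (T1 4 19 (T1 5 24 (Q 39)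 (Q 29) (Q 29)) (Q 29) (T3 2 19 (Q 39) (P 29) (P 19)))) (T2 3 17 (Q 19) (Q 19) (T3 2 19 (Q 39) (P 29) (P 19))) (T2 3 17 (T3 2 19 (T2 4 23 (Q 41) (Q 41) (Q 23)) (T2 4 23 (Q 41) (P 29) (P 29)) (P 19)) (T3 2 19 (Q 23) (P 29) (P 19)) (T3 2 19 (T1 5 23 (T2 5 28 (T3 3 29 (N 1131) (N 1159) (P 29)) (Q 79) (T3 3 29 (T1 8 37 (T3 4 39 (Q 61) (Q 61) (Q 39)) (P 51) (P 51)) (T1 8 37 (Q 39) (P 51) (P 51)) (P 29))) (P 51) (P 23)) (P 29) (P 19)))) (T1 3 14 (Q 39) (P 61) (P 61)) (P 11))) (T2 2 11 (T1 3 14 (T2 3 17 (Q 19) (Q 19) (T1 4 19 (T1 5 24 (Q 39) (P 29) (P 29)) (P 29) (P 19))) (P 19) (P 19)) (Q 39) (P 11)) (T2 2 11 (T1 3 14 (T2 3 17 (T3 2 17 (T1 4 19 (T2 4 23 (Q 53) (Q 29) (T1 5 24 (Q 35) (P 29) (P 29))) (T2 4 23 (Q 53) (P 29) (P 29)) (P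 19)) (T1 4 19 (T2 4 23 (Q 53) (P 35) (P 35)) (P 43) (P 19)) (T1 4 19 (T2 4 23 (T1 5 24 (T3 3 25 (T1 6 29 (Q 35) (Q 35) (T2 5 29 (T2 6 35 (Q 53) (Q 53) (P 35)) (P 35) (P 29))) (Q 59) (P 25)) (T3 3 25 (Q 53) (Q 53) (P 25)) (T3 3 25 (T2 5 29 (T2 6 35 (T2 7 41 (T3 5 42 (Q 43) (Q 43) (Q 101)) (P 53) (P 53)) (P 53) (P 35)) (P 35) (P 29)) (Q 101) (P 25))) (P 35) (P 35)) (P 43) (P 19))) (T3 2 17 (T1 4 19 (T1 5 24 (Q 35) (P 29) (P 29)) (P 29) (P 19)) (P 35) (P 35)) (T3 2 17 (T1 4 19 (T1 5 24 (T3 3 26 (T2 5 28 (T1 6 29 (T1 7 34 (Q 35) (Q 35) (T3 4 35 (Q 45) (Q 45) (P 35))) (P 63) (P 29)) (P 45) (P 45)) (P 35) (P 35)) (P 29) (P 29)) (P 29) (P 19)) (P 35) (P 17))) (P 19) (P 19)) (P 45) (P 11))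
def f493 : C := T2 5 26 (Q 27) (Q 27) (T3 2 27 (Q 31) (Q 31) (P 27))
def f494 : C := T3 1 12 (T1 3 13 (T3 1 13 (T3 1 14 (Q 31) (Q 31) (T1 5 22 f122 (Q 31) f493)) (Q 27) (Q 27)) (T3 1 13 (T3 1 14 (Q 31) (Q 31) f493) (Q 27) (Q 27)) (T3 1 13 (T3 1 14 (T3 1 15 (T2 3 16 (Q 17) (Q 17) (T3 1 16 (T3 1 17 (Q 21) (Q 21) (Q 17)) (Q 17) (T1 4 17 (T1 7 30 (Q 31) (Q 31) (T3 2 31 (Q 47) (Q 47) (Q 31))) (Q 47) (P 17)))) (T2 3 16 (Q 17) (Q 17) (T1 4 17 (Q 31) (Q 31) (P 17))) (T2 3 16 (Q 17) (Q 17) (T1 4 17 (T3 2 29 (Q 31) (Q 31) (T1 7 30 (Q 31) (Q 31) (Q 73))) (Q 47) (P 17)))) (T2 3 16 (Q 17) (Q 17) (T1 4 17 (T1 7 30 (Q 31) (P 43) (P 43)) (P 43) (P 17))) (T2 3 16 (T1 4 17 (Q 27) (Q 27) (P 17)) (Q 43) (T1 4 17 (T2 4 21 (T3 2 27 (Q 43) (Q 43)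 (P 27)) (Q 69) (T2 5 26 (T3 2 27 (Q 43) (Q 43) (P 27)) (T3 2 27 (Q 43) (Q 43) (P 27)) (T3 2 27 (T1 7 30 (T2 6 31 (T3 3 41 (Q 43) (Q 43) (T1 10 43 (T1 13 56 (Q 57) (P 69) (P 69)) (P 69) (P 43))) (P 57) (P 31)) (P 43) (P 43)) (T1 7 30 (T2 6 31 (Q 95) (P 57) (P 31)) (P 43) (P 43)) (P 27)))) (P 43) (P 17)))) (T2 3 16 (T1 4 17 (Q 27) (Q 27) (P 17)) (P 27) (P 27)) (P 13))) (T1 3 13 (Q 27) (P 61) (P 13)) (T1 3 13 (T2 3 16 (T1 5 22 (T3 2 23 (Q 49) (Q 49) (P 23)) (T3 2 23 (Q 49) (Q 49) (P 23)) (T3 2 23 (T2 5 27 (T1 8 35 (Q 49) (Q 49) (T3 3 35 (T2 7 38 (Q 83) (P 49) (P 49)) (T2 7 38 (Q 83) (P 49) (P 49)) (P 35))) (P 49) (P 27)) (T2 5 27 (T1 8 35 (Q 49) (P 127) (P 35)) (P 49) (P 27)) (P 23))) (P 27) (P 27)) (P 61) (P 13))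
def f495 : C := T3 1 10 (T2 2 11 (T3 1 11 (T3 1 12 f102 (Q 13) (T1 3 13 (T1 5 22 (Q 23) (Q 23) (T3 2 23 (N 1265) (N 1287) (Q 23))) (Q 35) (P 13))) (T1 3 13 (Q 23) (Q 23) (P 13)) (T1 3 13 (T2 3 17 (T3 2 21 (T2 4 23 (Q 35) (Q 35) (P 23)) (Q 53) (T1 5 22 (T2 4 23 (Q 41) (Q 41) (P 23)) (Q 53) (T2 4 23 (T2 5 29 (T3 3 31 (Q 35) (Q 35) (P 31)) (P 53) (P 53)) (P 53) (P 23)))) (P 23) (P 23)) (T2 3 17 (T3 2 21 (Q 35) (Q 35) (T2 4 23 (T2 5 29 (T3 3 31 (Q 35) (Q 35) (P 31)) (P 35) (P 35)) (P 35) (P 23))) (P 23) (P 23)) (P 13))) (T3 1 11 (T3 1 12 (T3 1 13 (Q 17) (Q 17) (Q 13)) (Q 13) (T1 3 13 (T1 5 22 (Q 23) (Q 23) (T3 2 23 (N 1391) (N 1391) (P 23))) (P 61) (P 13))) (P 23) (P 23)) (T3 1 11 f494 (P 23) (P 11))) (T1 3 13 (T2 3 17 (T1 5 22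 (Q 41) (P 31) (P 31)) (P 23) (P 23)) (P 31) (P 13)) (T1 3 13 (T2 3 17 (T3 2 19 (T1 5 22 (T2 4 23 (T2 5 29 (T3 3 29 (T1 7 31 (T2 6 35 (Q 59) (P 41) (P 41)) (Q 71) (P 31)) (T1 7 31 (Q 59) (P 49) (P 31)) (T1 7 31 (T2 6 35 (T1 9 40 (T2 7 41 (T2 8 47 (Q 77) (P 59) (P 59)) (P 59) (P 41)) (P 49) (P 49)) (P 41) (P 41)) (P 49) (P 31))) (P 41) (P 41)) (P 41) (P 23)) (P 31) (P 31)) (T1 5 22 (T2 5 29 (T1 7 31 (T2 6 35 (T1 9 40 (Q 77) (P 49) (P 49)) (P 41) (P 41)) (P 49) (P 31)) (P 41) (P 29)) (P 31) (P 31)) (P 19)) (P 23) (P 23)) (P 31) (P 13))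
def f496 : C := T2 1 5 (T3 1 5 (T2 1 6 (T3 1 6 (T2 1 7 (T3 1 7 (T2 1 8 (T3 1 8 (Q 9) (O 2) (O 2)) (Q 9) f487) (O 2) (O 2)) (T3 1 7 f487 (P 15) (O 2)) (T3 1 7 f491 (P 15) (P 7))) (O 2) (O 2)) (T3 1 8 (T1 2 9 (T3 1 9 (Q 19) (Q 19) (T1 3 14 (T1 4 19 (Q 25) (Q 25) (P 19)) (P 19) (P 19))) (Q 19) (T3 1 10 (Q 13) (Q 13) (T1 3 13 (T3 2 19 (Q 31) (Q 31) (P 19)) (P 31) (P 13)))) (P 25) (P 25)) (T3 1 8 (T1 2 9 f492 (T3 1 10 (T2 2 11 (Q 23) (Q 23) (T3 1 11 (T3 1 12 (T3 2 25 (Q 41) (Q 41) (T2 7 36 (Q 37) (Q 37) (T3 3 37 (Q 41) (Q 41) (P 37)))) (Q 37) (T2 3 16 (Q 23) (Q 23) (T2 4 21 (Q 59) (P 37) (P 37)))) (P 23) (P 11))) (Q 23) (T2 3 17 (T3 2 19 (Q 41) (Q 41) (P 19)) (P 23) (P 23))) f495) (P 25) (P 25))) (O 2) (O 2)) (T1 2 9 (T3 1 11 (T3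 1 12 (T1 5 23 (Q 51) (Q 37) (T3 2 25 (T3 3 38 (Q 41) (P 51) (P 51)) (P 51) (P 51))) (Q 51) (T1 3 14 (T1 4 19 (T1 9 43 (Q 101) (Q 67) (Q 91)) (Q 81) (T3 2 23 (Q 71) (P 81) (P 81))) (P 61) (P 61))) (Q 101) (P 11)) (Q 41) (T1 3 13 (T3 1 13 (T3 1 14 (Q 31) (Q 31) (T1 5 22 (T3 2 27 (T1 7 31 (Q 41) (P 71) (P 31)) (P 41) (P 27)) (P 31) (P 31))) (P 27) (P 27)) (Q 31) (T3 1 15 (T3 1 16 (T3 1 17 (Q 21) (Q 21) (Q 17)) (Q 17) (T1 4 17 (T1 7 30 (Q 31) (Q 31) (T3 2 31 (Q 47) (Q 47) (P 31))) (P 81) (P 17))) (P 31) (P 31)))) (P 5)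
def f497 : C := T3 4 37 (Q 47) (Q 47) (T1 10 39 (T1 11 43 (T3 5 46 (Q 47) (Q 47) (Q 83)) (P 47) (P 47)) (P 47) (P 39))
def f498 : C := T2 2 15 (T1 5 19 (T3 2 19 (Q 31) (Q 31) (T1 6 23 (T2 3 23 (T1 7 27 (Q 39) (Q 39) (T2 4 31 (Q 55) (P 39) (P 31))) (Q 39) (T1 7 27 (T3 3 28 (Q 31) (Q 31) (T1 8 31 (T1 9 35 (T2 5 38 (Q 39) (Q 39) (T1 10 39 (Q 55) (P 47) (P 39))) (P 39) (P 39)) (P 39) (P 31))) (P 31) (P 31))) (T2 3 23 (T2 4 31 (Q 55) (P 39) (P 31)) (P 31) (P 31)) (T2 3 23 (T3 3 28 (Q 31) (Q 31) (T2 4 31 (T3 4 37 (Q 47) (Q 47) (T2 5 39 (T1 11 42 (T2 6 47 (Q 73) (Q 55) (P 47)) (P 65) (P 65)) (P 47) (P 39))) (P 39) (P 31))) (P 31) (P 23)))) (T3 2 19 (Q 23) (Q 23) (T2 3 23 (T3 3 28 (Q 31) (Q 31) (T2 4 31 (T3 4 37 (Q 47) (P 65) (P 65))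 (P 39) (P 31))) (P 31) (P 23))) (T3 2 19 (T2 3 23 (T3 3 29 (Q 31) (Q 31) (T2 4 31 (Q 87) (P 39) (P 31))) (P 31) (P 23)) (T2 3 23 (T2 4 31 (Q 87) (P 39) (P 31)) (P 31) (P 23)) (P 19))) (T1 5 19 (T3 2 19 (Q 31) (Q 31) (T1 6 23 (T1 7 27 (T3 3 28 (Q 31) (Q 31) (T1 8 31 (T1 9 35 (Q 83) (P 39) (P 39)) (P 39) (P 31))) (P 31) (P 31)) (P 31) (P 23))) (P 23) (P 23)) (T1 5 19 (T3 2 19 (T2 3 22 (T1 6 23 (T1 7 27 (Q 39) (P 31) (P 31)) (P 31) (P 23)) (T1 6 23 (Q 59) (P 31) (P 23)) (T1 6 23 (T1 7 27 (T2 4 29 (Q 59) (Q 51) (T3 3 29 (T1 8 31 (T1 9 35 (T2 5 36 (N 1015) (N 1015) (T1 10 39 (T3 4 39 (T1 11 43 (Q 71) (P 51) (P 51)) (Q 79) (T1 11 43 (T1 12 47 (T1 13 51 (T1 14 55 (T1 15 59 (Q 99) (Q 71) (P 59)) (P 59) (P 59)) (P 59) (P 51)) (P 51)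 (P 51)) (P 51) (P 51))) (P 51) (P 51))) (P 51) (P 51)) (P 51) (P 31)) (T1 8 31 (T1 9 35 (T2 5 36 (N 1295) (N 1295) (T1 10 39 (T1 11 43 (T1 12 47 (Q 107) (P 51) (P 51)) (P 51) (P 51)) (P 51) (P 39))) (P 39) (P 39)) (P 39) (P 31)) (P 29))) (P 31) (P 31)) (P 31) (P 23))) (T2 3 22 (Q 39) (Q 39) (T2 4 29 (Q 59) (Q 51) (P 29))) (T2 3 22 (T1 6 23 (T1 7 27 (T3 3 28 (T1 8 31 (T1 9 35 (Q 67) (P 39) (P 39)) (P 39) (P 31)) (Q 47) (T1 8 31 (T1 9 35 (T2 5 37 f497 f497 (T3 4 37 (Q 67) (Q 67) (P 37))) (P 39) (P 39)) (P 39) (P 31))) (P 31) (P 31)) (P 31) (P 23)) (T3 3 28 (Q 59) (Q 47) (T3 4 37 (Q 59) (Q 59) (P 37))) (T3 3 28 (T2 4 29 (Q 59) (Q 59) (P 29)) (T2 4 29 (Q 59) (Q 59) (P 29)) (T2 4 29 (T3 4 37 (Q 103) (Q 103) (P 37)) (T3 4 37 (Q 95)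 (Q 95) (P 37)) (P 29))))) (P 23) (P 23))
def f499 : C := T3 1 10 (T1 3 11 (T3 1 11 (T1 4 15 (Q 23) (Q 23) (Q 15)) (Q 23) (T1 4 15 (T2 2 15 (Q 23) (Q 23) (T1 5 19 (T3 2 21 (Q 23) (Q 23) (T2 3 22 (N 1349) (N 1349) (T1 6 23 (T1 7 27 (Q 43) (Q 31) (T3 3 31 (Q 43) (Q 43) (P 31))) (T3 3 31 (Q 43) (Q 43) (P 31)) (P 23)))) (P 23) (P 23))) (Q 23) (T2 2 15 (T3 2 21 (Q 23) (Q 23) (T2 3 23 (T1 7 26 (Q 31) (Q 31) (T2 4 31 (Q 41) (Q 41) (T3 3 31 (Q 63) (Q 63) (P 31)))) (T1 7 26 (Q 31) (Q 31) (T3 3 31 (Q 63) (Q 63) (P 31))) (P 23))) (P 23) (P 15)))) (T3 1 11 (Q 15) (Q 15) (T2 2 15 (T3 2 21 (Q 23) (Q 23) (T2 3 23 (T2 4 31 (Q 41) (P 63) (P 63)) (P 63) (P 23))) (P 23) (P 15))) (T3 1 11 (T3 1 12 (T3 1 13 (Q 15) (Q 15) (T2 2 15 (Q 25) (Q 25) (P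 15))) (T2 2 15 (Q 25) (Q 25) (P 15)) (T2 2 15 (T1 5 18 (Q 23) (Q 23) (T2 3 23 (T3 2 23 (Q 25) (Q 25) (T1 7 25 (Q 47) (Q 47) (P 25))) (T3 2 23 (Q 25) (P 47) (P 47)) (T3 2 23 (T1 7 25 (Q 47) (Q 47) (P 25)) (P 47) (P 23)))) (T1 5 18 (Q 23) (Q 23) (T3 2 23 (Q 61) (P 47) (P 23))) (P 15))) (T2 2 15 (T1 5 18 (Q 23) (Q 23) (T2 3 23 (T1 7 25 (Q 47) (Q 47) (P 25)) (P 47) (P 23))) (P 23) (P 15)) (P 11))) (T1 3 11 (T1 4 15 (T2 2 15 (Q 23) (Q 23) (T1 5 19 (T2 3 22 (N 1349) (N 1349) (T1 6 23 (Q 51) (P 31) (P 23))) (P 23) (P 23))) (Q 23) (T2 3 23 (Q 41) (P 31) (P 23))) (P 41) (P 11)) (T1 3 11 (T1 4 15 f498 (T3 2 19 (T2 3 23 (Q 49) (P 31) (P 23)) (P 49) (P 19)) (T3 2 19 (T2 3 23 (T1 7 26 (T3 3 29 (T2 4 31 (T2 5 39 (Q 79) (Q 71) (T3 4 39 (Q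 71) (P 49) (P 39))) (Q 109) (P 31)) (P 49) (P 49)) (P 41) (P 41)) (P 31) (P 23)) (P 49) (P 19))) (P 41) (P 11))
def f500 : C := T2 4 25 (Q 27) (Q 27) (T3 2 27 (Q 31) (P 69) (P 27))
def f501 : C := T3 1 12 (T2 2 13 (T3 1 13 (Q 15) (Q 15) (T1 4 15 (Q 27) (Q 27) (P 15))) (T3 1 13 (Q 15) (Q 15) (Q 27)) (T3 1 13 (T3 1 14 (T1 4 15 (T3 1 15 (Q 19) (Q 19) (T1 5 19 (Q 31) (Q 31) (Q 19))) (Q 19) (T3 1 15 (Q 19) (Q 19) (P 15))) (T1 4 15 (T1 5 19 (Q 31) (Q 31) (Q 19)) (Q 19) (P 15)) (T1 4 15 (T1 5 19 (T1 6 23 (T1 7 27 (T3 2 27 (Q 31) (Q 31) (T1 8 31 (Q 55) (Q 43) (Q 31))) (Q 31) (Q 31)) (Q 31) f500) f500 (T2 3 19 (Q 27) (Q 27) (P 19))) (T2 3 19 (Q 27) (Q 27) (P 19)) (P 15))) (T1 4 15 (T1 5 19 (T1 6 23 (T1 7 27 (T1 8 31 (Q 55) (Q 43) (Q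 31)) (Q 31) (P 27)) (P 27) (P 27)) (P 27) (P 27)) (P 27) (P 15)) (P 13))) (T2 2 13 (T1 4 15 (Q 27) (P 49) (P 15)) (Q 27) (P 13)) (T2 2 13 (T1 4 15 (T1 5 19 (T2 3 20 (Q 35) (Q 35) (T1 6 23 (T3 2 23 (T1 7 27 (Q 35) (Q 35) (P 27)) (Q 35) (T1 7 27 (T1 8 31 (T2 5 33 (Q 47) (Q 47) (T3 3 34 (Q 35) (Q 35) (T1 9 35 (T1 10 39 (Q 79) (P 47) (P 47)) (P 47) (P 35)))) (P 35) (P 35)) (P 35) (P 27))) (P 27) (P 27))) (T2 3 20 (Q 35) (P 27) (P 27)) (T2 3 20 (T3 2 23 (T2 4 27 (T1 9 34 (Q 35) (Q 35) (T2 5 34 (Q 49) (Q 49) (T3 3 35 (Q 49) (Q 49) (P 35)))) (P 61) (P 27)) (P 35) (P 23)) (P 27) (P 27))) (P 49) (P 15)) (T1 6 23 (T3 2 23 (T1 7 27 (Q 35) (P 85) (P 27)) (Q 35) (Q 59)) (P 27) (P 27)) (P 13))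
def f502 : C := T2 5 32 (Q 33) (Q 33) (T3 2 33 (Q 51) (Q 51) (P 33))
def f503 : C := T1 3 11 (T3 1 11 f501 (T2 2 13 (T1 5 19 (T2 3 20 (Q 35) (Q 35) (Q 67)) (P 23) (P 23)) (Q 59) (P 13)) (T2 2 13 (T1 5 19 (T2 3 20 (T3 2 21 (T1 6 23 (T1 7 27 (T2 4 27 (T1 8 31 (Q 43) (P 35) (P 35)) (Q 55) (T1 8 31 (T3 3 32 (Q 55) (Q 55) (Q 75)) (P 35) (P 35))) (P 35) (P 35)) (P 35) (P 23)) (T1 6 23 (T1 7 27 (T2 4 27 (Q 43) (Q 43) (Q 75)) (P 35) (P 35)) (P 35) (P 23)) (P 21)) (T3 2 21 (Q 67) (Q 67) (P 21)) (T3 2 21 (T1 8 31 (T3 3 32 (T2 5 33 (Q 67) (Q 67) (P 33)) (T2 5 33 (Q 67) (Q 67) (P 33)) (T2 5 33 (Q 107) (Q 107) (P 33))) (P 35) (P 35)) (T2 5 33 (Q 107) (P 53) (P 33)) (P 21))) (P 23) (P 23)) (P 33) (P 13))) (T3 1 12 (T2 2 13 (Q 15) (Q 15)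 (T3 1 14 (T3 1 15 (Q 19) (Q 19) (P 15)) (P 15) (P 15))) (P 15) (P 15)) (T3 1 12 (T2 2 13 (T3 1 13 (T3 1 14 (T3 1 15 (T3 1 16 (T2 5 33 (Q 53) (Q 53) (T3 2 33 (Q 53) (Q 53) (P 33))) (T2 5 33 (Q 53) (Q 53) (P 33)) (T2 3 20 f294 (T3 2 31 (Q 67) (Q 47) (Q 47)) (T1 7 25 (Q 33) (Q 33) (T3 2 31 (T1 9 32 (Q 33) (Q 33) (T2 5 33 (T3 3 47 (Q 67) (Q 67) (P 47)) (Q 53) (P 33))) (P 47) (P 47))))) f295 (P 15)) (P 15) (P 15)) (P 15) (P 15)) (T3 1 14 (T3 1 15 (T3 1 16 (Q 85) (P 33) (P 33)) (P 33) (P 15)) (P 15) (P 15)) (T3 1 14 (T3 1 15 (T3 1 16 (T3 1 17 (T1 5 18 (Q 19) (Q 19) (T3 1 18 (T3 1 19 (Q 25) (Q 25) (Q 19)) (Q 19) (T2 3 19 (Q 39) (Q 39) (P 19)))) (T1 5 18 (Q 19) (Q 19) (T2 3 19 (Q 39) (Q 39) (P 19))) (T1 5 18 (Q 19) (Q 19) (T2 3 19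 (T1 7 25 (Q 33) (Q 33) (T1 9 32 f502 f502 (T2 5 32 (T3 2 33 (Q 39) (Q 39) (P 33)) (T3 2 33 (Q 39) (Q 39) (P 33)) (T3 2 33 (T1 11 39 (T3 3 50 (Q 51) (Q 51) (Q 217)) (P 71) (P 39)) (T1 11 39 (Q 83) (P 71) (P 39)) (P 33))))) (P 51) (P 19)))) (P 33) (P 33)) (P 33) (P 15)) (P 15) (P 15))) (P 15) (P 15))
def f504 : C := T3 1 10 (T3 1 11 (Q 37) (Q 37) (P 11)) (P 11) (P 11)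
def f505 : C := T3 1 12 (T1 4 13 (T1 11 36 (Q 37) (Q 37) (T3 3 37 (Q 75) (Q 75) (Q 37))) (Q 75) (T3 1 13 (T3 1 14 (T3 1 15 (T3 1 16 f473 (T2 2 19 (Q 49) (Q 49) (Q 19)) f312) (T2 2 19 (Q 31) (Q 31) (Q 19)) (T2 2 19 (Q 31) (Q 31) (Q 19))) (T2 2 19 (Q 31) (Q 29) (Q 19)) (T1 5 16 (Q 29) (Q 29) (T1 6 19 (Q 29) (Q 29) (T2 2 19 (T1 7 22 (Q 29) (Q 29) (T1 8 25 (Q 41) (Q 41) (T3 2 27 (T1 9 28 (Q 29) (Q 29) (T2 3 29 (T1 10 31 (Q 41) (Q 41) (P 31)) (T1 10 31 (Q 41) (P 59) (P 31)) (P 29))) (P 41) (P 41)))) (P 29) (P 19))))) (T1 5 16 (Q 29) (Q 29) (T1 6 19 (Q 29) (Q 29) (T2 2 19 (Q 41) (P 29) (P 19)))) (P 13))) (T1 4 13 (Q 37) (Q 37) (P 13)) (T1 4 13 (T2 2 19 (T1 7 23 (T2 5 48 (N 979) (N 979) (T1 17 56 (Q 67) (Q 67) (Q 145))) (Q 79) (T3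 2 23 (Q 49) (Q 49) (P 23))) (T1 7 23 (Q 67) (Q 67) (T3 2 23 (Q 49) (Q 49) (P 23))) (T1 7 23 (T3 2 23 f314 (Q 47) (T2 3 28 (Q 57) (P 47) (P 47))) (T3 2 23 (T3 3 35 (Q 37) (Q 37) (Q 47)) (Q 47) (T2 3 28 (Q 57) (P 47) (P 47))) (T3 2 23 (T2 3 28 (T3 3 35 (Q 49) (Q 49) (Q 59)) (T3 3 35 (Q 49) (P 47) (P 47)) (T3 3 35 (T1 11 36 (T2 4 37 (N 1073) (N 1119) (P 37)) (T2 4 37 (N 1073) (N 1119) (P 37)) (T2 4 37 (T3 4 47 (Q 49) (P 59) (P 47)) (T3 4 47 (Q 49) (P 59) (P 47)) (P 37))) (P 47) (P 47))) (T2 3 28 (Q 59) (P 47) (P 47)) (P 23)))) (T2 2 19 (T3 2 23 (Q 49) (Q 49) (P 23)) (P 49) (P 49)) (P 13))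
def f506 : C := T1 5 17 (Q 25) (Q 25) (T2 2 17 (Q 27) (Q 27) (P 17))
def f507 : C := T1 13 42 (T2 5 43 (Q 123) (P 69) (P 43)) (P 55) (P 55)
def f508 : C := T3 1 14 (T3 1 15 (T1 5 16 (Q 17) (Q 17) (T3 1 16 (T2 2 17 (T3 1 17 (T3 1 18 (T3 1 19 (T3 1 20 (T3 2 41 (Q 43) (Q 43) (T2 5 43 (N 1419) (N 1479) (Q 43))) (Q 61) (T2 3 26 (T2 4 35 (T2 5 44 (N 1311) (N 1311) (Q 97)) (Q 79) (T3 2 39 (T3 3 59 (N 1239) (N 1317) (Q 79)) (Q 79) (Q 79))) (Q 61) (Q 61))) (T2 3 26 (Q 115) (Q 61) (Q 61)) (Q 19)) (Q 19) (Q 19)) (Q 19) (Q 19)) f231 (T3 1 17 (T3 1 18 (T3 1 19 (T3 1 20 (T3 1 21 f474 (Q 43) (T2 3 25 (Q 43) (Q 43) (Q 25))) (T2 3 25 (Q 43) (Q 43) (Q 25)) (T2 3 25 (Q 43) (Q 43) (Q 25))) (T2 3 25 (Q 43) (Q 43) (Q 25)) (Q 19)) (Q 19) (T1 6 19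 (Q 35) (Q 35) (P 19))) (Q 35) (P 17))) (T2 2 17 (Q 19) (Q 19) (P 17)) (T2 2 17 (T1 6 19 (Q 35) (Q 35) (P 19)) (Q 35) (P 17)))) (T1 5 16 (Q 17) (Q 17) (T2 2 17 (T1 6 19 (Q 35) (Q 35) (P 19)) (P 61) (P 17))) (T1 5 16 (T2 2 17 (T1 9 29 (N 1105) (N 1105) (Q 29)) (T1 9 29 (N 1147) (N 1147) (Q 29)) (P 17)) (P 45) (P 45))) (T1 5 16 (T2 2 17 (Q 71) (P 43) (P 17)) (P 29) (P 29)) (T1 5 16 (T2 2 17 (T2 3 26 (T3 2 27 (Q 71) (Q 55) (P 27)) (T3 2 27 (Q 71) (Q 55) (P 27)) (T3 2 27 (T1 9 29 (T3 3 41 (T1 13 42 (Q 43) (Q 43) (T2 5 43 (Q 71) (Q 69) (P 43))) (T1 13 42 (Q 43) (P 55) (P 55)) f507) (P 71) (P 29)) (T1 9 29 f507 (P 55) (P 29)) (P 27))) (P 43) (P 17)) (P 29) (P 29))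
def f509 : C := T2 1 9 (T3 1 9 (T1 3 10 (T2 1 10 (T3 1 10 (Q 11) (O 2) (O 2)) (Q 11) f504) (T2 1 10 (T3 1 10 (Q 11) (O 2) (O 2)) (Q 11) (T3 1 11 (Q 37) (Q 37) (P 11))) (T2 1 10 (T3 1 10 (T2 1 11 (T3 1 11 (T2 1 12 (T3 1 12 (Q 13) (O 2) (O 2)) (Q 13) (T3 1 12 (T3 1 13 (T3 4 53 (Q 67) (Q 67) (T2 5 56 (N 1131) (N 1131) f471)) (Q 79) (Q 13)) (Q 13) (Q 13))) (O 2) (O 2)) f308 (T3 1 11 (T3 1 12 (T3 1 13 (T3 1 14 f472 (Q 43) (T2 2 21 f310 (Q 43) (T3 2 27 (T2 3 31 (Q 43) (Q 43) (Q 31)) (T2 3 31 (Q 43) (Q 43) (Q 31)) (T1 10 31 (N 1209) (N 1339) (T2 3 31 (Q 43) (Q 43) (P 31)))))) (T2 2 21 (T2 3 32 (Q 55) (Q 43) (Q 43)) (Q 43) (Q 53)) (Q 13)) (Q 13) (Q 13)) (Q 13) (P 11))) (O 2) (O 2)) (T3 1 11 f311 (Q 13) (P 11)) (T3 1 11 f505 (T1 4 13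 (T2 2 19 (T1 7 23 (Q 221) (Q 79) (P 23)) (P 67) (P 57)) (P 23) (P 13)) (P 11)))) (O 2) (O 2)) (T1 3 10 f504 (Q 37) (T3 1 12 (T1 4 13 (T1 11 36 (Q 37) (Q 37) (T3 3 37 (Q 75) (Q 75) (P 37))) (Q 75) (T3 1 13 (T3 1 14 (Q 19) (Q 19) (Q 29)) (Q 29) (P 13))) (P 37) (P 37))) (T1 3 10 (T3 1 10 (T3 1 11 (T3 1 12 (T3 1 13 (Q 17) (Q 17) f506) f506 (T1 5 17 (T2 2 17 (Q 35) (Q 35) (T3 2 23 (T1 7 24 (Q 25) (Q 25) (T2 3 25 (T3 3 35 (Q 59) (Q 59) (P 35)) (Q 59) (P 25))) (P 35) (P 35))) (T2 2 17 (Q 35) (Q 35) (T3 2 23 (T2 3 25 (T3 3 35 (Q 59) (Q 59) (P 35)) (P 109) (P 25)) (P 35) (P 35))) (T2 2 17 (T3 2 23 (T2 3 26 (Q 27) (Q 27) (T1 8 27 (Q 95) (P 61) (P 27))) (T2 3 26 (Q 27) (P 35) (P 35)) (T2 3 26 (T1 8 27 (T3 3 34 (Q 35) (Q 35) (T2 4 35 (T1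 13 44 (Q 45) (Q 45) (T2 5 44 (Q 45) (Q 45) (T3 4 45 (N 945) (N 1181) (P 45)))) (Q 79) (P 35))) (T3 3 34 (Q 35) (Q 35) (Q 125)) (P 27)) (P 35) (P 35))) (T3 2 23 (T1 8 27 (Q 95) (P 61) (P 27)) (P 35) (P 35)) (P 17)))) (T1 5 17 (Q 35) (P 45) (P 45)) (P 11)) (P 11) (P 11)) (Q 27) (T3 1 12 (T1 4 13 (T3 1 13 (T3 1 14 (Q 17) (Q 17) (T2 2 17 (T2 3 26 (Q 27) (Q 27) (T3 2 27 (N 1053) (N 1079) (P 27))) (Q 43) (P 17))) (P 27) (P 27)) (T3 1 13 (T3 1 14 (Q 17) (Q 17) (T2 2 17 (T2 3 26 (Q 27) (Q 27) (T3 2 27 (N 1147) (N 1147) (P 27))) (P 43) (P 17))) (P 27) (P 27)) (T3 1 13 f508 (P 27) (P 13))) (P 27) (P 27)))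
def f510 : C := T1 7 24 (T1 9 31 (Q 53) (Q 53) (P 31)) (P 31) (P 31)
def f511 : C := T2 5 39 (T1 12 41 (Q 79) (P 65) (P 41)) (P 55) (P 39)
def f512 : C := T3 1 15 (T3 1 16 (T3 1 17 (Q 23) (Q 23) (P 17)) (P 17) (P 17)) (P 17) (P 17)
def f513 : C := T3 1 23 (T3 1 24 (Q 31) (Q 25) (Q 25)) (Q 25) (P 23)
def f514 : C := T3 1 18 (T1 6 19 (T3 1 19 (Q 23) (Q 23) (T2 3 23 (T2 4 31 (T2 5 39 (N 1349) (N 1349) (P 39)) (P 39) (P 39)) (P 39) (P 23))) (T3 1 19 (Q 23) (Q 23) (T2 3 23 (T2 4 31 (Q 111) (P 39) (P 39)) (P 39) (P 23))) (T3 1 19 (T3 1 20 (T3 1 21 (T3 1 22 (T2 3 23 (T3 1 23 (T3 1 24 (T3 1 25 (T3 1 26 (T3 1 27 (T3 1 28 (N 1035) (N 1035) (T2 4 31 (N 837) (N 891) (Q 31))) (Q 55) (Q 55)) (Q 55) (T2 4 31 (T2 5 39 (T2 6 47 (T3 2 51 (Q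 79) (Q 79) (T2 7 55 (T2 8 63 (T2 9 71 (T3 3 76 (N 1317) (N 1317) (Q 127)) (Q 79) (Q 79)) (Q 79) (Q 79)) (Q 79) (Q 55))) (Q 55) (Q 55)) (Q 55) (Q 55)) (Q 55) (Q 31))) f340 (Q 25)) (Q 25) (Q 25)) (Q 25) (Q 25)) (Q 31) f513) (Q 25) (T2 3 23 (Q 25) (Q 25) (P 23))) (T2 3 23 (Q 25) (Q 25) (P 23)) (T1 7 22 (Q 23) (Q 23) (T2 3 23 (T1 8 25 (Q 41) (Q 41) (P 25)) (P 63) (P 23)))) (T1 7 22 (Q 23) (P 41) (P 41)) (T1 7 22 (T2 3 23 (T2 4 31 (Q 39) (Q 39) (T3 2 39 (Q 41) (Q 41) (P 39))) (T3 2 39 (Q 41) (Q 41) (P 39)) (P 23)) (P 41) (P 41))) (T1 7 22 (Q 39) (P 41) (P 41)) (P 19))) (T1 6 19 (Q 55) (P 73) (P 19)) (T1 6 19 (T2 3 23 (T2 4 31 (T1 11 35 (T3 2 35 (Q 55) (Q 55) (T2 5 39 (T2 6 47 (T1 16 51 (Q 71) (Q 71) (T3 3 52 (Q 55) (Q 55) (T2 7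 55 (T2 8 63 (T2 9 71 (Q 103) (P 87) (P 71)) (P 71) (P 71)) (P 71) (P 55)))) (P 55) (P 55)) (P 55) (P 39))) (T3 2 35 (Q 55) (Q 55) (T2 5 39 (T2 6 47 (T3 3 52 (Q 55) (Q 55) (Q 191)) (P 55) (P 55)) (P 55) (P 39))) (T3 2 35 (T2 5 39 (T2 6 47 (T3 3 53 (Q 73) (Q 71) (Q 159)) (P 55) (P 55)) (P 55) (P 39)) (T2 5 39 (T2 6 47 (Q 159) (P 55) (P 55)) (P 55) (P 39)) (P 35))) (P 39) (P 39)) (P 39) (P 23)) (P 73) (P 19))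
def f515 : C := T3 1 20 (T3 1 21 (T2 3 22 (Q 23) (Q 23) (T3 1 22 (Q 29) (P 23) (P 23))) (P 23) (P 23)) (P 23) (P 23)
def f516 : C := T3 1 23 (T3 1 24 (Q 29) (Q 29) (Q 51)) (Q 51) (P 23)
def f517 : C := T3 1 24 (T1 8 25 (T3 1 25 (Q 29) (Q 29) (Q 51)) (T3 1 25 (Q 29) (Q 29) (Q 51)) (T3 1 25 (T3 1 26 (T3 1 27 (T1 9 28 (Q 29) (Q 29) (T3 1 28 (T2 4 29 (Q 37) (Q 37) (T3 1 29 (T3 1 30 (T3 1 31 (T3 1 32 (T3 1 33 (T3 1 34 (T3 1 35 (T2 5 36 (Q 37) (Q 37) (T3 1 36 (T3 1 37 (T3 1 38 (T3 1 39 (T3 1 40 (T3 1 41 (T3 1 42 (T3 1 43 (N 903) (N 945) (Q 43)) (Q 43) (Q 43)) (Q 43) (Q 43)) (Q 43) (Q 43)) (Q 43) (Q 43)) (Q 43) (T2 6 43 (T3 2 75 (N 1125) (N 1161) (T2 11 79 (N 1443) (N 1443) (Q 79))) (Q 79) (Q 43))) (T2 6 43 (T2 11 79 (N 1479) (N 1479)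 (Q 79)) (Q 79) (Q 43)) (Q 37)) (Q 37) (Q 37))) (Q 37) (Q 37)) (Q 37) (Q 37)) (Q 37) (Q 37)) (Q 37) (T2 5 36 (Q 37) (Q 37) (Q 65))) (T2 5 36 (Q 37) (Q 37) (Q 65)) (Q 31)) (Q 31) (T1 10 31 (T1 19 59 (N 1015) (N 1015) (Q 59)) (Q 59) (P 31))) (T1 10 31 (Q 205) (P 59) (P 31)) (P 29))) (T2 4 29 (Q 31) (Q 31) (P 29)) (T2 4 29 (Q 31) (Q 31) (P 29)))) (T1 9 28 (Q 29) (Q 29) (T2 4 29 (Q 31) (P 109) (P 29))) (T1 9 28 (Q 29) (P 81) (P 81))) (T1 9 28 (Q 29) (P 53) (P 53)) (T1 9 28 (T2 4 29 (N 899) (N 1123) (P 29)) (P 53) (P 53))) (T1 9 28 (Q 51) (P 53) (P 53)) (P 25))) (T1 8 25 (Q 51) (P 97) (P 25)) (T1 8 25 (T2 4 29 (T1 15 47 (T3 2 47 (N 1363) (Q 51) (T2 7 51 (T1 22 69 (N 1173) (Q 73) (T2 10 73 (Q 139) (P 95) (P 73))) (P 73) (P 51))) (T3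 2 47 (Q 51) (Q 51) (T2 7 51 (Q 257) (P 73) (P 51))) (T3 2 47 (T2 7 51 (Q 119) (P 73) (P 51)) (T2 7 51 (Q 119) (P 73) (P 51)) (P 47))) (P 51) (P 29)) (P 97) (P 25))
def f518 : C := T2 2 15 (T3 1 15 (T1 5 16 (T3 1 16 (T3 1 17 (T3 1 18 (Q 23) (Q 23) (T2 3 23 (Q 55) (P 39) (P 23))) (T2 3 23 (Q 55) (P 39) (P 23)) (P 17)) (P 17) (P 17)) (T3 1 17 (T3 1 18 (Q 23) (Q 23) (Q 55)) (Q 55) (P 17)) (T3 1 17 f514 (T1 6 19 (T1 11 35 (Q 103) (P 121) (P 35)) (P 35) (P 19)) (P 17))) (P 17) (P 17)) (T1 5 16 (Q 23) (Q 23) (T1 6 19 (Q 23) (Q 23) (T3 1 20 (T3 1 21 (T3 1 22 f513 (P 23) (P 23)) (P 23) (P 23)) (P 23) (P 23)))) (T1 5 16 (Q 23) (Q 23) (T1 6 19 (T3 1 19 f515 (P 23) (P 23)) f515 (T3 1 20 (T3 1 21 (T1 7 22 (T2 3 22 (Q 23) (Q 23) (T3 1 22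 f516 (P 23) (P 23))) (T2 3 22 (Q 23) (Q 23) f516) (T2 3 22 (T3 1 22 (T3 1 23 (T3 1 24 (T3 1 25 (T3 1 26 (T3 1 27 (T3 1 28 (T3 1 29 (T3 1 30 (T3 1 31 (T3 1 32 (T3 1 33 (Q 37) (Q 37) (Q 67)) (Q 67) (T2 5 37 (T2 7 52 (T3 2 63 (Q 97) (Q 97) (T2 9 67 (T2 11 82 (T3 3 94 (N 939) (N 939) (T2 13 97 (N 1395) (N 1395) (Q 97))) (Q 97) (Q 97)) (Q 97) (Q 67))) (Q 67) (Q 67)) (Q 67) (Q 37))) (T2 5 37 (Q 187) (Q 67) (Q 37)) (Q 31)) (Q 31) (Q 31)) (Q 31) (Q 31)) (Q 31) (Q 31)) (Q 31) (Q 31)) (Q 31) (Q 31)) (Q 31) (Q 25)) (Q 25) (T1 8 25 (Q 47) (Q 47) (P 25))) (Q 47) (P 23)) (P 23) (P 23)) (T3 1 23 (T3 1 24 f345 (Q 25) (T1 8 25 (Q 47) (P 97) (P 25))) (Q 47) (P 23)) (T3 1 23 f517 (T1 8 25 (T2 4 29 (T1 15 47 (Q 139) (P 163) (P 47)) (P 51) (P 29))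 (P 47) (P 25)) (P 23)))) (P 23) (P 23)) (P 23) (P 23))))
def f519 : C := T1 3 10 (T3 1 12 (T3 1 13 (T3 1 14 (T2 2 15 (Q 17) (Q 17) (T3 1 15 (T3 1 16 (T1 5 17 (N 1071) (N 1183) (T3 1 17 (Q 37) (Q 37) (P 17))) (T1 5 17 (N 1071) (N 1183) (P 17)) (T1 5 17 (T1 7 24 (T1 9 31 (Q 107) (Q 107) (Q 31)) (Q 31) (T3 2 31 (T1 12 41 (Q 79) (Q 65) (Q 65)) (Q 79) (P 31))) (Q 65) (P 17))) (T1 5 17 (T1 7 24 (Q 107) (P 31) (P 31)) (P 31) (P 17)) (P 15))) (T2 2 15 (Q 17) (Q 17) (P 15)) (T2 2 15 (T1 5 17 (T2 3 23 (Q 55) (Q 31) f510) (T2 3 23 (Q 41) (P 31) (P 31)) (P 17)) (T1 5 17 f510 (P 31) (P 17)) (P 15))) (T2 2 15 (T1 5 17 (T2 3 23 (Q 55) (Q 31) (T1 7 24 (T1 9 31 (Q 53) (P 69) (P 31)) (P 31) (P 31))) (P 41) (P 17)) (P 53) (P 15)) (T2 2 15 (T1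 5 17 (T2 3 23 (T1 7 24 (T3 2 25 (T1 9 31 (Q 39) (Q 39) (T2 4 31 (T3 3 38 (Q 39) (Q 39) (T2 5 39 (Q 55) (Q 55) (P 39))) (P 39) (P 31))) (Q 63) (P 25)) (T3 2 25 (Q 55) (Q 55) (P 25)) (T3 2 25 (T2 4 31 (T3 3 38 (T2 5 39 (T1 12 41 (Q 55) (P 65) (P 41)) (P 55) (P 39)) (Q 103) f511) (P 39) (P 31)) f511 (P 25))) (P 39) (P 39)) (P 41) (P 17)) (P 39) (P 15))) (P 25) (P 25)) (T3 1 14 (T2 2 15 (Q 17) (Q 17) (T3 1 16 (Q 37) (P 17) (P 17))) (P 17) (P 17)) (T1 4 13 (T3 1 14 (T2 2 15 f512 (T3 1 16 (Q 53) (P 17) (P 17)) (T3 1 16 (T3 1 17 (T3 1 18 (T3 1 19 (T3 1 20 (Q 23) (Q 23) (T1 7 23 (Q 43) (Q 43) (P 23))) (T1 7 23 (Q 43) (Q 43) (P 23)) (T2 3 22 (Q 23) (Q 23) (T1 7 23 (T1 10 33 (Q 57) (Q 43) (T3 2 37 (Q 43) (Q 43) (P 37))) (Q 79) (P 23))))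 (Q 37) (T2 3 22 (T1 7 23 (N 1173) (N 1393) (P 23)) (P 37) (P 37))) (T2 3 22 (Q 53) (P 37) (P 37)) (P 17)) (P 17) (P 17))) (P 17) (P 17)) (T2 2 15 f512 (Q 23) (Q 23)) f518)
def f520 : C := T2 1 7 (T3 1 7 (T2 1 8 (T3 1 8 f509 (O 2) (O 2)) (T1 3 10 (T3 1 12 (T3 1 13 (Q 17) (Q 17) (T1 5 17 (Q 25) (P 41) (P 17))) (P 25) (P 25)) (Q 17) (T1 4 13 (Q 17) (Q 17) (T3 1 15 (T1 5 16 (Q 17) (Q 17) (T3 1 17 (T3 1 18 (T3 1 19 (Q 25) (Q 25) (Q 19)) (Q 19) (Q 73)) (Q 35) (P 17))) (P 17) (P 17)))) f519) (O 2) (O 2)) (T1 3 10 (T3 1 15 (T3 1 16 (T1 5 17 (N 1343) (N 1455) (T3 1 17 (Q 37) (Q 37) (P 17))) (Q 65) (T1 5 17 (T1 7 24 (T1 9 31 (Q 107) (Q 107) (Q 31)) (Q 31) (T3 2 31 (T1 12 41 (Q 79) (P 65) (P 65)) (P 79) (P 31))) (P 65) (P 17))) (Q 107)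 (P 15)) (Q 37) (T1 4 13 (T3 1 18 (T3 1 19 (Q 43) (Q 43) (P 57)) (P 37) (P 37)) (Q 23) (T1 5 16 (Q 23) (Q 23) (T1 6 19 (Q 29) (Q 29) (T1 7 22 (Q 29) (Q 29) (T1 8 25 (Q 29) (Q 29) (T3 1 27 (T1 9 28 (Q 29) (Q 29) (T3 1 29 (T3 1 30 (T3 1 31 (T3 1 32 (T3 1 33 (T3 1 34 (T3 1 35 (T3 1 36 (T3 1 37 (T3 1 38 (T3 1 39 (T3 1 40 (T3 1 41 (T3 1 42 (T3 1 43 (N 1161) (N 1203) (Q 43)) (Q 43) (Q 43)) (Q 43) (Q 43)) (Q 43) (Q 43)) (Q 43) (Q 43)) (Q 43) (Q 43)) (Q 43) (Q 37)) (Q 37) (Q 37)) (Q 37) (Q 37)) (Q 37) (Q 37)) (Q 37) (Q 37)) (Q 37) (Q 65)) (Q 65) (Q 31)) (Q 31) (T1 10 31 (T1 19 59 (N 1189) (N 1189) (Q 59)) (P 121) (P 31))) (Q 205) (P 29))) (P 29) (P 29)))))))) (P 7)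
def f521 : C := T1 2 7 (T2 1 7 (T3 1 7 (T2 1 8 (T3 1 8 (T2 1 9 (T3 1 9 (Q 11) (O 2) (O 2)) (T3 1 9 (Q 11) (Q 11) (O 2)) (T3 1 9 (T3 1 10 (T3 1 11 (Q 25) (Q 25) (Q 11)) (Q 11) (T1 3 11 (T1 4 15 (Q 19) (Q 19) (T2 2 17 (Q 19) (Q 19) (T3 2 19 (T1 7 26 (N 1311) (N 1311) (T3 3 29 (Q 41) (Q 41) (T1 10 37 (Q 41) (Q 41) (T2 5 41 (Q 59) (Q 59) (P 41))))) (Q 67) (P 19)))) (T2 2 17 (Q 19) (Q 19) (T3 2 19 (T3 3 29 (Q 41) (Q 41) (Q 59)) (Q 59) (P 19))) (P 11))) (Q 19) (P 9))) (O 2) (O 2)) (T3 1 9 (T3 1 10 (T3 1 11 (Q 25) (Q 25) (Q 11)) (Q 11) (T1 3 11 (T1 4 15 (Q 19) (Q 19) (T3 2 19 (Q 41) (P 49) (P 19))) (P 41) (P 11))) (Q 19) (P 9)) (T3 1 9 f499 (T2 2 15 (T1 5 19 (T1 6 23 (Q 55) (P 73) (P 73)) (P 65) (P 19)) (Q 55) (T2 3 22 (T2 5 37 (Q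 83) (Q 83) (P 37)) (P 37) (P 37))) (P 9))) (O 2) (O 2)) (T3 1 10 (T1 3 11 (T3 1 11 (T1 4 15 (Q 23) (Q 23) (Q 15)) (Q 23) (T1 5 19 (Q 43) (P 23) (P 23))) (Q 15) (Q 15)) (Q 43) (T3 2 19 (T3 3 29 (T1 10 39 (T3 4 39 (Q 71) (Q 71) (Q 99)) (P 43) (P 43)) (Q 99) (P 29)) (P 29) (P 29))) (T3 1 10 f503 (P 21) (P 21))) (T2 1 7 (T3 1 7 (T2 1 8 (T3 1 8 (T2 1 9 (T3 1 9 (Q 11) (O 2) (O 2)) (Q 11) f195) (O 2) (O 2)) (Q 25) (T3 1 12 (T3 1 13 (Q 15) (Q 15) (Q 39)) (P 25) (P 25))) (O 2) (O 2)) (Q 15) (T2 2 13 (T3 1 15 (T3 1 16 (Q 53) (Q 53) (T2 3 20 (T2 4 27 (Q 109) (Q 95) (P 81)) (P 67) (P 67))) (Q 109) (P 15)) (Q 53) (T3 1 17 (T3 1 18 (T3 1 19 (Q 25) (P 39) (P 39)) (P 39) (P 39)) (P 39) (P 39)))) f520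
def f522 : C := T2 7 41 (T1 11 43 (Q 95) (P 55) (P 43)) (Q 71) (P 41)
def f523 : C := T3 1 14 (T1 4 15 (T3 1 15 (T3 1 16 (T2 3 17 (T3 1 17 (Q 19) (Q 19) (T1 5 19 (Q 35) (Q 35) (P 19))) (T3 1 17 (Q 19) (Q 19) (Q 35)) (T3 1 17 (T3 1 18 (Q 23) (Q 23) (T1 5 19 (T1 6 23 (Q 39) (Q 39) (P 23)) (P 23) (P 19))) (Q 35) (P 17))) (T2 3 17 (T1 5 19 (Q 35) (Q 35) (P 19)) (Q 35) (P 17)) (T2 3 17 (T1 5 19 (T1 6 23 (T2 4 23 (Q 31) (Q 31) (T1 7 27 (T1 8 31 (Q 47) (P 35) (P 35)) (P 35) (P 35))) (Q 35) (T2 4 23 (T2 5 29 (T3 2 31 (Q 35) (Q 35) (P 31)) (P 35) (P 35)) (P 35) (P 23))) (Q 65) (P 19)) (T1 6 23 (T1 7 27 (Q 63) (P 35) (P 35)) (P 35) (P 23)) (P 17))) (T2 3 17 (T1 5 19 (T1 6 23 (Q 47) (P 31) (P 31)) (P 31) (P 19)) (Q 47) (P 17)) (T2 3 17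 (T1 5 19 (T1 6 23 (T2 4 23 (T1 7 27 (T2 5 29 (T3 2 29 (Q 47) (Q 47) (T1 8 31 (Q 59) (Q 59) (P 31))) (Q 47) (T3 2 29 (Q 47) (Q 47) (P 29))) (P 31) (P 31)) (Q 75) (T1 7 27 (T3 2 29 (Q 75) (Q 75) (P 29)) (P 31) (P 31))) (P 31) (P 31)) (P 31) (P 19)) (T3 2 29 (Q 75) (Q 75) (P 29)) (P 17))) (T3 1 16 (T2 3 17 (Q 19) (Q 19) (Q 23)) (P 19) (P 19)) (T3 1 16 (T2 3 17 (T3 1 17 (T3 1 18 (T3 1 19 (Q 23) (Q 23) (P 19)) (P 19) (P 19)) (P 19) (P 19)) (Q 23) (Q 23)) (P 19) (P 19))) (T2 3 17 (T1 6 23 (T2 4 23 (T1 7 27 (T2 5 29 (T1 8 31 (Q 59) (P 43) (P 31)) (Q 47) (P 29)) (P 31) (P 31)) (P 29) (P 29)) (P 31) (P 31)) (P 29) (P 17)) (T2 3 17 (T1 6 23 (T2 4 23 (T1 7 27 (T3 2 27 (T2 5 29 (T1 8 31 (T1 9 35 (T2 6 35 (T1 10 39 f399 (P 43) (P 43)) (Q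 71) (T1 10 39 (T3 3 41 (Q 71) (Q 71) (P 41)) (P 43) (P 43))) (P 43) (P 43)) (P 43) (P 31)) (Q 99) (P 29)) (T2 5 29 (T1 8 31 (T1 9 35 (T2 6 35 (T1 10 39 (Q 83) (P 43) (P 43)) (P 41) (P 41)) (P 43) (P 43)) (P 43) (P 31)) (P 41) (P 29)) (T2 5 29 (T1 8 31 (T1 9 35 (T2 6 35 (T1 10 39 (T3 3 40 f522 f522 (T2 7 41 (T1 11 43 (T1 12 47 (T2 8 47 (T1 13 51 (T2 9 53 (T3 4 53 (Q 67) (Q 67) (T1 14 55 (T1 15 59 (T2 10 59 (T1 16 63 (Q 95) (P 67) (P 67)) (Q 95) (Q 107)) (P 67) (P 67)) (P 67) (P 55))) (Q 107) (T3 4 53 (Q 71) (Q 71) (P 53))) (P 55) (P 55)) (Q 147) (T3 4 53 (Q 83) (Q 83) (P 53))) (P 55) (P 55)) (P 55) (P 43)) (T3 4 53 (Q 83) (Q 83) (P 53)) (P 41))) (P 43) (P 43)) (P 41) (P 41)) (P 43) (P 43)) (P 43) (P 31)) (P 41) (P 29))) (P 31)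 (P 31)) (P 29) (P 29)) (P 31) (P 31)) (P 29) (P 17))
def f524 : C := T3 1 23 (T3 1 24 (Q 31) (P 27) (P 27)) (P 27) (P 23)
def f525 : C := T1 12 47 (T1 13 51 (Q 91) (Q 67) (Q 51)) (Q 51) (P 47)
def f526 : C := T3 1 24 (T3 1 25 (T3 1 26 (Q 31) (P 27) (P 27)) (P 27) (P 27)) (P 27) (P 27)
def f527 : C := T3 1 18 (T1 5 19 (T3 1 19 (T3 1 20 (T2 4 21 (T3 1 21 (Q 23) (Q 23) (Q 43)) (T3 1 21 (Q 23) (Q 23) (Q 43)) (T3 1 21 (T3 1 22 (T1 6 23 (T3 1 23 (T3 1 24 (T3 1 25 (Q 27) (Q 27) (Q 51)) (Q 51) (T1 7 27 (Q 51) (Q 31) (P 27))) (Q 47) (T1 7 27 f406 (Q 31) (P 27))) (Q 27) f524) (T1 6 23 (T1 7 27 (Q 67) (Q 31) (P 27)) (P 27) (P 23)) (T1 6 23 (T2 5 26 (Q 27) (Q 27) (T1 7 27 (T1 8 31 (T1 9 35 (T1 10 39 (T1 11 43 (T3 2 43 f525 f525 (T1 12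 47 f410 (Q 51) (P 47))) (P 47) (P 47)) (P 47) (P 47)) (P 47) (P 47)) (P 47) (P 47)) (P 47) (P 27))) (P 27) (P 23))) (T1 6 23 (T2 5 26 (Q 27) (Q 27) (T1 7 27 (T1 8 31 (T1 9 35 (T1 10 39 (T1 11 43 (T1 12 47 f411 (Q 51) (P 47)) (P 47) (P 43)) (P 43) (P 43)) (P 43) (P 43)) (P 43) (P 43)) (P 43) (P 27))) (P 27) (P 23)) (P 21))) (T2 4 21 (Q 43) (Q 43) (P 21)) (T2 4 21 (Q 43) (Q 43) (P 21))) (T2 4 21 (Q 43) (Q 43) (P 21)) (T2 4 21 (T1 7 27 (T1 8 31 (T1 9 35 (T2 7 37 (Q 59) (Q 59) (T3 2 37 (Q 59) (Q 59) (P 37))) (P 39) (P 39)) (P 39) (P 39)) (P 39) (P 27)) (Q 79) (P 21))) (T2 4 21 (Q 23) (Q 23) (T3 1 22 f524 (P 23) (P 23))) (T2 4 21 (Q 27) (Q 27) (T3 1 22 (T3 1 23 f526 (P 27) (P 23)) (P 23) (P 23)))) (T2 4 21 (Q 91) (P 37) (P 21))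 (T2 4 21 (T3 2 35 (T2 7 37 (Q 91) (Q 91) (P 37)) (T2 7 37 (Q 91) (P 53) (P 37)) (T2 7 37 (T1 12 47 (T1 13 51 (T3 3 52 (Q 107) (Q 107) (T2 10 53 (Q 139) (Q 139) (P 53))) (P 55) (P 55)) (P 55) (P 55)) (P 53) (P 37))) (P 37) (P 21))
def f528 : C := T2 5 27 (T2 7 38 (Q 71) (P 49) (P 49)) (P 49) (P 27)
def f529 : C := T2 4 21 (T3 1 22 (T3 1 23 (T3 1 24 (T3 1 25 (T1 7 26 (Q 27) (Q 27) (T3 1 26 (T3 1 27 (Q 37) (Q 37) (P 27)) (P 27) (P 27))) (P 27) (P 27)) (P 27) (P 27)) (P 27) (P 23)) (P 23) (P 23)) (T3 1 24 (T3 1 25 (T1 7 26 (Q 27) (Q 27) (T3 1 26 (Q 37) (P 27) (P 27))) (P 27) (P 27)) (P 27) (P 27)) (T3 1 24 (T3 1 25 (T1 7 26 (T2 5 26 (Q 27) (Q 27) (T3 1 26 (T3 1 27 f418 (Q 57) (P 27)) (P 27) (P 27))) (T2 5 26 (Q 27) (Q 27) (T3 1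 27 (T3 1 28 (Q 67) (Q 31) (Q 57)) (Q 57) (P 27))) (T2 5 26 (T3 1 26 (T3 1 27 (Q 63) (Q 63) (P 27)) (P 27) (P 27)) (T3 1 27 (Q 63) (Q 63) (P 27)) (T3 1 27 (T3 1 28 (T3 1 29 (T3 1 30 (T2 6 31 (Q 37) (Q 37) (T3 1 31 (T3 1 32 (Q 41) (Q 41) (Q 67)) (Q 67) (P 31))) (T2 6 31 (Q 37) (Q 37) (P 31)) (T2 6 31 (Q 37) (Q 37) (P 31))) (T2 6 31 (Q 37) (P 119) (P 31)) (T2 6 31 (Q 63) (P 119) (P 31))) (T2 6 31 (Q 63) (P 57) (P 31)) (T2 6 31 (T1 10 37 (T3 2 55 (T2 11 57 (Q 63) (P 197) (P 57)) (T2 11 57 (Q 63) (P 83) (P 57)) (T2 11 57 (T1 17 63 (T3 3 82 (N 1093) (N 1093) (T2 16 83 (Q 141) (P 275) (P 83))) (P 89) (P 63)) (P 83) (P 57))) (P 63) (P 37)) (P 57) (P 31))) (T2 6 31 (T1 10 37 (T2 11 57 (T1 17 63 (T2 16 83 (Q 141) (P 109) (P 83)) (P 89)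 (P 63)) (P 83) (P 57)) (P 63) (P 37)) (P 57) (P 31)) (P 27)))) (P 27) (P 27)) (P 27) (P 27))
def f530 : C := T2 2 11 (T3 1 13 f523 (T2 5 29 (T2 6 35 (T2 7 41 (T1 11 43 (T1 12 47 (T2 8 47 (T1 13 51 (T2 9 53 (T1 14 55 (T1 15 59 (Q 119) (P 67) (P 67)) (P 67) (P 55)) (Q 107) (P 53)) (P 55) (P 55)) (P 53) (P 53)) (P 55) (P 55)) (P 55) (P 43)) (P 53) (P 41)) (P 41) (P 41)) (P 41) (P 29)) (P 13)) (T1 4 15 (T3 1 15 (T3 1 16 (T3 1 17 (T3 1 18 (Q 23) (Q 23) (Q 39)) (Q 35) (P 17)) (P 17) (P 17)) (P 17) (P 17)) (Q 23) (Q 23)) (T1 4 15 (T3 1 15 (T2 3 16 (T3 1 16 (T3 1 17 (T3 1 18 (T1 5 19 (T3 1 19 (T3 1 20 (Q 23) (Q 23) (T1 6 23 (T1 7 27 (N 1045) (N 1045) (Q 27)) (Q 27) (P 23))) (Q 39) (T1 6 23 (T1 7 27 (T2 5 27 (Q 39) (Q 39) (T1 8 31 (T1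 9 35 (Q 43) (P 39) (P 39)) (P 39) (P 39))) (P 39) (P 39)) (P 39) (P 23))) (Q 23) (Q 23)) (Q 55) (T1 6 23 (T1 7 27 (T2 5 27 (Q 55) (Q 55) (T1 8 31 (T1 9 35 (T3 2 35 (Q 55) (Q 55) (T1 10 39 (T1 11 43 (T2 8 43 (Q 71) (Q 71) (T1 12 47 (T1 13 51 (T3 3 52 (Q 71) (Q 71) (Q 87)) (P 55) (P 55)) (P 55) (P 55))) (P 55) (P 55)) (P 55) (P 39))) (P 39) (P 39)) (P 39) (P 39))) (P 39) (P 39)) (P 39) (P 23))) (T1 7 27 (T2 5 27 (Q 55) (Q 55) (Q 87)) (P 35) (P 35)) (P 17)) (P 17) (P 17)) (T3 1 17 (T3 1 18 (T1 5 19 (Q 43) (Q 23) (Q 23)) (Q 43) (Q 91)) (Q 87) (P 17)) (T3 1 17 f527 (T2 4 21 (T2 7 37 (T2 10 53 (Q 139) (P 69) (P 53)) (P 53) (P 37)) (P 37) (P 21)) (P 17))) (P 17) (P 17)) (T2 3 16 (Q 23) (Q 23) (T2 4 21 (Q 27) (Q 27) f526)) (T2 3 16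 (T3 1 20 (T3 1 21 (T3 1 22 (T3 1 23 (T3 1 24 (T3 1 25 (Q 27) (Q 27) (T2 5 27 (N 1463) (N 1463) (P 27))) (Q 49) (T1 7 26 (Q 27) (Q 27) f528)) (Q 71) (P 23)) (P 23) (P 23)) (P 23) (P 23)) (P 23) (P 23)) (Q 27) f529))
def f531 : C := T1 5 18 (T3 1 18 (T3 1 19 (T3 1 20 (T3 1 21 (Q 23) (Q 23) (T2 4 23 (T1 8 29 (Q 41) (Q 41) (T2 5 29 (Q 41) (Q 41) (P 29))) (T1 8 29 (Q 41) (P 127) (P 29)) (P 23))) (Q 41) (T2 4 23 (T1 8 29 (Q 41) (Q 41) (T2 5 29 (T2 6 35 (T3 2 39 (Q 47) (Q 47) (T2 7 41 (T1 13 47 (Q 59) (Q 59) (T2 8 47 (T2 9 53 (T2 10 59 (Q 77) (Q 65) (P 59)) (P 59) (P 59)) (P 59) (P 47))) (P 59) (P 41))) (P 41) (P 41)) (P 41) (P 29))) (P 41) (P 23))) (Q 77) (P 19)) (P 19) (P 19)) (T3 1 19 (T3 1 20 (Q 47) (Q 41) (Q 83)) (Q 77) (P 19))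 (T3 1 19 (T3 1 20 (T3 1 21 (T3 1 22 (T2 4 23 (T3 1 23 (T3 1 24 (Q 53) (Q 25) (Q 25)) (Q 25) (T1 7 25 (N 989) (N 989) (P 25))) (Q 29) (Q 29)) (T2 4 23 (T1 7 25 (N 989) (N 989) (P 25)) (P 29) (P 23)) (T2 4 23 (T1 7 25 (Q 47) (Q 47) (P 25)) (P 29) (P 23))) (T2 4 23 (T1 7 25 (Q 47) (P 43) (P 25)) (P 29) (P 23)) (T2 4 23 (T1 7 25 (Q 65) (P 43) (P 25)) (P 29) (P 23))) (T1 7 25 (Q 65) (P 43) (P 25)) (T1 7 25 (T2 6 35 (T3 2 39 (T2 7 41 (T1 12 43 (Q 83) (P 61) (P 43)) (P 47) (P 41)) (Q 137) (T2 7 41 (T1 12 43 (T2 8 47 (T2 9 53 (T3 3 58 (Q 101) (Q 101) (T2 10 59 (T1 17 61 (Q 137) (P 79) (P 61)) (P 65) (P 59))) (P 59) (P 59)) (P 59) (P 47)) (P 61) (P 43)) (P 47) (P 41))) (P 41) (P 41)) (P 43) (P 25))) (T1 7 25 (T1 12 43 (Q 173) (P 61)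 (P 43)) (P 43) (P 25)) (P 19))
def f532 : C := T3 1 23 (T3 1 24 (Q 51) (Q 51) (Q 73)) (Q 73) (P 23)
def f533 : C := T1 2 7 (T1 3 11 f530 (T2 2 11 (T2 3 17 (T3 1 17 (T3 1 18 (Q 41) (P 19) (P 19)) (P 19) (P 19)) (Q 23) (Q 23)) (Q 23) (T2 3 16 (T3 1 23 (T3 1 24 (Q 103) (Q 49) f528) (Q 71) (P 23)) (Q 27) (T2 4 21 (Q 59) (Q 37) (T2 5 26 (Q 37) (Q 37) (T3 1 29 (T3 1 30 (T2 6 31 (Q 37) (Q 37) (T3 1 31 (T3 1 32 (Q 41) (P 37) (P 37)) (P 37) (P 31))) (P 37) (P 37)) (P 37) (P 37)))))) (T2 2 11 (T2 3 17 (T3 1 17 f531 (P 19) (P 19)) (T1 5 18 (Q 23) (Q 23) (Q 29)) (T1 5 18 (T3 1 20 (T3 1 21 (T3 1 22 f532 (P 23) (P 23)) (P 23) (P 23)) (P 23) (P 23)) (Q 29) (T3 1 22 (T3 1 23 (T3 1 24 (T1 7 25 (Q 29) (Q 29) (T3 1 25 (T3 1 26 (T3 1 27 (T2 5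 28 (Q 29) (Q 29) (T3 1 28 (T3 1 29 (T3 1 30 (Q 39) (Q 39) (T2 7 39 (Q 67) (Q 67) (Q 39))) (T2 7 39 (Q 67) (Q 67) (Q 39)) (P 29)) (P 29) (P 29))) (P 29) (P 29)) (P 29) (P 29)) (P 29) (P 25))) (P 29) (P 29)) (P 29) (P 23)) (P 23) (P 23)))) (T1 5 18 f532 (Q 29) (T1 7 25 (Q 29) (Q 29) (T3 1 27 (T3 1 28 (T3 1 29 (Q 39) (P 61) (P 29)) (P 29) (P 29)) (P 29) (P 29)))) (P 11))) (T2 2 11 (T2 3 17 (T3 1 22 (T2 4 23 (T3 1 23 (Q 53) (P 25) (P 25)) (Q 29) (Q 29)) (P 25) (P 25)) (Q 29) (T3 1 27 (T2 5 28 (Q 29) (Q 29) (T3 1 29 (Q 67) (Q 67) (P 29))) (P 29) (P 29))) (Q 39) (P 11)) (P 7)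
def f534 : C := T1 1 4 (T2 1 4 (T3 1 4 (T1 1 5 (T2 1 5 (T3 1 5 (T1 1 6 (T2 1 6 (T3 1 6 (Q 7) (O 2) (O 2)) (O 1) (O 1)) f71 f486) (O 2) (O 2)) (O 1) (O 1)) (T2 1 5 (T3 1 5 (T2 1 6 (T3 1 6 (T2 1 7 f77 (Q 71) (T3 1 7 (T3 2 15 (Q 31) (Q 31) (T2 3 19 (Q 71) (Q 51) (T3 3 22 (Q 31) (Q 31) (T2 4 25 (Q 51) (Q 51) (T3 4 29 (Q 31) (P 51) (P 51)))))) (Q 71) (P 7))) (O 2) (O 2)) (Q 31) (T3 1 8 (T3 1 9 (Q 11) (Q 11) (T2 2 11 (T2 3 17 (Q 41) (Q 41) (T3 2 17 (N 1309) (N 1419) (P 17))) (Q 61) (P 11))) (Q 41) (T2 4 23 (T3 3 23 (T2 5 29 (T3 4 31 (Q 71) (Q 47) (P 31)) (P 41) (P 41)) (P 31) (P 31)) (P 41) (P 41)))) (O 2) (O 2)) (Q 11) (O 1)) f496) (O 2) (O 2)) (O 1) (O 1)) (T2 1 5 (T3 1 5 (T2 1 6 (T3 1 6 (T2 1 7 (T3 1 7 (T2 1 8 (T3 1 8 (Q 9) (O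 2) (O 2)) (Q 9) (T3 1 9 (Q 29) (Q 29) (P 9))) (O 2) (O 2)) (Q 29) (T3 1 10 (T3 1 11 (Q 13) (Q 13) (T2 2 13 (Q 21) (P 33) (P 13))) (P 21) (P 21))) (O 2) (O 2)) (Q 13) (T2 2 11 f481 (Q 17) (T3 1 15 (T2 3 16 (Q 17) (Q 17) (T3 1 17 (Q 21) (Q 21) (P 17))) (P 17) (P 17)))) (O 2) (O 2)) (Q 21) (P 5)) (T2 1 5 (T3 1 5 (T2 1 6 (T3 1 6 f521 (O 2) (O 2)) (T1 2 7 (T1 3 11 (T3 1 13 (T3 1 14 (T1 4 15 (Q 31) (Q 19) (Q 19)) (Q 31) (T1 6 23 (T1 7 27 (Q 55) (P 31) (P 31)) (P 31) (P 31))) (Q 55) (P 13)) (Q 19) (T3 1 17 (T1 5 18 (Q 19) (Q 19) (T3 1 19 (Q 25) (Q 25) (P 19))) (P 19) (P 19))) (Q 25) (P 7)) f533) (O 2) (O 2)) (T1 2 7 (T1 3 11 (T1 4 15 (T1 5 19 (T3 1 21 (T3 1 22 f439 (Q 67) (T3 2 43 (Q 91) (Q 91) (Q 151))) (Q 151) (P 21)) (Q 31) (Q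 31)) (Q 31) (T1 7 26 (T3 1 31 (T3 1 32 (Q 71) (Q 71) (Q 161)) (Q 161) (P 31)) (Q 41) (Q 41))) (Q 41) (P 11)) (P 11) (P 7)) (P 5))
def f535 : C := T2 1 8 (T3 1 8 (T2 1 9 (T3 1 9 (T2 1 10 (T3 1 10 (T2 1 11 (T3 1 11 (T2 1 12 (T3 1 12 (Q 13) (O 2) (O 2)) (Q 13) (T3 1 13 (T3 4 53 (Q 67) (Q 67) (T2 5 56 (Q 79) (Q 79) (T3 5 66 (Q 67) (Q 67) (T2 6 67 (Q 79) (Q 79) (P 67))))) (Q 79) (P 13))) (O 2) (O 2)) (Q 67) (T3 1 14 (T3 1 15 (Q 31) (Q 31) (T2 2 21 (Q 43) (Q 43) (T3 2 29 (Q 31) (Q 31) (T2 3 31 (T3 3 43 (Q 73) (Q 73) (P 43)) (P 73) (P 31))))) (Q 43) (T3 2 27 (T2 3 32 (T3 3 41 (Q 97) (P 55) (P 55)) (P 43) (P 43)) (P 55) (P 55)))) (O 2) (O 2)) (Q 31) (T3 1 16 (T3 1 17 (Q 19) (Q 19) (T2 2 19 (T2 5 48 (Q 49) (Q 49) (T3 3 49 (Q 67) (Q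 67) (P 49))) (Q 67) (P 19))) (Q 49) (T2 3 29 (T3 2 31 (T2 4 39 (Q 79) (P 49) (P 49)) (Q 79) (P 31)) (P 49) (P 49)))) (O 2) (O 2)) (Q 19) (T2 2 17 (T3 1 19 (T3 1 20 (T3 2 41 (Q 43) (Q 43) (T2 5 43 (Q 61) (Q 61) (P 43))) (Q 61) (T2 3 26 (T2 4 35 (T2 5 44 (Q 115) (Q 97) (Q 97)) (Q 79) (T3 2 39 (T3 3 59 (Q 61) (P 79) (P 79)) (P 79) (P 79))) (P 61) (P 61))) (Q 115) (P 19)) (Q 43) (T3 1 21 (T3 1 22 (Q 25) (Q 25) (T2 3 25 (T2 5 42 (Q 43) (Q 43) (T3 2 43 (Q 67) (Q 67) (P 43))) (P 67) (P 25))) (P 43) (P 43)))) (O 2) (O 2)) (Q 25) (T2 2 15 (T2 3 23 (T3 1 25 (T3 1 26 (T3 1 27 (T3 1 28 (Q 31) (Q 31) (T2 4 31 (N 1457) (N 1511) (P 31))) (Q 55) (Q 55)) (Q 55) (T2 6 47 (T3 2 51 (Q 79) (Q 79) (T2 7 55 (T2 8 63 (T2 9 71 (T3 3 76 (Q 103) (Q 103)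 (Q 127)) (P 79) (P 79)) (P 79) (P 79)) (P 79) (P 55))) (P 55) (P 55))) (Q 127) (P 25)) (Q 31) (Q 31)) (Q 31) (T2 3 22 (T3 1 31 (T3 1 32 (T3 1 33 (Q 37) (Q 37) (Q 67)) (Q 67) (T2 5 37 (T2 7 52 (T3 2 63 (Q 97) (Q 97) (T2 9 67 (T2 11 82 (T3 3 94 (Q 97) (Q 97) (T2 13 97 (T2 15 112 (T2 17 127 (Q 187) (P 157) (P 127)) (P 127) (P 127)) (P 127) (P 97))) (P 97) (P 97)) (P 97) (P 67))) (P 67) (P 67)) (P 67) (P 37))) (Q 187) (P 31)) (Q 37) (T2 4 29 (Q 37) (Q 37) (T3 1 35 (T2 5 36 (Q 37) (Q 37) (T3 1 37 (T3 1 38 (T3 1 39 (T3 1 40 (T3 1 41 (T3 1 42 (T3 1 43 (N 1505) (T2 195 1366 (N 1373) (N 1373) (R 2 258)) (Q 43)) (Q 43) (Q 43)) (Q 43) (Q 43)) (Q 43) (Q 43)) (Q 43) (Q 43)) (Q 43) (T2 6 43 (T3 2 75 (Q 79) (Q 79) (T2 11 79 (T3 3 112 (N 1343)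 (N 1343) (T2 16 115 (T2 21 151 (N 1517) (P 187) (P 151)) (P 151) (P 115))) (P 115) (P 79))) (P 79) (P 43))) (T2 6 43 (R 2 222) (P 79) (P 43)) (P 37))) (P 37) (P 37)))))
def froot : C := T0 1 2 (T1 1 2 f484 (O 0) (O 0)) (T1 1 3 (T2 1 3 (T3 1 3 f534 (O 2) (O 2)) (O 1) (O 1)) (T2 1 7 (T3 1 7 f535 (O 2) (O 2)) (T3 1 43 (R 3 42) (R 0 903) (P 43)) (P 7)) (P 3)) (P 2)

theorem ok41 : chk 1 1518 froot [Iv.I 0 1 1 1, Iv.I 0 1 1 1, Iv.I 0 1 1 1, Iv.I 0 1 1 1] = true := by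
  decide +kernel

end G5.Bb.Cert
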