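import Pool.Agent.G5.Chk

set_option autoImplicit false

/-!
# Sharp gaps without boundary at closed points: the checker is sound
-/

namespace G5.Bb

/-- The value lies in the interval. -/
def In : Iv → ℝ → Prop
  | Iv.X a b, x => 0 < b ∧ x * b = a
  | Iv.I a b c d, x => 0 < b ∧ 0 < d ∧ (a : ℝ) < x * b ∧ x * d < c

/-- The conditions. -/
structure Cond (l K : ℕ) (xs : List ℝ) : Prop where
  sorted : xs.Pairwise (fun x y => y ≤ x)
  pos : ∀ x ∈ xs, 0 < x
  lower : (l : ℝ) * K - 1 < K * xs.sum
  P : ∀ k : ℕ, 2 ≤ k → ∀ F : List ℕ, List.Forall₂ (fun (f : ℕ) (x : ℝ) => (f : ℝ) < k * x) F xs →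
    F.sum < l * (k - 1)
  N : ∀ k : ℕ, 1 ≤ k → ∀ F : List ℕ, List.Forall₂ (fun (f : ℕ) (x : ℝ) => (k : ℝ) * x < (f : ℝ)) F xs →
    (k + 1) * (l * K - 1) < K * F.sum
  R : ∀ (ys zs : List ℝ) (x : ℝ) (k : ℕ), 1 ≤ k → xs = ys ++ x :: zs →
    (∀ y ∈ ys, Int.fract ((k : ℝ) * y) = 0) → (∀ z ∈ zs, Int.fract ((k : ℝ) * z) = 0) →
    Int.fract ((k : ℝ) * x) = 0

theorem low_lt {v : Iv} {x : ℝ} (h : In v x) (hx : 0 < x) {k : ℕ} (hk : 1 ≤ k) :
    (low k v : ℝ) < k * x := by
  have hk' : (1 : ℝ) ≤ k := by exact_mod_cast hk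
  cases v with
  | X a b =>
    obtain ⟨hb, he⟩ := h
    have hb' : (0 : ℝ) < b := by exact_mod_cast hb
    have ha : 0 < a := by
      have : (0 : ℝ) < a := by rw [← he]; positivity
      exact_mod_cast this
    have h1 : ((k * a - 1) / b : ℕ) * b < k * a := by
      have h2 := Nat.div_mul_le_self (k * a - 1) b
      have h3 : 0 < k * a := Nat.mul_pos hk ha
      omega
    have h2 : ((low k (Iv.X a b) : ℕ) : ℝ) * b < k * a := by
      unfold low
      exact_mod_cast h1
    rw [← he] at h2
    have h3 : (low k (Iv.X a b) : ℝ) * b < (k * x) * b := by linarith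
    exact lt_of_mul_lt_mul_right h3 hb'.le
  | I a b c d =>
    obtain ⟨hb, hd, h1, h2⟩ := h
    have hb' : (0 : ℝ) < b := by exact_mod_cast hb
    have h3 : (k * a / b : ℕ) * b ≤ k * a := Nat.div_mul_le_self _ _
    have h4 : ((low k (Iv.I a b c d) : ℕ) : ℝ) * b ≤ k * a := by
      unfold low
      exact_mod_cast h3
    have h5 : (k : ℝ) * a < k * (x * b) := mul_lt_mul_of_pos_left h1 (by linarith)
    have h6 : (low k (Iv.I a b c d) : ℝ) * b < (k * x) * b := by linarith
    exact lt_of_mul_lt_mul_right h6 hb'.le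

theorem lt_upp {v : Iv} {x : ℝ} (h : In v x) {k : ℕ} (hk : 1 ≤ k) :
    (k : ℝ) * x < (upp k v : ℝ) := by
  have hk' : (1 : ℝ) ≤ k := by exact_mod_cast hk
  cases v with
  | X a b =>
    obtain ⟨hb, he⟩ := h
    have hb' : (0 : ℝ) < b := by exact_mod_cast hb
    have h1 : k * a < (k * a / b + 1) * b := by
      have h2 := Nat.lt_div_mul_add (a := k * a) hb
      rw [Nat.add_mul, one_mul]
      exact h2
    have h2 : (k : ℝ) * a < ((upp k (Iv.X a b) : ℕ) : ℝ) * b := by
      unfold upp
      exact_mod_cast h1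
    rw [← he] at h2
    have h3 : (k * x) * b < (upp k (Iv.X a b) : ℝ) * b := by linarith
    exact lt_of_mul_lt_mul_right h3 hb'.le
  | I a b c d =>
    obtain ⟨hb, hd, h1, h2⟩ := h
    have hd' : (0 : ℝ) < d := by exact_mod_cast hd
    have h3 : k * c ≤ ((k * c + (d - 1)) / d) * d := by
      have h5 := Nat.div_add_mod (k * c + (d - 1)) d
      have h6 := Nat.mod_lt (k * c + (d - 1)) hd
      rw [mul_comm] at h5
      omega
    have h4 : (k : ℝ) * c ≤ ((upp k (Iv.I a b c d) : ℕ) : ℝ) * d := by
      unfold upp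
      exact_mod_cast h3
    have h5 : (k : ℝ) * (x * d) < k * c := mul_lt_mul_of_pos_left h2 (by linarith)
    have h6 : (k * x) * d < (upp k (Iv.I a b c d) : ℝ) * d := by linarith
    exact lt_of_mul_lt_mul_right h6 hd'.le

theorem upD_pos {v : Iv} {x : ℝ} (h : In v x) : 0 < upD v := by
  cases v with
  | X a b => exact h.1
  | I a b c d => exact h.2.1

theorem loD_pos {v : Iv} {x : ℝ} (h : In v x) : 0 < loD v := by
  cases v with
  | X a b => exact h.1
  | I a b c d => exact h.1

theorem le_up {v : Iv} {x : ℝ} (h : In v x) : x * upD v ≤ upN v := by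
  cases v with
  | X a b => exact h.2.le
  | I a b c d => exact h.2.2.2.le

theorem lo_le {v : Iv} {x : ℝ} (h : In v x) : (loN v : ℝ) ≤ x * loD v := by
  cases v with
  | X a b => exact h.2.ge
  | I a b c d => exact h.2.2.1.le

theorem sm_eq (f : Iv → ℕ) (B : List Iv) : sm f B = (B.map f).sum := by
  induction B with
  | nil => rfl
  | cons v B ih => rw [sm, ih, List.map_cons, List.sum_cons]

theorem forall₂_map {f : Iv → ℕ} {Q : Iv → ℝ → Prop} {S : ℕ → ℝ → Prop}
    (h : ∀ v x, Q v x → S (f v) x) {B : List Iv} {xs : List ℝ} (hB : List.Forall₂ Q B xs) :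
    List.Forall₂ S (B.map f) xs := by
  induction hB with
  | nil => exact List.Forall₂.nil
  | cons h1 _ ih => exact List.Forall₂.cons (h _ _ h1) ih

theorem forall₂_and {B : List Iv} {xs : List ℝ} (hB : List.Forall₂ In B xs)
    (hpos : ∀ x ∈ xs, 0 < x) : List.Forall₂ (fun v x => In v x ∧ 0 < x) B xs := by
  induction hB with
  | nil => exact List.Forall₂.nil
  | cons h1 _ ih =>
    exact List.Forall₂.cons ⟨h1, hpos _ (by simp)⟩ (ih fun x hx => hpos x (by simp [hx]))

/-- The sum of the upper ends. -/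
theorem sum_up {B : List Iv} {xs : List ℝ} (hB : List.Forall₂ In B xs) :
    0 < dn B ∧ xs.sum * dn B ≤ nm B := by
  induction hB with
  | nil => simp [dn, nm]
  | @cons v x B xs h1 _ ih =>
    obtain ⟨h2, h3⟩ := ih
    have hu := upD_pos h1
    refine ⟨Nat.mul_pos hu h2, ?_⟩
    have hu' : (0 : ℝ) < upD v := by exact_mod_cast hu
    have h2' : (0 : ℝ) < dn B := by exact_mod_cast h2
    have h4 := le_up h1
    rw [List.sum_cons, dn, nm]
    push_cast
    have h5 : x * upD v * dn B ≤ upN v * dn B := mul_le_mul_of_nonneg_right h4 h2'.le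
    have h6 : (upD v : ℝ) * (xs.sum * dn B) ≤ upD v * nm B := mul_le_mul_of_nonneg_left h3 hu'.le
    nlinarith

/-- Each coordinate is bounded below by the sum and the upper ends of the others. -/
theorem others {B : List Iv} {xs : List ℝ} (hB : List.Forall₂ (fun v x => In v x ∧ 0 < x) B xs) :
    ∀ T : ℝ, (nm B : ℝ) / dn B - xs.sum ≤ T →
      List.Forall₂ (fun v x => (In v x ∧ 0 < x) ∧ (upN v : ℝ) / upD v - x ≤ T) B xs := by
  induction hB with
  | nil => exact fun _ _ => List.Forall₂.nil
  | @cons v x B xs h1 h0 ih =>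
    intro T hT
    have hB' : List.Forall₂ In B xs := h0.imp fun _ _ h => h.1
    obtain ⟨h2, h3⟩ := sum_up hB'
    have hu := upD_pos h1.1
    have hu' : (0 : ℝ) < upD v := by exact_mod_cast hu
    have h2' : (0 : ℝ) < dn B := by exact_mod_cast h2
    have h4 := le_up h1.1
    have e1 : ((nm (v :: B) : ℕ) : ℝ) / (dn (v :: B) : ℕ) =
        (upN v : ℝ) / upD v + (nm B : ℝ) / dn B := by
      rw [dn, nm]
      push_cast
      field_simp
    rw [e1, List.sum_cons] at hT
    have h5 : x ≤ (upN v : ℝ) / upD v := by rw [le_div_iff₀ hu']; exact h4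
    have h6 : xs.sum ≤ (nm B : ℝ) / dn B := by rw [le_div_iff₀ h2']; exact h3
    exact List.Forall₂.cons ⟨h1, by linarith⟩ (ih T (by linarith))

theorem mx_lt {a b : ℕ} {y : ℝ} (ha : (a : ℝ) < y) (hb : (b : ℝ) < y) : (mx a b : ℝ) < y := by
  unfold mx
  cases Nat.ble a b
  · exact ha
  · exact hb

theorem lowT_lt {l K N D : ℕ} {T : ℝ} (hK : 1 ≤ K) (hl : 1 ≤ l) (hD : 0 < D)
    (hT : T < (N : ℝ) / D - l + 1 / K) {v : Iv} {x : ℝ} (h : In v x) (hx : 0 < x)
    (hT' : (upN v : ℝ) / upD v - x ≤ T) {k : ℕ} (hk : 1 ≤ k) :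
    (lowT l K k N D v : ℝ) < k * x := by
  have h0 := low_lt h hx hk
  cases v with
  | X a b => exact h0
  | I a b c d =>
    refine mx_lt h0 ?_
    obtain ⟨hb, hd, h1, h2⟩ := h
    have hk' : (1 : ℝ) ≤ k := by exact_mod_cast hk
    have hd' : (0 : ℝ) < d := by exact_mod_cast hd
    have hD' : (0 : ℝ) < D := by exact_mod_cast hD
    have hK' : (0 : ℝ) < K := by exact_mod_cast hK
    have hlK : 1 ≤ l * K := Nat.mul_pos hl hK
    obtain ⟨A, hA⟩ : ∃ A, A = (l * K - 1) * (d * D) + K * (c * D) := ⟨_, rfl⟩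
    rw [← hA]
    rcases Nat.le_total A (K * (d * N)) with h3 | h3
    · rw [Nat.sub_eq_zero_of_le h3, mul_zero, Nat.zero_div]
      push_cast
      positivity
    · have h4 : (k * (A - K * (d * N)) / (K * (d * D)) : ℕ) * (K * (d * D)) ≤
          k * (A - K * (d * N)) := Nat.div_mul_le_self _ _
      have h5 : (((k * (A - K * (d * N)) / (K * (d * D)) : ℕ) : ℝ)) * (K * (d * D)) ≤
          k * ((A : ℝ) - K * (d * N)) := by
        have h6 : (((k * (A - K * (d * N)) / (K * (d * D)) : ℕ) * (K * (d * D)) : ℕ) : ℝ) ≤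
          ((k * (A - K * (d * N)) : ℕ) : ℝ) := by exact_mod_cast h4
        rw [Nat.cast_mul, Nat.cast_mul k, Nat.cast_sub h3] at h6
        push_cast at h6 ⊢
        exact h6
      have hA' : (A : ℝ) = (l * K - 1) * (d * D) + K * (c * D) := by
        rw [hA]
        push_cast [Nat.cast_sub hlK]
        ring
      have h7 : (A : ℝ) - K * (d * N) = K * (d * D) * (l - 1 / K + c / d - N / D) := by
        rw [hA']
        field_simp
      have h8 : (l : ℝ) - 1 / K + c / d - N / D < x := by
        have h9 : (upN (Iv.I a b c d) : ℝ) / upD (Iv.I a b c d) = (c : ℝ) / d := rfl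
        rw [h9] at hT'
        linarith
      have hP : (0 : ℝ) < K * (d * D) := by positivity
      rw [h7] at h5
      have h10 : (k : ℝ) * (K * (d * D) * (l - 1 / K + c / d - N / D)) <
          (k * x) * (K * (d * D)) := by
        have h11 : (k : ℝ) * (K * (d * D)) * (l - 1 / K + c / d - N / D) <
          k * (K * (d * D)) * x := mul_lt_mul_of_pos_left h8 (by positivity)
        linarith
      exact lt_of_mul_lt_mul_right (h5.trans_lt h10) hP.le

/-- The order. -/
theorem ob_false {xs : List ℝ} (hs : xs.Pairwise (fun x y => y ≤ x)) {B : List Iv}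
    (hB : List.Forall₂ In B xs) : ∀ i : ℕ, ob i B = true → False := by
  induction hB with
  | nil =>
    intro i h
    cases i <;> simp [ob] at h
  | @cons v x B xs h1 h0 ih =>
    intro i h
    cases i with
    | succ i => exact ih (List.pairwise_cons.1 hs).2 i h
    | zero =>
      cases h0 with
      | nil => simp [ob] at h
      | @cons w y B xs h2 h3 =>
        have hxy : y ≤ x := (List.pairwise_cons.1 hs).1 y (by simp)
        have hu : (0 : ℝ) < upD v := by exact_mod_cast upD_pos h1
        have hl : (0 : ℝ) < loD w := by exact_mod_cast loD_pos h2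
        have h4 := le_up h1
        have h5 := lo_le h2
        have h6 : (loN w : ℝ) * upD v ≤ y * loD w * upD v := mul_le_mul_of_nonneg_right h5 hu.le
        have h7 : x * upD v * loD w ≤ upN v * loD w := mul_le_mul_of_nonneg_right h4 hl.le
        have h8 : y * (loD w * upD v) ≤ x * (loD w * upD v) :=
          mul_le_mul_of_nonneg_right hxy (mul_pos hl hu).le
        simp only [ob, Bool.or_eq_true, Bool.and_eq_true, Nat.blt_eq, Nat.ble_eq] at h
        rcases h with h | ⟨h, h'⟩
        · have h9 : (upN v : ℝ) * loD w < loN w * upD v := by exact_mod_cast h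
          linarith
        · have h9 : (upN v : ℝ) * loD w ≤ loN w * upD v := by exact_mod_cast h
          have h10 : (loN w : ℝ) * upD v < upN v * loD w := by
            cases v with
            | I a b c d =>
              have h11 : x * upD (Iv.I a b c d) < upN (Iv.I a b c d) := h1.2.2.2
              have h12 := mul_lt_mul_of_pos_right h11 hl
              linarith
            | X a b =>
              cases w with
              | X a' b' => simp [opn] at h'
              | I a' b' c' d' =>
                have h11 : (loN (Iv.I a' b' c' d') : ℝ) < y * loD (Iv.I a' b' c' d') := h2.2.2.1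
                have h12 := mul_lt_mul_of_pos_right h11 hu
                linarith
          linarith

theorem isI_fract {m : ℕ} {v : Iv} {x : ℝ} (h : In v x) (hv : isI m v = true) :
    Int.fract ((m : ℝ) * x) = 0 := by
  cases v with
  | I a b c d => simp [isI] at hv
  | X a b =>
    obtain ⟨hb, he⟩ := h
    simp only [isI, Nat.beq_eq] at hv
    have hb' : (b : ℝ) ≠ 0 := by
      have : (0 : ℝ) < b := by exact_mod_cast hb
      exact this.ne'
    obtain ⟨c, hc⟩ := Nat.dvd_of_mod_eq_zero hv
    have h1 : (m : ℝ) * x = (c : ℤ) := by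
      have h2 : (m : ℝ) * a = b * c := by exact_mod_cast hc
      rw [← he] at h2
      have h3 : (b : ℝ) * (m * x) = b * c := by linarith
      have h4 := mul_left_cancel₀ hb' h3
      rw [h4]
      push_cast
      rfl
    rw [h1, Int.fract_intCast]

theorem noI_fract {m : ℕ} (hm : 1 ≤ m) {v : Iv} {x : ℝ} (h : In v x) (hx : 0 < x)
    (hv : noI m v = true) : Int.fract ((m : ℝ) * x) ≠ 0 := by
  intro h0
  obtain ⟨z, hz⟩ := Int.fract_eq_zero_iff.1 h0
  have hm' : (0 : ℝ) < m := by exact_mod_cast hm
  have hz0 : (0 : ℝ) < z := by rw [hz]; positivity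
  have hz1 : 0 < z := by exact_mod_cast hz0
  obtain ⟨c, rfl⟩ : ∃ c : ℕ, z = c := ⟨z.toNat, (Int.toNat_of_nonneg hz1.le).symm⟩
  rw [Int.cast_natCast] at hz
  cases v with
  | X a b =>
    obtain ⟨hb, he⟩ := h
    simp only [noI, Nat.blt_eq] at hv
    have h1 : m * a = c * b := by
      have h2 : (m : ℝ) * a = c * b := by rw [hz, ← he]; ring
      exact_mod_cast h2
    rw [h1, Nat.mul_mod_left] at hv
    exact lt_irrefl _ hv
  | I a b c' d =>
    obtain ⟨hb, hd, h1, h2⟩ := h
    simp only [noI, Nat.ble_eq] at hv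
    have hb' : (0 : ℝ) < b := by exact_mod_cast hb
    have hd' : (0 : ℝ) < d := by exact_mod_cast hd
    have h3 : m * a < c * b := by
      have h4 : (m : ℝ) * a < c * b := by
        rw [hz]
        have := mul_lt_mul_of_pos_left h1 hm'
        linarith
      exact_mod_cast h4
    have h5 : c * d < m * c' := by
      have h6 : (c : ℝ) * d < m * c' := by
        rw [hz]
        have := mul_lt_mul_of_pos_left h2 hm'
        linarith
      exact_mod_cast h6
    have h7 : m * a / b < c := (Nat.div_lt_iff_lt_mul hb).2 h3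
    have h8 : (m * a / b + 1) * d ≤ c * d := Nat.mul_le_mul_right d h7
    omega

theorem al_forall {f : Iv → Bool} {B : List Iv} {xs : List ℝ} {Q : ℝ → Prop}
    (hB : List.Forall₂ In B xs) (h : ∀ v x, In v x → f v = true → Q x) (ha : al f B = true) :
    ∀ x ∈ xs, Q x := by
  induction hB with
  | nil => simp
  | @cons v x B xs h1 _ ih =>
    simp only [al, Bool.and_eq_true] at ha
    intro y hy
    rcases List.mem_cons.1 hy with rfl | hy
    · exact h _ _ h1 ha.1
    · exact ih ha.2 y hy

theorem rb_false {m : ℕ} (hm : 1 ≤ m) {B : List Iv} {xs : List ℝ} (hB : List.Forall₂ In B xs) :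
    (∀ x ∈ xs, 0 < x) → ∀ ys : List ℝ,
    (∀ y ∈ ys, Int.fract ((m : ℝ) * y) = 0) →
    (∀ (ys' zs : List ℝ) (x : ℝ), ys ++ xs = ys' ++ x :: zs →
      (∀ y ∈ ys', Int.fract ((m : ℝ) * y) = 0) → (∀ z ∈ zs, Int.fract ((m : ℝ) * z) = 0) →
      Int.fract ((m : ℝ) * x) = 0) → ∀ i : ℕ, rb m i B = true → False := by
  induction hB with
  | nil =>
    intro _ ys _ _ i h
    cases i <;> simp [rb] at h
  | @cons v x B xs h1 h0 ih =>
    intro hpos ys hys hR i h
    cases i with
    | zero =>
      simp only [rb, Bool.and_eq_true] at h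
      refine noI_fract hm h1 (hpos x (by simp)) h.1 ?_
      exact hR ys xs x rfl hys (al_forall h0 (fun v x => isI_fract) h.2)
    | succ i =>
      simp only [rb, Bool.and_eq_true] at h
      refine ih (fun x hx => hpos x (by simp [hx])) (ys ++ [x]) ?_ ?_ i h.2
      · intro y hy
        rcases List.mem_append.1 hy with hy | hy
        · exact hys y hy
        · rw [List.mem_singleton.1 hy]
          exact isI_fract h1 h.1
      · intro ys' zs z hz
        exact hR ys' zs z (by rw [← hz, List.append_assoc, List.singleton_append])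

theorem cut {a b c d : ℕ} {x : ℝ} (h : In (Iv.I a b c d) x) {m q : ℕ} (hq : 1 ≤ q) :
    In (Iv.I a b m q) x ∨ In (Iv.X m q) x ∨ In (Iv.I m q c d) x := by
  obtain ⟨hb, hd, h1, h2⟩ := h
  rcases lt_trichotomy (x * q) m with h3 | h3 | h3
  · exact Or.inl ⟨hb, hq, h1, h3⟩
  · exact Or.inr (Or.inl ⟨hq, h3⟩)
  · exact Or.inr (Or.inr ⟨hq, hd, h3, h2⟩)

/-- The checker is sound. -/
theorem sound {l K : ℕ} (hl : 1 ≤ l) (hK : 1 ≤ K) {xs : List ℝ} (hx : Cond l K xs) (t : C) :
    ∀ B : List Iv, List.Forall₂ In B xs → chk l K t B = true → False := by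
  induction t with
  | P k =>
    intro B hB h
    simp only [chk, Bool.and_eq_true, Nat.ble_eq] at h
    have h1 := hx.P k h.1 (B.map (low k))
      (forall₂_map (Q := fun v x => In v x ∧ 0 < x) (fun v x hv => low_lt hv.1 hv.2 (by omega))
        (forall₂_and hB hx.pos))
    rw [← sm_eq] at h1
    omega
  | N k =>
    intro B hB h
    simp only [chk, Bool.and_eq_true, Nat.ble_eq] at h
    have h1 := hx.N k h.1 (B.map (upp k)) (forall₂_map (fun v x hv => lt_upp hv h.1) hB)
    rw [← sm_eq] at h1
    omega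
  | Q k =>
    intro B hB h
    simp only [chk, Bool.and_eq_true, Nat.ble_eq] at h
    obtain ⟨h2, h3⟩ := sum_up hB
    have hK' : (0 : ℝ) < K := by exact_mod_cast hK
    have hT : (nm B : ℝ) / dn B - xs.sum < (nm B : ℝ) / dn B - l + 1 / K := by
      have h4 := hx.lower
      have h5 : (l : ℝ) - 1 / K < xs.sum := by
        have h6 : (K : ℝ) * (l - 1 / K) < K * xs.sum := by
          have : (K : ℝ) * (l - 1 / K) = l * K - 1 := by field_simp
          rw [this]
          exact h4
        exact lt_of_mul_lt_mul_left h6 hK'.le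
      linarith
    have h1 := hx.P k h.1 (B.map (lowT l K k (nm B) (dn B)))
      (forall₂_map (Q := fun v x => (In v x ∧ 0 < x) ∧
        (upN v : ℝ) / upD v - x ≤ (nm B : ℝ) / dn B - xs.sum)
        (fun v x hv => lowT_lt hK hl h2 hT hv.1.1 hv.1.2 hv.2 (by omega))
        (others (forall₂_and hB hx.pos) _ le_rfl))
    rw [← sm_eq] at h1
    omega
  | O i =>
    intro B hB h
    exact ob_false hx.sorted hB i h
  | R i m =>
    intro B hB h
    simp only [chk, Bool.and_eq_true, Nat.ble_eq] at h
    exact rb_false h.1 hB hx.pos [] (by simp) (fun ys zs x he h1 h2 =>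
      hx.R ys zs x m h.1 he h1 h2) i h.2
  | T0 m q s e t hs he ht =>
    intro B hB h
    rcases hB with _ | ⟨h1, hB⟩
    · simp [chk] at h
    rename_i v x B xs
    cases v with
    | X a b => simp [chk] at h
    | I a b c d =>
      simp only [chk, Bool.and_eq_true, Nat.ble_eq] at h
      obtain ⟨e1, e2, e3, e4⟩ := h
      rcases cut h1 e1 with g | g | g
      · exact hs _ (List.Forall₂.cons g hB) e2
      · exact he _ (List.Forall₂.cons g hB) e3
      · exact ht _ (List.Forall₂.cons g hB) e4
  | T1 m q s e t hs he ht =>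
    intro B hB h
    rcases hB with _ | ⟨g0, hB⟩
    · simp [chk] at h
    rcases hB with _ | ⟨h1, hB⟩
    · simp [chk] at h
    rename_i v x B xs
    cases v with
    | X a b => simp [chk] at h
    | I a b c d =>
      simp only [chk, Bool.and_eq_true, Nat.ble_eq] at h
      obtain ⟨e1, e2, e3, e4⟩ := h
      rcases cut h1 e1 with g | g | g
      · exact hs _ (List.Forall₂.cons g0 (List.Forall₂.cons g hB)) e2
      · exact he _ (List.Forall₂.cons g0 (List.Forall₂.cons g hB)) e3
      · exact ht _ (List.Forall₂.cons g0 (List.Forall₂.cons g hB)) e4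
  | T2 m q s e t hs he ht =>
    intro B hB h
    rcases hB with _ | ⟨g0, hB⟩
    · simp [chk] at h
    rcases hB with _ | ⟨g1, hB⟩
    · simp [chk] at h
    rcases hB with _ | ⟨h1, hB⟩
    · simp [chk] at h
    rename_i v x B xs
    cases v with
    | X a b => simp [chk] at h
    | I a b c d =>
      simp only [chk, Bool.and_eq_true, Nat.ble_eq] at h
      obtain ⟨e1, e2, e3, e4⟩ := h
      rcases cut h1 e1 with g | g | g
      · exact hs _ (List.Forall₂.cons g0 (List.Forall₂.cons g1 (List.Forall₂.cons g hB))) e2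
      · exact he _ (List.Forall₂.cons g0 (List.Forall₂.cons g1 (List.Forall₂.cons g hB))) e3
      · exact ht _ (List.Forall₂.cons g0 (List.Forall₂.cons g1 (List.Forall₂.cons g hB))) e4
  | T3 m q s e t hs he ht =>
    intro B hB h
    rcases hB with _ | ⟨g0, hB⟩
    · simp [chk] at h
    rcases hB with _ | ⟨g1, hB⟩
    · simp [chk] at h
    rcases hB with _ | ⟨g2, hB⟩
    · simp [chk] at h
    rcases hB with _ | ⟨h1, hB⟩
    · simp [chk] at h
    rename_i v x B xs
    cases v with
    | X a b => simp [chk] at h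
    | I a b c d =>
      simp only [chk, Bool.and_eq_true, Nat.ble_eq] at h
      obtain ⟨e1, e2, e3, e4⟩ := h
      rcases cut h1 e1 with g | g | g
      · exact hs _ (List.Forall₂.cons g0 (List.Forall₂.cons g1 (List.Forall₂.cons g2 (List.Forall₂.cons g hB)))) e2
      · exact he _ (List.Forall₂.cons g0 (List.Forall₂.cons g1 (List.Forall₂.cons g2 (List.Forall₂.cons g hB)))) e3
      · exact ht _ (List.Forall₂.cons g0 (List.Forall₂.cons g1 (List.Forall₂.cons g2 (List.Forall₂.cons g hB)))) e4
  | T4 m q s e t hs he ht =>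
    intro B hB h
    rcases hB with _ | ⟨g0, hB⟩
    · simp [chk] at h
    rcases hB with _ | ⟨g1, hB⟩
    · simp [chk] at h
    rcases hB with _ | ⟨g2, hB⟩
    · simp [chk] at h
    rcases hB with _ | ⟨g3, hB⟩
    · simp [chk] at h
    rcases hB with _ | ⟨h1, hB⟩
    · simp [chk] at h
    rename_i v x B xs
    cases v with
    | X a b => simp [chk] at h
    | I a b c d =>
      simp only [chk, Bool.and_eq_true, Nat.ble_eq] at h
      obtain ⟨e1, e2, e3, e4⟩ := h
      rcases cut h1 e1 with g | g | g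
      · exact hs _ (List.Forall₂.cons g0 (List.Forall₂.cons g1 (List.Forall₂.cons g2 (List.Forall₂.cons g3 (List.Forall₂.cons g hB))))) e2
      · exact he _ (List.Forall₂.cons g0 (List.Forall₂.cons g1 (List.Forall₂.cons g2 (List.Forall₂.cons g3 (List.Forall₂.cons g hB))))) e3
      · exact ht _ (List.Forall₂.cons g0 (List.Forall₂.cons g1 (List.Forall₂.cons g2 (List.Forall₂.cons g3 (List.Forall₂.cons g hB))))) e4
  | T5 m q s e t hs he ht =>
    intro B hB h
    rcases hB with _ | ⟨g0, hB⟩
    · simp [chk] at h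
    rcases hB with _ | ⟨g1, hB⟩
    · simp [chk] at h
    rcases hB with _ | ⟨g2, hB⟩
    · simp [chk] at h
    rcases hB with _ | ⟨g3, hB⟩
    · simp [chk] at h
    rcases hB with _ | ⟨g4, hB⟩
    · simp [chk] at h
    rcases hB with _ | ⟨h1, hB⟩
    · simp [chk] at h
    rename_i v x B xs
    cases v with
    | X a b => simp [chk] at h
    | I a b c d =>
      simp only [chk, Bool.and_eq_true, Nat.ble_eq] at h
      obtain ⟨e1, e2, e3, e4⟩ := h
      rcases cut h1 e1 with g | g | g
      · exact hs _ (List.Forall₂.cons g0 (List.Forall₂.cons g1 (List.Forall₂.cons g2 (List.Forall₂.cons g3 (List.Forall₂.cons g4 (List.Forall₂.cons g hB)))))) e2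
      · exact he _ (List.Forall₂.cons g0 (List.Forall₂.cons g1 (List.Forall₂.cons g2 (List.Forall₂.cons g3 (List.Forall₂.cons g4 (List.Forall₂.cons g hB)))))) e3
      · exact ht _ (List.Forall₂.cons g0 (List.Forall₂.cons g1 (List.Forall₂.cons g2 (List.Forall₂.cons g3 (List.Forall₂.cons g4 (List.Forall₂.cons g hB)))))) e4

end G5.Bb
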