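import Pool.Agent.G5.St
import Pool.Agent.G5.Snd
import Pool.Agent.G5.CertA
import Pool.Agent.G5.CertB
import Pool.Agent.G5.CertC

set_option autoImplicit false

/-!
# Sharp gaps without boundary at closed points: the six base cases
-/

namespace G5

open Bb

noncomputable section

theorem exists_sorted {n : ℕ} (x : Fin n → ℝ) : ∃ σ : Equiv.Perm (Fin n), Antitone (x ∘ σ) := by
  refine ⟨Tuple.sort (fun i => - x i), ?_⟩
  intro i j hij
  have h := Tuple.monotone_sort (fun i => - x i) hij
  simp only [Function.comp] at h ⊢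
  linarith

theorem CPt.perm {m l : ℕ} {x : Fin m → ℝ} (h : CPt l x) (σ : Equiv.Perm (Fin m)) :
    CPt l (x ∘ σ) := by
  refine ⟨fun i => h.pos _, fun i => h.le _, ?_, fun k => ?_, fun i k hk => ?_⟩
  · rw [show ∑ i, (x ∘ σ) i = ∑ i, x i from Equiv.sum_comp σ x]
    exact h.lt
  · rw [show ∑ i, (x ∘ σ) i = ∑ i, x i from Equiv.sum_comp σ x,
      show ∑ i, thr (k * (x ∘ σ) i) = ∑ i, thr (k * x i) from
        Equiv.sum_comp σ (fun i => thr (k * x i))]
    exact h.min k
  · refine h.refl (σ i) k fun j hj => ?_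
    have h1 := hk (σ.symm j) (by
      rintro rfl
      exact hj (by simp))
    simpa using h1

theorem sum_P {k : ℕ} {F : List ℕ} {xs : List ℝ}
    (h : List.Forall₂ (fun (f : ℕ) (x : ℝ) => (f : ℝ) < k * x) F xs) :
    ((F.sum : ℕ) : ℝ) ≤ k * xs.sum - (xs.map fun x => thr ((k : ℤ) * x)).sum := by
  induction h with
  | nil => simp
  | @cons f x F xs h1 _ ih =>
    have h2 : (f : ℝ) ≤ k * x - thr ((k : ℤ) * x) := by
      unfold thr
      have h3 : ((f : ℤ) : ℝ) < ((k : ℤ) : ℝ) * x := by
        push_cast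
        exact h1
      have h4 : (f : ℤ) < ⌈((k : ℤ) : ℝ) * x⌉ := Int.lt_ceil.2 h3
      have h5 : ((f : ℤ) : ℝ) + 1 ≤ (⌈((k : ℤ) : ℝ) * x⌉ : ℝ) := by exact_mod_cast h4
      push_cast at h5 ⊢
      linarith
    rw [List.sum_cons, List.sum_cons, List.map_cons, List.sum_cons]
    push_cast at ih h2 ⊢
    linarith

theorem sum_N {k : ℕ} {F : List ℕ} {xs : List ℝ}
    (h : List.Forall₂ (fun (f : ℕ) (x : ℝ) => (k : ℝ) * x < (f : ℝ)) F xs) :
    k * xs.sum + (xs.map fun x => thr ((-(k : ℤ) : ℤ) * x)).sum ≤ ((F.sum : ℕ) : ℝ) := by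
  induction h with
  | nil => simp
  | @cons f x F xs h1 _ ih =>
    have h2 : k * x + thr ((-(k : ℤ) : ℤ) * x) ≤ (f : ℝ) := by
      unfold thr
      have h3 : ((k : ℝ) * x) < ((f : ℤ) : ℝ) := by
        push_cast
        exact h1
      have h4 : ⌊(k : ℝ) * x⌋ < (f : ℤ) := Int.floor_lt.2 h3
      have h5 : (⌊(k : ℝ) * x⌋ : ℝ) + 1 ≤ ((f : ℤ) : ℝ) := by exact_mod_cast h4
      have h6 : ((-(k : ℤ) : ℤ) : ℝ) * x = -((k : ℝ) * x) := by
        push_cast
        ring
      rw [h6, Int.ceil_neg]
      push_cast at h5 ⊢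
      linarith
    rw [List.sum_cons, List.sum_cons, List.map_cons, List.sum_cons]
    push_cast at ih h2 ⊢
    linarith

theorem cond_of {m l K : ℕ} (hl : 1 ≤ l) (hK : 1 ≤ K) {x : Fin m → ℝ} (h : CPt l x)
    (hs : Antitone x) (hlow : (l : ℝ) - 1 / K < ∑ i, x i) : Cond l K (List.ofFn x) := by
  have hsum : (List.ofFn x).sum = ∑ i, x i := List.sum_ofFn
  have hthr : ∀ k : ℤ, ((List.ofFn x).map fun y => thr (k * y)).sum = ∑ i, thr (k * x i) := by
    intro k
    rw [List.map_ofFn, List.sum_ofFn]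
    rfl
  have hK' : (0 : ℝ) < K := by exact_mod_cast hK
  have hl' : (1 : ℝ) ≤ l := by exact_mod_cast hl
  have hlK : 1 ≤ l * K := Nat.mul_pos hl hK
  have hlow' : (l : ℝ) * K - 1 < K * ∑ i, x i := by
    have h1 := mul_lt_mul_of_pos_left hlow hK'
    have h2 : (K : ℝ) * (l - 1 / K) = l * K - 1 := by field_simp
    linarith
  refine ⟨?_, ?_, ?_, ?_, ?_, ?_⟩
  · rw [List.pairwise_ofFn]
    exact fun i j hij => hs hij.le
  · intro y hy
    obtain ⟨i, rfl⟩ := (List.mem_ofFn' x y).1 hy
    exact h.pos i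
  · rw [hsum]
    exact hlow'
  · intro k hk F hF
    have h1 := sum_P hF
    rw [hthr, hsum] at h1
    generalize F.sum = s at h1 ⊢
    have h2 := h.min k
    have hk' : (2 : ℝ) ≤ k := by exact_mod_cast hk
    have h3 : (s : ℝ) < l * (k - 1) := by
      have h4 : ((k : ℝ) - 1) * ∑ i, x i < (k - 1) * l :=
        mul_lt_mul_of_pos_left h.lt (by linarith)
      push_cast at h1 h2
      linarith
    have h5 : (s : ℝ) < ((l * (k - 1) : ℕ) : ℝ) := by
      rw [Nat.cast_mul, Nat.cast_sub (by omega)]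
      push_cast
      exact h3
    exact_mod_cast h5
  · intro k hk F hF
    have h1 := sum_N hF
    rw [hthr, hsum] at h1
    generalize F.sum = s at h1 ⊢
    have h2 := h.min (-(k : ℤ))
    have hk' : (1 : ℝ) ≤ k := by exact_mod_cast hk
    have h3 : ((k : ℝ) + 1) * (l * K - 1) < K * (s : ℝ) := by
      have h4 : ((k : ℝ) + 1) * ∑ i, x i ≤ (s : ℝ) := by linarith
      have h5 := mul_le_mul_of_nonneg_left h4 hK'.le
      have h6 : ((k : ℝ) + 1) * (l * K - 1) < (k + 1) * (K * ∑ i, x i) :=
        mul_lt_mul_of_pos_left hlow' (by linarith)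
      linarith
    have h5 : (((k + 1) * (l * K - 1) : ℕ) : ℝ) < ((K * s : ℕ) : ℝ) := by
      rw [Nat.cast_mul, Nat.cast_sub hlK]
      push_cast at h3 ⊢
      exact h3
    exact_mod_cast h5
  · intro ys zs y k hk he hys hzs
    have hlen : ys.length < m := by
      have h1 := congrArg List.length he
      rw [List.length_ofFn] at h1
      simp only [List.length_append, List.length_cons] at h1
      omega
    have hget : ∀ i : Fin m, x i = (ys ++ y :: zs)[(i : ℕ)]'(by
        rw [← he, List.length_ofFn]; exact i.2) := by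
      intro i
      have h1 : (List.ofFn x)[(i : ℕ)]'(by rw [List.length_ofFn]; exact i.2) = x i := by
        rw [List.getElem_ofFn]
      rw [← h1]
      congr 1
    have h1 := h.refl ⟨ys.length, hlen⟩ k (fun j hj => by
      have h2 := hget j
      have hj' : (j : ℕ) ≠ ys.length := fun h3 => hj (Fin.ext h3)
      rcases lt_or_gt_of_ne hj' with h3 | h3
      · rw [List.getElem_append_left h3] at h2
        rw [h2]
        push_cast
        exact hys _ (List.getElem_mem _)
      · rw [List.getElem_append_right h3.le, List.getElem_cons] at h2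
        rw [dif_neg (by omega)] at h2
        rw [h2]
        push_cast
        exact hzs _ (List.getElem_mem _))
    rw [hget] at h1
    simpa using h1

/-- The base cases from the certificates. -/
theorem base_of {m l K : ℕ} (hl : 1 ≤ l) (hK : 1 ≤ K) {t : C}
    (h : chk l K t (List.replicate m (Iv.I 0 1 1 1)) = true) : Base m l K := by
  intro x hx hx1
  by_contra hcon
  push Not at hcon
  obtain ⟨σ, hσ⟩ := exists_sorted x
  have hs : ∑ i, (x ∘ σ) i = ∑ i, x i := Equiv.sum_comp σ x
  have hc := cond_of hl hK (hx.perm σ) hσ (by rw [hs]; exact hcon)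
  refine sound hl hK hc t _ ?_ h
  have : ∀ (k : ℕ) (y : Fin k → ℝ), (∀ i, 0 < y i ∧ y i < 1) →
      List.Forall₂ In (List.replicate k (Iv.I 0 1 1 1)) (List.ofFn y) := by
    intro k
    induction k with
    | zero => intro y _; simp
    | succ k ih =>
      intro y hy
      rw [List.replicate_succ, List.ofFn_succ]
      refine List.Forall₂.cons ⟨one_pos, one_pos, ?_, ?_⟩ (ih _ fun i => hy _)
      · simpa using (hy 0).1
      · simpa using (hy 0).2
  exact this m _ fun i => ⟨hx.pos _, hx1 _⟩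

theorem base21 : Base 2 1 3 := base_of (by norm_num) (by norm_num) Cert.ok21

theorem base31 : Base 3 1 26 := base_of (by norm_num) (by norm_num) Cert.ok31

theorem base42 : Base 4 2 26 := base_of (by norm_num) (by norm_num) Cert.ok42

theorem base63 : Base 6 3 1518 := base_of (by norm_num) (by norm_num) Cert.ok63

theorem base52 : Base 5 2 1518 := base_of (by norm_num) (by norm_num) Cert.ok52

theorem base41 : Base 4 1 1518 := base_of (by norm_num) (by norm_num) Cert.ok41

end

end G5
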