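import Mathlib

set_option autoImplicit false

/-!
# Sharp gaps without boundary at closed points: the branch and bound checker

A list of real numbers `x₁ ≥ x₂ ≥ … > 0` with `l - 1/K < ∑ x_i < l` such that
`∑ (⌈k x_i⌉ - 1) < l (k - 1)` for `k ≥ 2`, `K ∑ (⌊k x_i⌋ + 1) > (k + 1) (l K - 1)` for `k ≥ 1`, and
such that no multiple is integral in all coordinates but one. A tree of boxes with rational walls,
checked by the kernel, shows that there are no such numbers.
-/

namespace G5.Bb

/-- An exact value `a / b` or an open interval `(a / b, c / d)`. -/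
inductive Iv : Type
  /-- the value `a / b` -/
  | X (a b : ℕ) : Iv
  /-- the interval `(a / b, c / d)` -/
  | I (a b c d : ℕ) : Iv

/-- A certificate. -/
inductive C : Type
  /-- the sum of the lower bounds of the `⌈k x⌉ - 1` is at least `l (k - 1)` -/
  | P (k : ℕ) : C
  /-- the sum of the upper bounds of the `⌊k x⌋ + 1` is at most `(k + 1) (l - 1/K)` -/
  | N (k : ℕ) : C
  /-- as `P`, the bounds are improved by the condition on the sum -/
  | Q (k : ℕ) : C
  /-- the intervals of the indices `i`, `i + 1` are in the wrong order -/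
  | O (i : ℕ) : C
  /-- `m` times the coordinates are integral except for the index `i` -/
  | R (i m : ℕ) : C
  /-- cut the first interval at `m / q` -/
  | T0 (m q : ℕ) (s e t : C) : C
  /-- cut the second interval at `m / q` -/
  | T1 (m q : ℕ) (s e t : C) : C
  /-- cut the third interval at `m / q` -/
  | T2 (m q : ℕ) (s e t : C) : C
  /-- cut the fourth interval at `m / q` -/
  | T3 (m q : ℕ) (s e t : C) : C
  /-- cut the fifth interval at `m / q` -/
  | T4 (m q : ℕ) (s e t : C) : C
  /-- cut the sixth interval at `m / q` -/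
  | T5 (m q : ℕ) (s e t : C) : C

/-- The lower bound of `⌈k x⌉ - 1`. -/
def low (k : ℕ) : Iv → ℕ
  | Iv.X a b => (k * a - 1) / b
  | Iv.I a b _ _ => k * a / b

/-- The upper bound of `⌊k x⌋ + 1`. -/
def upp (k : ℕ) : Iv → ℕ
  | Iv.X a b => k * a / b + 1
  | Iv.I _ _ c d => (k * c + (d - 1)) / d

/-- The sum of the values. -/
def sm (f : Iv → ℕ) : List Iv → ℕ
  | [] => 0
  | v :: B => f v + sm f B

/-- The numerator of the upper end. -/
def upN : Iv → ℕ
  | Iv.X a _ => a
  | Iv.I _ _ c _ => c

/-- The denominator of the upper end. -/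
def upD : Iv → ℕ
  | Iv.X _ b => b
  | Iv.I _ _ _ d => d

/-- The numerator of the lower end. -/
def loN : Iv → ℕ
  | Iv.X a _ => a
  | Iv.I a _ _ _ => a

/-- The denominator of the lower end. -/
def loD : Iv → ℕ
  | Iv.X _ b => b
  | Iv.I _ b _ _ => b

/-- The product of the denominators of the upper ends. -/
def dn : List Iv → ℕ
  | [] => 1
  | v :: B => upD v * dn B

/-- The numerator of the sum of the upper ends. -/
def nm : List Iv → ℕ
  | [] => 0
  | v :: B => upN v * dn B + upD v * nm B

/-- The larger number. -/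
def mx (a b : ℕ) : ℕ := cond (Nat.ble a b) b a

/-- Improved lower bound: `N / D` is the sum of the upper ends. -/
def lowT (l K k N D : ℕ) : Iv → ℕ
  | Iv.X a b => (k * a - 1) / b
  | Iv.I a b c d =>
      mx (k * a / b) (k * ((l * K - 1) * (d * D) + K * (c * D) - K * (d * N)) / (K * (d * D)))

/-- One of the two is an open interval. -/
def opn : Iv → Iv → Bool
  | Iv.X _ _, Iv.X _ _ => false
  | _, _ => true

/-- The intervals `i`, `i + 1` are in the wrong order. -/
def ob : ℕ → List Iv → Bool
  | 0, v :: w :: _ => Nat.blt (upN v * loD w) (loN w * upD v) ||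
      (Nat.ble (upN v * loD w) (loN w * upD v) && opn v w)
  | i + 1, _ :: B => ob i B
  | _, _ => false

/-- `m` times the value is an integer. -/
def isI (m : ℕ) : Iv → Bool
  | Iv.X a b => Nat.beq (m * a % b) 0
  | Iv.I _ _ _ _ => false

/-- `m` times the value is never an integer. -/
def noI (m : ℕ) : Iv → Bool
  | Iv.X a b => Nat.blt 0 (m * a % b)
  | Iv.I a b c d => Nat.ble (m * c) ((m * a / b + 1) * d)

/-- all values -/
def al (f : Iv → Bool) : List Iv → Bool
  | [] => true
  | v :: B => f v && al f B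

/-- The condition `R`. -/
def rb (m : ℕ) : ℕ → List Iv → Bool
  | 0, v :: B => noI m v && al (isI m) B
  | i + 1, v :: B => isI m v && rb m i B
  | _, [] => false

/-- The checker. -/
def chk (l K : ℕ) : C → List Iv → Bool
  | C.P k, B => Nat.ble 2 k && Nat.ble (l * (k - 1)) (sm (low k) B)
  | C.N k, B => Nat.ble 1 k && Nat.ble (K * sm (upp k) B) ((k + 1) * (l * K - 1))
  | C.Q k, B => Nat.ble 2 k &&
      Nat.ble (l * (k - 1)) (sm (lowT l K k (nm B) (dn B)) B)
  | C.O i, B => ob i B
  | C.R i m, B => Nat.ble 1 m && rb m i B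
  | C.T0 m q s e t, Iv.I a b c d :: B =>
      Nat.ble 1 q && (chk l K s (Iv.I a b m q :: B) && (chk l K e (Iv.X m q :: B) &&
        chk l K t (Iv.I m q c d :: B)))
  | C.T1 m q s e t, v :: Iv.I a b c d :: B =>
      Nat.ble 1 q && (chk l K s (v :: Iv.I a b m q :: B) && (chk l K e (v :: Iv.X m q :: B) &&
        chk l K t (v :: Iv.I m q c d :: B)))
  | C.T2 m q s e t, v :: w :: Iv.I a b c d :: B =>
      Nat.ble 1 q && (chk l K s (v :: w :: Iv.I a b m q :: B) &&
        (chk l K e (v :: w :: Iv.X m q :: B) && chk l K t (v :: w :: Iv.I m q c d :: B)))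
  | C.T3 m q s e t, v :: w :: x :: Iv.I a b c d :: B =>
      Nat.ble 1 q && (chk l K s (v :: w :: x :: Iv.I a b m q :: B) &&
        (chk l K e (v :: w :: x :: Iv.X m q :: B) && chk l K t (v :: w :: x :: Iv.I m q c d :: B)))
  | C.T4 m q s e t, v :: w :: x :: y :: Iv.I a b c d :: B =>
      Nat.ble 1 q && (chk l K s (v :: w :: x :: y :: Iv.I a b m q :: B) &&
        (chk l K e (v :: w :: x :: y :: Iv.X m q :: B) &&
          chk l K t (v :: w :: x :: y :: Iv.I m q c d :: B)))
  | C.T5 m q s e t, v :: w :: x :: y :: z :: Iv.I a b c d :: B =>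
      Nat.ble 1 q && (chk l K s (v :: w :: x :: y :: z :: Iv.I a b m q :: B) &&
        (chk l K e (v :: w :: x :: y :: z :: Iv.X m q :: B) &&
          chk l K t (v :: w :: x :: y :: z :: Iv.I m q c d :: B)))
  | _, _ => false

end G5.Bb
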