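import Pool.Agent.G5.St

/-!
# EXG: cyclic groups of diagonal matrices
-/

namespace G5

open Finset Matrix Pool.Agent.Mld MldGap

theorem th_std {h : ℕ} [NeZero h] (t : ℕ) :
    th (ZMod.stdAddChar ((t : ℕ) : ZMod h) : ℂ) = (res h t : ℝ) / h := by
  have hh : (0 : ℝ) < h := by exact_mod_cast NeZero.pos h
  rw [th_eq_fr, Mk.fr_std, ZMod.val_natCast]
  unfold res
  by_cases ht : t % h = 0
  · rw [if_pos ht, if_pos (by rw [ht]; simp), div_self hh.ne']
  · rw [if_neg ht, if_neg]
    have h3 : (0 : ℝ) < ((t % h : ℕ) : ℝ) := by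
      exact_mod_cast Nat.pos_of_ne_zero ht
    have : (0 : ℝ) < ((t % h : ℕ) : ℝ) / h := by positivity
    exact this.ne'

theorem dg_apply {n m : ℕ} [NeZero m] (f : Fin n → ZMod m) (i j : Fin n) :
    ((Mk.dg f : GL (Fin n) ℂ) : Matrix (Fin n) (Fin n) ℂ) i j =
      if i = j then (ZMod.stdAddChar (f i) : ℂ) else 0 := by
  change (Matrix.diagonal fun i => (ZMod.stdAddChar (f i) : ℂ)) i j = _
  rw [Matrix.diagonal_apply]

theorem t_EXG : Stmt_EXG := by
  intro n h w a hh hmin hsum href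
  classical
  have : NeZero h := ⟨hh.ne'⟩
  have hr0 : (0 : ℝ) < h := by exact_mod_cast hh
  let f : Fin n → ZMod h := fun i => (w i : ZMod h)
  set g := Mk.dg f with hg
  have hgk : ∀ k : ℕ, g ^ k = Mk.dg fun i => (k : ZMod h) * f i := fun k => by
    rw [hg, Mk.dg_pow]
  have hcast : ∀ (k : ℕ) (i : Fin n), (k : ZMod h) * f i = ((k * w i : ℕ) : ZMod h) := by
    intro k i
    simp [f]
  have hzero : ∀ (k : ℕ) (i : Fin n), (k : ZMod h) * f i = 0 ↔ h ∣ k * w i := by
    intro k i
    rw [hcast, ZMod.natCast_eq_zero_iff]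
  have hage : ∀ k : ℕ, logAge (g ^ k) = ((∑ i, res h (k * w i) : ℕ) : ℝ) / h := by
    intro k
    rw [hgk, logAge_eq, Mk.eig_dg, Multiset.map_map]
    show ∑ i : Fin n, th (ZMod.stdAddChar ((k : ZMod h) * f i) : ℂ) = _
    rw [sum_congr rfl fun i _ => by rw [hcast, th_std], ← sum_div]
    push_cast
    rfl
  have hgr : g ^ h = 1 := by
    rw [hgk, Mk.dg_eq_one_iff]
    intro i
    simp
  have hfo : IsOfFinOrder g := isOfFinOrder_iff_pow_eq_one.2 ⟨h, hh, hgr⟩
  have hage1 : logAge g = (a : ℝ) / h := by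
    have h1 := hage 1
    rw [pow_one] at h1
    rw [h1]
    simp only [one_mul]
    rw [hsum]
  refine ⟨Subgroup.zpowers g, hfo.finite_zpowers, ?_, ?_, ?_⟩
  · intro x hx c d hcd
    obtain ⟨k, rfl⟩ := (hfo.mem_powers_iff_mem_zpowers).2 hx
    simp only at hcd ⊢
    rw [hgk] at hcd ⊢
    rw [Mk.dg_eq_one_iff]
    intro i
    by_contra hi
    have h1 : (ZMod.stdAddChar ((k : ZMod h) * f i) : ℂ) ≠ 1 := by
      intro h3
      rw [← AddChar.map_zero_eq_one (ZMod.stdAddChar (N := h))] at h3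
      exact hi (ZMod.injective_stdAddChar h3)
    have h2 : c i * d i ≠ 0 := by
      intro h3
      have h4 := hcd i i
      rw [dg_apply, if_pos rfl, Matrix.one_apply_eq, h3, add_zero] at h4
      exact h1 h4
    have h3 : ∀ j, j ≠ i → h ∣ k * w j := by
      intro j hj
      have h4 := hcd i j
      rw [dg_apply, if_neg (Ne.symm hj), Matrix.one_apply_ne (Ne.symm hj), zero_add] at h4
      have h5 : d j = 0 := by
        rcases mul_eq_zero.1 h4.symm with h6 | h6
        · exact absurd (by rw [h6, zero_mul]) h2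
        · exact h6
      have h6 := hcd j j
      rw [dg_apply, if_pos rfl, Matrix.one_apply_eq, h5, mul_zero, add_zero] at h6
      rw [← AddChar.map_zero_eq_one (ZMod.stdAddChar (N := h))] at h6
      exact (hzero k j).1 (ZMod.injective_stdAddChar h6)
    exact hi ((hzero k i).2 (href k i h3))
  · intro x hx i j hij
    obtain ⟨k, rfl⟩ := (hfo.mem_powers_iff_mem_zpowers).2 hx
    simp only
    rw [hgk, dg_apply, if_neg hij]
  · apply le_antisymm
    · exact csInf_le (quot_bddBelow _) ⟨g, Subgroup.mem_zpowers g, hage1⟩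
    · refine le_csInf (quot_nonempty _) ?_
      rintro _ ⟨x, hx, rfl⟩
      obtain ⟨k, rfl⟩ := (hfo.mem_powers_iff_mem_zpowers).2 hx
      show (a : ℝ) / h ≤ logAge (g ^ k)
      rw [hage]
      have h6 : (a : ℝ) ≤ ((∑ i, res h (k * w i) : ℕ) : ℝ) := by exact_mod_cast hmin k
      exact div_le_div_of_nonneg_right h6 hr0.le

end G5
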