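import Pool.Agent.G5.St
import Pool.Agent.MldGap.Level

/-!
# EXN: the weights of the extremal examples
-/

namespace G5

open MldGap Finset
open MldX (freeGap)

namespace EXN

theorem res_pos {h : ℕ} (hh : 0 < h) (t : ℕ) : 1 ≤ res h t := by
  unfold res
  split_ifs with h0
  · exact hh
  · omega

theorem res_modEq (h t : ℕ) : res h t ≡ t [MOD h] := by
  unfold res
  split_ifs with h0
  · unfold Nat.ModEq
    rw [Nat.mod_self, h0]
  · exact Nat.mod_modEq t h

theorem res_mul {P : ℕ} (hP : 0 < P) (s k : ℕ) : res (P * s) (k * P) = P * res s k := by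
  unfold res
  rw [mul_comm k P, Nat.mul_mod_mul_left]
  by_cases h0 : k % s = 0
  · rw [if_pos h0, h0, mul_zero, if_pos rfl]
  · rw [if_neg h0, if_neg (Nat.mul_ne_zero hP.ne' h0)]

theorem res_of_le {h t : ℕ} (h1 : 1 ≤ t) (h2 : t ≤ h) : res h t = t := by
  unfold res
  rcases h2.lt_or_eq with h3 | h3
  · rw [Nat.mod_eq_of_lt h3, if_neg (by omega)]
  · rw [h3, Nat.mod_self, if_pos rfl]

theorem res_zero (h : ℕ) : res h 0 = h := by
  unfold res
  rw [Nat.zero_mod, if_pos rfl]

/-- `L` -/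
def LL (e : ℕ) : ℕ := sylvester e - 1

theorem syl_eq (e : ℕ) : sylvester e = LL e + 1 := by
  have := two_le_sylvester e
  unfold LL
  omega

theorem LL_pos (e : ℕ) : 1 ≤ LL e := by
  have := two_le_sylvester e
  unfold LL
  omega

theorem LL_succ (e : ℕ) : LL (e + 1) = sylvester e * LL e := by
  have h1 : sylvester (e + 1) = sylvester e ^ 2 - sylvester e + 1 := rfl
  unfold LL
  rw [h1, Nat.add_sub_cancel]
  obtain ⟨t, ht⟩ : ∃ t, sylvester e = t + 1 := ⟨LL e, syl_eq e⟩
  rw [ht, Nat.add_sub_cancel]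
  have h2 : (t + 1) ^ 2 = (t + 1) * t + (t + 1) := by ring
  rw [h2, Nat.add_sub_cancel]

theorem s_dvd {i e : ℕ} (h : i < e) : sylvester i ∣ LL e := by
  induction e with
  | zero => omega
  | succ e ih =>
    rw [LL_succ]
    rcases Nat.lt_succ_iff_lt_or_eq.1 h with h1 | h1
    · exact Dvd.dvd.mul_left (ih h1) _
    · rw [h1]
      exact dvd_mul_right _ _

theorem sumQ (e : ℕ) : ∑ i ∈ range e, LL e / sylvester i + 1 = LL e := by
  induction e with
  | zero => rfl
  | succ e ih =>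
    have hs : 0 < sylvester e := by
      have := two_le_sylvester e
      omega
    rw [sum_range_succ, LL_succ, Nat.mul_div_cancel_left _ hs]
    have h1 : ∑ i ∈ range e, sylvester e * LL e / sylvester i =
        sylvester e * ∑ i ∈ range e, LL e / sylvester i := by
      rw [mul_sum]
      exact sum_congr rfl fun i hi => Nat.mul_div_assoc _ (s_dvd (mem_range.1 hi))
    rw [h1]
    have h2 := syl_eq e
    generalize hT : ∑ i ∈ range e, LL e / sylvester i = T at ih ⊢
    rw [add_assoc, ← h2, ← mul_add_one, ih]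

theorem modEq_LL {k : ℕ} (e : ℕ) (h : ∀ i < e, k ≡ 1 [MOD sylvester i]) : k ≡ 1 [MOD LL e] := by
  induction e with
  | zero => exact Nat.modEq_one
  | succ e ih =>
    rw [LL_succ]
    have hc : Nat.Coprime (sylvester e) (LL e) := by
      rw [syl_eq]
      simp
    exact (Nat.modEq_and_modEq_iff_modEq_mul hc).1
      ⟨h e (Nat.lt_succ_self e), ih fun i hi => h i (by omega)⟩

/-- The final contradiction. -/
theorem contra {L M j A B k₀ a' : ℤ} (hL : 1 ≤ L) (hM : M = L ^ 3 + L ^ 2 + 1) (hA : 1 ≤ A)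
    (hB : 1 ≤ B) (hsum : A + B + k₀ = M) (hk : k₀ = 1 + L * j) (hj : 1 ≤ j)
    (ha : a' = L ^ 3 - L + 1) (hd : L * M ∣ A - k₀ * a') : False := by
  obtain ⟨c, hc⟩ := hd
  have hL0 : 0 < L := by omega
  obtain ⟨v, hv⟩ : ∃ v : ℤ, v = -(j * a' + M * c) := ⟨_, rfl⟩
  have hA' : A = a' - L * v := by
    rw [hv, show A = k₀ * a' + L * M * c by rw [← hc]; ring, hk]
    ring
  have hv1 : v ≤ L ^ 2 - 1 := by
    apply le_of_mul_le_mul_left _ hL0
    have : L * (L ^ 2 - 1) = L ^ 3 - L := by ring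
    rw [this]
    omega
  have hB' : B = (L ^ 2 + L - 1) - L * j + L * v := by
    have h1 : B = M - k₀ - A := by rw [← hsum]; ring
    rw [h1, hM, hk, hA', ha]
    ring
  have hv2 : j - L ≤ v := by
    by_contra h0
    have h1 : v ≤ j - L - 1 := by omega
    have h2 : L * v ≤ L * (j - L - 1) := mul_le_mul_of_nonneg_left h1 hL0.le
    have h3 : L * (j - L - 1) = L * j - L ^ 2 - L := by ring
    rw [h3] at h2
    omega
  have hj1 : j < L * (L + 1) := by
    have h1 : L * j < L * (L * (L + 1)) := by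
      have h2 : L * (L * (L + 1)) = L ^ 3 + L ^ 2 := by ring
      rw [h2]
      omega
    exact lt_of_mul_lt_mul_left h1 hL0.le
  obtain ⟨q, hq⟩ : ∃ q : ℤ, q = j / L := ⟨_, rfl⟩
  obtain ⟨r, hr⟩ : ∃ r : ℤ, r = j % L := ⟨_, rfl⟩
  have hr0 : 0 ≤ r := by rw [hr]; exact Int.emod_nonneg _ hL0.ne'
  have hr1 : r < L := by rw [hr]; exact Int.emod_lt_of_pos _ hL0
  have hjq : j = L * q + r := by rw [hq, hr]; exact (Int.mul_ediv_add_emod j L).symm
  have hq0 : 0 ≤ q := by rw [hq]; exact Int.ediv_nonneg (by omega) hL0.le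
  have hq1 : q ≤ L := by
    have h1 : L * q < L * (L + 1) := by omega
    have h2 : q < L + 1 := lt_of_mul_lt_mul_left h1 hL0.le
    omega
  have hD : r * (L ^ 2 + L) - q - v = M * (j + c - q) := by
    have h1 : r = j - L * q := by omega
    rw [hv, h1, ha, hM]
    ring
  have hLL : L ≤ L ^ 2 := by nlinarith
  have hL3 : 0 ≤ L ^ 3 := by positivity
  have hM0 : 0 < M := by
    rw [hM]
    positivity
  have hD1 : r * (L ^ 2 + L) - q - v < M := by
    have h1 : r * (L ^ 2 + L) ≤ (L - 1) * (L ^ 2 + L) :=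
      mul_le_mul_of_nonneg_right (by omega) (by nlinarith)
    have h2 : (L - 1) * (L ^ 2 + L) = L ^ 3 - L := by ring
    rw [h2] at h1
    rw [hM]
    nlinarith
  have hD2 : -M < r * (L ^ 2 + L) - q - v := by
    have h1 : 0 ≤ r * (L ^ 2 + L) := mul_nonneg hr0 (by nlinarith)
    have h2 : L ^ 2 ≤ L ^ 3 := by nlinarith
    rw [hM]
    nlinarith
  rw [hD] at hD1 hD2
  have h1 : j + c - q < 1 := by
    by_contra h0
    have : M * 1 ≤ M * (j + c - q) := mul_le_mul_of_nonneg_left (by omega) hM0.le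
    omega
  have h2 : -1 < j + c - q := by
    by_contra h0
    have : M * (j + c - q) ≤ M * (-1) := mul_le_mul_of_nonneg_left (by omega) hM0.le
    omega
  have h3 : j + c - q = 0 := by omega
  rw [h3, mul_zero] at hD
  have h4 : r = 0 := by
    by_contra h0
    have h5 : 1 ≤ r := by omega
    have h6 : 1 * (L ^ 2 + L) ≤ r * (L ^ 2 + L) := mul_le_mul_of_nonneg_right h5 (by nlinarith)
    omega
  rw [h4, zero_mul] at hD
  have h5 : 1 ≤ q := by
    by_contra h0
    have h6 : q = 0 := by omega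
    rw [h6, h4] at hjq
    omega
  have h6 : L * 1 ≤ L * q := mul_le_mul_of_nonneg_left h5 hL0.le
  omega

/-- The inequality for the first `d + 1` weights. -/
theorem core (e k : ℕ) {M a' b' : ℕ} (hM : M = LL e ^ 3 + LL e ^ 2 + 1)
    (ha : a' + LL e = LL e ^ 3 + 1) (hb : b' + 1 = LL e ^ 2 + LL e) :
    LL e * M ≤ ∑ i ∈ range e, res (LL e * M) (k * (M * (LL e / sylvester i))) +
      res (LL e * M) (k * a') + res (LL e * M) (k * b') + 1 := by
  obtain ⟨L, hLdef⟩ : ∃ L, L = LL e := ⟨_, rfl⟩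
  have hL1 : 1 ≤ L := by rw [hLdef]; exact LL_pos e
  have hdv : ∀ i ∈ range e, sylvester i ∣ L := fun i hi => by
    rw [hLdef]; exact s_dvd (mem_range.1 hi)
  have hQ : ∑ i ∈ range e, L / sylvester i + 1 = L := by rw [hLdef]; exact sumQ e
  have hcrt : (∀ i < e, k ≡ 1 [MOD sylvester i]) → k ≡ 1 [MOD L] := by
    rw [hLdef]; exact modEq_LL e
  rw [← hLdef] at hM ha hb ⊢
  clear hLdef
  have hM0 : 0 < M := by rw [hM]; positivity
  have hh : 0 < L * M := Nat.mul_pos hL1 hM0
  have hQpos : ∀ i ∈ range e, 0 < L / sylvester i := fun i hi =>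
    Nat.div_pos (Nat.le_of_dvd hL1 (hdv i hi)) (by have := two_le_sylvester i; omega)
  have hres : ∀ i ∈ range e, res (L * M) (k * (M * (L / sylvester i))) =
      M * ((L / sylvester i) * res (sylvester i) k) := by
    intro i hi
    have h1 : L * M = M * (L / sylvester i) * sylvester i := by
      rw [mul_assoc, Nat.div_mul_cancel (hdv i hi), mul_comm]
    rw [h1, res_mul (Nat.mul_pos hM0 (hQpos i hi)), mul_assoc]
  obtain ⟨A, hA⟩ : ∃ A, A = res (L * M) (k * a') := ⟨_, rfl⟩
  obtain ⟨B, hB⟩ : ∃ B, B = res (L * M) (k * b') := ⟨_, rfl⟩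
  obtain ⟨R, hR⟩ : ∃ R, R = ∑ i ∈ range e, res (L * M) (k * (M * (L / sylvester i))) := ⟨_, rfl⟩
  have hA1 : 1 ≤ A := by rw [hA]; exact res_pos hh _
  have hB1 : 1 ≤ B := by rw [hB]; exact res_pos hh _
  rw [← hA, ← hB, ← hR]
  by_contra hcon
  -- the sum modulo `h`
  have hmod : (L * M) ∣ R + A + B + k := by
    have h1 : R ≡ ∑ i ∈ range e, k * (M * (L / sylvester i)) [MOD L * M] := by
      rw [hR]
      exact Nat.ModEq.sum fun i _ => res_modEq _ _
    have h2 : A ≡ k * a' [MOD L * M] := by rw [hA]; exact res_modEq _ _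
    have h3 : B ≡ k * b' [MOD L * M] := by rw [hB]; exact res_modEq _ _
    have h4 : ∑ i ∈ range e, k * (M * (L / sylvester i)) + k * a' + k * b' + k = k * (L * M) := by
      rw [← mul_sum, ← mul_sum, ← mul_add, ← mul_add, ← mul_add_one]
      congr 1
      have h5 : a' + b' + 1 = M := by
        rw [hM]
        omega
      calc M * ∑ i ∈ range e, L / sylvester i + a' + b' + 1
          = M * ∑ i ∈ range e, L / sylvester i + (a' + b' + 1) := by ring
        _ = M * (∑ i ∈ range e, L / sylvester i + 1) := by rw [h5]; ring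
        _ = L * M := by rw [hQ]; ring
    have h6 : R + A + B + k ≡ k * (L * M) [MOD L * M] := by
      rw [← h4]
      exact ((h1.add h2).add h3).add_right k
    have h7 : k * (L * M) ≡ 0 [MOD L * M] := (Nat.modEq_zero_iff_dvd).2 (dvd_mul_left _ _)
    exact (Nat.modEq_zero_iff_dvd).1 (h6.trans h7)
  obtain ⟨k₀, hk₀⟩ : ∃ k₀, k₀ = k % (L * M) := ⟨_, rfl⟩
  have hk₀lt : k₀ < L * M := by rw [hk₀]; exact Nat.mod_lt _ hh
  have hk₀m : k₀ ≡ k [MOD L * M] := by rw [hk₀]; exact Nat.mod_modEq _ _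
  have hmod₀ : (L * M) ∣ R + A + B + k₀ :=
    (Nat.modEq_zero_iff_dvd).1 ((Nat.ModEq.add_left _ hk₀m).trans ((Nat.modEq_zero_iff_dvd).2 hmod))
  have hS : R + A + B + k₀ = L * M := by
    obtain ⟨c, hc⟩ := hmod₀
    have h1 : 0 < c := by
      rcases Nat.eq_zero_or_pos c with h0 | h0
      · rw [h0, mul_zero] at hc
        omega
      · exact h0
    have h2 : c < 2 := by
      by_contra h0
      have : L * M * 2 ≤ L * M * c := Nat.mul_le_mul_left _ (by omega)
      omega
    have h3 : c = 1 := by omega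
    rw [hc, h3, mul_one]
  -- all `r i = 1`
  have hR' : R = M * ∑ i ∈ range e, (L / sylvester i) * res (sylvester i) k := by
    rw [hR, mul_sum]
    exact sum_congr rfl hres
  have hle : ∀ i ∈ range e, L / sylvester i ≤ (L / sylvester i) * res (sylvester i) k := by
    intro i _
    exact Nat.le_mul_of_pos_right _ (res_pos (by have := two_le_sylvester i; omega) k)
  have hlt : ∑ i ∈ range e, (L / sylvester i) * res (sylvester i) k < L := by
    have h1 : M * ∑ i ∈ range e, (L / sylvester i) * res (sylvester i) k < M * L := by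
      rw [← hR', mul_comm M L]
      omega
    exact Nat.lt_of_mul_lt_mul_left h1
  have heq : ∑ i ∈ range e, L / sylvester i =
      ∑ i ∈ range e, (L / sylvester i) * res (sylvester i) k := by
    apply le_antisymm (sum_le_sum hle)
    omega
  have hone : ∀ i ∈ range e, res (sylvester i) k = 1 := by
    intro i hi
    have h1 := (sum_eq_sum_iff_of_le hle).1 heq i hi
    have h2 := hQpos i hi
    exact (Nat.eq_of_mul_eq_mul_left h2 (by rw [mul_one]; exact h1)).symm
  have hk1 : k ≡ 1 [MOD L] := by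
    apply hcrt
    intro i hi
    have h1 := res_modEq (sylvester i) k
    rw [hone i (mem_range.2 hi)] at h1
    exact h1.symm
  have hk₀1 : k₀ ≡ 1 [MOD L] := (hk₀m.of_mul_right M).trans hk1
  -- the contradiction
  have hABk : A + B + k₀ = M := by
    have h1 : M * (∑ i ∈ range e, L / sylvester i + 1) = L * M := by rw [hQ, mul_comm]
    rw [← heq] at hR'
    rw [mul_add_one, ← hR'] at h1
    omega
  obtain ⟨j, hj⟩ := (Nat.modEq_iff_dvd.1 hk₀1.symm)
  have hk2 : 2 ≤ k₀ := by omega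
  have hj1 : 1 ≤ j := by
    by_contra h0
    have h1 : (L : ℤ) * j ≤ 0 := mul_nonpos_of_nonneg_of_nonpos (by positivity) (by omega)
    push_cast at hj
    omega
  refine contra (L := L) (M := M) (j := j) (A := A) (B := B) (k₀ := k₀) (a' := a')
    (by exact_mod_cast hL1) (by rw [hM]; push_cast; ring) (by exact_mod_cast hA1)
    (by exact_mod_cast hB1) (by exact_mod_cast hABk) (by push_cast at hj; linarith) hj1 ?_ ?_
  · have h1 : ((a' + L : ℕ) : ℤ) = ((L ^ 3 + 1 : ℕ) : ℤ) := by rw [ha]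
    push_cast at h1
    linarith
  · have h1 : A ≡ k₀ * a' [MOD L * M] := by
      rw [hA]
      exact (res_modEq _ _).trans (hk₀m.symm.mul_right a')
    have h2 := Nat.modEq_iff_dvd.1 h1.symm
    push_cast at h2
    exact h2

theorem coprime_a {L M a' : ℕ} (hM : M = L ^ 3 + L ^ 2 + 1) (ha : a' + L = L ^ 3 + 1) :
    Nat.Coprime (L * M) a' := by
  apply Nat.isCoprime_iff_coprime.1
  have ha' : (a' : ℤ) = (L : ℤ) ^ 3 + 1 - L := by
    have h1 : ((a' + L : ℕ) : ℤ) = ((L ^ 3 + 1 : ℕ) : ℤ) := by rw [ha]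
    push_cast at h1
    linarith
  push_cast
  rw [hM]
  push_cast
  apply IsCoprime.mul_left
  · refine ⟨-((L : ℤ) ^ 2 - 1), 1, ?_⟩
    rw [ha']
    ring
  · refine ⟨-((L : ℤ) - 1), L, ?_⟩
    rw [ha']
    ring

theorem coprime_b {L M b' : ℕ} (hM : M = L ^ 3 + L ^ 2 + 1) (hb : b' + 1 = L ^ 2 + L) :
    Nat.Coprime (L * M) b' := by
  apply Nat.isCoprime_iff_coprime.1
  have hb' : (b' : ℤ) = (L : ℤ) ^ 2 + L - 1 := by
    have h1 : ((b' + 1 : ℕ) : ℤ) = ((L ^ 2 + L : ℕ) : ℤ) := by rw [hb]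
    push_cast at h1
    linarith
  push_cast
  rw [hM]
  push_cast
  refine ⟨1, -((L : ℤ) ^ 2 + 1), ?_⟩
  rw [hb']
  ring

/-- The weights. -/
def W (e M a' b' : ℕ) (i : ℕ) : ℕ :=
  if i < e then M * (LL e / sylvester i) else if i = e then a' else if i = e + 1 then b' else 0

theorem sum_W {β : Type} [AddCommMonoid β] (e l M a' b' : ℕ) (F : ℕ → β) :
    ∑ i : Fin (e + 2 + l), F (W e M a' b' i) =
      ∑ i ∈ range e, F (M * (LL e / sylvester i)) + F a' + F b' + l • F 0 := by
  rw [Fin.sum_univ_eq_sum_range (fun i => F (W e M a' b' i)), sum_range_add, sum_range_succ,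
    sum_range_succ]
  congr 1
  · congr 1
    · congr 1
      · exact sum_congr rfl fun i hi => by rw [W, if_pos (mem_range.1 hi)]
      · rw [W, if_neg (lt_irrefl e), if_pos rfl]
    · rw [W, if_neg (by omega), if_neg (by omega), if_pos rfl]
  · rw [sum_congr rfl (g := fun _ => F 0), sum_const, card_range]
    intro i _
    rw [W, if_neg (by omega), if_neg (by omega), if_neg (by omega)]

/-- The case `l < n`. -/
theorem main (e l : ℕ) : ∃ (h : ℕ) (w : Fin (e + 2 + l) → ℕ) (a : ℕ), 0 < h ∧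
    (∀ k : ℕ, a ≤ ∑ i, res h (k * w i)) ∧ ∑ i, res h (w i) = a ∧
    (∀ (k : ℕ) (i : Fin (e + 2 + l)), (∀ j, j ≠ i → h ∣ k * w j) → h ∣ k * w i) ∧
    (a : ℝ) / h = ((l + 1 : ℕ) : ℝ) - 1 / (freeGap (e + 1) : ℝ) := by
  obtain ⟨M, hM⟩ : ∃ M, M = LL e ^ 3 + LL e ^ 2 + 1 := ⟨_, rfl⟩
  have hL1 := LL_pos e
  have hL3 : LL e ≤ LL e ^ 3 := Nat.le_self_pow three_ne_zero _
  have hL2 : LL e ≤ LL e ^ 2 := Nat.le_self_pow two_ne_zero _
  obtain ⟨a', ha⟩ : ∃ a', a' + LL e = LL e ^ 3 + 1 := ⟨LL e ^ 3 + 1 - LL e, by omega⟩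
  obtain ⟨b', hb⟩ : ∃ b', b' + 1 = LL e ^ 2 + LL e := ⟨LL e ^ 2 + LL e - 1, by omega⟩
  have hM0 : 0 < M := by rw [hM]; positivity
  have hh : 0 < LL e * M := Nat.mul_pos hL1 hM0
  have hMh : M ≤ LL e * M := Nat.le_mul_of_pos_left _ hL1
  have hW1 : ∀ k : ℕ, ∑ i : Fin (e + 2 + l), res (LL e * M) (k * W e M a' b' i) =
      ∑ i ∈ range e, res (LL e * M) (k * (M * (LL e / sylvester i))) +
      res (LL e * M) (k * a') + res (LL e * M) (k * b') + l * (LL e * M) := by
    intro k
    rw [sum_W e l M a' b' (fun t => res (LL e * M) (k * t)), mul_zero, res_zero, smul_eq_mul]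
  refine ⟨LL e * M, fun i => W e M a' b' i, (l + 1) * (LL e * M) - 1, hh, ?_, ?_, ?_, ?_⟩
  · intro k
    rw [hW1]
    have h1 := core e k hM ha hb
    rw [add_mul, one_mul]
    omega
  · have h1 := hW1 1
    simp only [one_mul] at h1
    rw [h1]
    have h2 : ∀ i ∈ range e, res (LL e * M) (M * (LL e / sylvester i)) =
        M * (LL e / sylvester i) := by
      intro i hi
      apply res_of_le
      · exact Nat.mul_pos hM0 (Nat.div_pos (Nat.le_of_dvd hL1 (s_dvd (mem_range.1 hi)))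
          (by have := two_le_sylvester i; omega))
      · rw [mul_comm (LL e) M]
        exact Nat.mul_le_mul_left _ (Nat.div_le_self _ _)
    rw [sum_congr rfl h2, ← mul_sum, res_of_le (by omega) (by omega),
      res_of_le (by omega) (by omega)]
    have h3 : M * (∑ i ∈ range e, LL e / sylvester i + 1) = LL e * M := by
      rw [sumQ, mul_comm]
    rw [mul_add_one] at h3
    rw [add_mul, one_mul]
    omega
  · intro k i hi
    have hk : LL e * M ∣ k := by
      by_cases h0 : i.val = e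
      · have h1 := hi ⟨e + 1, by omega⟩ (by
          intro h2
          rw [← h2] at h0
          simp at h0)
        have h2 : W e M a' b' (e + 1) = b' := by
          rw [W, if_neg (by omega), if_neg (by omega), if_pos rfl]
        simp only [h2] at h1
        exact (coprime_b hM hb).dvd_of_dvd_mul_right h1
      · have h1 := hi ⟨e, by omega⟩ (by
          intro h2
          rw [← h2] at h0
          exact h0 rfl)
        have h2 : W e M a' b' e = a' := by
          rw [W, if_neg (by omega), if_pos rfl]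
        simp only [h2] at h1
        exact (coprime_a hM ha).dvd_of_dvd_mul_right h1
    exact Dvd.dvd.mul_right hk _
  · have h1 : freeGap (e + 1) = LL e * M := by
      rw [hM]
      rfl
    have h2 : ((LL e * M : ℕ) : ℝ) ≠ 0 := by exact_mod_cast hh.ne'
    rw [h1, Nat.cast_sub (by nlinarith)]
    push_cast at h2 ⊢
    field_simp

/-- The case `l = n`. -/
theorem main0 (m : ℕ) : ∃ (h : ℕ) (w : Fin (m + 2) → ℕ) (a : ℕ), 0 < h ∧
    (∀ k : ℕ, a ≤ ∑ i, res h (k * w i)) ∧ ∑ i, res h (w i) = a ∧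
    (∀ (k : ℕ) (i : Fin (m + 2)), (∀ j, j ≠ i → h ∣ k * w j) → h ∣ k * w i) ∧
    (a : ℝ) / h = ((m + 2 : ℕ) : ℝ) - 1 / (freeGap 0 : ℝ) := by
  let w : Fin (m + 2) → ℕ := Fin.cons 1 (Fin.cons 1 fun _ => 0)
  have hw : ∀ F : ℕ → ℕ, ∑ i, F (w i) = F 1 + (F 1 + m * F 0) := by
    intro F
    rw [Fin.sum_univ_succ, Fin.sum_univ_succ]
    simp [w]
  refine ⟨2, w, 2 * m + 2, by norm_num, ?_, ?_, ?_, ?_⟩
  · intro k
    rw [hw (fun t => res 2 (k * t)), mul_zero, res_zero, mul_one]
    have := res_pos (h := 2) (by norm_num) k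
    omega
  · rw [hw (fun t => res 2 t), res_zero, res_of_le (le_refl 1) (by norm_num)]
    omega
  · intro k i hi
    have hk : 2 ∣ k := by
      by_cases h0 : i = 0
      · have h1 := hi 1 (by rw [h0]; simp [Fin.ext_iff])
        have h2 : w 1 = 1 := rfl
        rw [h2, mul_one] at h1
        exact h1
      · have h1 := hi 0 (fun h2 => h0 h2.symm)
        have h2 : w 0 = 1 := rfl
        rw [h2, mul_one] at h1
        exact h1
    exact Dvd.dvd.mul_right hk _
  · have h1 : freeGap 0 = 1 := rfl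
    rw [h1]
    push_cast
    ring

end EXN

/-- EXN: the weights of the extremal examples. -/
theorem t_EXN : Stmt_EXN := by
  intro n l hn hl hln
  rcases hln.eq_or_lt with h0 | h0
  · obtain ⟨m, rfl⟩ : ∃ m, n = m + 2 := ⟨n - 2, by omega⟩
    subst h0
    rw [Nat.sub_self]
    exact EXN.main0 m
  · obtain ⟨l', rfl⟩ : ∃ l', l = l' + 1 := ⟨l - 1, by omega⟩
    obtain ⟨e, rfl⟩ : ∃ e, n = e + 2 + l' := ⟨n - 2 - l', by omega⟩
    rw [show e + 2 + l' - (l' + 1) = e + 1 by omega]
    exact EXN.main e l'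

end G5
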