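import Pool.Agent.G5.St
import Pool.Agent.MldGeo.Closed5

/-!
# G5: without reflections the boundary of the log quotient is zero (NRB; helper28)
-/

namespace G5

open MldGeo MldGap MvPolynomial

noncomputable section

namespace NRB

/-- A linear map which acts trivially modulo `q` is the identity plus a matrix of rank one. -/
theorem rank_one {n : ℕ} (g : GL (Fin n) ℂ) (hg : g ≠ 1) {q : MvPolynomial (Fin n) ℂ}
    (hq : Irreducible q) (h : ∀ i, q ∣ linSubst g (X i) - X i) :
    ∃ c d : Fin n → ℂ, ∀ i j, (g : Matrix (Fin n) (Fin n) ℂ) i j =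
      (1 : Matrix (Fin n) (Fin n) ℂ) i j + c i * d j := by
  have h1 : ∃ i, ((g : Matrix (Fin n) (Fin n) ℂ) - 1) i ≠ 0 := by
    by_contra hcon
    push Not at hcon
    apply hg
    apply Units.ext
    rw [Units.val_one, ← sub_eq_zero]
    funext i
    exact hcon i
  obtain ⟨i0, hi0⟩ := h1
  simp only [UNR.linSubst_sub] at h
  have h2 := fun i => UNR.proportional hq hi0 (h i0) _ (h i)
  choose c hc using h2
  refine ⟨c, ((g : Matrix (Fin n) (Fin n) ℂ) - 1) i0, fun i j => ?_⟩
  have h3 := hc i j
  rw [Matrix.sub_apply] at h3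
  rw [← h3]
  ring

/-- Without reflections the quotient is unramified in codimension one. -/
theorem unram {n : ℕ} {X : Germ n} {G : Subgroup (GL (Fin n) ℂ)} [Finite G]
    {φ : X.R ≃ₐ[ℂ] invariants G} [Algebra X.K (Rat n)] (hQ : QSetup X G φ) (hfree : NoRefl G)
    (q : MvPolynomial (Fin n) ℂ) (hq : Irreducible q) (v : DivVal n X.K) (e : ℕ)
    (he : ∀ a : X.R, a ≠ 0 →
      (multiplicity q (φ a : MvPolynomial (Fin n) ℂ) : ℤ) = e * v.ord a) : e = 1 := by
  obtain ⟨w, hw, -⟩ := c_ORQ q hq
  -- the ramification index is positive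
  have hepos : 0 < e := by
    obtain ⟨a, ha0, hqa⟩ := HTQ.exists_norm G q hq.ne_zero
    have hr : φ.symm a ≠ 0 := by
      intro h
      apply ha0
      have h2 := congrArg φ h
      rw [AlgEquiv.apply_symm_apply, map_zero] at h2
      rw [h2]
      rfl
    have h2 := he (φ.symm a) hr
    rw [AlgEquiv.apply_symm_apply] at h2
    rcases Nat.eq_zero_or_pos e with h3 | h3
    · exfalso
      rw [h3, Nat.cast_zero, zero_mul] at h2
      have h4 : multiplicity q (a : MvPolynomial (Fin n) ℂ) = 0 := by exact_mod_cast h2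
      rw [multiplicity_eq_zero] at h4
      exact h4 hqa
    · exact h3
  -- `w` extends `v`
  have hR : ∀ a : X.R, w.ord (algebraMap X.K (Rat n) a) = e * v.ord a := by
    intro a
    rcases eq_or_ne a 0 with rfl | ha
    · rw [show ((0 : X.R) : X.K) = 0 from rfl, map_zero, w.ord_zero, v.ord_zero, mul_zero]
    · rw [hQ.map a, ← he a ha]
      apply hw
      intro h
      apply ha
      have h3 : φ a = 0 := Subtype.ext h
      rw [← φ.symm_apply_apply a, h3, map_zero]
  have hext : IsExt w v e := by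
    refine ⟨hepos, fun a => ?_⟩
    rcases eq_or_ne a 0 with rfl | ha
    · rw [map_zero, w.ord_zero, v.ord_zero, mul_zero]
    · obtain ⟨r, hr, s, hs, hs0, hrs⟩ := X.frac a
      have hinj : Function.Injective (algebraMap X.K (Rat n)) := (algebraMap X.K (Rat n)).injective
      have h3 : w.ord (algebraMap X.K (Rat n) r) = e * v.ord r := hR ⟨r, hr⟩
      have h4 : w.ord (algebraMap X.K (Rat n) s) = e * v.ord s := hR ⟨s, hs⟩
      rw [← hrs, map_mul, w.ord_mul _ _ ((map_ne_zero_iff _ hinj).mpr ha)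
        ((map_ne_zero_iff _ hinj).mpr hs0), v.ord_mul _ _ ha hs0, h4, mul_add] at h3
      omega
  have := hQ.tower
  have := hQ.fin
  have := hQ.gal
  obtain ⟨σ, hσ1, hσ2⟩ := t_INE w v e hext
  obtain ⟨g, hgG, hg⟩ := hQ.act σ
  by_contra hne
  have he2 : 1 < e := by omega
  -- `g` acts trivially modulo `q`
  have htriv : ∀ p : MvPolynomial (Fin n) ℂ, q ∣ linSubst g p - p := by
    intro p
    rcases eq_or_ne p 0 with rfl | hp
    · rw [map_zero, sub_zero]; exact dvd_zero _
    by_cases hqp : q ∣ p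
    · refine dvd_sub ?_ hqp
      have hp' : linSubst g p ≠ 0 := fun h => hp (HTQ.linSubst_injective g (by rw [h, map_zero]))
      have h3 := hσ1 (pol p)
      rw [hg, hw _ hp', hw _ hp] at h3
      have h4 : multiplicity q p ≠ 0 := by rwa [ne_eq, multiplicity_eq_zero, not_not]
      have h5 : multiplicity q (linSubst g p) ≠ 0 := by omega
      rwa [ne_eq, multiplicity_eq_zero, not_not] at h5
    · have h3 := hσ2 (pol p) (UNR.pol_ne_zero hp)
      have h4 : w.ord (pol p) = 0 := by
        rw [hw p hp, multiplicity_eq_zero.mpr hqp, Nat.cast_zero]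
      rw [h4, zero_add, hg, Int.cast_zero, mul_zero, zero_div, Complex.exp_zero, map_one,
        one_mul] at h3
      refine UNR.dvd_of_ge w hw le_rfl (k := 1) ?_
      have h5 : pol (linSubst g p - p) = pol (linSubst g p) - pol p := map_sub _ _ _
      rw [h5]
      exact h3
  -- `g` is not the identity
  have hg1 : g ≠ 1 := by
    rintro rfl
    have hqq : w.ord (pol q) = 1 := by
      rw [hw q hq.ne_zero, multiplicity_self, Nat.cast_one]
    have h3 := hσ2 (pol q) (UNR.pol_ne_zero hq.ne_zero)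
    rw [hg, HTQ.linSubst_one, hqq, Int.cast_one, mul_one] at h3
    have hζ : Complex.exp (2 * Real.pi * Complex.I / e) ≠ 1 :=
      (Complex.isPrimitiveRoot_exp e hepos.ne').ne_one he2
    have h4 : pol q - algebraMap ℂ (Rat n) (Complex.exp (2 * Real.pi * Complex.I / e)) * pol q =
        algebraMap ℂ (Rat n) (1 - Complex.exp (2 * Real.pi * Complex.I / e)) * pol q := by
      rw [map_sub, map_one, sub_mul, one_mul]
    rw [h4] at h3
    have h5 : (1 - Complex.exp (2 * Real.pi * Complex.I / e)) ≠ 0 :=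
      sub_ne_zero.mpr hζ.symm
    have h6 := h3.le (mul_ne_zero
      ((map_ne_zero_iff _ (algebraMap ℂ (Rat n)).injective).mpr h5) (UNR.pol_ne_zero hq.ne_zero))
    rw [DivVal.ord_const_mul w h5, hqq] at h6
    omega
  obtain ⟨c, d, hcd⟩ := rank_one g hg1 hq fun i => htriv (MvPolynomial.X i)
  exact hg1 (hfree g hgG c d hcd)

end NRB

/-- NRB: without reflections the boundary is zero. -/
theorem t_NRB : Stmt_NRB := by
  intro n X G _ T hn hfree hT P b hPb
  obtain ⟨_, φ, hφ, hcr⟩ := hT
  obtain ⟨hPm, v, hvP, hb⟩ := hPb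
  obtain ⟨inst, hS⟩ := t_GAL X G φ hφ
  obtain ⟨q, e, hq, hq0, hv⟩ := c_LOQ hS hn P v hPm hvP
  have he1 : e = 1 := NRB.unram hS hfree q hq v e hv
  have h5 := hcr q hq hq0 v e hv
  rw [he1] at h5
  have h6 : T.logDisc v = 1 := by simpa using h5
  linarith

end

end G5
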