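import Pool.Agent.G5.St

/-!
RED: the reduction to the six base cases.
-/

namespace G5

open MldGeo MldGap
open MldX (freeGap)

noncomputable section

namespace RED

lemma fg0 : freeGap 0 = 1 := rfl
lemma fg1 : freeGap 1 = 3 := rfl
lemma fg2 : freeGap 2 = 26 := rfl
lemma fg3 : freeGap 3 = 1518 := rfl

lemma thr_int (k : ℤ) : thr (k : ℝ) = 1 := by
  unfold thr
  rw [Int.ceil_intCast]
  ring

lemma thr_neg {t : ℝ} (h0 : 0 < t) (h1 : t < 1) : thr (((-1 : ℤ) : ℝ) * t) = 1 - t := by
  unfold thr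
  have h : ⌈((-1 : ℤ) : ℝ) * t⌉ = 0 := by
    rw [Int.ceil_eq_iff]
    push_cast
    constructor <;> linarith
  rw [h]
  push_cast
  ring

/-- a coordinate equal to one is removed -/
lemma remove {m l : ℕ} {x : Fin (m + 1) → ℝ} (hx : CPt (l + 1) x) {i : Fin (m + 1)}
    (hi : x i = 1) : CPt l (fun j => x (i.succAbove j)) where
  pos := fun j => hx.pos _
  le := fun j => hx.le _
  lt := by
    have h := hx.lt
    rw [Fin.sum_univ_succAbove x i, hi] at h
    push_cast at h
    linarith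
  min := by
    intro k
    have h := hx.min k
    rw [Fin.sum_univ_succAbove x i, Fin.sum_univ_succAbove (fun j => thr (k * x j)) i, hi, mul_one,
      thr_int] at h
    linarith
  refl := by
    intro j k hj
    refine hx.refl (i.succAbove j) k fun j' hj' => ?_
    rcases eq_or_ne j' i with rfl | hne
    · rw [hi, mul_one, Int.fract_intCast]
    · obtain ⟨j'', rfl⟩ := Fin.exists_succAbove_eq hne
      refine hj j'' fun h => hj' ?_
      rw [h]

/-- all coordinates less than one -/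
lemma half {m l : ℕ} {x : Fin m → ℝ} (hx : CPt l x) (h1 : ∀ i, x i < 1) :
    2 * ∑ i, x i ≤ m := by
  have h := hx.min (-1)
  have h2 : ∑ i, thr (((-1 : ℤ) : ℝ) * x i) = ∑ i, (1 - x i) :=
    Finset.sum_congr rfl fun i _ => thr_neg (hx.pos i) (h1 i)
  rw [h2, Finset.sum_sub_distrib, Finset.sum_const, Finset.card_univ, Fintype.card_fin,
    nsmul_eq_mul, mul_one] at h
  linarith

lemma inner (b1 : Base 2 1 3) (b2 : Base 3 1 26) (b3 : Base 4 2 26) (b4 : Base 4 1 1518)
    (b5 : Base 5 2 1518) (b6 : Base 6 3 1518) {m l : ℕ} (hl : 1 ≤ l) (hm : l ≤ m)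
    (hm3 : m ≤ l + 3) {x : Fin m → ℝ} (hx : CPt l x) (h1 : ∀ i, x i < 1) :
    ∑ i, x i ≤ (l : ℝ) - 1 / (freeGap (m - l) : ℝ) := by
  have hh := half hx h1
  have hc : m = l ∨ m = l + 1 ∨ m = l + 2 ∨ m = l + 3 := by omega
  rcases hc with rfl | rfl | rfl | rfl
  · rw [Nat.sub_self, fg0]
    rcases Nat.lt_or_ge m 2 with h2 | h2
    · obtain rfl : m = 1 := by omega
      exfalso
      have h3 := hx.refl 0 1 fun j hj => absurd (Subsingleton.elim j 0) hj
      rw [Int.cast_one, one_mul, Int.fract_eq_self.2 ⟨(hx.pos 0).le, h1 0⟩] at h3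
      exact absurd h3 (hx.pos 0).ne'
    · have h3 : (2 : ℝ) ≤ m := by exact_mod_cast h2
      push_cast
      linarith
  · rw [Nat.add_sub_cancel_left, fg1]
    rcases Nat.lt_or_ge l 2 with h2 | h2
    · obtain rfl : l = 1 := by omega
      exact b1 x hx h1
    · have h3 : (2 : ℝ) ≤ l := by exact_mod_cast h2
      push_cast at hh ⊢
      linarith
  · rw [Nat.add_sub_cancel_left, fg2]
    rcases Nat.lt_or_ge l 3 with h2 | h2
    · obtain rfl | rfl : l = 1 ∨ l = 2 := by omega
      · exact b2 x hx h1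
      · exact b3 x hx h1
    · have h3 : (3 : ℝ) ≤ l := by exact_mod_cast h2
      push_cast at hh ⊢
      linarith
  · rw [Nat.add_sub_cancel_left, fg3]
    rcases Nat.lt_or_ge l 4 with h2 | h2
    · obtain rfl | rfl | rfl : l = 1 ∨ l = 2 ∨ l = 3 := by omega
      · exact b4 x hx h1
      · exact b5 x hx h1
      · exact b6 x hx h1
    · have h3 : (4 : ℝ) ≤ l := by exact_mod_cast h2
      push_cast at hh ⊢
      linarith

lemma key (b1 : Base 2 1 3) (b2 : Base 3 1 26) (b3 : Base 4 2 26) (b4 : Base 4 1 1518)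
    (b5 : Base 5 2 1518) (b6 : Base 6 3 1518) : ∀ l m : ℕ, 1 ≤ l → l ≤ m → m ≤ l + 3 →
    ∀ x : Fin m → ℝ, CPt l x → ∑ i, x i ≤ (l : ℝ) - 1 / (freeGap (m - l) : ℝ) := by
  intro l
  induction l with
  | zero => intro m h; omega
  | succ l ih =>
    intro m hl hm hm3 x hx
    by_cases h1 : ∀ i, x i < 1
    · exact inner b1 b2 b3 b4 b5 b6 hl hm hm3 hx h1
    · push Not at h1
      obtain ⟨i, hi⟩ := h1
      have hi1 : x i = 1 := le_antisymm (hx.le i) hi
      obtain ⟨m', rfl⟩ : ∃ m', m = m' + 1 := ⟨m - 1, by omega⟩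
      have hy := remove hx hi1
      have hs : ∑ j, x j = 1 + ∑ j, x (i.succAbove j) := by
        rw [Fin.sum_univ_succAbove x i, hi1]
      rcases Nat.eq_zero_or_pos l with rfl | hl'
      · exfalso
        have h2 := hy.lt
        have h3 : 0 ≤ ∑ j, x (i.succAbove j) := Finset.sum_nonneg fun j _ => (hx.pos _).le
        push_cast at h2
        linarith
      · have h2 := ih m' hl' (by omega) (by omega) _ hy
        have e : m' + 1 - (l + 1) = m' - l := by omega
        rw [hs, e]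
        push_cast
        linarith

lemma sum_le {m l : ℕ} {x : Fin m → ℝ} (hx : CPt l x) : ∑ i, x i ≤ m := by
  calc ∑ i, x i ≤ ∑ i : Fin m, (1 : ℝ) := Finset.sum_le_sum fun i _ => hx.le i
    _ = m := by simp

lemma fg_pos {d : ℕ} (hd : d ≤ 3) : (1 : ℝ) ≤ (freeGap d : ℝ) := by
  interval_cases d
  · rw [fg0]; norm_num
  · rw [fg1]; norm_num
  · rw [fg2]; norm_num
  · rw [fg3]; norm_num

lemma fg_mono {d e : ℕ} (h : d ≤ e) (he : e ≤ 3) : (freeGap d : ℝ) ≤ (freeGap e : ℝ) := by
  interval_cases e <;> interval_cases d <;> simp only [fg0, fg1, fg2, fg3] <;> norm_num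

end RED

theorem t_RED : Stmt_RED := by
  intro b1 b2 b3 b4 b5 b6 n l hl hn m hm x hx
  have hd : n - l ≤ 3 := by omega
  have hp := RED.fg_pos hd
  rcases Nat.lt_or_ge m l with h1 | h1
  · have h2 := RED.sum_le hx
    have h3 : (m : ℝ) + 1 ≤ l := by exact_mod_cast h1
    have h4 : 1 / (freeGap (n - l) : ℝ) ≤ 1 := by
      rw [div_le_one (by linarith)]
      exact hp
    linarith
  · have h2 := RED.key b1 b2 b3 b4 b5 b6 l m hl h1 (by omega) x hx
    have h3 : (freeGap (m - l) : ℝ) ≤ (freeGap (n - l) : ℝ) := RED.fg_mono (by omega) hd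
    have h4 : 1 / (freeGap (n - l) : ℝ) ≤ 1 / (freeGap (m - l) : ℝ) :=
      one_div_le_one_div_of_le (lt_of_lt_of_le one_pos (RED.fg_pos (by omega))) h3
    linarith

end

end G5
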