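import Pool.Agent.G5.St
import Pool.Agent.MldGeo.UNR
import Pool.Agent.MldGeo.Closed5

/-!
# RFB: without boundary there are no reflections
-/

namespace G5

open MldGeo MldGap MvPolynomial

noncomputable section

namespace RFB

variable {n : ℕ}

open MldGeo.UNR (lf coeff_lf totalDegree_lf lf_ne_zero linSubst_sub pol_ne_zero)

theorem irreducible_lf {d : Fin n → ℂ} (hd : d ≠ 0) : Irreducible (lf d) := by
  obtain ⟨i, hi⟩ : ∃ i, d i ≠ 0 := by
    by_contra h
    push Not at h
    exact hd (funext h)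
  apply irreducible_of_totalDegree_eq_one
  · apply le_antisymm (totalDegree_lf d)
    rw [← not_lt, Nat.lt_one_iff, totalDegree_eq_zero_iff]
    intro h
    have h1 := h (Finsupp.single i 1) (by rwa [mem_support_iff, coeff_lf]) i
    simp at h1
  · intro r hr
    have h1 := hr (Finsupp.single i 1)
    rw [coeff_lf] at h1
    refine isUnit_iff_ne_zero.2 ?_
    rintro rfl
    exact hi (zero_dvd_iff.1 h1)

theorem constantCoeff_lf (d : Fin n → ℂ) : constantCoeff (lf d) = 0 := by
  unfold lf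
  rw [map_sum]
  refine Finset.sum_eq_zero fun i _ => ?_
  rw [map_mul, constantCoeff_X, mul_zero]

/-- the effect on the variables -/
theorem subst_X {g : GL (Fin n) ℂ} {c d : Fin n → ℂ}
    (h : ∀ i j, (g : Matrix (Fin n) (Fin n) ℂ) i j = (1 : Matrix (Fin n) (Fin n) ℂ) i j + c i * d j)
    (i : Fin n) : linSubst g (X i) = X i + C (c i) * lf d := by
  have h1 : linSubst g (X i) - X i = C (c i) * lf d := by
    rw [linSubst_sub]
    unfold lf
    rw [Finset.mul_sum]
    refine Finset.sum_congr rfl fun j _ => ?_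
    rw [Matrix.sub_apply, h i j, add_sub_cancel_left, C_mul, mul_assoc]
  rw [← h1]
  ring

/-- the factor -/
def mu (c d : Fin n → ℂ) : ℂ := 1 + ∑ i, d i * c i

theorem subst_lf {g : GL (Fin n) ℂ} {c d : Fin n → ℂ}
    (h : ∀ i j, (g : Matrix (Fin n) (Fin n) ℂ) i j = (1 : Matrix (Fin n) (Fin n) ℂ) i j + c i * d j) :
    linSubst g (lf d) = C (mu c d) * lf d := by
  have h1 : linSubst g (lf d) = ∑ i, C (d i) * (X i + C (c i) * lf d) := by
    conv_lhs => unfold lf
    rw [map_sum]
    refine Finset.sum_congr rfl fun i _ => ?_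
    rw [map_mul, subst_X h, algHom_C]
    rfl
  rw [h1]
  have h2 : ∑ i, C (d i) * (X i + C (c i) * lf d) =
      ∑ i, C (d i) * X i + (∑ i, C (d i) * C (c i)) * lf d := by
    rw [Finset.sum_mul, ← Finset.sum_add_distrib]
    refine Finset.sum_congr rfl fun i _ => ?_
    ring
  have h3 : (∑ i, C (d i) * (X i : MvPolynomial (Fin n) ℂ)) = lf d := rfl
  rw [h2, h3, mu, C_add, map_one, map_sum, add_mul, one_mul]
  simp only [C_mul]

/-- the polynomials are fixed modulo the linear form -/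
theorem dvd_sub {g : GL (Fin n) ℂ} {c d : Fin n → ℂ}
    (h : ∀ i j, (g : Matrix (Fin n) (Fin n) ℂ) i j = (1 : Matrix (Fin n) (Fin n) ℂ) i j + c i * d j)
    (p : MvPolynomial (Fin n) ℂ) : lf d ∣ linSubst g p - p := by
  have key : (Ideal.Quotient.mkₐ ℂ (Ideal.span {lf d})).comp (linSubst g) =
      Ideal.Quotient.mkₐ ℂ (Ideal.span {lf d}) := by
    apply MvPolynomial.algHom_ext
    intro i
    rw [AlgHom.comp_apply, Ideal.Quotient.mkₐ_eq_mk, Ideal.Quotient.eq, subst_X h,
      add_sub_cancel_left]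
    exact Ideal.mul_mem_left _ _ (Ideal.mem_span_singleton_self _)
  have h1 := DFunLike.congr_fun key p
  rw [AlgHom.comp_apply, Ideal.Quotient.mkₐ_eq_mk, Ideal.Quotient.eq,
    Ideal.mem_span_singleton] at h1
  exact h1

/-- a unipotent reflection has infinite order -/
theorem mu_ne_one (G : Subgroup (GL (Fin n) ℂ)) [Finite G] {g : GL (Fin n) ℂ} (hg : g ∈ G)
    (hg1 : g ≠ 1) {c d : Fin n → ℂ} (hd : d ≠ 0)
    (h : ∀ i j, (g : Matrix (Fin n) (Fin n) ℂ) i j = (1 : Matrix (Fin n) (Fin n) ℂ) i j + c i * d j) :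
    mu c d ≠ 1 := by
  intro hmu
  have hq : linSubst g (lf d) = lf d := by rw [subst_lf h, hmu, C_1, one_mul]
  have hk : ∀ (k : ℕ) (i : Fin n), linSubst (g ^ k) (X i) = X i + C (k * c i) * lf d := by
    intro k
    induction k with
    | zero =>
      intro i
      rw [pow_zero, HTQ.linSubst_one]
      simp
    | succ k ih =>
      intro i
      rw [pow_succ', ← HTQ.linSubst_comp, subst_X h, map_add, ih, map_mul (linSubst (g ^ k))]
      have h2 : linSubst (g ^ k) (lf d) = lf d := by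
        clear ih
        induction k with
        | zero => rw [pow_zero, HTQ.linSubst_one]
        | succ k ih => rw [pow_succ', ← HTQ.linSubst_comp, hq, ih]
      rw [h2, algHom_C]
      have h3 : (algebraMap ℂ (MvPolynomial (Fin n) ℂ)) (c i) = C (c i) := rfl
      rw [h3]
      push_cast
      rw [add_mul, one_mul, C_add, add_mul]
      ring
  obtain ⟨m, hm, hgm⟩ : ∃ m : ℕ, 0 < m ∧ g ^ m = 1 := by
    have h1 : IsOfFinOrder (⟨g, hg⟩ : G) := isOfFinOrder_of_finite _
    obtain ⟨m, hm, h2⟩ := isOfFinOrder_iff_pow_eq_one.1 h1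
    refine ⟨m, hm, ?_⟩
    have h3 := congrArg Subtype.val h2
    simpa using h3
  have hc : ∀ i, c i = 0 := by
    intro i
    have h1 := hk m i
    rw [hgm, HTQ.linSubst_one] at h1
    have h2 : C ((m : ℂ) * c i) * lf d = 0 := by
      have h3 : (X i : MvPolynomial (Fin n) ℂ) + 0 = X i + C ((m : ℂ) * c i) * lf d := by
        rw [add_zero]; exact h1
      exact (add_left_cancel h3).symm
    rcases mul_eq_zero.1 h2 with h3 | h3
    · rw [C_eq_zero] at h3
      rcases mul_eq_zero.1 h3 with h4 | h4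
      · exfalso
        have : m = 0 := by exact_mod_cast h4
        omega
      · exact h4
    · exact absurd h3 (lf_ne_zero hd)
  apply hg1
  apply Units.ext
  ext i j
  rw [h i j, hc i, zero_mul, add_zero]
  rfl

/-- the key computation: a quotient of polynomials of order `1` is not invariant -/
theorem key {g : GL (Fin n) ℂ} {c d : Fin n → ℂ} (hd : d ≠ 0)
    (h : ∀ i j, (g : Matrix (Fin n) (Fin n) ℂ) i j = (1 : Matrix (Fin n) (Fin n) ℂ) i j + c i * d j)
    {a b : MvPolynomial (Fin n) ℂ} (ha : a ≠ 0) (hb : b ≠ 0)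
    (hab : linSubst g a * b = a * linSubst g b)
    (hm : multiplicity (lf d) a = multiplicity (lf d) b + 1) : mu c d = 1 := by
  have hirr := irreducible_lf hd
  have hprime : Prime (lf d) := hirr.prime
  have hfa : FiniteMultiplicity (lf d) a := FiniteMultiplicity.of_prime_left hprime ha
  have hfb : FiniteMultiplicity (lf d) b := FiniteMultiplicity.of_prime_left hprime hb
  obtain ⟨a', ha', hna⟩ := hfa.exists_eq_pow_mul_and_not_dvd
  obtain ⟨b', hb', hnb⟩ := hfb.exists_eq_pow_mul_and_not_dvd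
  obtain ⟨β, hβ⟩ : ∃ β, β = multiplicity (lf d) b := ⟨_, rfl⟩
  rw [hm, ← hβ] at ha'
  rw [← hβ] at hb'
  have hq0 : lf d ≠ 0 := lf_ne_zero hd
  have hmu0 : C (mu c d) ≠ (0 : MvPolynomial (Fin n) ℂ) := by
    intro h0
    have h1 := subst_lf h
    rw [h0, zero_mul] at h1
    exact hq0 (HTQ.linSubst_injective g (by rw [h1, map_zero]))
  have e1 : linSubst g a = C (mu c d) ^ (β + 1) * lf d ^ (β + 1) * linSubst g a' := by
    rw [ha', map_mul, map_pow, subst_lf h, mul_pow]
  have e2 : linSubst g b = C (mu c d) ^ β * lf d ^ β * linSubst g b' := by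
    rw [hb', map_mul, map_pow, subst_lf h, mul_pow]
  rw [e1, e2] at hab
  have e3 : (C (mu c d) ^ β * lf d ^ (β + 1) * lf d ^ β) * (C (mu c d) * linSubst g a' * b') =
      (C (mu c d) ^ β * lf d ^ (β + 1) * lf d ^ β) * (a' * linSubst g b') := by
    calc _ = C (mu c d) ^ (β + 1) * lf d ^ (β + 1) * linSubst g a' * (lf d ^ β * b') := by ring
      _ = C (mu c d) ^ (β + 1) * lf d ^ (β + 1) * linSubst g a' * b := by rw [← hb']
      _ = a * (C (mu c d) ^ β * lf d ^ β * linSubst g b') := hab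
      _ = lf d ^ (β + 1) * a' * (C (mu c d) ^ β * lf d ^ β * linSubst g b') := by rw [← ha']
      _ = _ := by ring
  have e4 := mul_left_cancel₀ (mul_ne_zero (mul_ne_zero (pow_ne_zero _ hmu0) (pow_ne_zero _ hq0))
    (pow_ne_zero _ hq0)) e3
  have d1 := dvd_sub h a'
  have d2 := dvd_sub h b'
  have d3 : lf d ∣ C (mu c d - 1) * (a' * b') := by
    have e5 : C (mu c d - 1) * (a' * b') = a' * (linSubst g b' - b') -
        C (mu c d) * b' * (linSubst g a' - a') := by
      rw [C_sub, C_1]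
      linear_combination e4
    rw [e5]
    exact _root_.dvd_sub (Dvd.dvd.mul_left d2 _) (Dvd.dvd.mul_left d1 _)
  by_contra hne
  have hu : IsUnit (C (mu c d - 1) : MvPolynomial (Fin n) ℂ) :=
    (isUnit_iff_ne_zero.mpr (sub_ne_zero.2 hne)).map C
  rcases hprime.dvd_or_dvd d3 with h1 | h1
  · exact hprime.not_isUnit (isUnit_of_dvd_unit h1 hu)
  · rcases hprime.dvd_or_dvd h1 with h2 | h2
    · exact hna h2
    · exact hnb h2

end RFB

open RFB UNR in
theorem RFB_core (h1 : Stmt_GAL) (h2 : Stmt_ORQ) (h3 : Stmt_EXR) (h4 : Stmt_HTQ) : Stmt_RFB := by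
  intro n X G _ T hn hT hnb g hg c d h
  by_contra hg1
  have hd : d ≠ 0 := by
    rintro rfl
    apply hg1
    apply Units.ext
    ext i j
    rw [h i j, Pi.zero_apply, mul_zero, add_zero]
    rfl
  obtain ⟨hJ, φ, hφ, hcr⟩ := hT
  obtain ⟨alg, hQ⟩ := h1 X G φ hφ
  have := hQ.tower
  have := hQ.fin
  have := hQ.gal
  have hirr := irreducible_lf hd
  obtain ⟨w, hw, -⟩ := h2 (lf d) hirr
  obtain ⟨v, e, he⟩ := h3 (K := X.K) w hn
  have hinj : Function.Injective (algebraMap X.K (Rat n)) := (algebraMap X.K (Rat n)).injective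
  have hve : ∀ a : X.R, a ≠ 0 →
      (multiplicity (lf d) (φ a : MvPolynomial (Fin n) ℂ) : ℤ) = e * v.ord a := by
    intro a ha
    have hφa : (φ a : MvPolynomial (Fin n) ℂ) ≠ 0 := by
      intro h0
      apply ha
      have h5 : φ a = 0 := Subtype.ext h0
      rw [← φ.symm_apply_apply a, h5, map_zero]
    rw [← hw _ hφa, ← hQ.map a]
    exact he.2 a
  obtain ⟨hepos, P, hPm, hvP⟩ := h4 hQ (lf d) hirr (constantCoeff_lf d) v e hve
  have hc : T.Coeff P (1 - T.logDisc v) := ⟨hPm, v, hvP, by ring⟩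
  have h0 := hnb P _ hc
  have h5 : T.logDisc v = 1 := by linarith
  have h6 := hcr (lf d) hirr (constantCoeff_lf d) v e hve
  rw [h5, one_mul] at h6
  have he1 : e = 1 := by exact_mod_cast h6
  subst he1
  obtain ⟨t, ht0, ht⟩ := v.unif
  have hwt : w.ord (algebraMap X.K (Rat n) t) = 1 := by
    rw [he.2 t, ht]
    norm_num
  have hT0 : algebraMap X.K (Rat n) t ≠ 0 := (map_ne_zero_iff _ hinj).2 ht0
  obtain ⟨a, b, hb, hab⟩ := IsFractionRing.div_surjective (A := MvPolynomial (Fin n) ℂ)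
    (algebraMap X.K (Rat n) t)
  have hb0 : b ≠ 0 := nonZeroDivisors.ne_zero hb
  have hpb : pol b ≠ 0 := pol_ne_zero hb0
  have hab' : pol a / pol b = algebraMap X.K (Rat n) t := hab
  have ha0 : a ≠ 0 := by
    rintro rfl
    apply hT0
    rw [← hab']
    have : pol (0 : MvPolynomial (Fin n) ℂ) = 0 := map_zero _
    rw [this, zero_div]
  have hpa : pol a ≠ 0 := pol_ne_zero ha0
  have hmul : pol a = algebraMap X.K (Rat n) t * pol b := by
    rw [← hab', div_mul_cancel₀ _ hpb]
  have hm : multiplicity (lf d) a = multiplicity (lf d) b + 1 := by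
    have h7 := w.ord_mul _ _ hT0 hpb
    rw [← hmul, hw a ha0, hw b hb0, hwt] at h7
    omega
  obtain ⟨σ, hσ⟩ := hQ.act' g hg
  have hσt : σ (algebraMap X.K (Rat n) t) = algebraMap X.K (Rat n) t := σ.commutes t
  have h8 : pol (linSubst g a) = algebraMap X.K (Rat n) t * pol (linSubst g b) := by
    calc pol (linSubst g a) = σ (pol a) := (hσ a).symm
      _ = σ (algebraMap X.K (Rat n) t * pol b) := by rw [hmul]
      _ = σ (algebraMap X.K (Rat n) t) * σ (pol b) := map_mul _ _ _
      _ = _ := by rw [hσt, hσ]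
  have h9 : pol (linSubst g a * b) = pol (a * linSubst g b) := by
    have m1 : ∀ x y : MvPolynomial (Fin n) ℂ, pol (x * y) = pol x * pol y := fun x y => map_mul _ _ _
    rw [m1, m1, h8, hmul]
    ring
  have h10 : linSubst g a * b = a * linSubst g b :=
    IsFractionRing.injective (MvPolynomial (Fin n) ℂ) (Rat n) h9
  exact mu_ne_one G hg hg1 hd h (key hd h ha0 hb0 h10 hm)

theorem t_RFB : Stmt_RFB := RFB_core t_GAL c_ORQ t_EXR c_HTQ

end

end G5
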