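import Pool.Agent.MldG.StmtsF
import Pool.Agent.MldGeo.Stmts2
import Pool.Agent.MldGap.Fam
import Pool.Agent.MldX.G4Defs

/-!
# Sharp gaps without boundary for the minimal log discrepancy at closed points: statements

Target: for `2 ≤ n`, `1 ≤ l ≤ n` the number `l - 1 / h`, `h = freeGap (n - l)` (`1, 3, 26, 1518, …`) is
a minimal log discrepancy of a toric singularity and of a quotient `ℂⁿ / G` without boundary, and it is
the largest one below `l` if `n - l ≤ 3`. The minimal log discrepancies are taken at closed points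
(the centre of the divisors is the closed point).

The germs, triples and valuations here are those of `Pool.Agent.MldGeo`; the comparison with
`Pool.Agent.MldX` is made at the end.
-/

namespace G5

open MldGeo MldGap MvPolynomial
open MldX (freeGap)

noncomputable section

/-- The representative of `t` modulo one in `(0, 1]`. -/
def thr (t : ℝ) : ℝ := t - ⌈t⌉ + 1

/-- The arithmetic conditions: `0 < x i ≤ 1`, the sum is `< l` and minimal among the sums of the
representatives in `(0, 1]` of the multiples, and no multiple of `x` is (modulo one) zero except for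
exactly one coordinate. -/
structure CPt {m : ℕ} (l : ℕ) (x : Fin m → ℝ) : Prop where
  pos : ∀ i, 0 < x i
  le : ∀ i, x i ≤ 1
  lt : ∑ i, x i < l
  min : ∀ k : ℤ, ∑ i, x i ≤ ∑ i, thr (k * x i)
  refl : ∀ (i : Fin m) (k : ℤ), (∀ j, j ≠ i → Int.fract (k * x j) = 0) → Int.fract (k * x i) = 0

/-- The bound `b` holds for the arithmetic problem with at most `n` coordinates. -/
def Core (n l : ℕ) (b : ℝ) : Prop := ∀ m ≤ n, ∀ x : Fin m → ℝ, CPt l x → ∑ i, x i ≤ b

/-- The bound `l - 1 / K` holds for `m` coordinates, all of them `< 1` (proved by certificates for the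
six cases of RED). -/
def Base (m l K : ℕ) : Prop :=
  ∀ x : Fin m → ℝ, CPt l x → (∀ i, x i < 1) → ∑ i, x i ≤ (l : ℝ) - 1 / K

/-- `G` contains no reflection: an element `g` with `g - 1` of rank `≤ 1` is `1`. -/
def NoRefl {n : ℕ} (G : Subgroup (GL (Fin n) ℂ)) : Prop :=
  ∀ g ∈ G, ∀ c d : Fin n → ℂ,
    (∀ i j, (g : Matrix (Fin n) (Fin n) ℂ) i j = (1 : Matrix (Fin n) (Fin n) ℂ) i j + c i * d j) →
      g = 1

/-- The residue of `t` modulo `h` in `1, …, h`. -/
def res (h t : ℕ) : ℕ := if t % h = 0 then h else t % h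

/-! ## arithmetic -/

/-- RED: the reduction to the six base cases. PROOF. First: for all `m l : ℕ` with `1 ≤ l ≤ m ≤ l + 3` and
`x : Fin m → ℝ` with `CPt l x` we have `∑ x i ≤ l - 1 / freeGap (m - l)`. Induction on `l` (or on `m`).
(a) Some `x i = 1`: remove it (`Fin (m - 1)`, `i.succAbove`; `Fin.sum_univ_succAbove`); the remaining
family satisfies `CPt (l - 1)`: `thr (k * 1) = 1`, so the sums of `x` and of `thr (k x)` drop by one;
for `refl` use `fract (k * 1) = 0`. If `l = 1` then the sum of the remaining nonnegative numbers is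
`< 0`, impossible. Otherwise induction, `m - l` is the same. (b) All `x i < 1`: `min` with `k = -1`:
`thr (-x i) = 1 - x i` (`0 < x i < 1`, `⌈-x i⌉ = 0`), so `2 ∑ x i ≤ m`. Let `d = m - l`, so
`∑ x i ≤ (l + d) / 2`, and this is `≤ l - 1 / freeGap d` if `2 / freeGap d ≤ l - d`
(`freeGap 0, 1, 2, 3 = 1, 3, 26, 1518`): this leaves `d = 0`, `l = 1` (`m = 1`: `refl` with `k = 1`, the
condition is empty, gives `fract (x 0) = 0`, impossible for `0 < x 0 < 1`), and the six cases
`(m, l) = (2,1), (3,1), (4,2), (4,1), (5,2), (6,3)` of the hypotheses. Then: `Core n l b`: let `m ≤ n`; if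
`m < l` then `∑ x i ≤ m ≤ l - 1 ≤ b` (`freeGap d ≥ 1`); if `l ≤ m` then `m - l ≤ n - l ≤ 3` and
`freeGap (m - l) ≤ freeGap (n - l)`. -/
def Stmt_RED : Prop :=
  Base 2 1 3 → Base 3 1 26 → Base 4 2 26 → Base 4 1 1518 → Base 5 2 1518 → Base 6 3 1518 →
    ∀ n l : ℕ, 1 ≤ l → n ≤ l + 3 → Core n l ((l : ℝ) - 1 / (freeGap (n - l) : ℝ))

/-- EXN: the weights of the extremal examples. PROOF. Case `l = n`: `h = 2`, `w = (1, 1, 0, …, 0)`,
`a = 2 n - 2` (`freeGap 0 = 1`). Case `l < n`, `d = n - l ≥ 1`: `s i = sylvester i`,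
`L = ∏ i < d - 1, s i = sylvester (d - 1) - 1`, `M = L³ + L² + 1`, `h = L M = freeGap d`,
`w i = h / s i` for `i < d - 1`, `w (d - 1) = a' := L³ - L + 1`, `w d = b' := L² + L - 1`, `w i = 0` for
`i > d` (`l - 1` zeros), `a = l h - 1`. Note `∑ i < d - 1, L / s i = L - 1`, `a' + b' = M - 1`, so the
first `d + 1` weights have the sum `h - 1`. `L a' = 1 + (L - 1) M` and `L M = 1 + (L² + 1) b'`, `a'` and
`b'` are `1` and `-1` modulo `L`: so `a'` and `b'` are prime to `h`. Last condition: one of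
the two indices `d - 1, d` is `≠ i`, so `h ∣ k`. The inequality: `res h 0 = h`, so it suffices that
`S := ∑ i ≤ d, res h (k w i) ≥ h - 1`. `S ≡ k (h - 1) ≡ - k` modulo `h`, `S > 0`. Let
`k₀ = k % h`; `S + k₀ ≡ 0`. If `k₀ = 0` then `S ≥ h`, if `k₀ = 1` then `S ≥ h - 1`. Let `k₀ ≥ 2` and
suppose `S ≤ h - 2`; then `0 < S + k₀ < 2 h`, so `S + k₀ = h`. For `i < d - 1`
`res h (k w i) = (h / s i) r i`, `r i = res (s i) k ≥ 1`; let `A = res h (k a')`, `B = res h (k b')`. So
`A + B + k₀ = h - ∑ r i h / s i = M (L - ∑ r i L / s i)`, positive, and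
`∑ r i L / s i ≥ ∑ L / s i = L - 1`: hence all `r i = 1` and `A + B + k₀ = M`. So `k₀ ≡ 1` modulo all
`s i`, i.e. modulo `L` (pairwise coprime), `k₀ = 1 + L j`, `j ≥ 1`; since `A, B ≥ 1` we have
`L j ≤ M - 3`, so `j ≤ L² + L - 1`. `A ≡ k₀ a' ≡ 1` modulo `L`; write `A = a' - L v` with an integer
`v ≤ L² - 1` (`A ≥ 1`). Modulo `M`: `a' - L v ≡ a' + L j a'`, so `v ≡ - j a' ≡ j (L² + L)`
(`a' = M - L² - L`). `B = M - k₀ - A = (L² + L - 1) - L j + L v ≥ 1` gives `v ≥ j - L`. Write
`j = q L + r`, `0 ≤ r < L`, `q ≤ L`: `j (L² + L) = q (M - 1) + r (L² + L)`, so `M` divides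
`D := r (L² + L) - q - v`; `- M < - L - (L² - 1) ≤ D ≤ (L³ - L) + L - j < M`, so `D = 0`,
`v = r (L² + L) - q`; `v ≤ L² - 1` and `q ≤ L` give `r = 0`; so `j = q L`, `q ≥ 1` and
`- q = v ≥ j - L = (q - 1) L ≥ 0`, a contradiction. -/
def Stmt_EXN : Prop :=
  ∀ n l : ℕ, 2 ≤ n → 1 ≤ l → l ≤ n → ∃ (h : ℕ) (w : Fin n → ℕ) (a : ℕ), 0 < h ∧
    (∀ k : ℕ, a ≤ ∑ i, res h (k * w i)) ∧ ∑ i, res h (w i) = a ∧
    (∀ (k : ℕ) (i : Fin n), (∀ j, j ≠ i → h ∣ k * w j) → h ∣ k * w i) ∧
    (a : ℝ) / h = (l : ℝ) - 1 / (freeGap (n - l) : ℝ)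

/-! ## toric germs -/

/-- TGB: toric germs. PROOF. As `MldGap/Toric.lean` (`toric_bound`), with a lattice point of least value
(there only an almost minimal one): `ψ (ray i) = 1`. The set of the `v ∈ N` in the interior of the cone
with `ψ v ≤ l` is finite (`N` is discrete, hence closed; the set is contained in the compact set of the
sums `∑ c i • ray i` with `0 ≤ c i ≤ l`, the image of a compact cube) and nonempty. Let `v` be the one
with the least value, `ψ v = mld < l`. `caratheodory`: `v = ∑ i ∈ I, x i • ray i`, `x i > 0`,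
independent, so `card I ≤ n`; enumerate `I` by `Fin m`. `CPt`: `x i ≤ 1`, since otherwise
`v - ray i` is an interior lattice point (`interior_of_pos`) of smaller value. `min`:
`∑ thr (k x i) • ray i = k • v - ∑ (⌈k x i⌉ - 1) • ray i` is an interior lattice point. `refl`:
`fract (k x i) • ray i = k • v - ∑ ⌊k x j⌋ • ray j ∈ N` and `ray_primitive`. -/
def Stmt_TGB : Prop :=
  ∀ {n : ℕ} (T : ToricGerm n) (l : ℕ) (b : ℝ), (∀ i, T.b i = 0) → Core n l b → T.mld < l → T.mld ≤ b

/-! ## quotients -/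

/-- AGL: quotients. PROOF. `{logAge g | g ∈ G}` is finite; let `g` be an element with the least value,
`logAge g = mldQuot G < l`. Enumerate the eigenvalues as in `G4/AGC.lean` or `MldGap/Quot.lean`
(`quot_bound`), `x i = th (f i)`; `logAge (g ^ k) = ∑ th (f i ^ k)`, and `th (z ^ k) = thr (k * th z)`
for `‖z‖ = 1` (`th_exp_le`, `exp_th`, or as `fr_pow` in `G4/AGC.lean`); for negative `k` add a multiple of
the order of `g`. `refl`: the eigenvalues of `g ^ k` are `1` except for the one of index `i`;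
diagonalize (`MldGeo/DIA.lean`: `P g P⁻¹ = diagonal l`, compare the multisets of the eigenvalues, or
apply DIA to `g ^ k`), so `g ^ k - 1` has rank `≤ 1`, i.e. it is `c i * d j`; `NoRefl` gives
`g ^ k = 1`, so `f i ^ k = 1`. -/
def Stmt_AGL : Prop :=
  ∀ {n : ℕ} (G : Subgroup (GL (Fin n) ℂ)) [Finite G] (l : ℕ) (b : ℝ), NoRefl G → Core n l b →
    mldQuot G < l → mldQuot G ≤ b

/-- NRB: without reflections the boundary is zero. PROOF. `MldGeo/UNR.lean` with `NoRefl G` in place of
`ActsFreely G` and `0 < n`: at the end (`htriv`) all rows of `g - 1` are proportional to one of them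
(`UNR.proportional`, `UNR.linSubst_sub`), `g - 1 = c i * d j`, so `g = 1`, contradiction; so `e = 1`. Then as
the second half of `MldGeo/FRE.lean` (`c_LOQ`, `c_GAL`, `c_ORQ`, `c_INE` are in `MldGeo/Closed*.lean`). -/
def Stmt_NRB : Prop :=
  ∀ {n : ℕ} {X : Germ n} (G : Subgroup (GL (Fin n) ℂ)) [Finite G] (T : Triple X), 0 < n →
    NoRefl G → T.IsLogQuotient G → T.NoBoundary

/-- RFB: without boundary there are no reflections. PROOF. Let `g ∈ G`, `g = 1 + c dᵀ`, `g ≠ 1`; `d ≠ 0`. Let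
`q = UNR.lf d` (a nonzero linear form, irreducible, `q (0) = 0`), `linSubst g q = μ q` with
`μ = 1 + d · c`; `μ ≠ 1`, since otherwise `g ^ k = 1 + k c dᵀ`, of infinite order. `linSubst g p - p` is
divisible by `q` for every `p` (for `p = X i` it is `c i * q`; induction). Let `w` be the valuation of `q`
(ORQ) and `v`, `e` its restriction to `X.K` (the statement on the restriction of valuations which is
used in `MldGeo/MLQ.lean`, or as in `UNR.lean`, `hext`). HTQ gives `P ≤ X.m` with `X.IsOrdAlong v P`, so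
`T.Coeff P (1 - T.logDisc v)` and `T.logDisc v = 1`; `T.Crepant` gives `T.logDisc v * e = 1`, so `e = 1`
(`T.IsLogQuotient G` has its own `φ`). Let `t : X.K` with `v.ord t = 1`, so `w.ord t = 1` in `Rat n`,
`t = q u`, `w.ord u = 0`, `t` is invariant under `g`: `q u = μ q (g u)`, so `u = μ (g u)`; but
`w (g u - u) ≥ 1` (for quotients of polynomials: `g` is trivial modulo `q`), so `μ = 1`,
contradiction. -/
def Stmt_RFB : Prop :=
  ∀ {n : ℕ} {X : Germ n} (G : Subgroup (GL (Fin n) ℂ)) [Finite G] (T : Triple X), 0 < n →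
    T.IsLogQuotient G → T.NoBoundary → NoRefl G

/-- EXG: cyclic groups of diagonal matrices. PROOF. As `MldGap/Quot.lean` (`quot_attained`) and
`MldGap/Fam.lean`: `g = Mk.dg f`, `f i = (w i : ZMod h)`, `G = zpowers g`;
`th (stdAddChar (t : ZMod h)) = res h t / h`; `logAge (g ^ k) = ∑ res h (k w i) / h ≥ a / h` with
equality for `k = 1`. `NoRefl`: let `g ^ k = 1 + c dᵀ ≠ 1`; it is diagonal, so some `c i * d i ≠ 0`, and for
`j ≠ i` `c i * d j = 0`, so `d j = 0` and the `j`-th entry of `g ^ k` is `1`, `h ∣ k w j`; so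
`h ∣ k w i` and the `i`-th entry is `1`, contradiction. -/
def Stmt_EXG : Prop :=
  ∀ {n : ℕ} (h : ℕ) (w : Fin n → ℕ) (a : ℕ), 0 < h → (∀ k : ℕ, a ≤ ∑ i, res h (k * w i)) →
    ∑ i, res h (w i) = a →
    (∀ (k : ℕ) (i : Fin n), (∀ j, j ≠ i → h ∣ k * w j) → h ∣ k * w i) →
    ∃ G : Subgroup (GL (Fin n) ℂ), Finite G ∧ NoRefl G ∧
      (∀ g ∈ G, ∀ i j, i ≠ j → (g : Matrix (Fin n) (Fin n) ℂ) i j = 0) ∧
      mldQuot G = (a : ℝ) / h

end

end G5
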