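import Pool.Agent.G5.St
import Pool.Agent.MldGap.Toric

/-!
# TGB: the bound for toric germs
-/

namespace G5

open MldGap Finset

noncomputable section

namespace TGB

variable {n : ℕ}

theorem psi_sum (T : ToricGerm n) (hb : ∀ i, T.b i = 0) (I : Finset T.ι) (w : T.ι → ℝ) :
    T.ψ (∑ i ∈ I, w i • T.ray i) = ∑ i ∈ I, w i := by
  rw [map_sum]
  refine sum_congr rfl fun i _ => ?_
  rw [map_smul, T.ψ_ray, hb i, smul_eq_mul]
  ring

theorem finite (T : ToricGerm n) (hb : ∀ i, T.b i = 0) (l : ℝ) :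
    {v : Fin n → ℝ | v ∈ T.N ∧ v ∈ coneOf T.ray ∧ T.ψ v ≤ l}.Finite := by
  have := T.discrete
  have hcl : IsClosed (T.N : Set (Fin n → ℝ)) := AddSubgroup.isClosed_of_discrete
  have hcomp : IsCompact ((fun c : T.ι → ℝ => ∑ i, c i • T.ray i) ''
      Set.Icc 0 (fun _ => l)) := by
    refine isCompact_Icc.image ?_
    fun_prop
  refine (Metric.finite_isBounded_inter_isClosed DiscreteTopology.isDiscrete
    hcomp.isBounded hcl).subset ?_
  rintro v ⟨hvN, ⟨c, hc, rfl⟩, hl⟩
  refine ⟨⟨c, ⟨fun i => hc i, fun i => ?_⟩, rfl⟩, hvN⟩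
  rw [psi_sum T hb univ] at hl
  exact (single_le_sum (fun j _ => hc j) (mem_univ i)).trans hl

/-- The minimal log discrepancy is attained. -/
theorem exists_min (T : ToricGerm n) (hb : ∀ i, T.b i = 0) (l : ℝ) (hlt : T.mld < l) :
    ∃ v ∈ T.N, v ∈ interior (coneOf T.ray) ∧ T.ψ v = T.mld := by
  obtain ⟨_, ⟨v0, hv0N, hv0, rfl⟩, hv0l⟩ := exists_lt_of_csInf_lt T.nonempty hlt
  have hfin : {v : Fin n → ℝ | v ∈ T.N ∧ v ∈ interior (coneOf T.ray) ∧ T.ψ v ≤ l}.Finite :=
    (finite T hb l).subset fun v hv => ⟨hv.1, interior_subset hv.2.1, hv.2.2⟩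
  obtain ⟨v, hv, hmin⟩ := Set.exists_min_image _ T.ψ hfin ⟨v0, hv0N, hv0, hv0l.le⟩
  refine ⟨v, hv.1, hv.2.1, le_antisymm ?_ (csInf_le T.bddBelow ⟨v, hv.1, hv.2.1, rfl⟩)⟩
  refine le_csInf T.nonempty ?_
  rintro _ ⟨w, hwN, hw, rfl⟩
  by_cases h : T.ψ w ≤ l
  · exact hmin w ⟨hwN, hw, h⟩
  · exact hv.2.2.trans (not_le.1 h).le

end TGB

open TGB in
/-- TGB -/
theorem t_TGB : Stmt_TGB := by
  classical
  intro n T l b hb hcore hlt
  obtain ⟨v, hvN, hvint, hvm⟩ := exists_min T hb l hlt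
  obtain ⟨I, x, hx, hvx, hind⟩ := caratheodory T.ray v (interior_subset hvint)
  rw [hvx] at hvN hvint hvm
  have hsum : ∑ i ∈ I, x i = T.mld := by rw [← psi_sum T hb, hvm]
  have hmin : ∀ w : T.ι → ℝ, (∀ i ∈ I, 0 < w i) → ∑ i ∈ I, w i • T.ray i ∈ T.N →
      T.mld ≤ ∑ i ∈ I, w i := by
    intro w hw hN
    rw [← psi_sum T hb]
    exact csInf_le T.bddBelow ⟨_, hN, interior_of_pos T.ray I x w hx hw hvint, rfl⟩
  have hcard : I.card ≤ n := by
    have := hind.fintype_card_le_finrank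
    simpa using this
  obtain ⟨e⟩ : Nonempty (Fin I.card ≃ I) := ⟨I.equivFin.symm⟩
  have hre : ∀ F : T.ι → ℝ, ∑ j : Fin I.card, F (e j) = ∑ i ∈ I, F i := by
    intro F
    rw [← Finset.sum_coe_sort I F]
    exact e.sum_comp (fun i => F i)
  have hshift : ∀ (k : ℤ) (z : T.ι → ℤ), ∑ i ∈ I, ((k : ℝ) * x i - z i) • T.ray i ∈ T.N := by
    intro k z
    have h1 : ∑ i ∈ I, ((k : ℝ) * x i - z i) • T.ray i =
        k • ∑ i ∈ I, x i • T.ray i - ∑ i ∈ I, (z i) • T.ray i := by
      rw [smul_sum, ← sum_sub_distrib]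
      refine sum_congr rfl fun i _ => ?_
      rw [sub_smul, Int.cast_smul_eq_zsmul, mul_smul, Int.cast_smul_eq_zsmul]
    rw [h1]
    exact T.N.sub_mem (T.N.zsmul_mem hvN k) (sum_mem fun i _ => T.N.zsmul_mem (T.ray_mem i) _)
  have hC : CPt l (fun j => x (e j)) := by
    refine ⟨fun j => hx _ (e j).2, fun j => ?_, ?_, fun k => ?_, fun j k hj => ?_⟩
    · by_contra hcon
      have hcon : 1 < x (e j) := not_le.1 hcon
      have h1 := hshift 1 (fun i => if i = (e j : T.ι) then 1 else 0)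
      have h2 := hmin _ (fun i hi => ?_) h1
      · rw [sum_sub_distrib] at h2
        have h3 : ∑ i ∈ I, (((if i = (e j : T.ι) then 1 else 0 : ℤ)) : ℝ) = 1 := by
          simp
        rw [h3] at h2
        have h4 : ∑ i ∈ I, ((1 : ℤ) : ℝ) * x i = T.mld := by
          rw [← hsum]
          refine sum_congr rfl fun i _ => ?_
          rw [Int.cast_one, one_mul]
        rw [h4] at h2
        linarith
      · by_cases h : i = (e j : T.ι)
        · subst h
          simp only [if_true, Int.cast_one]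
          linarith
        · simp only [h, if_false, Int.cast_zero, Int.cast_one]
          linarith [hx i hi]
    · rw [hre x, hsum]
      exact hlt
    · rw [hre x, hsum, hre (fun i => thr (k * x i))]
      have h0 : ∀ i, thr ((k : ℝ) * x i) = (k : ℝ) * x i - ((⌈(k : ℝ) * x i⌉ - 1 : ℤ) : ℝ) := by
        intro i
        unfold thr
        push_cast
        ring
      refine hmin _ (fun i _ => ?_) ?_
      · unfold thr
        linarith [Int.ceil_lt_add_one ((k : ℝ) * x i)]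
      · simp only [h0]
        exact hshift k (fun i => ⌈(k : ℝ) * x i⌉ - 1)
    · have h1 := hshift k (fun i => ⌊(k : ℝ) * x i⌋)
      have h2 : ∑ i ∈ I, ((k : ℝ) * x i - ((⌊(k : ℝ) * x i⌋ : ℤ) : ℝ)) • T.ray i =
          Int.fract ((k : ℝ) * x (e j)) • T.ray (e j) := by
        refine sum_eq_single_of_mem (e j : T.ι) (e j).2 fun i hi hne => ?_
        have h3 := hj (e.symm ⟨i, hi⟩) (fun h => hne (by rw [← h, Equiv.apply_symm_apply]))
        simp only [Equiv.apply_symm_apply] at h3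
        show Int.fract ((k : ℝ) * x i) • T.ray i = 0
        rw [h3, zero_smul]
      rw [h2] at h1
      by_contra hne
      have h4 : 0 < Int.fract ((k : ℝ) * x (e j)) :=
        lt_of_le_of_ne (Int.fract_nonneg _) (Ne.symm hne)
      exact absurd (T.ray_primitive _ _ h4 h1) (not_le.2 (Int.fract_lt_one _))
  have h := hcore I.card hcard _ hC
  rw [hre x, hsum] at h
  exact h

end

end G5
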